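import Pool.Agent.Helper38.FE.Low

/-! MODULE I, analytic lemmas. -/

open MeasureTheory Filter Topology ProbabilityTheory
open scoped InnerProductSpace ENNReal

namespace Pool.Agent.Helper38.FE

section I2

variable {H : Type} [NormedAddCommGroup H] [InnerProductSpace ℂ H] [CompleteSpace H]


/-- pure real analysis: a function with peaks of height `≥ 1 - o(1)` and logarithmic averages
`≤ 1 - c`. -/
theorem final_real (g chi : ℝ → ℝ) (C c : ℝ) (hc : 0 < c)
    (h0 : ∀ t, 0 < t → 0 ≤ g t)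
    (hchi : ∀ t : ℝ, 0 < t → t ≤ 1 → |chi t + (1 / 2) * ∫ u in t..1, g u / u| ≤ C)
    (hup : ∀ᶠ t in 𝓝[>] (0 : ℝ), ∫ u in t..1, g u / u ≤ (1 - c) * Real.log (1 / t))
    (tk ek : ℕ → ℝ) (htk : ∀ k, 0 < tk k) (htk0 : Tendsto tk atTop (𝓝 0))
    (hek : Tendsto ek atTop (𝓝 0)) (hlow : ∀ k, 1 - ek k ≤ g (tk k)) :
    (4 : EReal) - limsup (fun t : ℝ => ((chi t / Real.log (t ^ (1 / 2 : ℝ)) : ℝ) : EReal))
      (𝓝[>] 0) ≠
    (4 : EReal) - limsup (fun t : ℝ => ((g t : ℝ) : EReal)) (𝓝[>] 0) := by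
  set F : ℝ → ℝ := fun t => chi t / Real.log (t ^ (1 / 2 : ℝ)) with hF
  have hlog : Tendsto (fun t : ℝ => Real.log (1 / t)) (𝓝[>] 0) atTop := by
    have h1 : Tendsto (fun t : ℝ => t⁻¹) (𝓝[>] 0) atTop := tendsto_inv_nhdsGT_zero
    have h2 := Real.tendsto_log_atTop.comp h1
    refine h2.congr (fun t => ?_)
    simp [Function.comp, one_div]
  have hev1 : ∀ᶠ t in 𝓝[>] (0 : ℝ), F t ≤ 1 - c / 2 := by
    have hpos : ∀ᶠ t in 𝓝[>] (0 : ℝ), t ∈ Set.Ioo (0:ℝ) 1 := Ioo_mem_nhdsGT one_pos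
    filter_upwards [hup, hpos, hlog.eventually_ge_atTop (4 * C / c), hlog.eventually_gt_atTop 0]
      with t hupt ht hΛ hΛ0
    have hc1 := hchi t ht.1 ht.2.le
    have hc2 := (abs_le.1 hc1).1
    have hl : Real.log (t ^ (1 / 2 : ℝ)) = - (Real.log (1 / t) / 2) := by
      rw [Real.log_rpow ht.1, one_div t, Real.log_inv]
      ring
    have hFt : F t = (-2 * chi t) / Real.log (1 / t) := by
      rw [hF]
      beta_reduce
      rw [hl]
      field_simp
    rw [hFt, div_le_iff₀ hΛ0]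
    have h4 : 4 * C ≤ Real.log (1 / t) * c := (div_le_iff₀ hc).1 hΛ
    nlinarith
  have hls1 : limsup (fun t : ℝ => ((F t : ℝ) : EReal)) (𝓝[>] 0) ≤ ((1 - c / 2 : ℝ) : EReal) := by
    refine limsup_le_of_le (by isBoundedDefault) ?_
    filter_upwards [hev1] with t ht
    exact EReal.coe_le_coe_iff.2 ht
  have hls2 : ((1 - c / 4 : ℝ) : EReal) ≤ limsup (fun t : ℝ => ((g t : ℝ) : EReal)) (𝓝[>] 0) := by
    refine le_limsup_of_frequently_le ?_ (by isBoundedDefault)
    have ht : Tendsto tk atTop (𝓝[>] 0) :=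
      tendsto_nhdsWithin_iff.2 ⟨htk0, Eventually.of_forall (fun k => htk k)⟩
    refine ht.frequently (Eventually.frequently ?_)
    filter_upwards [hek.eventually (gt_mem_nhds (by positivity : (0:ℝ) < c / 4))] with k hk
    rw [EReal.coe_le_coe_iff]
    have := hlow k
    linarith
  intro heq
  have h1 : ((4 : ℝ) : EReal) - ((1 - c / 2 : ℝ) : EReal)
      ≤ ((4 : ℝ) : EReal) - limsup (fun t : ℝ => ((F t : ℝ) : EReal)) (𝓝[>] 0) :=
    EReal.sub_le_sub le_rfl hls1
  have h2 : ((4 : ℝ) : EReal) - limsup (fun t : ℝ => ((g t : ℝ) : EReal)) (𝓝[>] 0)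
      ≤ ((4 : ℝ) : EReal) - ((1 - c / 4 : ℝ) : EReal) :=
    EReal.sub_le_sub le_rfl hls2
  have h3 : ((4 : ℝ) : EReal) - ((1 - c / 2 : ℝ) : EReal)
      ≤ ((4 : ℝ) : EReal) - ((1 - c / 4 : ℝ) : EReal) := by
    refine h1.trans (le_trans (le_of_eq ?_) h2)
    exact heq
  rw [← EReal.coe_sub, ← EReal.coe_sub, EReal.coe_le_coe_iff] at h3
  linarith

end I2

section I1a

variable {H : Type} [NormedAddCommGroup H] [InnerProductSpace ℂ H] [CompleteSpace H]


/-- real analysis of the entropy integral -/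
theorem chi_real (g : ℝ → ℝ) (K : ℝ) (hK : 0 ≤ K) (hm : Measurable g)
    (h4 : ∀ t, 0 < t → g t ≤ 4) (hge : ∀ t, 0 < t → 16 * t / (K + 4 * t) ≤ g t) :
    ∃ C : ℝ, ∀ t : ℝ, 0 < t → t ≤ 1 →
      |(1 / 2) * (∫ u in Set.Ioi (0 : ℝ), (4 / (1 + u) - g (t + u) / (t + u))) +
        4 / 2 * Real.log (2 * Real.pi * Real.exp 1) + (1 / 2) * ∫ u in t..1, g u / u| ≤ C := by
  refine ⟨(8 + K) / 2 + |4 / 2 * Real.log (2 * Real.pi * Real.exp 1)|, ?_⟩
  intro t ht ht1
  have hshift : ∫ u in Set.Ioi (0 : ℝ), (4 / (1 + u) - g (t + u) / (t + u)) =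
      ∫ v in Set.Ioi t, (4 / (1 + (v - t)) - g v / v) := by
    have h1 := (measurePreserving_add_left volume t).setIntegral_preimage_emb
      (MeasurableEquiv.addLeft t).measurableEmbedding
      (fun v : ℝ => 4 / (1 + (v - t)) - g v / v) (Set.Ioi t)
    rw [← h1]
    have h2 : (fun x => t + x) ⁻¹' Set.Ioi t = Set.Ioi (0:ℝ) := by
      ext x
      simp
    rw [h2]
    congr 1
    funext u
    rw [add_sub_cancel_left]
  have hgm : Measurable fun v : ℝ => g v / v := hm.div measurable_id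
  have hcm : Measurable fun v : ℝ => 4 / (1 + (v - t)) :=
    measurable_const.div (measurable_const.add (measurable_id.sub_const t))
  -- bounds
  have hglo : ∀ v, 0 < v → 16 / (K + 4 * v) ≤ g v / v := by
    intro v hv
    have h1 := hge v hv
    rw [le_div_iff₀ hv]
    calc 16 / (K + 4 * v) * v = 16 * v / (K + 4 * v) := by ring
      _ ≤ g v := h1
  have hg0 : ∀ v, 0 < v → 0 ≤ g v / v := by
    intro v hv
    refine le_trans ?_ (hglo v hv)
    positivity
  have hgup : ∀ v, 0 < v → g v / v ≤ 4 / v := fun v hv =>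
    div_le_div_of_nonneg_right (h4 v hv) hv.le
  have hint1 : IntegrableOn (fun v : ℝ => g v / v) (Set.Ioc t 1) := by
    refine Measure.integrableOn_of_bounded (M := 4 / t) (by simp) hgm.aestronglyMeasurable ?_
    refine (ae_restrict_iff' measurableSet_Ioc).2 (Filter.Eventually.of_forall fun v hv => ?_)
    have hv0 : 0 < v := lt_trans ht hv.1
    rw [Real.norm_eq_abs, abs_of_nonneg (hg0 v hv0)]
    refine (hgup v hv0).trans ?_
    exact div_le_div_of_nonneg_left (by norm_num) ht hv.1.le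
  have hcb : ∀ v ∈ Set.Ioc t 1, 0 ≤ 4 / (1 + (v - t)) ∧ 4 / (1 + (v - t)) ≤ 4 := by
    intro v hv
    have h1 : 1 ≤ 1 + (v - t) := by linarith [hv.1]
    have h2 : 0 < 1 + (v - t) := by linarith
    refine ⟨by positivity, ?_⟩
    rw [div_le_iff₀ h2]
    linarith
  have hint2 : IntegrableOn (fun v : ℝ => 4 / (1 + (v - t))) (Set.Ioc t 1) := by
    refine Measure.integrableOn_of_bounded (M := 4) (by simp) hcm.aestronglyMeasurable ?_
    refine (ae_restrict_iff' measurableSet_Ioc).2 (Filter.Eventually.of_forall fun v hv => ?_)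
    obtain ⟨h1, h2⟩ := hcb v hv
    rw [Real.norm_eq_abs, abs_of_nonneg h1]
    exact h2
  have hpow : IntegrableOn (fun v : ℝ => (4 + K) * v ^ (-2 : ℝ)) (Set.Ioi 1) :=
    (integrableOn_Ioi_rpow_of_lt (by norm_num) one_pos).const_mul _
  have hpowval : ∫ v in Set.Ioi (1:ℝ), (4 + K) * v ^ (-2 : ℝ) = 4 + K := by
    rw [integral_const_mul, integral_Ioi_rpow_of_lt (by norm_num) one_pos]
    norm_num
  have hbd : ∀ v ∈ Set.Ioi (1:ℝ), ‖4 / (1 + (v - t)) - g v / v‖ ≤ (4 + K) * v ^ (-2 : ℝ) := by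
    intro v hv
    have hv1 : 1 < v := hv
    have hv0 : 0 < v := by linarith
    have e : v ^ (-2 : ℝ) = 1 / v ^ 2 := by
      rw [Real.rpow_neg hv0.le]
      norm_num
    rw [e, Real.norm_eq_abs, abs_le]
    have h1 : 4 / (1 + v) ≤ 4 / (1 + (v - t)) :=
      div_le_div_of_nonneg_left (by norm_num) (by linarith) (by linarith)
    have h2 : 4 / (1 + (v - t)) ≤ 4 / v :=
      div_le_div_of_nonneg_left (by norm_num) (by linarith) (by linarith)
    have h3 := hglo v hv0
    have h4' := hgup v hv0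
    have h5 : 4 / v - 16 / (K + 4 * v) ≤ K * (1 / v ^ 2) := by
      have hp : 0 < K + 4 * v := by linarith
      rw [div_sub_div _ _ hv0.ne' hp.ne', mul_one_div, div_le_div_iff₀ (by positivity) (by positivity)]
      have : 0 ≤ K * K * v := by positivity
      nlinarith
    have h6 : 4 / v - 4 / (1 + v) ≤ 4 * (1 / v ^ 2) := by
      have hp : 0 < 1 + v := by linarith
      rw [div_sub_div _ _ hv0.ne' hp.ne', mul_one_div, div_le_div_iff₀ (by positivity) (by positivity)]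
      nlinarith
    have h7 : 0 ≤ 1 / v ^ 2 := by positivity
    have h8 : 0 ≤ K * (1 / v ^ 2) := by positivity
    constructor
    · linarith
    · linarith
  have hint3 : IntegrableOn (fun v : ℝ => 4 / (1 + (v - t)) - g v / v) (Set.Ioi 1) :=
    hpow.mono' (hcm.sub hgm).aestronglyMeasurable
      ((ae_restrict_iff' measurableSet_Ioi).2 (Filter.Eventually.of_forall hbd))
  have hsplit : ∫ v in Set.Ioi t, (4 / (1 + (v - t)) - g v / v) =
      (∫ v in Set.Ioc t 1, (4 / (1 + (v - t)) - g v / v)) +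
      ∫ v in Set.Ioi (1:ℝ), (4 / (1 + (v - t)) - g v / v) := by
    rw [← Set.Ioc_union_Ioi_eq_Ioi ht1]
    exact setIntegral_union Set.Ioc_disjoint_Ioi_same measurableSet_Ioi (hint2.sub hint1) hint3
  have hIoc : ∫ v in Set.Ioc t 1, (4 / (1 + (v - t)) - g v / v) =
      (∫ v in Set.Ioc t 1, 4 / (1 + (v - t))) - ∫ v in Set.Ioc t 1, g v / v :=
    integral_sub hint2 hint1
  have hA : 0 ≤ ∫ v in Set.Ioc t 1, 4 / (1 + (v - t)) :=
    setIntegral_nonneg measurableSet_Ioc fun v hv => (hcb v hv).1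
  have hA2 : ∫ v in Set.Ioc t 1, 4 / (1 + (v - t)) ≤ 4 := by
    have h1 : ∫ v in Set.Ioc t 1, 4 / (1 + (v - t)) ≤ ∫ v in Set.Ioc t 1, (4:ℝ) :=
      setIntegral_mono_on hint2 (by simp) measurableSet_Ioc fun v hv => (hcb v hv).2
    refine h1.trans ?_
    rw [setIntegral_const, measureReal_def, Real.volume_Ioc, ENNReal.toReal_ofReal (by linarith),
      smul_eq_mul]
    nlinarith
  have hB : |∫ v in Set.Ioi (1:ℝ), (4 / (1 + (v - t)) - g v / v)| ≤ 4 + K := by
    rw [← Real.norm_eq_abs, ← hpowval]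
    exact norm_integral_le_of_norm_le hpow
      ((ae_restrict_iff' measurableSet_Ioi).2 (Filter.Eventually.of_forall hbd))
  rw [hshift, hsplit, hIoc, intervalIntegral.integral_of_le ht1]
  set A := ∫ v in Set.Ioc t 1, 4 / (1 + (v - t)) with hAdef
  set G := ∫ v in Set.Ioc t 1, g v / v with hGdef
  set B := ∫ v in Set.Ioi (1:ℝ), (4 / (1 + (v - t)) - g v / v) with hBdef
  set L := 4 / 2 * Real.log (2 * Real.pi * Real.exp 1) with hL
  have e : 1 / 2 * (A - G + B) + L + 1 / 2 * G = (A + B) / 2 + L := by ring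
  rw [e]
  have h1 := abs_add_le ((A + B) / 2) L
  have h2 : |(A + B) / 2| ≤ (8 + K) / 2 := by
    rw [abs_le] at hB ⊢
    constructor <;> linarith [hB.1, hB.2]
  linarith

end I1a

section I0

variable {H : Type} [NormedAddCommGroup H] [InnerProductSpace ℂ H] [CompleteSpace H]


theorem gvm_wd_cont {n : ℕ} (x s : Fin n → (H →L[ℂ] H)) (w : List (Fin n)) :
    Continuous (fun u : ℝ => wd (pert x s u) w) := by
  induction w with
  | nil =>
    have : (fun u : ℝ => wd (pert x s u) ([] : List (Fin n))) = fun _ => 1 := by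
      funext u
      simp [wd]
    rw [this]
    exact continuous_const
  | cons a w ih =>
    have : (fun u : ℝ => wd (pert x s u) (a :: w)) =
        fun u => (x a + ((√u : ℝ) : ℂ) • s a) * wd (pert x s u) w := by
      funext u
      simp [wd, pert]
    rw [this]
    refine Continuous.mul ?_ ih
    have h1 : Continuous fun u : ℝ => ((√u : ℝ) : ℂ) :=
      Complex.continuous_ofReal.comp Real.continuous_sqrt
    have h2 : Continuous fun u : ℝ => ((√u : ℝ) : ℂ) • s a := h1.smul continuous_const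
    exact continuous_const.add h2

theorem gvm_one {n : ℕ} (Ω : H) (x s : Fin n → (H →L[ℂ] H)) (ξ : H) :
    Measurable (fun u : ℝ => ‖ξ - (L2 Ω (pert x s u)).starProjection ξ‖) := by
  apply measurable_of_Iio
  intro a
  have key : (fun u : ℝ => ‖ξ - (L2 Ω (pert x s u)).starProjection ξ‖) ⁻¹' Set.Iio a =
      ⋃ c : List (Fin n) →₀ ℂ, {u : ℝ | ‖ξ - c.sum fun w z => z • wd (pert x s u) w Ω‖ < a} := by
    ext u
    simp only [Set.mem_preimage, Set.mem_Iio, Set.mem_iUnion, Set.mem_ofPred_eq]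
    constructor
    · intro hu
      have hmem : (L2 Ω (pert x s u)).starProjection ξ ∈ L2 Ω (pert x s u) :=
        Submodule.starProjection_apply_mem _ _
      have hmem2 : (L2 Ω (pert x s u)).starProjection ξ ∈
          closure ((Submodule.span ℂ (Set.range fun w : List (Fin n) =>
            wd (pert x s u) w Ω) : Submodule ℂ H) : Set H) := hmem
      rw [Metric.mem_closure_iff] at hmem2
      obtain ⟨v, hv, hdist⟩ := hmem2 (a - ‖ξ - (L2 Ω (pert x s u)).starProjection ξ‖)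
        (by linarith)
      obtain ⟨c, hc⟩ := (Finsupp.mem_span_range_iff_exists_finsupp).1 hv
      refine ⟨c, ?_⟩
      rw [hc]
      rw [dist_eq_norm] at hdist
      calc ‖ξ - v‖ ≤ ‖ξ - (L2 Ω (pert x s u)).starProjection ξ‖ +
            ‖(L2 Ω (pert x s u)).starProjection ξ - v‖ := norm_sub_le_norm_sub_add_norm_sub _ _ _
        _ < a := by linarith
    · rintro ⟨c, hc⟩
      refine lt_of_le_of_lt ?_ hc
      have hv : (c.sum fun w z => z • wd (pert x s u) w Ω) ∈ L2 Ω (pert x s u) := by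
        apply Submodule.le_topologicalClosure
        exact (Finsupp.mem_span_range_iff_exists_finsupp).2 ⟨c, rfl⟩
      rw [Submodule.starProjection_minimal]
      refine ciInf_le ⟨0, ?_⟩ (⟨_, hv⟩ : L2 Ω (pert x s u))
      rintro _ ⟨y, rfl⟩
      exact norm_nonneg _
  rw [key]
  apply IsOpen.measurableSet
  apply isOpen_iUnion
  intro c
  refine isOpen_lt ?_ continuous_const
  refine (continuous_const.sub ?_).norm
  unfold Finsupp.sum
  refine continuous_finsetSum _ fun w _ => ?_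
  exact ((gvm_wd_cont x s w).clm_apply continuous_const).const_smul _

/-- measurability of `g` -/
theorem gval_measurable {n : ℕ} (Ω : H) (x s : Fin n → (H →L[ℂ] H)) :
    Measurable (fun u : ℝ => gval Ω x s u) := by
  unfold gval
  refine Finset.measurable_sum _ fun j _ => ?_
  have h : (fun u : ℝ => ‖(L2 Ω (pert x s u)).starProjection (s j Ω)‖ ^ 2) =
      fun u => ‖s j Ω‖ ^ 2 - ‖s j Ω - (L2 Ω (pert x s u)).starProjection (s j Ω)‖ ^ 2 := by
    funext u
    have h1 := Submodule.norm_sq_eq_add_norm_sq_starProjection (s j Ω) (L2 Ω (pert x s u))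
    rw [Submodule.starProjection_orthogonal_val] at h1
    linarith
  rw [h]
  exact measurable_const.sub ((gvm_one Ω x s (s j Ω)).pow_const 2)

end I0

section I3a

variable {H : Type} [NormedAddCommGroup H] [InnerProductSpace ℂ H] [CompleteSpace H]



/-- half geometric decay -/
theorem ps_half {r : ℕ → ℝ} (hr : ∀ k, r (k + 1) ≤ r k / 2) (k j : ℕ) :
    r (k + j) ≤ r k * (1 / 2) ^ j := by
  induction j with
  | zero => simp
  | succ j ih =>
    have h1 := hr (k + j)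
    calc r (k + (j + 1)) = r (k + j + 1) := by rw [Nat.add_assoc]
      _ ≤ r (k + j) / 2 := h1
      _ ≤ (r k * (1 / 2) ^ j) / 2 := by linarith
      _ = r k * (1 / 2) ^ (j + 1) := by ring

theorem ps_key {M CH T : ℝ} (hM : 1 ≤ M) (hH : 1 ≤ CH) (hT : T ≤ 2 * (M ^ 40)⁻¹) :
    CH * (4 * M ^ 2) ^ 6 * ((M ^ 15)⁻¹ + 2 * T / (M ^ 15)⁻¹) ≤ CH * 20480 * M⁻¹ := by
  have hM0 : 0 < M := by linarith
  have e1 : 2 * T / (M ^ 15)⁻¹ ≤ 4 * (M ^ 25)⁻¹ := by
    rw [div_inv_eq_mul]
    calc 2 * T * M ^ 15 ≤ 2 * (2 * (M ^ 40)⁻¹) * M ^ 15 := by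
          have : 0 < M ^ 15 := by positivity
          nlinarith
      _ = 4 * (M ^ 25)⁻¹ := by
          field_simp
          ring
  have e2 : (M ^ 3)⁻¹ ≤ M⁻¹ := inv_anti₀ hM0 (le_self_pow₀ hM (by norm_num))
  have e3 : (M ^ 13)⁻¹ ≤ M⁻¹ := inv_anti₀ hM0 (le_self_pow₀ hM (by norm_num))
  calc CH * (4 * M ^ 2) ^ 6 * ((M ^ 15)⁻¹ + 2 * T / (M ^ 15)⁻¹)
      ≤ CH * (4 * M ^ 2) ^ 6 * ((M ^ 15)⁻¹ + 4 * (M ^ 25)⁻¹) := by
        apply mul_le_mul_of_nonneg_left _ (by positivity)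
        linarith
    _ = CH * 4096 * ((M ^ 3)⁻¹ + 4 * (M ^ 13)⁻¹) := by
        field_simp
        ring
    _ ≤ CH * 4096 * (M⁻¹ + 4 * M⁻¹) := by
        apply mul_le_mul_of_nonneg_left _ (by positivity)
        linarith
    _ = CH * 20480 * M⁻¹ := by ring

theorem params_seq (C₂ CH : ℝ) (h2 : 1 ≤ C₂) (hH : 1 ≤ CH) : ∃ (m : ℕ → ℕ) (r : ℕ → ℝ),
    2 ≤ m 0 ∧ (∀ k, m (k + 1) = m k ^ 200) ∧ r 0 = 1 / 4 ∧
    (∀ k, r (k + 1) = ((m k : ℝ) ^ 40)⁻¹) ∧ Summable r ∧
    (∀ k, ∑' j, r (k + 1 + j) ≤ 2 * r (k + 1)) ∧ ∑' j, r j ≤ 1 ∧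
    (∀ k, C₂ * (∑ j ∈ Finset.range k, r j * (2 * (m j : ℝ))) ^ 2 ≤ r k ^ 2 * m k) ∧
    ∃ (tk ek Mk : ℕ → ℝ), (∀ k, 0 < tk k ∧ tk k ≤ 1) ∧ Tendsto tk atTop (𝓝 0) ∧
      Tendsto ek atTop (𝓝 0) ∧ (∀ k, 1 ≤ Mk k) ∧
      (∀ k, ∑ j ∈ Finset.range (k + 1), r j * (2 * (m j : ℝ)) ^ 2 ≤ Mk k) ∧
      ∀ k, CH * Mk k ^ 6 * (√(tk k) + 2 * (∑' j, r (k + 1 + j)) / √(tk k)) ≤ ek k := by
  obtain ⟨N, hN⟩ := exists_nat_ge (4 * C₂ + 16)
  have hN20 : (20 : ℝ) ≤ N := by linarith
  have hN20' : 20 ≤ N := by exact_mod_cast hN20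
  have hN1 : 1 ≤ N := by omega
  let m : ℕ → ℕ := fun k => N ^ (200 ^ k)
  let r : ℕ → ℝ := fun k => Nat.casesOn k (1 / 4) (fun k => ((m k : ℝ) ^ 40)⁻¹)
  have hr0 : r 0 = 1 / 4 := rfl
  have hrs : ∀ k, r (k + 1) = ((m k : ℝ) ^ 40)⁻¹ := fun k => rfl
  have hms : ∀ k, m (k + 1) = m k ^ 200 := by
    intro k
    change N ^ (200 ^ (k + 1)) = (N ^ (200 ^ k)) ^ 200
    rw [← pow_mul, pow_succ]
  have hmN : ∀ k, N ≤ m k := by
    intro k
    change N ≤ N ^ (200 ^ k)
    exact Nat.le_self_pow (by positivity) N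
  have hmk : ∀ k, k ≤ m k := by
    intro k
    change k ≤ N ^ (200 ^ k)
    have h1 : k < 2 ^ k := Nat.lt_pow_self (by norm_num)
    have h2 : k < 200 ^ k := Nat.lt_pow_self (by norm_num)
    calc k ≤ 2 ^ k := h1.le
      _ ≤ N ^ k := Nat.pow_le_pow_left (by omega) k
      _ ≤ N ^ (200 ^ k) := Nat.pow_le_pow_right (by omega) h2.le
  have hm1 : ∀ k, (1 : ℝ) ≤ m k := by
    intro k
    have : 1 ≤ m k := hN1.trans (hmN k)
    exact_mod_cast this
  have hm20 : ∀ k, (20 : ℝ) ≤ m k := by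
    intro k
    have : 20 ≤ m k := hN20'.trans (hmN k)
    exact_mod_cast this
  have hmC : ∀ k, 4 * C₂ ≤ m k := by
    intro k
    have : (N : ℝ) ≤ m k := by exact_mod_cast hmN k
    linarith
  have hmmono : Monotone m := by
    apply monotone_nat_of_le_succ
    intro k
    rw [hms]
    exact Nat.le_self_pow (by norm_num) _
  have hrpos : ∀ k, 0 < r k := by
    intro k
    cases k with
    | zero => rw [hr0]; norm_num
    | succ k =>
      rw [hrs]
      have := hm1 k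
      positivity
  have hhalf : ∀ k, r (k + 1) ≤ r k / 2 := by
    intro k
    cases k with
    | zero =>
      rw [hrs, hr0]
      have h1 : (8 : ℝ) ≤ (m 0 : ℝ) ^ 40 := by
        calc (8 : ℝ) ≤ 20 := by norm_num
          _ ≤ m 0 := hm20 0
          _ ≤ (m 0 : ℝ) ^ 40 := le_self_pow₀ (hm1 0) (by norm_num)
      calc ((m 0 : ℝ) ^ 40)⁻¹ ≤ 8⁻¹ := inv_anti₀ (by norm_num) h1
        _ = 1 / 4 / 2 := by norm_num
    | succ k =>
      rw [hrs, hrs]
      have hp : (0 : ℝ) < (m k : ℝ) ^ 40 := by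
        have := hm1 k
        positivity
      have h1 : 2 * (m k : ℝ) ^ 40 ≤ (m (k + 1) : ℝ) ^ 40 := by
        have e1 : 2 * (m k : ℝ) ≤ m (k + 1) := by
          rw [hms]
          push_cast
          calc 2 * (m k : ℝ) ≤ m k * m k := by nlinarith [hm20 k]
            _ = (m k : ℝ) ^ 2 := by ring
            _ ≤ (m k : ℝ) ^ 200 := pow_le_pow_right₀ (hm1 k) (by norm_num)
        calc 2 * (m k : ℝ) ^ 40 ≤ 2 ^ 40 * (m k : ℝ) ^ 40 := by nlinarith
          _ = (2 * (m k : ℝ)) ^ 40 := by rw [mul_pow]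
          _ ≤ (m (k + 1) : ℝ) ^ 40 := by
            apply pow_le_pow_left₀ (by positivity) e1
      calc ((m (k + 1) : ℝ) ^ 40)⁻¹ ≤ (2 * (m k : ℝ) ^ 40)⁻¹ := inv_anti₀ (by positivity) h1
        _ = ((m k : ℝ) ^ 40)⁻¹ / 2 := by
          rw [mul_inv]
          ring
  have hgeo : ∀ c : ℝ, HasSum (fun j : ℕ => c * (1 / 2 : ℝ) ^ j) (c * 2) := by
    intro c
    exact hasSum_geometric_two.mul_left c
  have hsumr : Summable r := by
    refine Summable.of_nonneg_of_le (fun k => (hrpos k).le) (fun k => ?_) (hgeo (r 0)).summable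
    have := ps_half hhalf 0 k
    rwa [Nat.zero_add] at this
  have htail : ∀ k, ∑' j, r (k + j) ≤ 2 * r k := by
    intro k
    have h1 : Summable (fun j => r (k + j)) :=
      Summable.of_nonneg_of_le (fun j => (hrpos _).le) (fun j => ps_half hhalf k j)
        (hgeo (r k)).summable
    have h2 : ∑' j, r (k + j) ≤ ∑' j : ℕ, r k * (1 / 2 : ℝ) ^ j :=
      h1.tsum_le_tsum (fun j => ps_half hhalf k j) (hgeo (r k)).summable
    rw [(hgeo (r k)).tsum_eq] at h2
    linarith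
  have htot : ∑' j, r j ≤ 1 := by
    have := htail 0
    simp only [Nat.zero_add] at this
    rw [hr0] at this
    linarith
  have hfin : ∀ n, ∑ j ∈ Finset.range n, r j ≤ 1 := by
    intro n
    exact (hsumr.sum_le_tsum _ (fun i _ => (hrpos i).le)).trans htot
  refine ⟨m, r, ?_, hms, hr0, hrs, hsumr, fun k => htail (k + 1), htot, ?_, ?_⟩
  · have := hmN 0
    omega
  · intro k
    cases k with
    | zero =>
      have h0 : (0 : ℝ) ≤ r 0 ^ 2 * m 0 := by
        have := hm1 0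
        positivity
      calc C₂ * (∑ j ∈ Finset.range 0, r j * (2 * (m j : ℝ))) ^ 2 = 0 := by simp
        _ ≤ r 0 ^ 2 * m 0 := h0
    | succ l =>
      have hS0 : 0 ≤ ∑ j ∈ Finset.range (l + 1), r j * (2 * (m j : ℝ)) :=
        Finset.sum_nonneg fun j _ => by
          have := (hrpos j).le
          positivity
      have hS : ∑ j ∈ Finset.range (l + 1), r j * (2 * (m j : ℝ)) ≤ 2 * m l := by
        calc ∑ j ∈ Finset.range (l + 1), r j * (2 * (m j : ℝ))
            ≤ ∑ j ∈ Finset.range (l + 1), r j * (2 * (m l : ℝ)) := by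
              apply Finset.sum_le_sum
              intro j hj
              have hjl : j ≤ l := Nat.lt_succ_iff.1 (Finset.mem_range.1 hj)
              have : (m j : ℝ) ≤ m l := by exact_mod_cast hmmono hjl
              apply mul_le_mul_of_nonneg_left _ (hrpos j).le
              linarith
          _ = (∑ j ∈ Finset.range (l + 1), r j) * (2 * (m l : ℝ)) := by
              rw [Finset.sum_mul]
          _ ≤ 1 * (2 * (m l : ℝ)) := by
              apply mul_le_mul_of_nonneg_right (hfin _)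
              have := hm1 l
              positivity
          _ = 2 * m l := one_mul _
      rw [hrs, hms]
      have hM := hm1 l
      have hMC := hmC l
      set M : ℝ := (m l : ℝ) with hMdef
      have hM0 : 0 < M := by linarith
      calc C₂ * (∑ j ∈ Finset.range (l + 1), r j * (2 * (m j : ℝ))) ^ 2
          ≤ C₂ * (2 * M) ^ 2 := by
            apply mul_le_mul_of_nonneg_left _ (by linarith)
            exact pow_le_pow_left₀ hS0 hS 2
        _ = (4 * C₂) * M ^ 2 := by ring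
        _ ≤ M * M ^ 2 := by
            apply mul_le_mul_of_nonneg_right hMC (by positivity)
        _ = M ^ 3 := by ring
        _ ≤ M ^ 120 := pow_le_pow_right₀ hM (by norm_num)
        _ = ((M ^ 40)⁻¹) ^ 2 * ((m l ^ 200 : ℕ) : ℝ) := by
            push_cast
            rw [← hMdef]
            field_simp
  · refine ⟨fun k => ((m k : ℝ) ^ 30)⁻¹, fun k => CH * 20480 * (m k : ℝ)⁻¹,
      fun k => 4 * (m k : ℝ) ^ 2, ?_, ?_, ?_, ?_, ?_, ?_⟩
    · intro k
      have := hm1 k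
      exact ⟨by positivity, inv_le_one_of_one_le₀ (one_le_pow₀ this)⟩
    · have hmt : Tendsto (fun k => (m k : ℝ)) atTop atTop :=
        tendsto_atTop_mono (fun k => by exact_mod_cast hmk k) tendsto_natCast_atTop_atTop
      exact tendsto_inv_atTop_zero.comp ((tendsto_pow_atTop (by norm_num)).comp hmt)
    · have hmt : Tendsto (fun k => (m k : ℝ)) atTop atTop :=
        tendsto_atTop_mono (fun k => by exact_mod_cast hmk k) tendsto_natCast_atTop_atTop
      have := (tendsto_inv_atTop_zero.comp hmt).const_mul (CH * 20480)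
      rw [mul_zero] at this
      exact this
    · intro k
      have := hm1 k
      nlinarith
    · intro k
      calc ∑ j ∈ Finset.range (k + 1), r j * (2 * (m j : ℝ)) ^ 2
          ≤ ∑ j ∈ Finset.range (k + 1), r j * (2 * (m k : ℝ)) ^ 2 := by
            apply Finset.sum_le_sum
            intro j hj
            have hjl : j ≤ k := Nat.lt_succ_iff.1 (Finset.mem_range.1 hj)
            have : (m j : ℝ) ≤ m k := by exact_mod_cast hmmono hjl
            apply mul_le_mul_of_nonneg_left _ (hrpos j).le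
            apply pow_le_pow_left₀ (by positivity)
            linarith
        _ = (∑ j ∈ Finset.range (k + 1), r j) * (2 * (m k : ℝ)) ^ 2 := by
            rw [Finset.sum_mul]
        _ ≤ 1 * (2 * (m k : ℝ)) ^ 2 := by
            apply mul_le_mul_of_nonneg_right (hfin _) (by positivity)
        _ = 4 * (m k : ℝ) ^ 2 := by ring
    · intro k
      have hT : ∑' j, r (k + 1 + j) ≤ 2 * ((m k : ℝ) ^ 40)⁻¹ := by
        have := htail (k + 1)
        rwa [hrs] at this
      have hsq : √(((m k : ℝ) ^ 30)⁻¹) = ((m k : ℝ) ^ 15)⁻¹ := by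
        have hp : (0 : ℝ) ≤ (m k : ℝ) ^ 15 := by positivity
        rw [Real.sqrt_inv, show (m k : ℝ) ^ 30 = ((m k : ℝ) ^ 15) ^ 2 by ring, Real.sqrt_sq hp]
      simp only [hsq]
      exact ps_key (hm1 k) hH hT

end I3a

section I3b

variable {H : Type} [NormedAddCommGroup H] [InnerProductSpace ℂ H] [CompleteSpace H]


theorem pu_stage (c₁ C₂ B : ℝ) (h1 : 0 < c₁) (h2 : 0 < C₂) (m : ℕ → ℕ) (r : ℕ → ℝ)
    (hmpos : ∀ k, 0 < m k) (hm : ∀ k, m (k + 1) = m k ^ 200)
    (hr : ∀ k, r (k + 1) = ((m k : ℝ) ^ 40)⁻¹)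
    (htail : ∀ k, ∑' j, r (k + 1 + j) ≤ 2 * r (k + 1))
    (G : ℝ → ℝ)
    (hU : ∀ (k i₀ i₁ : ℕ) (t : ℝ), 0 < t → t ≤ 1 → 2 * ∑' j, r (k + 1 + j) ≤ √t → i₀ ≤ i₁ →
      C₂ * t * m k ≤ 2 ^ i₀ → C₂ * 2 ^ i₁ ≤ r k ^ 2 * m k →
      G t ≤ B + Real.log (1 / t) - c₁ * ((i₁ : ℝ) - i₀))
    (j : ℕ) (τ x : ℝ) (hτ0 : 0 ≤ τ) (hτ : τ ≤ 16000 * Real.log (m j) - Real.log 16)
    (hx1 : x ≤ 120 * Real.log (m j)) (hx2 : x ≤ τ - 80 * Real.log (m j))
    (hx3 : (2 * |Real.log C₂| / Real.log 2 + 2) ≤ x / Real.log 2) :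
    G (Real.exp (-τ)) ≤
      B + τ - c₁ * (x / Real.log 2 - (2 * |Real.log C₂| / Real.log 2 + 2)) := by
  have hl2 : 0 < Real.log 2 := Real.log_pos (by norm_num)
  have hpos : (0 : ℝ) < m j := by exact_mod_cast hmpos j
  set lam := Real.log (m j) with hlam
  have hM : (m j : ℝ) = Real.exp lam := (Real.exp_log hpos).symm
  have hM1 : (m (j + 1) : ℝ) = Real.exp (200 * lam) := by
    rw [hm, Nat.cast_pow, hM, ← Real.exp_nat_mul]; norm_num
  have hr1 : r (j + 1) = Real.exp (-(40 * lam)) := by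
    rw [hr, hM, ← Real.exp_nat_mul, Real.exp_neg]; norm_num
  have hr2 : r (j + 1 + 1) = Real.exp (-(8000 * lam)) := by
    rw [hr, hM1, ← Real.exp_nat_mul, Real.exp_neg]
    congr 2
    push_cast
    ring
  have hC : C₂ = Real.exp (Real.log C₂) := (Real.exp_log h2).symm
  have h2e : ∀ i : ℕ, (2 : ℝ) ^ i = Real.exp (i * Real.log 2) := by
    intro i
    rw [Real.exp_nat_mul, Real.exp_log (by norm_num)]
  set a : ℝ := (Real.log C₂ - τ + 200 * lam) / Real.log 2 with ha
  set b : ℝ := (120 * lam - Real.log C₂) / Real.log 2 with hb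
  have habs := le_abs_self (Real.log C₂)
  have habs' := neg_abs_le (Real.log C₂)
  have habs0 := abs_nonneg (Real.log C₂)
  have hx4 : 2 * |Real.log C₂| + 2 * Real.log 2 ≤ x := by
    have h3 := mul_le_mul_of_nonneg_right hx3 hl2.le
    rw [div_mul_cancel₀ _ hl2.ne', add_mul, div_mul_cancel₀ _ hl2.ne'] at h3
    exact h3
  have hb0 : 0 ≤ b := by
    apply div_nonneg _ hl2.le
    linarith
  have hi1 : (⌊b⌋₊ : ℝ) ≤ b := Nat.floor_le hb0
  have hi1' : b < ⌊b⌋₊ + 1 := Nat.lt_floor_add_one b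
  have hi0 : a ≤ (⌈a⌉₊ : ℝ) := Nat.le_ceil a
  have hdiff : x / Real.log 2 - (2 * |Real.log C₂| / Real.log 2 + 2) ≤
      (⌊b⌋₊ : ℝ) - (⌈a⌉₊ : ℝ) := by
    rcases le_total a 0 with h | h
    · have h3 : ⌈a⌉₊ = 0 := Nat.ceil_eq_zero.2 h
      rw [h3, Nat.cast_zero, sub_zero]
      have h4 : x / Real.log 2 - 2 * |Real.log C₂| / Real.log 2 ≤ b := by
        rw [hb, ← sub_div]
        apply div_le_div_of_nonneg_right _ hl2.le
        linarith
      linarith
    · have h3 : (⌈a⌉₊ : ℝ) < a + 1 := Nat.ceil_lt_add_one h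
      have h4 : x / Real.log 2 - 2 * |Real.log C₂| / Real.log 2 ≤ b - a := by
        rw [hb, ha, ← sub_div, ← sub_div]
        apply div_le_div_of_nonneg_right _ hl2.le
        linarith
      linarith
  have hle : ⌈a⌉₊ ≤ ⌊b⌋₊ := by
    have : (⌈a⌉₊ : ℝ) ≤ (⌊b⌋₊ : ℝ) := by linarith
    exact_mod_cast this
  have hmain := hU (j + 1) ⌈a⌉₊ ⌊b⌋₊ (Real.exp (-τ)) (Real.exp_pos _)
    (by rw [Real.exp_le_one_iff]; linarith) ?_ hle ?_ ?_
  · rw [one_div, ← Real.exp_neg, neg_neg, Real.log_exp] at hmain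
    have := mul_le_mul_of_nonneg_left hdiff h1.le
    linarith
  · rcases le_total (2 * ∑' i, r (j + 1 + 1 + i)) 0 with h8 | h8
    · exact h8.trans (Real.sqrt_nonneg _)
    have h3 := htail (j + 1)
    rw [hr2] at h3
    apply Real.le_sqrt_of_sq_le
    have h16 : (16 : ℝ) = Real.exp (Real.log 16) := (Real.exp_log (by norm_num)).symm
    have h6 : (4 * Real.exp (-(8000 * lam))) ^ 2 ≤ Real.exp (-τ) := by
      have h7 : (4 * Real.exp (-(8000 * lam))) ^ 2 = 16 * Real.exp (-(16000 * lam)) := by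
        rw [mul_pow, ← Real.exp_nat_mul]
        norm_num
        ring_nf
      rw [h7]
      nth_rewrite 1 [h16]
      rw [← Real.exp_add, Real.exp_le_exp]
      linarith
    refine le_trans (pow_le_pow_left₀ h8 ?_ 2) h6
    linarith
  · rw [h2e, hM1]
    nth_rewrite 1 [hC]
    rw [← Real.exp_add, ← Real.exp_add, Real.exp_le_exp]
    have := mul_le_mul_of_nonneg_right hi0 hl2.le
    rw [ha, div_mul_cancel₀ _ hl2.ne'] at this
    linarith
  · rw [h2e, hM1, hr1]
    nth_rewrite 1 [hC]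
    rw [← Real.exp_add, ← Real.exp_nat_mul, ← Real.exp_add, Real.exp_le_exp]
    have := mul_le_mul_of_nonneg_right hi1 hl2.le
    rw [hb, div_mul_cancel₀ _ hl2.ne'] at this
    push_cast
    linarith

theorem pu_split (g : ℝ → ℝ) (hg4 : ∀ t, 0 < t → g t ≤ 4)
    (hint : ∀ t : ℝ, 0 < t → t ≤ 1 → IntervalIntegrable (fun u => g u / u) volume t 1)
    (t t' : ℝ) (ht : 0 < t) (htt : t ≤ t') (ht' : t' ≤ 1) :
    ∫ u in t..1, g u / u ≤ 4 * (Real.log t' - Real.log t) + ∫ u in t'..1, g u / u := by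
  have ht'0 : 0 < t' := lt_of_lt_of_le ht htt
  have hi1 := hint t ht (htt.trans ht')
  have hi2 := hint t' ht'0 ht'
  have hi3 : IntervalIntegrable (fun u => g u / u) volume t t' := hi1.trans hi2.symm
  rw [← intervalIntegral.integral_add_adjacent_intervals hi3 hi2]
  have h4 : ∫ u in t..t', g u / u ≤ ∫ u in t..t', 4 * u⁻¹ := by
    apply intervalIntegral.integral_mono_on htt hi3
    · apply IntervalIntegrable.const_mul
      rw [intervalIntegrable_inv_iff]
      right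
      rw [Set.uIcc_of_le htt]
      intro h
      exact absurd h.1 (not_le.2 ht)
    · intro u hu
      have hu0 : 0 < u := lt_of_lt_of_le ht hu.1
      rw [div_eq_mul_inv]
      exact mul_le_mul_of_nonneg_right (hg4 u hu0) (inv_nonneg.2 hu0.le)
  have h5 : ∫ u in t..t', 4 * u⁻¹ = 4 * (Real.log t' - Real.log t) := by
    rw [intervalIntegral.integral_const_mul, integral_inv_of_pos ht ht'0,
      Real.log_div ht'0.ne' ht.ne']
  linarith

theorem pu_core (c₁ B K : ℝ) (h1 : 0 < c₁) (hK : 0 ≤ K) (L : ℕ → ℝ) (hL0 : Real.log 2 ≤ L 0)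
    (hL : ∀ j, L (j + 1) = 200 * L j) (Gt : ℝ → ℝ)
    (hstage : ∀ (j : ℕ) (τ x : ℝ), 0 ≤ τ → τ ≤ 16000 * L j - Real.log 16 → x ≤ 120 * L j →
      x ≤ τ - 80 * L j → K ≤ x / Real.log 2 → Gt τ ≤ B + τ - c₁ * (x / Real.log 2 - K))
    (hsplit : ∀ τ τ', 0 ≤ τ' → τ' ≤ τ → Gt τ ≤ 4 * (τ - τ') + Gt τ') :
    ∃ c : ℝ, 0 < c ∧ ∃ T : ℝ, ∀ τ, T ≤ τ → Gt τ ≤ (1 - c) * τ := by
  have hl2 : 0 < Real.log 2 := Real.log_pos (by norm_num)
  have hl21 : Real.log 2 < 1 := by
    have := Real.log_two_lt_d9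
    linarith
  have hl16 : Real.log 16 = 4 * Real.log 2 := by
    rw [show (16 : ℝ) = 2 ^ 4 by norm_num, Real.log_pow]
    norm_num
  have hLpos : ∀ j, 0 < L j := by
    intro j
    induction j with
    | zero => linarith
    | succ j ih => rw [hL]; linarith
  have hLlog : ∀ j, Real.log 2 ≤ L j := by
    intro j
    induction j with
    | zero => exact hL0
    | succ j ih => rw [hL]; linarith
  have hLj : ∀ j : ℕ, (j : ℝ) * L 0 ≤ L j := by
    intro j
    induction j with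
    | zero => simp; exact (hLpos 0).le
    | succ j ih =>
      rw [hL]
      push_cast
      have h3 := hLpos 0
      have h4 : L 0 ≤ L j := by
        clear ih
        induction j with
        | zero => exact le_rfl
        | succ j ih => rw [hL]; have := hLpos j; linarith
      linarith [hLpos j]
  obtain ⟨δ, hδ, hδ1, hδ2⟩ : ∃ δ : ℝ, 0 < δ ∧ δ ≤ 1 / 10 ∧ δ ≤ c₁ / 10 := by
    refine ⟨min c₁ 1 / 10, by positivity, ?_, ?_⟩
    · have := min_le_right c₁ 1
      linarith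
    · have := min_le_left c₁ 1
      linarith
  refine ⟨c₁ * δ / 32000, by positivity,
    16000 * L 0 + 16000 * K / δ + 32000 * (3 * Real.log 16 + |B| + c₁ * K) / (c₁ * δ), ?_⟩
  intro τ hτ
  have hB := le_abs_self B
  have hB0 := abs_nonneg B
  have hp1 : 0 ≤ 16000 * K / δ := by positivity
  have hp2 : 0 ≤ 32000 * (3 * Real.log 16 + |B| + c₁ * K) / (c₁ * δ) := by
    rw [hl16]; positivity
  have ht1 : 16000 * L 0 ≤ τ := by linarith
  have ht2 : 16000 * K ≤ δ * τ := by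
    have h3 : 16000 * K / δ ≤ τ := by linarith [hLpos 0]
    rw [div_le_iff₀ hδ] at h3
    linarith
  have ht3 : 32000 * (3 * Real.log 16 + |B| + c₁ * K) ≤ (c₁ * δ) * τ := by
    have h3 : 32000 * (3 * Real.log 16 + |B| + c₁ * K) / (c₁ * δ) ≤ τ := by linarith [hLpos 0]
    rw [div_le_iff₀ (by positivity)] at h3
    linarith
  have hτ0 : 0 < τ := by linarith [hLpos 0]
  have hex : ∃ N : ℕ, τ ≤ 16000 * L N - Real.log 16 := by
    obtain ⟨N, hN⟩ := exists_nat_gt ((τ + Real.log 16) / L 0)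
    refine ⟨N, ?_⟩
    rw [div_lt_iff₀ (hLpos 0)] at hN
    have := hLj N
    linarith [hLpos N]
  classical
  let N := Nat.find hex
  have hN : τ ≤ 16000 * L N - Real.log 16 := Nat.find_spec hex
  have hN' : ∀ k < N, ¬ (τ ≤ 16000 * L k - Real.log 16) := fun k hk => Nat.find_min hex hk
  have hN0 : N ≠ 0 := by
    intro h
    rw [h] at hN
    linarith
  obtain ⟨j, hj⟩ := Nat.exists_eq_succ_of_ne_zero hN0
  rw [hj] at hN
  have hNj : 16000 * L j - Real.log 16 < τ := not_le.1 (hN' j (by omega))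
  have hN2 : τ ≤ 16000 * L (j + 1) - Real.log 16 := hN
  have hLj1 := hL j
  have hLjpos := hLpos j
  have hdl : ∀ y : ℝ, 0 ≤ y → y ≤ y / Real.log 2 := by
    intro y hy
    rw [le_div_iff₀ hl2]
    nlinarith
  rcases le_total ((80 + δ) * L (j + 1)) τ with hc | hc
  · -- case 1
    have hlam : τ ≤ 16000 * L (j + 1) := by linarith
    have hL1pos := hLpos (j + 1)
    have h3 : K ≤ δ * L (j + 1) := by
      have : δ * τ ≤ δ * (16000 * L (j + 1)) := mul_le_mul_of_nonneg_left hlam hδ.le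
      linarith
    have h4 := hdl (δ * L (j + 1)) (by positivity)
    have h5 := hstage (j + 1) τ (δ * L (j + 1)) hτ0.le hN2 (by nlinarith) (by linarith)
      (h3.trans h4)
    have h6 : c₁ * (δ * L (j + 1) - K) ≤ c₁ * (δ * L (j + 1) / Real.log 2 - K) :=
      mul_le_mul_of_nonneg_left (by linarith) h1.le
    have h7 : c₁ * δ * τ ≤ c₁ * δ * (16000 * L (j + 1)) :=
      mul_le_mul_of_nonneg_left hlam (by positivity)
    have h8 : (1 - c₁ * δ / 32000) * τ = τ - c₁ * δ * τ / 32000 := by ring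
    rw [h8]
    have h9 : c₁ * (δ * L (j + 1) - K) = c₁ * δ * L (j + 1) - c₁ * K := by ring
    linarith
  · -- case 2
    have hlam : τ ≤ 81 * L (j + 1) := by nlinarith [hLpos (j + 1)]
    have hτ' : 0 ≤ 16000 * L j - Real.log 16 := by
      have := hLlog j
      linarith
    have h3 := hsplit τ (16000 * L j - Real.log 16) hτ' hNj.le
    have h3' : 16000 * K ≤ 1 / 10 * τ := ht2.trans (mul_le_mul_of_nonneg_right hδ1 hτ0.le)
    have h4 : K ≤ 120 * L j := by
      rw [hLj1] at hlam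
      linarith
    have h5 := hdl (120 * L j) (by positivity)
    have h6 := hstage j (16000 * L j - Real.log 16) (120 * L j) hτ' le_rfl le_rfl
      (by have := hLlog j; linarith) (h4.trans h5)
    have h7 : c₁ * (120 * L j - K) ≤ c₁ * (120 * L j / Real.log 2 - K) :=
      mul_le_mul_of_nonneg_left (by linarith) h1.le
    have h8 : (1 - c₁ * δ / 32000) * τ = τ - c₁ * δ * τ / 32000 := by ring
    rw [h8]
    have h9 : τ - (16000 * L j - Real.log 16) ≤ δ * L (j + 1) + Real.log 16 := by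
      rw [hLj1] at hc ⊢
      linarith
    have h10 : δ * L (j + 1) ≤ c₁ / 10 * L (j + 1) :=
      mul_le_mul_of_nonneg_right hδ2 (hLpos (j + 1)).le
    have h11 : c₁ * τ ≤ c₁ * (81 * L (j + 1)) := mul_le_mul_of_nonneg_left hlam h1.le
    have h12 : c₁ * δ * τ ≤ 1 / 10 * (c₁ * τ) := by
      have : c₁ * δ * τ = δ * (c₁ * τ) := by ring
      rw [this]
      exact mul_le_mul_of_nonneg_right hδ1 (by positivity)
    have h13 : c₁ * (120 * L j - K) = 120 * (c₁ * L j) - c₁ * K := by ring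
    have h14 : c₁ / 10 * L (j + 1) = 20 * (c₁ * L j) := by rw [hLj1]; ring
    have h15 : c₁ * (81 * L (j + 1)) = 16200 * (c₁ * L j) := by rw [hLj1]; ring
    have h16 : 0 ≤ c₁ * L j := by positivity
    linarith

/-- logarithmic averages stay below `1 - c` -/
theorem params_upper (c₁ C₂ B : ℝ) (h1 : 0 < c₁) (h2 : 0 < C₂) (m : ℕ → ℕ) (r : ℕ → ℝ)
    (hm0 : 2 ≤ m 0) (hm : ∀ k, m (k + 1) = m k ^ 200)
    (hr : ∀ k, r (k + 1) = ((m k : ℝ) ^ 40)⁻¹)
    (htail : ∀ k, ∑' j, r (k + 1 + j) ≤ 2 * r (k + 1))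
    (g : ℝ → ℝ) (hg0 : ∀ t, 0 < t → 0 ≤ g t) (hg4 : ∀ t, 0 < t → g t ≤ 4)
    (hint : ∀ t : ℝ, 0 < t → t ≤ 1 → IntervalIntegrable (fun u => g u / u) volume t 1)
    (hU : ∀ (k i₀ i₁ : ℕ) (t : ℝ), 0 < t → t ≤ 1 → 2 * ∑' j, r (k + 1 + j) ≤ √t → i₀ ≤ i₁ →
      C₂ * t * m k ≤ 2 ^ i₀ → C₂ * 2 ^ i₁ ≤ r k ^ 2 * m k →
      ∫ u in t..1, g u / u ≤ B + Real.log (1 / t) - c₁ * ((i₁ : ℝ) - i₀)) :
    ∃ c : ℝ, 0 < c ∧ ∀ᶠ t in 𝓝[>] (0 : ℝ), ∫ u in t..1, g u / u ≤ (1 - c) * Real.log (1 / t) := by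
  have hmpos : ∀ k, 0 < m k := by
    intro k
    induction k with
    | zero => omega
    | succ k ih => rw [hm]; positivity
  have hl2 : 0 < Real.log 2 := Real.log_pos (by norm_num)
  have hstage := pu_stage c₁ C₂ B h1 h2 m r hmpos hm hr htail (fun t => ∫ u in t..1, g u / u) hU
  obtain ⟨c, hc, T, hT⟩ := pu_core c₁ B (2 * |Real.log C₂| / Real.log 2 + 2) h1 (by positivity)
    (fun j => Real.log (m j)) (Real.log_le_log (by norm_num) (by exact_mod_cast hm0))
    (fun j => by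
      show Real.log (m (j + 1) : ℝ) = 200 * Real.log (m j)
      rw [hm, Nat.cast_pow, Real.log_pow]; norm_num)
    (fun τ => ∫ u in (Real.exp (-τ))..1, g u / u) hstage
    (fun τ τ' h h' => by
      have := pu_split g hg4 hint (Real.exp (-τ)) (Real.exp (-τ')) (Real.exp_pos _)
        (by rw [Real.exp_le_exp]; linarith) (by rw [Real.exp_le_one_iff]; linarith)
      rw [Real.log_exp, Real.log_exp] at this
      have h3 : 4 * (-τ' - -τ) = 4 * (τ - τ') := by ring
      rw [h3] at this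
      exact this)
  refine ⟨c, hc, ?_⟩
  filter_upwards [Ioo_mem_nhdsGT (Real.exp_pos (-T))] with t ht
  have ht0 : 0 < t := ht.1
  have h3 : T ≤ -Real.log t := by
    have := Real.log_lt_log ht0 ht.2
    rw [Real.log_exp] at this
    linarith
  have h4 := hT (-Real.log t) h3
  rw [neg_neg, Real.exp_log ht0] at h4
  rw [one_div, Real.log_inv]
  exact h4

end I3b

end Pool.Agent.Helper38.FE
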