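import Pool.Agent.Helper38.FE.Ana

/-! MODULE I, analytic lemmas for the second choice of parameters. -/

open MeasureTheory Filter Topology ProbabilityTheory
open scoped InnerProductSpace ENNReal

namespace Pool.Agent.Helper38.FE

section P1

variable {H : Type} [NormedAddCommGroup H] [InnerProductSpace ℂ H] [CompleteSpace H]

theorem ps2_geo (r : ℕ → ℝ) (h0 : ∀ k, 0 ≤ r k) (h : ∀ k, r (k + 1) ≤ r k / 2) :
    Summable r ∧ ∀ k, ∑' j, r (k + j) ≤ 2 * r k := by
  have h1 : ∀ k j, r (k + j) ≤ r k * (1 / 2) ^ j := by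
    intro k j
    induction j with
    | zero => simp
    | succ j ih =>
      have := h (k + j)
      rw [← add_assoc, pow_succ]
      linarith
  have hg : Summable (fun j : ℕ => (1 / 2 : ℝ) ^ j) := summable_geometric_two
  have hs : Summable r := by
    refine Summable.of_nonneg_of_le h0 (fun j => ?_) (hg.mul_left (r 0))
    simpa using h1 0 j
  refine ⟨hs, fun k => ?_⟩
  have hs' : Summable (fun j => r (k + j)) :=
    Summable.of_nonneg_of_le (fun j => h0 _) (h1 k) (hg.mul_left (r k))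
  calc ∑' j, r (k + j) ≤ ∑' j : ℕ, r k * (1 / 2) ^ j := hs'.tsum_le_tsum (h1 k) (hg.mul_left (r k))
    _ = 2 * r k := by rw [tsum_mul_left, tsum_geometric_two, mul_comm]

/-- the parameter sequences, second version -/
theorem params_seq2 (R Bx : ℕ) (hR : 1 ≤ R) (hB : 2 * R + 6 ≤ Bx) (C₂ : ℝ) (h2 : 1 ≤ C₂) :
    ∃ (p : ℕ → ℕ), 2 ≤ p 0 ∧ (∀ k, p (k + 1) = p k ^ Bx) ∧
    Summable (fun k => (((p k : ℝ)) ^ R)⁻¹) ∧
    (∀ k, ∑' j, (((p (k + 1 + j) : ℝ)) ^ R)⁻¹ ≤ 2 * (((p (k + 1) : ℝ)) ^ R)⁻¹) ∧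
    ∑' j, (((p j : ℝ)) ^ R)⁻¹ ≤ 1 ∧
    (∀ k, C₂ * (∑ j ∈ Finset.range k, (((p j : ℝ)) ^ R)⁻¹ * (2 * (p j : ℝ) ^ (2 * R + 1))) ^ 2 ≤
      ((((p k : ℝ)) ^ R)⁻¹) ^ 2 * (p k : ℝ) ^ (2 * R + 1)) ∧
    (∀ k, ∑ j ∈ Finset.range (k + 1), (((p j : ℝ)) ^ R)⁻¹ * (p j : ℝ) ^ (2 * R + 1) ≤
      2 * (p k : ℝ) ^ (R + 1)) := by
  classical
  set P : ℕ := 16 * ⌈C₂⌉₊ + 16 with hP
  have hPr : 16 * C₂ ≤ (P : ℝ) := by
    rw [hP]
    push_cast
    have := Nat.le_ceil C₂
    linarith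
  set p : ℕ → ℕ := fun k => P ^ (Bx ^ k) with hp
  have hp0 : p 0 = P := by simp [hp]
  have hps : ∀ k, p (k + 1) = p k ^ Bx := by
    intro k
    simp only [hp]
    rw [← pow_mul, pow_succ]
  have hP16 : 16 ≤ P := by omega
  have hpP : ∀ k, P ≤ p k := by
    intro k
    induction k with
    | zero => rw [hp0]
    | succ k ih =>
      rw [hps]
      calc P ≤ p k := ih
        _ ≤ p k ^ Bx := Nat.le_self_pow (by omega) _
  have ha : ∀ k, 16 * C₂ ≤ (p k : ℝ) := fun k => hPr.trans (by exact_mod_cast hpP k)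
  have ha16 : ∀ k, (16 : ℝ) ≤ (p k : ℝ) := fun k => by
    have := ha k
    linarith
  have hapos : ∀ k, (0 : ℝ) < (p k : ℝ) := fun k => by
    have := ha16 k
    linarith
  have hdbl : ∀ k, 2 * (p k : ℝ) ≤ (p (k + 1) : ℝ) := by
    intro k
    rw [hps]
    push_cast
    have h1 := ha16 k
    calc 2 * (p k : ℝ) ≤ (p k : ℝ) ^ 2 := by nlinarith
      _ ≤ (p k : ℝ) ^ Bx := pow_le_pow_right₀ (by linarith) (by omega)
  have hdblpow : ∀ m : ℕ, 1 ≤ m → ∀ k, 2 * (p k : ℝ) ^ m ≤ (p (k + 1) : ℝ) ^ m := by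
    intro m hm k
    calc 2 * (p k : ℝ) ^ m ≤ 2 ^ m * (p k : ℝ) ^ m := by
          apply mul_le_mul_of_nonneg_right _ (pow_nonneg (hapos k).le _)
          calc (2 : ℝ) = 2 ^ 1 := by norm_num
            _ ≤ 2 ^ m := pow_le_pow_right₀ (by norm_num) hm
      _ = (2 * (p k : ℝ)) ^ m := by rw [mul_pow]
      _ ≤ (p (k + 1) : ℝ) ^ m := pow_le_pow_left₀ (by have := hapos k; positivity) (hdbl k) m
  have hr := ps2_geo (fun k => (((p k : ℝ)) ^ R)⁻¹) (fun k => by have := hapos k; positivity)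
    (fun k => by
      have h1 := hdblpow R hR k
      have h3 : 0 < (p k : ℝ) ^ R := pow_pos (hapos k) _
      have h4 : ((p (k + 1) : ℝ) ^ R)⁻¹ ≤ (2 * (p k : ℝ) ^ R)⁻¹ :=
        inv_anti₀ (by positivity) h1
      rw [mul_inv] at h4
      linarith)
  have hterm : ∀ j, (((p j : ℝ)) ^ R)⁻¹ * (p j : ℝ) ^ (2 * R + 1) = (p j : ℝ) ^ (R + 1) := by
    intro j
    have h3 : (p j : ℝ) ^ R ≠ 0 := (pow_pos (hapos j) _).ne'
    rw [show 2 * R + 1 = R + (R + 1) by ring, pow_add _ R (R + 1), ← mul_assoc,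
      inv_mul_cancel₀ h3, one_mul]
  have hsum : ∀ k, ∑ j ∈ Finset.range (k + 1), (p j : ℝ) ^ (R + 1) ≤ 2 * (p k : ℝ) ^ (R + 1) := by
    intro k
    induction k with
    | zero =>
      have := pow_pos (hapos 0) (R + 1)
      simp
      linarith
    | succ k ih =>
      rw [Finset.sum_range_succ]
      have := hdblpow (R + 1) (by omega) k
      linarith
  refine ⟨p, by rw [hp0]; omega, hps, hr.1, fun k => hr.2 (k + 1), ?_, ?_, ?_⟩
  · have h1 := hr.2 0
    simp only [zero_add] at h1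
    refine h1.trans ?_
    have h3 : (2 : ℝ) ≤ (p 0 : ℝ) ^ R := by
      calc (2 : ℝ) ≤ (p 0 : ℝ) := by linarith [ha16 0]
        _ = (p 0 : ℝ) ^ 1 := (pow_one _).symm
        _ ≤ (p 0 : ℝ) ^ R := pow_le_pow_right₀ (by linarith [ha16 0]) hR
    have h4 : ((p 0 : ℝ) ^ R)⁻¹ ≤ 2⁻¹ := inv_anti₀ (by norm_num) h3
    linarith
  · intro k
    have hR' : ((((p k : ℝ)) ^ R)⁻¹) ^ 2 * (p k : ℝ) ^ (2 * R + 1) = (p k : ℝ) := by
      have h3 : (p k : ℝ) ^ R ≠ 0 := (pow_pos (hapos k) _).ne'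
      rw [show 2 * R + 1 = R + R + 1 by ring, pow_succ, pow_add]
      field_simp
      ring
    rw [hR']
    cases k with
    | zero =>
      simp
    | succ l =>
      have h1 : ∑ j ∈ Finset.range (l + 1), (((p j : ℝ)) ^ R)⁻¹ * (2 * (p j : ℝ) ^ (2 * R + 1)) =
          2 * ∑ j ∈ Finset.range (l + 1), (p j : ℝ) ^ (R + 1) := by
        rw [Finset.mul_sum]
        refine Finset.sum_congr rfl fun j _ => ?_
        rw [← hterm j]
        ring
      rw [h1]
      have h3 := hsum l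
      have h4 : 0 ≤ ∑ j ∈ Finset.range (l + 1), (p j : ℝ) ^ (R + 1) :=
        Finset.sum_nonneg fun j _ => pow_nonneg (hapos j).le _
      have h5 : (2 * ∑ j ∈ Finset.range (l + 1), (p j : ℝ) ^ (R + 1)) ^ 2 ≤
          16 * (p l : ℝ) ^ (2 * R + 2) := by
        calc (2 * ∑ j ∈ Finset.range (l + 1), (p j : ℝ) ^ (R + 1)) ^ 2
            ≤ (2 * (2 * (p l : ℝ) ^ (R + 1))) ^ 2 := by
              apply pow_le_pow_left₀ (by positivity)
              linarith
          _ = 16 * (p l : ℝ) ^ (2 * R + 2) := by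
              rw [show 2 * R + 2 = (R + 1) + (R + 1) by ring, pow_add]
              ring
      calc C₂ * (2 * ∑ j ∈ Finset.range (l + 1), (p j : ℝ) ^ (R + 1)) ^ 2
          ≤ C₂ * (16 * (p l : ℝ) ^ (2 * R + 2)) :=
            mul_le_mul_of_nonneg_left h5 (by linarith)
        _ = (16 * C₂) * (p l : ℝ) ^ (2 * R + 2) := by ring
        _ ≤ (p l : ℝ) * (p l : ℝ) ^ (2 * R + 2) :=
            mul_le_mul_of_nonneg_right (ha l) (pow_nonneg (hapos l).le _)
        _ = (p l : ℝ) ^ (2 * R + 3) := by ring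
        _ ≤ (p l : ℝ) ^ Bx := pow_le_pow_right₀ (by linarith [ha16 l]) (by omega)
        _ = ((p (l + 1) : ℕ) : ℝ) := by rw [hps]; push_cast; rfl
  · intro k
    simp only [hterm]
    exact hsum k

end P1

section P2

variable {H : Type} [NormedAddCommGroup H] [InnerProductSpace ℂ H] [CompleteSpace H]


theorem pu2_stage (c₁ C₂ B : ℝ) (h1 : 0 < c₁) (h2 : 0 < C₂) (R : ℕ) (p m : ℕ → ℕ) (r : ℕ → ℝ)
    (hppos : ∀ k, 0 < p k)
    (hm : ∀ k, m k = p k ^ (2 * R + 1)) (hr : ∀ k, r k = ((p k : ℝ) ^ R)⁻¹)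
    (htail : ∀ k, ∑' j, r (k + 1 + j) ≤ 2 * r (k + 1))
    (G : ℝ → ℝ)
    (hU : ∀ (k i₀ i₁ : ℕ) (t : ℝ), 0 < t → t ≤ 1 → 2 * ∑' j, r (k + 1 + j) ≤ √t → i₀ ≤ i₁ →
      C₂ * t * m k ≤ 2 ^ i₀ → C₂ * 2 ^ i₁ ≤ r k ^ 2 * m k →
      G t ≤ B + Real.log (1 / t) - c₁ * ((i₁ : ℝ) - i₀))
    (j : ℕ) (τ x : ℝ) (hτ0 : 0 ≤ τ) (hτ : τ ≤ 2 * R * Real.log (p (j + 1)) - Real.log 16)
    (hx1 : x ≤ Real.log (p j)) (hx2 : x ≤ τ - 2 * R * Real.log (p j))
    (hx3 : (2 * |Real.log C₂| / Real.log 2 + 2) ≤ x / Real.log 2) :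
    G (Real.exp (-τ)) ≤
      B + τ - c₁ * (x / Real.log 2 - (2 * |Real.log C₂| / Real.log 2 + 2)) := by
  have hl2 : 0 < Real.log 2 := Real.log_pos (by norm_num)
  have hpos : (0 : ℝ) < p j := by exact_mod_cast hppos j
  have hpos1 : (0 : ℝ) < p (j + 1) := by exact_mod_cast hppos (j + 1)
  set lam := Real.log (p j) with hlam
  set lam1 := Real.log (p (j + 1)) with hlam1
  have hM : (p j : ℝ) = Real.exp lam := (Real.exp_log hpos).symm
  have hM1 : (p (j + 1) : ℝ) = Real.exp lam1 := (Real.exp_log hpos1).symm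
  have hmj : (m j : ℝ) = Real.exp ((2 * R + 1) * lam) := by
    rw [hm, Nat.cast_pow, hM, ← Real.exp_nat_mul]; push_cast; ring_nf
  have hr1 : r j = Real.exp (-(R * lam)) := by
    rw [hr, hM, ← Real.exp_nat_mul, Real.exp_neg]
  have hr2 : r (j + 1) = Real.exp (-(R * lam1)) := by
    rw [hr, hM1, ← Real.exp_nat_mul, Real.exp_neg]
  have hC : C₂ = Real.exp (Real.log C₂) := (Real.exp_log h2).symm
  have h2e : ∀ i : ℕ, (2 : ℝ) ^ i = Real.exp (i * Real.log 2) := by
    intro i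
    rw [Real.exp_nat_mul, Real.exp_log (by norm_num)]
  set a : ℝ := (Real.log C₂ - τ + (2 * R + 1) * lam) / Real.log 2 with ha
  set b : ℝ := (lam - Real.log C₂) / Real.log 2 with hb
  have habs := le_abs_self (Real.log C₂)
  have habs' := neg_abs_le (Real.log C₂)
  have habs0 := abs_nonneg (Real.log C₂)
  have hx4 : 2 * |Real.log C₂| + 2 * Real.log 2 ≤ x := by
    have h3 := mul_le_mul_of_nonneg_right hx3 hl2.le
    rw [div_mul_cancel₀ _ hl2.ne', add_mul, div_mul_cancel₀ _ hl2.ne'] at h3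
    exact h3
  have hb0 : 0 ≤ b := by
    apply div_nonneg _ hl2.le
    linarith
  have hi1 : (⌊b⌋₊ : ℝ) ≤ b := Nat.floor_le hb0
  have hi1' : b < ⌊b⌋₊ + 1 := Nat.lt_floor_add_one b
  have hi0 : a ≤ (⌈a⌉₊ : ℝ) := Nat.le_ceil a
  have hdiff : x / Real.log 2 - (2 * |Real.log C₂| / Real.log 2 + 2) ≤
      (⌊b⌋₊ : ℝ) - (⌈a⌉₊ : ℝ) := by
    rcases le_total a 0 with h | h
    · have h3 : ⌈a⌉₊ = 0 := Nat.ceil_eq_zero.2 h
      rw [h3, Nat.cast_zero, sub_zero]
      have h4 : x / Real.log 2 - 2 * |Real.log C₂| / Real.log 2 ≤ b := by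
        rw [hb, ← sub_div]
        apply div_le_div_of_nonneg_right _ hl2.le
        linarith
      linarith
    · have h3 : (⌈a⌉₊ : ℝ) < a + 1 := Nat.ceil_lt_add_one h
      have h4 : x / Real.log 2 - 2 * |Real.log C₂| / Real.log 2 ≤ b - a := by
        rw [hb, ha, ← sub_div, ← sub_div]
        apply div_le_div_of_nonneg_right _ hl2.le
        linarith
      linarith
  have hle : ⌈a⌉₊ ≤ ⌊b⌋₊ := by
    have : (⌈a⌉₊ : ℝ) ≤ (⌊b⌋₊ : ℝ) := by linarith
    exact_mod_cast this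
  have hmain := hU j ⌈a⌉₊ ⌊b⌋₊ (Real.exp (-τ)) (Real.exp_pos _)
    (by rw [Real.exp_le_one_iff]; linarith) ?_ hle ?_ ?_
  · rw [one_div, ← Real.exp_neg, neg_neg, Real.log_exp] at hmain
    have := mul_le_mul_of_nonneg_left hdiff h1.le
    linarith
  · rcases le_total (2 * ∑' i, r (j + 1 + i)) 0 with h8 | h8
    · exact h8.trans (Real.sqrt_nonneg _)
    have h3 := htail j
    rw [hr2] at h3
    apply Real.le_sqrt_of_sq_le
    have h16 : (16 : ℝ) = Real.exp (Real.log 16) := (Real.exp_log (by norm_num)).symm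
    have h6 : (4 * Real.exp (-(R * lam1))) ^ 2 ≤ Real.exp (-τ) := by
      have h7 : (4 * Real.exp (-(R * lam1))) ^ 2 = 16 * Real.exp (-(2 * R * lam1)) := by
        rw [mul_pow, ← Real.exp_nat_mul]
        norm_num
        ring_nf
      rw [h7]
      nth_rewrite 1 [h16]
      rw [← Real.exp_add, Real.exp_le_exp]
      linarith
    refine le_trans (pow_le_pow_left₀ h8 ?_ 2) h6
    linarith
  · rw [h2e, hmj]
    nth_rewrite 1 [hC]
    rw [← Real.exp_add, ← Real.exp_add, Real.exp_le_exp]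
    have := mul_le_mul_of_nonneg_right hi0 hl2.le
    rw [ha, div_mul_cancel₀ _ hl2.ne'] at this
    linarith
  · rw [h2e, hmj, hr1]
    nth_rewrite 1 [hC]
    rw [← Real.exp_add, ← Real.exp_nat_mul, ← Real.exp_add, Real.exp_le_exp]
    have := mul_le_mul_of_nonneg_right hi1 hl2.le
    rw [hb, div_mul_cancel₀ _ hl2.ne'] at this
    push_cast
    linarith

theorem pu2_split (g : ℝ → ℝ) (hg4 : ∀ t, 0 < t → g t ≤ 4)
    (hint : ∀ t : ℝ, 0 < t → t ≤ 1 → IntervalIntegrable (fun u => g u / u) volume t 1)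
    (t t' : ℝ) (ht : 0 < t) (htt : t ≤ t') (ht' : t' ≤ 1) :
    ∫ u in t..1, g u / u ≤ 4 * (Real.log t' - Real.log t) + ∫ u in t'..1, g u / u := by
  have ht'0 : 0 < t' := lt_of_lt_of_le ht htt
  have hi1 := hint t ht (htt.trans ht')
  have hi2 := hint t' ht'0 ht'
  have hi3 : IntervalIntegrable (fun u => g u / u) volume t t' := hi1.trans hi2.symm
  rw [← intervalIntegral.integral_add_adjacent_intervals hi3 hi2]
  have h4 : ∫ u in t..t', g u / u ≤ ∫ u in t..t', 4 * u⁻¹ := by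
    apply intervalIntegral.integral_mono_on htt hi3
    · apply IntervalIntegrable.const_mul
      rw [intervalIntegrable_inv_iff]
      right
      rw [Set.uIcc_of_le htt]
      intro h
      exact absurd h.1 (not_le.2 ht)
    · intro u hu
      have hu0 : 0 < u := lt_of_lt_of_le ht hu.1
      rw [div_eq_mul_inv]
      exact mul_le_mul_of_nonneg_right (hg4 u hu0) (inv_nonneg.2 hu0.le)
  have h5 : ∫ u in t..t', 4 * u⁻¹ = 4 * (Real.log t' - Real.log t) := by
    rw [intervalIntegral.integral_const_mul, integral_inv_of_pos ht ht'0,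
      Real.log_div ht'0.ne' ht.ne']
  linarith

set_option maxHeartbeats 2000000 in
theorem pu2_core (c₁ B K R b : ℝ) (h1 : 0 < c₁) (hK : 0 ≤ K) (hR : 1 ≤ R) (hb : 3 ≤ b)
    (L : ℕ → ℝ) (hL0 : Real.log 2 ≤ L 0)
    (hL : ∀ j, L (j + 1) = b * L j) (Gt : ℝ → ℝ)
    (hstage : ∀ (j : ℕ) (τ x : ℝ), 0 ≤ τ → τ ≤ 2 * R * L (j + 1) - Real.log 16 → x ≤ L j →
      x ≤ τ - 2 * R * L j → K ≤ x / Real.log 2 → Gt τ ≤ B + τ - c₁ * (x / Real.log 2 - K))
    (hsplit : ∀ τ τ', 0 ≤ τ' → τ' ≤ τ → Gt τ ≤ 4 * (τ - τ') + Gt τ') :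
    ∃ c : ℝ, 0 < c ∧ ∃ T : ℝ, ∀ τ, T ≤ τ → Gt τ ≤ (1 - c) * τ := by
  have hl2 : 0 < Real.log 2 := Real.log_pos (by norm_num)
  have hl21 : Real.log 2 < 1 := by
    have := Real.log_two_lt_d9
    linarith
  have hl16 : Real.log 16 = 4 * Real.log 2 := by
    rw [show (16 : ℝ) = 2 ^ 4 by norm_num, Real.log_pow]
    norm_num
  have hLpos : ∀ j, 0 < L j := by
    intro j
    induction j with
    | zero => linarith
    | succ j ih => rw [hL]; positivity
  have hLmono : ∀ j, L 0 ≤ L j := by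
    intro j
    induction j with
    | zero => exact le_rfl
    | succ j ih =>
      rw [hL]
      have := hLpos j
      nlinarith
  have hLj : ∀ j : ℕ, (j : ℝ) * L 0 ≤ L j := by
    intro j
    induction j with
    | zero => simp; exact (hLpos 0).le
    | succ j ih =>
      rw [hL]
      push_cast
      have h3 := hLpos j
      have h4 := hLmono j
      nlinarith
  obtain ⟨δ, hδ, hδ1, hδ2, hδ3⟩ : ∃ δ : ℝ, 0 < δ ∧ δ ≤ 1 / 10 ∧ δ * b ≤ c₁ / 10 ∧ δ * b ≤ 1 / 10 := by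
    have hb0 : 0 < b := by linarith
    refine ⟨min c₁ 1 / 10 / b, by positivity, ?_, ?_, ?_⟩
    · rw [div_le_iff₀ hb0]
      have := min_le_right c₁ 1
      nlinarith
    · rw [div_mul_cancel₀ _ hb0.ne']
      have := min_le_left c₁ 1
      linarith
    · rw [div_mul_cancel₀ _ hb0.ne']
      have := min_le_right c₁ 1
      linarith
  obtain ⟨S, hS⟩ : ∃ S : ℝ, S = R * b := ⟨_, rfl⟩
  have hS3 : 3 ≤ S := by rw [hS]; nlinarith
  obtain ⟨C, hC⟩ : ∃ C : ℝ, C = 3 * Real.log 16 + |B| + c₁ * K := ⟨_, rfl⟩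
  have hC0 : 0 ≤ C := by rw [hC, hl16]; positivity
  refine ⟨c₁ * δ / (6 * S), by positivity,
    S * (2 * L 0 + 3 * Real.log 16 + 3 * K / δ + 3 * C / (c₁ * δ)), ?_⟩
  intro τ hτ
  obtain ⟨u, hu⟩ : ∃ u : ℝ, τ = S * u := ⟨τ / S, by field_simp⟩
  have hu1 : 2 * L 0 + 3 * Real.log 16 + 3 * K / δ + 3 * C / (c₁ * δ) ≤ u := by
    rw [hu] at hτ
    exact le_of_mul_le_mul_left hτ (by linarith)
  have hB := le_abs_self B
  have hB0 := abs_nonneg B
  have hp1 : 0 ≤ 3 * K / δ := by positivity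
  have hp2 : 0 ≤ 3 * C / (c₁ * δ) := by positivity
  have hlog16 : 0 < Real.log 16 := by rw [hl16]; linarith
  have hL0pos := hLpos 0
  have ht1 : 2 * L 0 ≤ u := by linarith
  have ht1' : 3 * Real.log 16 ≤ u := by linarith
  have ht2 : 3 * K ≤ δ * u := by
    have h3 : 3 * K / δ ≤ u := by linarith
    rw [div_le_iff₀ hδ] at h3
    linarith
  have ht3 : 3 * C ≤ (c₁ * δ) * u := by
    have h3 : 3 * C / (c₁ * δ) ≤ u := by linarith
    rw [div_le_iff₀ (by positivity)] at h3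
    linarith
  have hu0 : 0 < u := by linarith
  have hτ0 : 0 < τ := by rw [hu]; positivity
  have hcτ : (1 - c₁ * δ / (6 * S)) * τ = τ - c₁ * δ * u / 6 := by
    rw [hu]; field_simp
  rw [hcτ]
  have hex : ∃ N : ℕ, τ ≤ 2 * R * L N - Real.log 16 := by
    obtain ⟨N, hN⟩ := exists_nat_gt ((τ + Real.log 16) / L 0)
    refine ⟨N, ?_⟩
    rw [div_lt_iff₀ hL0pos] at hN
    have h3 := hLj N
    have h4 := hLpos N
    have h5 : 1 * L N ≤ R * L N := mul_le_mul_of_nonneg_right hR h4.le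
    have h6 : 2 * R * L N = 2 * (R * L N) := by ring
    linarith
  classical
  let N := Nat.find hex
  have hN : τ ≤ 2 * R * L N - Real.log 16 := Nat.find_spec hex
  have hN' : ∀ k < N, ¬ (τ ≤ 2 * R * L k - Real.log 16) := fun k hk => Nat.find_min hex hk
  have hSL : S * u ≥ S * (2 * L 0) := mul_le_mul_of_nonneg_left ht1 (by linarith)
  have hN0 : N ≠ 0 := by
    intro h
    rw [h] at hN
    have : 2 * R * L 0 ≤ S * (2 * L 0) := by
      rw [hS]
      have h7 : 0 ≤ R * L 0 * (b - 1) := by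
        apply mul_nonneg (by positivity) (by linarith)
      have h8 : R * b * (2 * L 0) = 2 * R * L 0 + 2 * (R * L 0 * (b - 1)) := by ring
      linarith
    linarith
  have hN1 : N ≠ 1 := by
    intro h
    rw [h] at hN
    have h3 : L 1 = b * L 0 := hL 0
    rw [h3] at hN
    have : 2 * R * (b * L 0) = S * (2 * L 0) := by rw [hS]; ring
    linarith
  obtain ⟨j, hj⟩ : ∃ j, N = j + 2 := ⟨N - 2, by omega⟩
  rw [hj] at hN
  have hNj : 2 * R * L (j + 1) - Real.log 16 < τ := not_le.1 (hN' (j + 1) (by omega))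
  have hN2 : τ ≤ 2 * R * L (j + 1 + 1) - Real.log 16 := hN
  have hLj1 := hL j
  have hLj2 := hL (j + 1)
  have hLjpos := hLpos j
  have hL1pos := hLpos (j + 1)
  have hdl : ∀ y : ℝ, 0 ≤ y → y ≤ y / Real.log 2 := by
    intro y hy
    rw [le_div_iff₀ hl2]
    calc y * Real.log 2 ≤ y * 1 := mul_le_mul_of_nonneg_left hl21.le hy
      _ = y := mul_one y
  rcases le_total ((2 * R + δ) * L (j + 1)) τ with hc | hc
  · -- case 1
    have hlam : u ≤ 2 * L (j + 1) := by
      have h3 : S * u ≤ S * (2 * L (j + 1)) := by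
        have : S * (2 * L (j + 1)) = 2 * R * (b * L (j + 1)) := by rw [hS]; ring
        rw [this, ← hLj2, ← hu]
        linarith
      exact le_of_mul_le_mul_left h3 (by linarith)
    have h2' : δ * u ≤ δ * (2 * L (j + 1)) := mul_le_mul_of_nonneg_left hlam hδ.le
    have h3 : K ≤ δ * L (j + 1) := by linarith
    have h4 := hdl (δ * L (j + 1)) (by positivity)
    have h44 : δ * L (j + 1) ≤ 1 * L (j + 1) :=
      mul_le_mul_of_nonneg_right (by linarith) hL1pos.le
    have h45 : (2 * R + δ) * L (j + 1) = 2 * R * L (j + 1) + δ * L (j + 1) := by ring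
    have h5 := hstage (j + 1) τ (δ * L (j + 1)) hτ0.le hN2 (by linarith) (by linarith)
      (h3.trans h4)
    have h6 : c₁ * (δ * L (j + 1) - K) ≤ c₁ * (δ * L (j + 1) / Real.log 2 - K) :=
      mul_le_mul_of_nonneg_left (by linarith) h1.le
    have h7 : c₁ * δ * u ≤ c₁ * δ * (2 * L (j + 1)) :=
      mul_le_mul_of_nonneg_left hlam (by positivity)
    have h9 : c₁ * (δ * L (j + 1) - K) = c₁ * δ * L (j + 1) - c₁ * K := by ring
    have h10 : c₁ * δ * (2 * L (j + 1)) = 2 * (c₁ * δ * L (j + 1)) := by ring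
    linarith
  · -- case 2
    have hlam : u ≤ 3 * L j := by
      have h3 : S * u ≤ S * (3 * L j) := by
        rw [← hu]
        have e1 : S * (3 * L j) = 3 * R * (b * L j) := by rw [hS]; ring
        rw [e1, ← hLj1]
        have : (2 * R + δ) * L (j + 1) ≤ 3 * R * L (j + 1) :=
          mul_le_mul_of_nonneg_right (by linarith) hL1pos.le
        linarith
      exact le_of_mul_le_mul_left h3 (by linarith)
    have hLj16 : Real.log 16 ≤ L j := by linarith
    have hKL : K ≤ L j := by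
      have : δ * u ≤ 1 / 10 * u := mul_le_mul_of_nonneg_right hδ1 hu0.le
      linarith
    have hRb : 6 * L j ≤ 2 * R * L (j + 1) := by
      rw [hLj1]
      have h4 : 3 ≤ R * b := by rw [← hS]; exact hS3
      have h5 : 3 * L j ≤ R * b * L j := mul_le_mul_of_nonneg_right h4 hLjpos.le
      have h6 : 2 * R * (b * L j) = 2 * (R * b * L j) := by ring
      linarith
    have hRb2 : L j ≤ 2 * R * L (j + 1) - Real.log 16 - 2 * R * L j := by
      rw [hLj1]
      have h4 : 4 ≤ 2 * R * (b - 1) := by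
        calc (4 : ℝ) = 2 * 1 * (3 - 1) := by norm_num
          _ ≤ 2 * R * (b - 1) := mul_le_mul (by linarith) (by linarith) (by norm_num) (by linarith)
      have h5 : 4 * L j ≤ 2 * R * (b - 1) * L j := mul_le_mul_of_nonneg_right h4 hLjpos.le
      have h6 : 2 * R * (b - 1) * L j = 2 * R * (b * L j) - 2 * R * L j := by ring
      linarith
    have hτ' : 0 ≤ 2 * R * L (j + 1) - Real.log 16 := by linarith
    have h3 := hsplit τ (2 * R * L (j + 1) - Real.log 16) hτ' hNj.le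
    have h5 := hdl (L j) hLjpos.le
    have h6 := hstage j (2 * R * L (j + 1) - Real.log 16) (L j) hτ' le_rfl le_rfl hRb2
      (hKL.trans h5)
    have h7 : c₁ * (L j - K) ≤ c₁ * (L j / Real.log 2 - K) :=
      mul_le_mul_of_nonneg_left (by linarith) h1.le
    have h9 : τ - (2 * R * L (j + 1) - Real.log 16) ≤ δ * L (j + 1) + Real.log 16 := by
      have : (2 * R + δ) * L (j + 1) = 2 * R * L (j + 1) + δ * L (j + 1) := by ring
      linarith
    have h10 : δ * L (j + 1) ≤ c₁ / 10 * L j := by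
      rw [hLj1, ← mul_assoc]
      exact mul_le_mul_of_nonneg_right hδ2 hLjpos.le
    have h12 : c₁ * δ * u ≤ c₁ * δ * (3 * L j) :=
      mul_le_mul_of_nonneg_left hlam (by positivity)
    have h13 : c₁ * δ * (3 * L j) ≤ 3 / 10 * (c₁ * L j) := by
      have : c₁ * δ * (3 * L j) = δ * (3 * (c₁ * L j)) := by ring
      rw [this]
      have h14 : δ * (3 * (c₁ * L j)) ≤ 1 / 10 * (3 * (c₁ * L j)) :=
        mul_le_mul_of_nonneg_right hδ1 (by positivity)
      linarith
    have h15 : c₁ * (L j - K) = c₁ * L j - c₁ * K := by ring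
    have h16 : 0 ≤ c₁ * L j := by positivity
    linarith

/-- logarithmic averages stay below `1 - c`, second version -/
theorem params_upper2 (c₁ C₂ B : ℝ) (h1 : 0 < c₁) (h2 : 0 < C₂) (R Bx : ℕ) (hR : 1 ≤ R) (hBx : 3 ≤ Bx)
    (p m : ℕ → ℕ) (r : ℕ → ℝ) (hp0 : 2 ≤ p 0) (hp : ∀ k, p (k + 1) = p k ^ Bx)
    (hm : ∀ k, m k = p k ^ (2 * R + 1)) (hr : ∀ k, r k = ((p k : ℝ) ^ R)⁻¹)
    (htail : ∀ k, ∑' j, r (k + 1 + j) ≤ 2 * r (k + 1))
    (g : ℝ → ℝ) (hg0 : ∀ t, 0 < t → 0 ≤ g t) (hg4 : ∀ t, 0 < t → g t ≤ 4)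
    (hint : ∀ t : ℝ, 0 < t → t ≤ 1 → IntervalIntegrable (fun u => g u / u) volume t 1)
    (hU : ∀ (k i₀ i₁ : ℕ) (t : ℝ), 0 < t → t ≤ 1 → 2 * ∑' j, r (k + 1 + j) ≤ √t → i₀ ≤ i₁ →
      C₂ * t * m k ≤ 2 ^ i₀ → C₂ * 2 ^ i₁ ≤ r k ^ 2 * m k →
      ∫ u in t..1, g u / u ≤ B + Real.log (1 / t) - c₁ * ((i₁ : ℝ) - i₀)) :
    ∃ c : ℝ, 0 < c ∧ ∀ᶠ t in 𝓝[>] (0 : ℝ), ∫ u in t..1, g u / u ≤ (1 - c) * Real.log (1 / t) := by
  have hppos : ∀ k, 0 < p k := by
    intro k
    induction k with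
    | zero => omega
    | succ k ih => rw [hp]; positivity
  have hl2 : 0 < Real.log 2 := Real.log_pos (by norm_num)
  have hstage := pu2_stage c₁ C₂ B h1 h2 R p m r hppos hm hr htail
    (fun t => ∫ u in t..1, g u / u) hU
  obtain ⟨c, hc, T, hT⟩ := pu2_core c₁ B (2 * |Real.log C₂| / Real.log 2 + 2) R Bx h1
    (by positivity) (by exact_mod_cast hR) (by exact_mod_cast hBx)
    (fun j => Real.log (p j)) (Real.log_le_log (by norm_num) (by exact_mod_cast hp0))
    (fun j => by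
      show Real.log (p (j + 1) : ℝ) = Bx * Real.log (p j)
      rw [hp, Nat.cast_pow, Real.log_pow])
    (fun τ => ∫ u in (Real.exp (-τ))..1, g u / u) hstage
    (fun τ τ' h h' => by
      have := pu2_split g hg4 hint (Real.exp (-τ)) (Real.exp (-τ')) (Real.exp_pos _)
        (by rw [Real.exp_le_exp]; linarith) (by rw [Real.exp_le_one_iff]; linarith)
      rw [Real.log_exp, Real.log_exp] at this
      have h3 : 4 * (-τ' - -τ) = 4 * (τ - τ') := by ring
      rw [h3] at this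
      exact this)
  refine ⟨c, hc, ?_⟩
  filter_upwards [Ioo_mem_nhdsGT (Real.exp_pos (-T))] with t ht
  have ht0 : 0 < t := ht.1
  have h3 : T ≤ -Real.log t := by
    have := Real.log_lt_log ht0 ht.2
    rw [Real.log_exp] at this
    linarith
  have h4 := hT (-Real.log t) h3
  rw [neg_neg, Real.exp_log ht0] at h4
  rw [one_div, Real.log_inv]
  exact h4

end P2

section P3

variable {H : Type} [NormedAddCommGroup H] [InnerProductSpace ℂ H] [CompleteSpace H]


/-- lower bound on a piece, in the variable `τ = log (1/t)` -/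
theorem pv_lb (g : ℝ → ℝ)
    (hint : ∀ t : ℝ, 0 < t → t ≤ 1 → IntervalIntegrable (fun u => g u / u) volume t 1)
    (c a b : ℝ) (ha : 0 ≤ a) (hab : a ≤ b)
    (h : ∀ τ, a ≤ τ → τ ≤ b → c ≤ g (Real.exp (-τ))) :
    (∫ u in (Real.exp (-a))..1, g u / u) + c * (b - a) ≤ ∫ u in (Real.exp (-b))..1, g u / u := by
  have h1 : Real.exp (-b) ≤ Real.exp (-a) := Real.exp_le_exp.2 (by linarith)
  have h2 : Real.exp (-a) ≤ 1 := Real.exp_le_one_iff.2 (by linarith)
  have h0 : 0 < Real.exp (-b) := Real.exp_pos _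
  have hI : IntervalIntegrable (fun u => g u / u) volume (Real.exp (-b)) 1 :=
    hint _ h0 (h1.trans h2)
  have hI1 : IntervalIntegrable (fun u => g u / u) volume (Real.exp (-b)) (Real.exp (-a)) := by
    refine hI.mono_set ?_
    rw [Set.uIcc_of_le h1, Set.uIcc_of_le (h1.trans h2)]
    exact Set.Icc_subset_Icc_right h2
  have hI2 : IntervalIntegrable (fun u => g u / u) volume (Real.exp (-a)) 1 :=
    hint _ (Real.exp_pos _) h2
  rw [← intervalIntegral.integral_add_adjacent_intervals hI1 hI2]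
  have h3 : ∫ u in (Real.exp (-b))..(Real.exp (-a)), c / u = c * (b - a) := by
    simp_rw [div_eq_mul_inv]
    rw [intervalIntegral.integral_const_mul, integral_inv_of_pos h0 (Real.exp_pos _),
      ← Real.exp_sub, Real.log_exp]
    ring
  have h4 : ∫ u in (Real.exp (-b))..(Real.exp (-a)), c / u ≤
      ∫ u in (Real.exp (-b))..(Real.exp (-a)), g u / u := by
    refine intervalIntegral.integral_mono_on h1 ?_ hI1 ?_
    · apply ContinuousOn.intervalIntegrable
      rw [Set.uIcc_of_le h1]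
      refine continuousOn_const.div continuousOn_id fun u hu => ?_
      exact (lt_of_lt_of_le h0 hu.1).ne'
    · intro u hu
      have hu0 : 0 < u := lt_of_lt_of_le h0 hu.1
      refine div_le_div_of_nonneg_right ?_ hu0.le
      have h5 := h (-Real.log u) ?_ ?_
      · rwa [neg_neg, Real.exp_log hu0] at h5
      · have := Real.log_le_log hu0 hu.2
        rw [Real.log_exp] at this
        linarith
      · have := Real.log_le_log h0 hu.1
        rw [Real.log_exp] at this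
        linarith
  rw [h3] at h4
  linarith

theorem pv_nonneg (g : ℝ → ℝ) (hg0 : ∀ t, 0 < t → 0 ≤ g t) (a : ℝ) (ha : 0 ≤ a) :
    0 ≤ ∫ u in (Real.exp (-a))..1, g u / u := by
  have h2 : Real.exp (-a) ≤ 1 := Real.exp_le_one_iff.2 (by linarith)
  refine intervalIntegral.integral_nonneg h2 fun u hu => ?_
  have hu0 : 0 < u := lt_of_lt_of_le (Real.exp_pos _) hu.1
  exact div_nonneg (hg0 u hu0) hu0.le

theorem pv_good (CL : ℝ) (hCL : 0 < CL) (η : ℝ) (hη : 0 < η) :
    ∃ C : ℝ, 0 ≤ C ∧ ∀ u v : ℝ, u ≤ -C → v ≤ -C →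
      CL * (Real.exp u + Real.exp v) ≤ η := by
  have h0 : 0 < 2 * CL / η := by positivity
  have key : ∀ u : ℝ, u ≤ -(max 0 (Real.log (2 * CL / η))) → CL * Real.exp u ≤ η / 2 := by
    intro u hu
    have h1 : u ≤ -Real.log (2 * CL / η) := by
      have := le_max_right 0 (Real.log (2 * CL / η))
      linarith
    have h2 : Real.exp u ≤ (2 * CL / η)⁻¹ := by
      have h3 := Real.exp_le_exp.2 h1
      rwa [Real.exp_neg, Real.exp_log h0] at h3
    calc CL * Real.exp u ≤ CL * (2 * CL / η)⁻¹ := mul_le_mul_of_nonneg_left h2 hCL.le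
      _ = η / 2 := by field_simp
  refine ⟨max 0 (Real.log (2 * CL / η)), le_max_left _ _, fun u v hu hv => ?_⟩
  have h1 := key u hu
  have h2 := key v hv
  rw [mul_add]
  linarith

theorem pv_stage (g : ℝ → ℝ) (hg0 : ∀ t, 0 < t → 0 ≤ g t)
    (hint : ∀ t : ℝ, 0 < t → t ≤ 1 → IntervalIntegrable (fun u => g u / u) volume t 1)
    (η : ℝ) (hη1 : η ≤ 1) (lo hi : ℝ)
    (hgood : ∀ τ, lo ≤ τ → τ ≤ hi → 1 - η ≤ g (Real.exp (-τ)))
    (a b b' : ℝ) (ha0 : 0 ≤ a) (ha : lo ≤ a) (hb : b ≤ hi) (hab' : a ≤ b') (hbb' : b ≤ b') :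
    (∫ u in (Real.exp (-a))..1, g u / u) + (1 - η) * (b - a) ≤
      ∫ u in (Real.exp (-b'))..1, g u / u := by
  rcases le_total a b with h | h
  · have h1 := pv_lb g hint (1 - η) a b ha0 h
      (fun τ h1 h2 => hgood τ (ha.trans h1) (h2.trans hb))
    have h2 := pv_lb g hint 0 b b' (ha0.trans h) hbb' (fun τ _ _ => hg0 _ (Real.exp_pos _))
    linarith
  · have h2 := pv_lb g hint 0 a b' ha0 hab' (fun τ _ _ => hg0 _ (Real.exp_pos _))
    have h3 : (1 - η) * (b - a) ≤ 0 :=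
      mul_nonpos_of_nonneg_of_nonpos (by linarith) (by linarith)
    linarith

theorem pv_part1 (c₁ CL : ℝ) (h1 : 0 < c₁) (h1' : c₁ ≤ 1) (hCL : 0 < CL) (R Bx : ℝ)
    (hRc : 8 ≤ c₁ * R) (hBc : 40 * (R + 1) ≤ c₁ * Bx) (L : ℕ → ℝ) (hLpos : ∀ k, 0 < L k)
    (hLs : ∀ k, L (k + 1) = Bx * L k) (hLt : Tendsto L atTop atTop) (hLm : Monotone L)
    (g : ℝ → ℝ) (hg0 : ∀ t, 0 < t → 0 ≤ g t)
    (hint : ∀ t : ℝ, 0 < t → t ≤ 1 → IntervalIntegrable (fun u => g u / u) volume t 1)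
    (hL : ∀ k τ, 0 ≤ τ → 1 - CL * (Real.exp ((2 * R + 2) * L k - τ) +
      Real.exp (τ - 2 * R * L (k + 1))) ≤ g (Real.exp (-τ))) :
    ∀ᶠ t in 𝓝[>] (0 : ℝ), (1 - c₁ / 2) * Real.log (1 / t) ≤ ∫ u in t..1, g u / u := by
  have hR8 : 8 ≤ R := by
    by_contra hcon
    push Not at hcon
    rcases le_or_gt R 0 with h | h
    · have := mul_nonpos_of_nonneg_of_nonpos h1.le h
      linarith
    · have : c₁ * R ≤ 1 * R := mul_le_mul_of_nonneg_right h1' h.le
      linarith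
  obtain ⟨C, hC0, hC⟩ := pv_good CL hCL (c₁ / 16) (by positivity)
  have hgood : ∀ k τ, (2 * R + 2) * L k + C ≤ τ → τ ≤ 2 * R * L (k + 1) - C →
      1 - c₁ / 16 ≤ g (Real.exp (-τ)) := by
    intro k τ h2 h3
    have h4 : 0 ≤ (2 * R + 2) * L k := mul_nonneg (by linarith) (hLpos k).le
    have h5 := hL k τ (by linarith)
    have h6 := hC ((2 * R + 2) * L k - τ) (τ - 2 * R * L (k + 1)) (by linarith) (by linarith)
    linarith
  -- the bound for `τ` between two stages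
  have main : ∀ k τ, C ≤ L (k + 1) → 2 * R * L (k + 1) ≤ τ → τ ≤ 2 * R * L (k + 2) →
      (1 - c₁ / 2) * τ ≤ ∫ u in (Real.exp (-τ))..1, g u / u := by
    intro k τ hM h2 h3
    set M : ℝ := L (k + 1) with hMdef
    set Q : ℝ := (2 * R + 2) * L k with hQdef
    have hM0 : 0 < M := hLpos _
    have hQ0 : 0 ≤ Q := mul_nonneg (by linarith) (hLpos k).le
    have hQ : Q ≤ c₁ * M / 20 := by
      have h4 : 40 * (R + 1) * L k ≤ c₁ * Bx * L k :=
        mul_le_mul_of_nonneg_right hBc (hLpos k).le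
      have h5 : M = Bx * L k := hLs k
      rw [hQdef, h5]
      linarith
    have hcM : c₁ * M ≤ M := by
      have := mul_le_mul_of_nonneg_right h1' hM0.le
      linarith
    have hcM0 : 0 ≤ c₁ * M := mul_nonneg h1.le hM0.le
    have hRM : 8 * M ≤ R * M := mul_le_mul_of_nonneg_right hR8 hM0.le
    have hcRM : 8 * M ≤ c₁ * R * M := mul_le_mul_of_nonneg_right hRc hM0.le
    have hcC : 0 ≤ c₁ * C := mul_nonneg h1.le hC0
    have hcQ : 0 ≤ c₁ * Q := mul_nonneg h1.le hQ0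
    rcases le_or_gt τ ((2 * R + 2) * M + 2 * C) with h | h
    · have h4 := pv_stage g hg0 hint (c₁ / 16) (by linarith) _ _ (hgood k) (Q + C)
        (2 * R * M - C) τ (by linarith) le_rfl le_rfl (by linarith) (by linarith)
      have h5 := pv_nonneg g hg0 (Q + C) (by linarith)
      have h6 : (1 - c₁ / 2) * τ ≤ (1 - c₁ / 2) * ((2 * R + 2) * M + 2 * C) :=
        mul_le_mul_of_nonneg_left h (by linarith)
      have h7 : (1 - c₁ / 2) * ((2 * R + 2) * M + 2 * C) ≤
          (1 - c₁ / 16) * (2 * R * M - C - (Q + C)) := by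
        have e1 : (1 - c₁ / 2) * ((2 * R + 2) * M + 2 * C) =
          2 * (R * M) + 2 * M + 2 * C - c₁ * R * M - c₁ * M - c₁ * C := by ring
        have e2 : (1 - c₁ / 16) * (2 * R * M - C - (Q + C)) =
          2 * (R * M) - 2 * C - Q - (1 / 8) * (c₁ * R * M) + (1 / 8) * (c₁ * C) +
            (1 / 16) * (c₁ * Q) := by ring
        rw [e1, e2]
        linarith
      linarith
    · have h4 := pv_stage g hg0 hint (c₁ / 16) (by linarith) _ _ (hgood k) (Q + C)
        (2 * R * M - C) ((2 * R + 2) * M + C) (by linarith) le_rfl le_rfl (by linarith)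
        (by linarith)
      have h5 := pv_nonneg g hg0 (Q + C) (by linarith)
      have h8 := pv_stage g hg0 hint (c₁ / 16) (by linarith) _ _ (hgood (k + 1))
        ((2 * R + 2) * M + C) (τ - C) τ (by linarith) le_rfl (by linarith) (by linarith)
        (by linarith)
      have hcτ : 16 * M ≤ c₁ * τ := by
        have h9 : c₁ * (2 * R * M) ≤ c₁ * τ := mul_le_mul_of_nonneg_left h2 h1.le
        linarith
      have h7 : (1 - c₁ / 2) * τ ≤ (1 - c₁ / 16) * (2 * R * M - C - (Q + C)) +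
          (1 - c₁ / 16) * (τ - C - ((2 * R + 2) * M + C)) := by
        have e1 : (1 - c₁ / 16) * (2 * R * M - C - (Q + C)) +
          (1 - c₁ / 16) * (τ - C - ((2 * R + 2) * M + C)) =
          τ - 2 * M - Q - 4 * C - (1 / 16) * (c₁ * τ) + (1 / 8) * (c₁ * M) +
            (1 / 16) * (c₁ * Q) + (1 / 4) * (c₁ * C) := by ring
        have e2 : (1 - c₁ / 2) * τ = τ - (1 / 2) * (c₁ * τ) := by ring
        rw [e1, e2]
        linarith
      linarith
  -- choose the stage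
  obtain ⟨k0, hk0⟩ := (hLt.eventually_ge_atTop C).exists
  have hT : ∀ τ, 2 * R * L (k0 + 1) ≤ τ →
      (1 - c₁ / 2) * τ ≤ ∫ u in (Real.exp (-τ))..1, g u / u := by
    intro τ hτ
    have hex : ∃ n, τ < 2 * R * L n := by
      obtain ⟨n, hn⟩ := (hLt.eventually_gt_atTop τ).exists
      refine ⟨n, ?_⟩
      have : 1 * L n ≤ 2 * R * L n := mul_le_mul_of_nonneg_right (by linarith) (hLpos n).le
      linarith
    classical
    set n := Nat.find hex with hn
    have hn1 : τ < 2 * R * L n := Nat.find_spec hex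
    have hn2 : ∀ i, i < n → 2 * R * L i ≤ τ := fun i hi => not_lt.1 (Nat.find_min hex hi)
    have hn3 : k0 + 1 < n := by
      by_contra hcon
      push Not at hcon
      have h4 : 2 * R * L n ≤ 2 * R * L (k0 + 1) :=
        mul_le_mul_of_nonneg_left (hLm hcon) (by linarith)
      linarith
    obtain ⟨k, hk⟩ : ∃ k, n = k + 2 := ⟨n - 2, by omega⟩
    refine main k τ ?_ (hn2 (k + 1) (by omega)) (by rw [← hk]; exact hn1.le)
    exact hk0.trans (hLm (by omega))
  have hev : ∀ᶠ t in 𝓝[>] (0 : ℝ), t < Real.exp (-(2 * R * L (k0 + 1))) :=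
    mem_nhdsWithin_of_mem_nhds (Iio_mem_nhds (Real.exp_pos _))
  filter_upwards [hev, self_mem_nhdsWithin] with t ht ht0
  have ht0' : (0 : ℝ) < t := ht0
  have h2 := hT (Real.log (1 / t)) (by
    rw [one_div, Real.log_inv]
    have := Real.log_lt_log ht0' ht
    rw [Real.log_exp] at this
    linarith)
  rwa [one_div, Real.log_inv, neg_neg, Real.exp_log ht0', ← Real.log_inv, ← one_div] at h2

theorem pv_part2 (c₁ CL K : ℝ) (h1 : 0 < c₁) (h1' : c₁ ≤ 1) (hCL : 0 < CL) (R Bx : ℝ)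
    (hRc : 8 ≤ c₁ * R) (hBc : 40 * (R + 1) ≤ c₁ * Bx) (L : ℕ → ℝ) (hLpos : ∀ k, 0 < L k)
    (hLs : ∀ k, L (k + 1) = Bx * L k) (hLt : Tendsto L atTop atTop)
    (g : ℝ → ℝ) (hg0 : ∀ t, 0 < t → 0 ≤ g t)
    (hint : ∀ t : ℝ, 0 < t → t ≤ 1 → IntervalIntegrable (fun u => g u / u) volume t 1)
    (hL : ∀ k τ, 0 ≤ τ → 1 - CL * (Real.exp ((2 * R + 2) * L k - τ) +
      Real.exp (τ - 2 * R * L (k + 1))) ≤ g (Real.exp (-τ)))
    (hU : ∀ᶠ k in atTop, ∫ u in (Real.exp (-((2 * R + 1) * L k)))..1, g u / u ≤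
      K + (2 * R + 1) * L k - c₁ * (7 / 5 * L k)) :
    ∀ᶠ k in atTop, ∃ τ, 2 * R * L k ≤ τ ∧ g (Real.exp (-τ)) ≤ 1 - c₁ := by
  have hR8 : 8 ≤ R := by
    by_contra hcon
    push Not at hcon
    rcases le_or_gt R 0 with h | h
    · have := mul_nonpos_of_nonneg_of_nonpos h1.le h
      linarith
    · have : c₁ * R ≤ 1 * R := mul_le_mul_of_nonneg_right h1' h.le
      linarith
  have hη0 : 0 < c₁ / (20 * R) := by positivity
  have hη1 : c₁ / (20 * R) ≤ 1 := by
    rw [div_le_one (by linarith)]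
    linarith
  obtain ⟨C, hC0, hC⟩ := pv_good CL hCL (c₁ / (20 * R)) hη0
  have hgood : ∀ k τ, (2 * R + 2) * L k + C ≤ τ → τ ≤ 2 * R * L (k + 1) - C →
      1 - c₁ / (20 * R) ≤ g (Real.exp (-τ)) := by
    intro k τ h2 h3
    have h4 : 0 ≤ (2 * R + 2) * L k := mul_nonneg (by linarith) (hLpos k).le
    have h5 := hL k τ (by linarith)
    have h6 := hC ((2 * R + 2) * L k - τ) (τ - 2 * R * L (k + 1)) (by linarith) (by linarith)
    linarith
  obtain ⟨N1, hN1⟩ := eventually_atTop.1 hU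
  obtain ⟨N2, hN2⟩ := eventually_atTop.1 (hLt.eventually_gt_atTop (max C (4 * (K + 2 * C) / c₁)))
  rw [eventually_atTop]
  refine ⟨max N1 N2 + 1, fun k hk => ?_⟩
  obtain ⟨j, rfl⟩ : ∃ j, k = j + 1 := ⟨k - 1, by omega⟩
  have hU1 := hN1 (j + 1) (by omega)
  have hM := hN2 (j + 1) (by omega)
  by_contra hcon
  push Not at hcon
  set M : ℝ := L (j + 1) with hMdef
  have hMC : C < M := lt_of_le_of_lt (le_max_left _ _) hM
  have hMK : 4 * (K + 2 * C) / c₁ < M := lt_of_le_of_lt (le_max_right _ _) hM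
  rw [div_lt_iff₀ h1] at hMK
  set Q : ℝ := (2 * R + 2) * L j with hQdef
  have hM0 : 0 < M := hLpos _
  have hQ0 : 0 ≤ Q := mul_nonneg (by linarith) (hLpos j).le
  have hQ : Q ≤ c₁ * M / 20 := by
    have h4 : 40 * (R + 1) * L j ≤ c₁ * Bx * L j :=
      mul_le_mul_of_nonneg_right hBc (hLpos j).le
    have h5 : M = Bx * L j := hLs j
    rw [hQdef, h5]
    linarith
  have hcM : c₁ * M ≤ M := by
    have := mul_le_mul_of_nonneg_right h1' hM0.le
    linarith
  have hRM : 8 * M ≤ R * M := mul_le_mul_of_nonneg_right hR8 hM0.le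
  have h4 := pv_stage g hg0 hint (c₁ / (20 * R)) hη1 _ _ (hgood j) (Q + C)
    (2 * R * M - C) (2 * R * M) (by linarith) le_rfl le_rfl (by linarith) (by linarith)
  have h5 := pv_nonneg g hg0 (Q + C) (by linarith)
  have h6 := pv_lb g hint (1 - c₁) (2 * R * M) ((2 * R + 1) * M) (by linarith) (by linarith)
    (fun τ h _ => (hcon τ h).le)
  have h7 : (1 - c₁ / (20 * R)) * (2 * R * M - C - (Q + C)) =
      2 * (R * M) - 2 * C - Q - (1 / 10) * (c₁ * M) + c₁ / (20 * R) * (2 * C + Q) := by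
    have hR0 : R ≠ 0 := by linarith
    field_simp
    ring
  have h8 : 0 ≤ c₁ / (20 * R) * (2 * C + Q) := mul_nonneg hη0.le (by linarith)
  rw [h7] at h4
  have e1 : (1 - c₁) * ((2 * R + 1) * M - 2 * R * M) = M - c₁ * M := by ring
  have e2 : K + (2 * R + 1) * M - c₁ * (7 / 5 * M) = K + 2 * (R * M) + M - 7 / 5 * (c₁ * M) := by
    ring
  rw [e1] at h6
  rw [e2] at hU1
  linarith

/-- logarithmic averages stay above `1 - c₁/2` while `g` has valleys below `1 - c₁` -/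
theorem params_valley (c₁ C₂ B CL : ℝ) (h1 : 0 < c₁) (h1' : c₁ ≤ 1) (h2 : 0 < C₂)
    (hCL : 0 < CL) (R Bx : ℕ) (hR : 1 ≤ R) (hBx : 3 ≤ Bx)
    (p m : ℕ → ℕ) (r : ℕ → ℝ) (hp0 : 2 ≤ p 0) (hp : ∀ k, p (k + 1) = p k ^ Bx)
    (hm : ∀ k, m k = p k ^ (2 * R + 1)) (hr : ∀ k, r k = ((p k : ℝ) ^ R)⁻¹)
    (htail : ∀ k, ∑' j, r (k + 1 + j) ≤ 2 * r (k + 1))
    (g : ℝ → ℝ) (hg0 : ∀ t, 0 < t → 0 ≤ g t) (hg4 : ∀ t, 0 < t → g t ≤ 4)
    (hint : ∀ t : ℝ, 0 < t → t ≤ 1 → IntervalIntegrable (fun u => g u / u) volume t 1)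
    (hU : ∀ (k i₀ i₁ : ℕ) (t : ℝ), 0 < t → t ≤ 1 → 2 * ∑' j, r (k + 1 + j) ≤ √t → i₀ ≤ i₁ →
      C₂ * t * m k ≤ 2 ^ i₀ → C₂ * 2 ^ i₁ ≤ r k ^ 2 * m k →
      ∫ u in t..1, g u / u ≤ B + Real.log (1 / t) - c₁ * ((i₁ : ℝ) - i₀))
    (hRc : 8 ≤ c₁ * R) (hBc : 40 * ((R : ℝ) + 1) ≤ c₁ * Bx)
    (hL : ∀ (k : ℕ) (t : ℝ), 0 < t → t ≤ 1 →
      1 - CL * ((r k * m k) ^ 2 * t + r (k + 1) ^ 2 / t) ≤ g t) :
    (∀ᶠ t in 𝓝[>] (0 : ℝ), (1 - c₁ / 2) * Real.log (1 / t) ≤ ∫ u in t..1, g u / u) ∧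
    (∃ tk : ℕ → ℝ, (∀ k, 0 < tk k) ∧ Tendsto tk atTop (𝓝 0) ∧ ∀ k, g (tk k) ≤ 1 - c₁) ∧
    (∃ tk ek : ℕ → ℝ, (∀ k, 0 < tk k) ∧ Tendsto tk atTop (𝓝 0) ∧ Tendsto ek atTop (𝓝 0) ∧
      ∀ k, 1 - ek k ≤ g (tk k)) := by
  have hp2 : ∀ k, 2 ≤ p k := by
    intro k
    induction k with
    | zero => exact hp0
    | succ k ih =>
      rw [hp]
      exact ih.trans (Nat.le_self_pow (by omega) _)
  set L : ℕ → ℝ := fun k => Real.log (p k) with hLdef
  have hpR : ∀ k, (2 : ℝ) ≤ p k := fun k => by exact_mod_cast hp2 k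
  have hexp : ∀ k, Real.exp (L k) = p k := fun k => Real.exp_log (by have := hpR k; linarith)
  have hlog2 : 0 < Real.log 2 := Real.log_pos (by norm_num)
  have hL2 : ∀ k, Real.log 2 ≤ L k := fun k => Real.log_le_log (by norm_num) (hpR k)
  have hLpos : ∀ k, 0 < L k := fun k => lt_of_lt_of_le hlog2 (hL2 k)
  have hLs : ∀ k, L (k + 1) = (Bx : ℝ) * L k := by
    intro k
    simp only [hLdef]
    rw [hp, Nat.cast_pow, Real.log_pow]
  have hBx3 : (3 : ℝ) ≤ Bx := by exact_mod_cast hBx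
  have hLm : Monotone L := by
    refine monotone_nat_of_le_succ fun k => ?_
    rw [hLs]
    have := mul_le_mul_of_nonneg_right hBx3 (hLpos k).le
    have := hLpos k
    linarith
  have hLlin : ∀ k : ℕ, ((k : ℝ) + 1) * Real.log 2 ≤ L k := by
    intro k
    induction k with
    | zero =>
      have := hL2 0
      push_cast
      linarith
    | succ k ih =>
      rw [hLs]
      have h3 := mul_le_mul_of_nonneg_right hBx3 (hLpos k).le
      have h4 : 0 ≤ (k : ℝ) * Real.log 2 := by positivity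
      push_cast
      linarith
  have hLt : Tendsto L atTop atTop := by
    refine tendsto_atTop_mono hLlin ?_
    exact (tendsto_atTop_add_const_right _ _ tendsto_natCast_atTop_atTop).atTop_mul_const hlog2
  have hR1 : (1 : ℝ) ≤ R := by exact_mod_cast hR
  have hR8 : (8 : ℝ) ≤ R := by
    have : c₁ * R ≤ 1 * R := mul_le_mul_of_nonneg_right h1' (by linarith)
    linarith
  have hr' : ∀ k, r k = Real.exp (-((R : ℝ) * L k)) := by
    intro k
    rw [hr, ← hexp, ← Real.exp_nat_mul, Real.exp_neg]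
  have hm' : ∀ k, (m k : ℝ) = Real.exp ((2 * (R : ℝ) + 1) * L k) := by
    intro k
    rw [hm, Nat.cast_pow, ← hexp, ← Real.exp_nat_mul]
    push_cast
    rfl
  have hL' : ∀ k τ, 0 ≤ τ → 1 - CL * (Real.exp ((2 * (R : ℝ) + 2) * L k - τ) +
      Real.exp (τ - 2 * (R : ℝ) * L (k + 1))) ≤ g (Real.exp (-τ)) := by
    intro k τ hτ
    have h3 := hL k (Real.exp (-τ)) (Real.exp_pos _) (Real.exp_le_one_iff.2 (by linarith))
    have e1 : (r k * m k) ^ 2 * Real.exp (-τ) = Real.exp ((2 * (R : ℝ) + 2) * L k - τ) := by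
      rw [hr', hm', ← Real.exp_add, sq, ← Real.exp_add, ← Real.exp_add]
      congr 1
      ring
    have e2 : r (k + 1) ^ 2 / Real.exp (-τ) = Real.exp (τ - 2 * (R : ℝ) * L (k + 1)) := by
      rw [hr', sq, ← Real.exp_add, ← Real.exp_sub]
      congr 1
      ring
    rwa [e1, e2] at h3
  refine ⟨pv_part1 c₁ CL h1 h1' hCL R Bx hRc hBc L hLpos hLs hLt hLm g hg0 hint hL', ?_, ?_⟩
  · -- valleys
    obtain ⟨i₀, hi₀⟩ := pow_unbounded_of_one_lt C₂ (one_lt_two : (1 : ℝ) < 2)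
    have hU' : ∀ᶠ k in atTop, ∫ u in (Real.exp (-((2 * (R : ℝ) + 1) * L k)))..1, g u / u ≤
        (B + c₁ * (1 + 2 * i₀)) + (2 * (R : ℝ) + 1) * L k - c₁ * (7 / 5 * L k) := by
      have hbig := hLt.eventually_ge_atTop (Real.log ((2 : ℝ) ^ (2 * i₀)))
      filter_upwards [hbig] with k hk
      have hpk0 : (0 : ℝ) < p k := by have := hpR k; linarith
      have hpk : 2 ^ (2 * i₀) ≤ p k := by
        have h3 := (Real.log_le_log_iff (by positivity) hpk0).1 hk
        exact_mod_cast h3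
      set n := Nat.log 2 (p k) with hn
      have hn1 : 2 * i₀ ≤ n := Nat.le_log_of_pow_le (by norm_num) hpk
      have hn2 : 2 ^ n ≤ p k := Nat.pow_log_le_self 2 (by have := hp2 k; omega)
      have hn3 : p k < 2 ^ (n + 1) := Nat.lt_pow_succ_log_self (by norm_num) _
      have hn3' : L k ≤ ((n : ℝ) + 1) * Real.log 2 := by
        have h3 : (p k : ℝ) ≤ 2 ^ (n + 1) := by exact_mod_cast hn3.le
        have h4 := Real.log_le_log hpk0 h3
        rw [Real.log_pow] at h4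
        push_cast at h4
        exact h4
      have hn4 : 7 / 5 * L k ≤ (n : ℝ) + 1 := by
        have h3 := Real.log_two_lt_d9
        have h4 : ((n : ℝ) + 1) * Real.log 2 ≤ ((n : ℝ) + 1) * (5 / 7) :=
          mul_le_mul_of_nonneg_left (by linarith) (by positivity)
        linarith
      have hR21 : 0 ≤ (2 * (R : ℝ) + 1) * L k := mul_nonneg (by linarith) (hLpos k).le
      have h3 := hU k i₀ (n - i₀) (Real.exp (-((2 * (R : ℝ) + 1) * L k))) (Real.exp_pos _)
        (Real.exp_le_one_iff.2 (by linarith)) ?_ (by omega) ?_ ?_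
      · have h4 : Real.log (1 / Real.exp (-((2 * (R : ℝ) + 1) * L k))) =
            (2 * (R : ℝ) + 1) * L k := by
          rw [one_div, ← Real.exp_neg, Real.log_exp, neg_neg]
        rw [h4, Nat.cast_sub (by omega)] at h3
        have h5 : c₁ * (7 / 5 * L k) ≤ c₁ * ((n : ℝ) + 1) := mul_le_mul_of_nonneg_left hn4 h1.le
        have e1 : c₁ * ((n : ℝ) - i₀ - i₀) = c₁ * ((n : ℝ) + 1) - c₁ * (1 + 2 * i₀) := by ring
        rw [e1] at h3
        linarith
      · -- tail condition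
        refine Real.le_sqrt_of_sq_le ?_
        have h4 : 2 * ∑' j, r (k + 1 + j) ≤ 4 * r (k + 1) := by
          have := htail k
          linarith
        have h5 : 0 ≤ ∑' j, r (k + 1 + j) := tsum_nonneg fun j => by
          rw [hr']; exact (Real.exp_pos _).le
        have h6 : (2 * ∑' j, r (k + 1 + j)) ^ 2 ≤ (4 * r (k + 1)) ^ 2 :=
          pow_le_pow_left₀ (by linarith) h4 2
        refine h6.trans ?_
        have h7 : (16 : ℝ) ≤ Real.exp (4 * L k) := by
          have h8 : Real.exp (4 * L k) = (p k : ℝ) ^ 4 := by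
            rw [← hexp, ← Real.exp_nat_mul]
            norm_num
          rw [h8]
          calc (16 : ℝ) = 2 ^ 4 := by norm_num
            _ ≤ (p k : ℝ) ^ 4 := pow_le_pow_left₀ (by norm_num) (hpR k) 4
        have h9 : (4 * r (k + 1)) ^ 2 = 16 * Real.exp (-(2 * (R : ℝ) * L (k + 1))) := by
          rw [hr', mul_pow, sq (Real.exp _), ← Real.exp_add]
          norm_num
          ring_nf
        rw [h9]
        calc 16 * Real.exp (-(2 * (R : ℝ) * L (k + 1))) ≤
            Real.exp (4 * L k) * Real.exp (-(2 * (R : ℝ) * L (k + 1))) :=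
              mul_le_mul_of_nonneg_right h7 (Real.exp_pos _).le
          _ = Real.exp (4 * L k - 2 * (R : ℝ) * L (k + 1)) := by
              rw [← Real.exp_add]; congr 1
          _ ≤ Real.exp (-((2 * (R : ℝ) + 1) * L k)) := by
              apply Real.exp_le_exp.2
              rw [hLs]
              have h10 : 3 * (2 * (R : ℝ) * L k) ≤ Bx * (2 * (R : ℝ) * L k) :=
                mul_le_mul_of_nonneg_right hBx3 (by have := hLpos k; positivity)
              have h11 : 8 * L k ≤ R * L k := mul_le_mul_of_nonneg_right hR8 (hLpos k).le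
              have := hLpos k
              nlinarith
      · rw [hm', mul_assoc, ← Real.exp_add, neg_add_cancel, Real.exp_zero, mul_one]
        exact hi₀.le
      · have h4 : r k ^ 2 * m k = p k := by
          rw [hr', hm', ← hexp, sq, ← Real.exp_add, ← Real.exp_add]
          congr 1
          ring
        rw [h4]
        calc C₂ * 2 ^ (n - i₀) ≤ 2 ^ i₀ * 2 ^ (n - i₀) :=
              mul_le_mul_of_nonneg_right hi₀.le (by positivity)
          _ = 2 ^ n := by rw [← pow_add]; congr 1; omega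
          _ ≤ p k := by exact_mod_cast hn2
    obtain ⟨N, hN⟩ := eventually_atTop.1 (pv_part2 c₁ CL _ h1 h1' hCL R Bx hRc hBc L hLpos hLs
      hLt g hg0 hint hL' hU')
    choose! τ hτ1 hτ2 using hN
    refine ⟨fun k => Real.exp (-τ (k + N)), fun k => Real.exp_pos _, ?_, fun k => hτ2 _ (by omega)⟩
    refine Real.tendsto_exp_neg_atTop_nhds_zero.comp ?_
    refine tendsto_atTop_mono (f := fun k => L (k + N)) ?_ (hLt.comp (tendsto_add_atTop_nat N))
    intro k
    have h3 := hτ1 (k + N) (by omega)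
    have h4 : 8 * L (k + N) ≤ R * L (k + N) := mul_le_mul_of_nonneg_right hR8 (hLpos _).le
    have := hLpos (k + N)
    linarith
  · -- peaks
    refine ⟨fun k => Real.exp (-(((R : ℝ) + 1) * L k + R * L (k + 1))),
      fun k => 2 * CL * Real.exp (-(R * L (k + 1) - ((R : ℝ) + 1) * L k)),
      fun k => Real.exp_pos _, ?_, ?_, ?_⟩
    · refine Real.tendsto_exp_neg_atTop_nhds_zero.comp ?_
      refine tendsto_atTop_mono (f := L) ?_ hLt
      intro k
      have h4 : 1 * L k ≤ ((R : ℝ) + 1) * L k :=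
        mul_le_mul_of_nonneg_right (by linarith) (hLpos _).le
      have h5 : 0 ≤ (R : ℝ) * L (k + 1) := mul_nonneg (by linarith) (hLpos _).le
      linarith
    · have h3 : Tendsto (fun k => Real.exp (-(R * L (k + 1) - ((R : ℝ) + 1) * L k))) atTop
          (𝓝 0) := by
        refine Real.tendsto_exp_neg_atTop_nhds_zero.comp ?_
        refine tendsto_atTop_mono (f := L) ?_ hLt
        intro k
        rw [hLs]
        have h10 : 3 * ((R : ℝ) * L k) ≤ Bx * ((R : ℝ) * L k) :=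
          mul_le_mul_of_nonneg_right hBx3 (by have := hLpos k; positivity)
        have h11 : 8 * L k ≤ R * L k := mul_le_mul_of_nonneg_right hR8 (hLpos k).le
        have := hLpos k
        nlinarith
      have h4 := h3.const_mul (2 * CL)
      rwa [mul_zero] at h4
    · intro k
      have h3 := hL' k (((R : ℝ) + 1) * L k + R * L (k + 1)) (by
        have := hLpos k
        have := hLpos (k + 1)
        positivity)
      have e1 : (2 * (R : ℝ) + 2) * L k - (((R : ℝ) + 1) * L k + R * L (k + 1)) =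
          -(R * L (k + 1) - ((R : ℝ) + 1) * L k) := by ring
      have e2 : ((R : ℝ) + 1) * L k + R * L (k + 1) - 2 * (R : ℝ) * L (k + 1) =
          -(R * L (k + 1) - ((R : ℝ) + 1) * L k) := by ring
      rw [e1, e2] at h3
      refine le_trans (le_of_eq ?_) h3
      ring

end P3

section P4

variable {H : Type} [NormedAddCommGroup H] [InnerProductSpace ℂ H] [CompleteSpace H]


theorem x17545_ne (X Y : EReal) (a b : ℝ) (hab : a < b) (hX : X ≤ (a : EReal))
    (hY : (b : EReal) ≤ Y) : (4 : EReal) - X ≠ (4 : EReal) - Y := by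
  intro heq
  have h1 : ((4 : ℝ) : EReal) - (a : EReal) ≤ ((4 : ℝ) : EReal) - X := EReal.sub_le_sub le_rfl hX
  have h2 : ((4 : ℝ) : EReal) - Y ≤ ((4 : ℝ) : EReal) - (b : EReal) := EReal.sub_le_sub le_rfl hY
  have h3 : ((4 : ℝ) : EReal) - (a : EReal) ≤ ((4 : ℝ) : EReal) - (b : EReal) := by
    refine h1.trans (le_trans (le_of_eq ?_) h2)
    exact heq
  rw [← EReal.coe_sub, ← EReal.coe_sub, EReal.coe_le_coe_iff] at h3
  linarith

/-- pure real analysis: all four versions (`limsup`/`liminf`) of the two dimensions differ -/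
theorem final_real2 (g chi : ℝ → ℝ) (C c c' c'' : ℝ) (hc : 0 < c) (hc' : c' < c'')
    (hchi : ∀ t : ℝ, 0 < t → t ≤ 1 → |chi t + (1 / 2) * ∫ u in t..1, g u / u| ≤ C)
    (hup : ∀ᶠ t in 𝓝[>] (0 : ℝ), ∫ u in t..1, g u / u ≤ (1 - c) * Real.log (1 / t))
    (hlo : ∀ᶠ t in 𝓝[>] (0 : ℝ), (1 - c') * Real.log (1 / t) ≤ ∫ u in t..1, g u / u)
    (tk ek : ℕ → ℝ) (htk : ∀ k, 0 < tk k) (htk0 : Tendsto tk atTop (𝓝 0))
    (hek : Tendsto ek atTop (𝓝 0)) (hpeak : ∀ k, 1 - ek k ≤ g (tk k))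
    (vk : ℕ → ℝ) (hvk : ∀ k, 0 < vk k) (hvk0 : Tendsto vk atTop (𝓝 0))
    (hval : ∀ k, g (vk k) ≤ 1 - c'') :
    ((4 : EReal) - limsup (fun t : ℝ => ((chi t / Real.log (t ^ (1 / 2 : ℝ)) : ℝ) : EReal))
      (𝓝[>] 0) ≠ (4 : EReal) - limsup (fun t : ℝ => ((g t : ℝ) : EReal)) (𝓝[>] 0)) ∧
    ((4 : EReal) - liminf (fun t : ℝ => ((chi t / Real.log (t ^ (1 / 2 : ℝ)) : ℝ) : EReal))
      (𝓝[>] 0) ≠ (4 : EReal) - liminf (fun t : ℝ => ((g t : ℝ) : EReal)) (𝓝[>] 0)) ∧
    ((4 : EReal) - limsup (fun t : ℝ => ((chi t / Real.log (t ^ (1 / 2 : ℝ)) : ℝ) : EReal))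
      (𝓝[>] 0) ≠ (4 : EReal) - liminf (fun t : ℝ => ((g t : ℝ) : EReal)) (𝓝[>] 0)) ∧
    ((4 : EReal) - liminf (fun t : ℝ => ((chi t / Real.log (t ^ (1 / 2 : ℝ)) : ℝ) : EReal))
      (𝓝[>] 0) ≠ (4 : EReal) - limsup (fun t : ℝ => ((g t : ℝ) : EReal)) (𝓝[>] 0)) := by
  set F : ℝ → ℝ := fun t => chi t / Real.log (t ^ (1 / 2 : ℝ)) with hF
  have hlog : Tendsto (fun t : ℝ => Real.log (1 / t)) (𝓝[>] 0) atTop := by
    have h1 : Tendsto (fun t : ℝ => t⁻¹) (𝓝[>] 0) atTop := tendsto_inv_nhdsGT_zero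
    have h2 := Real.tendsto_log_atTop.comp h1
    refine h2.congr (fun t => ?_)
    simp [Function.comp, one_div]
  have hpos : ∀ᶠ t in 𝓝[>] (0 : ℝ), t ∈ Set.Ioo (0:ℝ) 1 := Ioo_mem_nhdsGT one_pos
  have hFt : ∀ t ∈ Set.Ioo (0 : ℝ) 1, 0 < Real.log (1 / t) →
      F t = (-2 * chi t) / Real.log (1 / t) := by
    intro t ht hΛ0
    have hl : Real.log (t ^ (1 / 2 : ℝ)) = - (Real.log (1 / t) / 2) := by
      rw [Real.log_rpow ht.1, one_div t, Real.log_inv]
      ring
    rw [hF]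
    beta_reduce
    rw [hl]
    field_simp
  have hev1 : ∀ᶠ t in 𝓝[>] (0 : ℝ), F t ≤ 1 - c / 2 := by
    filter_upwards [hup, hpos, hlog.eventually_ge_atTop (4 * C / c), hlog.eventually_gt_atTop 0]
      with t hupt ht hΛ hΛ0
    have hc1 := hchi t ht.1 ht.2.le
    have hc2 := (abs_le.1 hc1).1
    rw [hFt t ht hΛ0, div_le_iff₀ hΛ0]
    have h4 : 4 * C ≤ Real.log (1 / t) * c := (div_le_iff₀ hc).1 hΛ
    nlinarith
  have hd : 0 < c'' - c' := by linarith
  have hev2 : ∀ᶠ t in 𝓝[>] (0 : ℝ), 1 - (c' + c'') / 2 ≤ F t := by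
    filter_upwards [hlo, hpos, hlog.eventually_ge_atTop (4 * C / (c'' - c')),
      hlog.eventually_gt_atTop 0] with t hlot ht hΛ hΛ0
    have hc1 := hchi t ht.1 ht.2.le
    have hc2 := (abs_le.1 hc1).2
    rw [hFt t ht hΛ0, le_div_iff₀ hΛ0]
    have h4 : 4 * C ≤ Real.log (1 / t) * (c'' - c') := (div_le_iff₀ hd).1 hΛ
    nlinarith
  have hls1 : limsup (fun t : ℝ => ((F t : ℝ) : EReal)) (𝓝[>] 0) ≤ ((1 - c / 2 : ℝ) : EReal) := by
    refine limsup_le_of_le (by isBoundedDefault) ?_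
    filter_upwards [hev1] with t ht
    exact EReal.coe_le_coe_iff.2 ht
  have hli1 : ((1 - (c' + c'') / 2 : ℝ) : EReal) ≤
      liminf (fun t : ℝ => ((F t : ℝ) : EReal)) (𝓝[>] 0) := by
    refine le_liminf_of_le (by isBoundedDefault) ?_
    filter_upwards [hev2] with t ht
    exact EReal.coe_le_coe_iff.2 ht
  have hll : liminf (fun t : ℝ => ((F t : ℝ) : EReal)) (𝓝[>] 0) ≤
      limsup (fun t : ℝ => ((F t : ℝ) : EReal)) (𝓝[>] 0) :=
    liminf_le_limsup (by isBoundedDefault) (by isBoundedDefault)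
  have hls2 : ((1 - c / 4 : ℝ) : EReal) ≤ limsup (fun t : ℝ => ((g t : ℝ) : EReal)) (𝓝[>] 0) := by
    refine le_limsup_of_frequently_le ?_ (by isBoundedDefault)
    have ht : Tendsto tk atTop (𝓝[>] 0) :=
      tendsto_nhdsWithin_iff.2 ⟨htk0, Eventually.of_forall (fun k => htk k)⟩
    refine ht.frequently (Eventually.frequently ?_)
    filter_upwards [hek.eventually (gt_mem_nhds (by positivity : (0:ℝ) < c / 4))] with k hk
    rw [EReal.coe_le_coe_iff]
    have := hpeak k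
    linarith
  have hli2 : liminf (fun t : ℝ => ((g t : ℝ) : EReal)) (𝓝[>] 0) ≤ ((1 - c'' : ℝ) : EReal) := by
    refine liminf_le_of_frequently_le ?_ (by isBoundedDefault)
    have ht : Tendsto vk atTop (𝓝[>] 0) :=
      tendsto_nhdsWithin_iff.2 ⟨hvk0, Eventually.of_forall (fun k => hvk k)⟩
    refine ht.frequently (Eventually.frequently ?_)
    filter_upwards with k
    rw [EReal.coe_le_coe_iff]
    exact hval k
  refine ⟨?_, ?_, ?_, ?_⟩
  · exact x17545_ne _ _ (1 - c / 2) (1 - c / 4) (by linarith) hls1 hls2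
  · exact (x17545_ne _ _ (1 - c'') (1 - (c' + c'') / 2) (by linarith) hli2 hli1).symm
  · exact (x17545_ne _ _ (1 - c'') (1 - (c' + c'') / 2) (by linarith) hli2
      (hli1.trans hll)).symm
  · exact x17545_ne _ _ (1 - c / 2) (1 - c / 4) (by linarith) (hll.trans hls1) hls2

end P4

section ChiInt

/-- the integrand of the entropy integral is integrable -/
theorem chi_integrable (g : ℝ → ℝ) (K : ℝ) (hK : 0 ≤ K) (hm : Measurable g)
    (h4 : ∀ t, 0 < t → g t ≤ 4) (hge : ∀ t, 0 < t → 16 * t / (K + 4 * t) ≤ g t) (t : ℝ)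
    (ht : 0 < t) :
    IntegrableOn (fun u : ℝ => 4 / (1 + u) - g (t + u) / (t + u)) (Set.Ioi 0) := by
  have hgm : Measurable fun u : ℝ => 4 / (1 + u) - g (t + u) / (t + u) :=
    (measurable_const.div (measurable_const.add measurable_id)).sub
      ((hm.comp (measurable_const.add measurable_id)).div (measurable_const.add measurable_id))
  have hg0 : ∀ v, 0 < v → 0 ≤ g v := fun v hv => le_trans (by positivity) (hge v hv)
  rw [← Set.Ioc_union_Ioi_eq_Ioi (zero_le_one : (0 : ℝ) ≤ 1)]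
  refine IntegrableOn.union ?_ ?_
  · refine Measure.integrableOn_of_bounded (M := 4 + 4 / t) (by simp) hgm.aestronglyMeasurable ?_
    refine (ae_restrict_iff' measurableSet_Ioc).2 (Filter.Eventually.of_forall fun u hu => ?_)
    have hu0 : 0 < u := hu.1
    have h1 : 0 ≤ 4 / (1 + u) := by positivity
    have h2 : 4 / (1 + u) ≤ 4 := by
      rw [div_le_iff₀ (by positivity)]; nlinarith
    have h3 : 0 ≤ g (t + u) / (t + u) := div_nonneg (hg0 _ (by positivity)) (by positivity)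
    have h5 : g (t + u) / (t + u) ≤ 4 / t := by
      refine (div_le_div_of_nonneg_right (h4 _ (by positivity)) (by positivity)).trans ?_
      exact div_le_div_of_nonneg_left (by norm_num) ht (by linarith)
    rw [Real.norm_eq_abs, abs_le]
    constructor <;> linarith
  · have hpow : IntegrableOn (fun v : ℝ => (4 * |t - 1| + K) * v ^ (-2 : ℝ)) (Set.Ioi 1) :=
      (integrableOn_Ioi_rpow_of_lt (by norm_num) one_pos).const_mul _
    refine hpow.mono' hgm.aestronglyMeasurable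
      ((ae_restrict_iff' measurableSet_Ioi).2 (Filter.Eventually.of_forall fun u hu => ?_))
    have hu1 : (1 : ℝ) < u := hu
    have hu0 : 0 < u := by linarith
    have e : u ^ (-2 : ℝ) = 1 / u ^ 2 := by
      rw [Real.rpow_neg hu0.le]
      norm_num
    have e1 : 4 / (1 + u) - g (t + u) / (t + u) =
        4 * (t - 1) / ((1 + u) * (t + u)) + (4 - g (t + u)) / (t + u) := by
      field_simp
      ring
    have h1 : |4 * (t - 1) / ((1 + u) * (t + u))| ≤ 4 * |t - 1| * (1 / u ^ 2) := by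
      rw [abs_div, abs_mul, abs_of_pos (by positivity : (0 : ℝ) < (1 + u) * (t + u)),
        div_eq_mul_one_div]
      have : (1 : ℝ) / ((1 + u) * (t + u)) ≤ 1 / u ^ 2 :=
        one_div_le_one_div_of_le (by positivity) (by nlinarith)
      have h0 : |(4 : ℝ)| * |t - 1| = 4 * |t - 1| := by norm_num
      rw [h0]
      gcongr
    have h2 : |(4 - g (t + u)) / (t + u)| ≤ K * (1 / u ^ 2) := by
      have hv : 0 < t + u := by positivity
      have h3 : 0 ≤ 4 - g (t + u) := by linarith [h4 _ hv]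
      have h5 : 4 - g (t + u) ≤ 4 * K / (K + 4 * (t + u)) := by
        have h6 := hge _ hv
        have hp : 0 < K + 4 * (t + u) := by positivity
        have h7 : 4 - 16 * (t + u) / (K + 4 * (t + u)) = 4 * K / (K + 4 * (t + u)) := by
          field_simp
          ring
        linarith
      rw [abs_of_nonneg (div_nonneg h3 hv.le)]
      calc (4 - g (t + u)) / (t + u) ≤ 4 * K / (K + 4 * (t + u)) / (t + u) := by gcongr
        _ = 4 * K / ((K + 4 * (t + u)) * (t + u)) := by rw [div_div]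
        _ ≤ 4 * K / (4 * u * u) := by
            have : 4 * u * u ≤ (K + 4 * (t + u)) * (t + u) := by nlinarith
            gcongr
        _ = K * (1 / u ^ 2) := by field_simp
    rw [e1, e, Real.norm_eq_abs]
    calc |4 * (t - 1) / ((1 + u) * (t + u)) + (4 - g (t + u)) / (t + u)| ≤ _ := abs_add_le _ _
      _ ≤ 4 * |t - 1| * (1 / u ^ 2) + K * (1 / u ^ 2) := add_le_add h1 h2
      _ = (4 * |t - 1| + K) * (1 / u ^ 2) := by ring

end ChiInt

end Pool.Agent.Helper38.FE
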