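import Mathlib

open MeasureTheory ProbabilityTheory
open scoped RealInnerProductSpace

namespace Pool.Agent.Helper38.FE

/-- `‖A‖²_HS`. -/
noncomputable def hs {I J : Type} [Fintype I] [Fintype J] [DecidableEq I]
    (A : EuclideanSpace ℝ I →L[ℝ] EuclideanSpace ℝ J) : ℝ :=
  ∑ i, ‖A (EuclideanSpace.single i 1)‖ ^ 2

/-- `‖A* A‖²_HS = ‖A A*‖²_HS`. -/
noncomputable def hs4 {I J : Type} [Fintype I] [Fintype J] [DecidableEq I]
    (A : EuclideanSpace ℝ I →L[ℝ] EuclideanSpace ℝ J) : ℝ :=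
  ∑ i, ∑ i', ⟪A (EuclideanSpace.single i 1), A (EuclideanSpace.single i' 1)⟫ ^ 2

/-- Hilbert-Schmidt square of a bilinear map. -/
noncomputable def hs2 {I J : Type} [Fintype I] [Fintype J] [DecidableEq I]
    (B : EuclideanSpace ℝ I →L[ℝ] EuclideanSpace ℝ I →L[ℝ] EuclideanSpace ℝ J) : ℝ :=
  ∑ i, ∑ i', ‖B (EuclideanSpace.single i 1) (EuclideanSpace.single i' 1)‖ ^ 2

/-- the noisy observation at level `v`, `z = (X, G_b, G_l)` -/
noncomputable def obs {I J : Type} [Fintype I] [Fintype J]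
    (f : EuclideanSpace ℝ I → EuclideanSpace ℝ J) (v : ℝ)
    (z : EuclideanSpace ℝ I × EuclideanSpace ℝ I × EuclideanSpace ℝ J) :
    EuclideanSpace ℝ I × EuclideanSpace ℝ J :=
  (z.1 + √v • z.2.1, f z.1 + √v • z.2.2)

/-- the standard Gaussian triple `(X, G_b, G_l)` -/
noncomputable def gam3 (I J : Type) [Fintype I] [Fintype J] :
    Measure (EuclideanSpace ℝ I × EuclideanSpace ℝ I × EuclideanSpace ℝ J) :=
  (stdGaussian (EuclideanSpace ℝ I)).prod
    ((stdGaussian (EuclideanSpace ℝ I)).prod (stdGaussian (EuclideanSpace ℝ J)))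

end Pool.Agent.Helper38.FE
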