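import Pool.Agent.Helper38.FE.Pub
import Pool.Agent.Helper38.FE.ClsDefs

/-! Internal definitions shared by all modules. -/

open MeasureTheory Filter Topology ProbabilityTheory
open scoped InnerProductSpace ENNReal

namespace Pool.Agent.Helper38.FE

section gen
variable {A : Type*} [Ring A] [StarRing A] [Algebra ℂ A]

/-- `i/√2` -/
noncomputable def al : ℂ := Complex.I / ((√2 : ℝ) : ℂ)

/-- Cayley transform `(a + i/√2)(a - i/√2)⁻¹` -/
noncomputable def cay (a : A) : A := (a + al • (1 : A)) * Ring.inverse (a - al • (1 : A))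

/-- letters: `X_i`, `u_i = cay X_i`, `u_i*` -/
inductive Lt (ι : Type) : Type
  | X (i : ι) : Lt ι
  | U (i : ι) : Lt ι
  | V (i : ι) : Lt ι

/-- evaluation of a letter at a tuple -/
noncomputable def evL {ι : Type} (x : ι → A) : Lt ι → A
  | Lt.X i => x i
  | Lt.U i => cay (x i)
  | Lt.V i => star (cay (x i))

/-- evaluation of a word in the letters -/
noncomputable def evW {ι : Type} (x : ι → A) (w : List (Lt ι)) : A := (w.map (evL x)).prod

/-- the word `W_b = u_{b_1} ⋯ u_{b_m}` -/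
noncomputable def Wd (b : List (Fin 3)) (x : Fin 3 → A) : A := (b.map fun i => cay (x i)).prod

/-- `F_b = W_b + W_b*` -/
noncomputable def Fb (b : List (Fin 3)) (x : Fin 3 → A) : A := Wd b x + star (Wd b x)

end gen

/-- A free semicircular system in Fock form: `s i` left semicirculars, `d i` right
semicirculars, `ra i` right annihilation operators, `Ω` vacuum. -/
structure FS (ι : Type) (H : Type) [NormedAddCommGroup H] [InnerProductSpace ℂ H]
    [CompleteSpace H] where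
  s : ι → (H →L[ℂ] H)
  d : ι → (H →L[ℂ] H)
  ra : ι → (H →L[ℂ] H)
  Ω : H
  s_sa : ∀ i, IsSelfAdjoint (s i)
  d_eq : ∀ i, d i = ra i + star (ra i)
  comm : ∀ i j, s i * d j = d j * s i
  sΩ : ∀ i, s i Ω = d i Ω
  norm_Ω : ‖Ω‖ = 1
  norm_s : ∀ i, ‖s i‖ ≤ 2
  norm_d : ∀ i, ‖d i‖ ≤ 2
  raΩ : ∀ i, ra i Ω = 0
  ra_s : ∀ i j, i ≠ j → ra i * s j = s j * ra i
  ra_s_self : ∀ i (ξ : H), ra i (s i ξ) = s i (ra i ξ) + ⟪Ω, ξ⟫_ℂ • Ω
  cyclic : (Submodule.span ℂ (Set.range fun w : List ι => (w.map s).prod Ω)).topologicalClosure = ⊤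

/-- `B_N = B(ℂ^N)` -/
abbrev BN (N : ℕ) := EuclideanSpace ℂ (Fin N) →L[ℂ] EuclideanSpace ℂ (Fin N)

/-- the Hermitian matrix with coordinates `a`:
`(1/√N) ((1+i)/2 a + (1-i)/2 aᵀ)`; a standard Gaussian `a` gives a GUE matrix with
`E tr X² = 1`. -/
noncomputable def Hm (N : ℕ) (a : EuclideanSpace ℝ (Fin N × Fin N)) : BN N :=
  Matrix.toEuclideanCLM (n := Fin N) (𝕜 := ℂ)
    (Matrix.of fun p q => ((1 / √(N : ℝ) : ℝ) : ℂ) *
      (((1 + Complex.I) / 2) * (a (p, q) : ℂ) + ((1 - Complex.I) / 2) * (a (q, p) : ℂ)))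

/-- entries of an operator on `ℂ^N` -/
noncomputable def ent {N : ℕ} (T : BN N) (p q : Fin N) : ℂ :=
  (T (EuclideanSpace.single q 1)) p

/-- coordinates of a Hermitian matrix, inverse of `Hm` -/
noncomputable def crd {N : ℕ} (T : BN N) : EuclideanSpace ℝ (Fin N × Fin N) :=
  WithLp.toLp 2 fun p => √(N : ℝ) * ((ent T p.1 p.2).re + (ent T p.1 p.2).im)

/-- normalised trace -/
noncomputable def tr {N : ℕ} (T : BN N) : ℂ := (1 / (N : ℂ)) * ∑ p, ent T p p

/-- the tuple of Hermitian matrices with given coordinates -/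
noncomputable def Xm {ι : Type} [Fintype ι] (N : ℕ) (x : EuclideanSpace ℝ (ι × Fin N × Fin N))
    (i : ι) : BN N :=
  Hm N (WithLp.toLp 2 fun p => x (i, p))

/-- the map `x ↦ F_b(X)` in coordinates -/
noncomputable def Fc (N : ℕ) (b : List (Fin 3)) (x : EuclideanSpace ℝ (Fin 3 × Fin N × Fin N)) :
    EuclideanSpace ℝ (Fin N × Fin N) :=
  crd (Fb b (Xm N x))

end Pool.Agent.Helper38.FE
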