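import Pool.Agent.Helper38.FE.ClsDefs

/-! Module ABC: definitions. -/

set_option autoImplicit false
set_option linter.unusedVariables false
set_option linter.unusedSectionVars false

open MeasureTheory ProbabilityTheory
open scoped RealInnerProductSpace ENNReal Topology

namespace Pool.Agent.Helper38.FE

/-- standard Gaussian pair -/
noncomputable def gam2 (I J : Type) [Fintype I] [Fintype J] :
    Measure (EuclideanSpace ℝ I × EuclideanSpace ℝ J) :=
  (stdGaussian (EuclideanSpace ℝ I)).prod (stdGaussian (EuclideanSpace ℝ J))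

/-- standard Gaussian quadruple -/
noncomputable def gam4 (I J : Type) [Fintype I] [Fintype J] :
    Measure (EuclideanSpace ℝ I × EuclideanSpace ℝ I × EuclideanSpace ℝ I × EuclideanSpace ℝ J) :=
  (stdGaussian (EuclideanSpace ℝ I)).prod ((stdGaussian (EuclideanSpace ℝ I)).prod
    ((stdGaussian (EuclideanSpace ℝ I)).prod (stdGaussian (EuclideanSpace ℝ J))))

instance instProbGam2 (I J : Type) [Fintype I] [Fintype J] : IsProbabilityMeasure (gam2 I J) := by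
  unfold gam2; infer_instance

instance instProbGam3 (I J : Type) [Fintype I] [Fintype J] : IsProbabilityMeasure (gam3 I J) := by
  unfold gam3; infer_instance

instance instProbGam4 (I J : Type) [Fintype I] [Fintype J] : IsProbabilityMeasure (gam4 I J) := by
  unfold gam4; infer_instance

/-- Hilbert-Schmidt inner product -/
noncomputable def hsip {I J : Type} [Fintype I] [Fintype J] [DecidableEq I]
    (A B : EuclideanSpace ℝ I →L[ℝ] EuclideanSpace ℝ J) : ℝ :=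
  ∑ i, ⟪A (EuclideanSpace.single i 1), B (EuclideanSpace.single i 1)⟫

/-- density of `√v • g`, `g` standard Gaussian -/
noncomputable def gk {J : Type} [Fintype J] (v : ℝ) (y : EuclideanSpace ℝ J) : ℝ :=
  (2 * Real.pi * v) ^ (-(Fintype.card J : ℝ) / 2) * Real.exp (-‖y‖ ^ 2 / (2 * v))

/-- density of `f (x + σ g) + √t g_l` -/
noncomputable def Kd {I J : Type} [Fintype I] [Fintype J]
    (f : EuclideanSpace ℝ I → EuclideanSpace ℝ J) (t σ : ℝ) (x : EuclideanSpace ℝ I)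
    (y : EuclideanSpace ℝ J) : ℝ :=
  ∫ g, gk t (y - f (x + σ • g)) ∂(stdGaussian (EuclideanSpace ℝ I))

/-- `E log Kd` -/
noncomputable def Phi {I J : Type} [Fintype I] [Fintype J]
    (f : EuclideanSpace ℝ I → EuclideanSpace ℝ J) (t a σ : ℝ) : ℝ :=
  ∫ z, Real.log (Kd f t σ (a • z.1) (f (a • z.1 + σ • z.2.1) + √t • z.2.2)) ∂(gam3 I J)

/-- the observation in the Z step -/
noncomputable def zob {I J : Type} [Fintype I] [Fintype J]
    (f : EuclideanSpace ℝ I → EuclideanSpace ℝ J) (t a s σ' : ℝ)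
    (w : EuclideanSpace ℝ I × EuclideanSpace ℝ I × EuclideanSpace ℝ I × EuclideanSpace ℝ J) :
    EuclideanSpace ℝ J :=
  f (a • w.1 + s • w.2.1 + σ' • w.2.2.1) + √t • w.2.2.2

/-- density of `obs f v` -/
noncomputable def Rd {I J : Type} [Fintype I] [Fintype J]
    (f : EuclideanSpace ℝ I → EuclideanSpace ℝ J) (v : ℝ)
    (y : EuclideanSpace ℝ I × EuclideanSpace ℝ J) : ℝ :=
  ∫ x, gk v (y.1 - x) * gk v (y.2 - f x) ∂(stdGaussian (EuclideanSpace ℝ I))

/-- minus the differential entropy of `obs f v` -/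
noncomputable def Psi {I J : Type} [Fintype I] [Fintype J]
    (f : EuclideanSpace ℝ I → EuclideanSpace ℝ J) (v : ℝ) : ℝ :=
  ∫ z, Real.log (Rd f v (obs f v z)) ∂(gam3 I J)

/-- `(1 + A A* / κ)⁻¹` -/
noncomputable def HH {I J : Type} [Fintype I] [Fintype J] (κ : ℝ)
    (A : EuclideanSpace ℝ I →L[ℝ] EuclideanSpace ℝ J) :
    EuclideanSpace ℝ J →L[ℝ] EuclideanSpace ℝ J :=
  Ring.inverse (1 + κ⁻¹ • (A ∘L (ContinuousLinearMap.adjoint A)))

/-- the data of the gain estimate -/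
structure Dat {I J : Type} [Fintype I] [Fintype J] [DecidableEq I] [DecidableEq J]
    (F f₁ f₂ : EuclideanSpace ℝ I → EuclideanSpace ℝ J) (C4 CD K r t ℓ ε b : ℝ) : Prop where
  F2 : ContDiff ℝ 2 F
  FK : ∀ x, ‖F x‖ ≤ K
  F1K : ∀ x, ‖fderiv ℝ F x‖ ≤ K
  F2K : ∀ x, ‖fderiv ℝ (fderiv ℝ F) x‖ ≤ K
  f11 : ContDiff ℝ 1 f₁
  f1K : ∀ x, ‖f₁ x‖ ≤ K
  f1l : ∀ x, ‖fderiv ℝ f₁ x‖ ≤ ℓ
  f2c : Continuous f₂
  f2e : ∀ x, ‖f₂ x‖ ≤ ε * √(Fintype.card J)
  b0 : 0 < b
  hb : ∫ x, hs (fderiv ℝ F x) ∂(stdGaussian (EuclideanSpace ℝ I)) = b * Fintype.card J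
  h4 : ∫ x, hs4 (fderiv ℝ F x) ∂(stdGaussian (EuclideanSpace ℝ I)) ≤ C4 * b ^ 2 * Fintype.card J
  hD : ∫ x, hs2 (fderiv ℝ (fderiv ℝ F) x) ∂(stdGaussian (EuclideanSpace ℝ I)) ≤
    CD * b ^ 2 * Fintype.card J
  t0 : 0 < t
  r0 : 0 < r
  l0 : 0 ≤ ℓ
  e0 : 0 ≤ ε

/-- conditional mean of `f (a x + σ g)` -/
noncomputable def mQ {I J : Type} [Fintype I] [Fintype J]
    (f : EuclideanSpace ℝ I → EuclideanSpace ℝ J) (a σ : ℝ) (x : EuclideanSpace ℝ I) :
    EuclideanSpace ℝ J := ∫ g, f (a • x + σ • g) ∂(stdGaussian (EuclideanSpace ℝ I))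

/-- the estimator `Λ S'*(y - E[f(X)|x])` -/
noncomputable def QQ {I J : Type} [Fintype I] [Fintype J]
    (F f : EuclideanSpace ℝ I → EuclideanSpace ℝ J) (Λ κ a σ : ℝ)
    (p : EuclideanSpace ℝ I × EuclideanSpace ℝ J) : EuclideanSpace ℝ I :=
  Λ • ContinuousLinearMap.adjoint (fderiv ℝ F p.1) (HH κ (fderiv ℝ F p.1) (p.2 - mQ f a σ p.1))

end Pool.Agent.Helper38.FE
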