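import Pool.Agent.Helper38.FE.Cls0

/-! Module ABC, part A: change of measure. -/

set_option autoImplicit false
set_option linter.unusedVariables false
set_option linter.unusedSectionVars false

open MeasureTheory ProbabilityTheory
open scoped RealInnerProductSpace ENNReal Topology

namespace Pool.Agent.Helper38.FE

section

/-- if `E e^L ≤ 1` then `E L ≤ 0` -/
theorem gibbs {Ω : Type} [MeasurableSpace Ω] (μ : Measure Ω) [IsProbabilityMeasure μ]
    (L : Ω → ℝ) (hL : Integrable L μ)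
    (h : ∫⁻ ω, ENNReal.ofReal (Real.exp (L ω)) ∂μ ≤ 1) : ∫ ω, L ω ∂μ ≤ 0 := by
  have hm : AEStronglyMeasurable (fun ω => Real.exp (L ω)) μ :=
    Real.continuous_exp.comp_aestronglyMeasurable hL.aestronglyMeasurable
  have hi : Integrable (fun ω => Real.exp (L ω)) μ := by
    refine ⟨hm, ?_⟩
    rw [hasFiniteIntegral_iff_ofReal (ae_of_all _ fun ω => (Real.exp_pos _).le)]
    exact lt_of_le_of_lt h ENNReal.one_lt_top
  have h1 : ∫ ω, Real.exp (L ω) ∂μ ≤ 1 := by
    rw [integral_eq_lintegral_of_nonneg_ae (ae_of_all _ fun ω => (Real.exp_pos _).le) hm]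
    exact ENNReal.toReal_le_of_le_ofReal zero_le_one (by rwa [ENNReal.ofReal_one])
  have h2 : ∫ ω, L ω ∂μ ≤ ∫ ω, (Real.exp (L ω) - 1) ∂μ :=
    integral_mono hL (hi.sub (integrable_const 1)) fun ω => by
      have := Real.add_one_le_exp (L ω)
      show L ω ≤ Real.exp (L ω) - 1
      linarith
  rw [integral_sub hi (integrable_const 1)] at h2
  simp only [integral_const, probReal_univ, smul_eq_mul, mul_one] at h2
  linarith

end

section

theorem h170_gk_int {I : Type} [Fintype I] :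
    Integrable (fun y : EuclideanSpace ℝ I => gk 1 y) := by
  have h1 : Integrable (fun y : EuclideanSpace ℝ I => Real.exp (-(1 / 2) * ‖y‖ ^ 2)) := by
    apply Integrable.of_integral_ne_zero
    rw [GaussianFourier.integral_rexp_neg_mul_sq_norm (V := EuclideanSpace ℝ I) (b := 1 / 2) (by norm_num)]
    positivity
  have h2 : (fun y : EuclideanSpace ℝ I => gk 1 y) = fun y =>
      (2 * Real.pi * 1) ^ (-(Fintype.card I : ℝ) / 2) * Real.exp (-(1 / 2) * ‖y‖ ^ 2) := by
    funext y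
    unfold gk
    congr 2
    ring
  rw [h2]
  exact h1.const_mul _

theorem h170_gk_nonneg {I : Type} [Fintype I] (v : ℝ) (hv : 0 < v) (y : EuclideanSpace ℝ I) : 0 ≤ gk v y := by
  unfold gk
  positivity

theorem h170_gk_cont {I : Type} [Fintype I] (v : ℝ) : Continuous (fun y : EuclideanSpace ℝ I => gk v y) := by
  unfold gk
  fun_prop

theorem h170_std {I : Type} [Fintype I] : stdGaussian (EuclideanSpace ℝ I) =
    (volume : Measure (EuclideanSpace ℝ I)).withDensity (fun y => ENNReal.ofReal (gk 1 y)) := by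
  haveI : IsFiniteMeasure ((volume : Measure (EuclideanSpace ℝ I)).withDensity
      (fun y => ENNReal.ofReal (gk 1 y))) :=
    isFiniteMeasure_withDensity_ofReal h170_gk_int.2
  apply Measure.ext_of_charFun (E := EuclideanSpace ℝ I)
  ext t
  rw [charFun_stdGaussian, charFun_apply]
  rw [integral_withDensity_eq_integral_toReal_smul
    ((h170_gk_cont 1).measurable.ennreal_ofReal) (Filter.Eventually.of_forall fun y => ENNReal.ofReal_lt_top)]
  have h1 : ∀ y : EuclideanSpace ℝ I, (ENNReal.ofReal (gk 1 y)).toReal • Complex.exp ((⟪y, t⟫ : ℝ) * Complex.I)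
      = (((2 * Real.pi) ^ (-(Fintype.card I : ℝ) / 2) : ℝ) : ℂ) *
        Complex.exp (-(((1 / 2 : ℝ)) : ℂ) * ((‖y‖ : ℝ) : ℂ) ^ 2 + Complex.I * ((⟪t, y⟫ : ℝ) : ℂ)) := by
    intro y
    rw [ENNReal.toReal_ofReal (h170_gk_nonneg 1 one_pos y), Complex.real_smul]
    unfold gk
    rw [Complex.ofReal_mul, Complex.ofReal_exp, mul_assoc, ← Complex.exp_add, real_inner_comm]
    congr 2
    · rw [mul_one]
    · push_cast
      ring
  rw [integral_congr_ae (Filter.Eventually.of_forall h1), integral_const_mul,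
    GaussianFourier.integral_cexp_neg_mul_sq_norm_add (V := EuclideanSpace ℝ I) (b := (((1 / 2 : ℝ)) : ℂ))
      (by rw [Complex.ofReal_re]; norm_num) Complex.I t]
  rw [finrank_euclideanSpace]
  have h2 : ((Real.pi : ℂ) / (((1 / 2 : ℝ)) : ℂ)) ^ ((Fintype.card I : ℂ) / 2)
      = (((2 * Real.pi) ^ ((Fintype.card I : ℝ) / 2) : ℝ) : ℂ) := by
    rw [Complex.ofReal_cpow (by positivity)]
    push_cast
    congr 1
    ring
  rw [h2, ← mul_assoc, ← Complex.ofReal_mul, ← Real.rpow_add (by positivity)]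
  have h3 : -(Fintype.card I : ℝ) / 2 + (Fintype.card I : ℝ) / 2 = 0 := by ring
  rw [h3, Real.rpow_zero, Complex.ofReal_one, one_mul]
  congr 1
  rw [Complex.I_sq]
  push_cast
  ring

theorem h170_gk_scale {I : Type} [Fintype I] (v : ℝ) (hv : 0 < v) (x : EuclideanSpace ℝ I) :
    gk 1 x = (√v) ^ (Fintype.card I) * gk v (√v • x) := by
  unfold gk
  have h1 : ‖√v • x‖ ^ 2 = v * ‖x‖ ^ 2 := by
    rw [norm_smul, mul_pow, Real.norm_of_nonneg (Real.sqrt_nonneg v), Real.sq_sqrt hv.le]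
  have h2 : -(v * ‖x‖ ^ 2) / (2 * v) = -‖x‖ ^ 2 / (2 * 1) := by
    field_simp
  rw [h1, h2, ← mul_assoc, mul_one]
  congr 1
  rw [Real.mul_rpow (by positivity) hv.le, Real.sqrt_eq_rpow, ← Real.rpow_natCast (v ^ (1 / 2 : ℝ)),
    ← Real.rpow_mul hv.le, mul_left_comm, ← Real.rpow_add hv]
  have h3 : 1 / 2 * (Fintype.card I : ℝ) + -(Fintype.card I : ℝ) / 2 = 0 := by ring
  rw [h3, Real.rpow_zero, mul_one]

/-- the law of `m + √v x`, `x` standard Gaussian, has density `gk v (· - m)` -/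
theorem gauss_shift {I : Type} [Fintype I] (v : ℝ) (hv : 0 < v) (m : EuclideanSpace ℝ I)
    (h : EuclideanSpace ℝ I → ℝ≥0∞) (hh : Measurable h) :
    ∫⁻ x, h (m + √v • x) ∂(stdGaussian (EuclideanSpace ℝ I)) =
      ∫⁻ y, ENNReal.ofReal (gk v (y - m)) * h y := by
  have hsv : 0 < √v := Real.sqrt_pos.mpr hv
  have hF : Measurable (fun z : EuclideanSpace ℝ I => ENNReal.ofReal (gk v z) * h (m + z)) :=
    ((h170_gk_cont v).measurable.ennreal_ofReal).mul (hh.comp (measurable_const_add m))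
  have hm : Measurable (fun x : EuclideanSpace ℝ I => h (m + √v • x)) := hh.comp (by fun_prop)
  rw [h170_std, lintegral_withDensity_eq_lintegral_mul _ ((h170_gk_cont 1).measurable.ennreal_ofReal) hm]
  have h1 : ∫⁻ y, ENNReal.ofReal (gk v (y - m)) * h y
      = ∫⁻ z, ENNReal.ofReal (gk v z) * h (m + z) := by
    rw [← lintegral_add_left_eq_self (fun y => ENNReal.ofReal (gk v (y - m)) * h y) m]
    refine lintegral_congr fun z => ?_
    rw [add_sub_cancel_left]
  have h2 : ∀ x : EuclideanSpace ℝ I, ((fun y : EuclideanSpace ℝ I => ENNReal.ofReal (gk 1 y)) *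
      (fun x : EuclideanSpace ℝ I => h (m + √v • x)) : EuclideanSpace ℝ I → ℝ≥0∞) x
      = ENNReal.ofReal ((√v) ^ (Fintype.card I)) *
        ((fun z : EuclideanSpace ℝ I => ENNReal.ofReal (gk v z) * h (m + z)) (√v • x)) := by
    intro x
    show ENNReal.ofReal (gk 1 x) * h (m + √v • x) = _ * (ENNReal.ofReal (gk v (√v • x)) * h (m + √v • x))
    rw [h170_gk_scale v hv x, ENNReal.ofReal_mul (by positivity), mul_assoc]
  have h3 : Measurable (fun a : EuclideanSpace ℝ I =>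
      (fun z : EuclideanSpace ℝ I => ENNReal.ofReal (gk v z) * h (m + z)) (√v • a)) :=
    hF.comp (measurable_const_smul (√v))
  rw [lintegral_congr h2, h1, lintegral_const_mul _ h3]
  rw [← lintegral_map hF (measurable_const_smul (√v)), Measure.map_addHaar_smul volume hsv.ne',
    lintegral_smul_measure, smul_eq_mul, ← mul_assoc, ← ENNReal.ofReal_mul (by positivity),
    finrank_euclideanSpace, abs_of_pos (by positivity), mul_inv_cancel₀ (by positivity),
    ENNReal.ofReal_one, one_mul]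

end

section

/-- elementary properties of the Gaussian kernel -/
theorem gk_basic {J : Type} [Fintype J] (v : ℝ) (hv : 0 < v) :
    Continuous (gk v : EuclideanSpace ℝ J → ℝ) ∧ (∀ y : EuclideanSpace ℝ J, 0 < gk v y) ∧
    (∀ y : EuclideanSpace ℝ J, gk v y ≤ (2 * Real.pi * v) ^ (-(Fintype.card J : ℝ) / 2)) ∧
    (∫⁻ y : EuclideanSpace ℝ J, ENNReal.ofReal (gk v y) = 1) ∧
    (∀ y : EuclideanSpace ℝ J, Real.log (gk v y) =
      -((Fintype.card J : ℝ) / 2) * Real.log (2 * Real.pi * v) - ‖y‖ ^ 2 / (2 * v)) := by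
  have hpv : 0 < 2 * Real.pi * v := by positivity
  have hpow : 0 < (2 * Real.pi * v) ^ (-(Fintype.card J : ℝ) / 2) := Real.rpow_pos_of_pos hpv _
  refine ⟨?_, ?_, ?_, ?_, ?_⟩
  · unfold gk
    exact continuous_const.mul (Real.continuous_exp.comp
      (((continuous_norm.pow 2).neg).div_const _))
  · intro y
    exact mul_pos hpow (Real.exp_pos _)
  · intro y
    unfold gk
    have h1 : Real.exp (-‖y‖ ^ 2 / (2 * v)) ≤ 1 := by
      apply Real.exp_le_one_iff.2
      apply div_nonpos_of_nonpos_of_nonneg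
      · exact neg_nonpos.2 (sq_nonneg _)
      · positivity
    exact mul_le_of_le_one_right hpow.le h1
  · have h := gauss_shift v hv (0 : EuclideanSpace ℝ J) (fun _ => 1) measurable_const
    simp only [sub_zero, mul_one, lintegral_const, measure_univ] at h
    exact h.symm
  · intro y
    unfold gk
    rw [Real.log_mul hpow.ne' (Real.exp_pos _).ne', Real.log_exp, Real.log_rpow hpv]
    ring

end

section

theorem neg_mp_std (I : Type) [Fintype I] :
    MeasurePreserving (fun x : EuclideanSpace ℝ I => -x)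
      (stdGaussian (EuclideanSpace ℝ I)) (stdGaussian (EuclideanSpace ℝ I)) := by
  refine ⟨measurable_neg, ?_⟩
  have h := stdGaussian_map (LinearIsometryEquiv.neg ℝ (E := EuclideanSpace ℝ I))
  have h2 : (⇑(LinearIsometryEquiv.neg ℝ (E := EuclideanSpace ℝ I))) = fun x => -x := by
    ext x; simp
  rw [h2] at h
  exact h

theorem gam2_cent (I J : Type) [Fintype I] [Fintype J]
    (L : StrongDual ℝ (EuclideanSpace ℝ I × EuclideanSpace ℝ J)) : ∫ x, L x ∂(gam2 I J) = 0 := by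
  have hmp : MeasurePreserving (fun p : EuclideanSpace ℝ I × EuclideanSpace ℝ J => (-p.1, -p.2))
      (gam2 I J) (gam2 I J) := by
    unfold gam2
    exact (neg_mp_std I).prod (neg_mp_std J)
  have h1 : ∫ x, L x ∂(gam2 I J) = ∫ x, L (-x.1, -x.2) ∂(gam2 I J) := by
    have h2 := integral_map (μ := gam2 I J)
      (φ := fun p : EuclideanSpace ℝ I × EuclideanSpace ℝ J => (-p.1, -p.2))
      hmp.measurable.aemeasurable (f := fun x => L x)
      (by exact (L.continuous.aestronglyMeasurable))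
    rw [hmp.map_eq] at h2
    exact h2
  have h3 : ∫ x, L (-x.1, -x.2) ∂(gam2 I J) = - ∫ x, L x ∂(gam2 I J) := by
    rw [← integral_neg]
    congr 1
    funext x
    have : ((-x.1, -x.2) : EuclideanSpace ℝ I × EuclideanSpace ℝ J) = -x := rfl
    rw [this, map_neg]
  linarith

/-- the square of a standard Gaussian pair is invariant under reflections -/
theorem refl_mp (I J : Type) [Fintype I] [Fintype J] (c s : ℝ) (h : c ^ 2 + s ^ 2 = 1) :
    MeasurePreserving (fun p : (EuclideanSpace ℝ I × EuclideanSpace ℝ J) ×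
        (EuclideanSpace ℝ I × EuclideanSpace ℝ J) => (c • p.1 + s • p.2, s • p.1 - c • p.2))
      ((gam2 I J).prod (gam2 I J)) ((gam2 I J).prod (gam2 I J)) := by
  have : IsGaussian (gam2 I J) := by unfold gam2; infer_instance
  obtain ⟨θ, hc, hs⟩ : ∃ θ : ℝ, Real.cos θ = c ∧ Real.sin θ = s := by
    have hn : ‖(⟨c, s⟩ : ℂ)‖ = 1 := by
      rw [Complex.norm_def, Complex.normSq_mk]
      rw [show c * c + s * s = 1 by nlinarith, Real.sqrt_one]
    refine ⟨Complex.arg ⟨c, s⟩, ?_, ?_⟩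
    · have := Complex.norm_mul_cos_arg (⟨c, s⟩ : ℂ)
      rw [hn, one_mul] at this
      exact this
    · have := Complex.norm_mul_sin_arg (⟨c, s⟩ : ℂ)
      rw [hn, one_mul] at this
      exact this
  have hrot : MeasurePreserving (ContinuousLinearMap.rotation θ
      (E := EuclideanSpace ℝ I × EuclideanSpace ℝ J))
      ((gam2 I J).prod (gam2 I J)) ((gam2 I J).prod (gam2 I J)) :=
    ⟨by fun_prop, IsGaussian.map_rotation_eq_self_of_forall_strongDual_eq_zero
      (fun L => gam2_cent I J L) θ⟩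
  have hmp : MeasurePreserving (fun p : EuclideanSpace ℝ I × EuclideanSpace ℝ J => -p)
      (gam2 I J) (gam2 I J) := by
    unfold gam2
    exact (neg_mp_std I).prod (neg_mp_std J)
  have hN : MeasurePreserving (Prod.map id (fun p : EuclideanSpace ℝ I × EuclideanSpace ℝ J => -p))
      ((gam2 I J).prod (gam2 I J)) ((gam2 I J).prod (gam2 I J)) :=
    (MeasurePreserving.id (gam2 I J)).prod hmp
  have hcomp := hN.comp hrot
  convert hcomp using 1
  funext p
  simp only [Function.comp_apply, ContinuousLinearMap.rotation_apply, Prod.map_apply, id_eq]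
  rw [hc, hs]
  congr 1
  simp only [neg_smul]
  abel

end

section

theorem aux_rot (I : Type) [Fintype I] (c s : ℝ) (h : c ^ 2 + s ^ 2 = 1) :
    MeasurePreserving (fun p : EuclideanSpace ℝ I × EuclideanSpace ℝ I =>
        (c • p.1 + s • p.2, (-s) • p.1 + c • p.2))
      ((stdGaussian (EuclideanSpace ℝ I)).prod (stdGaussian (EuclideanSpace ℝ I)))
      ((stdGaussian (EuclideanSpace ℝ I)).prod (stdGaussian (EuclideanSpace ℝ I))) := by
  obtain ⟨θ, hc, hs⟩ : ∃ θ : ℝ, Real.cos θ = c ∧ Real.sin θ = s := by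
    have hz : ‖(⟨c, s⟩ : ℂ)‖ = 1 := by
      rw [Complex.norm_def, Complex.normSq_mk, show c * c + s * s = 1 by nlinarith, Real.sqrt_one]
    have hz0 : (⟨c, s⟩ : ℂ) ≠ 0 := by
      intro h0
      rw [h0] at hz
      simp at hz
    refine ⟨Complex.arg ⟨c, s⟩, ?_, ?_⟩
    · rw [Complex.cos_arg hz0, hz]; simp
    · rw [Complex.sin_arg, hz]; simp
  have hm := IsGaussian.map_rotation_eq_self_of_forall_strongDual_eq_zero
    (μ := stdGaussian (EuclideanSpace ℝ I)) (fun L => integral_strongDual_stdGaussian L) θ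
  have he : (fun p : EuclideanSpace ℝ I × EuclideanSpace ℝ I =>
        (c • p.1 + s • p.2, (-s) • p.1 + c • p.2)) =
      ⇑(ContinuousLinearMap.rotation θ : _ →L[ℝ] EuclideanSpace ℝ I × EuclideanSpace ℝ I) := by
    funext p
    rw [ContinuousLinearMap.rotation_apply, hc, hs]
  rw [he]
  exact ⟨(ContinuousLinearMap.rotation θ).continuous.measurable, hm⟩

theorem aux_neg (I : Type) [Fintype I] :
    MeasurePreserving (fun x : EuclideanSpace ℝ I => -x)
      (stdGaussian (EuclideanSpace ℝ I)) (stdGaussian (EuclideanSpace ℝ I)) := by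
  have := stdGaussian_map (LinearIsometryEquiv.neg ℝ (E := EuclideanSpace ℝ I))
  exact ⟨measurable_neg, this⟩


/-- the square of a standard Gaussian is invariant under reflections and rotations -/
theorem refl1_mp (I : Type) [Fintype I] (c s : ℝ) (h : c ^ 2 + s ^ 2 = 1) :
    MeasurePreserving (fun p : EuclideanSpace ℝ I × EuclideanSpace ℝ I =>
        (c • p.1 + s • p.2, s • p.1 - c • p.2))
      ((stdGaussian (EuclideanSpace ℝ I)).prod (stdGaussian (EuclideanSpace ℝ I)))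
      ((stdGaussian (EuclideanSpace ℝ I)).prod (stdGaussian (EuclideanSpace ℝ I))) ∧
    MeasurePreserving (fun p : EuclideanSpace ℝ I × EuclideanSpace ℝ I =>
        (c • p.1 + s • p.2, (-s) • p.1 + c • p.2))
      ((stdGaussian (EuclideanSpace ℝ I)).prod (stdGaussian (EuclideanSpace ℝ I)))
      ((stdGaussian (EuclideanSpace ℝ I)).prod (stdGaussian (EuclideanSpace ℝ I))) := by
  refine ⟨?_, aux_rot I c s h⟩
  have h1 : MeasurePreserving (fun p : EuclideanSpace ℝ I × EuclideanSpace ℝ I => (p.1, -p.2))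
      ((stdGaussian (EuclideanSpace ℝ I)).prod (stdGaussian (EuclideanSpace ℝ I)))
      ((stdGaussian (EuclideanSpace ℝ I)).prod (stdGaussian (EuclideanSpace ℝ I))) :=
    (MeasurePreserving.id (stdGaussian (EuclideanSpace ℝ I))).prod (aux_neg I)
  have h2 := h1.comp (aux_rot I c s h)
  have he : (fun p : EuclideanSpace ℝ I × EuclideanSpace ℝ I =>
        (c • p.1 + s • p.2, s • p.1 - c • p.2)) =
      (fun p : EuclideanSpace ℝ I × EuclideanSpace ℝ I => (p.1, -p.2)) ∘
      (fun p : EuclideanSpace ℝ I × EuclideanSpace ℝ I =>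
        (c • p.1 + s • p.2, (-s) • p.1 + c • p.2)) := by
    funext p
    simp only [Function.comp_apply, Prod.mk.injEq, true_and]
    rw [neg_add, neg_smul, neg_neg, sub_eq_add_neg]
  rw [he]
  exact h2

end

section

/-- the sum of two independent centred Gaussians -/
theorem merge1 (I : Type) [Fintype I] (a b c : ℝ) (h : c ^ 2 = a ^ 2 + b ^ 2) :
    ((stdGaussian (EuclideanSpace ℝ I)).prod (stdGaussian (EuclideanSpace ℝ I))).map
        (fun p => a • p.1 + b • p.2) =
      (stdGaussian (EuclideanSpace ℝ I)).map (fun x => c • x) := by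
  by_cases hc : c = 0
  · have hab : a ^ 2 + b ^ 2 = 0 := by rw [← h, hc]; ring
    have ha : a = 0 := by nlinarith [sq_nonneg a, sq_nonneg b]
    have hb : b = 0 := by nlinarith [sq_nonneg a, sq_nonneg b]
    subst ha hb hc
    simp only [zero_smul, add_zero]
    rw [Measure.map_const, Measure.map_const]
    simp
  · have hcs : (a / c) ^ 2 + (b / c) ^ 2 = 1 := by
      rw [div_pow, div_pow, ← add_div, ← h]
      exact div_self (pow_ne_zero 2 hc)
    have hmp := (refl1_mp I (a / c) (b / c) hcs).1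
    have h1 : (fun p : EuclideanSpace ℝ I × EuclideanSpace ℝ I => a • p.1 + b • p.2)
        = (fun x => c • x) ∘ Prod.fst ∘ (fun p : EuclideanSpace ℝ I × EuclideanSpace ℝ I =>
        ((a / c) • p.1 + (b / c) • p.2, (b / c) • p.1 - (a / c) • p.2)) := by
      funext p
      simp only [Function.comp_apply, smul_add, smul_smul]
      rw [mul_div_cancel₀ a hc, mul_div_cancel₀ b hc]
    rw [h1, ← Measure.map_map (by fun_prop) (by fun_prop), ← Measure.map_map (by fun_prop) (by fun_prop),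
      hmp.map_eq]
    congr 1
    rw [Measure.map_fst_prod]
    simp

end

section

/-- the sum of two independent centred Gaussian pairs -/
theorem merge2 (I J : Type) [Fintype I] [Fintype J] (a b c : ℝ) (h : c ^ 2 = a ^ 2 + b ^ 2) :
    ((gam2 I J).prod (gam2 I J)).map (fun p => a • p.1 + b • p.2) =
      (gam2 I J).map (fun x => c • x) := by
  by_cases hc : c = 0
  · have ha : a = 0 := by
      have : a ^ 2 = 0 := by
        rw [hc] at h
        nlinarith [sq_nonneg a, sq_nonneg b]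
      exact pow_eq_zero_iff (two_ne_zero) |>.1 this
    have hb : b = 0 := by
      have : b ^ 2 = 0 := by
        rw [hc] at h
        nlinarith [sq_nonneg a, sq_nonneg b]
      exact pow_eq_zero_iff (two_ne_zero) |>.1 this
    subst hc ha hb
    have e1 : (fun p : (EuclideanSpace ℝ I × EuclideanSpace ℝ J) ×
        (EuclideanSpace ℝ I × EuclideanSpace ℝ J) => (0 : ℝ) • p.1 + (0 : ℝ) • p.2) =
        fun _ => 0 := by
      funext p
      simp
    have e2 : (fun x : EuclideanSpace ℝ I × EuclideanSpace ℝ J => (0 : ℝ) • x) = fun _ => 0 := by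
      funext p
      simp
    rw [e1, e2, Measure.map_const, Measure.map_const, measure_univ, measure_univ]
  · have hr := refl_mp I J (a / c) (b / c) (by
      rw [div_pow, div_pow, ← add_div, ← h, div_self (pow_ne_zero 2 hc)])
    have hf : MeasurePreserving (Prod.fst : (EuclideanSpace ℝ I × EuclideanSpace ℝ J) ×
        (EuclideanSpace ℝ I × EuclideanSpace ℝ J) → (EuclideanSpace ℝ I × EuclideanSpace ℝ J))
        ((gam2 I J).prod (gam2 I J)) (gam2 I J) := measurePreserving_fst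
    have hcomp := hf.comp hr
    have hm : Measurable (fun x : EuclideanSpace ℝ I × EuclideanSpace ℝ J => c • x) :=
      measurable_const_smul c
    have e1 : (fun p : (EuclideanSpace ℝ I × EuclideanSpace ℝ J) ×
        (EuclideanSpace ℝ I × EuclideanSpace ℝ J) => a • p.1 + b • p.2) =
        (fun x : EuclideanSpace ℝ I × EuclideanSpace ℝ J => c • x) ∘
        ((Prod.fst : (EuclideanSpace ℝ I × EuclideanSpace ℝ J) ×
        (EuclideanSpace ℝ I × EuclideanSpace ℝ J) → (EuclideanSpace ℝ I × EuclideanSpace ℝ J)) ∘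
        (fun p : (EuclideanSpace ℝ I × EuclideanSpace ℝ J) ×
        (EuclideanSpace ℝ I × EuclideanSpace ℝ J) =>
          ((a / c) • p.1 + (b / c) • p.2, (b / c) • p.1 - (a / c) • p.2))) := by
      funext p
      simp only [Function.comp]
      rw [smul_add, smul_smul, smul_smul, mul_div_cancel₀ _ hc, mul_div_cancel₀ _ hc]
    rw [e1, ← Measure.map_map hm hcomp.measurable, hcomp.map_eq]

end

section

/-- merging the second and third variables of a Gaussian quadruple -/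
theorem merge34 (I J : Type) [Fintype I] [Fintype J] (a b c : ℝ) (h : c ^ 2 = a ^ 2 + b ^ 2) :
    (gam4 I J).map (fun w => (w.1, a • w.2.1 + b • w.2.2.1, w.2.2.2)) =
      (gam3 I J).map (fun z => (z.1, c • z.2.1, z.2.2)) := by
  have hg : Measurable (fun p : EuclideanSpace ℝ I × EuclideanSpace ℝ I => a • p.1 + b • p.2) := by
    fun_prop
  have hc : Measurable (fun x : EuclideanSpace ℝ I => c • x) := by fun_prop
  have hφ : Measurable (fun q : EuclideanSpace ℝ I × EuclideanSpace ℝ I × EuclideanSpace ℝ J =>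
      (a • q.1 + b • q.2.1, q.2.2)) := by fun_prop
  have h2 : ((stdGaussian (EuclideanSpace ℝ I)).prod
      ((stdGaussian (EuclideanSpace ℝ I)).prod (stdGaussian (EuclideanSpace ℝ J)))).map
      (fun q : EuclideanSpace ℝ I × EuclideanSpace ℝ I × EuclideanSpace ℝ J =>
        (a • q.1 + b • q.2.1, q.2.2)) =
      ((stdGaussian (EuclideanSpace ℝ I)).map (fun x => c • x)).prod
        (stdGaussian (EuclideanSpace ℝ J)) := by
    have hm := (measurePreserving_prodAssoc (stdGaussian (EuclideanSpace ℝ I))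
      (stdGaussian (EuclideanSpace ℝ I)) (stdGaussian (EuclideanSpace ℝ J)))
    rw [← hm.map_eq, Measure.map_map hφ MeasurableEquiv.prodAssoc.measurable]
    have e : ((fun q : EuclideanSpace ℝ I × EuclideanSpace ℝ I × EuclideanSpace ℝ J =>
        (a • q.1 + b • q.2.1, q.2.2)) ∘ (MeasurableEquiv.prodAssoc :
          (EuclideanSpace ℝ I × EuclideanSpace ℝ I) × EuclideanSpace ℝ J ≃ᵐ
          EuclideanSpace ℝ I × EuclideanSpace ℝ I × EuclideanSpace ℝ J)) =
        Prod.map (fun p : EuclideanSpace ℝ I × EuclideanSpace ℝ I => a • p.1 + b • p.2) id := by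
      funext q
      rfl
    rw [e, ← Measure.map_prod_map _ _ hg measurable_id, merge1 I a b c h, Measure.map_id]
  have h3 : (gam4 I J).map (fun w => (w.1, a • w.2.1 + b • w.2.2.1, w.2.2.2)) =
      (stdGaussian (EuclideanSpace ℝ I)).prod
        (((stdGaussian (EuclideanSpace ℝ I)).map (fun x => c • x)).prod
        (stdGaussian (EuclideanSpace ℝ J))) := by
    rw [← h2]
    have := Measure.map_prod_map (stdGaussian (EuclideanSpace ℝ I))
      ((stdGaussian (EuclideanSpace ℝ I)).prod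
      ((stdGaussian (EuclideanSpace ℝ I)).prod (stdGaussian (EuclideanSpace ℝ J))))
      measurable_id hφ
    rw [Measure.map_id] at this
    rw [this]
    rfl
  have h4 : (gam3 I J).map (fun z => (z.1, c • z.2.1, z.2.2)) =
      (stdGaussian (EuclideanSpace ℝ I)).prod
        (((stdGaussian (EuclideanSpace ℝ I)).map (fun x => c • x)).prod
        (stdGaussian (EuclideanSpace ℝ J))) := by
    have e1 := Measure.map_prod_map (stdGaussian (EuclideanSpace ℝ I))
      (stdGaussian (EuclideanSpace ℝ J)) hc measurable_id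
    rw [Measure.map_id] at e1
    rw [e1]
    have e2 := Measure.map_prod_map (stdGaussian (EuclideanSpace ℝ I))
      ((stdGaussian (EuclideanSpace ℝ I)).prod (stdGaussian (EuclideanSpace ℝ J)))
      measurable_id (hc.prodMap (measurable_id (α := EuclideanSpace ℝ J)))
    rw [Measure.map_id] at e2
    rw [e2]
    rfl
  rw [h3, h4]

end

section

/-- merging the first and second variables of a Gaussian quadruple -/
theorem merge12 (I J : Type) [Fintype I] [Fintype J] (a b c : ℝ) (h : c ^ 2 = a ^ 2 + b ^ 2) :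
    (gam4 I J).map (fun w => (a • w.1 + b • w.2.1, w.2.2.1, w.2.2.2)) =
      (gam3 I J).map (fun z => (c • z.1, z.2.1, z.2.2)) := by
  have h0 := merge1 I a b c h
  have hm1 : Measurable (fun p : EuclideanSpace ℝ I × EuclideanSpace ℝ I =>
      a • p.1 + b • p.2) := by fun_prop
  have hm2 : Measurable (fun x : EuclideanSpace ℝ I => c • x) := by fun_prop
  have hm3 : Measurable (fun w : EuclideanSpace ℝ I × EuclideanSpace ℝ I × EuclideanSpace ℝ I ×
      EuclideanSpace ℝ J => (a • w.1 + b • w.2.1, w.2.2.1, w.2.2.2)) := by fun_prop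
  have h1 : gam4 I J = (((stdGaussian (EuclideanSpace ℝ I)).prod
      (stdGaussian (EuclideanSpace ℝ I))).prod
      ((stdGaussian (EuclideanSpace ℝ I)).prod (stdGaussian (EuclideanSpace ℝ J)))).map
      MeasurableEquiv.prodAssoc := by
    rw [Measure.prodAssoc_prod]
    rfl
  rw [h1, Measure.map_map hm3 MeasurableEquiv.prodAssoc.measurable]
  have h2 : ((fun w : EuclideanSpace ℝ I × EuclideanSpace ℝ I × EuclideanSpace ℝ I ×
      EuclideanSpace ℝ J => (a • w.1 + b • w.2.1, w.2.2.1, w.2.2.2)) ∘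
      (MeasurableEquiv.prodAssoc : (EuclideanSpace ℝ I × EuclideanSpace ℝ I) ×
        (EuclideanSpace ℝ I × EuclideanSpace ℝ J) ≃ᵐ _)) =
      Prod.map (fun p : EuclideanSpace ℝ I × EuclideanSpace ℝ I => a • p.1 + b • p.2) id := by
    rfl
  rw [h2, ← Measure.map_prod_map _ _ hm1 measurable_id, h0, Measure.map_id]
  have h3 : (fun z : EuclideanSpace ℝ I × EuclideanSpace ℝ I × EuclideanSpace ℝ J =>
      (c • z.1, z.2.1, z.2.2)) = Prod.map (fun x : EuclideanSpace ℝ I => c • x) id := by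
    rfl
  rw [h3]
  unfold gam3
  rw [← Measure.map_prod_map _ _ hm2 measurable_id, Measure.map_id]

end

section

/-- exponential moments: `E e^{<z,q> - |q|²/2} = 1` -/
theorem gexp {I : Type} [Fintype I] (q : EuclideanSpace ℝ I) :
    ∫⁻ z, ENNReal.ofReal (Real.exp (⟪z, q⟫ - ‖q‖ ^ 2 / 2)) ∂(stdGaussian (EuclideanSpace ℝ I)) = 1 := by
  have hmeas : Measurable (fun z : EuclideanSpace ℝ I =>
      ENNReal.ofReal (Real.exp (⟪z, q⟫ - ‖q‖ ^ 2 / 2))) := by
    apply Measurable.ennreal_ofReal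
    apply Continuous.measurable
    fun_prop
  have h1 := gauss_shift (I := I) 1 one_pos 0 _ hmeas
  simp only [Real.sqrt_one, one_smul, zero_add, sub_zero] at h1
  rw [h1]
  have h2 : ∀ z : EuclideanSpace ℝ I, ENNReal.ofReal (gk 1 z) *
      ENNReal.ofReal (Real.exp (⟪z, q⟫ - ‖q‖ ^ 2 / 2)) = ENNReal.ofReal (gk 1 (z - q)) := by
    intro z
    rw [← ENNReal.ofReal_mul (((gk_basic (J := I) 1 one_pos).2.1 z).le)]
    congr 1
    unfold gk
    rw [mul_assoc, ← Real.exp_add]
    congr 2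
    rw [norm_sub_sq_real]
    ring
  simp only [h2]
  rw [lintegral_sub_right_eq_self (fun z : EuclideanSpace ℝ I => ENNReal.ofReal (gk 1 z)) q]
  exact (gk_basic (J := I) 1 one_pos).2.2.2.1

end

section

theorem hs_moment {I J : Type} [Fintype I] [Fintype J] [DecidableEq I]
    (A : EuclideanSpace ℝ I →L[ℝ] EuclideanSpace ℝ J) :
    ∫ z, ‖A z‖ ^ 2 ∂(stdGaussian (EuclideanSpace ℝ I)) = hs A := by
  have hint : ∀ j : J, Integrable (fun z => (A z) j ^ 2) (stdGaussian (EuclideanSpace ℝ I)) := by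
    intro j
    have h1 : MemLp (fun z : EuclideanSpace ℝ I => z) 2 (stdGaussian (EuclideanSpace ℝ I)) :=
      IsGaussian.memLp_two_id
    have h2 : MemLp (fun z : EuclideanSpace ℝ I => ((EuclideanSpace.proj j).comp A) z) 2
        (stdGaussian (EuclideanSpace ℝ I)) := ((EuclideanSpace.proj (𝕜 := ℝ) j).comp A).comp_memLp' h1
    exact h2.integrable_sq
  have h1 : ∀ z, ‖A z‖ ^ 2 = ∑ j, (A z) j ^ 2 := by
    intro z
    rw [EuclideanSpace.real_norm_sq_eq]
  simp_rw [h1]
  rw [integral_finset_sum _ fun j _ => hint j]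
  have h2 : ∀ j : J, ∫ z, (A z) j ^ 2 ∂(stdGaussian (EuclideanSpace ℝ I)) =
      ∑ i, (A (EuclideanSpace.single i 1)) j ^ 2 := by
    intro j
    let L : StrongDual ℝ (EuclideanSpace ℝ I) := (EuclideanSpace.proj (𝕜 := ℝ) j).comp A
    have h3 := variance_dual_stdGaussian L
    rw [variance_of_integral_eq_zero (by fun_prop) (integral_strongDual_stdGaussian L)] at h3
    have h4 := (EuclideanSpace.basisFun I ℝ).norm_dual L
    have h5 : ∫ z, (A z) j ^ 2 ∂(stdGaussian (EuclideanSpace ℝ I)) = ‖L‖ ^ 2 := h3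
    rw [h5, h4]
    apply Finset.sum_congr rfl
    intro i _
    simp [L]
  simp_rw [h2]
  rw [Finset.sum_comm]
  unfold hs
  apply Finset.sum_congr rfl
  intro i _
  rw [EuclideanSpace.real_norm_sq_eq]

/-- moments of the standard Gaussian -/
theorem moments {I J : Type} [Fintype I] [Fintype J] [DecidableEq I] :
    Integrable (fun z : EuclideanSpace ℝ I => ‖z‖) (stdGaussian (EuclideanSpace ℝ I)) ∧
    Integrable (fun z : EuclideanSpace ℝ I => ‖z‖ ^ 2) (stdGaussian (EuclideanSpace ℝ I)) ∧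
    (∫ z, ‖z‖ ^ 2 ∂(stdGaussian (EuclideanSpace ℝ I)) = Fintype.card I) ∧
    (∀ q : EuclideanSpace ℝ I, ∫ z, ⟪z, q⟫ ∂(stdGaussian (EuclideanSpace ℝ I)) = 0) ∧
    (∀ A : EuclideanSpace ℝ I →L[ℝ] EuclideanSpace ℝ J,
      ∫ z, ‖A z‖ ^ 2 ∂(stdGaussian (EuclideanSpace ℝ I)) = hs A) := by
  have h1 : MemLp (fun z : EuclideanSpace ℝ I => z) 2 (stdGaussian (EuclideanSpace ℝ I)) :=
      IsGaussian.memLp_two_id
  refine ⟨IsGaussian.integrable_id.norm, h1.integrable_norm_pow (by norm_num), ?_, ?_,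
    fun A => hs_moment A⟩
  · have h := hs_moment (ContinuousLinearMap.id ℝ (EuclideanSpace ℝ I))
    simp only [ContinuousLinearMap.coe_id', id_eq] at h
    rw [h]
    simp [hs]
  · intro q
    have h := integral_strongDual_stdGaussian (innerSL ℝ q)
    rw [← h]
    apply integral_congr_ae
    filter_upwards with z
    simp [real_inner_comm]

end

section

/-- elementary properties of `Kd` -/
theorem Kd_basic {I J : Type} [Fintype I] [Fintype J]
    (f : EuclideanSpace ℝ I → EuclideanSpace ℝ J) (hf : Continuous f) (t σ : ℝ) (ht : 0 < t) :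
    Measurable (fun p : EuclideanSpace ℝ I × EuclideanSpace ℝ J => Kd f t σ p.1 p.2) ∧
    (∀ x y, 0 < Kd f t σ x y) ∧
    ∀ x y, Kd f t σ x y ≤ (2 * Real.pi * t) ^ (-(Fintype.card J : ℝ) / 2) := by
  obtain ⟨hc, hpos, hle, -, -⟩ := gk_basic (J := J) t ht
  have hcont : ∀ (x : EuclideanSpace ℝ I) (y : EuclideanSpace ℝ J),
      Continuous (fun g : EuclideanSpace ℝ I => gk t (y - f (x + σ • g))) := by
    intro x y
    exact hc.comp (by fun_prop)
  have hint : ∀ (x : EuclideanSpace ℝ I) (y : EuclideanSpace ℝ J),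
      Integrable (fun g : EuclideanSpace ℝ I => gk t (y - f (x + σ • g)))
        (stdGaussian (EuclideanSpace ℝ I)) := by
    intro x y
    refine Integrable.of_bound (hcont x y).aestronglyMeasurable
      ((2 * Real.pi * t) ^ (-(Fintype.card J : ℝ) / 2)) ?_
    filter_upwards with g
    rw [Real.norm_of_nonneg (hpos _).le]
    exact hle _
  refine ⟨?_, ?_, ?_⟩
  · have h1 : Continuous (fun q : (EuclideanSpace ℝ I × EuclideanSpace ℝ J) × EuclideanSpace ℝ I =>
        gk t (q.1.2 - f (q.1.1 + σ • q.2))) := by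
      exact hc.comp (by fun_prop)
    have h2 := (h1.stronglyMeasurable).integral_prod_right'
      (ν := stdGaussian (EuclideanSpace ℝ I))
    exact h2.measurable
  · intro x y
    unfold Kd
    rw [integral_pos_iff_support_of_nonneg (fun g => (hpos _).le) (hint x y)]
    have h3 : Function.support (fun g : EuclideanSpace ℝ I => gk t (y - f (x + σ • g))) =
        Set.univ := by
      ext g
      simp only [Function.mem_support, Set.mem_univ, iff_true]
      exact (hpos _).ne'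
    rw [h3, measure_univ]
    exact one_pos
  · intro x y
    unfold Kd
    calc ∫ g, gk t (y - f (x + σ • g)) ∂(stdGaussian (EuclideanSpace ℝ I))
        ≤ ∫ _g, (2 * Real.pi * t) ^ (-(Fintype.card J : ℝ) / 2)
            ∂(stdGaussian (EuclideanSpace ℝ I)) := by
          apply integral_mono (hint x y) (integrable_const _)
          intro g
          exact hle _
      _ = _ := by
        rw [integral_const]
        simp

end

section

/-- growth of `log Kd`, uniform in `σ` and `x` -/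
theorem Kd_log {I J : Type} [Fintype I] [Fintype J]
    (f : EuclideanSpace ℝ I → EuclideanSpace ℝ J) (hf : Continuous f) (B : ℝ)
    (hB : ∀ x, ‖f x‖ ≤ B) (t : ℝ) (ht : 0 < t) :
    ∃ C : ℝ, 0 ≤ C ∧ ∀ σ x y, |Real.log (Kd f t σ x y)| ≤ C * (1 + ‖y‖ ^ 2) := by
  classical
  set N : ℝ := (2 * Real.pi * t) ^ (-(Fintype.card J : ℝ) / 2) with hN
  have hN0 : 0 < N := Real.rpow_pos_of_pos (by positivity) _
  obtain ⟨g1, g2, g3, g4, g5⟩ := gk_basic (J := J) t ht
  have hB0 : 0 ≤ B := (norm_nonneg _).trans (hB 0)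
  refine ⟨|Real.log N| + (1 + B ^ 2) / t, by positivity, fun σ x y => ?_⟩
  obtain ⟨k1, k2, k3⟩ := Kd_basic f hf t σ ht
  have hup : Real.log (Kd f t σ x y) ≤ Real.log N :=
    Real.log_le_log (k2 x y) (k3 x y)
  have hint : Integrable (fun g => gk t (y - f (x + σ • g))) (stdGaussian (EuclideanSpace ℝ I)) := by
    refine Integrable.mono' (integrable_const N) ?_ (Filter.Eventually.of_forall fun g => ?_)
    · exact (g1.comp (continuous_const.sub (hf.comp
        (continuous_const.add (continuous_id.const_smul σ))))).aestronglyMeasurable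
    · rw [Real.norm_of_nonneg (g2 _).le]
      exact g3 _
  have hlow : N * Real.exp (-((‖y‖ ^ 2 + B ^ 2) / t)) ≤ Kd f t σ x y := by
    have h1 : ∫ g, N * Real.exp (-((‖y‖ ^ 2 + B ^ 2) / t)) ∂(stdGaussian (EuclideanSpace ℝ I)) =
        N * Real.exp (-((‖y‖ ^ 2 + B ^ 2) / t)) := by
      simp
    rw [← h1]
    refine integral_mono (integrable_const _) hint fun g => ?_
    show N * Real.exp (-((‖y‖ ^ 2 + B ^ 2) / t)) ≤ gk t (y - f (x + σ • g))
    unfold gk
    rw [← hN]
    refine mul_le_mul_of_nonneg_left (Real.exp_le_exp.2 ?_) hN0.le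
    have h2 : ‖y - f (x + σ • g)‖ ≤ ‖y‖ + B := (norm_sub_le _ _).trans (by linarith [hB (x + σ • g)])
    have h3 : ‖y - f (x + σ • g)‖ ^ 2 ≤ 2 * (‖y‖ ^ 2 + B ^ 2) := by
      have h4 := pow_le_pow_left₀ (norm_nonneg _) h2 2
      nlinarith [sq_nonneg (‖y‖ - B)]
    rw [neg_div, neg_le_neg_iff, div_le_div_iff₀ (by positivity) ht]
    nlinarith
  have hlow2 : Real.log N - (‖y‖ ^ 2 + B ^ 2) / t ≤ Real.log (Kd f t σ x y) := by
    have h5 := Real.log_le_log (by positivity) hlow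
    rw [Real.log_mul hN0.ne' (Real.exp_pos _).ne', Real.log_exp] at h5
    linarith
  have h6 : (‖y‖ ^ 2 + B ^ 2) / t ≤ (1 + B ^ 2) / t * (1 + ‖y‖ ^ 2) := by
    rw [div_mul_eq_mul_div, div_le_div_iff_of_pos_right ht]
    nlinarith [sq_nonneg ‖y‖, sq_nonneg B, mul_nonneg (sq_nonneg B) (sq_nonneg ‖y‖)]
  have h7 : |Real.log N| ≤ |Real.log N| * (1 + ‖y‖ ^ 2) := by
    nlinarith [abs_nonneg (Real.log N), sq_nonneg ‖y‖,
      mul_nonneg (abs_nonneg (Real.log N)) (sq_nonneg ‖y‖)]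
  have h8 := le_abs_self (Real.log N)
  have h9 := neg_abs_le (Real.log N)
  have h10 : 0 ≤ (1 + B ^ 2) / t * (1 + ‖y‖ ^ 2) := by positivity
  rw [abs_le]
  constructor
  · nlinarith
  · nlinarith

end

section

/-- `Kd` is the density of `f (x + σ g) + √t l` -/
theorem Kd_density {I J : Type} [Fintype I] [Fintype J]
    (f : EuclideanSpace ℝ I → EuclideanSpace ℝ J) (hf : Continuous f) (t σ : ℝ) (ht : 0 < t)
    (x : EuclideanSpace ℝ I) (h : EuclideanSpace ℝ J → ℝ≥0∞) (hh : Measurable h) :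
    ∫⁻ g, ∫⁻ l, h (f (x + σ • g) + √t • l) ∂(stdGaussian (EuclideanSpace ℝ J))
        ∂(stdGaussian (EuclideanSpace ℝ I)) =
      ∫⁻ y, ENNReal.ofReal (Kd f t σ x y) * h y := by
  have hgk := gk_basic (J := J) t ht
  obtain ⟨hc, hpos, hle, -, -⟩ := hgk
  -- joint measurability
  have hfm : Measurable f := hf.measurable
  have hfx : Measurable (fun g : EuclideanSpace ℝ I => f (x + σ • g)) := by
    have : Continuous (fun g : EuclideanSpace ℝ I => f (x + σ • g)) := by fun_prop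
    exact this.measurable
  have hK : Measurable (fun p : EuclideanSpace ℝ I × EuclideanSpace ℝ J =>
      gk t (p.2 - f (x + σ • p.1))) := by
    have h1 : Measurable (fun p : EuclideanSpace ℝ I × EuclideanSpace ℝ J =>
        p.2 - f (x + σ • p.1)) := by
      have : Continuous (fun p : EuclideanSpace ℝ I × EuclideanSpace ℝ J =>
        p.2 - f (x + σ • p.1)) := by fun_prop
      exact this.measurable
    exact hc.measurable.comp h1
  have hstep1 : ∀ g : EuclideanSpace ℝ I,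
      ∫⁻ l, h (f (x + σ • g) + √t • l) ∂(stdGaussian (EuclideanSpace ℝ J)) =
        ∫⁻ y, ENNReal.ofReal (gk t (y - f (x + σ • g))) * h y := by
    intro g
    exact gauss_shift t ht (f (x + σ • g)) h hh
  rw [lintegral_congr hstep1]
  rw [lintegral_lintegral_swap]
  · refine lintegral_congr (fun y => ?_)
    have hmy : Measurable (fun g : EuclideanSpace ℝ I => gk t (y - f (x + σ • g))) := by
      have hcy : Continuous (fun g : EuclideanSpace ℝ I => y - f (x + σ • g)) := by fun_prop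
      exact (hc.comp hcy).measurable
    rw [lintegral_mul_const _ hmy.ennreal_ofReal]
    congr 1
    unfold Kd
    rw [ofReal_integral_eq_lintegral_ofReal]
    · obtain ⟨C, hC⟩ : ∃ C : ℝ, C = (2 * Real.pi * t) ^ (-(Fintype.card J : ℝ) / 2) := ⟨_, rfl⟩
      have hb : ∀ g : EuclideanSpace ℝ I, ‖gk t (y - f (x + σ • g))‖ ≤ C := by
        intro g
        rw [Real.norm_eq_abs, abs_of_pos (hpos _), hC]
        exact hle _
      exact Integrable.of_bound hmy.aestronglyMeasurable C (Filter.Eventually.of_forall hb)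
    · exact Filter.Eventually.of_forall fun g => (hpos _).le
  · have : Measurable (Function.uncurry (fun (g : EuclideanSpace ℝ I) (y : EuclideanSpace ℝ J) =>
        ENNReal.ofReal (gk t (y - f (x + σ • g))) * h y)) := by
      exact (hK.ennreal_ofReal).mul (hh.comp measurable_snd)
    exact this.aemeasurable

end

section

/-- `Kd` is a probability density -/
theorem Kd_one {I J : Type} [Fintype I] [Fintype J]
    (f : EuclideanSpace ℝ I → EuclideanSpace ℝ J) (hf : Continuous f) (t σ : ℝ) (ht : 0 < t)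
    (x : EuclideanSpace ℝ I) : ∫⁻ y, ENNReal.ofReal (Kd f t σ x y) = 1 := by
  have h := Kd_density f hf t σ ht x (fun _ => 1) measurable_const
  simp only [mul_one, lintegral_const, measure_univ] at h
  exact h.symm

end

section

attribute [local irreducible] Kd

/-- auxiliary: the exponential weight -/
noncomputable def zE {I J : Type} [Fintype I] [Fintype J]
    (Q : EuclideanSpace ℝ I × EuclideanSpace ℝ J → EuclideanSpace ℝ I)
    (x z : EuclideanSpace ℝ I) (y : EuclideanSpace ℝ J) : ℝ≥0∞ :=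
  ENNReal.ofReal (Real.exp (⟪z, Q (x, y)⟫ - ‖Q (x, y)‖ ^ 2 / 2))

/-- auxiliary: the integrand -/
noncomputable def zG {I J : Type} [Fintype I] [Fintype J]
    (f : EuclideanSpace ℝ I → EuclideanSpace ℝ J) (t a s σ' σ : ℝ)
    (Q : EuclideanSpace ℝ I × EuclideanSpace ℝ J → EuclideanSpace ℝ I)
    (x z : EuclideanSpace ℝ I) (y : EuclideanSpace ℝ J) : ℝ≥0∞ :=
  ENNReal.ofReal (Real.exp (⟪z, Q (x, y)⟫ - ‖Q (x, y)‖ ^ 2 / 2 +
    Real.log (Kd f t σ (a • x) y) - Real.log (Kd f t σ' (a • x + s • z) y)))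

theorem zE_meas {I J : Type} [Fintype I] [Fintype J]
    (Q : EuclideanSpace ℝ I × EuclideanSpace ℝ J → EuclideanSpace ℝ I) (hQ : Measurable Q) :
    Measurable fun p : EuclideanSpace ℝ I × EuclideanSpace ℝ I × EuclideanSpace ℝ J =>
      zE Q p.1 p.2.1 p.2.2 := by
  have hq : Measurable fun p : EuclideanSpace ℝ I × EuclideanSpace ℝ I × EuclideanSpace ℝ J =>
      Q (p.1, p.2.2) := hQ.comp (measurable_fst.prodMk (measurable_snd.comp measurable_snd))
  have hA : Measurable fun p : EuclideanSpace ℝ I × EuclideanSpace ℝ I × EuclideanSpace ℝ J =>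
      ⟪p.2.1, Q (p.1, p.2.2)⟫ - ‖Q (p.1, p.2.2)‖ ^ 2 / 2 :=
    ((measurable_fst.comp measurable_snd).inner hq).sub ((hq.norm.pow_const 2).div_const 2)
  exact hA.exp.ennreal_ofReal

theorem zG_meas {I J : Type} [Fintype I] [Fintype J]
    (f : EuclideanSpace ℝ I → EuclideanSpace ℝ J) (hf : Continuous f) (t a s σ' σ : ℝ) (ht : 0 < t)
    (Q : EuclideanSpace ℝ I × EuclideanSpace ℝ J → EuclideanSpace ℝ I) (hQ : Measurable Q) :
    Measurable fun p : EuclideanSpace ℝ I × EuclideanSpace ℝ I × EuclideanSpace ℝ J =>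
      zG f t a s σ' σ Q p.1 p.2.1 p.2.2 := by
  obtain ⟨hK1, -, -⟩ := Kd_basic f hf t σ ht
  obtain ⟨hK2, -, -⟩ := Kd_basic f hf t σ' ht
  have hq : Measurable fun p : EuclideanSpace ℝ I × EuclideanSpace ℝ I × EuclideanSpace ℝ J =>
      Q (p.1, p.2.2) := hQ.comp (measurable_fst.prodMk (measurable_snd.comp measurable_snd))
  have hA : Measurable fun p : EuclideanSpace ℝ I × EuclideanSpace ℝ I × EuclideanSpace ℝ J =>
      ⟪p.2.1, Q (p.1, p.2.2)⟫ - ‖Q (p.1, p.2.2)‖ ^ 2 / 2 :=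
    ((measurable_fst.comp measurable_snd).inner hq).sub ((hq.norm.pow_const 2).div_const 2)
  have hB : Measurable fun p : EuclideanSpace ℝ I × EuclideanSpace ℝ I × EuclideanSpace ℝ J =>
      Kd f t σ (a • p.1) p.2.2 :=
    hK1.comp ((measurable_fst.const_smul a).prodMk (measurable_snd.comp measurable_snd))
  have hC : Measurable fun p : EuclideanSpace ℝ I × EuclideanSpace ℝ I × EuclideanSpace ℝ J =>
      Kd f t σ' (a • p.1 + s • p.2.1) p.2.2 :=
    hK2.comp (((measurable_fst.const_smul a).add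
      ((measurable_fst.comp measurable_snd).const_smul s)).prodMk
        (measurable_snd.comp measurable_snd))
  exact ((hA.add hB.log).sub hC.log).exp.ennreal_ofReal

theorem zG_prod {I J : Type} [Fintype I] [Fintype J]
    (f : EuclideanSpace ℝ I → EuclideanSpace ℝ J) (hf : Continuous f) (t a s σ' σ : ℝ) (ht : 0 < t)
    (Q : EuclideanSpace ℝ I × EuclideanSpace ℝ J → EuclideanSpace ℝ I)
    (x z : EuclideanSpace ℝ I) (y : EuclideanSpace ℝ J) :
    ENNReal.ofReal (Kd f t σ' (a • x + s • z) y) * zG f t a s σ' σ Q x z y =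
      zE Q x z y * ENNReal.ofReal (Kd f t σ (a • x) y) := by
  obtain ⟨-, hK1p, -⟩ := Kd_basic f hf t σ ht
  obtain ⟨-, hK2p, -⟩ := Kd_basic f hf t σ' ht
  have h1 := hK1p (a • x) y
  have h2 := hK2p (a • x + s • z) y
  unfold zG zE
  rw [← ENNReal.ofReal_mul h2.le, ← ENNReal.ofReal_mul (Real.exp_pos _).le]
  congr 1
  rw [Real.exp_sub, Real.exp_add, Real.exp_log h1, Real.exp_log h2]
  field_simp

attribute [local irreducible] zE zG

theorem zE_meas2 {I J : Type} [Fintype I] [Fintype J]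
    (Q : EuclideanSpace ℝ I × EuclideanSpace ℝ J → EuclideanSpace ℝ I) (hQ : Measurable Q)
    (x : EuclideanSpace ℝ I) :
    Measurable fun p : EuclideanSpace ℝ I × EuclideanSpace ℝ J => zE Q x p.1 p.2 := by
  have hm : Measurable fun p : EuclideanSpace ℝ I × EuclideanSpace ℝ J =>
      ((x, p.1, p.2) : EuclideanSpace ℝ I × EuclideanSpace ℝ I × EuclideanSpace ℝ J) := by fun_prop
  have h := (zE_meas Q hQ).comp hm
  simp only [Function.comp_def] at h
  exact h

theorem zE_meas3 {I J : Type} [Fintype I] [Fintype J]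
    (Q : EuclideanSpace ℝ I × EuclideanSpace ℝ J → EuclideanSpace ℝ I) (hQ : Measurable Q)
    (x : EuclideanSpace ℝ I) (y : EuclideanSpace ℝ J) :
    Measurable fun z : EuclideanSpace ℝ I => zE Q x z y := by
  have hm : Measurable fun z : EuclideanSpace ℝ I =>
      ((z, y) : EuclideanSpace ℝ I × EuclideanSpace ℝ J) := by fun_prop
  have h := (zE_meas2 Q hQ x).comp hm
  simp only [Function.comp_def] at h
  exact h

theorem zKd_meas2 {I J : Type} [Fintype I] [Fintype J]
    (f : EuclideanSpace ℝ I → EuclideanSpace ℝ J) (hf : Continuous f) (t σ : ℝ) (ht : 0 < t)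
    (x : EuclideanSpace ℝ I) :
    Measurable fun p : EuclideanSpace ℝ I × EuclideanSpace ℝ J => Kd f t σ x p.2 := by
  have hm : Measurable fun p : EuclideanSpace ℝ I × EuclideanSpace ℝ J =>
      ((x, p.2) : EuclideanSpace ℝ I × EuclideanSpace ℝ J) := by fun_prop
  have h := (Kd_basic f hf t σ ht).1.comp hm
  simp only [Function.comp_def] at h
  exact h

theorem zG_meas2 {I J : Type} [Fintype I] [Fintype J]
    (f : EuclideanSpace ℝ I → EuclideanSpace ℝ J) (hf : Continuous f) (t a s σ' σ : ℝ) (ht : 0 < t)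
    (Q : EuclideanSpace ℝ I × EuclideanSpace ℝ J → EuclideanSpace ℝ I) (hQ : Measurable Q)
    (x z : EuclideanSpace ℝ I) : Measurable fun y => zG f t a s σ' σ Q x z y := by
  have hm : Measurable fun y : EuclideanSpace ℝ J =>
      ((x, z, y) : EuclideanSpace ℝ I × EuclideanSpace ℝ I × EuclideanSpace ℝ J) := by fun_prop
  have h := (zG_meas f hf t a s σ' σ ht Q hQ).comp hm
  simp only [Function.comp_def] at h
  exact h

theorem z_int_aux797 {I J : Type} [Fintype I] [Fintype J]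
    (f : EuclideanSpace ℝ I → EuclideanSpace ℝ J) (hf : Continuous f) (t a s σ' σ : ℝ) (ht : 0 < t)
    (Q : EuclideanSpace ℝ I × EuclideanSpace ℝ J → EuclideanSpace ℝ I) (hQ : Measurable Q)
    (x : EuclideanSpace ℝ I) :
    ∫⁻ z, ∫⁻ g, ∫⁻ l, zG f t a s σ' σ Q x z (f ((a • x + s • z) + σ' • g) + √t • l)
      ∂(stdGaussian (EuclideanSpace ℝ J)) ∂(stdGaussian (EuclideanSpace ℝ I))
      ∂(stdGaussian (EuclideanSpace ℝ I)) = 1 := by
  obtain ⟨hK1, -, -⟩ := Kd_basic f hf t σ ht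
  have hE := zE_meas Q hQ
  have hG := zG_meas f hf t a s σ' σ ht Q hQ
  have h1 : ∀ z, ∫⁻ g, ∫⁻ l, zG f t a s σ' σ Q x z (f ((a • x + s • z) + σ' • g) + √t • l)
      ∂(stdGaussian (EuclideanSpace ℝ J)) ∂(stdGaussian (EuclideanSpace ℝ I)) =
      ∫⁻ y, zE Q x z y * ENNReal.ofReal (Kd f t σ (a • x) y) := by
    intro z
    have hm2 : Measurable fun y => zG f t a s σ' σ Q x z y :=
      zG_meas2 f hf t a s σ' σ ht Q hQ x z
    rw [Kd_density f hf t σ' ht (a • x + s • z) (fun y => zG f t a s σ' σ Q x z y) hm2]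
    exact lintegral_congr fun y => zG_prod f hf t a s σ' σ ht Q x z y
  rw [lintegral_congr h1]
  have h2 : ∫⁻ z, ∫⁻ y, zE Q x z y * ENNReal.ofReal (Kd f t σ (a • x) y)
      ∂(volume : Measure (EuclideanSpace ℝ J)) ∂(stdGaussian (EuclideanSpace ℝ I)) =
      ∫⁻ y, ∫⁻ z, zE Q x z y * ENNReal.ofReal (Kd f t σ (a • x) y)
      ∂(stdGaussian (EuclideanSpace ℝ I)) ∂(volume : Measure (EuclideanSpace ℝ J)) := by
    apply lintegral_lintegral_swap
    apply Measurable.aemeasurable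
    apply Measurable.mul
    · exact zE_meas2 Q hQ x
    · exact (zKd_meas2 f hf t σ ht (a • x)).ennreal_ofReal
  rw [h2]
  have h3 : ∀ y, ∫⁻ z, zE Q x z y * ENNReal.ofReal (Kd f t σ (a • x) y)
      ∂(stdGaussian (EuclideanSpace ℝ I)) = ENNReal.ofReal (Kd f t σ (a • x) y) := by
    intro y
    rw [lintegral_mul_const _ (zE_meas3 Q hQ x y)]
    have h4 : ∫⁻ z, zE Q x z y ∂(stdGaussian (EuclideanSpace ℝ I)) = 1 := by
      simp only [zE]
      exact gexp (Q (x, y))
    rw [h4, one_mul]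
  rw [lintegral_congr h3]
  exact Kd_one f hf t σ ht (a • x)

theorem z_full_meas {I J : Type} [Fintype I] [Fintype J]
    (f : EuclideanSpace ℝ I → EuclideanSpace ℝ J) (hf : Continuous f) (t a s σ' σ : ℝ) (ht : 0 < t)
    (Q : EuclideanSpace ℝ I × EuclideanSpace ℝ J → EuclideanSpace ℝ I) (hQ : Measurable Q) :
    Measurable fun w : EuclideanSpace ℝ I × EuclideanSpace ℝ I ×
      EuclideanSpace ℝ I × EuclideanSpace ℝ J =>
        zG f t a s σ' σ Q w.1 w.2.1 (f ((a • w.1 + s • w.2.1) + σ' • w.2.2.1) + √t • w.2.2.2) := by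
  have hG := zG_meas f hf t a s σ' σ ht Q hQ
  have hz : Measurable (fun w : EuclideanSpace ℝ I × EuclideanSpace ℝ I ×
      EuclideanSpace ℝ I × EuclideanSpace ℝ J =>
      f ((a • w.1 + s • w.2.1) + σ' • w.2.2.1) + √t • w.2.2.2) := by
    apply Continuous.measurable
    fun_prop
  have hm : Measurable fun w : EuclideanSpace ℝ I × EuclideanSpace ℝ I ×
      EuclideanSpace ℝ I × EuclideanSpace ℝ J =>
      ((w.1, w.2.1, f ((a • w.1 + s • w.2.1) + σ' • w.2.2.1) + √t • w.2.2.2) :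
        EuclideanSpace ℝ I × EuclideanSpace ℝ I × EuclideanSpace ℝ J) :=
    measurable_fst.prodMk ((measurable_fst.comp measurable_snd).prodMk hz)
  have h := hG.comp hm
  simp only [Function.comp_def] at h
  exact h

theorem z_full {I J : Type} [Fintype I] [Fintype J]
    (f : EuclideanSpace ℝ I → EuclideanSpace ℝ J) (hf : Continuous f) (t a s σ' σ : ℝ) (ht : 0 < t)
    (Q : EuclideanSpace ℝ I × EuclideanSpace ℝ J → EuclideanSpace ℝ I) (hQ : Measurable Q) :
    ∫⁻ w : EuclideanSpace ℝ I × EuclideanSpace ℝ I ×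
      EuclideanSpace ℝ I × EuclideanSpace ℝ J,
        zG f t a s σ' σ Q w.1 w.2.1 (f ((a • w.1 + s • w.2.1) + σ' • w.2.2.1) + √t • w.2.2.2)
        ∂(gam4 I J) = 1 := by
  have hfull := z_full_meas f hf t a s σ' σ ht Q hQ
  unfold gam4
  rw [lintegral_prod _ hfull.aemeasurable]
  have hx : ∀ x : EuclideanSpace ℝ I, ∫⁻ q : EuclideanSpace ℝ I × EuclideanSpace ℝ I ×
      EuclideanSpace ℝ J,
        zG f t a s σ' σ Q x q.1 (f ((a • x + s • q.1) + σ' • q.2.1) + √t • q.2.2)
        ∂((stdGaussian (EuclideanSpace ℝ I)).prod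
        ((stdGaussian (EuclideanSpace ℝ I)).prod (stdGaussian (EuclideanSpace ℝ J)))) = 1 := by
    intro x
    have hm : Measurable fun q : EuclideanSpace ℝ I × EuclideanSpace ℝ I × EuclideanSpace ℝ J =>
        zG f t a s σ' σ Q x q.1 (f ((a • x + s • q.1) + σ' • q.2.1) + √t • q.2.2) := by
      have hm0 : Measurable fun q : EuclideanSpace ℝ I × EuclideanSpace ℝ I × EuclideanSpace ℝ J =>
        ((x, q) : EuclideanSpace ℝ I × EuclideanSpace ℝ I × EuclideanSpace ℝ I ×
          EuclideanSpace ℝ J) := measurable_const.prodMk measurable_id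
      have h := hfull.comp hm0
      simp only [Function.comp_def] at h
      exact h
    rw [lintegral_prod _ hm.aemeasurable]
    have hz : ∀ z : EuclideanSpace ℝ I, ∫⁻ q : EuclideanSpace ℝ I × EuclideanSpace ℝ J,
        zG f t a s σ' σ Q x z (f ((a • x + s • z) + σ' • q.1) + √t • q.2)
        ∂((stdGaussian (EuclideanSpace ℝ I)).prod (stdGaussian (EuclideanSpace ℝ J))) =
        ∫⁻ g, ∫⁻ l, zG f t a s σ' σ Q x z (f ((a • x + s • z) + σ' • g) + √t • l)
      ∂(stdGaussian (EuclideanSpace ℝ J)) ∂(stdGaussian (EuclideanSpace ℝ I)) := by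
      intro z
      have hm2 : Measurable fun q : EuclideanSpace ℝ I × EuclideanSpace ℝ J =>
          zG f t a s σ' σ Q x z (f ((a • x + s • z) + σ' • q.1) + √t • q.2) := by
        have hm0 : Measurable fun q : EuclideanSpace ℝ I × EuclideanSpace ℝ J =>
          ((z, q) : EuclideanSpace ℝ I × EuclideanSpace ℝ I × EuclideanSpace ℝ J) :=
          measurable_const.prodMk measurable_id
        have h := hm.comp hm0
        simp only [Function.comp_def] at h
        exact h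
      rw [lintegral_prod _ hm2.aemeasurable]
    rw [lintegral_congr hz]
    exact z_int_aux797 f hf t a s σ' σ ht Q hQ x
  rw [lintegral_congr hx, lintegral_const, measure_univ, mul_one]

/-- exponential moment in the Z step -/
theorem z_exp {I J : Type} [Fintype I] [Fintype J]
    (f : EuclideanSpace ℝ I → EuclideanSpace ℝ J) (hf : Continuous f) (t a s σ' σ : ℝ) (ht : 0 < t)
    (Q : EuclideanSpace ℝ I × EuclideanSpace ℝ J → EuclideanSpace ℝ I) (hQ : Measurable Q) :
    ∫⁻ w, ENNReal.ofReal (Real.exp (⟪w.2.1, Q (w.1, zob f t a s σ' w)⟫ -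
        ‖Q (w.1, zob f t a s σ' w)‖ ^ 2 / 2 + Real.log (Kd f t σ (a • w.1) (zob f t a s σ' w)) -
        Real.log (Kd f t σ' (a • w.1 + s • w.2.1) (zob f t a s σ' w)))) ∂(gam4 I J) = 1 := by
  have h := z_full f hf t a s σ' σ ht Q hQ
  simp only [zG] at h
  simp only [zob]
  exact h

end

section

theorem zob_cont {I J : Type} [Fintype I] [Fintype J]
    (f : EuclideanSpace ℝ I → EuclideanSpace ℝ J) (hf : Continuous f) (t a s σ' : ℝ) :
    Continuous (zob f t a s σ') := by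
  unfold zob
  fun_prop

theorem zob_norm {I J : Type} [Fintype I] [Fintype J]
    (f : EuclideanSpace ℝ I → EuclideanSpace ℝ J) (B : ℝ)
    (hB : ∀ x, ‖f x‖ ≤ B) (t a s σ' : ℝ)
    (w : EuclideanSpace ℝ I × EuclideanSpace ℝ I × EuclideanSpace ℝ I × EuclideanSpace ℝ J) :
    ‖zob f t a s σ' w‖ ≤ B + √t * ‖w.2.2.2‖ := by
  unfold zob
  refine (norm_add_le _ _).trans (add_le_add (hB _) ?_)
  rw [norm_smul, Real.norm_of_nonneg (Real.sqrt_nonneg t)]

theorem gam4_ints (I J : Type) [Fintype I] [Fintype J] :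
    Integrable (fun w : EuclideanSpace ℝ I × EuclideanSpace ℝ I × EuclideanSpace ℝ I ×
      EuclideanSpace ℝ J => ‖w.2.2.2‖ ^ 2) (gam4 I J) ∧
    Integrable (fun w : EuclideanSpace ℝ I × EuclideanSpace ℝ I × EuclideanSpace ℝ I ×
      EuclideanSpace ℝ J => ‖w.2.1‖) (gam4 I J) ∧
    Integrable (fun w : EuclideanSpace ℝ I × EuclideanSpace ℝ I × EuclideanSpace ℝ I ×
      EuclideanSpace ℝ J => ‖w.2.1‖ * ‖w.2.2.2‖) (gam4 I J) := by
  classical
  have hI1 := (moments (I := I) (J := I)).1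
  have hJ1 := (moments (I := J) (J := J)).1
  have hJ2 := (moments (I := J) (J := J)).2.1
  unfold gam4
  refine ⟨?_, ?_, ?_⟩
  · exact ((hJ2.comp_snd _).comp_snd _).comp_snd _
  · exact (hI1.comp_fst _).comp_snd _
  · exact (hI1.mul_prod (hJ1.comp_snd (stdGaussian (EuclideanSpace ℝ I)))).comp_snd
      (stdGaussian (EuclideanSpace ℝ I))

/-- integrability in the Z step -/
theorem z_int {I J : Type} [Fintype I] [Fintype J]
    (f : EuclideanSpace ℝ I → EuclideanSpace ℝ J) (hf : Continuous f) (B : ℝ)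
    (hB : ∀ x, ‖f x‖ ≤ B) (t a s σ' σ : ℝ) (ht : 0 < t)
    (Q : EuclideanSpace ℝ I × EuclideanSpace ℝ J → EuclideanSpace ℝ I) (hQ : Measurable Q)
    (C : ℝ) (hC : ∀ p, ‖Q p‖ ≤ C * (1 + ‖p.2‖)) :
    Integrable (fun w => ⟪w.2.1, Q (w.1, zob f t a s σ' w)⟫) (gam4 I J) ∧
    Integrable (fun w => ‖Q (w.1, zob f t a s σ' w)‖ ^ 2) (gam4 I J) ∧
    Integrable (fun w => Real.log (Kd f t σ (a • w.1) (zob f t a s σ' w))) (gam4 I J) ∧
    Integrable (fun w => Real.log (Kd f t σ' (a • w.1 + s • w.2.1) (zob f t a s σ' w)))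
      (gam4 I J) := by
  obtain ⟨il2, iz, izl⟩ := gam4_ints I J
  have hB0 : 0 ≤ B := (norm_nonneg _).trans (hB 0)
  have hC0 : 0 ≤ C := by
    have h1 := (norm_nonneg _).trans (hC (0, 0))
    simpa using h1
  have hst := Real.sqrt_nonneg t
  have hsq : √t ^ 2 = t := Real.sq_sqrt ht.le
  have hzc := zob_cont f hf t a s σ'
  have hzn := zob_norm f B hB t a s σ'
  have hzm : Measurable (zob f t a s σ') := hzc.measurable
  have hQm : Measurable (fun w : EuclideanSpace ℝ I × EuclideanSpace ℝ I × EuclideanSpace ℝ I ×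
      EuclideanSpace ℝ J => Q (w.1, zob f t a s σ' w)) := hQ.comp (measurable_fst.prodMk hzm)
  have hQn : ∀ w, ‖Q (w.1, zob f t a s σ' w)‖ ≤ C * (1 + B + √t * ‖w.2.2.2‖) := by
    intro w
    refine (hC _).trans (mul_le_mul_of_nonneg_left ?_ hC0)
    have := hzn w
    show 1 + ‖zob f t a s σ' w‖ ≤ _
    linarith
  obtain ⟨C', hC'0, hC'⟩ := Kd_log f hf B hB t ht
  have hlog : ∀ (τ : ℝ) (X : EuclideanSpace ℝ I) w,
      ‖Real.log (Kd f t τ X (zob f t a s σ' w))‖ ≤
        C' * (1 + 2 * B ^ 2) + C' * (2 * t) * ‖w.2.2.2‖ ^ 2 := by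
    intro τ X w
    rw [Real.norm_eq_abs]
    refine (hC' τ X _).trans ?_
    have h1 := hzn w
    have h2 : ‖zob f t a s σ' w‖ ^ 2 ≤ (B + √t * ‖w.2.2.2‖) ^ 2 :=
      pow_le_pow_left₀ (norm_nonneg _) h1 2
    have h3 : (B + √t * ‖w.2.2.2‖) ^ 2 ≤ 2 * B ^ 2 + 2 * t * ‖w.2.2.2‖ ^ 2 := by
      have h4 : (√t * ‖w.2.2.2‖) ^ 2 = t * ‖w.2.2.2‖ ^ 2 := by rw [mul_pow, hsq]
      nlinarith [sq_nonneg (B - √t * ‖w.2.2.2‖)]
    have h5 : C' * (1 + ‖zob f t a s σ' w‖ ^ 2) ≤
        C' * (1 + (2 * B ^ 2 + 2 * t * ‖w.2.2.2‖ ^ 2)) :=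
      mul_le_mul_of_nonneg_left (by linarith) hC'0
    refine h5.trans (le_of_eq (by ring))
  have hlogint : Integrable (fun w : EuclideanSpace ℝ I × EuclideanSpace ℝ I ×
      EuclideanSpace ℝ I × EuclideanSpace ℝ J =>
        C' * (1 + 2 * B ^ 2) + C' * (2 * t) * ‖w.2.2.2‖ ^ 2) (gam4 I J) :=
    (integrable_const _).add (il2.const_mul _)
  have hx : Measurable (fun w : EuclideanSpace ℝ I × EuclideanSpace ℝ I × EuclideanSpace ℝ I ×
      EuclideanSpace ℝ J => a • w.1) :=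
    (continuous_fst.const_smul a).measurable
  have hx' : Measurable (fun w : EuclideanSpace ℝ I × EuclideanSpace ℝ I × EuclideanSpace ℝ I ×
      EuclideanSpace ℝ J => a • w.1 + s • w.2.1) :=
    ((continuous_fst.const_smul a).add
      ((continuous_fst.comp continuous_snd).const_smul s)).measurable
  refine ⟨?_, ?_, ?_, ?_⟩
  · have hb : Integrable (fun w : EuclideanSpace ℝ I × EuclideanSpace ℝ I ×
        EuclideanSpace ℝ I × EuclideanSpace ℝ J =>
          C * (1 + B) * ‖w.2.1‖ + C * √t * (‖w.2.1‖ * ‖w.2.2.2‖)) (gam4 I J) :=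
      (iz.const_mul _).add (izl.const_mul _)
    refine hb.mono' ?_ (Filter.Eventually.of_forall fun w => ?_)
    · exact (Measurable.inner (measurable_fst.comp measurable_snd) hQm).aestronglyMeasurable
    · refine (norm_inner_le_norm _ _).trans ?_
      have h1 := mul_le_mul_of_nonneg_left (hQn w) (norm_nonneg w.2.1)
      refine h1.trans (le_of_eq (by ring))
  · have hb : Integrable (fun w : EuclideanSpace ℝ I × EuclideanSpace ℝ I ×
        EuclideanSpace ℝ I × EuclideanSpace ℝ J =>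
          2 * C ^ 2 * (1 + B) ^ 2 + 2 * C ^ 2 * t * ‖w.2.2.2‖ ^ 2) (gam4 I J) :=
      (integrable_const _).add (il2.const_mul _)
    refine hb.mono' ?_ (Filter.Eventually.of_forall fun w => ?_)
    · exact (hQm.norm.pow_const 2).aestronglyMeasurable
    · rw [Real.norm_of_nonneg (by positivity)]
      have h1 : ‖Q (w.1, zob f t a s σ' w)‖ ^ 2 ≤ (C * (1 + B + √t * ‖w.2.2.2‖)) ^ 2 :=
        pow_le_pow_left₀ (norm_nonneg _) (hQn w) 2
      refine h1.trans ?_
      have h4 : (√t * ‖w.2.2.2‖) ^ 2 = t * ‖w.2.2.2‖ ^ 2 := by rw [mul_pow, hsq]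
      have h5 : (1 + B + √t * ‖w.2.2.2‖) ^ 2 ≤ 2 * (1 + B) ^ 2 + 2 * (t * ‖w.2.2.2‖ ^ 2) := by
        rw [← h4]
        nlinarith [sq_nonneg ((1 + B) - √t * ‖w.2.2.2‖)]
      calc (C * (1 + B + √t * ‖w.2.2.2‖)) ^ 2 = C ^ 2 * (1 + B + √t * ‖w.2.2.2‖) ^ 2 := by ring
        _ ≤ C ^ 2 * (2 * (1 + B) ^ 2 + 2 * (t * ‖w.2.2.2‖ ^ 2)) :=
          mul_le_mul_of_nonneg_left h5 (sq_nonneg C)
        _ = _ := by ring
  · refine hlogint.mono' ?_ (Filter.Eventually.of_forall fun w => hlog σ (a • w.1) w)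
    exact (((Kd_basic f hf t σ ht).1.comp (hx.prodMk hzm)).log).aestronglyMeasurable
  · refine hlogint.mono' ?_ (Filter.Eventually.of_forall fun w => hlog σ' (a • w.1 + s • w.2.1) w)
    exact (((Kd_basic f hf t σ' ht).1.comp (hx'.prodMk hzm)).log).aestronglyMeasurable

end

section

theorem z_merge_m1 {I J : Type} [Fintype I] [Fintype J]
    (f : EuclideanSpace ℝ I → EuclideanSpace ℝ J) (hf : Continuous f) (t a σ : ℝ) (ht : 0 < t) :
    Measurable (fun z : EuclideanSpace ℝ I × EuclideanSpace ℝ I × EuclideanSpace ℝ J =>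
      Real.log (Kd f t σ (a • z.1) (f (a • z.1 + z.2.1) + √t • z.2.2))) := by
  have h1 : Continuous (fun z : EuclideanSpace ℝ I × EuclideanSpace ℝ I × EuclideanSpace ℝ J =>
      ((a • z.1, f (a • z.1 + z.2.1) + √t • z.2.2) : EuclideanSpace ℝ I × EuclideanSpace ℝ J)) := by
    fun_prop
  have h2 := (Kd_basic f hf t σ ht).1.comp h1.measurable
  exact Real.measurable_log.comp h2

theorem z_merge_m2 {I J : Type} [Fintype I] [Fintype J]
    (f : EuclideanSpace ℝ I → EuclideanSpace ℝ J) (hf : Continuous f) (t σ : ℝ) (ht : 0 < t) :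
    Measurable (fun z : EuclideanSpace ℝ I × EuclideanSpace ℝ I × EuclideanSpace ℝ J =>
      Real.log (Kd f t σ z.1 (f (z.1 + σ • z.2.1) + √t • z.2.2))) := by
  have h1 : Continuous (fun z : EuclideanSpace ℝ I × EuclideanSpace ℝ I × EuclideanSpace ℝ J =>
      ((z.1, f (z.1 + σ • z.2.1) + √t • z.2.2) : EuclideanSpace ℝ I × EuclideanSpace ℝ J)) := by
    fun_prop
  have h2 := (Kd_basic f hf t σ ht).1.comp h1.measurable
  exact Real.measurable_log.comp h2

theorem z_merge_1 {I J : Type} [Fintype I] [Fintype J]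
    (f : EuclideanSpace ℝ I → EuclideanSpace ℝ J) (hf : Continuous f) (t a s σ' σ : ℝ)
    (ht : 0 < t) (h1 : σ ^ 2 = s ^ 2 + σ' ^ 2) :
    (∫ w, Real.log (Kd f t σ (a • w.1) (zob f t a s σ' w)) ∂(gam4 I J) = Phi f t a σ) := by
  have hH := z_merge_m1 f hf t a σ ht
  have hT : Continuous (fun w : EuclideanSpace ℝ I × EuclideanSpace ℝ I × EuclideanSpace ℝ I ×
      EuclideanSpace ℝ J => (w.1, s • w.2.1 + σ' • w.2.2.1, w.2.2.2)) := by fun_prop
  have hT' : Continuous (fun z : EuclideanSpace ℝ I × EuclideanSpace ℝ I × EuclideanSpace ℝ J =>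
      (z.1, σ • z.2.1, z.2.2)) := by fun_prop
  have e1 := integral_map (μ := gam4 I J) hT.measurable.aemeasurable
    (hH.aestronglyMeasurable)
  have e2 := integral_map (μ := gam3 I J) hT'.measurable.aemeasurable
    (hH.aestronglyMeasurable)
  rw [merge34 I J s σ' σ h1] at e1
  rw [e2] at e1
  have e3 : (∫ w, Real.log (Kd f t σ (a • w.1) (zob f t a s σ' w)) ∂(gam4 I J))
      = ∫ w, Real.log (Kd f t σ (a • w.1) (f (a • w.1 + (s • w.2.1 + σ' • w.2.2.1)) +
        √t • w.2.2.2)) ∂(gam4 I J) := by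
    congr 1
    funext w
    unfold zob
    rw [add_assoc (a • w.1)]
  rw [e3]
  exact e1.symm

theorem z_merge_2 {I J : Type} [Fintype I] [Fintype J]
    (f : EuclideanSpace ℝ I → EuclideanSpace ℝ J) (hf : Continuous f) (t a s σ' a' : ℝ)
    (ht : 0 < t) (h2 : a' ^ 2 = a ^ 2 + s ^ 2) :
    (∫ w, Real.log (Kd f t σ' (a • w.1 + s • w.2.1) (zob f t a s σ' w)) ∂(gam4 I J) =
      Phi f t a' σ') := by
  have hH := z_merge_m2 f hf t σ' ht
  have hT : Continuous (fun w : EuclideanSpace ℝ I × EuclideanSpace ℝ I × EuclideanSpace ℝ I ×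
      EuclideanSpace ℝ J => (a • w.1 + s • w.2.1, w.2.2.1, w.2.2.2)) := by fun_prop
  have hT' : Continuous (fun z : EuclideanSpace ℝ I × EuclideanSpace ℝ I × EuclideanSpace ℝ J =>
      (a' • z.1, z.2.1, z.2.2)) := by fun_prop
  have e1 := integral_map (μ := gam4 I J) hT.measurable.aemeasurable
    (hH.aestronglyMeasurable)
  have e2 := integral_map (μ := gam3 I J) hT'.measurable.aemeasurable
    (hH.aestronglyMeasurable)
  rw [merge12 I J a s a' h2] at e1
  rw [e2] at e1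
  exact e1.symm

theorem z_merge {I J : Type} [Fintype I] [Fintype J]
    (f : EuclideanSpace ℝ I → EuclideanSpace ℝ J) (hf : Continuous f) (t a s σ' σ a' : ℝ)
    (ht : 0 < t) (h1 : σ ^ 2 = s ^ 2 + σ' ^ 2) (h2 : a' ^ 2 = a ^ 2 + s ^ 2) :
    (∫ w, Real.log (Kd f t σ (a • w.1) (zob f t a s σ' w)) ∂(gam4 I J) = Phi f t a σ) ∧
    (∫ w, Real.log (Kd f t σ' (a • w.1 + s • w.2.1) (zob f t a s σ' w)) ∂(gam4 I J) =
      Phi f t a' σ') :=
  ⟨z_merge_1 f hf t a s σ' σ ht h1, z_merge_2 f hf t a s σ' a' ht h2⟩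

end

section

theorem z_step_aux {Ω : Type} [MeasurableSpace Ω] (μ : Measure Ω) (A B C D : Ω → ℝ)
    (hA : Integrable A μ) (hB : Integrable B μ) (hC : Integrable C μ) (hD : Integrable D μ) :
    ∫ ω, (A ω - B ω / 2 + C ω - D ω) ∂μ = ∫ ω, A ω ∂μ - (∫ ω, B ω ∂μ) / 2 + ∫ ω, C ω ∂μ -
      ∫ ω, D ω ∂μ := by
  have hB' : Integrable (fun ω => B ω / 2) μ := hB.div_const 2
  have h1 : Integrable (fun ω => A ω - B ω / 2) μ := hA.sub hB'
  have h2 : Integrable (fun ω => A ω - B ω / 2 + C ω) μ := h1.add hC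
  rw [integral_sub h2 hD, integral_add h1 hC, integral_sub hA hB', integral_div]

theorem z_step_aux2 {Ω : Type} [MeasurableSpace Ω] (μ : Measure Ω) (A B : Ω → ℝ)
    (hA : Integrable A μ) (hB : Integrable B μ) :
    ∫ ω, (2 * A ω - B ω) ∂μ = 2 * ∫ ω, A ω ∂μ - ∫ ω, B ω ∂μ := by
  have h1 : Integrable (fun ω => 2 * A ω) μ := hA.const_mul 2
  rw [integral_sub h1 hB, integral_const_mul]

/-- the Z step -/
theorem z_step {I J : Type} [Fintype I] [Fintype J]
    (f : EuclideanSpace ℝ I → EuclideanSpace ℝ J) (hf : Continuous f) (B : ℝ)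
    (hB : ∀ x, ‖f x‖ ≤ B) (t a s σ' σ a' : ℝ) (ht : 0 < t)
    (h1 : σ ^ 2 = s ^ 2 + σ' ^ 2) (h2 : a' ^ 2 = a ^ 2 + s ^ 2)
    (Q : EuclideanSpace ℝ I × EuclideanSpace ℝ J → EuclideanSpace ℝ I) (hQ : Measurable Q)
    (C : ℝ) (hC : ∀ p, ‖Q p‖ ≤ C * (1 + ‖p.2‖)) :
    ∫ w, (2 * ⟪w.2.1, Q (w.1, zob f t a s σ' w)⟫ - ‖Q (w.1, zob f t a s σ' w)‖ ^ 2) ∂(gam4 I J) ≤
      2 * (Phi f t a' σ' - Phi f t a σ) := by
  obtain ⟨i1, i2, i3, i4⟩ := z_int f hf B hB t a s σ' σ ht Q hQ C hC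
  obtain ⟨m1, m2⟩ := z_merge f hf t a s σ' σ a' ht h1 h2
  have e := z_exp f hf t a s σ' σ ht Q hQ
  have i2' := i2.div_const 2
  have hL := gibbs (gam4 I J) (fun w => ⟪w.2.1, Q (w.1, zob f t a s σ' w)⟫ -
        ‖Q (w.1, zob f t a s σ' w)‖ ^ 2 / 2 + Real.log (Kd f t σ (a • w.1) (zob f t a s σ' w)) -
        Real.log (Kd f t σ' (a • w.1 + s • w.2.1) (zob f t a s σ' w)))
        (((i1.sub i2').add i3).sub i4) e.le
  have hL2 := (z_step_aux (gam4 I J) _ _ _ _ i1 i2 i3 i4).symm.trans_le hL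
  rw [m1, m2] at hL2
  have h3 := z_step_aux2 (gam4 I J) _ _ i1 i2
  rw [h3]
  linarith

end

section

/-- monotonicity of `Phi` -/
theorem Phi_mono {I J : Type} [Fintype I] [Fintype J]
    (f : EuclideanSpace ℝ I → EuclideanSpace ℝ J) (hf : Continuous f) (B : ℝ)
    (hB : ∀ x, ‖f x‖ ≤ B) (t a σ' σ a' : ℝ) (ht : 0 < t) (h0 : 0 ≤ σ') (h1 : σ' ≤ σ)
    (h2 : a ^ 2 + σ ^ 2 = 1) (h3 : a' ^ 2 + σ' ^ 2 = 1) :
    Phi f t a σ ≤ Phi f t a' σ' := by
  have hs : (√(σ ^ 2 - σ' ^ 2)) ^ 2 = σ ^ 2 - σ' ^ 2 := by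
    apply Real.sq_sqrt
    nlinarith
  have h := z_step f hf B hB t a (√(σ ^ 2 - σ' ^ 2)) σ' σ a' ht (by rw [hs]; ring)
    (by rw [hs]; linarith) (fun _ => 0) measurable_const 0 (by intro p; simp)
  simp only [inner_zero_right, mul_zero, norm_zero, ne_eq, OfNat.ofNat_ne_zero, not_false_eq_true,
    zero_pow, sub_zero, integral_zero] at h
  linarith

end

section

/-- `Phi` at `σ = 0` -/
theorem Phi_zero {I J : Type} [Fintype I] [Fintype J]
    (f : EuclideanSpace ℝ I → EuclideanSpace ℝ J) (hf : Continuous f) (t : ℝ) (ht : 0 < t) :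
    Phi f t 1 0 = -((Fintype.card J : ℝ) / 2) * (Real.log (2 * Real.pi * t) + 1) := by
  classical
  obtain ⟨-, -, -, -, hlog⟩ := gk_basic (J := J) t ht
  obtain ⟨-, hint, hsq, -, -⟩ := moments (I := J) (J := J)
  have h1 : ∀ z : EuclideanSpace ℝ I × EuclideanSpace ℝ I × EuclideanSpace ℝ J,
      Real.log (Kd f t 0 ((1 : ℝ) • z.1) (f ((1 : ℝ) • z.1 + (0 : ℝ) • z.2.1) + √t • z.2.2)) =
      -((Fintype.card J : ℝ) / 2) * Real.log (2 * Real.pi * t) - (1 / 2) * ‖z.2.2‖ ^ 2 := by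
    intro z
    have h2 : Kd f t 0 ((1 : ℝ) • z.1) (f ((1 : ℝ) • z.1 + (0 : ℝ) • z.2.1) + √t • z.2.2) =
        gk t (√t • z.2.2) := by
      unfold Kd
      simp
    rw [h2, hlog, norm_smul, mul_pow, Real.norm_eq_abs, sq_abs, Real.sq_sqrt ht.le]
    field_simp
  unfold Phi
  simp only [h1]
  have hint3 : Integrable (fun z : EuclideanSpace ℝ I × EuclideanSpace ℝ I × EuclideanSpace ℝ J =>
      (1 / 2 : ℝ) * ‖z.2.2‖ ^ 2) (gam3 I J) := by
    apply Integrable.const_mul
    unfold gam3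
    have h4 : Integrable (fun w : EuclideanSpace ℝ I × EuclideanSpace ℝ J => ‖w.2‖ ^ 2)
        ((stdGaussian (EuclideanSpace ℝ I)).prod (stdGaussian (EuclideanSpace ℝ J))) :=
      hint.comp_snd _
    exact h4.comp_snd _
  rw [integral_sub (integrable_const _) hint3, integral_const_mul, integral_const_mul]
  have h5 : ∫ z : EuclideanSpace ℝ I × EuclideanSpace ℝ I × EuclideanSpace ℝ J,
      ‖z.2.2‖ ^ 2 ∂(gam3 I J) = Fintype.card J := by
    unfold gam3
    rw [integral_fun_snd (fun w : EuclideanSpace ℝ I × EuclideanSpace ℝ J => ‖w.2‖ ^ 2),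
      integral_fun_snd (fun w : EuclideanSpace ℝ J => ‖w‖ ^ 2), hsq]
    simp
  rw [h5]
  simp
  ring

end

section

/-- elementary properties of `Rd` -/
theorem Rd_basic {I J : Type} [Fintype I] [Fintype J]
    (f : EuclideanSpace ℝ I → EuclideanSpace ℝ J) (hf : Continuous f) (v : ℝ) (hv : 0 < v) :
    Measurable (Rd f v) ∧ (∀ y, 0 < Rd f v y) ∧
    (∀ y, Rd f v y ≤ (2 * Real.pi * v) ^ (-(Fintype.card I : ℝ) / 2) *
      (2 * Real.pi * v) ^ (-(Fintype.card J : ℝ) / 2)) := by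
  obtain ⟨hcI, hpI, hbI, -, -⟩ := gk_basic (J := I) v hv
  obtain ⟨hcJ, hpJ, hbJ, -, -⟩ := gk_basic (J := J) v hv
  have hcont : Continuous (fun p : (EuclideanSpace ℝ I × EuclideanSpace ℝ J) × EuclideanSpace ℝ I =>
      gk v (p.1.1 - p.2) * gk v (p.1.2 - f p.2)) := by
    refine (hcI.comp (by fun_prop)).mul (hcJ.comp ?_)
    exact (continuous_snd.comp continuous_fst).sub (hf.comp continuous_snd)
  have hcy : ∀ y : EuclideanSpace ℝ I × EuclideanSpace ℝ J,
      Continuous (fun x => gk v (y.1 - x) * gk v (y.2 - f x)) := fun y =>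
    (hcI.comp (continuous_const.sub continuous_id)).mul (hcJ.comp (continuous_const.sub hf))
  have hpos : ∀ (y : EuclideanSpace ℝ I × EuclideanSpace ℝ J) x,
      0 < gk v (y.1 - x) * gk v (y.2 - f x) := fun y x => mul_pos (hpI _) (hpJ _)
  have hbd : ∀ (y : EuclideanSpace ℝ I × EuclideanSpace ℝ J) x,
      gk v (y.1 - x) * gk v (y.2 - f x) ≤ (2 * Real.pi * v) ^ (-(Fintype.card I : ℝ) / 2) *
      (2 * Real.pi * v) ^ (-(Fintype.card J : ℝ) / 2) := fun y x =>
    mul_le_mul (hbI _) (hbJ _) (hpJ _).le (by positivity)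
  have hint : ∀ y : EuclideanSpace ℝ I × EuclideanSpace ℝ J,
      Integrable (fun x => gk v (y.1 - x) * gk v (y.2 - f x)) (stdGaussian (EuclideanSpace ℝ I)) := by
    intro y
    refine Integrable.of_bound (hcy y).aestronglyMeasurable
      ((2 * Real.pi * v) ^ (-(Fintype.card I : ℝ) / 2) *
      (2 * Real.pi * v) ^ (-(Fintype.card J : ℝ) / 2)) (Filter.Eventually.of_forall fun x => ?_)
    rw [Real.norm_eq_abs, abs_of_pos (hpos y x)]
    exact hbd y x
  refine ⟨?_, ?_, ?_⟩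
  · have h := (show StronglyMeasurable (Function.uncurry fun (y : EuclideanSpace ℝ I × EuclideanSpace ℝ J) (x : EuclideanSpace ℝ I) => gk v (y.1 - x) * gk v (y.2 - f x)) from hcont.stronglyMeasurable).integral_prod_right (ν := stdGaussian (EuclideanSpace ℝ I))
    exact h.measurable
  · intro y
    unfold Rd
    rw [integral_pos_iff_support_of_nonneg (fun x => (hpos y x).le) (hint y)]
    have : Function.support (fun x => gk v (y.1 - x) * gk v (y.2 - f x)) = Set.univ := by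
      ext x
      simp only [Function.mem_support, Set.mem_univ, iff_true]
      exact (hpos y x).ne'
    rw [this]
    simp
  · intro y
    unfold Rd
    calc ∫ x, gk v (y.1 - x) * gk v (y.2 - f x) ∂(stdGaussian (EuclideanSpace ℝ I))
        ≤ ∫ x, (2 * Real.pi * v) ^ (-(Fintype.card I : ℝ) / 2) *
          (2 * Real.pi * v) ^ (-(Fintype.card J : ℝ) / 2) ∂(stdGaussian (EuclideanSpace ℝ I)) :=
          integral_mono (hint y) (integrable_const _) (fun x => hbd y x)
      _ = _ := by simp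

end

section

theorem Rd_log_ball {E : Type} [NormedAddCommGroup E] [MeasurableSpace E] [BorelSpace E]
    (μ : Measure E) [IsProbabilityMeasure μ] :
    ∃ R : ℝ, 0 ≤ R ∧ (1 / 2 : ℝ) ≤ μ.real (Metric.closedBall 0 R) := by
  have h1 : Filter.Tendsto (fun n : ℕ => μ (Metric.closedBall 0 (n : ℝ))) Filter.atTop
      (𝓝 (μ (⋃ n : ℕ, Metric.closedBall 0 (n : ℝ)))) := by
    apply tendsto_measure_iUnion_atTop
    intro m n hmn
    exact Metric.closedBall_subset_closedBall (by exact_mod_cast hmn)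
  rw [Metric.iUnion_closedBall_nat, measure_univ] at h1
  have h2 : ∀ᶠ n : ℕ in Filter.atTop, (1 / 2 : ENNReal) < μ (Metric.closedBall 0 (n : ℝ)) :=
    h1.eventually (lt_mem_nhds (by
      rw [one_div]
      exact ENNReal.inv_lt_one.2 (by norm_num)))
  obtain ⟨n, hn⟩ := h2.exists
  refine ⟨n, Nat.cast_nonneg n, ?_⟩
  have h3 : (1 / 2 : ENNReal).toReal ≤ μ.real (Metric.closedBall 0 (n : ℝ)) :=
    ENNReal.toReal_mono (measure_ne_top _ _) hn.le
  simpa using h3

theorem Rd_log_gk {J : Type} [Fintype J] (v : ℝ) (hv : 0 < v) (y z : EuclideanSpace ℝ J) (R : ℝ)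
    (hz : ‖z‖ ≤ R) :
    (2 * Real.pi * v) ^ (-(Fintype.card J : ℝ) / 2) * Real.exp (-(‖y‖ ^ 2 + R ^ 2) / v) ≤
      gk v (y - z) := by
  unfold gk
  have h0 : 0 < (2 * Real.pi * v) ^ (-(Fintype.card J : ℝ) / 2) := by positivity
  apply mul_le_mul_of_nonneg_left _ h0.le
  rw [Real.exp_le_exp]
  have h1 : ‖y - z‖ ≤ ‖y‖ + R := (norm_sub_le _ _).trans (by linarith)
  have h2 : ‖y - z‖ ^ 2 ≤ (‖y‖ + R) ^ 2 := pow_le_pow_left₀ (norm_nonneg _) h1 2
  have h3 : ‖y - z‖ ^ 2 ≤ 2 * (‖y‖ ^ 2 + R ^ 2) := by nlinarith [sq_nonneg (‖y‖ - R)]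
  rw [div_le_div_iff₀ hv (by positivity)]
  nlinarith

/-- growth of `log Rd` -/
theorem Rd_log {I J : Type} [Fintype I] [Fintype J]
    (f : EuclideanSpace ℝ I → EuclideanSpace ℝ J) (hf : Continuous f) (B : ℝ)
    (hB : ∀ x, ‖f x‖ ≤ B) (v : ℝ) (hv : 0 < v) :
    ∃ C : ℝ, 0 ≤ C ∧ ∀ y, |Real.log (Rd f v y)| ≤ C * (1 + ‖y.1‖ ^ 2 + ‖y.2‖ ^ 2) := by
  obtain ⟨R, hR0, hR⟩ := Rd_log_ball (stdGaussian (EuclideanSpace ℝ I))
  obtain ⟨-, hpos, hup⟩ := Rd_basic f hf v hv
  obtain ⟨cI, hcI⟩ : ∃ c : ℝ, c = (2 * Real.pi * v) ^ (-(Fintype.card I : ℝ) / 2) := ⟨_, rfl⟩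
  obtain ⟨cJ, hcJ⟩ : ∃ c : ℝ, c = (2 * Real.pi * v) ^ (-(Fintype.card J : ℝ) / 2) := ⟨_, rfl⟩
  have hcI0 : 0 < cI := by rw [hcI]; positivity
  have hcJ0 : 0 < cJ := by rw [hcJ]; positivity
  rw [← hcI, ← hcJ] at hup
  have hlow : ∀ y : EuclideanSpace ℝ I × EuclideanSpace ℝ J,
      cI * cJ / 2 * Real.exp (-(‖y.1‖ ^ 2 + ‖y.2‖ ^ 2 + R ^ 2 + B ^ 2) / v) ≤ Rd f v y := by
    intro y
    obtain ⟨gc1, gp1, gb1, -, -⟩ := gk_basic (J := I) v hv
    obtain ⟨gc2, gp2, gb2, -, -⟩ := gk_basic (J := J) v hv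
    rw [← hcI] at gb1
    rw [← hcJ] at gb2
    have hcont : Continuous (fun x : EuclideanSpace ℝ I => gk v (y.1 - x) * gk v (y.2 - f x)) :=
      (gc1.comp (continuous_const.sub continuous_id)).mul (gc2.comp (continuous_const.sub hf))
    have hint : Integrable (fun x : EuclideanSpace ℝ I => gk v (y.1 - x) * gk v (y.2 - f x))
        (stdGaussian (EuclideanSpace ℝ I)) := by
      refine (integrable_const (cI * cJ)).mono' hcont.aestronglyMeasurable
        (Filter.Eventually.of_forall (fun x => ?_))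
      rw [Real.norm_eq_abs, abs_of_pos (mul_pos (gp1 _) (gp2 _))]
      exact mul_le_mul (gb1 _) (gb2 _) (gp2 _).le hcI0.le
    obtain ⟨L, hL⟩ : ∃ L : ℝ, L = cI * Real.exp (-(‖y.1‖ ^ 2 + R ^ 2) / v) *
      (cJ * Real.exp (-(‖y.2‖ ^ 2 + B ^ 2) / v)) := ⟨_, rfl⟩
    have hL0 : 0 < L := by rw [hL]; positivity
    have hLe : L = cI * cJ * Real.exp (-(‖y.1‖ ^ 2 + ‖y.2‖ ^ 2 + R ^ 2 + B ^ 2) / v) := by
      rw [hL]
      have : -(‖y.1‖ ^ 2 + ‖y.2‖ ^ 2 + R ^ 2 + B ^ 2) / v =
          -(‖y.1‖ ^ 2 + R ^ 2) / v + -(‖y.2‖ ^ 2 + B ^ 2) / v := by ring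
      rw [this, Real.exp_add]
      ring
    have h1 : (stdGaussian (EuclideanSpace ℝ I)).real (Metric.closedBall 0 R) * L ≤ Rd f v y := by
      calc (stdGaussian (EuclideanSpace ℝ I)).real (Metric.closedBall 0 R) * L
          = ∫ x in Metric.closedBall 0 R, L ∂(stdGaussian (EuclideanSpace ℝ I)) := by
            rw [setIntegral_const, smul_eq_mul]
        _ ≤ ∫ x in Metric.closedBall 0 R, gk v (y.1 - x) * gk v (y.2 - f x)
              ∂(stdGaussian (EuclideanSpace ℝ I)) := by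
            apply setIntegral_mono_on (integrableOn_const (measure_ne_top _ _)) hint.integrableOn
              Metric.isClosed_closedBall.measurableSet
            intro x hx
            rw [mem_closedBall_zero_iff] at hx
            rw [hL, hcI, hcJ]
            have g1 := Rd_log_gk v hv y.1 x R hx
            have g2 := Rd_log_gk v hv y.2 (f x) B (hB x)
            exact mul_le_mul g1 g2 (by positivity) (gp1 _).le
        _ ≤ Rd f v y := setIntegral_le_integral hint
            (Filter.Eventually.of_forall (fun x => (mul_pos (gp1 _) (gp2 _)).le))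
    calc cI * cJ / 2 * Real.exp (-(‖y.1‖ ^ 2 + ‖y.2‖ ^ 2 + R ^ 2 + B ^ 2) / v) = 1 / 2 * L := by
          rw [hLe]
          ring
      _ ≤ (stdGaussian (EuclideanSpace ℝ I)).real (Metric.closedBall 0 R) * L :=
          mul_le_mul_of_nonneg_right hR hL0.le
      _ ≤ _ := h1
  refine ⟨|Real.log (cI * cJ)| + |Real.log (cI * cJ / 2)| + (1 + R ^ 2 + B ^ 2) / v, by positivity,
    fun y => ?_⟩
  have hN : 0 ≤ ‖y.1‖ ^ 2 + ‖y.2‖ ^ 2 := by positivity
  have hu : Real.log (Rd f v y) ≤ Real.log (cI * cJ) := Real.log_le_log (hpos y) (hup y)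
  have hl : Real.log (cI * cJ / 2) + -(‖y.1‖ ^ 2 + ‖y.2‖ ^ 2 + R ^ 2 + B ^ 2) / v ≤
      Real.log (Rd f v y) := by
    rw [← Real.log_exp (-(‖y.1‖ ^ 2 + ‖y.2‖ ^ 2 + R ^ 2 + B ^ 2) / v),
      ← Real.log_mul (by positivity) (Real.exp_pos _).ne']
    exact Real.log_le_log (by positivity) (hlow y)
  have e1 : (‖y.1‖ ^ 2 + ‖y.2‖ ^ 2 + R ^ 2 + B ^ 2) / v ≤
      (1 + R ^ 2 + B ^ 2) / v * (1 + ‖y.1‖ ^ 2 + ‖y.2‖ ^ 2) := by
    rw [div_mul_eq_mul_div]
    apply div_le_div_of_nonneg_right _ hv.le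
    nlinarith [mul_nonneg (add_nonneg (sq_nonneg R) (sq_nonneg B)) hN]
  have e2 : |Real.log (cI * cJ)| ≤ |Real.log (cI * cJ)| * (1 + ‖y.1‖ ^ 2 + ‖y.2‖ ^ 2) := by
    nlinarith [mul_nonneg (abs_nonneg (Real.log (cI * cJ))) hN]
  have e3 : |Real.log (cI * cJ / 2)| ≤ |Real.log (cI * cJ / 2)| * (1 + ‖y.1‖ ^ 2 + ‖y.2‖ ^ 2) := by
    nlinarith [mul_nonneg (abs_nonneg (Real.log (cI * cJ / 2))) hN]
  have e4 := le_abs_self (Real.log (cI * cJ))
  have e5 := neg_abs_le (Real.log (cI * cJ / 2))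
  have e6 : 0 ≤ (‖y.1‖ ^ 2 + ‖y.2‖ ^ 2 + R ^ 2 + B ^ 2) / v := by positivity
  have e7 : -(‖y.1‖ ^ 2 + ‖y.2‖ ^ 2 + R ^ 2 + B ^ 2) / v =
      -((‖y.1‖ ^ 2 + ‖y.2‖ ^ 2 + R ^ 2 + B ^ 2) / v) := by ring
  rw [e7] at hl
  have e8 := abs_nonneg (Real.log (cI * cJ))
  have e9 := abs_nonneg (Real.log (cI * cJ / 2))
  rw [abs_le]
  constructor <;> linarith

end

section

/-- `Rd` is the density of `obs` -/
theorem Rd_density {I J : Type} [Fintype I] [Fintype J]
    (f : EuclideanSpace ℝ I → EuclideanSpace ℝ J) (hf : Continuous f) (v : ℝ) (hv : 0 < v)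
    (h : EuclideanSpace ℝ I × EuclideanSpace ℝ J → ℝ≥0∞) (hh : Measurable h) :
    ∫⁻ z, h (obs f v z) ∂(gam3 I J) =
      ∫⁻ y : EuclideanSpace ℝ I × EuclideanSpace ℝ J, ENNReal.ofReal (Rd f v y) * h y := by
  obtain ⟨cI, pI, bI, -, -⟩ := gk_basic (J := I) v hv
  obtain ⟨cJ, pJ, bJ, -, -⟩ := gk_basic (J := J) v hv
  have hobs : Measurable (fun z : EuclideanSpace ℝ I × EuclideanSpace ℝ I × EuclideanSpace ℝ J =>
      obs f v z) := by
    have : Continuous (fun z : EuclideanSpace ℝ I × EuclideanSpace ℝ I × EuclideanSpace ℝ J =>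
      obs f v z) := by
      unfold obs
      fun_prop
    exact this.measurable
  -- the kernel integral
  have hker : ∀ y : EuclideanSpace ℝ I × EuclideanSpace ℝ J,
      ENNReal.ofReal (Rd f v y) = ∫⁻ x, ENNReal.ofReal (gk v (y.1 - x)) *
        ENNReal.ofReal (gk v (y.2 - f x)) ∂(stdGaussian (EuclideanSpace ℝ I)) := by
    intro y
    unfold Rd
    rw [ofReal_integral_eq_lintegral_ofReal]
    · refine lintegral_congr fun x => ?_
      rw [ENNReal.ofReal_mul (pI _).le]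
    · refine Integrable.of_bound (C := (2 * Real.pi * v) ^ (-(Fintype.card I : ℝ) / 2) *
        (2 * Real.pi * v) ^ (-(Fintype.card J : ℝ) / 2)) ?_ ?_
      · have : Continuous (fun x => gk v (y.1 - x) * gk v (y.2 - f x)) := by fun_prop
        exact this.aestronglyMeasurable
      · refine Filter.Eventually.of_forall fun x => ?_
        rw [Real.norm_eq_abs, abs_of_nonneg (mul_nonneg (pI _).le (pJ _).le)]
        exact mul_le_mul (bI _) (bJ _) (pJ _).le (by positivity)
    · exact Filter.Eventually.of_forall fun x => mul_nonneg (pI _).le (pJ _).le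
  have hin : ∀ x : EuclideanSpace ℝ I,
      ∫⁻ w, h (obs f v (x, w)) ∂((stdGaussian (EuclideanSpace ℝ I)).prod
        (stdGaussian (EuclideanSpace ℝ J))) =
      ∫⁻ y : EuclideanSpace ℝ I × EuclideanSpace ℝ J, (ENNReal.ofReal (gk v (y.1 - x)) *
        ENNReal.ofReal (gk v (y.2 - f x))) * h y := by
    intro x
    have hm1 : Measurable (fun w : EuclideanSpace ℝ I × EuclideanSpace ℝ J =>
        h (obs f v (x, w))) := by
      exact hh.comp (hobs.comp (measurable_const.prodMk measurable_id))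
    rw [lintegral_prod _ hm1.aemeasurable]
    have hH : Measurable (fun y1 : EuclideanSpace ℝ I =>
        ∫⁻ y2 : EuclideanSpace ℝ J, ENNReal.ofReal (gk v (y2 - f x)) * h (y1, y2)) := by
      have hm2 : Measurable (fun p : EuclideanSpace ℝ I × EuclideanSpace ℝ J =>
          ENNReal.ofReal (gk v (p.2 - f x)) * h p) := by
        have : Continuous (fun p : EuclideanSpace ℝ I × EuclideanSpace ℝ J =>
          gk v (p.2 - f x)) := by fun_prop
        exact this.measurable.ennreal_ofReal.mul hh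
      exact hm2.lintegral_prod_right'
    have e1 : ∀ g1 : EuclideanSpace ℝ I,
        ∫⁻ g2, h (obs f v (x, g1, g2)) ∂(stdGaussian (EuclideanSpace ℝ J)) =
        ∫⁻ y2 : EuclideanSpace ℝ J, ENNReal.ofReal (gk v (y2 - f x)) * h (x + √v • g1, y2) := by
      intro g1
      have := gauss_shift v hv (f x) (fun y2 => h (x + √v • g1, y2))
        (hh.comp (measurable_const.prodMk measurable_id))
      rw [← this]
      rfl
    simp_rw [e1]
    rw [gauss_shift v hv x (fun y1 : EuclideanSpace ℝ I =>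
        ∫⁻ y2 : EuclideanSpace ℝ J, ENNReal.ofReal (gk v (y2 - f x)) * h (y1, y2)) hH]
    rw [Measure.volume_eq_prod, lintegral_prod]
    · refine lintegral_congr fun y1 => ?_
      rw [← lintegral_const_mul]
      · refine lintegral_congr fun y2 => ?_
        rw [mul_assoc]
      · have : Continuous (fun p : EuclideanSpace ℝ J => gk v (p - f x)) := by fun_prop
        exact this.measurable.ennreal_ofReal.mul (hh.comp (measurable_const.prodMk measurable_id))
    · have c1 : Continuous (fun p : EuclideanSpace ℝ I × EuclideanSpace ℝ J =>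
          gk v (p.1 - x)) := by fun_prop
      have c2 : Continuous (fun p : EuclideanSpace ℝ I × EuclideanSpace ℝ J =>
          gk v (p.2 - f x)) := by fun_prop
      exact ((c1.measurable.ennreal_ofReal.mul c2.measurable.ennreal_ofReal).mul hh).aemeasurable
  have hbig : Measurable (fun p : EuclideanSpace ℝ I × (EuclideanSpace ℝ I × EuclideanSpace ℝ J) =>
      (ENNReal.ofReal (gk v (p.2.1 - p.1)) * ENNReal.ofReal (gk v (p.2.2 - f p.1))) * h p.2) := by
    have c1 : Continuous (fun p : EuclideanSpace ℝ I × (EuclideanSpace ℝ I × EuclideanSpace ℝ J) =>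
        gk v (p.2.1 - p.1)) := by fun_prop
    have c2 : Continuous (fun p : EuclideanSpace ℝ I × (EuclideanSpace ℝ I × EuclideanSpace ℝ J) =>
        gk v (p.2.2 - f p.1)) := by fun_prop
    exact (c1.measurable.ennreal_ofReal.mul c2.measurable.ennreal_ofReal).mul
      (hh.comp measurable_snd)
  have hho : Measurable (fun z : EuclideanSpace ℝ I × EuclideanSpace ℝ I × EuclideanSpace ℝ J =>
      h (obs f v z)) := hh.comp hobs
  unfold gam3
  rw [lintegral_prod _ hho.aemeasurable]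
  calc ∫⁻ x, ∫⁻ w, h (obs f v (x, w)) ∂((stdGaussian (EuclideanSpace ℝ I)).prod
        (stdGaussian (EuclideanSpace ℝ J))) ∂(stdGaussian (EuclideanSpace ℝ I))
      = ∫⁻ x, (∫⁻ y : EuclideanSpace ℝ I × EuclideanSpace ℝ J, (ENNReal.ofReal (gk v (y.1 - x)) *
        ENNReal.ofReal (gk v (y.2 - f x))) * h y) ∂(stdGaussian (EuclideanSpace ℝ I)) := by
        exact lintegral_congr hin
    _ = ∫⁻ y : EuclideanSpace ℝ I × EuclideanSpace ℝ J, ∫⁻ x, (ENNReal.ofReal (gk v (y.1 - x)) *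
        ENNReal.ofReal (gk v (y.2 - f x))) * h y ∂(stdGaussian (EuclideanSpace ℝ I)) := by
        exact lintegral_lintegral_swap (f := fun (x : EuclideanSpace ℝ I)
          (y : EuclideanSpace ℝ I × EuclideanSpace ℝ J) => (ENNReal.ofReal (gk v (y.1 - x)) *
          ENNReal.ofReal (gk v (y.2 - f x))) * h y) hbig.aemeasurable
    _ = _ := by
        refine lintegral_congr fun y => ?_
        rw [hker y, lintegral_mul_const]
        have c1 : Continuous (fun x : EuclideanSpace ℝ I => gk v (y.1 - x)) := by fun_prop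
        have c2 : Continuous (fun x : EuclideanSpace ℝ I => gk v (y.2 - f x)) := by fun_prop
        exact c1.measurable.ennreal_ofReal.mul c2.measurable.ennreal_ofReal

end

section

attribute [local irreducible] Rd

/-- auxiliary: the exponential weight of the G step -/
noncomputable def geE {I J : Type} [Fintype I] [Fintype J]
    (q : EuclideanSpace ℝ I × EuclideanSpace ℝ J → EuclideanSpace ℝ I × EuclideanSpace ℝ J)
    (g y : EuclideanSpace ℝ I × EuclideanSpace ℝ J) : ℝ≥0∞ :=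
  ENNReal.ofReal (Real.exp (⟪g.1, (q y).1⟫ + ⟪g.2, (q y).2⟫ -
        (‖(q y).1‖ ^ 2 + ‖(q y).2‖ ^ 2) / 2))

theorem ge_E_meas {I J : Type} [Fintype I] [Fintype J]
    (q : EuclideanSpace ℝ I × EuclideanSpace ℝ J → EuclideanSpace ℝ I × EuclideanSpace ℝ J)
    (hq : Measurable q) :
    Measurable fun p : (EuclideanSpace ℝ I × EuclideanSpace ℝ J) ×
        (EuclideanSpace ℝ I × EuclideanSpace ℝ J) =>
      geE q p.1 p.2 := by
  unfold geE
  have hq2 : Measurable fun p : (EuclideanSpace ℝ I × EuclideanSpace ℝ J) ×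
        (EuclideanSpace ℝ I × EuclideanSpace ℝ J) => q p.2 := hq.comp measurable_snd
  have h1 : Measurable fun p : (EuclideanSpace ℝ I × EuclideanSpace ℝ J) ×
        (EuclideanSpace ℝ I × EuclideanSpace ℝ J) => (q p.2).1 := hq2.fst
  have h2 : Measurable fun p : (EuclideanSpace ℝ I × EuclideanSpace ℝ J) ×
        (EuclideanSpace ℝ I × EuclideanSpace ℝ J) => (q p.2).2 := hq2.snd
  exact ((((measurable_fst.fst.inner h1).add (measurable_fst.snd.inner h2)).sub
    (((h1.norm.pow_const 2).add (h2.norm.pow_const 2)).div_const 2)).exp).ennreal_ofReal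

theorem ge_E_int {I J : Type} [Fintype I] [Fintype J]
    (a : EuclideanSpace ℝ I) (b : EuclideanSpace ℝ J) :
    ∫⁻ g, ENNReal.ofReal (Real.exp (⟪g.1, a⟫ + ⟪g.2, b⟫ - (‖a‖ ^ 2 + ‖b‖ ^ 2) / 2))
      ∂(gam2 I J) = 1 := by
  have e : ∀ g : EuclideanSpace ℝ I × EuclideanSpace ℝ J,
      ENNReal.ofReal (Real.exp (⟪g.1, a⟫ + ⟪g.2, b⟫ - (‖a‖ ^ 2 + ‖b‖ ^ 2) / 2)) =
      ENNReal.ofReal (Real.exp (⟪g.1, a⟫ - ‖a‖ ^ 2 / 2)) *
        ENNReal.ofReal (Real.exp (⟪g.2, b⟫ - ‖b‖ ^ 2 / 2)) := by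
    intro g
    rw [← ENNReal.ofReal_mul (Real.exp_pos _).le, ← Real.exp_add]
    congr 2
    ring
  rw [lintegral_congr e]
  unfold gam2
  have m1 : Measurable fun g : EuclideanSpace ℝ I =>
      ENNReal.ofReal (Real.exp (⟪g, a⟫ - ‖a‖ ^ 2 / 2)) := by
    have : Continuous fun g : EuclideanSpace ℝ I => Real.exp (⟪g, a⟫ - ‖a‖ ^ 2 / 2) := by fun_prop
    exact this.measurable.ennreal_ofReal
  have m2 : Measurable fun g : EuclideanSpace ℝ J =>
      ENNReal.ofReal (Real.exp (⟪g, b⟫ - ‖b‖ ^ 2 / 2)) := by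
    have : Continuous fun g : EuclideanSpace ℝ J => Real.exp (⟪g, b⟫ - ‖b‖ ^ 2 / 2) := by fun_prop
    exact this.measurable.ennreal_ofReal
  rw [lintegral_prod_mul m1.aemeasurable m2.aemeasurable, gexp a, gexp b, one_mul]

theorem geE_int {I J : Type} [Fintype I] [Fintype J]
    (q : EuclideanSpace ℝ I × EuclideanSpace ℝ J → EuclideanSpace ℝ I × EuclideanSpace ℝ J)
    (y : EuclideanSpace ℝ I × EuclideanSpace ℝ J) :
    ∫⁻ g, geE q g y ∂(gam2 I J) = 1 := by
  unfold geE
  exact ge_E_int _ _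

/-- auxiliary: the integrand of the G step -/
noncomputable def geG {I J : Type} [Fintype I] [Fintype J]
    (f : EuclideanSpace ℝ I → EuclideanSpace ℝ J) (v v' c : ℝ)
    (q : EuclideanSpace ℝ I × EuclideanSpace ℝ J → EuclideanSpace ℝ I × EuclideanSpace ℝ J)
    (g y : EuclideanSpace ℝ I × EuclideanSpace ℝ J) : ℝ≥0∞ :=
  geE q g (y + c • g) * ENNReal.ofReal (Rd f v' (y + c • g)) * (ENNReal.ofReal (Rd f v y))⁻¹

theorem geG_key {I J : Type} [Fintype I] [Fintype J]
    (f : EuclideanSpace ℝ I → EuclideanSpace ℝ J) (v v' c : ℝ)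
    (q : EuclideanSpace ℝ I × EuclideanSpace ℝ J → EuclideanSpace ℝ I × EuclideanSpace ℝ J)
    (g y : EuclideanSpace ℝ I × EuclideanSpace ℝ J) (e1 : 0 < Rd f v y)
    (e2 : 0 < Rd f v' (y + c • g)) :
    ENNReal.ofReal (Real.exp (
        ⟪g.1, (q (y + c • g)).1⟫ + ⟪g.2, (q (y + c • g)).2⟫ -
        (‖(q (y + c • g)).1‖ ^ 2 + ‖(q (y + c • g)).2‖ ^ 2) / 2 +
        Real.log (Rd f v' (y + c • g)) - Real.log (Rd f v y))) = geG f v v' c q g y := by
  unfold geG geE
  rw [← ENNReal.ofReal_mul (Real.exp_pos _).le, ← ENNReal.ofReal_inv_of_pos e1,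
      ← ENNReal.ofReal_mul (by positivity)]
  congr 1
  rw [Real.exp_sub, Real.exp_add, Real.exp_log e1, Real.exp_log e2, div_eq_mul_inv]

attribute [local irreducible] geE

theorem geG_meas {I J : Type} [Fintype I] [Fintype J]
    (f : EuclideanSpace ℝ I → EuclideanSpace ℝ J) (v v' c : ℝ)
    (q : EuclideanSpace ℝ I × EuclideanSpace ℝ J → EuclideanSpace ℝ I × EuclideanSpace ℝ J)
    (hq : Measurable q) (hR1 : Measurable (Rd f v)) (hR2 : Measurable (Rd f v')) :
    Measurable fun p : (EuclideanSpace ℝ I × EuclideanSpace ℝ J) ×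
        (EuclideanSpace ℝ I × EuclideanSpace ℝ J) => geG f v v' c q p.1 p.2 := by
  have hsh : Measurable fun p : (EuclideanSpace ℝ I × EuclideanSpace ℝ J) ×
        (EuclideanSpace ℝ I × EuclideanSpace ℝ J) => p.2 + c • p.1 := by fun_prop
  have hE := ge_E_meas q hq
  have hm1 : Measurable fun p : (EuclideanSpace ℝ I × EuclideanSpace ℝ J) ×
        (EuclideanSpace ℝ I × EuclideanSpace ℝ J) => (p.1, p.2 + c • p.1) :=
    measurable_fst.prodMk hsh
  have a1 := hE.comp hm1
  have a2 := (hR2.comp hsh).ennreal_ofReal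
  have a3 : Measurable fun p : (EuclideanSpace ℝ I × EuclideanSpace ℝ J) ×
        (EuclideanSpace ℝ I × EuclideanSpace ℝ J) => (ENNReal.ofReal (Rd f v p.2))⁻¹ :=
    (hR1.comp measurable_snd).ennreal_ofReal.inv
  simp only [Function.comp_def] at a1 a2
  unfold geG
  exact (a1.mul a2).mul a3

theorem geG_mul {I J : Type} [Fintype I] [Fintype J]
    (f : EuclideanSpace ℝ I → EuclideanSpace ℝ J) (v v' c : ℝ)
    (q : EuclideanSpace ℝ I × EuclideanSpace ℝ J → EuclideanSpace ℝ I × EuclideanSpace ℝ J)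
    (g y : EuclideanSpace ℝ I × EuclideanSpace ℝ J) (e1 : 0 < Rd f v y) :
    ENNReal.ofReal (Rd f v y) * geG f v v' c q g y =
      geE q g (y + c • g) * ENNReal.ofReal (Rd f v' (y + c • g)) := by
  unfold geG
  have e4 : ENNReal.ofReal (Rd f v y) * (ENNReal.ofReal (Rd f v y))⁻¹ = 1 :=
        ENNReal.mul_inv_cancel (by simpa using e1) ENNReal.ofReal_ne_top
  calc ENNReal.ofReal (Rd f v y) * (geE q g (y + c • g) *
            ENNReal.ofReal (Rd f v' (y + c • g)) * (ENNReal.ofReal (Rd f v y))⁻¹)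
          = geE q g (y + c • g) * ENNReal.ofReal (Rd f v' (y + c • g)) *
            (ENNReal.ofReal (Rd f v y) * (ENNReal.ofReal (Rd f v y))⁻¹) := by ring
        _ = _ := by rw [e4, mul_one]

attribute [local irreducible] geG obs

/-- exponential moment in the G step -/
theorem g_exp {I J : Type} [Fintype I] [Fintype J]
    (f : EuclideanSpace ℝ I → EuclideanSpace ℝ J) (hf : Continuous f) (v v' η : ℝ) (hv : 0 < v)
    (hv' : 0 < v')
    (q : EuclideanSpace ℝ I × EuclideanSpace ℝ J → EuclideanSpace ℝ I × EuclideanSpace ℝ J)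
    (hq : Measurable q) :
    ∫⁻ p, ENNReal.ofReal (Real.exp (
        ⟪p.2.1, (q (obs f v p.1 + √η • p.2)).1⟫ + ⟪p.2.2, (q (obs f v p.1 + √η • p.2)).2⟫ -
        (‖(q (obs f v p.1 + √η • p.2)).1‖ ^ 2 + ‖(q (obs f v p.1 + √η • p.2)).2‖ ^ 2) / 2 +
        Real.log (Rd f v' (obs f v p.1 + √η • p.2)) - Real.log (Rd f v (obs f v p.1))))
      ∂((gam3 I J).prod (gam2 I J)) = 1 := by
  obtain ⟨hR1, hR1p, -⟩ := Rd_basic f hf v hv
  obtain ⟨hR2, hR2p, -⟩ := Rd_basic f hf v' hv'
  have hG := geG_meas f v v' √η q hq hR1 hR2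
  have hE := ge_E_meas q hq
  have key : ∀ p : (EuclideanSpace ℝ I × EuclideanSpace ℝ I × EuclideanSpace ℝ J) ×
      (EuclideanSpace ℝ I × EuclideanSpace ℝ J), ENNReal.ofReal (Real.exp (
        ⟪p.2.1, (q (obs f v p.1 + √η • p.2)).1⟫ + ⟪p.2.2, (q (obs f v p.1 + √η • p.2)).2⟫ -
        (‖(q (obs f v p.1 + √η • p.2)).1‖ ^ 2 + ‖(q (obs f v p.1 + √η • p.2)).2‖ ^ 2) / 2 +
        Real.log (Rd f v' (obs f v p.1 + √η • p.2)) - Real.log (Rd f v (obs f v p.1)))) =
      geG f v v' √η q p.2 (obs f v p.1) := fun p =>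
    geG_key f v v' √η q p.2 (obs f v p.1) (hR1p _) (hR2p _)
  rw [lintegral_congr key]
  have hobs : Measurable (obs f v) := by
    have : Continuous fun z : EuclideanSpace ℝ I × EuclideanSpace ℝ I × EuclideanSpace ℝ J =>
      (z.1 + √v • z.2.1, f z.1 + √v • z.2.2) := by fun_prop
    have h2 : obs f v = fun z : EuclideanSpace ℝ I × EuclideanSpace ℝ I × EuclideanSpace ℝ J =>
      (z.1 + √v • z.2.1, f z.1 + √v • z.2.2) := by
      funext z; rw [obs]
    rw [h2]
    exact this.measurable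
  have hmm : Measurable fun p : (EuclideanSpace ℝ I × EuclideanSpace ℝ I ×
      EuclideanSpace ℝ J) × (EuclideanSpace ℝ I × EuclideanSpace ℝ J) =>
      (p.2, obs f v p.1) := measurable_snd.prodMk (hobs.comp measurable_fst)
  have hfull := hG.comp hmm
  simp only [Function.comp_def] at hfull
  rw [lintegral_prod_symm _ hfull.aemeasurable]
  have h1 : ∀ g : EuclideanSpace ℝ I × EuclideanSpace ℝ J,
      ∫⁻ z, geG f v v' √η q g (obs f v z) ∂(gam3 I J) =
        ∫⁻ y, geE q g y * ENNReal.ofReal (Rd f v' y) := by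
    intro g
    have hm0 : Measurable fun y : EuclideanSpace ℝ I × EuclideanSpace ℝ J => (g, y) :=
      measurable_const.prodMk measurable_id
    have hg := hG.comp hm0
    simp only [Function.comp_def] at hg
    rw [Rd_density f hf v hv (fun y => geG f v v' √η q g y) hg]
    rw [lintegral_congr fun y => geG_mul f v v' √η q g y (hR1p y)]
    haveI : (volume : Measure (EuclideanSpace ℝ I × EuclideanSpace ℝ J)).IsAddLeftInvariant := by
      rw [Measure.volume_eq_prod]; infer_instance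
    haveI : (volume : Measure (EuclideanSpace ℝ I × EuclideanSpace ℝ J)).IsAddRightInvariant :=
      inferInstance
    exact lintegral_add_right_eq_self
      (fun y : EuclideanSpace ℝ I × EuclideanSpace ℝ J =>
        geE q g y * ENNReal.ofReal (Rd f v' y)) (√η • g)
  rw [lintegral_congr h1]
  have hmeas : Measurable fun p : (EuclideanSpace ℝ I × EuclideanSpace ℝ J) ×
      (EuclideanSpace ℝ I × EuclideanSpace ℝ J) =>
      geE q p.1 p.2 * ENNReal.ofReal (Rd f v' p.2) :=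
    hE.mul ((hR2.comp measurable_snd).ennreal_ofReal)
  rw [lintegral_lintegral_swap (f := fun g y => geE q g y * ENNReal.ofReal (Rd f v' y))
    hmeas.aemeasurable]
  have h2 : ∀ y : EuclideanSpace ℝ I × EuclideanSpace ℝ J,
        ∫⁻ g, geE q g y * ENNReal.ofReal (Rd f v' y) ∂(gam2 I J) =
          ENNReal.ofReal (Rd f v' y) := by
    intro y
    have hm0 : Measurable fun g : EuclideanSpace ℝ I × EuclideanSpace ℝ J => (g, y) :=
      measurable_id.prodMk measurable_const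
    have hg := hE.comp hm0
    simp only [Function.comp_def] at hg
    rw [lintegral_mul_const _ hg, geE_int q y, one_mul]
  rw [lintegral_congr h2]
  have h3 := Rd_density f hf v' hv' (fun _ => 1) measurable_const
  simp only [mul_one, lintegral_const, measure_univ] at h3
  exact h3.symm

end

section

theorem g66_obs_cont {I J : Type} [Fintype I] [Fintype J]
    (f : EuclideanSpace ℝ I → EuclideanSpace ℝ J) (hf : Continuous f) (v s : ℝ) :
    Continuous (fun p : (EuclideanSpace ℝ I × EuclideanSpace ℝ I × EuclideanSpace ℝ J) ×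
      (EuclideanSpace ℝ I × EuclideanSpace ℝ J) => obs f v p.1 + s • p.2) := by
  unfold obs
  fun_prop

theorem g66_sq3 (a b c : ℝ) : (a + b + c) ^ 2 ≤ 3 * (a ^ 2 + b ^ 2 + c ^ 2) := by
  nlinarith [sq_nonneg (a - b), sq_nonneg (b - c), sq_nonneg (a - c)]

theorem g66_coord {I J : Type} [Fintype I] [Fintype J] :
    Integrable (fun p => ‖p.1.1‖ ^ 2) ((gam3 I J).prod (gam2 I J)) ∧
    Integrable (fun p => ‖p.1.2.1‖ ^ 2) ((gam3 I J).prod (gam2 I J)) ∧
    Integrable (fun p => ‖p.1.2.2‖ ^ 2) ((gam3 I J).prod (gam2 I J)) ∧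
    Integrable (fun p => ‖p.2.1‖ ^ 2) ((gam3 I J).prod (gam2 I J)) ∧
    Integrable (fun p => ‖p.2.2‖ ^ 2) ((gam3 I J).prod (gam2 I J)) ∧
    Integrable (fun p => ‖p.2.1‖) ((gam3 I J).prod (gam2 I J)) ∧
    Integrable (fun p => ‖p.2.2‖) ((gam3 I J).prod (gam2 I J)) := by
  classical
  have hI := moments (I := I) (J := J)
  have hJ := moments (I := J) (J := J)
  obtain ⟨i1, i2, -⟩ := hI
  obtain ⟨j1, j2, -⟩ := hJ
  have a1 : Integrable (fun z : EuclideanSpace ℝ I × EuclideanSpace ℝ I × EuclideanSpace ℝ J =>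
      ‖z.1‖ ^ 2) (gam3 I J) := by
    unfold gam3
    exact i2.comp_fst _
  have a2 : Integrable (fun z : EuclideanSpace ℝ I × EuclideanSpace ℝ I × EuclideanSpace ℝ J =>
      ‖z.2.1‖ ^ 2) (gam3 I J) := by
    unfold gam3
    exact (i2.comp_fst _).comp_snd _
  have a3 : Integrable (fun z : EuclideanSpace ℝ I × EuclideanSpace ℝ I × EuclideanSpace ℝ J =>
      ‖z.2.2‖ ^ 2) (gam3 I J) := by
    unfold gam3
    exact (j2.comp_snd _).comp_snd _
  have a4 : Integrable (fun z : EuclideanSpace ℝ I × EuclideanSpace ℝ J =>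
      ‖z.1‖ ^ 2) (gam2 I J) := by
    unfold gam2
    exact i2.comp_fst _
  have a5 : Integrable (fun z : EuclideanSpace ℝ I × EuclideanSpace ℝ J =>
      ‖z.2‖ ^ 2) (gam2 I J) := by
    unfold gam2
    exact j2.comp_snd _
  have a6 : Integrable (fun z : EuclideanSpace ℝ I × EuclideanSpace ℝ J =>
      ‖z.1‖) (gam2 I J) := by
    unfold gam2
    exact i1.comp_fst _
  have a7 : Integrable (fun z : EuclideanSpace ℝ I × EuclideanSpace ℝ J =>
      ‖z.2‖) (gam2 I J) := by
    unfold gam2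
    exact j1.comp_snd _
  exact ⟨a1.comp_fst _, a2.comp_fst _, a3.comp_fst _, a4.comp_snd _, a5.comp_snd _,
    a6.comp_snd _, a7.comp_snd _⟩

theorem g66_log {I J : Type} [Fintype I] [Fintype J]
    (f : EuclideanSpace ℝ I → EuclideanSpace ℝ J) (hf : Continuous f) (B : ℝ)
    (hB : ∀ x, ‖f x‖ ≤ B) (v v' s : ℝ) (hv' : 0 < v') :
    Integrable (fun p => Real.log (Rd f v' (obs f v p.1 + s • p.2)))
      ((gam3 I J).prod (gam2 I J)) := by
  obtain ⟨c1, c2, c3, c4, c5, -, -⟩ := g66_coord (I := I) (J := J)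
  obtain ⟨C', hC', hlog⟩ := Rd_log f hf B hB v' hv'
  have hmeas : Measurable (fun p : (EuclideanSpace ℝ I × EuclideanSpace ℝ I ×
      EuclideanSpace ℝ J) × (EuclideanSpace ℝ I × EuclideanSpace ℝ J) =>
      Real.log (Rd f v' (obs f v p.1 + s • p.2))) :=
    Real.measurable_log.comp ((Rd_basic f hf v' hv').1.comp (g66_obs_cont f hf v s).measurable)
  have hbd : Integrable (fun p : (EuclideanSpace ℝ I × EuclideanSpace ℝ I ×
      EuclideanSpace ℝ J) × (EuclideanSpace ℝ I × EuclideanSpace ℝ J) =>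
      C' * (1 + 3 * (‖p.1.1‖ ^ 2 + √v ^ 2 * ‖p.1.2.1‖ ^ 2 + s ^ 2 * ‖p.2.1‖ ^ 2)
        + 3 * (B ^ 2 + √v ^ 2 * ‖p.1.2.2‖ ^ 2 + s ^ 2 * ‖p.2.2‖ ^ 2)))
      ((gam3 I J).prod (gam2 I J)) := by
    refine Integrable.const_mul ?_ C'
    refine ((integrable_const 1).add (((c1.add (c2.const_mul _)).add
      (c4.const_mul _)).const_mul 3)).add (Integrable.const_mul ?_ 3)
    exact ((integrable_const _).add (c3.const_mul _)).add (c5.const_mul _)
  refine hbd.mono' hmeas.aestronglyMeasurable (Filter.Eventually.of_forall fun p => ?_)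
  rw [Real.norm_eq_abs]
  refine (hlog _).trans (mul_le_mul_of_nonneg_left ?_ hC')
  have e1 : ‖(obs f v p.1 + s • p.2).1‖ ^ 2 ≤
      3 * (‖p.1.1‖ ^ 2 + √v ^ 2 * ‖p.1.2.1‖ ^ 2 + s ^ 2 * ‖p.2.1‖ ^ 2) := by
    have h1 : ‖(obs f v p.1 + s • p.2).1‖ ≤ ‖p.1.1‖ + √v * ‖p.1.2.1‖ + |s| * ‖p.2.1‖ := by
      show ‖p.1.1 + √v • p.1.2.1 + s • p.2.1‖ ≤ _
      refine (norm_add₃_le).trans ?_
      rw [norm_smul, norm_smul, Real.norm_eq_abs, Real.norm_eq_abs,
        abs_of_nonneg (Real.sqrt_nonneg v)]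
    have h2 := pow_le_pow_left₀ (norm_nonneg _) h1 2
    refine h2.trans ((g66_sq3 _ _ _).trans (le_of_eq ?_))
    rw [mul_pow, mul_pow, sq_abs]
  have e2 : ‖(obs f v p.1 + s • p.2).2‖ ^ 2 ≤
      3 * (B ^ 2 + √v ^ 2 * ‖p.1.2.2‖ ^ 2 + s ^ 2 * ‖p.2.2‖ ^ 2) := by
    have h1 : ‖(obs f v p.1 + s • p.2).2‖ ≤ B + √v * ‖p.1.2.2‖ + |s| * ‖p.2.2‖ := by
      show ‖f p.1.1 + √v • p.1.2.2 + s • p.2.2‖ ≤ _
      refine (norm_add₃_le).trans ?_
      rw [norm_smul, norm_smul, Real.norm_eq_abs, Real.norm_eq_abs,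
        abs_of_nonneg (Real.sqrt_nonneg v)]
      have := hB p.1.1
      linarith
    have h2 := pow_le_pow_left₀ (norm_nonneg _) h1 2
    refine h2.trans ((g66_sq3 _ _ _).trans (le_of_eq ?_))
    rw [mul_pow, mul_pow, sq_abs]
  linarith

/-- integrability in the G step -/
theorem g_int {I J : Type} [Fintype I] [Fintype J]
    (f : EuclideanSpace ℝ I → EuclideanSpace ℝ J) (hf : Continuous f) (B : ℝ)
    (hB : ∀ x, ‖f x‖ ≤ B) (v v' η : ℝ) (hv : 0 < v) (hv' : 0 < v')
    (q : EuclideanSpace ℝ I × EuclideanSpace ℝ J → EuclideanSpace ℝ I × EuclideanSpace ℝ J)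
    (hq : Measurable q) (C : ℝ) (hC : ∀ y, ‖q y‖ ≤ C) :
    Integrable (fun p => ⟪p.2.1, (q (obs f v p.1 + √η • p.2)).1⟫ +
      ⟪p.2.2, (q (obs f v p.1 + √η • p.2)).2⟫) ((gam3 I J).prod (gam2 I J)) ∧
    Integrable (fun p => ‖(q (obs f v p.1 + √η • p.2)).1‖ ^ 2 +
      ‖(q (obs f v p.1 + √η • p.2)).2‖ ^ 2) ((gam3 I J).prod (gam2 I J)) ∧
    Integrable (fun p => Real.log (Rd f v' (obs f v p.1 + √η • p.2)))
      ((gam3 I J).prod (gam2 I J)) ∧
    Integrable (fun p => Real.log (Rd f v (obs f v p.1))) ((gam3 I J).prod (gam2 I J)) := by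
  obtain ⟨-, -, -, -, -, c6, c7⟩ := g66_coord (I := I) (J := J)
  have hqm : Measurable (fun p : (EuclideanSpace ℝ I × EuclideanSpace ℝ I ×
      EuclideanSpace ℝ J) × (EuclideanSpace ℝ I × EuclideanSpace ℝ J) =>
      q (obs f v p.1 + √η • p.2)) := hq.comp (g66_obs_cont f hf v (√η)).measurable
  have hq1 : ∀ y, ‖(q y).1‖ ≤ C := fun y => (norm_fst_le _).trans (hC y)
  have hq2 : ∀ y, ‖(q y).2‖ ≤ C := fun y => (norm_snd_le _).trans (hC y)
  refine ⟨?_, ?_, g66_log f hf B hB v v' (√η) hv', ?_⟩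
  · have hbd : Integrable (fun p : (EuclideanSpace ℝ I × EuclideanSpace ℝ I ×
        EuclideanSpace ℝ J) × (EuclideanSpace ℝ I × EuclideanSpace ℝ J) =>
        ‖p.2.1‖ * C + ‖p.2.2‖ * C) ((gam3 I J).prod (gam2 I J)) :=
      (c6.mul_const C).add (c7.mul_const C)
    refine hbd.mono' ?_ (Filter.Eventually.of_forall fun p => ?_)
    · refine Measurable.aestronglyMeasurable ?_
      exact ((measurable_fst.comp measurable_snd).inner (measurable_fst.comp hqm)).add
        ((measurable_snd.comp measurable_snd).inner (measurable_snd.comp hqm))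
    · refine (norm_add_le _ _).trans (add_le_add ?_ ?_)
      · refine (norm_inner_le_norm _ _).trans ?_
        exact mul_le_mul_of_nonneg_left (hq1 _) (norm_nonneg _)
      · refine (norm_inner_le_norm _ _).trans ?_
        exact mul_le_mul_of_nonneg_left (hq2 _) (norm_nonneg _)
  · refine (integrable_const (C ^ 2 + C ^ 2)).mono' ?_ (Filter.Eventually.of_forall fun p => ?_)
    · refine Measurable.aestronglyMeasurable ?_
      exact ((measurable_fst.comp hqm).norm.pow_const 2).add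
        ((measurable_snd.comp hqm).norm.pow_const 2)
    · rw [Real.norm_eq_abs, abs_of_nonneg (by positivity)]
      exact add_le_add (pow_le_pow_left₀ (norm_nonneg _) (hq1 _) 2)
        (pow_le_pow_left₀ (norm_nonneg _) (hq2 _) 2)
  · have := g66_log f hf B hB v v 0 hv
    simpa using this

end

section

theorem gm_Theta (I J : Type) [Fintype I] [Fintype J] (c s : ℝ) (h : c ^ 2 + s ^ 2 = 1) :
    MeasurePreserving (fun p : (EuclideanSpace ℝ I × EuclideanSpace ℝ I × EuclideanSpace ℝ J) ×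
        (EuclideanSpace ℝ I × EuclideanSpace ℝ J) =>
        ((p.1.1, c • p.1.2 + s • p.2), s • p.1.2 - c • p.2))
      ((gam3 I J).prod (gam2 I J)) ((gam3 I J).prod (gam2 I J)) := by
  have h1 := measurePreserving_prodAssoc (stdGaussian (EuclideanSpace ℝ I)) (gam2 I J) (gam2 I J)
  have h2 := (MeasurePreserving.id (stdGaussian (EuclideanSpace ℝ I))).prod (refl_mp I J c s h)
  have h3 := (h1.symm _).comp (h2.comp h1)
  exact h3

theorem gm_int1 (I J : Type) [Fintype I] [Fintype J] :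
    Integrable (fun M : EuclideanSpace ℝ I × EuclideanSpace ℝ J => ‖M.1‖ + ‖M.2‖)
      (gam2 I J) := by
  classical
  unfold gam2
  have h1 : Integrable (fun z : EuclideanSpace ℝ I => ‖z‖) (stdGaussian (EuclideanSpace ℝ I)) :=
    (moments (I := I) (J := J)).1
  have h2 : Integrable (fun z : EuclideanSpace ℝ J => ‖z‖) (stdGaussian (EuclideanSpace ℝ J)) :=
    (moments (I := J) (J := J)).1
  exact (h1.comp_fst _).add (h2.comp_snd _)

theorem gm_zero (I J : Type) [Fintype I] [Fintype J]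
    (w : EuclideanSpace ℝ I × EuclideanSpace ℝ J) :
    ∫ M, (⟪M.1, w.1⟫ + ⟪M.2, w.2⟫) ∂(gam2 I J) = 0 := by
  classical
  unfold gam2
  have h1 : Integrable (fun z : EuclideanSpace ℝ I => ‖z‖) (stdGaussian (EuclideanSpace ℝ I)) :=
    (moments (I := I) (J := J)).1
  have h2 : Integrable (fun z : EuclideanSpace ℝ J => ‖z‖) (stdGaussian (EuclideanSpace ℝ J)) :=
    (moments (I := J) (J := J)).1
  have k1 : Integrable (fun z : EuclideanSpace ℝ I => ⟪z, w.1⟫)
      (stdGaussian (EuclideanSpace ℝ I)) := by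
    refine (h1.mul_const ‖w.1‖).mono' (by fun_prop) ?_
    filter_upwards with z
    exact norm_inner_le_norm _ _
  have k2 : Integrable (fun z : EuclideanSpace ℝ J => ⟪z, w.2⟫)
      (stdGaussian (EuclideanSpace ℝ J)) := by
    refine (h2.mul_const ‖w.2‖).mono' (by fun_prop) ?_
    filter_upwards with z
    exact norm_inner_le_norm _ _
  have z1 : ∫ z, ⟪z, w.1⟫ ∂(stdGaussian (EuclideanSpace ℝ I)) = 0 :=
    (moments (I := I) (J := J)).2.2.2.1 w.1
  have z2 : ∫ z, ⟪z, w.2⟫ ∂(stdGaussian (EuclideanSpace ℝ J)) = 0 :=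
    (moments (I := J) (J := J)).2.2.2.1 w.2
  rw [integral_add (k1.comp_fst _) (k2.comp_snd _)]
  have e1 := integral_fun_fst (μ := stdGaussian (EuclideanSpace ℝ I))
    (ν := stdGaussian (EuclideanSpace ℝ J)) (fun z : EuclideanSpace ℝ I => ⟪z, w.1⟫)
  have e2 := integral_fun_snd (μ := stdGaussian (EuclideanSpace ℝ I))
    (ν := stdGaussian (EuclideanSpace ℝ J)) (fun z : EuclideanSpace ℝ J => ⟪z, w.2⟫)
  rw [e1, e2, z1, z2]
  simp

/-- merging in the G step -/
theorem g_merge {I J : Type} [Fintype I] [Fintype J]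
    (f : EuclideanSpace ℝ I → EuclideanSpace ℝ J) (hf : Continuous f) (v v' : ℝ) (hv : 0 < v)
    (hv' : v < v')
    (P : EuclideanSpace ℝ I × EuclideanSpace ℝ J → EuclideanSpace ℝ I × EuclideanSpace ℝ J)
    (hP : Measurable P) (C : ℝ) (hC : ∀ y, ‖P y‖ ≤ C) :
    (∀ H : EuclideanSpace ℝ I × EuclideanSpace ℝ J → ℝ, Measurable H →
      ∫ p, H (obs f v p.1 + √(v' - v) • p.2) ∂((gam3 I J).prod (gam2 I J)) =
        ∫ z, H (obs f v' z) ∂(gam3 I J)) ∧
    (∫ p, (⟪p.2.1, (P (obs f v p.1 + √(v' - v) • p.2)).1⟫ +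
        ⟪p.2.2, (P (obs f v p.1 + √(v' - v) • p.2)).2⟫) ∂((gam3 I J).prod (gam2 I J)) =
      √(v' - v) / √v' * ∫ z, (⟪z.2.1, (P (obs f v' z)).1⟫ + ⟪z.2.2, (P (obs f v' z)).2⟫)
        ∂(gam3 I J)) := by
  have hv0 : 0 < v' := hv.trans hv'
  have hs0 : √v' ≠ 0 := (Real.sqrt_pos.2 hv0).ne'
  obtain ⟨c, hc⟩ : ∃ c, c = √v / √v' := ⟨_, rfl⟩
  obtain ⟨s, hs⟩ : ∃ s, s = √(v' - v) / √v' := ⟨_, rfl⟩
  have q1 : √v ^ 2 = v := Real.sq_sqrt hv.le
  have q2 : √(v' - v) ^ 2 = v' - v := Real.sq_sqrt (by linarith)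
  have q3 : √v' ^ 2 = v' := Real.sq_sqrt hv0.le
  have hcs : c ^ 2 + s ^ 2 = 1 := by
    rw [hc, hs, div_pow, div_pow, q1, q2, q3]
    field_simp
    ring
  have hcs1 : √v * c + √(v' - v) * s = √v' := by
    rw [hc, hs]
    field_simp
    rw [q1, q2, q3]; ring
  have hcs2 : √v * s - √(v' - v) * c = 0 := by
    rw [hc, hs]
    field_simp
    ring
  have hΘ := gm_Theta I J c s hcs
  have hobs : ∀ u : ℝ, Measurable (obs f u : _ → EuclideanSpace ℝ I × EuclideanSpace ℝ J) := by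
    intro u
    have : Continuous (obs f u : _ → EuclideanSpace ℝ I × EuclideanSpace ℝ J) := by
      unfold obs
      fun_prop
    exact this.measurable
  have hsum : Measurable (fun p : (EuclideanSpace ℝ I × EuclideanSpace ℝ I × EuclideanSpace ℝ J) ×
        (EuclideanSpace ℝ I × EuclideanSpace ℝ J) => obs f v p.1 + √(v' - v) • p.2) := by
    have h1 : Measurable (fun p : (EuclideanSpace ℝ I × EuclideanSpace ℝ I × EuclideanSpace ℝ J) ×
        (EuclideanSpace ℝ I × EuclideanSpace ℝ J) => obs f v p.1) := (hobs v).comp measurable_fst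
    have h2 : Measurable (fun p : (EuclideanSpace ℝ I × EuclideanSpace ℝ I × EuclideanSpace ℝ J) ×
        (EuclideanSpace ℝ I × EuclideanSpace ℝ J) => √(v' - v) • p.2) :=
      (continuous_snd.const_smul (√(v' - v))).measurable
    exact h1.add h2
  have hkey : ∀ p : (EuclideanSpace ℝ I × EuclideanSpace ℝ I × EuclideanSpace ℝ J) ×
        (EuclideanSpace ℝ I × EuclideanSpace ℝ J),
      obs f v (p.1.1, c • p.1.2 + s • p.2) + √(v' - v) • (s • p.1.2 - c • p.2) =
        obs f v' p.1 := by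
    intro p
    have e1 : ∀ {V : Type} [AddCommGroup V] [Module ℝ V] (x N M : V),
        x + √v • (c • N + s • M) + √(v' - v) • (s • N - c • M) = x + √v' • N := by
      intro V _ _ x N M
      have : x + √v • (c • N + s • M) + √(v' - v) • (s • N - c • M) =
        x + (√v * c + √(v' - v) * s) • N + (√v * s - √(v' - v) * c) • M := by module
      rw [this, hcs1, hcs2]
      simp
    unfold obs
    ext1
    · exact e1 p.1.1 p.1.2.1 p.2.1
    · exact e1 (f p.1.1) p.1.2.2 p.2.2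
  constructor
  · intro H hH
    have hHm : Measurable (fun p : (EuclideanSpace ℝ I × EuclideanSpace ℝ I × EuclideanSpace ℝ J) ×
        (EuclideanSpace ℝ I × EuclideanSpace ℝ J) => H (obs f v p.1 + √(v' - v) • p.2)) :=
      hH.comp hsum
    conv_lhs => rw [← hΘ.map_eq, integral_map hΘ.measurable.aemeasurable hHm.aestronglyMeasurable]
    simp only [hkey]
    have := integral_fun_fst (μ := gam3 I J) (ν := gam2 I J) (fun z => H (obs f v' z))
    rw [this]
    simp
  · have hPhi : Measurable (fun p : (EuclideanSpace ℝ I × EuclideanSpace ℝ I × EuclideanSpace ℝ J) ×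
        (EuclideanSpace ℝ I × EuclideanSpace ℝ J) =>
        (⟪p.2.1, (P (obs f v p.1 + √(v' - v) • p.2)).1⟫ +
        ⟪p.2.2, (P (obs f v p.1 + √(v' - v) • p.2)).2⟫ : ℝ)) := by
      have h1 := hP.comp hsum
      exact (Measurable.inner (measurable_fst.comp measurable_snd) (measurable_fst.comp h1)).add
        (Measurable.inner (measurable_snd.comp measurable_snd) (measurable_snd.comp h1))
    have hPn1 : ∀ y, ‖(P y).1‖ ≤ C := fun y => (norm_fst_le _).trans (hC y)
    have hPn2 : ∀ y, ‖(P y).2‖ ≤ C := fun y => (norm_snd_le _).trans (hC y)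
    have hC0 : 0 ≤ C := (norm_nonneg _).trans (hC 0)
    have hstep : ∫ p, (⟪p.2.1, (P (obs f v p.1 + √(v' - v) • p.2)).1⟫ +
        ⟪p.2.2, (P (obs f v p.1 + √(v' - v) • p.2)).2⟫) ∂((gam3 I J).prod (gam2 I J)) =
        ∫ p, (s * (⟪p.1.2.1, (P (obs f v' p.1)).1⟫ + ⟪p.1.2.2, (P (obs f v' p.1)).2⟫)
          - c * (⟪p.2.1, (P (obs f v' p.1)).1⟫ + ⟪p.2.2, (P (obs f v' p.1)).2⟫))
          ∂((gam3 I J).prod (gam2 I J)) := by
      conv_lhs => rw [← hΘ.map_eq, integral_map hΘ.measurable.aemeasurable hPhi.aestronglyMeasurable]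
      apply integral_congr_ae
      filter_upwards with p
      simp only [hkey]
      simp only [Prod.fst_sub, Prod.snd_sub, Prod.smul_fst, Prod.smul_snd, inner_sub_left,
        real_inner_smul_left]
      ring
    have hA0 : Measurable (fun z : EuclideanSpace ℝ I × EuclideanSpace ℝ I × EuclideanSpace ℝ J =>
        (⟪z.2.1, (P (obs f v' z)).1⟫ + ⟪z.2.2, (P (obs f v' z)).2⟫ : ℝ)) := by
      have h1 := hP.comp (hobs v')
      exact (Measurable.inner (measurable_fst.comp measurable_snd) (measurable_fst.comp h1)).add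
        (Measurable.inner (measurable_snd.comp measurable_snd) (measurable_snd.comp h1))
    have hB0 : Measurable (fun p : (EuclideanSpace ℝ I × EuclideanSpace ℝ I × EuclideanSpace ℝ J) ×
        (EuclideanSpace ℝ I × EuclideanSpace ℝ J) =>
        (⟪p.2.1, (P (obs f v' p.1)).1⟫ + ⟪p.2.2, (P (obs f v' p.1)).2⟫ : ℝ)) := by
      have h1 : Measurable (fun p : (EuclideanSpace ℝ I × EuclideanSpace ℝ I × EuclideanSpace ℝ J) ×
        (EuclideanSpace ℝ I × EuclideanSpace ℝ J) => P (obs f v' p.1)) :=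
        (hP.comp (hobs v')).comp measurable_fst
      exact (Measurable.inner (measurable_fst.comp measurable_snd) (measurable_fst.comp h1)).add
        (Measurable.inner (measurable_snd.comp measurable_snd) (measurable_snd.comp h1))
    have hbound : ∀ (M w : EuclideanSpace ℝ I × EuclideanSpace ℝ J), ‖w.1‖ ≤ C → ‖w.2‖ ≤ C →
        ‖(⟪M.1, w.1⟫ + ⟪M.2, w.2⟫ : ℝ)‖ ≤ (‖M.1‖ + ‖M.2‖) * C := by
      intro M w h1 h2
      have k1 : ‖(⟪M.1, w.1⟫ : ℝ)‖ ≤ ‖M.1‖ * C :=
        (norm_inner_le_norm _ _).trans (mul_le_mul_of_nonneg_left h1 (norm_nonneg _))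
      have k2 : ‖(⟪M.2, w.2⟫ : ℝ)‖ ≤ ‖M.2‖ * C :=
        (norm_inner_le_norm _ _).trans (mul_le_mul_of_nonneg_left h2 (norm_nonneg _))
      calc _ ≤ ‖(⟪M.1, w.1⟫ : ℝ)‖ + ‖(⟪M.2, w.2⟫ : ℝ)‖ := norm_add_le _ _
        _ ≤ _ := by linarith
    have hA : Integrable (fun z : EuclideanSpace ℝ I × EuclideanSpace ℝ I × EuclideanSpace ℝ J =>
        (⟪z.2.1, (P (obs f v' z)).1⟫ + ⟪z.2.2, (P (obs f v' z)).2⟫ : ℝ)) (gam3 I J) := by
      have h1 : Integrable (fun z : EuclideanSpace ℝ I × EuclideanSpace ℝ I × EuclideanSpace ℝ J =>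
          ‖z.2.1‖ + ‖z.2.2‖) (gam3 I J) :=
        (gm_int1 I J).comp_snd (stdGaussian (EuclideanSpace ℝ I))
      refine (h1.mul_const C).mono' hA0.aestronglyMeasurable ?_
      filter_upwards with z
      exact hbound z.2 (P (obs f v' z)) (hPn1 _) (hPn2 _)
    have hB : Integrable (fun p : (EuclideanSpace ℝ I × EuclideanSpace ℝ I × EuclideanSpace ℝ J) ×
        (EuclideanSpace ℝ I × EuclideanSpace ℝ J) =>
        (⟪p.2.1, (P (obs f v' p.1)).1⟫ + ⟪p.2.2, (P (obs f v' p.1)).2⟫ : ℝ))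
        ((gam3 I J).prod (gam2 I J)) := by
      have h1 := (gm_int1 I J).comp_snd (gam3 I J)
      refine (h1.mul_const C).mono' hB0.aestronglyMeasurable ?_
      filter_upwards with p
      exact hbound p.2 (P (obs f v' p.1)) (hPn1 _) (hPn2 _)
    rw [hstep, integral_sub ((hA.comp_fst (gam2 I J)).const_mul s) (hB.const_mul c),
      integral_const_mul, integral_const_mul]
    have eA := integral_fun_fst (μ := gam3 I J) (ν := gam2 I J)
      (fun z : EuclideanSpace ℝ I × EuclideanSpace ℝ I × EuclideanSpace ℝ J =>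
        (⟪z.2.1, (P (obs f v' z)).1⟫ + ⟪z.2.2, (P (obs f v' z)).2⟫ : ℝ))
    have eB : ∫ p, (⟪p.2.1, (P (obs f v' p.1)).1⟫ + ⟪p.2.2, (P (obs f v' p.1)).2⟫)
        ∂((gam3 I J).prod (gam2 I J)) = 0 := by
      rw [integral_prod _ hB]
      apply integral_eq_zero_of_ae
      filter_upwards with z
      exact gm_zero I J (P (obs f v' z))
    rw [eA, eB, hs]
    simp

end

section

theorem gs_meas_Rd {I J : Type} [Fintype I] [Fintype J]
    (f : EuclideanSpace ℝ I → EuclideanSpace ℝ J) (hf : Continuous f) (v : ℝ) :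
    Measurable (Rd f v) := by
  have h : StronglyMeasurable (Function.uncurry
      (fun (y : EuclideanSpace ℝ I × EuclideanSpace ℝ J) (x : EuclideanSpace ℝ I) =>
        gk v (y.1 - x) * gk v (y.2 - f x))) := by
    apply Continuous.stronglyMeasurable
    unfold Function.uncurry gk
    fun_prop
  exact (StronglyMeasurable.integral_prod_right h (ν := stdGaussian (EuclideanSpace ℝ I))).measurable

theorem gs_meas_obs {I J : Type} [Fintype I] [Fintype J]
    (f : EuclideanSpace ℝ I → EuclideanSpace ℝ J) (hf : Continuous f) (v : ℝ) :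
    Measurable (obs f v) := by
  apply Continuous.measurable
  unfold obs
  fun_prop

theorem gs_split {Ω : Type*} [MeasurableSpace Ω] {μ : Measure Ω} {a b c d : Ω → ℝ}
    (ha : Integrable a μ) (hb : Integrable b μ) (hc : Integrable c μ) (hd : Integrable d μ) :
    ∫ ω, (a ω - b ω / 2 + c ω - d ω) ∂μ =
      ∫ ω, a ω ∂μ - (∫ ω, b ω ∂μ) / 2 + ∫ ω, c ω ∂μ - ∫ ω, d ω ∂μ := by
  have h1 : Integrable (fun ω => a ω - b ω / 2) μ := ha.sub (hb.div_const 2)
  have h2 : Integrable (fun ω => a ω - b ω / 2 + c ω) μ := h1.add hc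
  rw [integral_sub h2 hd, integral_add h1 hc, integral_sub ha (hb.div_const 2), integral_div]

/-- the G step -/
theorem g_step {I J : Type} [Fintype I] [Fintype J]
    (f : EuclideanSpace ℝ I → EuclideanSpace ℝ J) (hf : Continuous f) (B : ℝ)
    (hB : ∀ x, ‖f x‖ ≤ B) (v v' : ℝ) (hv : 0 < v) (hv' : v < v')
    (P : EuclideanSpace ℝ I × EuclideanSpace ℝ J → EuclideanSpace ℝ I × EuclideanSpace ℝ J)
    (hP : Measurable P) (C : ℝ) (hC : ∀ y, ‖P y‖ ≤ C) :
    (v' - v) / v' * ∫ z, (2 * (⟪z.2.1, (P (obs f v' z)).1⟫ + ⟪z.2.2, (P (obs f v' z)).2⟫) -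
        ‖(P (obs f v' z)).1‖ ^ 2 - ‖(P (obs f v' z)).2‖ ^ 2) ∂(gam3 I J) ≤
      2 * (Psi f v - Psi f v') := by
  have hv'0 : 0 < v' := hv.trans hv'
  have hη : 0 < v' - v := sub_pos.2 hv'
  have hC0 : 0 ≤ C := (norm_nonneg _).trans (hC 0)
  set κ : ℝ := √(v' - v) / √v' with hκ
  have hκ2 : κ ^ 2 = (v' - v) / v' := by
    rw [hκ, div_pow, Real.sq_sqrt hη.le, Real.sq_sqrt hv'0.le]
  let q : EuclideanSpace ℝ I × EuclideanSpace ℝ J → EuclideanSpace ℝ I × EuclideanSpace ℝ J :=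
    fun y => κ • P y
  have hq : Measurable q := hP.const_smul κ
  have hqC : ∀ y, ‖q y‖ ≤ |κ| * C := by
    intro y
    show ‖κ • P y‖ ≤ _
    rw [norm_smul, Real.norm_eq_abs]
    exact mul_le_mul_of_nonneg_left (hC y) (abs_nonneg κ)
  obtain ⟨i1, i2, i3, i4⟩ := g_int f hf B hB v v' (v' - v) hv hv'0 q hq (|κ| * C) hqC
  have hexp := g_exp f hf v v' (v' - v) hv hv'0 q hq
  obtain ⟨m1, m2⟩ := g_merge f hf v v' hv hv' P hP C hC
  have hg := gibbs ((gam3 I J).prod (gam2 I J)) (fun p =>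
        (⟪p.2.1, (q (obs f v p.1 + √(v' - v) • p.2)).1⟫ +
          ⟪p.2.2, (q (obs f v p.1 + √(v' - v) • p.2)).2⟫) -
        (‖(q (obs f v p.1 + √(v' - v) • p.2)).1‖ ^ 2 +
          ‖(q (obs f v p.1 + √(v' - v) • p.2)).2‖ ^ 2) / 2 +
        Real.log (Rd f v' (obs f v p.1 + √(v' - v) • p.2)) - Real.log (Rd f v (obs f v p.1)))
    (((i1.sub (i2.div_const 2)).add i3).sub i4) (le_of_eq hexp)
  rw [gs_split i1 i2 i3 i4] at hg
  -- the four terms
  have e1 : ∫ p, (⟪p.2.1, (q (obs f v p.1 + √(v' - v) • p.2)).1⟫ +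
      ⟪p.2.2, (q (obs f v p.1 + √(v' - v) • p.2)).2⟫) ∂((gam3 I J).prod (gam2 I J)) =
      κ ^ 2 * ∫ z, (⟪z.2.1, (P (obs f v' z)).1⟫ + ⟪z.2.2, (P (obs f v' z)).2⟫) ∂(gam3 I J) := by
    have : ∀ p : (EuclideanSpace ℝ I × EuclideanSpace ℝ I × EuclideanSpace ℝ J) ×
        (EuclideanSpace ℝ I × EuclideanSpace ℝ J),
        ⟪p.2.1, (q (obs f v p.1 + √(v' - v) • p.2)).1⟫ +
          ⟪p.2.2, (q (obs f v p.1 + √(v' - v) • p.2)).2⟫ =
        κ * (⟪p.2.1, (P (obs f v p.1 + √(v' - v) • p.2)).1⟫ +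
          ⟪p.2.2, (P (obs f v p.1 + √(v' - v) • p.2)).2⟫) := by
      intro p
      show ⟪p.2.1, (κ • P (obs f v p.1 + √(v' - v) • p.2)).1⟫ +
          ⟪p.2.2, (κ • P (obs f v p.1 + √(v' - v) • p.2)).2⟫ = _
      rw [Prod.smul_fst, Prod.smul_snd, real_inner_smul_right, real_inner_smul_right]
      ring
    rw [integral_congr_ae (Filter.Eventually.of_forall this), integral_const_mul, m2]
    ring
  have e2 : ∫ p, (‖(q (obs f v p.1 + √(v' - v) • p.2)).1‖ ^ 2 +
      ‖(q (obs f v p.1 + √(v' - v) • p.2)).2‖ ^ 2) ∂((gam3 I J).prod (gam2 I J)) =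
      κ ^ 2 * ∫ z, (‖(P (obs f v' z)).1‖ ^ 2 + ‖(P (obs f v' z)).2‖ ^ 2) ∂(gam3 I J) := by
    have : ∀ p : (EuclideanSpace ℝ I × EuclideanSpace ℝ I × EuclideanSpace ℝ J) ×
        (EuclideanSpace ℝ I × EuclideanSpace ℝ J),
        ‖(q (obs f v p.1 + √(v' - v) • p.2)).1‖ ^ 2 +
          ‖(q (obs f v p.1 + √(v' - v) • p.2)).2‖ ^ 2 =
        κ ^ 2 * (‖(P (obs f v p.1 + √(v' - v) • p.2)).1‖ ^ 2 +
          ‖(P (obs f v p.1 + √(v' - v) • p.2)).2‖ ^ 2) := by
      intro p
      show ‖(κ • P (obs f v p.1 + √(v' - v) • p.2)).1‖ ^ 2 +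
          ‖(κ • P (obs f v p.1 + √(v' - v) • p.2)).2‖ ^ 2 = _
      rw [Prod.smul_fst, Prod.smul_snd, norm_smul, norm_smul, mul_pow, mul_pow, Real.norm_eq_abs,
        sq_abs]
      ring
    rw [integral_congr_ae (Filter.Eventually.of_forall this), integral_const_mul]
    congr 1
    exact m1 (fun y => ‖(P y).1‖ ^ 2 + ‖(P y).2‖ ^ 2)
      ((hP.fst.norm.pow_const 2).add (hP.snd.norm.pow_const 2))
  have e3 : ∫ p, Real.log (Rd f v' (obs f v p.1 + √(v' - v) • p.2))
      ∂((gam3 I J).prod (gam2 I J)) = Psi f v' :=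
    m1 (fun y => Real.log (Rd f v' y)) (gs_meas_Rd f hf v').log
  have e4 : ∫ p, Real.log (Rd f v (obs f v p.1)) ∂((gam3 I J).prod (gam2 I J)) = Psi f v := by
    rw [integral_fun_fst (fun z => Real.log (Rd f v (obs f v z)))]
    simp [Psi]
  rw [e1, e2, e3, e4] at hg
  -- integrability on the triple
  have hfst : Integrable (fun z : EuclideanSpace ℝ I × EuclideanSpace ℝ I × EuclideanSpace ℝ J =>
      ‖z.2.1‖) (gam3 I J) := by
    have h1 : Integrable (fun x : EuclideanSpace ℝ I => ‖x‖) (stdGaussian (EuclideanSpace ℝ I)) :=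
      (IsGaussian.integrable_id (μ := stdGaussian (EuclideanSpace ℝ I))).norm
    exact (h1.comp_fst (stdGaussian (EuclideanSpace ℝ J))).comp_snd
      (stdGaussian (EuclideanSpace ℝ I))
  have hsnd : Integrable (fun z : EuclideanSpace ℝ I × EuclideanSpace ℝ I × EuclideanSpace ℝ J =>
      ‖z.2.2‖) (gam3 I J) := by
    have h1 : Integrable (fun x : EuclideanSpace ℝ J => ‖x‖) (stdGaussian (EuclideanSpace ℝ J)) :=
      (IsGaussian.integrable_id (μ := stdGaussian (EuclideanSpace ℝ J))).norm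
    exact (h1.comp_snd (stdGaussian (EuclideanSpace ℝ I))).comp_snd
      (stdGaussian (EuclideanSpace ℝ I))
  have hPobs : Measurable (fun z => P (obs f v' z)) := hP.comp (gs_meas_obs f hf v')
  have j1 : Integrable (fun z : EuclideanSpace ℝ I × EuclideanSpace ℝ I × EuclideanSpace ℝ J =>
      ⟪z.2.1, (P (obs f v' z)).1⟫ + ⟪z.2.2, (P (obs f v' z)).2⟫) (gam3 I J) := by
    apply Integrable.mono' ((hfst.const_mul C).add (hsnd.const_mul C))
    · apply Measurable.aestronglyMeasurable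
      exact (measurable_snd.fst.inner hPobs.fst).add (measurable_snd.snd.inner hPobs.snd)
    · refine Filter.Eventually.of_forall fun z => ?_
      have h1 : ‖(P (obs f v' z)).1‖ ≤ C := (norm_fst_le _).trans (hC _)
      have h2 : ‖(P (obs f v' z)).2‖ ≤ C := (norm_snd_le _).trans (hC _)
      refine (norm_add_le _ _).trans (add_le_add ?_ ?_)
      · refine (norm_inner_le_norm _ _).trans ?_
        rw [mul_comm]
        exact mul_le_mul_of_nonneg_right h1 (norm_nonneg _)
      · refine (norm_inner_le_norm _ _).trans ?_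
        rw [mul_comm]
        exact mul_le_mul_of_nonneg_right h2 (norm_nonneg _)
  have j2 : Integrable (fun z : EuclideanSpace ℝ I × EuclideanSpace ℝ I × EuclideanSpace ℝ J =>
      ‖(P (obs f v' z)).1‖ ^ 2 + ‖(P (obs f v' z)).2‖ ^ 2) (gam3 I J) := by
    apply Integrable.mono' (integrable_const (C ^ 2 + C ^ 2))
    · apply Measurable.aestronglyMeasurable
      exact (hPobs.fst.norm.pow_const 2).add (hPobs.snd.norm.pow_const 2)
    · refine Filter.Eventually.of_forall fun z => ?_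
      have h1 : ‖(P (obs f v' z)).1‖ ≤ C := (norm_fst_le _).trans (hC _)
      have h2 : ‖(P (obs f v' z)).2‖ ≤ C := (norm_snd_le _).trans (hC _)
      rw [Real.norm_eq_abs, abs_of_nonneg (by positivity)]
      exact add_le_add (pow_le_pow_left₀ (norm_nonneg _) h1 2)
        (pow_le_pow_left₀ (norm_nonneg _) h2 2)
  have e5 : ∫ z, (2 * (⟪z.2.1, (P (obs f v' z)).1⟫ + ⟪z.2.2, (P (obs f v' z)).2⟫) -
        ‖(P (obs f v' z)).1‖ ^ 2 - ‖(P (obs f v' z)).2‖ ^ 2) ∂(gam3 I J) =
      2 * ∫ z, (⟪z.2.1, (P (obs f v' z)).1⟫ + ⟪z.2.2, (P (obs f v' z)).2⟫) ∂(gam3 I J) -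
      ∫ z, (‖(P (obs f v' z)).1‖ ^ 2 + ‖(P (obs f v' z)).2‖ ^ 2) ∂(gam3 I J) := by
    rw [← integral_const_mul, ← integral_sub (j1.const_mul 2) j2]
    apply integral_congr_ae
    refine Filter.Eventually.of_forall fun z => ?_
    show _ = _ - _
    ring
  rw [e5, ← hκ2]
  nlinarith [hg]

end

section

/-- second moment of the observation -/
theorem obs_moment {I J : Type} [Fintype I] [Fintype J]
    (f : EuclideanSpace ℝ I → EuclideanSpace ℝ J) (hf : Continuous f) (S : ℝ)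
    (hS : ∀ x, ‖f x‖ ≤ S * √(Fintype.card J)) (v : ℝ) (hv : 0 ≤ v) :
    Integrable (fun z => ‖(obs f v z).1‖ ^ 2 + ‖(obs f v z).2‖ ^ 2) (gam3 I J) ∧
    ∫ z, (‖(obs f v z).1‖ ^ 2 + ‖(obs f v z).2‖ ^ 2) ∂(gam3 I J) ≤
      (1 + v) * Fintype.card I + S ^ 2 * Fintype.card J + v * Fintype.card J := by
  classical
  obtain ⟨i1, i2, i3, i4, -⟩ := moments (I := I) (J := J)
  obtain ⟨j1, j2, j3, j4, -⟩ := moments (I := J) (J := I)
  have hB : ∀ x, ‖f x‖ ^ 2 ≤ S ^ 2 * Fintype.card J := by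
    intro x
    have h1 := pow_le_pow_left₀ (norm_nonneg _) (hS x) 2
    rwa [mul_pow, Real.sq_sqrt (Nat.cast_nonneg _)] at h1
  have hv2 : √v ^ 2 = v := Real.sq_sqrt hv
  have hA : Integrable (fun z : EuclideanSpace ℝ I × EuclideanSpace ℝ I × EuclideanSpace ℝ J =>
      ‖z.1‖ ^ 2) (gam3 I J) := i2.comp_fst _
  have hG : Integrable (fun z : EuclideanSpace ℝ I × EuclideanSpace ℝ I × EuclideanSpace ℝ J =>
      ‖z.2.1‖ ^ 2) (gam3 I J) :=
    (i2.comp_fst (stdGaussian (EuclideanSpace ℝ J))).comp_snd (stdGaussian (EuclideanSpace ℝ I))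
  have hC : Integrable (fun z : EuclideanSpace ℝ I × EuclideanSpace ℝ I × EuclideanSpace ℝ J =>
      ‖z.2.2‖ ^ 2) (gam3 I J) :=
    (j2.comp_snd (stdGaussian (EuclideanSpace ℝ I))).comp_snd (stdGaussian (EuclideanSpace ℝ I))
  have hD : Integrable (fun z : EuclideanSpace ℝ I × EuclideanSpace ℝ I × EuclideanSpace ℝ J =>
      ⟪z.1, z.2.1⟫) (gam3 I J) := by
    refine Integrable.mono' (i1.mul_prod (i1.comp_fst (stdGaussian (EuclideanSpace ℝ J)))) ?_ ?_
    · exact Continuous.aestronglyMeasurable (by fun_prop)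
    · exact Filter.Eventually.of_forall fun z => norm_inner_le_norm _ _
  have hE : Integrable (fun z : EuclideanSpace ℝ I × EuclideanSpace ℝ I × EuclideanSpace ℝ J =>
      ⟪f z.1, z.2.2⟫) (gam3 I J) := by
    refine Integrable.mono' (((j1.comp_snd (stdGaussian (EuclideanSpace ℝ I))).comp_snd
      (stdGaussian (EuclideanSpace ℝ I))).const_mul (S * √(Fintype.card J))) ?_ ?_
    · exact Continuous.aestronglyMeasurable (by fun_prop)
    · refine Filter.Eventually.of_forall fun z => (norm_inner_le_norm _ _).trans ?_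
      exact mul_le_mul_of_nonneg_right (hS _) (norm_nonneg _)
  have hF : Integrable (fun z : EuclideanSpace ℝ I × EuclideanSpace ℝ I × EuclideanSpace ℝ J =>
      ‖f z.1‖ ^ 2) (gam3 I J) := by
    refine Integrable.of_bound ?_ (S ^ 2 * Fintype.card J) ?_
    · exact Continuous.aestronglyMeasurable (by fun_prop)
    · refine Filter.Eventually.of_forall fun z => ?_
      rw [Real.norm_of_nonneg (by positivity)]
      exact hB _
  have hexp : (fun z : EuclideanSpace ℝ I × EuclideanSpace ℝ I × EuclideanSpace ℝ J =>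
      ‖(obs f v z).1‖ ^ 2 + ‖(obs f v z).2‖ ^ 2) = fun z =>
      (‖z.1‖ ^ 2 + 2 * √v * ⟪z.1, z.2.1⟫ + v * ‖z.2.1‖ ^ 2) +
        (‖f z.1‖ ^ 2 + 2 * √v * ⟪f z.1, z.2.2⟫ + v * ‖z.2.2‖ ^ 2) := by
    ext z
    simp only [obs]
    rw [norm_add_sq_real, norm_add_sq_real, inner_smul_right, inner_smul_right, norm_smul,
      norm_smul, mul_pow, mul_pow, Real.norm_of_nonneg (Real.sqrt_nonneg v), hv2]
    ring
  have hI1 : Integrable (fun z : EuclideanSpace ℝ I × EuclideanSpace ℝ I × EuclideanSpace ℝ J =>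
      ‖z.1‖ ^ 2 + 2 * √v * ⟪z.1, z.2.1⟫) (gam3 I J) := hA.add (hD.const_mul _)
  have hI2 : Integrable (fun z : EuclideanSpace ℝ I × EuclideanSpace ℝ I × EuclideanSpace ℝ J =>
      ‖z.1‖ ^ 2 + 2 * √v * ⟪z.1, z.2.1⟫ + v * ‖z.2.1‖ ^ 2) (gam3 I J) := hI1.add (hG.const_mul _)
  have hI3 : Integrable (fun z : EuclideanSpace ℝ I × EuclideanSpace ℝ I × EuclideanSpace ℝ J =>
      ‖f z.1‖ ^ 2 + 2 * √v * ⟪f z.1, z.2.2⟫) (gam3 I J) := hF.add (hE.const_mul _)
  have hI4 : Integrable (fun z : EuclideanSpace ℝ I × EuclideanSpace ℝ I × EuclideanSpace ℝ J =>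
      ‖f z.1‖ ^ 2 + 2 * √v * ⟪f z.1, z.2.2⟫ + v * ‖z.2.2‖ ^ 2) (gam3 I J) :=
    hI3.add (hC.const_mul _)
  rw [hexp]
  refine ⟨hI2.add hI4, ?_⟩
  rw [integral_add hI2 hI4, integral_add hI1 (hG.const_mul _), integral_add hA (hD.const_mul _),
    integral_add hI3 (hC.const_mul _), integral_add hF (hE.const_mul _), integral_const_mul,
    integral_const_mul, integral_const_mul, integral_const_mul]
  -- the values
  have vA : ∫ z, ‖z.1‖ ^ 2 ∂(gam3 I J) = Fintype.card I := by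
    rw [gam3, integral_fun_fst (fun x : EuclideanSpace ℝ I => ‖x‖ ^ 2)]
    simp [i3]
  have vG : ∫ z, ‖z.2.1‖ ^ 2 ∂(gam3 I J) = Fintype.card I := by
    rw [gam3, integral_fun_snd (fun x : EuclideanSpace ℝ I × EuclideanSpace ℝ J => ‖x.1‖ ^ 2),
      integral_fun_fst (fun x : EuclideanSpace ℝ I => ‖x‖ ^ 2)]
    simp [i3]
  have vC : ∫ z, ‖z.2.2‖ ^ 2 ∂(gam3 I J) = Fintype.card J := by
    rw [gam3, integral_fun_snd (fun x : EuclideanSpace ℝ I × EuclideanSpace ℝ J => ‖x.2‖ ^ 2),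
      integral_fun_snd (fun x : EuclideanSpace ℝ J => ‖x‖ ^ 2)]
    simp [j3]
  have vD : ∫ z, ⟪z.1, z.2.1⟫ ∂(gam3 I J) = 0 := by
    have h1 := hD
    rw [gam3] at h1 ⊢
    rw [integral_prod _ h1]
    have h2 : ∀ x : EuclideanSpace ℝ I, ∫ y : EuclideanSpace ℝ I × EuclideanSpace ℝ J, ⟪x, y.1⟫
        ∂((stdGaussian (EuclideanSpace ℝ I)).prod (stdGaussian (EuclideanSpace ℝ J))) = 0 := by
      intro x
      rw [integral_fun_fst (fun y : EuclideanSpace ℝ I => ⟪x, y⟫)]
      have h3 : ∀ y : EuclideanSpace ℝ I, ⟪x, y⟫ = ⟪y, x⟫ := fun y => real_inner_comm _ _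
      simp only [h3, i4, smul_zero]
    simp only [h2, integral_zero]
  have vE : ∫ z, ⟪f z.1, z.2.2⟫ ∂(gam3 I J) = 0 := by
    have h1 := hE
    rw [gam3] at h1 ⊢
    rw [integral_prod _ h1]
    have h2 : ∀ x : EuclideanSpace ℝ I, ∫ y : EuclideanSpace ℝ I × EuclideanSpace ℝ J, ⟪f x, y.2⟫
        ∂((stdGaussian (EuclideanSpace ℝ I)).prod (stdGaussian (EuclideanSpace ℝ J))) = 0 := by
      intro x
      rw [integral_fun_snd (fun y : EuclideanSpace ℝ J => ⟪f x, y⟫)]
      have h3 : ∀ y : EuclideanSpace ℝ J, ⟪f x, y⟫ = ⟪y, f x⟫ := fun y => real_inner_comm _ _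
      simp only [h3, j4, smul_zero]
    simp only [h2, integral_zero]
  have vF : ∫ z, ‖f z.1‖ ^ 2 ∂(gam3 I J) ≤ S ^ 2 * Fintype.card J := by
    calc ∫ z, ‖f z.1‖ ^ 2 ∂(gam3 I J) ≤ ∫ z, (S ^ 2 * Fintype.card J : ℝ) ∂(gam3 I J) :=
          integral_mono hF (integrable_const _) (fun z => hB _)
      _ = S ^ 2 * Fintype.card J := by simp
  rw [vA, vG, vC, vD, vE]
  linarith

end

section

/-- comparison of `obs` with a Gaussian -/
theorem psi_final {I J : Type} [Fintype I] [Fintype J]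
    (f : EuclideanSpace ℝ I → EuclideanSpace ℝ J) (hf : Continuous f) (B : ℝ)
    (hB : ∀ x, ‖f x‖ ≤ B) (v : ℝ) (hv : 0 < v) (s2 : ℝ) (hs : 0 < s2) :
    -((∫ z, (‖(obs f v z).1‖ ^ 2 + ‖(obs f v z).2‖ ^ 2) ∂(gam3 I J)) / (2 * s2) +
      (((Fintype.card I : ℝ) + Fintype.card J) / 2) * Real.log (2 * Real.pi * s2)) ≤ Psi f v := by
  obtain ⟨S, hS⟩ : ∃ S : ℝ, ∀ x, ‖f x‖ ≤ S * √(Fintype.card J) := by
    rcases isEmpty_or_nonempty J with hJ | hJ
    · refine ⟨0, fun x => ?_⟩
      have : f x = 0 := Subsingleton.elim _ _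
      rw [this]
      simp
    · refine ⟨B / √(Fintype.card J), fun x => ?_⟩
      have hc : 0 < √(Fintype.card J : ℝ) := by
        apply Real.sqrt_pos.2
        exact_mod_cast Fintype.card_pos
      rw [div_mul_cancel₀ _ hc.ne']
      exact hB x
  obtain ⟨hint, _⟩ := obs_moment f hf S hS v hv.le
  obtain ⟨gI1, gI2, gI3, gI4, gI5⟩ := gk_basic (J := I) s2 hs
  obtain ⟨gJ1, gJ2, gJ3, gJ4, gJ5⟩ := gk_basic (J := J) s2 hs
  obtain ⟨rd1, rd2, rd3⟩ := Rd_basic f hf v hv
  obtain ⟨C, hC0, hC⟩ := Rd_log f hf B hB v hv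
  have hobs : Continuous (obs f v) := by
    unfold obs
    fun_prop
  set G : EuclideanSpace ℝ I × EuclideanSpace ℝ I × EuclideanSpace ℝ J → ℝ := fun z =>
    Real.log (gk s2 (obs f v z).1) + Real.log (gk s2 (obs f v z).2) with hG
  have hGeq : ∀ z, G z = -((((Fintype.card I : ℝ) + Fintype.card J) / 2)
      * Real.log (2 * Real.pi * s2)) - (‖(obs f v z).1‖ ^ 2 + ‖(obs f v z).2‖ ^ 2) / (2 * s2) := by
    intro z
    rw [hG]
    simp only
    rw [gI5, gJ5]
    ring
  have hGint : Integrable G (gam3 I J) := by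
    have : G = fun z => -((((Fintype.card I : ℝ) + Fintype.card J) / 2)
      * Real.log (2 * Real.pi * s2)) - (‖(obs f v z).1‖ ^ 2 + ‖(obs f v z).2‖ ^ 2) / (2 * s2) :=
      funext hGeq
    rw [this]
    exact (integrable_const _).sub (hint.div_const _)
  have hRint : Integrable (fun z => Real.log (Rd f v (obs f v z))) (gam3 I J) := by
    have hb : Integrable (fun z => C * (1 + (‖(obs f v z).1‖ ^ 2 + ‖(obs f v z).2‖ ^ 2)))
        (gam3 I J) := ((integrable_const _).add hint).const_mul C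
    refine hb.mono' ?_ ?_
    · exact (Real.measurable_log.comp (rd1.comp hobs.measurable)).aestronglyMeasurable
    · refine Filter.Eventually.of_forall fun z => ?_
      rw [Real.norm_eq_abs]
      calc _ ≤ C * (1 + ‖(obs f v z).1‖ ^ 2 + ‖(obs f v z).2‖ ^ 2) := hC _
        _ = _ := by ring
  have hL : Integrable (fun z => G z - Real.log (Rd f v (obs f v z))) (gam3 I J) :=
    hGint.sub hRint
  have hexp : ∀ z, Real.exp (G z - Real.log (Rd f v (obs f v z)))
      = gk s2 (obs f v z).1 * gk s2 (obs f v z).2 / Rd f v (obs f v z) := by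
    intro z
    rw [Real.exp_sub, hG]
    simp only
    rw [Real.exp_add, Real.exp_log (gI2 _), Real.exp_log (gJ2 _), Real.exp_log (rd2 _)]
  have hle : ∫⁻ z, ENNReal.ofReal (Real.exp (G z - Real.log (Rd f v (obs f v z)))) ∂(gam3 I J)
      ≤ 1 := by
    have hm : Measurable (fun y : EuclideanSpace ℝ I × EuclideanSpace ℝ J =>
        ENNReal.ofReal (gk s2 y.1 * gk s2 y.2 / Rd f v y)) := by
      apply ENNReal.measurable_ofReal.comp
      exact ((gI1.measurable.comp measurable_fst).mul (gJ1.measurable.comp measurable_snd)).div rd1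
    have h1 : ∫⁻ z, ENNReal.ofReal (Real.exp (G z - Real.log (Rd f v (obs f v z)))) ∂(gam3 I J)
        = ∫⁻ z, (fun y : EuclideanSpace ℝ I × EuclideanSpace ℝ J =>
          ENNReal.ofReal (gk s2 y.1 * gk s2 y.2 / Rd f v y)) (obs f v z) ∂(gam3 I J) := by
      apply lintegral_congr
      intro z
      rw [hexp]
    rw [h1, Rd_density f hf v hv _ hm]
    have h2 : ∀ y : EuclideanSpace ℝ I × EuclideanSpace ℝ J, ENNReal.ofReal (Rd f v y) *
        ENNReal.ofReal (gk s2 y.1 * gk s2 y.2 / Rd f v y)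
        = ENNReal.ofReal (gk s2 y.1) * ENNReal.ofReal (gk s2 y.2) := by
      intro y
      rw [← ENNReal.ofReal_mul (rd2 y).le, ← ENNReal.ofReal_mul (gI2 _).le]
      congr 1
      have := (rd2 y).ne'
      field_simp
    have h3 : ∫⁻ y : EuclideanSpace ℝ I × EuclideanSpace ℝ J, ENNReal.ofReal (Rd f v y) *
        ENNReal.ofReal (gk s2 y.1 * gk s2 y.2 / Rd f v y)
        = ∫⁻ y : EuclideanSpace ℝ I × EuclideanSpace ℝ J,
          ENNReal.ofReal (gk s2 y.1) * ENNReal.ofReal (gk s2 y.2) := lintegral_congr h2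
    have mI : AEMeasurable (fun y : EuclideanSpace ℝ I => ENNReal.ofReal (gk s2 y)) volume :=
      (ENNReal.measurable_ofReal.comp gI1.measurable).aemeasurable
    have mJ : AEMeasurable (fun y : EuclideanSpace ℝ J => ENNReal.ofReal (gk s2 y)) volume :=
      (ENNReal.measurable_ofReal.comp gJ1.measurable).aemeasurable
    rw [h3, Measure.volume_eq_prod, lintegral_prod_mul mI mJ, gI4, gJ4, one_mul]
  have hg := gibbs (gam3 I J) _ hL hle
  rw [integral_sub hGint hRint] at hg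
  have hGi : ∫ z, G z ∂(gam3 I J) = -((((Fintype.card I : ℝ) + Fintype.card J) / 2)
      * Real.log (2 * Real.pi * s2))
      - (∫ z, (‖(obs f v z).1‖ ^ 2 + ‖(obs f v z).2‖ ^ 2) ∂(gam3 I J)) / (2 * s2) := by
    simp only [hGeq]
    rw [integral_sub (integrable_const _) (hint.div_const _), integral_const,
      integral_div]
    simp
  rw [hGi] at hg
  unfold Psi
  linarith

end

section

theorem Rd_factor_pt {I : Type} [Fintype I] (t : ℝ) (ht : 0 < t) (y x : EuclideanSpace ℝ I) :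
    gk 1 x * gk t (y - x) = gk (1 + t) y * gk (t / (1 + t)) (x - (1 / (1 + t)) • y) := by
  have h1 : 0 < 1 + t := by linarith
  have hpi := Real.pi_pos
  unfold gk
  have e1 : (2 * Real.pi * 1) ^ (-(Fintype.card I : ℝ) / 2) *
      (2 * Real.pi * t) ^ (-(Fintype.card I : ℝ) / 2) =
      (2 * Real.pi * (1 + t)) ^ (-(Fintype.card I : ℝ) / 2) *
        (2 * Real.pi * (t / (1 + t))) ^ (-(Fintype.card I : ℝ) / 2) := by
    rw [← Real.mul_rpow (by positivity) (by positivity),
      ← Real.mul_rpow (by positivity) (by positivity)]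
    congr 1
    field_simp
  have e2 : Real.exp (-‖x‖ ^ 2 / (2 * 1)) * Real.exp (-‖y - x‖ ^ 2 / (2 * t)) =
      Real.exp (-‖y‖ ^ 2 / (2 * (1 + t))) *
        Real.exp (-‖x - (1 / (1 + t)) • y‖ ^ 2 / (2 * (t / (1 + t)))) := by
    rw [← Real.exp_add, ← Real.exp_add]
    congr 1
    have n1 : ‖y - x‖ ^ 2 = ‖y‖ ^ 2 - 2 * ⟪y, x⟫ + ‖x‖ ^ 2 := norm_sub_sq_real y x
    have n2 : ‖x - (1 / (1 + t)) • y‖ ^ 2 = ‖x‖ ^ 2 - 2 * ((1 / (1 + t)) * ⟪y, x⟫) +
        (1 / (1 + t)) ^ 2 * ‖y‖ ^ 2 := by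
      rw [norm_sub_sq_real, real_inner_smul_right, real_inner_comm, norm_smul, Real.norm_eq_abs,
        mul_pow, sq_abs]
    rw [n1, n2]
    field_simp
    ring
  calc _ = ((2 * Real.pi * 1) ^ (-(Fintype.card I : ℝ) / 2) *
      (2 * Real.pi * t) ^ (-(Fintype.card I : ℝ) / 2)) *
      (Real.exp (-‖x‖ ^ 2 / (2 * 1)) * Real.exp (-‖y - x‖ ^ 2 / (2 * t))) := by ring
    _ = _ := by rw [e1, e2]; ring

/-- factorisation of the density of the observation -/
theorem Rd_factor {I J : Type} [Fintype I] [Fintype J]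
    (f : EuclideanSpace ℝ I → EuclideanSpace ℝ J) (hf : Continuous f) (t : ℝ) (ht : 0 < t)
    (y : EuclideanSpace ℝ I × EuclideanSpace ℝ J) :
    Rd f t y = gk (1 + t) y.1 * Kd f t √(t / (1 + t)) ((1 / (1 + t)) • y.1) y.2 := by
  have h1 : 0 < 1 + t := by linarith
  have hτ : 0 < t / (1 + t) := by positivity
  obtain ⟨m, hm⟩ : ∃ m : EuclideanSpace ℝ I, m = (1 / (1 + t)) • y.1 := ⟨_, rfl⟩
  rw [← hm]
  have gI := gk_basic (J := I) t ht
  have gJ := gk_basic (J := J) t ht
  have gI1 := gk_basic (J := I) (1 + t) h1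
  have gIτ := gk_basic (J := I) (t / (1 + t)) hτ
  have gI0 := gk_basic (J := I) 1 one_pos
  have c1 : Continuous fun x : EuclideanSpace ℝ I => gk t (y.1 - x) * gk t (y.2 - f x) :=
    (gI.1.comp (continuous_const.sub continuous_id)).mul (gJ.1.comp (continuous_const.sub hf))
  have c2 : Continuous fun x : EuclideanSpace ℝ I => gk t (y.2 - f x) :=
    gJ.1.comp (continuous_const.sub hf)
  have c3 : Continuous fun g : EuclideanSpace ℝ I => gk t (y.2 - f (m + √(t / (1 + t)) • g)) :=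
    c2.comp (continuous_const.add (continuous_const_smul _))
  have s1 := gauss_shift 1 one_pos (0 : EuclideanSpace ℝ I)
    (fun x => ENNReal.ofReal (gk t (y.1 - x) * gk t (y.2 - f x)))
    (ENNReal.measurable_ofReal.comp c1.measurable)
  have s2 := gauss_shift (t / (1 + t)) hτ m (fun x => ENNReal.ofReal (gk t (y.2 - f x)))
    (ENNReal.measurable_ofReal.comp c2.measurable)
  simp only [Real.sqrt_one, one_smul, zero_add, sub_zero] at s1
  have hR : Rd f t y = (∫⁻ x, ENNReal.ofReal (gk t (y.1 - x) * gk t (y.2 - f x))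
      ∂(stdGaussian (EuclideanSpace ℝ I))).toReal := by
    unfold Rd
    exact integral_eq_lintegral_of_nonneg_ae
      (Filter.Eventually.of_forall fun x => mul_nonneg (gI.2.1 _).le (gJ.2.1 _).le)
      c1.aestronglyMeasurable
  have hK : Kd f t √(t / (1 + t)) m y.2 =
      (∫⁻ g, ENNReal.ofReal (gk t (y.2 - f (m + √(t / (1 + t)) • g)))
      ∂(stdGaussian (EuclideanSpace ℝ I))).toReal := by
    unfold Kd
    exact integral_eq_lintegral_of_nonneg_ae
      (Filter.Eventually.of_forall fun x => (gJ.2.1 _).le) c3.aestronglyMeasurable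
  rw [hR, hK, s1, s2]
  have hpt : ∀ x : EuclideanSpace ℝ I,
      ENNReal.ofReal (gk 1 x) * ENNReal.ofReal (gk t (y.1 - x) * gk t (y.2 - f x)) =
      ENNReal.ofReal (gk (1 + t) y.1) *
        (ENNReal.ofReal (gk (t / (1 + t)) (x - m)) * ENNReal.ofReal (gk t (y.2 - f x))) := by
    intro x
    rw [← ENNReal.ofReal_mul (gI0.2.1 _).le, ← ENNReal.ofReal_mul (gIτ.2.1 _).le,
      ← ENNReal.ofReal_mul (gI1.2.1 _).le, ← mul_assoc, Rd_factor_pt t ht, ← hm, mul_assoc]
  simp only [hpt]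
  rw [lintegral_const_mul' _ _ ENNReal.ofReal_ne_top, ENNReal.toReal_mul,
    ENNReal.toReal_ofReal (gI1.2.1 _).le]

end

section

theorem h15813_assoc (I J : Type) [Fintype I] [Fintype J] :
    MeasurePreserving (MeasurableEquiv.prodAssoc :
      (EuclideanSpace ℝ I × EuclideanSpace ℝ I) × EuclideanSpace ℝ J ≃ᵐ
        EuclideanSpace ℝ I × EuclideanSpace ℝ I × EuclideanSpace ℝ J)
      (((stdGaussian (EuclideanSpace ℝ I)).prod (stdGaussian (EuclideanSpace ℝ I))).prod
        (stdGaussian (EuclideanSpace ℝ J))) (gam3 I J) := by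
  refine ⟨MeasurableEquiv.measurable _, ?_⟩
  unfold gam3
  exact Measure.prodAssoc_prod

theorem h15813_R (I J : Type) [Fintype I] [Fintype J] (c s : ℝ) (h : c ^ 2 + s ^ 2 = 1) :
    MeasurePreserving (fun z : EuclideanSpace ℝ I × EuclideanSpace ℝ I × EuclideanSpace ℝ J =>
      (c • z.1 + s • z.2.1, s • z.1 - c • z.2.1, z.2.2)) (gam3 I J) (gam3 I J) := by
  have h1 := (refl1_mp I c s h).1
  have h2 := h1.prod (MeasurePreserving.id (stdGaussian (EuclideanSpace ℝ J)))
  have h3 := h15813_assoc I J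
  have h4 := (h3.comp h2).comp h3.symm
  exact h4

theorem h15813_Kdm {I J Z : Type} [Fintype I] [Fintype J] [MeasurableSpace Z]
    (f : EuclideanSpace ℝ I → EuclideanSpace ℝ J) (hf : Continuous f) (t σ : ℝ) (ht : 0 < t)
    (u : Z → EuclideanSpace ℝ I) (v : Z → EuclideanSpace ℝ J) (hu : Measurable u)
    (hv : Measurable v) : Measurable (fun z => Real.log (Kd f t σ (u z) (v z))) := by
  have h1 : Measurable (fun z => (u z, v z)) := hu.prodMk hv
  have h0 := (Kd_basic (I := I) (J := J) f hf t σ ht).1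
  have h2 := h0.comp h1
  have h3 := Real.measurable_log.comp h2
  have h4 : (fun z => Real.log (Kd f t σ (u z) (v z))) =
      Real.log ∘ ((fun p : EuclideanSpace ℝ I × EuclideanSpace ℝ J => Kd f t σ p.1 p.2) ∘
        fun z => (u z, v z)) := by
    funext z
    rfl
  rw [h4]
  exact h3

theorem h15813_gkm {J Z : Type} [Fintype J] [MeasurableSpace Z] (v : ℝ) (hv : 0 < v)
    (u : Z → EuclideanSpace ℝ J) (hu : Measurable u) :
    Measurable (fun z => Real.log (gk v (u z))) := by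
  have h2 : Measurable (fun z => gk v (u z)) := (gk_basic (J := J) v hv).1.measurable.comp hu
  exact Real.measurable_log.comp h2

/-- `Psi` at the initial level -/
theorem psi_start {I J : Type} [Fintype I] [Fintype J]
    (f : EuclideanSpace ℝ I → EuclideanSpace ℝ J) (hf : Continuous f) (B : ℝ)
    (hB : ∀ x, ‖f x‖ ≤ B) (t : ℝ) (ht : 0 < t) :
    Psi f t = Phi f t (1 / √(1 + t)) √(t / (1 + t)) -
      ((Fintype.card I : ℝ) / 2) * (Real.log (2 * Real.pi * (1 + t)) + 1) := by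
  classical
  have ht1 : 0 < 1 + t := by linarith
  set τ := √(t / (1 + t)) with hτ
  set c := 1 / √(1 + t) with hc
  have hsq1 : √(1 + t) ^ 2 = 1 + t := Real.sq_sqrt ht1.le
  have hsp : 0 < √(1 + t) := Real.sqrt_pos.mpr ht1
  have hτ2 : τ ^ 2 = t / (1 + t) := Real.sq_sqrt (by positivity)
  have hc2 : c ^ 2 = 1 / (1 + t) := by
    rw [hc, div_pow, hsq1, one_pow]
  have hcs : c ^ 2 + τ ^ 2 = 1 := by
    rw [hc2, hτ2]
    field_simp
  have hτ' : τ = √t / √(1 + t) := by
    rw [hτ, Real.sqrt_div ht.le]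
  have hst : √t * √t = t := Real.mul_self_sqrt ht.le
  have hs1 : √(1 + t) * √(1 + t) = 1 + t := Real.mul_self_sqrt ht1.le
  have e1 : c + √t * τ = √(1 + t) := by
    rw [hτ', hc]
    field_simp
    nlinarith
  have e2 : τ - √t * c = 0 := by
    rw [hτ', hc]
    ring
  have e3 : (1 / (1 + t)) * √(1 + t) = c := by
    rw [hc]
    field_simp
    nlinarith
  -- the integrand
  set G : EuclideanSpace ℝ I × EuclideanSpace ℝ I × EuclideanSpace ℝ J → ℝ := fun z =>
    Real.log (gk (1 + t) (z.1 + √t • z.2.1)) +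
      Real.log (Kd f t τ ((1 / (1 + t)) • (z.1 + √t • z.2.1)) (f z.1 + √t • z.2.2)) with hG
  have hKm := (Kd_basic (I := I) (J := J) f hf t τ ht).1
  have hKp := (Kd_basic (I := I) (J := J) f hf t τ ht).2.1
  obtain ⟨hgc, hgp, -, -, hgl⟩ := gk_basic (J := I) (1 + t) ht1
  have hGm : Measurable G := by
    have hfm := hf.measurable
    exact (h15813_gkm (1 + t) ht1 (fun z : EuclideanSpace ℝ I × EuclideanSpace ℝ I ×
        EuclideanSpace ℝ J => z.1 + √t • z.2.1) (by fun_prop)).add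
      (h15813_Kdm f hf t τ ht (fun z : EuclideanSpace ℝ I × EuclideanSpace ℝ I ×
        EuclideanSpace ℝ J => (1 / (1 + t)) • (z.1 + √t • z.2.1))
        (fun z => f z.1 + √t • z.2.2) (by fun_prop) (by fun_prop))
  have h1 : Psi f t = ∫ z, G z ∂(gam3 I J) := by
    unfold Psi
    apply integral_congr_ae
    refine Filter.Eventually.of_forall fun z => ?_
    simp only [hG, obs]
    rw [Rd_factor f hf t ht, Real.log_mul (hgp _).ne' (hKp _ _).ne']
  have hR := h15813_R I J c τ hcs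
  have h2 : ∫ z, G z ∂(gam3 I J) = ∫ z, G (c • z.1 + τ • z.2.1, τ • z.1 - c • z.2.1, z.2.2)
      ∂(gam3 I J) := by
    conv_lhs => rw [← hR.map_eq]
    exact integral_map hR.measurable.aemeasurable hGm.aestronglyMeasurable
  have h3 : ∀ z : EuclideanSpace ℝ I × EuclideanSpace ℝ I × EuclideanSpace ℝ J,
      G (c • z.1 + τ • z.2.1, τ • z.1 - c • z.2.1, z.2.2) =
      (-((Fintype.card I : ℝ) / 2) * Real.log (2 * Real.pi * (1 + t)) - ‖z.1‖ ^ 2 / 2) +
      Real.log (Kd f t τ (c • z.1) (f (c • z.1 + τ • z.2.1) + √t • z.2.2)) := by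
    intro z
    have h4 : c • z.1 + τ • z.2.1 + √t • (τ • z.1 - c • z.2.1) = √(1 + t) • z.1 := by
      have h5 : c • z.1 + τ • z.2.1 + √t • (τ • z.1 - c • z.2.1)
          = (c + √t * τ) • z.1 + (τ - √t * c) • z.2.1 := by
        module
      rw [h5, e1, e2, zero_smul, add_zero]
    simp only [hG]
    rw [h4, hgl, smul_smul, e3, norm_smul, mul_pow, Real.norm_of_nonneg hsp.le, hsq1]
    congr 2
    field_simp
  rw [h1, h2]
  have h4 : ∫ z, G (c • z.1 + τ • z.2.1, τ • z.1 - c • z.2.1, z.2.2) ∂(gam3 I J) =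
      ∫ z : EuclideanSpace ℝ I × EuclideanSpace ℝ I × EuclideanSpace ℝ J,
      ((-((Fintype.card I : ℝ) / 2) * Real.log (2 * Real.pi * (1 + t)) - ‖z.1‖ ^ 2 / 2) +
      Real.log (Kd f t τ (c • z.1) (f (c • z.1 + τ • z.2.1) + √t • z.2.2))) ∂(gam3 I J) := by
    apply integral_congr_ae
    exact Filter.Eventually.of_forall fun z => h3 z
  rw [h4]
  obtain ⟨-, hmI, hmI2, -, -⟩ := moments (I := I) (J := J)
  obtain ⟨-, hmJ, -, -, -⟩ := moments (I := J) (J := I)
  have hi1 : Integrable (fun z : EuclideanSpace ℝ I × EuclideanSpace ℝ I × EuclideanSpace ℝ J =>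
      ‖z.1‖ ^ 2) (gam3 I J) := by
    unfold gam3
    exact hmI.comp_fst _
  have hi2 : Integrable (fun z : EuclideanSpace ℝ I × EuclideanSpace ℝ I × EuclideanSpace ℝ J =>
      ‖z.2.2‖ ^ 2) (gam3 I J) := by
    unfold gam3
    exact (hmJ.comp_snd (stdGaussian (EuclideanSpace ℝ I))).comp_snd _
  have hi3 : Integrable (fun z : EuclideanSpace ℝ I × EuclideanSpace ℝ I × EuclideanSpace ℝ J =>
      -((Fintype.card I : ℝ) / 2) * Real.log (2 * Real.pi * (1 + t)) - ‖z.1‖ ^ 2 / 2)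
      (gam3 I J) := (integrable_const _).sub (hi1.div_const 2)
  have hi4 : Integrable (fun z : EuclideanSpace ℝ I × EuclideanSpace ℝ I × EuclideanSpace ℝ J =>
      Real.log (Kd f t τ (c • z.1) (f (c • z.1 + τ • z.2.1) + √t • z.2.2))) (gam3 I J) := by
    obtain ⟨C, hC0, hC⟩ := Kd_log (I := I) (J := J) f hf B hB t ht
    have hdom : Integrable (fun z : EuclideanSpace ℝ I × EuclideanSpace ℝ I × EuclideanSpace ℝ J =>
        C * (1 + (2 * B ^ 2 + 2 * t * ‖z.2.2‖ ^ 2))) (gam3 I J) :=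
      ((integrable_const _).add ((integrable_const _).add (hi2.const_mul _))).const_mul C
    refine hdom.mono' ?_ ?_
    · have hfm := hf.measurable
      exact (h15813_Kdm f hf t τ ht (fun z : EuclideanSpace ℝ I × EuclideanSpace ℝ I ×
        EuclideanSpace ℝ J => c • z.1)
        (fun z => f (c • z.1 + τ • z.2.1) + √t • z.2.2) (by fun_prop)
        (by fun_prop)).aestronglyMeasurable
    · refine Filter.Eventually.of_forall fun z => ?_
      rw [Real.norm_eq_abs]
      refine (hC _ _ _).trans ?_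
      apply mul_le_mul_of_nonneg_left _ hC0
      have h5 : ‖f (c • z.1 + τ • z.2.1) + √t • z.2.2‖ ≤ B + √t * ‖z.2.2‖ := by
        refine (norm_add_le _ _).trans ?_
        rw [norm_smul, Real.norm_of_nonneg (Real.sqrt_nonneg t)]
        exact add_le_add (hB _) (le_refl _)
      have h6 : 0 ≤ ‖f (c • z.1 + τ • z.2.1) + √t • z.2.2‖ := norm_nonneg _
      have h7 : ‖f (c • z.1 + τ • z.2.1) + √t • z.2.2‖ ^ 2 ≤ (B + √t * ‖z.2.2‖) ^ 2 :=
        pow_le_pow_left₀ h6 h5 2
      have h8 : (√t * ‖z.2.2‖) ^ 2 = t * ‖z.2.2‖ ^ 2 := by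
        rw [mul_pow, Real.sq_sqrt ht.le]
      nlinarith [sq_nonneg (B - √t * ‖z.2.2‖)]
  rw [integral_add hi3 hi4, integral_sub (integrable_const _) (hi1.div_const 2)]
  have h5 : ∫ z, ‖z.1‖ ^ 2 / 2 ∂(gam3 I J) = (Fintype.card I : ℝ) / 2 := by
    rw [integral_div]
    congr 1
    unfold gam3
    rw [integral_fun_fst (fun x : EuclideanSpace ℝ I => ‖x‖ ^ 2), hmI2]
    simp
  rw [h5, integral_const]
  have h6 : Phi f t c τ = ∫ z : EuclideanSpace ℝ I × EuclideanSpace ℝ I × EuclideanSpace ℝ J,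
      Real.log (Kd f t τ (c • z.1) (f (c • z.1 + τ • z.2.1) + √t • z.2.2)) ∂(gam3 I J) := rfl
  rw [h6]
  simp only [probReal_univ, one_smul]
  ring

end

section

/-- the bound of the whole chain by `Phi` -/
theorem chain_bound {I J : Type} [Fintype I] [Fintype J]
    (f : EuclideanSpace ℝ I → EuclideanSpace ℝ J) (hf : Continuous f) (S : ℝ) (hS0 : 0 ≤ S)
    (hS : ∀ x, ‖f x‖ ≤ S * √(Fintype.card J)) (t : ℝ) (ht : 0 < t) (ht1 : t ≤ 1)
    (hIJ : Fintype.card I = 3 * Fintype.card J) (G : ℝ)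
    (hG : Phi f t (1 / √(1 + t)) √(t / (1 + t)) ≤
      -((Fintype.card J : ℝ) / 2) * (Real.log (2 * Real.pi * t) + 1) - G / 2)
    (n : ℕ) (u : ℕ → ℝ) (hu0 : u 0 = t) (hu : StrictMono u) (hun : u n ≤ 1)
    (P : ℕ → EuclideanSpace ℝ I × EuclideanSpace ℝ J →
          EuclideanSpace ℝ I × EuclideanSpace ℝ J)
    (hP : ∀ j, Measurable (P j)) (hPb : ∀ j, ∃ C, ∀ y, ‖P j y‖ ≤ C) :
    ∑ j ∈ Finset.range n, (u (j + 1) - u j) / u (j + 1) *
        ∫ z, (2 * (⟪z.2.1, (P j (obs f (u (j + 1)) z)).1⟫ +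
              ⟪z.2.2, (P j (obs f (u (j + 1)) z)).2⟫) -
            ‖(P j (obs f (u (j + 1)) z)).1‖ ^ 2 -
            ‖(P j (obs f (u (j + 1)) z)).2‖ ^ 2) ∂(gam3 I J)
        ≤ Fintype.card J * (4 * Real.log (2 + S ^ 2) + Real.log (1 / t)) - G := by
  have hupos : ∀ j, 0 < u j := by
    intro j
    have : u 0 ≤ u j := hu.monotone (Nat.zero_le j)
    rw [hu0] at this
    linarith
  have hstep : ∀ j ∈ Finset.range n, (u (j + 1) - u j) / u (j + 1) *
        ∫ z, (2 * (⟪z.2.1, (P j (obs f (u (j + 1)) z)).1⟫ +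
              ⟪z.2.2, (P j (obs f (u (j + 1)) z)).2⟫) -
            ‖(P j (obs f (u (j + 1)) z)).1‖ ^ 2 -
            ‖(P j (obs f (u (j + 1)) z)).2‖ ^ 2) ∂(gam3 I J) ≤ 2 * (Psi f (u j) - Psi f (u (j + 1))) := by
    intro j _
    obtain ⟨C, hC⟩ := hPb j
    exact g_step f hf (S * √(Fintype.card J)) hS (u j) (u (j + 1)) (hupos j) (hu (Nat.lt_succ_self j)) (P j) (hP j) C hC
  have hsum := Finset.sum_le_sum hstep
  have htel : ∑ j ∈ Finset.range n, 2 * (Psi f (u j) - Psi f (u (j + 1))) = 2 * (Psi f t - Psi f (u n)) := by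
    rw [← Finset.mul_sum, Finset.sum_range_sub' (fun j => Psi f (u j)), hu0]
  rw [htel] at hsum
  refine hsum.trans ?_
  have hs2 : (0 : ℝ) < 2 + S ^ 2 := by positivity
  have h1 := psi_start f hf (S * √(Fintype.card J)) hS t ht
  have h2 := psi_final f hf (S * √(Fintype.card J)) hS (u n) (hupos n) (2 + S ^ 2) hs2
  have h3 := (obs_moment f hf S hS (u n) (hupos n).le).2
  have hI : (Fintype.card I : ℝ) = 3 * Fintype.card J := by exact_mod_cast hIJ
  rw [hI] at h1 h2 h3
  set d : ℝ := (Fintype.card J : ℝ) with hd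
  have hd0 : 0 ≤ d := by positivity
  set M : ℝ := ∫ z, (‖(obs f (u n) z).1‖ ^ 2 + ‖(obs f (u n) z).2‖ ^ 2) ∂(gam3 I J) with hM
  have hM1 : M ≤ (7 + S ^ 2) * d := by
    have : (u n) * d ≤ 1 * d := by gcongr
    nlinarith
  have hM2 : M / (2 * (2 + S ^ 2)) ≤ 2 * d := by
    rw [div_le_iff₀ (by positivity)]
    nlinarith [sq_nonneg S, mul_nonneg hd0 (sq_nonneg S)]
  have l1 : Real.log (2 * Real.pi * t) = Real.log (2 * Real.pi) + Real.log t :=
    Real.log_mul (by positivity) ht.ne'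
  have l2 : Real.log (2 * Real.pi * (1 + t)) = Real.log (2 * Real.pi) + Real.log (1 + t) :=
    Real.log_mul (by positivity) (by positivity)
  have l3 : Real.log (2 * Real.pi * (2 + S ^ 2)) = Real.log (2 * Real.pi) + Real.log (2 + S ^ 2) :=
    Real.log_mul (by positivity) (by positivity)
  have l4 : Real.log (1 / t) = - Real.log t := by rw [one_div, Real.log_inv]
  have l5 : 0 ≤ Real.log (1 + t) := Real.log_nonneg (by linarith)
  have l6 : 0 ≤ d * Real.log (1 + t) := mul_nonneg hd0 l5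
  rw [l1] at hG
  rw [l2] at h1
  rw [l3] at h2
  rw [l4, h1]
  nlinarith

end

end Pool.Agent.Helper38.FE
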