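import Pool.Agent.Helper38.FE.ClsA

/-! Module ABC, part B: integration by parts, Poincare, linear algebra. -/

set_option autoImplicit false
set_option linter.unusedVariables false
set_option linter.unusedSectionVars false

open MeasureTheory ProbabilityTheory
open scoped RealInnerProductSpace ENNReal Topology

namespace Pool.Agent.Helper38.FE

section

theorem stein_wd {I : Type} [Fintype I] : stdGaussian (EuclideanSpace ℝ I) =
    (volume : Measure (EuclideanSpace ℝ I)).withDensity (fun y => ENNReal.ofReal (gk 1 y)) := by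
  ext s hs
  rw [withDensity_apply _ hs]
  have h := gauss_shift (I := I) 1 one_pos 0 (s.indicator (fun _ => 1))
    (measurable_const.indicator hs)
  have h1 : ∀ x : EuclideanSpace ℝ I, (0 : EuclideanSpace ℝ I) + √(1 : ℝ) • x = x := by
    intro x
    rw [Real.sqrt_one, one_smul, zero_add]
  simp only [h1, sub_zero] at h
  have h6 : ∫⁻ x, s.indicator (fun _ => (1 : ℝ≥0∞)) x ∂(stdGaussian (EuclideanSpace ℝ I)) =
      (stdGaussian (EuclideanSpace ℝ I)) s := lintegral_indicator_one hs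
  rw [h6] at h
  rw [h, ← lintegral_indicator hs]
  apply lintegral_congr
  intro y
  by_cases hy : y ∈ s
  · rw [Set.indicator_of_mem hy, Set.indicator_of_mem hy, mul_one]
  · rw [Set.indicator_of_notMem hy, Set.indicator_of_notMem hy, mul_zero]

theorem stein_int {I : Type} [Fintype I] (f : EuclideanSpace ℝ I → ℝ) :
    ∫ z, f z ∂(stdGaussian (EuclideanSpace ℝ I)) = ∫ z, gk 1 z * f z := by
  obtain ⟨h1, h2, h3, h4, h5⟩ := gk_basic (J := I) 1 one_pos
  have hm : Measurable (fun y : EuclideanSpace ℝ I => ENNReal.ofReal (gk 1 y)) :=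
    ENNReal.measurable_ofReal.comp h1.measurable
  rw [stein_wd, integral_withDensity_eq_integral_toReal_smul hm
    (Filter.Eventually.of_forall fun x => ENNReal.ofReal_lt_top)]
  congr 1
  funext z
  rw [ENNReal.toReal_ofReal (h2 z).le, smul_eq_mul]

theorem stein_gki {I : Type} [Fintype I] (v : ℝ) (hv : 0 < v) :
    Integrable (gk v : EuclideanSpace ℝ I → ℝ) := by
  obtain ⟨h1, h2, h3, h4, h5⟩ := gk_basic (J := I) v hv
  refine ⟨h1.aestronglyMeasurable, ?_⟩
  rw [hasFiniteIntegral_iff_ofReal (Filter.Eventually.of_forall fun x => (h2 x).le), h4]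
  exact ENNReal.one_lt_top

theorem stein_fd {I : Type} [Fintype I] [DecidableEq I] (z : EuclideanSpace ℝ I) (i : I) :
    DifferentiableAt ℝ (gk 1 : EuclideanSpace ℝ I → ℝ) z ∧
    fderiv ℝ (gk 1) z (EuclideanSpace.single i 1) = -(z i * gk 1 z) := by
  obtain ⟨c, hc⟩ : ∃ c : ℝ, c = (2 * Real.pi * 1) ^ (-(Fintype.card I : ℝ) / 2) := ⟨_, rfl⟩
  have hg : (gk 1 : EuclideanSpace ℝ I → ℝ) = fun y => c * Real.exp (-(1 / 2) * ‖y‖ ^ 2) := by
    funext y
    unfold gk
    rw [hc]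
    congr 2
    ring
  have h : HasFDerivAt (fun y : EuclideanSpace ℝ I => c * Real.exp (-(1 / 2) * ‖y‖ ^ 2))
      (c • (Real.exp (-(1 / 2) * ‖z‖ ^ 2) • ((-(1 / 2) : ℝ) • (2 • innerSL ℝ z)))) z :=
    (((hasStrictFDerivAt_norm_sq z).hasFDerivAt.const_mul (-(1 / 2))).exp).const_mul c
  rw [hg]
  refine ⟨h.differentiableAt, ?_⟩
  rw [h.fderiv]
  show c * (Real.exp (-(1 / 2) * ‖z‖ ^ 2) * (-(1 / 2) * (2 • ⟪z, EuclideanSpace.single i 1⟫))) = _
  have h2 : ⟪z, EuclideanSpace.single i (1 : ℝ)⟫ = z i := by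
    rw [EuclideanSpace.inner_single_right]
    simp
  rw [h2]
  simp only [nsmul_eq_mul]
  push_cast
  ring

theorem stein_xi {I : Type} [Fintype I] [DecidableEq I] (i : I) (φ : EuclideanSpace ℝ I → ℝ)
    (hφ : Continuous φ) (K : ℝ) (h0 : ∀ x, ‖φ x‖ ≤ K) :
    Integrable (fun z : EuclideanSpace ℝ I => φ z * -(z i * gk 1 z)) := by
  obtain ⟨g1, g2, g3, g4, g5⟩ := gk_basic (J := I) 1 one_pos
  have hK : 0 ≤ K := (norm_nonneg _).trans (h0 0)
  obtain ⟨c1, hc1⟩ : ∃ c : ℝ, c = (2 * Real.pi * 1) ^ (-(Fintype.card I : ℝ) / 2) := ⟨_, rfl⟩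
  obtain ⟨c2, hc2⟩ : ∃ c : ℝ, c = (2 * Real.pi * 2) ^ (-(Fintype.card I : ℝ) / 2) := ⟨_, rfl⟩
  have hc1p : 0 < c1 := by rw [hc1]; exact Real.rpow_pos_of_pos (by positivity) _
  have hc2p : 0 < c2 := by rw [hc2]; exact Real.rpow_pos_of_pos (by positivity) _
  refine ((stein_gki (I := I) 2 two_pos).const_mul (K * (c1 / c2))).mono' ?_ ?_
  · apply Continuous.aestronglyMeasurable
    have hzi : Continuous fun z : EuclideanSpace ℝ I => z i := by fun_prop
    exact hφ.mul ((hzi.mul g1).neg)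
  · refine Filter.Eventually.of_forall fun z => ?_
    rw [norm_mul, norm_neg, norm_mul]
    have h1 : ‖z i‖ ≤ ‖z‖ := PiLp.norm_apply_le z i
    have h2 : gk 1 z = c1 * Real.exp (-‖z‖ ^ 2 / 2) := by
      unfold gk
      rw [hc1, mul_one, mul_one]
    have h3 : gk 2 z = c2 * Real.exp (-‖z‖ ^ 2 / 4) := by
      unfold gk
      rw [hc2]
      congr 3
      norm_num
    have h4 : ‖z‖ * Real.exp (-‖z‖ ^ 2 / 2) ≤ Real.exp (-‖z‖ ^ 2 / 4) := by
      have h5 : ‖z‖ ≤ Real.exp (‖z‖ ^ 2 / 4) := by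
        have := Real.add_one_le_exp (‖z‖ ^ 2 / 4)
        nlinarith [sq_nonneg (‖z‖ - 2)]
      calc ‖z‖ * Real.exp (-‖z‖ ^ 2 / 2) ≤ Real.exp (‖z‖ ^ 2 / 4) * Real.exp (-‖z‖ ^ 2 / 2) :=
            mul_le_mul_of_nonneg_right h5 (Real.exp_pos _).le
        _ = Real.exp (-‖z‖ ^ 2 / 4) := by
            rw [← Real.exp_add]
            congr 1
            ring
    rw [Real.norm_eq_abs (gk 1 z), abs_of_pos (g2 z), h2, h3]
    calc ‖φ z‖ * (‖z i‖ * (c1 * Real.exp (-‖z‖ ^ 2 / 2)))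
        ≤ K * (‖z‖ * (c1 * Real.exp (-‖z‖ ^ 2 / 2))) := by
          apply mul_le_mul (h0 z) _ (by positivity) hK
          exact mul_le_mul_of_nonneg_right h1 (by positivity)
      _ = (K * c1) * (‖z‖ * Real.exp (-‖z‖ ^ 2 / 2)) := by ring
      _ ≤ (K * c1) * Real.exp (-‖z‖ ^ 2 / 4) := mul_le_mul_of_nonneg_left h4 (by positivity)
      _ = K * (c1 / c2) * (c2 * Real.exp (-‖z‖ ^ 2 / 4)) := by field_simp

/-- Gaussian integration by parts -/
theorem stein {I : Type} [Fintype I] [DecidableEq I] (φ : EuclideanSpace ℝ I → ℝ)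
    (hφ : ContDiff ℝ 1 φ) (K : ℝ) (h0 : ∀ x, ‖φ x‖ ≤ K) (h1 : ∀ x, ‖fderiv ℝ φ x‖ ≤ K) (i : I) :
    ∫ z, z i * φ z ∂(stdGaussian (EuclideanSpace ℝ I)) =
      ∫ z, fderiv ℝ φ z (EuclideanSpace.single i 1) ∂(stdGaussian (EuclideanSpace ℝ I)) := by
  obtain ⟨g1, g2, g3, g4, g5⟩ := gk_basic (J := I) 1 one_pos
  have hgi := stein_gki (I := I) 1 one_pos
  have hc1 : Continuous fun z : EuclideanSpace ℝ I => fderiv ℝ φ z (EuclideanSpace.single i 1) :=
    (hφ.continuous_fderiv (by norm_num)).clm_apply continuous_const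
  have hb : ∀ z, ‖fderiv ℝ φ z (EuclideanSpace.single i 1)‖ ≤ K := by
    intro z
    refine ((fderiv ℝ φ z).le_opNorm _).trans ?_
    have : ‖(EuclideanSpace.single i 1 : EuclideanSpace ℝ I)‖ = 1 := by simp
    rw [this, mul_one]
    exact h1 z
  have i1 : Integrable (fun x => fderiv ℝ φ x (EuclideanSpace.single i 1) * gk 1 x)
      (volume : Measure (EuclideanSpace ℝ I)) := by
    refine (hgi.const_mul K).mono' (hc1.mul g1).aestronglyMeasurable ?_
    refine Filter.Eventually.of_forall fun z => ?_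
    rw [norm_mul, Real.norm_eq_abs (gk 1 z), abs_of_pos (g2 z)]
    exact mul_le_mul_of_nonneg_right (hb z) (g2 z).le
  have i3 : Integrable (fun x => φ x * gk 1 x) (volume : Measure (EuclideanSpace ℝ I)) := by
    refine (hgi.const_mul K).mono' (hφ.continuous.mul g1).aestronglyMeasurable ?_
    refine Filter.Eventually.of_forall fun z => ?_
    rw [norm_mul, Real.norm_eq_abs (gk 1 z), abs_of_pos (g2 z)]
    exact mul_le_mul_of_nonneg_right (h0 z) (g2 z).le
  have i2 : Integrable (fun x => φ x * fderiv ℝ (gk 1) x (EuclideanSpace.single i 1))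
      (volume : Measure (EuclideanSpace ℝ I)) := by
    have e : (fun x => φ x * fderiv ℝ (gk 1) x (EuclideanSpace.single i 1)) =
        fun z : EuclideanSpace ℝ I => φ z * -(z i * gk 1 z) := by
      funext z
      rw [(stein_fd z i).2]
    rw [e]
    exact stein_xi i φ hφ.continuous K h0
  have key := integral_mul_fderiv_eq_neg_fderiv_mul_of_integrable
    (μ := (volume : Measure (EuclideanSpace ℝ I))) i1 i2 i3
    (fun x _ => (hφ.differentiable (by norm_num)) x) (fun x _ => (stein_fd x i).1)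
  rw [stein_int, stein_int]
  have e1 : (fun z : EuclideanSpace ℝ I => gk 1 z * (z i * φ z)) =
      fun z => -(φ z * fderiv ℝ (gk 1) z (EuclideanSpace.single i 1)) := by
    funext z
    rw [(stein_fd z i).2]
    ring
  have e2 : (fun z : EuclideanSpace ℝ I => gk 1 z * fderiv ℝ φ z (EuclideanSpace.single i 1)) =
      fun z => fderiv ℝ φ z (EuclideanSpace.single i 1) * gk 1 z := by
    funext z
    ring
  rw [e1, e2, integral_neg, key, neg_neg]

end

section

/-- Gaussian integration by parts, vector form -/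
theorem stein_vec {I J : Type} [Fintype I] [Fintype J] [DecidableEq I]
    (G : EuclideanSpace ℝ I → EuclideanSpace ℝ J)
    (hG : ContDiff ℝ 1 G) (K : ℝ) (h0 : ∀ x, ‖G x‖ ≤ K) (h1 : ∀ x, ‖fderiv ℝ G x‖ ≤ K)
    (A : EuclideanSpace ℝ I →L[ℝ] EuclideanSpace ℝ J) (m : EuclideanSpace ℝ I) (s : ℝ) :
    ∫ z, ⟪A z, G (m + s • z)⟫ ∂(stdGaussian (EuclideanSpace ℝ I)) =
      s * ∫ z, hsip A (fderiv ℝ G (m + s • z)) ∂(stdGaussian (EuclideanSpace ℝ I)) := by
  have hdecomp : ∀ z : EuclideanSpace ℝ I, z = ∑ i, z i • EuclideanSpace.single i (1 : ℝ) := by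
    intro z
    have h := (EuclideanSpace.basisFun I ℝ).sum_repr z
    simp only [EuclideanSpace.basisFun_repr, EuclideanSpace.basisFun_apply] at h
    exact h.symm
  have hAz : ∀ z : EuclideanSpace ℝ I, ⟪A z, G (m + s • z)⟫ =
      ∑ i, z i * ⟪A (EuclideanSpace.single i 1), G (m + s • z)⟫ := by
    intro z
    have h2 : A z = ∑ i, z i • A (EuclideanSpace.single i (1 : ℝ)) := by
      conv_lhs => rw [hdecomp z]
      rw [map_sum]
      exact Finset.sum_congr rfl fun i _ => map_smul _ _ _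
    rw [h2, sum_inner]
    exact Finset.sum_congr rfl fun i _ => real_inner_smul_left _ _ _
  have hGd : Differentiable ℝ G := hG.differentiable one_ne_zero
  have haff : ContDiff ℝ 1 (fun z : EuclideanSpace ℝ I => m + s • z) :=
    contDiff_const.add (contDiff_const_smul s)
  have hphi : ∀ i, ContDiff ℝ 1 (fun z : EuclideanSpace ℝ I =>
      ⟪A (EuclideanSpace.single i 1), G (m + s • z)⟫) := fun i =>
    contDiff_const.inner ℝ (hG.comp haff)
  have hderiv : ∀ i z, HasFDerivAt (fun z : EuclideanSpace ℝ I =>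
      ⟪A (EuclideanSpace.single i 1), G (m + s • z)⟫)
      ((innerSL ℝ (A (EuclideanSpace.single i 1))).comp ((fderiv ℝ G (m + s • z)).comp
        (s • ContinuousLinearMap.id ℝ (EuclideanSpace ℝ I)))) z := by
    intro i z
    have h2 : HasFDerivAt (fun z : EuclideanSpace ℝ I => m + s • z)
        (s • ContinuousLinearMap.id ℝ (EuclideanSpace ℝ I)) z :=
      ((hasFDerivAt_id z).const_smul s).const_add m
    exact (innerSL ℝ (A (EuclideanSpace.single i 1))).hasFDerivAt.comp z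
      ((hGd (m + s • z)).hasFDerivAt.comp z h2)
  have hfd : ∀ i z v, fderiv ℝ (fun z : EuclideanSpace ℝ I =>
      ⟪A (EuclideanSpace.single i 1), G (m + s • z)⟫) z v =
      s * ⟪A (EuclideanSpace.single i 1), fderiv ℝ G (m + s • z) v⟫ := by
    intro i z v
    rw [(hderiv i z).fderiv]
    have : ((innerSL ℝ (A (EuclideanSpace.single i 1))).comp ((fderiv ℝ G (m + s • z)).comp
        (s • ContinuousLinearMap.id ℝ (EuclideanSpace ℝ I)))) v =
        ⟪A (EuclideanSpace.single i 1), fderiv ℝ G (m + s • z) (s • v)⟫ := rfl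
    rw [this, map_smul, real_inner_smul_right]
  have hK : 0 ≤ K := (norm_nonneg _).trans (h0 0)
  have hb0 : ∀ i z, ‖⟪A (EuclideanSpace.single i (1:ℝ)), G (m + s • z)⟫‖ ≤
      ‖A (EuclideanSpace.single i 1)‖ * K + ‖A (EuclideanSpace.single i 1)‖ * (|s| * K) := by
    intro i z
    have h2 : ‖⟪A (EuclideanSpace.single i (1:ℝ)), G (m + s • z)⟫‖ ≤
        ‖A (EuclideanSpace.single i 1)‖ * K :=
      (norm_inner_le_norm _ _).trans (mul_le_mul_of_nonneg_left (h0 _) (norm_nonneg _))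
    have h3 : 0 ≤ ‖A (EuclideanSpace.single i (1:ℝ))‖ * (|s| * K) := by positivity
    linarith
  have hb1 : ∀ i z, ‖fderiv ℝ (fun z : EuclideanSpace ℝ I =>
      ⟪A (EuclideanSpace.single i 1), G (m + s • z)⟫) z‖ ≤
      ‖A (EuclideanSpace.single i 1)‖ * K + ‖A (EuclideanSpace.single i 1)‖ * (|s| * K) := by
    intro i z
    have h3 : 0 ≤ ‖A (EuclideanSpace.single i (1:ℝ))‖ * K := by positivity
    refine ContinuousLinearMap.opNorm_le_bound _ (by positivity) fun v => ?_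
    rw [hfd, norm_mul, Real.norm_eq_abs s]
    have h4 : ‖⟪A (EuclideanSpace.single i (1:ℝ)), fderiv ℝ G (m + s • z) v⟫‖ ≤
        ‖A (EuclideanSpace.single i 1)‖ * (K * ‖v‖) :=
      (norm_inner_le_norm _ _).trans (mul_le_mul_of_nonneg_left
        (((fderiv ℝ G (m + s • z)).le_opNorm v).trans
          (mul_le_mul_of_nonneg_right (h1 _) (norm_nonneg _))) (norm_nonneg _))
    calc |s| * ‖⟪A (EuclideanSpace.single i (1:ℝ)), fderiv ℝ G (m + s • z) v⟫‖ ≤
          |s| * (‖A (EuclideanSpace.single i 1)‖ * (K * ‖v‖)) :=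
            mul_le_mul_of_nonneg_left h4 (abs_nonneg _)
      _ = (‖A (EuclideanSpace.single i 1)‖ * (|s| * K)) * ‖v‖ := by ring
      _ ≤ _ := by
          refine mul_le_mul_of_nonneg_right ?_ (norm_nonneg _)
          linarith
  have hint1 : ∀ i, Integrable (fun z : EuclideanSpace ℝ I =>
      z i * ⟪A (EuclideanSpace.single i 1), G (m + s • z)⟫) (stdGaussian (EuclideanSpace ℝ I)) := by
    intro i
    have h2 : Integrable (fun z : EuclideanSpace ℝ I => z i) (stdGaussian (EuclideanSpace ℝ I)) := by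
      have h3 : Integrable (id : EuclideanSpace ℝ I → EuclideanSpace ℝ I)
        (stdGaussian (EuclideanSpace ℝ I)) := IsGaussian.integrable_id
      exact (EuclideanSpace.proj (𝕜 := ℝ) i).integrable_comp h3
    refine h2.mul_bdd (c := ‖A (EuclideanSpace.single i 1)‖ * K +
      ‖A (EuclideanSpace.single i 1)‖ * (|s| * K)) ?_ ?_
    · exact (hphi i).continuous.aestronglyMeasurable
    · exact Filter.Eventually.of_forall (hb0 i)
  have hDcont : Continuous (fderiv ℝ G) := hG.continuous_fderiv one_ne_zero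
  have hint2 : ∀ i, Integrable (fun z : EuclideanSpace ℝ I =>
      ⟪A (EuclideanSpace.single i 1), fderiv ℝ G (m + s • z) (EuclideanSpace.single i 1)⟫)
      (stdGaussian (EuclideanSpace ℝ I)) := by
    intro i
    refine Integrable.of_bound (C := ‖A (EuclideanSpace.single i 1)‖ *
      (K * ‖(EuclideanSpace.single i 1 : EuclideanSpace ℝ I)‖)) ?_ ?_
    · refine Continuous.aestronglyMeasurable ?_
      exact continuous_const.inner ((hDcont.comp haff.continuous).clm_apply continuous_const)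
    · refine Filter.Eventually.of_forall fun z => ?_
      exact (norm_inner_le_norm _ _).trans (mul_le_mul_of_nonneg_left
        (((fderiv ℝ G (m + s • z)).le_opNorm _).trans
          (mul_le_mul_of_nonneg_right (h1 _) (norm_nonneg _))) (norm_nonneg _))
  simp only [hAz]
  rw [integral_finsetSum _ fun i _ => hint1 i]
  have hst : ∀ i, ∫ z : EuclideanSpace ℝ I, z i * ⟪A (EuclideanSpace.single i 1), G (m + s • z)⟫
      ∂(stdGaussian (EuclideanSpace ℝ I)) = s * ∫ z, ⟪A (EuclideanSpace.single i 1),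
        fderiv ℝ G (m + s • z) (EuclideanSpace.single i 1)⟫ ∂(stdGaussian (EuclideanSpace ℝ I)) := by
    intro i
    rw [stein _ (hphi i) _ (hb0 i) (hb1 i) i]
    simp only [hfd]
    rw [integral_const_mul]
  simp only [hst]
  rw [← Finset.mul_sum, ← integral_finsetSum _ fun i _ => hint2 i]
  rfl

end

section

theorem rotpath_cs_aux (θ : ℝ) (hθ : 0 < θ) (h : ℝ → ℝ) (hc : Continuous h) :
    (∫ u in (0:ℝ)..θ, h u) ^ 2 ≤ θ * ∫ u in (0:ℝ)..θ, (h u) ^ 2 := by
  obtain ⟨c, hcc⟩ : ∃ c : ℝ, (∫ u in (0:ℝ)..θ, h u) = c * θ :=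
    ⟨(∫ u in (0:ℝ)..θ, h u) / θ, by field_simp⟩
  have h1 : 0 ≤ ∫ u in (0:ℝ)..θ, (h u - c) ^ 2 :=
    intervalIntegral.integral_nonneg hθ.le (fun u _ => sq_nonneg _)
  have h2 : ∫ u in (0:ℝ)..θ, (h u - c) ^ 2 =
      (∫ u in (0:ℝ)..θ, (h u) ^ 2) - 2 * c * (∫ u in (0:ℝ)..θ, h u) + c ^ 2 * θ := by
    have h3 : ∀ u, (h u - c) ^ 2 = ((h u) ^ 2 - 2 * c * h u) + c ^ 2 := fun u => by ring
    simp_rw [h3]
    rw [intervalIntegral.integral_add, intervalIntegral.integral_sub,
      intervalIntegral.integral_const_mul, intervalIntegral.integral_const]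
    · simp only [sub_zero, smul_eq_mul]; ring
    all_goals
      apply Continuous.intervalIntegrable
      fun_prop
  rw [hcc] at h2 ⊢
  rw [h2] at h1
  nlinarith [mul_nonneg hθ.le h1]

theorem rotpath_cont_aux {I J : Type} [Fintype I] [Fintype J]
    (g : EuclideanSpace ℝ I → EuclideanSpace ℝ J) (hg : ContDiff ℝ 1 g) :
    Continuous (fun q : (EuclideanSpace ℝ I × EuclideanSpace ℝ I) × ℝ =>
      fderiv ℝ g (Real.cos q.2 • q.1.1 + Real.sin q.2 • q.1.2)
        ((-Real.sin q.2) • q.1.1 + Real.cos q.2 • q.1.2)) := by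
  have h0 : Continuous (fderiv ℝ g) := hg.continuous_fderiv (by norm_num)
  have h1 : Continuous (fun q : (EuclideanSpace ℝ I × EuclideanSpace ℝ I) × ℝ =>
      Real.cos q.2 • q.1.1 + Real.sin q.2 • q.1.2) := by fun_prop
  have h2 : Continuous (fun q : (EuclideanSpace ℝ I × EuclideanSpace ℝ I) × ℝ =>
      (-Real.sin q.2) • q.1.1 + Real.cos q.2 • q.1.2) := by fun_prop
  exact (h0.comp h1).clm_apply h2

theorem rotpath_pt_aux {I J : Type} [Fintype I] [Fintype J]
    (g : EuclideanSpace ℝ I → EuclideanSpace ℝ J) (hg : ContDiff ℝ 1 g) (θ : ℝ) (hθ : 0 < θ)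
    (x y : EuclideanSpace ℝ I) :
    ‖g (Real.cos θ • x + Real.sin θ • y) - g x‖ ^ 2 ≤
      θ * ∫ u in (0:ℝ)..θ, ‖fderiv ℝ g (Real.cos u • x + Real.sin u • y)
        ((-Real.sin u) • x + Real.cos u • y)‖ ^ 2 := by
  have hder : ∀ u : ℝ, HasDerivAt (fun u : ℝ => g (Real.cos u • x + Real.sin u • y))
      (fderiv ℝ g (Real.cos u • x + Real.sin u • y)
        ((-Real.sin u) • x + Real.cos u • y)) u := by
    intro u
    have hX : HasDerivAt (fun u : ℝ => Real.cos u • x + Real.sin u • y)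
        ((-Real.sin u) • x + Real.cos u • y) u :=
      ((Real.hasDerivAt_cos u).smul_const x).add ((Real.hasDerivAt_sin u).smul_const y)
    have hG := (hg.differentiable (by norm_num) (Real.cos u • x + Real.sin u • y)).hasFDerivAt
    exact hG.comp_hasDerivAt u hX
  have hcont : Continuous (fun u : ℝ => fderiv ℝ g (Real.cos u • x + Real.sin u • y)
        ((-Real.sin u) • x + Real.cos u • y)) := by
    have h0 : Continuous (fderiv ℝ g) := hg.continuous_fderiv (by norm_num)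
    have h1 : Continuous (fun u : ℝ => Real.cos u • x + Real.sin u • y) := by fun_prop
    have h2 : Continuous (fun u : ℝ => (-Real.sin u) • x + Real.cos u • y) := by fun_prop
    exact (h0.comp h1).clm_apply h2
  have hFTC := intervalIntegral.integral_eq_sub_of_hasDerivAt (a := 0) (b := θ)
    (fun u _ => hder u) (hcont.intervalIntegrable _ _)
  have hX0 : Real.cos 0 • x + Real.sin 0 • y = x := by simp
  rw [hX0] at hFTC
  rw [← hFTC]
  have h4 := intervalIntegral.norm_integral_le_integral_norm (μ := volume) hθ.le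
    (f := fun u : ℝ => fderiv ℝ g (Real.cos u • x + Real.sin u • y)
        ((-Real.sin u) • x + Real.cos u • y))
  calc ‖∫ u in (0:ℝ)..θ, fderiv ℝ g (Real.cos u • x + Real.sin u • y)
        ((-Real.sin u) • x + Real.cos u • y)‖ ^ 2
      ≤ (∫ u in (0:ℝ)..θ, ‖fderiv ℝ g (Real.cos u • x + Real.sin u • y)
        ((-Real.sin u) • x + Real.cos u • y)‖) ^ 2 :=
        pow_le_pow_left₀ (norm_nonneg _) h4 2
    _ ≤ _ := rotpath_cs_aux θ hθ _ hcont.norm


/-- rotating along a path: `E |g(cos θ x + sin θ y) - g(x)|² ≤ θ² E ‖Dg‖²` -/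
theorem rotpath {I J : Type} [Fintype I] [Fintype J] [DecidableEq I]
    (g : EuclideanSpace ℝ I → EuclideanSpace ℝ J)
    (hg : ContDiff ℝ 1 g) (K : ℝ) (h1 : ∀ x, ‖fderiv ℝ g x‖ ≤ K) (θ : ℝ) (hθ : 0 ≤ θ) :
    ∫ p, ‖g (Real.cos θ • p.1 + Real.sin θ • p.2) - g p.1‖ ^ 2
        ∂((stdGaussian (EuclideanSpace ℝ I)).prod (stdGaussian (EuclideanSpace ℝ I))) ≤
      θ ^ 2 * ∫ x, hs (fderiv ℝ g x) ∂(stdGaussian (EuclideanSpace ℝ I)) := by
  rcases hθ.eq_or_lt with h0 | hpos
  · subst h0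
    simp
  have hK : 0 ≤ K := le_trans (norm_nonneg _) (h1 0)
  have hmom := (moments (I := I) (J := J))
  have hm2 : Integrable (fun z : EuclideanSpace ℝ I => ‖z‖ ^ 2)
    (stdGaussian (EuclideanSpace ℝ I)) := hmom.2.1
  have hcontG := rotpath_cont_aux g hg
  have hcontG2 : Continuous (fun q : (EuclideanSpace ℝ I × EuclideanSpace ℝ I) × ℝ =>
      ‖fderiv ℝ g (Real.cos q.2 • q.1.1 + Real.sin q.2 • q.1.2)
        ((-Real.sin q.2) • q.1.1 + Real.cos q.2 • q.1.2)‖ ^ 2) := hcontG.norm.pow 2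
  -- pointwise bound
  have hbd : ∀ (x y : EuclideanSpace ℝ I) (u : ℝ),
      ‖fderiv ℝ g (Real.cos u • x + Real.sin u • y)
        ((-Real.sin u) • x + Real.cos u • y)‖ ^ 2 ≤ K ^ 2 * (2 * (‖x‖ ^ 2 + ‖y‖ ^ 2)) := by
    intro x y u
    have e1 : ‖fderiv ℝ g (Real.cos u • x + Real.sin u • y)
        ((-Real.sin u) • x + Real.cos u • y)‖ ≤ K * (‖x‖ + ‖y‖) := by
      refine (ContinuousLinearMap.le_opNorm _ _).trans ?_
      refine mul_le_mul (h1 _) ?_ (norm_nonneg _) hK
      refine (norm_add_le _ _).trans ?_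
      rw [norm_smul, norm_smul]
      have e2 : ‖-Real.sin u‖ ≤ 1 := by
        rw [norm_neg]; exact Real.abs_sin_le_one u
      have e3 : ‖Real.cos u‖ ≤ 1 := Real.abs_cos_le_one u
      have e4 := mul_le_mul_of_nonneg_right e2 (norm_nonneg x)
      have e5 := mul_le_mul_of_nonneg_right e3 (norm_nonneg y)
      linarith
    refine (pow_le_pow_left₀ (norm_nonneg _) e1 2).trans ?_
    rw [mul_pow]
    refine mul_le_mul_of_nonneg_left ?_ (sq_nonneg K)
    nlinarith [sq_nonneg (‖x‖ - ‖y‖)]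
  have hbi : Integrable (fun p : EuclideanSpace ℝ I × EuclideanSpace ℝ I =>
      K ^ 2 * (2 * (‖p.1‖ ^ 2 + ‖p.2‖ ^ 2)))
      ((stdGaussian (EuclideanSpace ℝ I)).prod (stdGaussian (EuclideanSpace ℝ I))) :=
    (((hm2.comp_fst _).add (hm2.comp_snd _)).const_mul 2).const_mul (K ^ 2)
  have hGint : Integrable (fun q : (EuclideanSpace ℝ I × EuclideanSpace ℝ I) × ℝ =>
      ‖fderiv ℝ g (Real.cos q.2 • q.1.1 + Real.sin q.2 • q.1.2)
        ((-Real.sin q.2) • q.1.1 + Real.cos q.2 • q.1.2)‖ ^ 2)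
      (((stdGaussian (EuclideanSpace ℝ I)).prod (stdGaussian (EuclideanSpace ℝ I))).prod
        (volume.restrict (Set.Ioc (0:ℝ) θ))) := by
    refine (hbi.comp_fst (volume.restrict (Set.Ioc (0:ℝ) θ))).mono'
      hcontG2.aestronglyMeasurable ?_
    filter_upwards with q
    rw [Real.norm_of_nonneg (sq_nonneg _)]
    exact hbd q.1.1 q.1.2 q.2
  -- for each `u`
  have hu : ∀ u : ℝ, ∫ p, ‖fderiv ℝ g (Real.cos u • p.1 + Real.sin u • p.2)
        ((-Real.sin u) • p.1 + Real.cos u • p.2)‖ ^ 2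
        ∂((stdGaussian (EuclideanSpace ℝ I)).prod (stdGaussian (EuclideanSpace ℝ I))) =
      ∫ x, hs (fderiv ℝ g x) ∂(stdGaussian (EuclideanSpace ℝ I)) := by
    intro u
    have hmp := (refl1_mp I (Real.cos u) (Real.sin u) (Real.cos_sq_add_sin_sq u)).2
    have hΦc : Continuous (fun p : EuclideanSpace ℝ I × EuclideanSpace ℝ I =>
        ‖fderiv ℝ g p.1 p.2‖ ^ 2) := by
      have e0 : Continuous (fderiv ℝ g) := hg.continuous_fderiv (by norm_num)
      exact ((e0.comp continuous_fst).clm_apply continuous_snd).norm.pow 2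
    have e1 : ∫ p, ‖fderiv ℝ g (Real.cos u • p.1 + Real.sin u • p.2)
        ((-Real.sin u) • p.1 + Real.cos u • p.2)‖ ^ 2
        ∂((stdGaussian (EuclideanSpace ℝ I)).prod (stdGaussian (EuclideanSpace ℝ I))) =
        ∫ p, ‖fderiv ℝ g p.1 p.2‖ ^ 2
        ∂((stdGaussian (EuclideanSpace ℝ I)).prod (stdGaussian (EuclideanSpace ℝ I))) := by
      have e2 := integral_map (μ := (stdGaussian (EuclideanSpace ℝ I)).prod
          (stdGaussian (EuclideanSpace ℝ I))) hmp.measurable.aemeasurable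
        (f := fun p : EuclideanSpace ℝ I × EuclideanSpace ℝ I =>
        ‖fderiv ℝ g p.1 p.2‖ ^ 2) hΦc.aestronglyMeasurable
      rw [hmp.map_eq] at e2
      exact e2.symm
    have hΦi : Integrable (fun p : EuclideanSpace ℝ I × EuclideanSpace ℝ I =>
        ‖fderiv ℝ g p.1 p.2‖ ^ 2)
        ((stdGaussian (EuclideanSpace ℝ I)).prod (stdGaussian (EuclideanSpace ℝ I))) := by
      have e3 : Integrable (fun p : EuclideanSpace ℝ I × EuclideanSpace ℝ I =>
        K ^ 2 * ‖p.2‖ ^ 2)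
        ((stdGaussian (EuclideanSpace ℝ I)).prod (stdGaussian (EuclideanSpace ℝ I))) :=
        (hm2.comp_snd _).const_mul (K ^ 2)
      refine e3.mono' hΦc.aestronglyMeasurable ?_
      filter_upwards with p
      rw [Real.norm_of_nonneg (sq_nonneg _), ← mul_pow]
      refine pow_le_pow_left₀ (norm_nonneg _) ?_ 2
      exact (ContinuousLinearMap.le_opNorm _ _).trans
        (mul_le_mul_of_nonneg_right (h1 _) (norm_nonneg _))
    rw [e1, integral_prod _ hΦi]
    refine integral_congr_ae ?_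
    filter_upwards with x
    exact hmom.2.2.2.2 (fderiv ℝ g x)
  -- inner integral integrable in `p`
  have hJ : Integrable (fun p : EuclideanSpace ℝ I × EuclideanSpace ℝ I =>
      ∫ u in (0:ℝ)..θ, ‖fderiv ℝ g (Real.cos u • p.1 + Real.sin u • p.2)
        ((-Real.sin u) • p.1 + Real.cos u • p.2)‖ ^ 2)
      ((stdGaussian (EuclideanSpace ℝ I)).prod (stdGaussian (EuclideanSpace ℝ I))) := by
    simp_rw [intervalIntegral.integral_of_le hθ]
    exact hGint.integral_prod_left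
  have hswap : ∫ p, (∫ u in (0:ℝ)..θ, ‖fderiv ℝ g (Real.cos u • p.1 + Real.sin u • p.2)
        ((-Real.sin u) • p.1 + Real.cos u • p.2)‖ ^ 2)
        ∂((stdGaussian (EuclideanSpace ℝ I)).prod (stdGaussian (EuclideanSpace ℝ I))) =
      θ * ∫ x, hs (fderiv ℝ g x) ∂(stdGaussian (EuclideanSpace ℝ I)) := by
    simp_rw [intervalIntegral.integral_of_le hθ]
    have e4 := integral_integral_swap
      (f := fun (p : EuclideanSpace ℝ I × EuclideanSpace ℝ I) (u : ℝ) =>
        ‖fderiv ℝ g (Real.cos u • p.1 + Real.sin u • p.2)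
        ((-Real.sin u) • p.1 + Real.cos u • p.2)‖ ^ 2) hGint
    rw [e4]
    simp_rw [hu]
    rw [← intervalIntegral.integral_of_le hθ, intervalIntegral.integral_const]
    simp
  calc ∫ p, ‖g (Real.cos θ • p.1 + Real.sin θ • p.2) - g p.1‖ ^ 2
        ∂((stdGaussian (EuclideanSpace ℝ I)).prod (stdGaussian (EuclideanSpace ℝ I)))
      ≤ ∫ p, θ * (∫ u in (0:ℝ)..θ, ‖fderiv ℝ g (Real.cos u • p.1 + Real.sin u • p.2)
        ((-Real.sin u) • p.1 + Real.cos u • p.2)‖ ^ 2)
        ∂((stdGaussian (EuclideanSpace ℝ I)).prod (stdGaussian (EuclideanSpace ℝ I))) := by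
        refine integral_mono_of_nonneg ?_ (hJ.const_mul θ) ?_
        · filter_upwards with p
          exact sq_nonneg _
        · filter_upwards with p
          exact rotpath_pt_aux g hg θ hpos p.1 p.2
    _ = θ ^ 2 * ∫ x, hs (fderiv ℝ g x) ∂(stdGaussian (EuclideanSpace ℝ I)) := by
        rw [integral_const_mul, hswap]; ring

end

section

theorem poincare_var {E F : Type} [MeasurableSpace E] [TopologicalSpace E] [BorelSpace E]
    [SecondCountableTopology E] [NormedAddCommGroup F] [InnerProductSpace ℝ F] [CompleteSpace F]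
    [SecondCountableTopology F]
    (γ : Measure E) [IsProbabilityMeasure γ] (G : E → F) (hG : Continuous G) (K : ℝ)
    (hK : ∀ x, ‖G x‖ ≤ K) :
    ∫ p, ‖G p.2 - G p.1‖ ^ 2 ∂(γ.prod γ) = 2 * ∫ x, ‖G x - ∫ x', G x' ∂γ‖ ^ 2 ∂γ := by
  obtain ⟨c, hc⟩ : ∃ c, c = ∫ x', G x' ∂γ := ⟨_, rfl⟩
  rw [← hc]
  have hGi : Integrable G γ := Integrable.of_bound hG.aestronglyMeasurable K
    (Filter.Eventually.of_forall hK)
  have hub : ∀ x, ‖G x - c‖ ≤ K + ‖c‖ := fun x => (norm_sub_le _ _).trans (by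
    have := hK x
    linarith)
  have huc : Continuous fun x => G x - c := hG.sub continuous_const
  have hui : Integrable (fun x => G x - c) γ := hGi.sub (integrable_const c)
  have hu0 : ∫ x, (G x - c) ∂γ = 0 := by
    rw [integral_sub hGi (integrable_const c), integral_const, probReal_univ, one_smul, hc, sub_self]
  have hu2 : Integrable (fun x => ‖G x - c‖ ^ 2) γ := by
    refine Integrable.of_bound (huc.norm.pow 2).aestronglyMeasurable ((K + ‖c‖) ^ 2)
      (Filter.Eventually.of_forall fun x => ?_)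
    rw [Real.norm_eq_abs, abs_of_nonneg (by positivity)]
    exact pow_le_pow_left₀ (norm_nonneg _) (hub x) 2
  have hint : Integrable (fun p : E × E => ‖G p.2 - G p.1‖ ^ 2) (γ.prod γ) := by
    have hcont : Continuous fun p : E × E => ‖G p.2 - G p.1‖ ^ 2 :=
      ((hG.comp continuous_snd).sub (hG.comp continuous_fst)).norm.pow 2
    refine Integrable.of_bound hcont.aestronglyMeasurable ((K + K) ^ 2)
      (Filter.Eventually.of_forall fun p => ?_)
    rw [Real.norm_eq_abs, abs_of_nonneg (by positivity)]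
    refine pow_le_pow_left₀ (norm_nonneg _) ((norm_sub_le _ _).trans ?_) 2
    exact add_le_add (hK _) (hK _)
  rw [integral_prod _ hint]
  have hin : ∀ x, ∫ y, ‖G y - G x‖ ^ 2 ∂γ = (∫ y, ‖G y - c‖ ^ 2 ∂γ) + ‖G x - c‖ ^ 2 := by
    intro x
    have h1 : ∀ y, ‖G y - G x‖ ^ 2 = (‖G y - c‖ ^ 2 - 2 * inner ℝ (G x - c) (G y - c)) +
        ‖G x - c‖ ^ 2 := by
      intro y
      have h2 : G y - G x = (G y - c) - (G x - c) := by abel
      rw [h2, norm_sub_sq_real, real_inner_comm]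
    rw [integral_congr_ae (Filter.Eventually.of_forall h1)]
    have hi : Integrable (fun y => 2 * inner ℝ (G x - c) (G y - c)) γ :=
      (hui.const_inner (G x - c)).const_mul 2
    have hsub : Integrable (fun y => ‖G y - c‖ ^ 2 - 2 * inner ℝ (G x - c) (G y - c)) γ :=
      hu2.sub hi
    rw [integral_add hsub (integrable_const _), integral_sub hu2 hi, integral_const,
      probReal_univ, one_smul, integral_const_mul, integral_inner hui, hu0, inner_zero_right]
    ring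
  show ∫ x, ∫ y, ‖G y - G x‖ ^ 2 ∂γ ∂γ = _
  rw [integral_congr_ae (Filter.Eventually.of_forall hin), integral_add (integrable_const _) hu2,
    integral_const, probReal_univ, one_smul]
  ring

/-- Gaussian Poincaré inequality with constant `π²/8`, scaled and shifted -/
theorem poincare {I J : Type} [Fintype I] [Fintype J] [DecidableEq I]
    (g : EuclideanSpace ℝ I → EuclideanSpace ℝ J)
    (hg : ContDiff ℝ 1 g) (K : ℝ) (h0 : ∀ x, ‖g x‖ ≤ K) (h1 : ∀ x, ‖fderiv ℝ g x‖ ≤ K)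
    (m : EuclideanSpace ℝ I) (σ : ℝ) :
    ∫ z, ‖g (m + σ • z) - ∫ z', g (m + σ • z') ∂(stdGaussian (EuclideanSpace ℝ I))‖ ^ 2
        ∂(stdGaussian (EuclideanSpace ℝ I)) ≤
      2 * σ ^ 2 * ∫ z, hs (fderiv ℝ g (m + σ • z)) ∂(stdGaussian (EuclideanSpace ℝ I)) := by
  obtain ⟨G, hGdef⟩ : ∃ G : EuclideanSpace ℝ I → EuclideanSpace ℝ J, G = fun z => g (m + σ • z) :=
    ⟨_, rfl⟩
  have hG : ContDiff ℝ 1 G := by
    rw [hGdef]
    have h2 : ContDiff ℝ 1 (fun z : EuclideanSpace ℝ I => m + σ • z) :=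
      contDiff_const.add (contDiff_id.const_smul σ)
    exact hg.comp h2
  have hfd : ∀ z, fderiv ℝ G z = σ • fderiv ℝ g (m + σ • z) := by
    intro z
    have h2 : HasFDerivAt (fun z : EuclideanSpace ℝ I => m + σ • z)
        (σ • ContinuousLinearMap.id ℝ (EuclideanSpace ℝ I)) z :=
      ((hasFDerivAt_id z).const_smul σ).const_add m
    have h3 : HasFDerivAt g (fderiv ℝ g (m + σ • z)) (m + σ • z) :=
      (hg.differentiable one_ne_zero _).hasFDerivAt
    have h4 : fderiv ℝ (fun z => g (m + σ • z)) z = (fderiv ℝ g (m + σ • z)).comp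
        (σ • ContinuousLinearMap.id ℝ (EuclideanSpace ℝ I)) := (h3.comp z h2).fderiv
    rw [hGdef, h4]
    ext v
    simp
  have hrot := rotpath G hG (|σ| * K) (fun z => by
    rw [hfd, norm_smul, Real.norm_eq_abs]
    exact mul_le_mul_of_nonneg_left (h1 _) (abs_nonneg _)) (Real.pi / 2) (by positivity)
  rw [Real.cos_pi_div_two, Real.sin_pi_div_two] at hrot
  simp only [zero_smul, one_smul, zero_add] at hrot
  rw [poincare_var (stdGaussian (EuclideanSpace ℝ I)) G hG.continuous K (fun z => by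
    rw [hGdef]; exact h0 _)] at hrot
  have hhs : ∀ z, hs (fderiv ℝ G z) = σ ^ 2 * hs (fderiv ℝ g (m + σ • z)) := by
    intro z
    unfold hs
    rw [hfd, Finset.mul_sum]
    refine Finset.sum_congr rfl fun i _ => ?_
    rw [smul_apply, norm_smul, mul_pow, Real.norm_eq_abs, sq_abs]
  rw [integral_congr_ae (Filter.Eventually.of_forall hhs), integral_const_mul] at hrot
  have hnn : 0 ≤ ∫ z, hs (fderiv ℝ g (m + σ • z)) ∂(stdGaussian (EuclideanSpace ℝ I)) := by
    refine integral_nonneg fun z => ?_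
    unfold hs
    exact Finset.sum_nonneg fun i _ => by positivity
  have hpi : Real.pi ^ 2 ≤ 16 := by
    have := Real.pi_le_four
    have := Real.pi_pos
    nlinarith
  rw [hGdef] at hrot
  have h5 := mul_nonneg (sq_nonneg σ) hnn
  nlinarith [mul_le_mul_of_nonneg_right hpi h5]

end

section

theorem j15819_theta {a σ : ℝ} (ha : 0 ≤ a) (hσ : 0 ≤ σ) (h : a ^ 2 + σ ^ 2 = 1) :
    Real.cos (Real.arcsin σ) = a ∧ Real.sin (Real.arcsin σ) = σ ∧ 0 ≤ Real.arcsin σ ∧
      Real.arcsin σ ^ 2 ≤ 3 * σ ^ 2 := by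
  have hσ1 : σ ≤ 1 := by nlinarith
  have h0 : 0 ≤ Real.arcsin σ := Real.arcsin_nonneg.2 hσ
  have hs : Real.sin (Real.arcsin σ) = σ := Real.sin_arcsin (by linarith) hσ1
  refine ⟨?_, hs, h0, ?_⟩
  · rw [Real.cos_arcsin]
    have : 1 - σ ^ 2 = a ^ 2 := by linarith
    rw [this, Real.sqrt_sq ha]
  · have h1 := Real.mul_le_sin h0 (Real.arcsin_le_pi_div_two σ)
    rw [hs] at h1
    have hpi := Real.pi_pos
    have hpi2 := Real.pi_lt_d2
    have h2 : Real.arcsin σ ≤ Real.pi / 2 * σ := by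
      have h3 : Real.pi / 2 * (2 / Real.pi * Real.arcsin σ) ≤ Real.pi / 2 * σ :=
        mul_le_mul_of_nonneg_left h1 (by positivity)
      have h4 : Real.pi / 2 * (2 / Real.pi * Real.arcsin σ) = Real.arcsin σ := by
        field_simp
      linarith
    have h3 : Real.arcsin σ ^ 2 ≤ (Real.pi / 2 * σ) ^ 2 := pow_le_pow_left₀ h0 h2 2
    have h4 : (Real.pi / 2 * σ) ^ 2 = (Real.pi ^ 2 / 4) * σ ^ 2 := by ring
    have h5 : Real.pi ^ 2 / 4 ≤ 3 := by nlinarith
    have h6 := mul_le_mul_of_nonneg_right h5 (sq_nonneg σ)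
    linarith

theorem j15819_int {E : Type} [TopologicalSpace E] [MeasurableSpace E] [OpensMeasurableSpace E]
    (μ : Measure E) [IsFiniteMeasure μ] {f : E → ℝ} (hf : Continuous f) {C : ℝ}
    (hC : ∀ x, |f x| ≤ C) : Integrable f μ :=
  Integrable.of_bound hf.aestronglyMeasurable C
    (Filter.Eventually.of_forall fun x => by rw [Real.norm_eq_abs]; exact hC x)
/-- `E ‖T(a x + σ g) - T(x)‖²_HS ≤ 3 σ² E ‖DT‖²` for `T = DF` -/
theorem corr {I J : Type} [Fintype I] [Fintype J] [DecidableEq I]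
    (F : EuclideanSpace ℝ I → EuclideanSpace ℝ J)
    (hF : ContDiff ℝ 2 F) (K : ℝ) (h1 : ∀ x, ‖fderiv ℝ F x‖ ≤ K)
    (h2 : ∀ x, ‖fderiv ℝ (fderiv ℝ F) x‖ ≤ K) (a σ : ℝ) (ha : 0 ≤ a) (hσ : 0 ≤ σ)
    (h : a ^ 2 + σ ^ 2 = 1) :
    ∫ p, hs (fderiv ℝ F (a • p.1 + σ • p.2) - fderiv ℝ F p.1)
        ∂((stdGaussian (EuclideanSpace ℝ I)).prod (stdGaussian (EuclideanSpace ℝ I))) ≤
      3 * σ ^ 2 * ∫ x, hs2 (fderiv ℝ (fderiv ℝ F) x) ∂(stdGaussian (EuclideanSpace ℝ I)) := by
  obtain ⟨hcos, hsin, hθ0, hθ⟩ := j15819_theta ha hσ h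
  have hK0 : 0 ≤ K := (norm_nonneg _).trans (h1 0)
  have hT : ContDiff ℝ 1 (fderiv ℝ F) := hF.fderiv_right (by norm_num)
  have hTc : Continuous (fderiv ℝ F) := hT.continuous
  have hT2c : Continuous (fderiv ℝ (fderiv ℝ F)) := hT.continuous_fderiv one_ne_zero
  set e : I → EuclideanSpace ℝ I := fun i => EuclideanSpace.single i 1 with he
  have hen : ∀ i, ‖e i‖ = 1 := fun i => by
    rw [he]
    simp
  have hg : ∀ i, ContDiff ℝ 1 (fun x => fderiv ℝ F x (e i)) := fun i =>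
    hT.clm_apply contDiff_const
  have hd : ∀ i x v, fderiv ℝ (fun x => fderiv ℝ F x (e i)) x v =
      fderiv ℝ (fderiv ℝ F) x v (e i) := by
    intro i x v
    have hdT : DifferentiableAt ℝ (fderiv ℝ F) x := (hT.differentiable one_ne_zero) x
    have h3 : HasFDerivAt (fun x => fderiv ℝ F x (e i))
        ((fderiv ℝ (fderiv ℝ F) x).flip (e i)) x := by
      have := hdT.hasFDerivAt.clm_apply (hasFDerivAt_const (e i) x)
      simpa using this
    rw [h3.fderiv]
    rfl
  have hdn : ∀ i x, ‖fderiv ℝ (fun x => fderiv ℝ F x (e i)) x‖ ≤ K := by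
    intro i x
    refine ContinuousLinearMap.opNorm_le_bound _ hK0 fun v => ?_
    rw [hd]
    calc ‖fderiv ℝ (fderiv ℝ F) x v (e i)‖ ≤ ‖fderiv ℝ (fderiv ℝ F) x v‖ * ‖e i‖ :=
          ContinuousLinearMap.le_opNorm _ _
      _ = ‖fderiv ℝ (fderiv ℝ F) x v‖ := by rw [hen, mul_one]
      _ ≤ ‖fderiv ℝ (fderiv ℝ F) x‖ * ‖v‖ := ContinuousLinearMap.le_opNorm _ _
      _ ≤ K * ‖v‖ := mul_le_mul_of_nonneg_right (h2 x) (norm_nonneg _)
  have hgb : ∀ i x, ‖fderiv ℝ F x (e i)‖ ≤ K := fun i x => by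
    calc ‖fderiv ℝ F x (e i)‖ ≤ ‖fderiv ℝ F x‖ * ‖e i‖ := ContinuousLinearMap.le_opNorm _ _
      _ = ‖fderiv ℝ F x‖ := by rw [hen, mul_one]
      _ ≤ K := h1 x
  have hrot : ∀ i, ∫ p, ‖fderiv ℝ F (a • p.1 + σ • p.2) (e i) - fderiv ℝ F p.1 (e i)‖ ^ 2
      ∂((stdGaussian (EuclideanSpace ℝ I)).prod (stdGaussian (EuclideanSpace ℝ I))) ≤
      Real.arcsin σ ^ 2 * ∫ x, hs (fderiv ℝ (fun x => fderiv ℝ F x (e i)) x)
        ∂(stdGaussian (EuclideanSpace ℝ I)) := by
    intro i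
    have := rotpath (fun x => fderiv ℝ F x (e i)) (hg i) K (hdn i) (Real.arcsin σ) hθ0
    rw [hcos, hsin] at this
    exact this
  have hleft : ∫ p, hs (fderiv ℝ F (a • p.1 + σ • p.2) - fderiv ℝ F p.1)
        ∂((stdGaussian (EuclideanSpace ℝ I)).prod (stdGaussian (EuclideanSpace ℝ I))) =
      ∑ i, ∫ p, ‖fderiv ℝ F (a • p.1 + σ • p.2) (e i) - fderiv ℝ F p.1 (e i)‖ ^ 2
      ∂((stdGaussian (EuclideanSpace ℝ I)).prod (stdGaussian (EuclideanSpace ℝ I))) := by
    rw [← integral_finsetSum]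
    · rfl
    · intro i _
      have hc : Continuous (fun p : EuclideanSpace ℝ I × EuclideanSpace ℝ I =>
          ‖fderiv ℝ F (a • p.1 + σ • p.2) (e i) - fderiv ℝ F p.1 (e i)‖ ^ 2) := by
        have c1 : Continuous (fun p : EuclideanSpace ℝ I × EuclideanSpace ℝ I =>
          fderiv ℝ F (a • p.1 + σ • p.2) (e i)) :=
          (hg i).continuous.comp (by fun_prop)
        have c2 : Continuous (fun p : EuclideanSpace ℝ I × EuclideanSpace ℝ I =>
          fderiv ℝ F p.1 (e i)) := (hg i).continuous.comp continuous_fst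
        exact (c1.sub c2).norm.pow 2
      refine j15819_int _ hc (C := (K + K) ^ 2) fun p => ?_
      rw [abs_of_nonneg (sq_nonneg _)]
      refine pow_le_pow_left₀ (norm_nonneg _) ?_ 2
      exact (norm_sub_le _ _).trans (add_le_add (hgb i _) (hgb i _))
  have hhs : ∀ i x, hs (fderiv ℝ (fun x => fderiv ℝ F x (e i)) x) =
      ∑ i', ‖fderiv ℝ (fderiv ℝ F) x (e i') (e i)‖ ^ 2 := fun i x => by
    unfold hs
    exact Finset.sum_congr rfl fun i' _ => by rw [hd]
  have hright : ∑ i, ∫ x, hs (fderiv ℝ (fun x => fderiv ℝ F x (e i)) x)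
        ∂(stdGaussian (EuclideanSpace ℝ I)) =
      ∫ x, hs2 (fderiv ℝ (fderiv ℝ F) x) ∂(stdGaussian (EuclideanSpace ℝ I)) := by
    rw [← integral_finsetSum]
    · refine integral_congr_ae (Filter.Eventually.of_forall fun x => ?_)
      change ∑ i, hs (fderiv ℝ (fun x => fderiv ℝ F x (e i)) x) =
        hs2 (fderiv ℝ (fderiv ℝ F) x)
      rw [Finset.sum_congr rfl fun i _ => hhs i x, Finset.sum_comm]
      rfl
    · intro i _
      have hc : Continuous (fun x => hs (fderiv ℝ (fun x => fderiv ℝ F x (e i)) x)) := by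
        have : (fun x => hs (fderiv ℝ (fun x => fderiv ℝ F x (e i)) x)) =
            fun x => ∑ i', ‖fderiv ℝ (fderiv ℝ F) x (e i') (e i)‖ ^ 2 := funext (hhs i)
        rw [this]
        refine continuous_finsetSum _ fun i' _ => ?_
        exact ((hT2c.clm_apply continuous_const).clm_apply continuous_const).norm.pow 2
      refine j15819_int _ hc (C := ∑ _i' : I, K ^ 2) fun x => ?_
      rw [hhs, abs_of_nonneg (Finset.sum_nonneg fun i' _ => sq_nonneg _)]
      refine Finset.sum_le_sum fun i' _ => ?_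
      refine pow_le_pow_left₀ (norm_nonneg _) ?_ 2
      calc ‖fderiv ℝ (fderiv ℝ F) x (e i') (e i)‖
          ≤ ‖fderiv ℝ (fderiv ℝ F) x (e i')‖ * ‖e i‖ := ContinuousLinearMap.le_opNorm _ _
        _ = ‖fderiv ℝ (fderiv ℝ F) x (e i')‖ := by rw [hen, mul_one]
        _ ≤ ‖fderiv ℝ (fderiv ℝ F) x‖ * ‖e i'‖ := ContinuousLinearMap.le_opNorm _ _
        _ = ‖fderiv ℝ (fderiv ℝ F) x‖ := by rw [hen, mul_one]
        _ ≤ K := h2 x
  rw [hleft]
  calc ∑ i, ∫ p, ‖fderiv ℝ F (a • p.1 + σ • p.2) (e i) - fderiv ℝ F p.1 (e i)‖ ^ 2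
      ∂((stdGaussian (EuclideanSpace ℝ I)).prod (stdGaussian (EuclideanSpace ℝ I)))
      ≤ ∑ i, Real.arcsin σ ^ 2 * ∫ x, hs (fderiv ℝ (fun x => fderiv ℝ F x (e i)) x)
        ∂(stdGaussian (EuclideanSpace ℝ I)) := Finset.sum_le_sum fun i _ => hrot i
    _ = Real.arcsin σ ^ 2 *
        ∫ x, hs2 (fderiv ℝ (fderiv ℝ F) x) ∂(stdGaussian (EuclideanSpace ℝ I)) := by
        rw [← Finset.mul_sum, hright]
    _ ≤ 3 * σ ^ 2 *
        ∫ x, hs2 (fderiv ℝ (fderiv ℝ F) x) ∂(stdGaussian (EuclideanSpace ℝ I)) := by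
        refine mul_le_mul_of_nonneg_right hθ (integral_nonneg fun x => ?_)
        exact Finset.sum_nonneg fun i _ => Finset.sum_nonneg fun i' _ => sq_nonneg _

end

section

/-- `HH` is the inverse of `1 + A A* / κ` -/
theorem HH_inv {I J : Type} [Fintype I] [Fintype J] (κ : ℝ) (hκ : 0 < κ)
    (A : EuclideanSpace ℝ I →L[ℝ] EuclideanSpace ℝ J) (w : EuclideanSpace ℝ J) :
    HH κ A w + κ⁻¹ • A (ContinuousLinearMap.adjoint A (HH κ A w)) = w ∧
    HH κ A (w + κ⁻¹ • A (ContinuousLinearMap.adjoint A w)) = w := by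
  obtain ⟨N, hN⟩ : ∃ N : EuclideanSpace ℝ J →L[ℝ] EuclideanSpace ℝ J,
      N = 1 + κ⁻¹ • (A ∘L (ContinuousLinearMap.adjoint A)) := ⟨_, rfl⟩
  have hap : ∀ v, N v = v + κ⁻¹ • A (ContinuousLinearMap.adjoint A v) := by
    intro v; rw [hN]; rfl
  have hcoer : ∀ v, ‖v‖ ^ 2 ≤ ⟪N v, v⟫ := by
    intro v
    rw [hap, inner_add_left, real_inner_self_eq_norm_sq, inner_smul_left]
    have h1 : ⟪A (ContinuousLinearMap.adjoint A v), v⟫ = ‖ContinuousLinearMap.adjoint A v‖ ^ 2 := by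
      rw [← ContinuousLinearMap.adjoint_inner_right, real_inner_self_eq_norm_sq]
    rw [h1]
    have h2 : 0 ≤ κ⁻¹ * ‖ContinuousLinearMap.adjoint A v‖ ^ 2 := by positivity
    simp only [RCLike.conj_to_real]
    linarith
  have hinj : Function.Injective (N : EuclideanSpace ℝ J →ₗ[ℝ] EuclideanSpace ℝ J) := by
    rw [← LinearMap.ker_eq_bot, LinearMap.ker_eq_bot']
    intro v hv
    have h1 := hcoer v
    have h2 : N v = 0 := hv
    rw [h2, inner_zero_left] at h1
    have h3 : ‖v‖ = 0 := by nlinarith [norm_nonneg v]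
    exact norm_eq_zero.1 h3
  have hbij : Function.Bijective N := ⟨hinj, LinearMap.injective_iff_surjective.1 hinj⟩
  have hu : IsUnit N := ContinuousLinearMap.isUnit_iff_bijective.2 hbij
  have h1 : N * HH κ A = 1 := by
    unfold HH; rw [← hN]; exact Ring.mul_inverse_cancel _ hu
  have h2 : HH κ A * N = 1 := by
    unfold HH; rw [← hN]; exact Ring.inverse_mul_cancel _ hu
  constructor
  · rw [← hap]
    exact congrArg (fun T : EuclideanSpace ℝ J →L[ℝ] EuclideanSpace ℝ J => T w) h1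
  · rw [← hap]
    exact congrArg (fun T : EuclideanSpace ℝ J →L[ℝ] EuclideanSpace ℝ J => T w) h2

end

section

/-- `1 + A A* / κ` is invertible -/
theorem HH_unit {I J : Type} [Fintype I] [Fintype J] (κ : ℝ) (hκ : 0 < κ)
    (A : EuclideanSpace ℝ I →L[ℝ] EuclideanSpace ℝ J) :
    IsUnit (1 + κ⁻¹ • (A ∘L (ContinuousLinearMap.adjoint A))) := by
  rw [ContinuousLinearMap.isUnit_iff_bijective]
  have hinj : Function.Injective
      (1 + κ⁻¹ • (A ∘L (ContinuousLinearMap.adjoint A)) :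
        EuclideanSpace ℝ J →L[ℝ] EuclideanSpace ℝ J) := by
    rw [injective_iff_map_eq_zero]
    intro w hw
    have h1 : w + κ⁻¹ • A (ContinuousLinearMap.adjoint A w) = 0 := hw
    have h2 : ⟪w + κ⁻¹ • A (ContinuousLinearMap.adjoint A w), w⟫ = 0 := by
      rw [h1, inner_zero_left]
    rw [inner_add_left, real_inner_smul_left, real_inner_self_eq_norm_sq,
      ← ContinuousLinearMap.adjoint_inner_right A, real_inner_self_eq_norm_sq] at h2
    have h3 : 0 ≤ κ⁻¹ * ‖ContinuousLinearMap.adjoint A w‖ ^ 2 := by positivity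
    have h4 : ‖w‖ ^ 2 ≤ 0 := by linarith
    have h5 : ‖w‖ = 0 := by nlinarith [norm_nonneg w]
    exact norm_eq_zero.mp h5
  refine ⟨hinj, ?_⟩
  exact (LinearMap.injective_iff_surjective (f := (1 + κ⁻¹ • (A ∘L (ContinuousLinearMap.adjoint A)) :
        EuclideanSpace ℝ J →L[ℝ] EuclideanSpace ℝ J).toLinearMap)).mp hinj

/-- `HH` is continuous in the operator -/
theorem HH_cont {I J : Type} [Fintype I] [Fintype J] (κ : ℝ) (hκ : 0 < κ) :
    Continuous (fun A : EuclideanSpace ℝ I →L[ℝ] EuclideanSpace ℝ J => HH κ A) := by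
  have h1 : Continuous (fun A : EuclideanSpace ℝ I →L[ℝ] EuclideanSpace ℝ J =>
      (1 + κ⁻¹ • (A ∘L (ContinuousLinearMap.adjoint A)) :
        EuclideanSpace ℝ J →L[ℝ] EuclideanSpace ℝ J)) := by
    have h2 : Continuous (fun A : EuclideanSpace ℝ I →L[ℝ] EuclideanSpace ℝ J =>
        ContinuousLinearMap.adjoint A) := ContinuousLinearMap.adjoint.continuous
    have h3 : Continuous (fun A : EuclideanSpace ℝ I →L[ℝ] EuclideanSpace ℝ J =>
        A ∘L (ContinuousLinearMap.adjoint A)) := continuous_id.clm_comp h2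
    exact continuous_const.add (h3.const_smul κ⁻¹)
  rw [continuous_iff_continuousAt]
  intro A
  obtain ⟨u, hu⟩ := HH_unit κ hκ A
  have h4 := NormedRing.inverse_continuousAt u
  rw [hu] at h4
  exact ContinuousAt.comp (f := fun A : EuclideanSpace ℝ I →L[ℝ] EuclideanSpace ℝ J =>
      (1 + κ⁻¹ • (A ∘L (ContinuousLinearMap.adjoint A)) :
        EuclideanSpace ℝ J →L[ℝ] EuclideanSpace ℝ J)) (g := Ring.inverse) h4 h1.continuousAt

end

section

/-- `HH` is symmetric -/
theorem HH_sym {I J : Type} [Fintype I] [Fintype J] (κ : ℝ) (hκ : 0 < κ)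
    (A : EuclideanSpace ℝ I →L[ℝ] EuclideanSpace ℝ J) (v w : EuclideanSpace ℝ J) :
    ⟪HH κ A v, w⟫ = ⟪v, HH κ A w⟫ := by
  obtain ⟨hv, -⟩ := HH_inv κ hκ A v
  obtain ⟨hw, -⟩ := HH_inv κ hκ A w
  have h1 : ⟪HH κ A v, w⟫ = ⟪HH κ A v, HH κ A w⟫ +
      κ⁻¹ * ⟪ContinuousLinearMap.adjoint A (HH κ A v),
        ContinuousLinearMap.adjoint A (HH κ A w)⟫ := by
    conv_lhs => rw [← hw]
    rw [inner_add_right, real_inner_smul_right, ContinuousLinearMap.adjoint_inner_left]
  have h2 : ⟪v, HH κ A w⟫ = ⟪HH κ A v, HH κ A w⟫ +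
      κ⁻¹ * ⟪ContinuousLinearMap.adjoint A (HH κ A v),
        ContinuousLinearMap.adjoint A (HH κ A w)⟫ := by
    conv_lhs => rw [← hv]
    rw [inner_add_left, real_inner_smul_left, ContinuousLinearMap.adjoint_inner_right]
  rw [h1, h2]

end

section

/-- norm bounds -/
theorem HH_bounds {I J : Type} [Fintype I] [Fintype J] (κ : ℝ) (hκ : 0 < κ)
    (A : EuclideanSpace ℝ I →L[ℝ] EuclideanSpace ℝ J) (w : EuclideanSpace ℝ J) :
    ‖HH κ A w‖ ≤ ‖w‖ ∧
    ‖ContinuousLinearMap.adjoint A (HH κ A w)‖ ^ 2 ≤ κ / 4 * ‖w‖ ^ 2 ∧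
    ‖ContinuousLinearMap.adjoint A (HH κ A w)‖ ≤ ‖ContinuousLinearMap.adjoint A w‖ := by
  have h := (HH_inv κ hκ A w).1
  generalize HH κ A w = u at h
  obtain ⟨p, hp⟩ : ∃ p, p = ContinuousLinearMap.adjoint A u := ⟨_, rfl⟩
  rw [← hp] at h ⊢
  have hk : 0 < κ⁻¹ := inv_pos.2 hκ
  have h1 : ⟪w, u⟫ = ‖u‖ ^ 2 + κ⁻¹ * ‖p‖ ^ 2 := by
    rw [← h, inner_add_left, inner_smul_left, real_inner_self_eq_norm_sq,
      ← ContinuousLinearMap.adjoint_inner_right, ← hp, real_inner_self_eq_norm_sq]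
    rfl
  have h2 : ⟪w, u⟫ ≤ ‖w‖ * ‖u‖ := real_inner_le_norm w u
  have hpp : 0 ≤ κ⁻¹ * ‖p‖ ^ 2 := by positivity
  refine ⟨?_, ?_, ?_⟩
  · by_contra h3
    push Not at h3
    have h4 : 0 ≤ ‖w‖ := norm_nonneg w
    nlinarith
  · have h3 : κ * (κ⁻¹ * ‖p‖ ^ 2) = ‖p‖ ^ 2 := by
      rw [← mul_assoc, mul_inv_cancel₀ hκ.ne', one_mul]
    have h4 : κ⁻¹ * ‖p‖ ^ 2 ≤ 1 / 4 * ‖w‖ ^ 2 := by
      nlinarith [sq_nonneg (‖u‖ - ‖w‖ / 2)]
    have h5 := mul_le_mul_of_nonneg_left h4 hκ.le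
    rw [h3] at h5
    linarith
  · apply le_of_sq_le_sq _ (norm_nonneg _)
    have h3 : ContinuousLinearMap.adjoint A w
        = p + κ⁻¹ • ContinuousLinearMap.adjoint A (A p) := by
      conv_lhs => rw [← h]
      rw [map_add, map_smul, ← hp]
    have h4 : ⟪p, κ⁻¹ • ContinuousLinearMap.adjoint A (A p)⟫ = κ⁻¹ * ‖A p‖ ^ 2 := by
      rw [inner_smul_right, ContinuousLinearMap.adjoint_inner_right, real_inner_self_eq_norm_sq]
    have h6 : 0 ≤ κ⁻¹ * ‖A p‖ ^ 2 := by positivity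
    have h7 : 0 ≤ ‖κ⁻¹ • ContinuousLinearMap.adjoint A (A p)‖ ^ 2 := by positivity
    rw [h3, @norm_add_sq_real, h4]
    linarith

end

section

/-- Hilbert-Schmidt bounds for `S' = HH A` -/
theorem HH_hs {I J : Type} [Fintype I] [Fintype J] [DecidableEq I] (κ : ℝ) (hκ : 0 < κ)
    (A : EuclideanSpace ℝ I →L[ℝ] EuclideanSpace ℝ J) :
    hs ((HH κ A) ∘L A) ≤ hs A ∧ hs A - κ⁻¹ * hs4 A ≤ hsip ((HH κ A) ∘L A) A := by
  have hκ' : 0 < κ⁻¹ := inv_pos.2 hκ
  constructor
  · unfold hs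
    refine Finset.sum_le_sum fun i _ => ?_
    rw [ContinuousLinearMap.comp_apply]
    have := (HH_bounds κ hκ A (A (EuclideanSpace.single i 1))).1
    gcongr
  · have h1 : ∀ i : I, ‖A (EuclideanSpace.single i 1)‖ ^ 2 -
        κ⁻¹ * ∑ i' : I, ⟪A (EuclideanSpace.single i 1), A (EuclideanSpace.single i' 1)⟫ ^ 2 ≤
        ⟪((HH κ A) ∘L A) (EuclideanSpace.single i 1), A (EuclideanSpace.single i 1)⟫ := by
      intro i
      rw [ContinuousLinearMap.comp_apply]
      generalize hw : A (EuclideanSpace.single i (1 : ℝ)) = w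
      have hsum : ∑ i' : I, ⟪w, A (EuclideanSpace.single i' 1)⟫ ^ 2 =
          ‖ContinuousLinearMap.adjoint A w‖ ^ 2 := by
        rw [EuclideanSpace.norm_sq_eq]
        refine Finset.sum_congr rfl fun i' _ => ?_
        rw [← ContinuousLinearMap.adjoint_inner_left, EuclideanSpace.inner_single_right]
        simp
      rw [hsum]
      obtain ⟨u, hu⟩ : ∃ u, u = HH κ A w := ⟨_, rfl⟩
      have h2 := (HH_inv κ hκ A w).1
      have h3 := (HH_bounds κ hκ A w).2.2
      rw [← hu] at h2 h3 ⊢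
      have h4 : ‖w‖ ^ 2 = ⟪u, w⟫ + κ⁻¹ * ⟪ContinuousLinearMap.adjoint A u,
          ContinuousLinearMap.adjoint A w⟫ := by
        have h5 : ⟪u + κ⁻¹ • A (ContinuousLinearMap.adjoint A u), w⟫ = ⟪w, w⟫ := by rw [h2]
        rw [inner_add_left, real_inner_smul_left, ← ContinuousLinearMap.adjoint_inner_right,
          real_inner_self_eq_norm_sq] at h5
        exact h5.symm
      have h6 : ⟪ContinuousLinearMap.adjoint A u, ContinuousLinearMap.adjoint A w⟫ ≤
          ‖ContinuousLinearMap.adjoint A w‖ ^ 2 := by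
        refine (real_inner_le_norm _ _).trans ?_
        rw [pow_two]
        exact mul_le_mul_of_nonneg_right h3 (norm_nonneg _)
      have h7 := mul_le_mul_of_nonneg_left h6 hκ'.le
      linarith
    unfold hs hs4 hsip
    rw [Finset.mul_sum, ← Finset.sum_sub_distrib]
    exact Finset.sum_le_sum fun i _ => h1 i

end

section

/-- Hilbert-Schmidt norm of the adjoint and rank bound -/
theorem hs_adj {I J : Type} [Fintype I] [Fintype J] [DecidableEq I] [DecidableEq J]
    (A : EuclideanSpace ℝ I →L[ℝ] EuclideanSpace ℝ J) :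
    hs (ContinuousLinearMap.adjoint A) = hs A ∧ hs A ≤ Fintype.card J * ‖A‖ ^ 2 ∧
    hs A ≤ Fintype.card I * ‖A‖ ^ 2 ∧ 0 ≤ hs A := by
  have key : ∀ {I' J' : Type} [Fintype I'] [Fintype J'] [DecidableEq I'] [DecidableEq J']
      (B : EuclideanSpace ℝ I' →L[ℝ] EuclideanSpace ℝ J'),
      hs B = ∑ i, ∑ j, ⟪EuclideanSpace.single j (1 : ℝ), B (EuclideanSpace.single i 1)⟫ ^ 2 := by
    intro I' J' _ _ _ _ B
    unfold hs
    refine Finset.sum_congr rfl fun i _ => ?_
    rw [EuclideanSpace.norm_sq_eq]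
    refine Finset.sum_congr rfl fun j _ => ?_
    rw [EuclideanSpace.inner_single_left]
    simp
  have bnd : ∀ {I' J' : Type} [Fintype I'] [Fintype J'] [DecidableEq I'] [DecidableEq J']
      (B : EuclideanSpace ℝ I' →L[ℝ] EuclideanSpace ℝ J'),
      hs B ≤ Fintype.card I' * ‖B‖ ^ 2 := by
    intro I' J' _ _ _ _ B
    unfold hs
    calc ∑ i, ‖B (EuclideanSpace.single i 1)‖ ^ 2 ≤ ∑ i : I', ‖B‖ ^ 2 := by
          refine Finset.sum_le_sum fun i _ => ?_
          have h := B.le_opNorm (EuclideanSpace.single i (1 : ℝ))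
          rw [PiLp.norm_single, norm_one, mul_one] at h
          exact pow_le_pow_left₀ (norm_nonneg _) h 2
      _ = Fintype.card I' * ‖B‖ ^ 2 := by
          rw [Finset.sum_const, Finset.card_univ, nsmul_eq_mul]
  have hadj : hs (ContinuousLinearMap.adjoint A) = hs A := by
    rw [key (ContinuousLinearMap.adjoint A), key A, Finset.sum_comm]
    refine Finset.sum_congr rfl fun i _ => Finset.sum_congr rfl fun j _ => ?_
    rw [ContinuousLinearMap.adjoint_inner_right, real_inner_comm]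
  refine ⟨hadj, ?_, bnd A, ?_⟩
  · rw [← hadj]
    have h := bnd (ContinuousLinearMap.adjoint A)
    have hn : ‖ContinuousLinearMap.adjoint A‖ = ‖A‖ := LinearIsometryEquiv.norm_map _ A
    rwa [hn] at h
  · unfold hs
    exact Finset.sum_nonneg fun i _ => sq_nonneg _

end

section

theorem hs_prod_key {I I' J : Type} [Fintype I] [Fintype I'] [Fintype J] (u : I → J → ℝ)
    (v : I' → J → ℝ) :
    ∑ i, ∑ k, (∑ j, u i j * v k j) ^ 2 =
      ∑ j, ∑ l, (∑ i, u i j * u i l) * (∑ k, v k j * v k l) := by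
  have h1 : ∀ i k, (∑ j, u i j * v k j) ^ 2 = ∑ j, ∑ l, (u i j * u i l) * (v k j * v k l) := by
    intro i k
    rw [sq, Finset.sum_mul_sum]
    refine Finset.sum_congr rfl fun j _ => Finset.sum_congr rfl fun l _ => ?_
    ring
  have h2 : ∀ j l, (∑ i, u i j * u i l) * (∑ k, v k j * v k l) =
      ∑ i, ∑ k, (u i j * u i l) * (v k j * v k l) := by
    intro j l
    rw [Finset.sum_mul_sum]
  simp only [h1, h2]
  calc ∑ i, ∑ k, ∑ j, ∑ l, (u i j * u i l) * (v k j * v k l)
      = ∑ i, ∑ j, ∑ k, ∑ l, (u i j * u i l) * (v k j * v k l) :=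
        Finset.sum_congr rfl fun i _ => Finset.sum_comm
    _ = ∑ j, ∑ i, ∑ k, ∑ l, (u i j * u i l) * (v k j * v k l) := Finset.sum_comm
    _ = ∑ j, ∑ i, ∑ l, ∑ k, (u i j * u i l) * (v k j * v k l) :=
        Finset.sum_congr rfl fun j _ => Finset.sum_congr rfl fun i _ => Finset.sum_comm
    _ = ∑ j, ∑ l, ∑ i, ∑ k, (u i j * u i l) * (v k j * v k l) :=
        Finset.sum_congr rfl fun j _ => Finset.sum_comm

theorem hs_prod_inner {J : Type} [Fintype J] (x y : EuclideanSpace ℝ J) :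
    ⟪x, y⟫ = ∑ j, x j * y j := by
  rw [PiLp.inner_apply]
  refine Finset.sum_congr rfl fun j _ => ?_
  simp [mul_comm]

theorem hs_prod_ineq {I I' J : Type} [Fintype I] [Fintype I'] [Fintype J]
    (a : I → EuclideanSpace ℝ J) (t : I' → EuclideanSpace ℝ J) :
    2 * ∑ i, ∑ k, ⟪a i, t k⟫ ^ 2 ≤ (∑ i, ∑ i', ⟪a i, a i'⟫ ^ 2) + ∑ k, ∑ k', ⟪t k, t k'⟫ ^ 2 := by
  simp only [hs_prod_inner]
  rw [hs_prod_key (fun i j => a i j) (fun k j => t k j),
    hs_prod_key (fun i j => a i j) (fun k j => a k j),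
    hs_prod_key (fun i j => t i j) (fun k j => t k j)]
  rw [Finset.mul_sum, ← Finset.sum_add_distrib]
  apply Finset.sum_le_sum
  intro j _
  rw [Finset.mul_sum, ← Finset.sum_add_distrib]
  apply Finset.sum_le_sum
  intro l _
  nlinarith [sq_nonneg ((∑ i, a i j * a i l) - ∑ k, t k j * t k l)]

/-- `2 ‖A* T‖²_HS ≤ ‖A* A‖²_HS + ‖T* T‖²_HS` and `‖A* B‖²_HS ≤ ‖B‖² ‖A‖²_HS` -/
theorem hs_prod {I J : Type} [Fintype I] [Fintype J] [DecidableEq I] [DecidableEq J]
    (A T : EuclideanSpace ℝ I →L[ℝ] EuclideanSpace ℝ J) :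
    2 * hs ((ContinuousLinearMap.adjoint A) ∘L T) ≤ hs4 A + hs4 T ∧
    hs ((ContinuousLinearMap.adjoint A) ∘L T) ≤ ‖T‖ ^ 2 * hs A := by
  constructor
  · have h1 : hs ((ContinuousLinearMap.adjoint A) ∘L T) =
        ∑ i, ∑ k, ⟪A (EuclideanSpace.single i 1), T (EuclideanSpace.single k 1)⟫ ^ 2 := by
      unfold hs
      rw [Finset.sum_comm]
      refine Finset.sum_congr rfl fun k _ => ?_
      rw [EuclideanSpace.norm_sq_eq]
      refine Finset.sum_congr rfl fun i _ => ?_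
      rw [Real.norm_eq_abs, sq_abs]
      congr 1
      have h2 : ((ContinuousLinearMap.adjoint A ∘L T) (EuclideanSpace.single k 1)) i =
          ⟪EuclideanSpace.single i (1:ℝ),
            (ContinuousLinearMap.adjoint A ∘L T) (EuclideanSpace.single k 1)⟫ := by
        rw [EuclideanSpace.inner_single_left]
        simp
      rw [h2, ContinuousLinearMap.comp_apply, ContinuousLinearMap.adjoint_inner_right]
    rw [h1]
    unfold hs4
    exact hs_prod_ineq (fun i => A (EuclideanSpace.single i 1))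
      (fun k => T (EuclideanSpace.single k 1))
  · rw [← (hs_adj ((ContinuousLinearMap.adjoint A) ∘L T)).1, ContinuousLinearMap.adjoint_comp,
      ContinuousLinearMap.adjoint_adjoint]
    unfold hs
    rw [Finset.mul_sum]
    apply Finset.sum_le_sum
    intro i _
    rw [← mul_pow]
    apply pow_le_pow_left₀ (norm_nonneg _)
    rw [ContinuousLinearMap.comp_apply]
    refine (ContinuousLinearMap.le_opNorm _ _).trans (le_of_eq ?_)
    rw [LinearIsometryEquiv.norm_map]

end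

section

/-- continuity and elementary inequalities -/
theorem hs_cont {I J : Type} [Fintype I] [Fintype J] [DecidableEq I] :
    Continuous (fun A : EuclideanSpace ℝ I →L[ℝ] EuclideanSpace ℝ J => hs A) ∧
    Continuous (fun A : EuclideanSpace ℝ I →L[ℝ] EuclideanSpace ℝ J => hs4 A) ∧
    Continuous (fun p : (EuclideanSpace ℝ I →L[ℝ] EuclideanSpace ℝ J) ×
      (EuclideanSpace ℝ I →L[ℝ] EuclideanSpace ℝ J) => hsip p.1 p.2) ∧
    (∀ (A B : EuclideanSpace ℝ I →L[ℝ] EuclideanSpace ℝ J) (μ : ℝ), 0 < μ →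
      |hsip A B| ≤ μ / 2 * hs A + 1 / (2 * μ) * hs B) ∧
    (∀ A B C : EuclideanSpace ℝ I →L[ℝ] EuclideanSpace ℝ J, hsip A (B - C) = hsip A B - hsip A C) ∧
    (∀ A B : EuclideanSpace ℝ I →L[ℝ] EuclideanSpace ℝ J,
      |hsip A B| ≤ Fintype.card I * ‖A‖ * ‖B‖) ∧
    (∀ A : EuclideanSpace ℝ I →L[ℝ] EuclideanSpace ℝ J,
      0 ≤ hs4 A ∧ hs4 A ≤ (Fintype.card I : ℝ) ^ 2 * ‖A‖ ^ 4) := by
  have h1 : ∀ (A : EuclideanSpace ℝ I →L[ℝ] EuclideanSpace ℝ J) (i : I),
      ‖A (EuclideanSpace.single i 1)‖ ≤ ‖A‖ := by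
    intro A i
    have := A.le_opNorm (EuclideanSpace.single i 1)
    simpa using this
  refine ⟨?_, ?_, ?_, ?_, ?_, ?_, ?_⟩
  · unfold hs
    refine continuous_finset_sum _ fun i _ => ?_
    exact ((continuous_id.clm_apply continuous_const).norm).pow 2
  · unfold hs4
    refine continuous_finset_sum _ fun i _ => continuous_finset_sum _ fun i' _ => ?_
    exact ((continuous_id.clm_apply continuous_const).inner
      (continuous_id.clm_apply continuous_const)).pow 2
  · unfold hsip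
    refine continuous_finset_sum _ fun i _ => ?_
    exact (continuous_fst.clm_apply continuous_const).inner
      (continuous_snd.clm_apply continuous_const)
  · intro A B μ hμ
    unfold hsip hs
    rw [Finset.mul_sum, Finset.mul_sum, ← Finset.sum_add_distrib]
    refine (Finset.abs_sum_le_sum_abs _ _).trans (Finset.sum_le_sum fun i _ => ?_)
    refine (abs_real_inner_le_norm _ _).trans ?_
    set x := ‖A (EuclideanSpace.single i 1)‖
    set y := ‖B (EuclideanSpace.single i 1)‖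
    have h2 : μ / 2 * x ^ 2 + 1 / (2 * μ) * y ^ 2 - x * y = (μ * x - y) ^ 2 / (2 * μ) := by
      field_simp; ring
    have h3 : 0 ≤ (μ * x - y) ^ 2 / (2 * μ) := by positivity
    linarith
  · intro A B C
    unfold hsip
    rw [← Finset.sum_sub_distrib]
    refine Finset.sum_congr rfl fun i _ => ?_
    rw [ContinuousLinearMap.sub_apply, inner_sub_right]
  · intro A B
    unfold hsip
    refine (Finset.abs_sum_le_sum_abs _ _).trans ?_
    calc _ ≤ ∑ i : I, ‖A‖ * ‖B‖ := Finset.sum_le_sum fun i _ =>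
          (abs_real_inner_le_norm _ _).trans
            (mul_le_mul (h1 A i) (h1 B i) (norm_nonneg _) (norm_nonneg _))
      _ = _ := by simp [mul_assoc]
  · intro A
    unfold hs4
    refine ⟨Finset.sum_nonneg fun i _ => Finset.sum_nonneg fun i' _ => sq_nonneg _, ?_⟩
    calc _ ≤ ∑ i : I, ∑ i' : I, ‖A‖ ^ 4 := by
          refine Finset.sum_le_sum fun i _ => Finset.sum_le_sum fun i' _ => ?_
          have h2 := (abs_real_inner_le_norm (A (EuclideanSpace.single i 1))
            (A (EuclideanSpace.single i' 1))).trans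
            (mul_le_mul (h1 A i) (h1 A i') (norm_nonneg _) (norm_nonneg _))
          rw [← sq_abs]
          calc _ ≤ (‖A‖ * ‖A‖) ^ 2 := pow_le_pow_left₀ (abs_nonneg _) h2 2
            _ = ‖A‖ ^ 4 := by ring
      _ = _ := by simp; ring

end

end Pool.Agent.Helper38.FE
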