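import Pool.Agent.Helper38.FE.ClsB

/-! Module ABC, part C: the gain and the final statement. -/

set_option autoImplicit false
set_option linter.unusedVariables false
set_option linter.unusedSectionVars false

open MeasureTheory ProbabilityTheory
open scoped RealInnerProductSpace ENNReal Topology

namespace Pool.Agent.Helper38.FE

section

/-- integration by parts in the second variable of a Gaussian quadruple -/
theorem ibp4 {I J : Type} [Fintype I] [Fintype J] [DecidableEq I]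
    (T : EuclideanSpace ℝ I → (EuclideanSpace ℝ I →L[ℝ] EuclideanSpace ℝ J)) (hT : Continuous T)
    (K : ℝ) (hTK : ∀ x, ‖T x‖ ≤ K) (G : EuclideanSpace ℝ I → EuclideanSpace ℝ J)
    (hG : ContDiff ℝ 1 G) (h0 : ∀ x, ‖G x‖ ≤ K) (h1 : ∀ x, ‖fderiv ℝ G x‖ ≤ K)
    (a s s' σ : ℝ) (hσ : σ ^ 2 = s ^ 2 + s' ^ 2) :
    Integrable (fun w => ⟪T w.1 w.2.1, G (a • w.1 + s • w.2.1 + s' • w.2.2.1)⟫) (gam4 I J) ∧
    ∫ w, ⟪T w.1 w.2.1, G (a • w.1 + s • w.2.1 + s' • w.2.2.1)⟫ ∂(gam4 I J) =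
      s * ∫ p, hsip (T p.1) (fderiv ℝ G (a • p.1 + σ • p.2))
        ∂((stdGaussian (EuclideanSpace ℝ I)).prod (stdGaussian (EuclideanSpace ℝ I))) := by
  classical
  have hGc : Continuous G := hG.continuous
  have hGd : Continuous (fderiv ℝ G) := hG.continuous_fderiv (by norm_num)
  have hK : 0 ≤ K := le_trans (norm_nonneg _) (h0 0)
  obtain ⟨mo1, -, -, -, -⟩ := moments (I := I) (J := J)
  obtain ⟨-, -, hc, -, -, hb, -⟩ := hs_cont (I := I) (J := J)
  -- the integrand is continuous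
  have cF : Continuous (fun w : EuclideanSpace ℝ I × EuclideanSpace ℝ I × EuclideanSpace ℝ I ×
      EuclideanSpace ℝ J => ⟪T w.1 w.2.1, G (a • w.1 + s • w.2.1 + s' • w.2.2.1)⟫) := by
    refine Continuous.inner ?_ ?_
    · exact (hT.comp continuous_fst).clm_apply (by fun_prop)
    · exact hGc.comp (by fun_prop)
  have bT : ∀ x z, ‖T x z‖ ≤ K * ‖z‖ := fun x z =>
    ((T x).le_opNorm z).trans (mul_le_mul_of_nonneg_right (hTK x) (norm_nonneg _))
  have bF : ∀ w : EuclideanSpace ℝ I × EuclideanSpace ℝ I × EuclideanSpace ℝ I ×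
      EuclideanSpace ℝ J, ‖⟪T w.1 w.2.1, G (a • w.1 + s • w.2.1 + s' • w.2.2.1)⟫‖ ≤
        K * ‖w.2.1‖ * K := by
    intro w
    refine (norm_inner_le_norm _ _).trans ?_
    exact mul_le_mul (bT _ _) (h0 _) (norm_nonneg _) (mul_nonneg hK (norm_nonneg _))
  have i1 : Integrable (fun w : EuclideanSpace ℝ I × EuclideanSpace ℝ I × EuclideanSpace ℝ I ×
      EuclideanSpace ℝ J => ‖w.2.1‖) (gam4 I J) := by
    have h2 : Integrable (fun q : EuclideanSpace ℝ I × EuclideanSpace ℝ I × EuclideanSpace ℝ J =>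
        ‖q.1‖) ((stdGaussian (EuclideanSpace ℝ I)).prod ((stdGaussian (EuclideanSpace ℝ I)).prod
          (stdGaussian (EuclideanSpace ℝ J)))) := mo1.comp_fst _
    exact h2.comp_snd _
  have hint : Integrable (fun w : EuclideanSpace ℝ I × EuclideanSpace ℝ I × EuclideanSpace ℝ I ×
      EuclideanSpace ℝ J => ⟪T w.1 w.2.1, G (a • w.1 + s • w.2.1 + s' • w.2.2.1)⟫) (gam4 I J) := by
    refine Integrable.mono' ((i1.const_mul K).mul_const K) cF.aestronglyMeasurable ?_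
    exact Filter.Eventually.of_forall bF
  refine ⟨hint, ?_⟩
  -- the other integrand
  have cH : Continuous (fun w : EuclideanSpace ℝ I × EuclideanSpace ℝ I × EuclideanSpace ℝ I ×
      EuclideanSpace ℝ J => hsip (T w.1) (fderiv ℝ G (a • w.1 + s • w.2.1 + s' • w.2.2.1))) := by
    have e : (fun w : EuclideanSpace ℝ I × EuclideanSpace ℝ I × EuclideanSpace ℝ I ×
      EuclideanSpace ℝ J => hsip (T w.1) (fderiv ℝ G (a • w.1 + s • w.2.1 + s' • w.2.2.1))) =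
      (fun p : (EuclideanSpace ℝ I →L[ℝ] EuclideanSpace ℝ J) ×
      (EuclideanSpace ℝ I →L[ℝ] EuclideanSpace ℝ J) => hsip p.1 p.2) ∘
        (fun w : EuclideanSpace ℝ I × EuclideanSpace ℝ I × EuclideanSpace ℝ I ×
      EuclideanSpace ℝ J => (T w.1, fderiv ℝ G (a • w.1 + s • w.2.1 + s' • w.2.2.1))) := rfl
    rw [e]
    refine hc.comp ((hT.comp continuous_fst).prodMk (hGd.comp (by fun_prop)))
  have bH : ∀ x u, ‖hsip (T x) (fderiv ℝ G u)‖ ≤ Fintype.card I * K * K := by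
    intro x u
    rw [Real.norm_eq_abs]
    refine (hb _ _).trans ?_
    gcongr
    · exact hTK x
    · exact h1 u
  have hintH : Integrable (fun w : EuclideanSpace ℝ I × EuclideanSpace ℝ I × EuclideanSpace ℝ I ×
      EuclideanSpace ℝ J => hsip (T w.1) (fderiv ℝ G (a • w.1 + s • w.2.1 + s' • w.2.2.1)))
      (gam4 I J) := by
    refine Integrable.mono' (integrable_const (Fintype.card I * K * K : ℝ))
      cH.aestronglyMeasurable ?_
    exact Filter.Eventually.of_forall (fun w => bH _ _)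
  -- step 1: integration by parts
  have step1 : ∫ w, ⟪T w.1 w.2.1, G (a • w.1 + s • w.2.1 + s' • w.2.2.1)⟫ ∂(gam4 I J) =
      s * ∫ w, hsip (T w.1) (fderiv ℝ G (a • w.1 + s • w.2.1 + s' • w.2.2.1)) ∂(gam4 I J) := by
    unfold gam4 at hint hintH ⊢
    rw [integral_prod _ hint, integral_prod _ hintH, ← integral_const_mul]
    refine integral_congr_ae ?_
    filter_upwards [hint.prod_right_ae, hintH.prod_right_ae] with x hx hxH
    rw [integral_prod_symm _ hx, integral_prod_symm _ hxH, ← integral_const_mul]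
    refine integral_congr_ae (Filter.Eventually.of_forall ?_)
    intro q
    have h := stein_vec G hG K h0 h1 (T x) (a • x + s' • q.1) s
    have e1 : ∀ z : EuclideanSpace ℝ I, a • x + s' • q.1 + s • z = a • x + s • z + s' • q.1 := by
      intro z; abel
    simp only [e1] at h
    exact h
  rw [step1]
  congr 1
  -- step 2: merge
  have cPhi : Continuous (fun w : EuclideanSpace ℝ I × EuclideanSpace ℝ I ×
      EuclideanSpace ℝ J => hsip (T w.1) (fderiv ℝ G (a • w.1 + w.2.1))) := by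
    have e : (fun w : EuclideanSpace ℝ I × EuclideanSpace ℝ I ×
      EuclideanSpace ℝ J => hsip (T w.1) (fderiv ℝ G (a • w.1 + w.2.1))) =
      (fun p : (EuclideanSpace ℝ I →L[ℝ] EuclideanSpace ℝ J) ×
      (EuclideanSpace ℝ I →L[ℝ] EuclideanSpace ℝ J) => hsip p.1 p.2) ∘
        (fun w : EuclideanSpace ℝ I × EuclideanSpace ℝ I ×
      EuclideanSpace ℝ J => (T w.1, fderiv ℝ G (a • w.1 + w.2.1))) := rfl
    rw [e]
    refine hc.comp ((hT.comp continuous_fst).prodMk (hGd.comp (by fun_prop)))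
  have m34 := merge34 I J s s' σ hσ
  have hL := integral_map (μ := gam4 I J) (φ := fun w => (w.1, s • w.2.1 + s' • w.2.2.1, w.2.2.2))
    (f := fun w : EuclideanSpace ℝ I × EuclideanSpace ℝ I ×
      EuclideanSpace ℝ J => hsip (T w.1) (fderiv ℝ G (a • w.1 + w.2.1)))
    (by fun_prop) cPhi.aestronglyMeasurable
  have hR := integral_map (μ := gam3 I J) (φ := fun z => (z.1, σ • z.2.1, z.2.2))
    (f := fun w : EuclideanSpace ℝ I × EuclideanSpace ℝ I ×
      EuclideanSpace ℝ J => hsip (T w.1) (fderiv ℝ G (a • w.1 + w.2.1)))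
    (by fun_prop) cPhi.aestronglyMeasurable
  rw [m34] at hL
  have hLR := hL.symm.trans hR
  have e2 : ∀ w : EuclideanSpace ℝ I × EuclideanSpace ℝ I × EuclideanSpace ℝ I ×
      EuclideanSpace ℝ J, a • w.1 + s • w.2.1 + s' • w.2.2.1 =
        a • w.1 + (s • w.2.1 + s' • w.2.2.1) := fun w => add_assoc _ _ _
  simp only [e2]
  rw [hLR]
  -- step 3: remove the last variable
  have c3 : Continuous (fun z : EuclideanSpace ℝ I × EuclideanSpace ℝ I ×
      EuclideanSpace ℝ J => hsip (T z.1) (fderiv ℝ G (a • z.1 + σ • z.2.1))) := by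
    have e : (fun z : EuclideanSpace ℝ I × EuclideanSpace ℝ I ×
      EuclideanSpace ℝ J => hsip (T z.1) (fderiv ℝ G (a • z.1 + σ • z.2.1))) =
      (fun p : (EuclideanSpace ℝ I →L[ℝ] EuclideanSpace ℝ J) ×
      (EuclideanSpace ℝ I →L[ℝ] EuclideanSpace ℝ J) => hsip p.1 p.2) ∘
        (fun z : EuclideanSpace ℝ I × EuclideanSpace ℝ I ×
      EuclideanSpace ℝ J => (T z.1, fderiv ℝ G (a • z.1 + σ • z.2.1))) := rfl
    rw [e]
    refine hc.comp ((hT.comp continuous_fst).prodMk (hGd.comp (by fun_prop)))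
  have c2 : Continuous (fun z : EuclideanSpace ℝ I × EuclideanSpace ℝ I =>
      hsip (T z.1) (fderiv ℝ G (a • z.1 + σ • z.2))) := by
    have e : (fun z : EuclideanSpace ℝ I × EuclideanSpace ℝ I =>
      hsip (T z.1) (fderiv ℝ G (a • z.1 + σ • z.2))) =
      (fun p : (EuclideanSpace ℝ I →L[ℝ] EuclideanSpace ℝ J) ×
      (EuclideanSpace ℝ I →L[ℝ] EuclideanSpace ℝ J) => hsip p.1 p.2) ∘
        (fun z : EuclideanSpace ℝ I × EuclideanSpace ℝ I =>
          (T z.1, fderiv ℝ G (a • z.1 + σ • z.2))) := rfl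
    rw [e]
    refine hc.comp ((hT.comp continuous_fst).prodMk (hGd.comp (by fun_prop)))
  have i3 : Integrable (fun z : EuclideanSpace ℝ I × EuclideanSpace ℝ I ×
      EuclideanSpace ℝ J => hsip (T z.1) (fderiv ℝ G (a • z.1 + σ • z.2.1))) (gam3 I J) :=
    Integrable.mono' (integrable_const (Fintype.card I * K * K : ℝ))
      c3.aestronglyMeasurable (Filter.Eventually.of_forall (fun w => bH _ _))
  have i2 : Integrable (fun z : EuclideanSpace ℝ I × EuclideanSpace ℝ I =>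
      hsip (T z.1) (fderiv ℝ G (a • z.1 + σ • z.2)))
      ((stdGaussian (EuclideanSpace ℝ I)).prod (stdGaussian (EuclideanSpace ℝ I))) :=
    Integrable.mono' (integrable_const (Fintype.card I * K * K : ℝ))
      c2.aestronglyMeasurable (Filter.Eventually.of_forall (fun w => bH _ _))
  unfold gam3 at i3 ⊢
  rw [integral_prod _ i3, integral_prod _ i2]
  refine integral_congr_ae (Filter.Eventually.of_forall ?_)
  intro x
  have := integral_fun_fst (μ := stdGaussian (EuclideanSpace ℝ I))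
    (ν := stdGaussian (EuclideanSpace ℝ J))
    (fun g : EuclideanSpace ℝ I => hsip (T x) (fderiv ℝ G (a • x + σ • g)))
  simpa using this

end

section

theorem gainI_int {α : Type*} [MeasurableSpace α] [TopologicalSpace α] [OpensMeasurableSpace α]
    [SecondCountableTopology α] {μ : Measure α} [IsFiniteMeasure μ] {f : α → ℝ}
    (hf : Continuous f) (C : ℝ) (hC : ∀ x, |f x| ≤ C) : Integrable f μ :=
  Integrable.of_bound hf.aestronglyMeasurable C (Filter.Eventually.of_forall hC)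

/-- lower bound for the correlation of `S' z` with `F(X)` -/
theorem gainI {I J : Type} [Fintype I] [Fintype J] [DecidableEq I] [DecidableEq J]
    (F f₁ f₂ : EuclideanSpace ℝ I → EuclideanSpace ℝ J) (C4 CD K r t ℓ ε b : ℝ)
    (D : Dat F f₁ f₂ C4 CD K r t ℓ ε b) (κ a s s' σ : ℝ) (hκ : 0 < κ) (ha : 0 ≤ a)
    (hσ0 : 0 ≤ σ) (hσ : σ ^ 2 = s ^ 2 + s' ^ 2) (haσ : a ^ 2 + σ ^ 2 = 1) (hs0 : 0 ≤ s) :
    s * ((b - κ⁻¹ * (C4 * b ^ 2) - b / 8 - 6 * σ ^ 2 * (CD * b ^ 2)) * Fintype.card J) ≤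
      ∫ w, ⟪((HH κ (fderiv ℝ F w.1)) ∘L (fderiv ℝ F w.1)) w.2.1,
        F (a • w.1 + s • w.2.1 + s' • w.2.2.1)⟫ ∂(gam4 I J) := by
  have hDF : Continuous (fderiv ℝ F) := D.F2.continuous_fderiv (by norm_num)
  have hSc : Continuous (fun x => (HH κ (fderiv ℝ F x)) ∘L (fderiv ℝ F x)) :=
    ((HH_cont κ hκ).comp hDF).clm_comp hDF
  have hSn : ∀ x, ‖(HH κ (fderiv ℝ F x)) ∘L (fderiv ℝ F x)‖ ≤ ‖fderiv ℝ F x‖ := by
    intro x
    refine ContinuousLinearMap.opNorm_le_bound _ (norm_nonneg _) (fun v => ?_)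
    exact ((HH_bounds κ hκ (fderiv ℝ F x) (fderiv ℝ F x v)).1).trans
      ((fderiv ℝ F x).le_opNorm v)
  have hK : 0 ≤ K := (norm_nonneg _).trans (D.FK 0)
  have hSK : ∀ x, ‖(HH κ (fderiv ℝ F x)) ∘L (fderiv ℝ F x)‖ ≤ K :=
    fun x => (hSn x).trans (D.F1K x)
  have hF1 : ContDiff ℝ 1 F := D.F2.of_le (by norm_num)
  obtain ⟨-, hI⟩ := ibp4 (fun x => (HH κ (fderiv ℝ F x)) ∘L (fderiv ℝ F x)) hSc K hSK F hF1
    D.FK D.F1K a s s' σ hσ
  have hI' : ∫ w, ⟪((HH κ (fderiv ℝ F w.1)) ∘L (fderiv ℝ F w.1)) w.2.1,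
        F (a • w.1 + s • w.2.1 + s' • w.2.2.1)⟫ ∂(gam4 I J) = _ := hI
  rw [hI']
  refine mul_le_mul_of_nonneg_left ?_ hs0
  obtain ⟨c1, c2, c3, c4, c5, c6, c7⟩ := hs_cont (I := I) (J := J)
  have hadj := fun A : EuclideanSpace ℝ I →L[ℝ] EuclideanSpace ℝ J => hs_adj A
  set μ : Measure (EuclideanSpace ℝ I × EuclideanSpace ℝ I) :=
    (stdGaussian (EuclideanSpace ℝ I)).prod (stdGaussian (EuclideanSpace ℝ I)) with hμ
  -- continuity of the ingredients
  have k1 : Continuous (fun p : EuclideanSpace ℝ I × EuclideanSpace ℝ I => fderiv ℝ F p.1) :=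
    hDF.comp continuous_fst
  have k2 : Continuous (fun p : EuclideanSpace ℝ I × EuclideanSpace ℝ I =>
      fderiv ℝ F (a • p.1 + σ • p.2)) := hDF.comp (by fun_prop)
  have k3 : Continuous (fun p : EuclideanSpace ℝ I × EuclideanSpace ℝ I =>
      (HH κ (fderiv ℝ F p.1)) ∘L (fderiv ℝ F p.1)) := hSc.comp continuous_fst
  have i1 : Integrable (fun p : EuclideanSpace ℝ I × EuclideanSpace ℝ I =>
      hs (fderiv ℝ F p.1)) μ := by
    refine gainI_int (c1.comp k1) (Fintype.card J * K ^ 2) (fun p => ?_)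
    have h := hadj (fderiv ℝ F p.1)
    show |hs (fderiv ℝ F p.1)| ≤ _
    rw [abs_of_nonneg h.2.2.2]
    refine h.2.1.trans ?_
    gcongr
    exact D.F1K p.1
  have i2 : Integrable (fun p : EuclideanSpace ℝ I × EuclideanSpace ℝ I =>
      hs4 (fderiv ℝ F p.1)) μ := by
    refine gainI_int (c2.comp k1) ((Fintype.card I : ℝ) ^ 2 * K ^ 4) (fun p => ?_)
    have h := c7 (fderiv ℝ F p.1)
    show |hs4 (fderiv ℝ F p.1)| ≤ _
    rw [abs_of_nonneg h.1]
    refine h.2.trans ?_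
    gcongr
    exact D.F1K p.1
  have i3 : Integrable (fun p : EuclideanSpace ℝ I × EuclideanSpace ℝ I =>
      hs (fderiv ℝ F (a • p.1 + σ • p.2) - fderiv ℝ F p.1)) μ := by
    refine gainI_int (c1.comp (k2.sub k1)) (Fintype.card J * (K + K) ^ 2) (fun p => ?_)
    have h := hadj (fderiv ℝ F (a • p.1 + σ • p.2) - fderiv ℝ F p.1)
    show |hs (fderiv ℝ F (a • p.1 + σ • p.2) - fderiv ℝ F p.1)| ≤ _
    rw [abs_of_nonneg h.2.2.2]
    refine h.2.1.trans ?_
    gcongr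
    exact (norm_sub_le _ _).trans (add_le_add (D.F1K _) (D.F1K _))
  have i4 : Integrable (fun p : EuclideanSpace ℝ I × EuclideanSpace ℝ I =>
      hsip ((HH κ (fderiv ℝ F p.1)) ∘L (fderiv ℝ F p.1)) (fderiv ℝ F (a • p.1 + σ • p.2))) μ := by
    refine gainI_int (c3.comp (k3.prodMk k2)) (Fintype.card I * K * K) (fun p => ?_)
    refine (c6 _ _).trans ?_
    gcongr
    · exact hSK p.1
    · exact D.F1K _
  have j1 : ∫ p : EuclideanSpace ℝ I × EuclideanSpace ℝ I, hs (fderiv ℝ F p.1) ∂μ =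
      b * Fintype.card J := by
    rw [hμ, integral_fun_fst (fun x => hs (fderiv ℝ F x))]
    simp [D.hb]
  have j2 : ∫ p : EuclideanSpace ℝ I × EuclideanSpace ℝ I, hs4 (fderiv ℝ F p.1) ∂μ ≤
      C4 * b ^ 2 * Fintype.card J := by
    rw [hμ, integral_fun_fst (fun x => hs4 (fderiv ℝ F x))]
    simpa using D.h4
  have j3 : ∫ p : EuclideanSpace ℝ I × EuclideanSpace ℝ I,
      hs (fderiv ℝ F (a • p.1 + σ • p.2) - fderiv ℝ F p.1) ∂μ ≤
      3 * σ ^ 2 * (CD * b ^ 2 * Fintype.card J) := by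
    refine (corr F D.F2 K D.F1K D.F2K a σ ha hσ0 haσ).trans ?_
    exact mul_le_mul_of_nonneg_left D.hD (by positivity)
  have hpt : ∀ p : EuclideanSpace ℝ I × EuclideanSpace ℝ I,
      hs (fderiv ℝ F p.1) - κ⁻¹ * hs4 (fderiv ℝ F p.1) - 1 / 8 * hs (fderiv ℝ F p.1) -
        2 * hs (fderiv ℝ F (a • p.1 + σ • p.2) - fderiv ℝ F p.1) ≤
      hsip ((HH κ (fderiv ℝ F p.1)) ∘L (fderiv ℝ F p.1)) (fderiv ℝ F (a • p.1 + σ • p.2)) := by
    intro p
    have h1 := HH_hs κ hκ (fderiv ℝ F p.1)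
    have h2 := c4 ((HH κ (fderiv ℝ F p.1)) ∘L (fderiv ℝ F p.1))
      (fderiv ℝ F (a • p.1 + σ • p.2) - fderiv ℝ F p.1) (1 / 4) (by norm_num)
    have h3 := c5 ((HH κ (fderiv ℝ F p.1)) ∘L (fderiv ℝ F p.1))
      (fderiv ℝ F (a • p.1 + σ • p.2)) (fderiv ℝ F p.1)
    have h4 := (abs_le.1 h2).1
    rw [h3] at h4
    norm_num at h4
    linarith [h1.1, h1.2]
  have hint : ∫ p : EuclideanSpace ℝ I × EuclideanSpace ℝ I,
      (hs (fderiv ℝ F p.1) - κ⁻¹ * hs4 (fderiv ℝ F p.1) - 1 / 8 * hs (fderiv ℝ F p.1) -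
        2 * hs (fderiv ℝ F (a • p.1 + σ • p.2) - fderiv ℝ F p.1)) ∂μ ≤
      ∫ p : EuclideanSpace ℝ I × EuclideanSpace ℝ I,
        hsip ((HH κ (fderiv ℝ F p.1)) ∘L (fderiv ℝ F p.1))
          (fderiv ℝ F (a • p.1 + σ • p.2)) ∂μ :=
    integral_mono (((i1.sub (i2.const_mul _)).sub (i1.const_mul _)).sub (i3.const_mul _)) i4 hpt
  have e1 : ∫ p : EuclideanSpace ℝ I × EuclideanSpace ℝ I,
      (hs (fderiv ℝ F p.1) - κ⁻¹ * hs4 (fderiv ℝ F p.1) - 1 / 8 * hs (fderiv ℝ F p.1) -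
        2 * hs (fderiv ℝ F (a • p.1 + σ • p.2) - fderiv ℝ F p.1)) ∂μ =
      (∫ p : EuclideanSpace ℝ I × EuclideanSpace ℝ I, hs (fderiv ℝ F p.1) ∂μ) -
        κ⁻¹ * (∫ p : EuclideanSpace ℝ I × EuclideanSpace ℝ I, hs4 (fderiv ℝ F p.1) ∂μ) -
        1 / 8 * (∫ p : EuclideanSpace ℝ I × EuclideanSpace ℝ I, hs (fderiv ℝ F p.1) ∂μ) -
        2 * ∫ p : EuclideanSpace ℝ I × EuclideanSpace ℝ I,
          hs (fderiv ℝ F (a • p.1 + σ • p.2) - fderiv ℝ F p.1) ∂μ := by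
    have a1 : Integrable (fun p : EuclideanSpace ℝ I × EuclideanSpace ℝ I =>
        κ⁻¹ * hs4 (fderiv ℝ F p.1)) μ := i2.const_mul _
    have a2 : Integrable (fun p : EuclideanSpace ℝ I × EuclideanSpace ℝ I =>
        1 / 8 * hs (fderiv ℝ F p.1)) μ := i1.const_mul _
    have a3 : Integrable (fun p : EuclideanSpace ℝ I × EuclideanSpace ℝ I =>
        2 * hs (fderiv ℝ F (a • p.1 + σ • p.2) - fderiv ℝ F p.1)) μ := i3.const_mul _
    have b1 : Integrable (fun p : EuclideanSpace ℝ I × EuclideanSpace ℝ I =>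
        hs (fderiv ℝ F p.1) - κ⁻¹ * hs4 (fderiv ℝ F p.1)) μ := i1.sub a1
    have b2 : Integrable (fun p : EuclideanSpace ℝ I × EuclideanSpace ℝ I =>
        hs (fderiv ℝ F p.1) - κ⁻¹ * hs4 (fderiv ℝ F p.1) - 1 / 8 * hs (fderiv ℝ F p.1)) μ :=
      b1.sub a2
    rw [integral_sub b2 a3, integral_sub b1 a2, integral_sub i1 a1, integral_const_mul,
      integral_const_mul, integral_const_mul]
  rw [e1, j1] at hint
  have j2' : κ⁻¹ * (∫ p : EuclideanSpace ℝ I × EuclideanSpace ℝ I, hs4 (fderiv ℝ F p.1) ∂μ) ≤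
      κ⁻¹ * (C4 * b ^ 2 * Fintype.card J) :=
    mul_le_mul_of_nonneg_left j2 (by positivity)
  refine le_trans ?_ hint
  nlinarith [j2', j3]

end

section

/-- the contribution of `f₁` -/
theorem gainI1 {I J : Type} [Fintype I] [Fintype J] [DecidableEq I] [DecidableEq J]
    (F f₁ f₂ : EuclideanSpace ℝ I → EuclideanSpace ℝ J) (C4 CD K r t ℓ ε b : ℝ)
    (D : Dat F f₁ f₂ C4 CD K r t ℓ ε b) (κ a s s' : ℝ) (hκ : 0 < κ) (hs0 : 0 ≤ s) :
    -(s * ((r * b / 16 + 4 * ℓ ^ 2 / r) * Fintype.card J)) ≤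
      ∫ w, ⟪((HH κ (fderiv ℝ F w.1)) ∘L (fderiv ℝ F w.1)) w.2.1,
        f₁ (a • w.1 + s • w.2.1 + s' • w.2.2.1)⟫ ∂(gam4 I J) := by
  have hr := D.r0
  have hDF : Continuous (fderiv ℝ F) := D.F2.continuous_fderiv (by norm_num)
  have hDf : Continuous (fderiv ℝ f₁) := D.f11.continuous_fderiv (by norm_num)
  set T : EuclideanSpace ℝ I → (EuclideanSpace ℝ I →L[ℝ] EuclideanSpace ℝ J) :=
    fun x => (HH κ (fderiv ℝ F x)) ∘L (fderiv ℝ F x) with hTdef
  have hT : Continuous T := by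
    have h1 : Continuous (fun x => HH κ (fderiv ℝ F x)) := (HH_cont κ hκ).comp hDF
    exact h1.clm_comp hDF
  have hK0 : 0 ≤ K := (norm_nonneg _).trans (D.F1K 0)
  have hK'K : K ≤ max K ℓ := le_max_left _ _
  have hK'ℓ : ℓ ≤ max K ℓ := le_max_right _ _
  have hTK0 : ∀ x, ‖T x‖ ≤ K := by
    intro x
    apply ContinuousLinearMap.opNorm_le_bound _ hK0
    intro v
    have h1 := (HH_bounds κ hκ (fderiv ℝ F x) (fderiv ℝ F x v)).1
    have h2 : ‖fderiv ℝ F x v‖ ≤ K * ‖v‖ :=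
      ((fderiv ℝ F x).le_opNorm v).trans (mul_le_mul_of_nonneg_right (D.F1K x) (norm_nonneg _))
    exact h1.trans h2
  have hTK : ∀ x, ‖T x‖ ≤ max K ℓ := fun x => (hTK0 x).trans hK'K
  set σ : ℝ := √(s ^ 2 + s' ^ 2) with hσdef
  have hσ : σ ^ 2 = s ^ 2 + s' ^ 2 := Real.sq_sqrt (by positivity)
  have hib := (ibp4 T hT (max K ℓ) hTK f₁ D.f11 (fun x => (D.f1K x).trans hK'K)
    (fun x => (D.f1l x).trans hK'ℓ) a s s' σ hσ).2
  have hib' : ∫ w, ⟪((HH κ (fderiv ℝ F w.1)) ∘L (fderiv ℝ F w.1)) w.2.1,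
        f₁ (a • w.1 + s • w.2.1 + s' • w.2.2.1)⟫ ∂(gam4 I J)
      = s * ∫ p, hsip (T p.1) (fderiv ℝ f₁ (a • p.1 + σ • p.2))
        ∂((stdGaussian (EuclideanSpace ℝ I)).prod (stdGaussian (EuclideanSpace ℝ I))) := hib
  rw [hib', ← mul_neg]
  apply mul_le_mul_of_nonneg_left _ hs0
  obtain ⟨hc1, hc2, hc3, hc4, hc5, hc6, hc7⟩ := hs_cont (I := I) (J := J)
  -- lower bound
  have hlow : ∀ p : EuclideanSpace ℝ I × EuclideanSpace ℝ I,
      -(r / 16 * hs (fderiv ℝ F p.1) + 4 / r * (Fintype.card J * ℓ ^ 2)) ≤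
        hsip (T p.1) (fderiv ℝ f₁ (a • p.1 + σ • p.2)) := by
    intro p
    have h1 := hc4 (T p.1) (fderiv ℝ f₁ (a • p.1 + σ • p.2)) (r / 8) (by positivity)
    have h2 := (abs_le.mp h1).1
    have h3 := (HH_hs κ hκ (fderiv ℝ F p.1)).1
    have h4 := (hs_adj (fderiv ℝ f₁ (a • p.1 + σ • p.2))).2.1
    have h5 : (Fintype.card J : ℝ) * ‖fderiv ℝ f₁ (a • p.1 + σ • p.2)‖ ^ 2 ≤
        Fintype.card J * ℓ ^ 2 := by
      apply mul_le_mul_of_nonneg_left _ (Nat.cast_nonneg _)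
      exact pow_le_pow_left₀ (norm_nonneg _) (D.f1l _) 2
    have h6 : hs (fderiv ℝ f₁ (a • p.1 + σ • p.2)) ≤ Fintype.card J * ℓ ^ 2 := h4.trans h5
    have h7 : r / 8 / 2 * hs (T p.1) ≤ r / 16 * hs (fderiv ℝ F p.1) := by
      have : r / 8 / 2 = r / 16 := by ring
      rw [this]
      exact mul_le_mul_of_nonneg_left h3 (by positivity)
    have h8 : 1 / (2 * (r / 8)) * hs (fderiv ℝ f₁ (a • p.1 + σ • p.2)) ≤
        4 / r * (Fintype.card J * ℓ ^ 2) := by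
      have : 1 / (2 * (r / 8)) = 4 / r := by field_simp; norm_num
      rw [this]
      exact mul_le_mul_of_nonneg_left h6 (by positivity)
    linarith
  have hint1 : Integrable (fun p : EuclideanSpace ℝ I × EuclideanSpace ℝ I =>
      hs (fderiv ℝ F p.1))
      ((stdGaussian (EuclideanSpace ℝ I)).prod (stdGaussian (EuclideanSpace ℝ I))) := by
    refine Integrable.of_bound ?_ ((Fintype.card J : ℝ) * K ^ 2) ?_
    · exact (hc1.comp (hDF.comp continuous_fst)).aestronglyMeasurable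
    · refine Filter.Eventually.of_forall fun p => ?_
      have h1 := hs_adj (fderiv ℝ F p.1)
      rw [Real.norm_eq_abs, abs_of_nonneg h1.2.2.2]
      refine h1.2.1.trans ?_
      apply mul_le_mul_of_nonneg_left _ (Nat.cast_nonneg _)
      exact pow_le_pow_left₀ (norm_nonneg _) (D.F1K _) 2
  have hint2 : Integrable (fun p : EuclideanSpace ℝ I × EuclideanSpace ℝ I =>
      hsip (T p.1) (fderiv ℝ f₁ (a • p.1 + σ • p.2)))
      ((stdGaussian (EuclideanSpace ℝ I)).prod (stdGaussian (EuclideanSpace ℝ I))) := by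
    refine Integrable.of_bound ?_ ((Fintype.card I : ℝ) * K * ℓ) ?_
    · have hcc : Continuous (fun p : EuclideanSpace ℝ I × EuclideanSpace ℝ I =>
          (T p.1, fderiv ℝ f₁ (a • p.1 + σ • p.2))) := by
        apply Continuous.prodMk (hT.comp continuous_fst)
        apply hDf.comp
        fun_prop
      exact (hc3.comp hcc).aestronglyMeasurable
    · refine Filter.Eventually.of_forall fun p => ?_
      rw [Real.norm_eq_abs]
      refine (hc6 _ _).trans ?_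
      apply mul_le_mul _ (D.f1l _) (norm_nonneg _) (by positivity)
      exact mul_le_mul_of_nonneg_left (hTK0 _) (Nat.cast_nonneg _)
  have hint3 : Integrable (fun p : EuclideanSpace ℝ I × EuclideanSpace ℝ I =>
      -(r / 16 * hs (fderiv ℝ F p.1) + 4 / r * (Fintype.card J * ℓ ^ 2)))
      ((stdGaussian (EuclideanSpace ℝ I)).prod (stdGaussian (EuclideanSpace ℝ I))) :=
    ((hint1.const_mul (r / 16)).add (integrable_const (4 / r * (Fintype.card J * ℓ ^ 2)))).neg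
  have hmono := integral_mono hint3 hint2 hlow
  refine le_trans (le_of_eq ?_) hmono
  have hI : ∫ p : EuclideanSpace ℝ I × EuclideanSpace ℝ I, hs (fderiv ℝ F p.1)
      ∂((stdGaussian (EuclideanSpace ℝ I)).prod (stdGaussian (EuclideanSpace ℝ I)))
      = b * Fintype.card J := by
    rw [integral_fun_fst (fun x => hs (fderiv ℝ F x)), D.hb]
    simp
  have hcalc : ∫ p : EuclideanSpace ℝ I × EuclideanSpace ℝ I,
      -(r / 16 * hs (fderiv ℝ F p.1) + 4 / r * (Fintype.card J * ℓ ^ 2))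
      ∂((stdGaussian (EuclideanSpace ℝ I)).prod (stdGaussian (EuclideanSpace ℝ I)))
      = -(r / 16 * (b * Fintype.card J) + 4 / r * (Fintype.card J * ℓ ^ 2)) := by
    rw [integral_neg, integral_add (hint1.const_mul (r / 16)) (integrable_const _),
      integral_const_mul, hI]
    simp
  rw [hcalc]
  ring

end

section

theorem gI2_young {J : Type} [Fintype J] (u v : EuclideanSpace ℝ J) (μ : ℝ) (hμ : 0 < μ) :
    -(μ / 2 * ‖u‖ ^ 2) - 1 / (2 * μ) * ‖v‖ ^ 2 ≤ ⟪u, v⟫ := by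
  have h1 : -(‖u‖ * ‖v‖) ≤ ⟪u, v⟫ := (abs_le.1 (abs_real_inner_le_norm u v)).1
  have h2 : ‖u‖ * ‖v‖ ≤ μ / 2 * ‖u‖ ^ 2 + 1 / (2 * μ) * ‖v‖ ^ 2 := by
    have h3 : 0 ≤ (μ * ‖u‖ - ‖v‖) ^ 2 / (2 * μ) := by positivity
    have h4 : (μ * ‖u‖ - ‖v‖) ^ 2 / (2 * μ)
        = μ / 2 * ‖u‖ ^ 2 + 1 / (2 * μ) * ‖v‖ ^ 2 - ‖u‖ * ‖v‖ := by
      field_simp
      ring
    linarith
  linarith

/-- the contribution of `f₂` -/
theorem gainI2 {I J : Type} [Fintype I] [Fintype J] [DecidableEq I] [DecidableEq J]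
    (F f₁ f₂ : EuclideanSpace ℝ I → EuclideanSpace ℝ J) (C4 CD K r t ℓ ε b : ℝ)
    (D : Dat F f₁ f₂ C4 CD K r t ℓ ε b) (κ a s s' : ℝ) (hκ : 0 < κ) (hs0 : 0 < s) :
    -((r * s * b / 16 + 4 * ε ^ 2 / (r * s)) * Fintype.card J) ≤
      ∫ w, ⟪((HH κ (fderiv ℝ F w.1)) ∘L (fderiv ℝ F w.1)) w.2.1,
        f₂ (a • w.1 + s • w.2.1 + s' • w.2.2.1)⟫ ∂(gam4 I J) := by
  have hr := D.r0
  have hb0 := D.b0
  set μ : ℝ := r * s / 8 with hμd
  have hμ : 0 < μ := by positivity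
  have hcJ : (0:ℝ) ≤ Fintype.card J := Nat.cast_nonneg _
  by_cases hint : Integrable (fun w : EuclideanSpace ℝ I × EuclideanSpace ℝ I ×
      EuclideanSpace ℝ I × EuclideanSpace ℝ J =>
      ⟪((HH κ (fderiv ℝ F w.1)) ∘L (fderiv ℝ F w.1)) w.2.1,
        f₂ (a • w.1 + s • w.2.1 + s' • w.2.2.1)⟫) (gam4 I J)
  swap
  · rw [integral_undef hint]
    have : 0 ≤ (r * s * b / 16 + 4 * ε ^ 2 / (r * s)) * Fintype.card J := by positivity
    linarith
  have hFc : Continuous (fun x => fderiv ℝ F x) := D.F2.continuous_fderiv (by norm_num)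
  have hSc : Continuous (fun x => (HH κ (fderiv ℝ F x)) ∘L (fderiv ℝ F x)) :=
    ((HH_cont κ hκ).comp hFc).clm_comp hFc
  have hN2c : Continuous (fun w : EuclideanSpace ℝ I × EuclideanSpace ℝ I ×
      EuclideanSpace ℝ I × EuclideanSpace ℝ J =>
      ‖((HH κ (fderiv ℝ F w.1)) ∘L (fderiv ℝ F w.1)) w.2.1‖ ^ 2) :=
    (((hSc.comp continuous_fst).clm_apply (continuous_fst.comp continuous_snd)).norm).pow 2
  have hzi : Integrable (fun w : EuclideanSpace ℝ I × EuclideanSpace ℝ I ×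
      EuclideanSpace ℝ I × EuclideanSpace ℝ J => ‖w.2.1‖ ^ 2) (gam4 I J) := by
    have h1 := (moments (I := I) (J := J)).2.1
    have h2 : Integrable (fun p : EuclideanSpace ℝ I × EuclideanSpace ℝ I × EuclideanSpace ℝ J =>
        ‖p.1‖ ^ 2) ((stdGaussian (EuclideanSpace ℝ I)).prod
          ((stdGaussian (EuclideanSpace ℝ I)).prod (stdGaussian (EuclideanSpace ℝ J)))) :=
      h1.comp_fst _
    exact h2.comp_snd _
  have hpt : ∀ (x z : EuclideanSpace ℝ I),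
      ‖((HH κ (fderiv ℝ F x)) ∘L (fderiv ℝ F x)) z‖ ^ 2 ≤ K ^ 2 * ‖z‖ ^ 2 := by
    intro x z
    have h1 : ‖((HH κ (fderiv ℝ F x)) ∘L (fderiv ℝ F x)) z‖ ≤ ‖fderiv ℝ F x z‖ :=
      (HH_bounds κ hκ (fderiv ℝ F x) (fderiv ℝ F x z)).1
    have h2 : ‖fderiv ℝ F x z‖ ≤ K * ‖z‖ :=
      ((fderiv ℝ F x).le_opNorm z).trans (mul_le_mul_of_nonneg_right (D.F1K x) (norm_nonneg _))
    rw [← mul_pow]
    exact pow_le_pow_left₀ (norm_nonneg _) (h1.trans h2) 2
  have hN2i : Integrable (fun w : EuclideanSpace ℝ I × EuclideanSpace ℝ I ×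
      EuclideanSpace ℝ I × EuclideanSpace ℝ J =>
      ‖((HH κ (fderiv ℝ F w.1)) ∘L (fderiv ℝ F w.1)) w.2.1‖ ^ 2) (gam4 I J) := by
    refine (hzi.const_mul (K ^ 2)).mono' hN2c.aestronglyMeasurable ?_
    refine Filter.Eventually.of_forall (fun w => ?_)
    rw [Real.norm_of_nonneg (by positivity)]
    exact hpt w.1 w.2.1
  have hfub : ∫ w, ‖((HH κ (fderiv ℝ F w.1)) ∘L (fderiv ℝ F w.1)) w.2.1‖ ^ 2 ∂(gam4 I J)
      = ∫ x, hs ((HH κ (fderiv ℝ F x)) ∘L (fderiv ℝ F x)) ∂(stdGaussian (EuclideanSpace ℝ I)) := by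
    unfold gam4 at hN2i ⊢
    rw [integral_prod _ hN2i]
    refine integral_congr_ae (Filter.Eventually.of_forall (fun x => ?_))
    beta_reduce
    have h1 := integral_fun_fst (μ := stdGaussian (EuclideanSpace ℝ I))
      (ν := (stdGaussian (EuclideanSpace ℝ I)).prod (stdGaussian (EuclideanSpace ℝ J)))
      (fun z : EuclideanSpace ℝ I => ‖((HH κ (fderiv ℝ F x)) ∘L (fderiv ℝ F x)) z‖ ^ 2)
    rw [probReal_univ, one_smul] at h1
    refine h1.trans ?_
    exact (moments (I := I) (J := J)).2.2.2.2 _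
  have hhsi : Integrable (fun x => hs (fderiv ℝ F x)) (stdGaussian (EuclideanSpace ℝ I)) := by
    refine Integrable.of_bound ((hs_cont (I := I) (J := J)).1.comp hFc).aestronglyMeasurable
      (Fintype.card I * K ^ 2) (Filter.Eventually.of_forall (fun x => ?_))
    have h1 := (hs_adj (fderiv ℝ F x)).2.2.1
    have h2 := (hs_adj (fderiv ℝ F x)).2.2.2
    show ‖hs (fderiv ℝ F x)‖ ≤ _
    rw [Real.norm_of_nonneg h2]
    refine h1.trans ?_
    exact mul_le_mul_of_nonneg_left (pow_le_pow_left₀ (norm_nonneg _) (D.F1K x) 2)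
      (Nat.cast_nonneg _)
  have hle : ∫ x, hs ((HH κ (fderiv ℝ F x)) ∘L (fderiv ℝ F x)) ∂(stdGaussian (EuclideanSpace ℝ I))
      ≤ b * Fintype.card J := by
    rw [← D.hb]
    refine integral_mono_of_nonneg (Filter.Eventually.of_forall (fun x => ?_)) hhsi
      (Filter.Eventually.of_forall (fun x => ?_))
    · exact (hs_adj _).2.2.2
    · exact (HH_hs κ hκ (fderiv ℝ F x)).1
  have hlow : ∫ w, (-(μ / 2 * ‖((HH κ (fderiv ℝ F w.1)) ∘L (fderiv ℝ F w.1)) w.2.1‖ ^ 2)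
        - 1 / (2 * μ) * (ε ^ 2 * Fintype.card J)) ∂(gam4 I J)
      ≤ ∫ w, ⟪((HH κ (fderiv ℝ F w.1)) ∘L (fderiv ℝ F w.1)) w.2.1,
        f₂ (a • w.1 + s • w.2.1 + s' • w.2.2.1)⟫ ∂(gam4 I J) := by
    refine integral_mono ((hN2i.const_mul (μ / 2)).neg.sub (integrable_const _)) hint (fun w => ?_)
    beta_reduce
    refine le_trans ?_ (gI2_young _ _ μ hμ)
    have h1 : ‖f₂ (a • w.1 + s • w.2.1 + s' • w.2.2.1)‖ ^ 2 ≤ ε ^ 2 * Fintype.card J := by
      refine (pow_le_pow_left₀ (norm_nonneg _) (D.f2e _) 2).trans (le_of_eq ?_)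
      rw [mul_pow, Real.sq_sqrt hcJ]
    have h2 : 1 / (2 * μ) * ‖f₂ (a • w.1 + s • w.2.1 + s' • w.2.2.1)‖ ^ 2
        ≤ 1 / (2 * μ) * (ε ^ 2 * Fintype.card J) :=
      mul_le_mul_of_nonneg_left h1 (by positivity)
    linarith
  refine le_trans ?_ hlow
  have hcalc : ∫ w, (-(μ / 2 * ‖((HH κ (fderiv ℝ F w.1)) ∘L (fderiv ℝ F w.1)) w.2.1‖ ^ 2)
        - 1 / (2 * μ) * (ε ^ 2 * Fintype.card J)) ∂(gam4 I J)
      = -(μ / 2 * ∫ w, ‖((HH κ (fderiv ℝ F w.1)) ∘L (fderiv ℝ F w.1)) w.2.1‖ ^ 2 ∂(gam4 I J))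
        - 1 / (2 * μ) * (ε ^ 2 * Fintype.card J) := by
    have e1 : ∫ w, (-(μ / 2 * ‖((HH κ (fderiv ℝ F w.1)) ∘L (fderiv ℝ F w.1)) w.2.1‖ ^ 2)
          - 1 / (2 * μ) * (ε ^ 2 * Fintype.card J)) ∂(gam4 I J)
        = ∫ w, ((-(μ / 2)) * ‖((HH κ (fderiv ℝ F w.1)) ∘L (fderiv ℝ F w.1)) w.2.1‖ ^ 2
          + (- (1 / (2 * μ) * (ε ^ 2 * Fintype.card J)))) ∂(gam4 I J) := by
      refine integral_congr_ae (Filter.Eventually.of_forall (fun w => ?_))
      beta_reduce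
      ring
    rw [e1, integral_add (hN2i.const_mul (-(μ / 2))) (integrable_const _), integral_const_mul,
      integral_const, probReal_univ, one_smul]
    ring
  rw [hcalc, hfub]
  have h5 : μ / 2 * ∫ x, hs ((HH κ (fderiv ℝ F x)) ∘L (fderiv ℝ F x))
      ∂(stdGaussian (EuclideanSpace ℝ I)) ≤ μ / 2 * (b * Fintype.card J) :=
    mul_le_mul_of_nonneg_left hle (by positivity)
  have h6 : 1 / (2 * μ) * (ε ^ 2 * Fintype.card J) = 4 * ε ^ 2 / (r * s) * Fintype.card J := by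
    rw [hμd]
    field_simp
    ring
  have h7 : μ / 2 * (b * Fintype.card J) = r * s * b / 16 * Fintype.card J := by
    rw [hμd]
    ring
  rw [h6]
  rw [h7] at h5
  linarith

end

section

/-- second moment, the part of `F` -/
theorem gainII0 {I J : Type} [Fintype I] [Fintype J] [DecidableEq I] [DecidableEq J]
    (F f₁ f₂ : EuclideanSpace ℝ I → EuclideanSpace ℝ J) (C4 CD K r t ℓ ε b : ℝ)
    (D : Dat F f₁ f₂ C4 CD K r t ℓ ε b) (κ a σ : ℝ) (hκ : 0 < κ) (haσ : a ^ 2 + σ ^ 2 = 1) :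
    ∫ z, ‖ContinuousLinearMap.adjoint (fderiv ℝ F z.1) (HH κ (fderiv ℝ F z.1)
        (F (a • z.1 + σ • z.2.1) -
          ∫ g, F (a • z.1 + σ • g) ∂(stdGaussian (EuclideanSpace ℝ I))))‖ ^ 2 ∂(gam3 I J) ≤
      2 * σ ^ 2 * (C4 * b ^ 2 * Fintype.card J) := by
  have hFc : Continuous F := D.F2.continuous
  have hF1 : ContDiff ℝ 1 F := D.F2.of_le (by norm_num)
  have hDFc : Continuous (fderiv ℝ F) := hF1.continuous_fderiv (by norm_num)
  have hK0 : 0 ≤ K := (norm_nonneg _).trans (D.FK 0)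
  set γ := stdGaussian (EuclideanSpace ℝ I) with hγ
  obtain ⟨-, hs4c, -, -, -, -, hs4b⟩ := hs_cont (I := I) (J := J)
  -- mean
  set mF : EuclideanSpace ℝ I → EuclideanSpace ℝ J := fun x => ∫ g, F (a • x + σ • g) ∂γ with hmF
  have hmFc : Continuous mF := by
    refine continuous_of_dominated (bound := fun _ => K) ?_ ?_ (integrable_const K) ?_
    · intro x
      exact (hFc.comp (by fun_prop)).aestronglyMeasurable
    · intro x
      exact Filter.Eventually.of_forall (fun g => D.FK _)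
    · exact Filter.Eventually.of_forall (fun g => hFc.comp (by fun_prop))
  have hmFb : ∀ x, ‖mF x‖ ≤ K := by
    intro x
    refine (norm_integral_le_of_norm_le_const (C := K) (Filter.Eventually.of_forall (fun g => D.FK _))).trans ?_
    simp
  set G : EuclideanSpace ℝ I → EuclideanSpace ℝ I → ℝ := fun x g =>
    ‖ContinuousLinearMap.adjoint (fderiv ℝ F x) (HH κ (fderiv ℝ F x)
        (F (a • x + σ • g) - mF x))‖ ^ 2 with hG
  have hGc : Continuous (fun p : EuclideanSpace ℝ I × EuclideanSpace ℝ I => G p.1 p.2) := by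
    have h1 : Continuous (fun p : EuclideanSpace ℝ I × EuclideanSpace ℝ I =>
        F (a • p.1 + σ • p.2) - mF p.1) :=
      (hFc.comp (by fun_prop)).sub (hmFc.comp continuous_fst)
    have h2 : Continuous (fun p : EuclideanSpace ℝ I × EuclideanSpace ℝ I =>
        HH κ (fderiv ℝ F p.1)) := (HH_cont κ hκ).comp (hDFc.comp continuous_fst)
    have h3 : Continuous (fun p : EuclideanSpace ℝ I × EuclideanSpace ℝ I =>
        ContinuousLinearMap.adjoint (fderiv ℝ F p.1)) :=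
      ContinuousLinearMap.adjoint.continuous.comp (hDFc.comp continuous_fst)
    exact ((h3.clm_apply (h2.clm_apply h1)).norm).pow 2
  have hGb : ∀ x g, ‖G x g‖ ≤ κ / 4 * (2 * K) ^ 2 := by
    intro x g
    have h1 := (HH_bounds κ hκ (fderiv ℝ F x) (F (a • x + σ • g) - mF x)).2.1
    have h2 : ‖F (a • x + σ • g) - mF x‖ ≤ 2 * K := by
      refine (norm_sub_le _ _).trans ?_
      linarith [D.FK (a • x + σ • g), hmFb x]
    rw [Real.norm_of_nonneg (by positivity)]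
    refine h1.trans ?_
    gcongr
  have hGi3 : Integrable (fun z : EuclideanSpace ℝ I × EuclideanSpace ℝ I × EuclideanSpace ℝ J =>
      G z.1 z.2.1) (gam3 I J) := by
    refine Integrable.of_bound (C := κ / 4 * (2 * K) ^ 2) ?_
      (Filter.Eventually.of_forall (fun z => hGb _ _))
    exact (hGc.comp (f := fun z : EuclideanSpace ℝ I × EuclideanSpace ℝ I × EuclideanSpace ℝ J =>
      (z.1, z.2.1)) (by fun_prop)).aestronglyMeasurable
  have hGi : Integrable (fun p : EuclideanSpace ℝ I × EuclideanSpace ℝ I => G p.1 p.2)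
      (γ.prod γ) := by
    refine Integrable.of_bound (C := κ / 4 * (2 * K) ^ 2) ?_
      (Filter.Eventually.of_forall (fun z => hGb _ _))
    exact hGc.aestronglyMeasurable
  have step1 : ∫ z, G z.1 z.2.1 ∂(gam3 I J) = ∫ x, ∫ g, G x g ∂γ ∂γ := by
    have h0 : gam3 I J = γ.prod (γ.prod (stdGaussian (EuclideanSpace ℝ J))) := rfl
    rw [h0] at hGi3 ⊢
    rw [integral_prod _ hGi3]
    congr 1
    funext x
    rw [integral_fun_fst (fun g => G x g)]
    simp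
  set H : EuclideanSpace ℝ I → EuclideanSpace ℝ I → ℝ := fun x g =>
    1 / 2 * (hs4 (fderiv ℝ F x) + hs4 (fderiv ℝ F (a • x + σ • g))) with hH
  have hs4b' : ∀ x, ‖hs4 (fderiv ℝ F x)‖ ≤ (Fintype.card I : ℝ) ^ 2 * K ^ 4 := by
    intro x
    rw [Real.norm_of_nonneg (hs4b _).1]
    refine (hs4b _).2.trans ?_
    have := D.F1K x
    gcongr
  have hi1 : Integrable (fun p : EuclideanSpace ℝ I × EuclideanSpace ℝ I =>
      hs4 (fderiv ℝ F p.1)) (γ.prod γ) := by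
    refine Integrable.of_bound (C := (Fintype.card I : ℝ) ^ 2 * K ^ 4) ?_
      (Filter.Eventually.of_forall (fun z => hs4b' _))
    exact (hs4c.comp (hDFc.comp continuous_fst)).aestronglyMeasurable
  have hi2 : Integrable (fun p : EuclideanSpace ℝ I × EuclideanSpace ℝ I =>
      hs4 (fderiv ℝ F (a • p.1 + σ • p.2))) (γ.prod γ) := by
    refine Integrable.of_bound (C := (Fintype.card I : ℝ) ^ 2 * K ^ 4) ?_
      (Filter.Eventually.of_forall (fun z => hs4b' _))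
    exact (hs4c.comp (hDFc.comp (by fun_prop))).aestronglyMeasurable
  have hHi : Integrable (fun p : EuclideanSpace ℝ I × EuclideanSpace ℝ I => H p.1 p.2)
      (γ.prod γ) := (hi1.add hi2).const_mul (1 / 2)
  have step2 : ∀ x, ∫ g, G x g ∂γ ≤ 2 * σ ^ 2 * ∫ g, H x g ∂γ := by
    intro x
    set A := fderiv ℝ F x with hA
    set Lx : EuclideanSpace ℝ J →L[ℝ] EuclideanSpace ℝ I :=
      (ContinuousLinearMap.adjoint A) ∘L (HH κ A) with hLx
    have hgd : ∀ y, HasFDerivAt (fun y => Lx (F y)) (Lx ∘L fderiv ℝ F y) y := by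
      intro y
      exact Lx.hasFDerivAt.comp y (hF1.differentiable (by norm_num) y).hasFDerivAt
    have hp := poincare (fun y => Lx (F y)) (Lx.contDiff.comp hF1) (‖Lx‖ * K) (by
      intro y
      exact (Lx.le_opNorm _).trans (mul_le_mul_of_nonneg_left (D.FK y) (norm_nonneg _))) (by
      intro y
      rw [(hgd y).fderiv]
      exact (ContinuousLinearMap.opNorm_comp_le _ _).trans
        (mul_le_mul_of_nonneg_left (D.F1K y) (norm_nonneg _))) (a • x) σ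
    have hFi : Integrable (fun g => F (a • x + σ • g)) γ := by
      refine Integrable.of_bound (C := K) (hFc.comp (by fun_prop)).aestronglyMeasurable
        (Filter.Eventually.of_forall (fun g => D.FK _))
    have hcomm : ∫ z', Lx (F (a • x + σ • z')) ∂γ = Lx (mF x) :=
      Lx.integral_comp_comm hFi
    rw [← hγ] at hp
    rw [hcomm] at hp
    have e1 : ∀ g, ‖Lx (F (a • x + σ • g)) - Lx (mF x)‖ ^ 2 = G x g := by
      intro g
      rw [← map_sub]
      rfl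
    simp only [e1] at hp
    refine hp.trans ?_
    apply mul_le_mul_of_nonneg_left _ (by positivity)
    have hcol : ∀ T : EuclideanSpace ℝ I →L[ℝ] EuclideanSpace ℝ J,
        hs (Lx ∘L T) ≤ 1 / 2 * (hs4 A + hs4 T) := by
      intro T
      have h1 : hs (Lx ∘L T) ≤ hs ((ContinuousLinearMap.adjoint A) ∘L T) := by
        unfold hs
        apply Finset.sum_le_sum
        intro i _
        have := (HH_bounds κ hκ A (T (EuclideanSpace.single i 1))).2.2
        have h2 : ‖(Lx ∘L T) (EuclideanSpace.single i 1)‖ ≤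
            ‖((ContinuousLinearMap.adjoint A) ∘L T) (EuclideanSpace.single i 1)‖ := this
        exact pow_le_pow_left₀ (norm_nonneg _) h2 2
      have h3 := (hs_prod A T).1
      linarith
    have hHx : Integrable (fun g => H x g) γ := by
      have hc1 : Continuous (fun g : EuclideanSpace ℝ I => H x g) := by
        have : Continuous (fun g : EuclideanSpace ℝ I => hs4 (fderiv ℝ F (a • x + σ • g))) :=
          hs4c.comp (hDFc.comp (by fun_prop))
        exact continuous_const.mul (continuous_const.add this)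
      refine Integrable.of_bound (C := (Fintype.card I : ℝ) ^ 2 * K ^ 4) hc1.aestronglyMeasurable
        (Filter.Eventually.of_forall (fun g => ?_))
      have h1 := hs4b' x
      have h2 := hs4b' (a • x + σ • g)
      have h3 := (hs4b (fderiv ℝ F x)).1
      have h4 := (hs4b (fderiv ℝ F (a • x + σ • g))).1
      rw [Real.norm_of_nonneg h3] at h1
      rw [Real.norm_of_nonneg h4] at h2
      rw [Real.norm_of_nonneg (by simp only [hH]; positivity)]
      simp only [hH]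
      linarith
    apply integral_mono_of_nonneg
    · refine Filter.Eventually.of_forall (fun g => ?_)
      exact Finset.sum_nonneg (fun i _ => by positivity)
    · exact hHx
    · refine Filter.Eventually.of_forall (fun g => ?_)
      simp only
      rw [(hgd _).fderiv]
      exact hcol _
  have hm : (γ.prod γ).map (fun p : EuclideanSpace ℝ I × EuclideanSpace ℝ I => a • p.1 + σ • p.2)
      = γ := by
    rw [hγ, merge1 I a σ 1 (by rw [haσ]; norm_num)]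
    simp
  have step3 : ∫ x, ∫ g, H x g ∂γ ∂γ = ∫ x, hs4 (fderiv ℝ F x) ∂γ := by
    have h1 := integral_prod _ hHi
    rw [← h1]
    have h2 : ∫ p, H p.1 p.2 ∂(γ.prod γ) = 1 / 2 * (∫ p, hs4 (fderiv ℝ F p.1) ∂(γ.prod γ) +
        ∫ p, hs4 (fderiv ℝ F (a • p.1 + σ • p.2)) ∂(γ.prod γ)) := by
      rw [← integral_add hi1 hi2, ← integral_const_mul]
    have h3 : ∫ p, hs4 (fderiv ℝ F p.1) ∂(γ.prod γ) = ∫ x, hs4 (fderiv ℝ F x) ∂γ := by
      rw [integral_fun_fst (fun x => hs4 (fderiv ℝ F x))]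
      simp
    have h4 : ∫ p, hs4 (fderiv ℝ F (a • p.1 + σ • p.2)) ∂(γ.prod γ) =
        ∫ x, hs4 (fderiv ℝ F x) ∂γ := by
      have hmeas : AEMeasurable (fun p : EuclideanSpace ℝ I × EuclideanSpace ℝ I =>
          a • p.1 + σ • p.2) (γ.prod γ) := by fun_prop
      have h5 : Continuous (fun x => hs4 (fderiv ℝ F x)) := hs4c.comp hDFc
      have h6 := integral_map hmeas (f := fun x => hs4 (fderiv ℝ F x)) h5.aestronglyMeasurable
      rw [hm] at h6
      exact h6.symm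
    rw [h2, h3, h4]
    ring
  have h4 := D.h4
  rw [← hγ] at h4
  calc ∫ z, G z.1 z.2.1 ∂(gam3 I J) = ∫ x, ∫ g, G x g ∂γ ∂γ := step1
    _ ≤ ∫ x, 2 * σ ^ 2 * ∫ g, H x g ∂γ ∂γ := by
      apply integral_mono hGi.integral_prod_left (hHi.integral_prod_left.const_mul _)
      intro x
      exact step2 x
    _ = 2 * σ ^ 2 * ∫ x, hs4 (fderiv ℝ F x) ∂γ := by
      rw [integral_const_mul, step3]
    _ ≤ _ := mul_le_mul_of_nonneg_left h4 (by positivity)

end

section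

theorem gainII1_hs {I J : Type} [Fintype I] [Fintype J] [DecidableEq I] [DecidableEq J]
    (κ : ℝ) (hκ : 0 < κ) (A T : EuclideanSpace ℝ I →L[ℝ] EuclideanSpace ℝ J) :
    hs (((ContinuousLinearMap.adjoint A) ∘L (HH κ A)) ∘L T) ≤ ‖T‖ ^ 2 * hs A := by
  refine le_trans ?_ (hs_prod A T).2
  unfold hs
  refine Finset.sum_le_sum fun i _ => ?_
  have h := (HH_bounds κ hκ A (T (EuclideanSpace.single i 1))).2.2
  exact pow_le_pow_left₀ (norm_nonneg _) h 2

theorem gainII1_fix {I J : Type} [Fintype I] [Fintype J] [DecidableEq I] [DecidableEq J]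
    (f₁ : EuclideanSpace ℝ I → EuclideanSpace ℝ J) (K ℓ : ℝ) (f11 : ContDiff ℝ 1 f₁)
    (f1K : ∀ x, ‖f₁ x‖ ≤ K) (f1l : ∀ x, ‖fderiv ℝ f₁ x‖ ≤ ℓ) (l0 : 0 ≤ ℓ)
    (κ : ℝ) (hκ : 0 < κ) (A : EuclideanSpace ℝ I →L[ℝ] EuclideanSpace ℝ J)
    (m : EuclideanSpace ℝ I) (σ : ℝ) :
    ∫ z, ‖ContinuousLinearMap.adjoint A (HH κ A (f₁ (m + σ • z) -
          ∫ g, f₁ (m + σ • g) ∂(stdGaussian (EuclideanSpace ℝ I))))‖ ^ 2
        ∂(stdGaussian (EuclideanSpace ℝ I)) ≤ 2 * σ ^ 2 * (ℓ ^ 2 * hs A) := by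
  set L : EuclideanSpace ℝ J →L[ℝ] EuclideanSpace ℝ I :=
    (ContinuousLinearMap.adjoint A) ∘L (HH κ A) with hL
  have hK0 : 0 ≤ K := (norm_nonneg _).trans (f1K 0)
  have hfd : ∀ x, fderiv ℝ (fun y => L (f₁ y)) x = L ∘L fderiv ℝ f₁ x := by
    intro x
    exact L.hasFDerivAt.comp x (f11.differentiable one_ne_zero x).hasFDerivAt |>.fderiv
  have hP := poincare (fun y => L (f₁ y)) (L.contDiff.comp f11) (‖L‖ * (K + ℓ))
    (fun x => by
      refine (L.le_opNorm _).trans (mul_le_mul_of_nonneg_left ?_ (norm_nonneg _))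
      linarith [f1K x])
    (fun x => by
      rw [hfd]
      refine (ContinuousLinearMap.opNorm_comp_le _ _).trans
        (mul_le_mul_of_nonneg_left ?_ (norm_nonneg _))
      linarith [f1l x]) m σ
  have hint : Integrable (fun z => f₁ (m + σ • z)) (stdGaussian (EuclideanSpace ℝ I)) := by
    refine Integrable.of_bound ?_ K (Filter.Eventually.of_forall fun z => f1K _)
    have hc : Continuous (fun z : EuclideanSpace ℝ I => f₁ (m + σ • z)) :=
      f11.continuous.comp (by fun_prop)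
    exact hc.aestronglyMeasurable
  have hcomm : ∫ z', L (f₁ (m + σ • z')) ∂(stdGaussian (EuclideanSpace ℝ I)) =
      L (∫ z', f₁ (m + σ • z') ∂(stdGaussian (EuclideanSpace ℝ I))) :=
    L.integral_comp_comm hint
  have hleft : ∀ z, ‖ContinuousLinearMap.adjoint A (HH κ A (f₁ (m + σ • z) -
          ∫ g, f₁ (m + σ • g) ∂(stdGaussian (EuclideanSpace ℝ I))))‖ ^ 2 =
      ‖L (f₁ (m + σ • z)) - ∫ z', L (f₁ (m + σ • z')) ∂(stdGaussian (EuclideanSpace ℝ I))‖ ^ 2 := by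
    intro z
    rw [hcomm, ← map_sub]
    rfl
  have hbound : ∫ z, hs (fderiv ℝ (fun y => L (f₁ y)) (m + σ • z))
      ∂(stdGaussian (EuclideanSpace ℝ I)) ≤ ℓ ^ 2 * hs A := by
    have h1 : ∫ _z : EuclideanSpace ℝ I, ℓ ^ 2 * hs A ∂(stdGaussian (EuclideanSpace ℝ I)) =
        ℓ ^ 2 * hs A := by
      rw [integral_const, probReal_univ, one_smul]
    rw [← h1]
    refine integral_mono_of_nonneg (Filter.Eventually.of_forall fun z => ?_)
      (integrable_const _) (Filter.Eventually.of_forall fun z => ?_)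
    · exact (hs_adj _).2.2.2
    · show hs (fderiv ℝ (fun y => L (f₁ y)) (m + σ • z)) ≤ ℓ ^ 2 * hs A
      rw [hfd]
      refine (gainII1_hs κ hκ A _).trans ?_
      exact mul_le_mul_of_nonneg_right (pow_le_pow_left₀ (norm_nonneg _) (f1l _) 2) (hs_adj A).2.2.2
  calc ∫ z, ‖ContinuousLinearMap.adjoint A (HH κ A (f₁ (m + σ • z) -
          ∫ g, f₁ (m + σ • g) ∂(stdGaussian (EuclideanSpace ℝ I))))‖ ^ 2
        ∂(stdGaussian (EuclideanSpace ℝ I))
      = ∫ z, ‖L (f₁ (m + σ • z)) -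
          ∫ z', L (f₁ (m + σ • z')) ∂(stdGaussian (EuclideanSpace ℝ I))‖ ^ 2
          ∂(stdGaussian (EuclideanSpace ℝ I)) := by
        congr 1
        funext z
        exact hleft z
    _ ≤ 2 * σ ^ 2 * ∫ z, hs (fderiv ℝ (fun y => L (f₁ y)) (m + σ • z))
          ∂(stdGaussian (EuclideanSpace ℝ I)) := hP
    _ ≤ 2 * σ ^ 2 * (ℓ ^ 2 * hs A) := mul_le_mul_of_nonneg_left hbound (by positivity)

/-- second moment, the part of `f₁` -/
theorem gainII1 {I J : Type} [Fintype I] [Fintype J] [DecidableEq I] [DecidableEq J]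
    (F f₁ f₂ : EuclideanSpace ℝ I → EuclideanSpace ℝ J) (C4 CD K r t ℓ ε b : ℝ)
    (D : Dat F f₁ f₂ C4 CD K r t ℓ ε b) (κ a σ : ℝ) (hκ : 0 < κ) (haσ : a ^ 2 + σ ^ 2 = 1) :
    ∫ z, ‖ContinuousLinearMap.adjoint (fderiv ℝ F z.1) (HH κ (fderiv ℝ F z.1)
        (f₁ (a • z.1 + σ • z.2.1) -
          ∫ g, f₁ (a • z.1 + σ • g) ∂(stdGaussian (EuclideanSpace ℝ I))))‖ ^ 2 ∂(gam3 I J) ≤
      2 * σ ^ 2 * (ℓ ^ 2 * b * Fintype.card J) := by
  have hb0 := D.b0
  by_cases hI : Integrable (fun z : EuclideanSpace ℝ I × EuclideanSpace ℝ I × EuclideanSpace ℝ J =>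
      ‖ContinuousLinearMap.adjoint (fderiv ℝ F z.1) (HH κ (fderiv ℝ F z.1)
        (f₁ (a • z.1 + σ • z.2.1) -
          ∫ g, f₁ (a • z.1 + σ • g) ∂(stdGaussian (EuclideanSpace ℝ I))))‖ ^ 2) (gam3 I J)
  · unfold gam3 at hI ⊢
    rw [integral_prod _ hI]
    have hub : Integrable (fun x => 2 * σ ^ 2 * (ℓ ^ 2 * hs (fderiv ℝ F x)))
        (stdGaussian (EuclideanSpace ℝ I)) := by
      refine Integrable.const_mul (Integrable.const_mul ?_ _) _
      refine Integrable.of_bound ?_ (Fintype.card J * K ^ 2)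
        (Filter.Eventually.of_forall fun x => ?_)
      · have hc : Continuous (fun x => hs (fderiv ℝ F x)) :=
          (hs_cont (I := I) (J := J)).1.comp (D.F2.continuous_fderiv two_ne_zero)
        exact hc.aestronglyMeasurable
      · obtain ⟨-, h1, -, h2⟩ := hs_adj (fderiv ℝ F x)
        rw [Real.norm_eq_abs, abs_of_nonneg h2]
        refine h1.trans (mul_le_mul_of_nonneg_left ?_ (Nat.cast_nonneg _))
        exact pow_le_pow_left₀ (norm_nonneg _) (D.F1K x) 2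
    have hval : ∫ x, 2 * σ ^ 2 * (ℓ ^ 2 * hs (fderiv ℝ F x)) ∂(stdGaussian (EuclideanSpace ℝ I)) =
        2 * σ ^ 2 * (ℓ ^ 2 * b * Fintype.card J) := by
      rw [integral_const_mul, integral_const_mul, D.hb]
      ring
    rw [← hval]
    refine integral_mono_of_nonneg (Filter.Eventually.of_forall fun x => ?_) hub
      (Filter.Eventually.of_forall fun x => ?_)
    · exact integral_nonneg fun w => by positivity
    · have h2 := integral_fun_fst (μ := stdGaussian (EuclideanSpace ℝ I))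
        (ν := stdGaussian (EuclideanSpace ℝ J)) (fun y : EuclideanSpace ℝ I =>
        ‖ContinuousLinearMap.adjoint (fderiv ℝ F x) (HH κ (fderiv ℝ F x)
        (f₁ (a • x + σ • y) -
          ∫ g, f₁ (a • x + σ • g) ∂(stdGaussian (EuclideanSpace ℝ I))))‖ ^ 2)
      rw [probReal_univ, one_smul] at h2
      show ∫ w, ‖ContinuousLinearMap.adjoint (fderiv ℝ F x) (HH κ (fderiv ℝ F x)
        (f₁ (a • x + σ • w.1) -
          ∫ g, f₁ (a • x + σ • g) ∂(stdGaussian (EuclideanSpace ℝ I))))‖ ^ 2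
          ∂((stdGaussian (EuclideanSpace ℝ I)).prod (stdGaussian (EuclideanSpace ℝ J))) ≤
        2 * σ ^ 2 * (ℓ ^ 2 * hs (fderiv ℝ F x))
      rw [h2]
      exact gainII1_fix f₁ K ℓ D.f11 D.f1K D.f1l D.l0 κ hκ (fderiv ℝ F x) (a • x) σ
  · rw [integral_undef hI]
    positivity

end

section

/-- second moment, the part of `f₂` -/
theorem gainII2 {I J : Type} [Fintype I] [Fintype J] [DecidableEq I] [DecidableEq J]
    (F f₁ f₂ : EuclideanSpace ℝ I → EuclideanSpace ℝ J) (C4 CD K r t ℓ ε b : ℝ)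
    (D : Dat F f₁ f₂ C4 CD K r t ℓ ε b) (κ a σ : ℝ) (hκ : 0 < κ) :
    ∫ z, ‖ContinuousLinearMap.adjoint (fderiv ℝ F z.1) (HH κ (fderiv ℝ F z.1)
        (f₂ (a • z.1 + σ • z.2.1) -
          ∫ g, f₂ (a • z.1 + σ • g) ∂(stdGaussian (EuclideanSpace ℝ I))))‖ ^ 2 ∂(gam3 I J) ≤
      κ * (ε ^ 2 * Fintype.card J) := by
  have hpt : ∀ z : EuclideanSpace ℝ I × EuclideanSpace ℝ I × EuclideanSpace ℝ J,
      ‖ContinuousLinearMap.adjoint (fderiv ℝ F z.1) (HH κ (fderiv ℝ F z.1)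
        (f₂ (a • z.1 + σ • z.2.1) -
          ∫ g, f₂ (a • z.1 + σ • g) ∂(stdGaussian (EuclideanSpace ℝ I))))‖ ^ 2 ≤
      κ * (ε ^ 2 * Fintype.card J) := by
    intro z
    have h1 := (HH_bounds κ hκ (fderiv ℝ F z.1) (f₂ (a • z.1 + σ • z.2.1) -
          ∫ g, f₂ (a • z.1 + σ • g) ∂(stdGaussian (EuclideanSpace ℝ I)))).2.1
    have h2 : ‖∫ g, f₂ (a • z.1 + σ • g) ∂(stdGaussian (EuclideanSpace ℝ I))‖ ≤
        ε * √(Fintype.card J) := by
      have := norm_integral_le_of_norm_le_const (μ := stdGaussian (EuclideanSpace ℝ I))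
        (f := fun g => f₂ (a • z.1 + σ • g)) (C := ε * √(Fintype.card J))
        (Filter.Eventually.of_forall fun g => D.f2e _)
      simpa using this
    have h3 : ‖f₂ (a • z.1 + σ • z.2.1) -
          ∫ g, f₂ (a • z.1 + σ • g) ∂(stdGaussian (EuclideanSpace ℝ I))‖ ≤
        2 * (ε * √(Fintype.card J)) := by
      have := norm_sub_le (f₂ (a • z.1 + σ • z.2.1))
        (∫ g, f₂ (a • z.1 + σ • g) ∂(stdGaussian (EuclideanSpace ℝ I)))
      have h4 := D.f2e (a • z.1 + σ • z.2.1)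
      linarith
    refine h1.trans ?_
    have h5 : ‖f₂ (a • z.1 + σ • z.2.1) -
          ∫ g, f₂ (a • z.1 + σ • g) ∂(stdGaussian (EuclideanSpace ℝ I))‖ ^ 2 ≤
        (2 * (ε * √(Fintype.card J))) ^ 2 := pow_le_pow_left₀ (norm_nonneg _) h3 2
    have h6 : (2 * (ε * √(Fintype.card J))) ^ 2 = 4 * (ε ^ 2 * Fintype.card J) := by
      rw [mul_pow, mul_pow, Real.sq_sqrt (Nat.cast_nonneg _)]
      norm_num
    rw [h6] at h5
    have h7 := mul_le_mul_of_nonneg_left h5 (show (0 : ℝ) ≤ κ / 4 by positivity)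
    linarith
  have h8 := integral_mono_of_nonneg (μ := gam3 I J)
    (f := fun z => ‖ContinuousLinearMap.adjoint (fderiv ℝ F z.1) (HH κ (fderiv ℝ F z.1)
        (f₂ (a • z.1 + σ • z.2.1) -
          ∫ g, f₂ (a • z.1 + σ • g) ∂(stdGaussian (EuclideanSpace ℝ I))))‖ ^ 2)
    (g := fun _ => κ * (ε ^ 2 * Fintype.card J))
    (Filter.Eventually.of_forall fun z => by positivity) (integrable_const _)
    (Filter.Eventually.of_forall hpt)
  refine h8.trans (le_of_eq ?_)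
  simp

end

section

/-- second moment, the part of the noise -/
theorem gainII3 {I J : Type} [Fintype I] [Fintype J] [DecidableEq I] [DecidableEq J]
    (F f₁ f₂ : EuclideanSpace ℝ I → EuclideanSpace ℝ J) (C4 CD K r t ℓ ε b : ℝ)
    (D : Dat F f₁ f₂ C4 CD K r t ℓ ε b) (κ : ℝ) (hκ : 0 < κ) :
    ∫ z, ‖ContinuousLinearMap.adjoint (fderiv ℝ F z.1) (HH κ (fderiv ℝ F z.1)
        (√t • z.2.2))‖ ^ 2 ∂(gam3 I J) ≤ t * (b * Fintype.card J) := by
  obtain ⟨_, hm2, _, _, hm5⟩ := moments (I := J) (J := I)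
  have hcF : Continuous (fderiv ℝ F) := D.F2.continuous_fderiv (by norm_num)
  have hK0 : 0 ≤ K := (norm_nonneg _).trans (D.F1K 0)
  have hadj : Continuous (fun A : EuclideanSpace ℝ I →L[ℝ] EuclideanSpace ℝ J =>
      ContinuousLinearMap.adjoint A) := ContinuousLinearMap.adjoint.continuous
  have hnadj : ∀ A : EuclideanSpace ℝ I →L[ℝ] EuclideanSpace ℝ J,
      ‖ContinuousLinearMap.adjoint A‖ = ‖A‖ := fun A =>
    ContinuousLinearMap.adjoint.norm_map A
  have hcA : Continuous (fun x => ContinuousLinearMap.adjoint (fderiv ℝ F x)) := hadj.comp hcF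
  have hgc : Continuous (fun z : EuclideanSpace ℝ I × EuclideanSpace ℝ I × EuclideanSpace ℝ J =>
      t * ‖ContinuousLinearMap.adjoint (fderiv ℝ F z.1) z.2.2‖ ^ 2) :=
    continuous_const.mul (((hcA.comp continuous_fst).clm_apply
      (continuous_snd.comp continuous_snd)).norm.pow 2)
  have hle : ∀ (x : EuclideanSpace ℝ I) (l : EuclideanSpace ℝ J),
      ‖ContinuousLinearMap.adjoint (fderiv ℝ F x) l‖ ^ 2 ≤ K ^ 2 * ‖l‖ ^ 2 := by
    intro x l
    rw [← mul_pow]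
    apply pow_le_pow_left₀ (norm_nonneg _)
    refine (ContinuousLinearMap.le_opNorm _ _).trans ?_
    rw [hnadj]
    exact mul_le_mul_of_nonneg_right (D.F1K x) (norm_nonneg _)
  have hint : Integrable (fun z : EuclideanSpace ℝ I × EuclideanSpace ℝ I × EuclideanSpace ℝ J =>
      t * ‖ContinuousLinearMap.adjoint (fderiv ℝ F z.1) z.2.2‖ ^ 2) (gam3 I J) := by
    have h1 : Integrable (fun z : EuclideanSpace ℝ I × EuclideanSpace ℝ I × EuclideanSpace ℝ J =>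
        t * (K ^ 2 * ‖z.2.2‖ ^ 2)) (gam3 I J) := by
      have h2 : Integrable (fun y : EuclideanSpace ℝ I × EuclideanSpace ℝ J => ‖y.2‖ ^ 2)
          ((stdGaussian (EuclideanSpace ℝ I)).prod (stdGaussian (EuclideanSpace ℝ J))) :=
        hm2.comp_snd _
      have h3 : Integrable (fun z : EuclideanSpace ℝ I × EuclideanSpace ℝ I ×
          EuclideanSpace ℝ J => ‖z.2.2‖ ^ 2) (gam3 I J) :=
        h2.comp_snd (stdGaussian (EuclideanSpace ℝ I))
      exact (h3.const_mul _).const_mul _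
    refine h1.mono' hgc.aestronglyMeasurable (Filter.Eventually.of_forall fun z => ?_)
    rw [Real.norm_of_nonneg (mul_nonneg D.t0.le (sq_nonneg _))]
    exact mul_le_mul_of_nonneg_left (hle _ _) D.t0.le
  have hstep1 : ∫ z, ‖ContinuousLinearMap.adjoint (fderiv ℝ F z.1) (HH κ (fderiv ℝ F z.1)
        (√t • z.2.2))‖ ^ 2 ∂(gam3 I J) ≤
      ∫ z, t * ‖ContinuousLinearMap.adjoint (fderiv ℝ F z.1) z.2.2‖ ^ 2 ∂(gam3 I J) := by
    apply integral_mono_of_nonneg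
    · exact Filter.Eventually.of_forall fun z => sq_nonneg _
    · exact hint
    · refine Filter.Eventually.of_forall fun z => ?_
      have h1 := (HH_bounds κ hκ (fderiv ℝ F z.1) (√t • z.2.2)).2.2
      show ‖ContinuousLinearMap.adjoint (fderiv ℝ F z.1) (HH κ (fderiv ℝ F z.1)
        (√t • z.2.2))‖ ^ 2 ≤ t * ‖ContinuousLinearMap.adjoint (fderiv ℝ F z.1) z.2.2‖ ^ 2
      have h2 : t * ‖ContinuousLinearMap.adjoint (fderiv ℝ F z.1) z.2.2‖ ^ 2 =
          ‖ContinuousLinearMap.adjoint (fderiv ℝ F z.1) (√t • z.2.2)‖ ^ 2 := by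
        rw [map_smul, norm_smul, Real.norm_of_nonneg (Real.sqrt_nonneg t), mul_pow,
          Real.sq_sqrt D.t0.le]
      rw [h2]
      exact pow_le_pow_left₀ (norm_nonneg _) h1 2
  refine hstep1.trans (le_of_eq ?_)
  rw [integral_const_mul]
  congr 1
  have hint' : Integrable (fun z : EuclideanSpace ℝ I × EuclideanSpace ℝ I ×
      EuclideanSpace ℝ J => ‖ContinuousLinearMap.adjoint (fderiv ℝ F z.1) z.2.2‖ ^ 2)
      (gam3 I J) := by
    have := hint.const_mul t⁻¹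
    refine this.congr (Filter.Eventually.of_forall fun z => ?_)
    simp only
    rw [← mul_assoc, inv_mul_cancel₀ D.t0.ne', one_mul]
  unfold gam3 at hint' ⊢
  rw [integral_prod _ hint', ← D.hb]
  apply integral_congr_ae
  refine Filter.Eventually.of_forall fun x => ?_
  show ∫ y : EuclideanSpace ℝ I × EuclideanSpace ℝ J,
    ‖ContinuousLinearMap.adjoint (fderiv ℝ F x) y.2‖ ^ 2
    ∂((stdGaussian (EuclideanSpace ℝ I)).prod (stdGaussian (EuclideanSpace ℝ J))) =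
    hs (fderiv ℝ F x)
  rw [integral_fun_snd (fun l => ‖ContinuousLinearMap.adjoint (fderiv ℝ F x) l‖ ^ 2)]
  rw [hm5, (hs_adj (fderiv ℝ F x)).1]
  simp

end

section

/-- measurability and growth of the estimator -/
theorem QQ_meas {I J : Type} [Fintype I] [Fintype J] [DecidableEq I] [DecidableEq J]
    (F f : EuclideanSpace ℝ I → EuclideanSpace ℝ J) (hF : ContDiff ℝ 2 F) (hf : Continuous f)
    (B : ℝ) (hB : ∀ x, ‖f x‖ ≤ B) (Λ κ a σ : ℝ) (hκ : 0 < κ) :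
    Measurable (QQ F f Λ κ a σ) ∧ ∃ C : ℝ, ∀ p, ‖QQ F f Λ κ a σ p‖ ≤ C * (1 + ‖p.2‖) := by
  have hB0 : 0 ≤ B := (norm_nonneg _).trans (hB 0)
  have hm : Continuous (mQ f a σ) := by
    unfold mQ
    refine continuous_of_dominated (bound := fun _ => B) ?_ ?_ ?_ ?_
    · intro x
      exact (hf.comp (by fun_prop)).aestronglyMeasurable
    · intro x
      exact Filter.Eventually.of_forall fun g => hB _
    · exact integrable_const _
    · exact Filter.Eventually.of_forall fun g => hf.comp (by fun_prop)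
  have hmB : ∀ x, ‖mQ f a σ x‖ ≤ B := by
    intro x
    unfold mQ
    have := norm_integral_le_of_norm_le_const (μ := stdGaussian (EuclideanSpace ℝ I))
      (f := fun g => f (a • x + σ • g)) (C := B) (Filter.Eventually.of_forall fun g => hB _)
    simpa using this
  have hdF : Continuous (fderiv ℝ F) := hF.continuous_fderiv (by norm_num)
  refine ⟨?_, |Λ| * √(κ / 4) * (1 + B), ?_⟩
  · refine Continuous.measurable ?_
    unfold QQ
    have h1 : Continuous fun p : EuclideanSpace ℝ I × EuclideanSpace ℝ J =>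
        ContinuousLinearMap.adjoint (fderiv ℝ F p.1) :=
      ContinuousLinearMap.adjoint.continuous.comp (hdF.comp continuous_fst)
    have h2 : Continuous fun p : EuclideanSpace ℝ I × EuclideanSpace ℝ J =>
        HH κ (fderiv ℝ F p.1) := (HH_cont κ hκ).comp (hdF.comp continuous_fst)
    have h3 : Continuous fun p : EuclideanSpace ℝ I × EuclideanSpace ℝ J =>
        p.2 - mQ f a σ p.1 := continuous_snd.sub (hm.comp continuous_fst)
    exact (h1.clm_apply (h2.clm_apply h3)).const_smul Λ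
  · intro p
    unfold QQ
    rw [norm_smul, Real.norm_eq_abs, mul_assoc, mul_assoc]
    refine mul_le_mul_of_nonneg_left ?_ (abs_nonneg _)
    have h1 := (HH_bounds κ hκ (fderiv ℝ F p.1) (p.2 - mQ f a σ p.1)).2.1
    have h2 : ‖ContinuousLinearMap.adjoint (fderiv ℝ F p.1)
        (HH κ (fderiv ℝ F p.1) (p.2 - mQ f a σ p.1))‖ ≤ √(κ / 4) * ‖p.2 - mQ f a σ p.1‖ := by
      refine le_of_sq_le_sq ?_ (by positivity)
      rw [mul_pow, Real.sq_sqrt (by positivity)]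
      exact h1
    refine h2.trans ?_
    refine mul_le_mul_of_nonneg_left ?_ (Real.sqrt_nonneg _)
    have h3 : ‖p.2 - mQ f a σ p.1‖ ≤ ‖p.2‖ + B :=
      (norm_sub_le _ _).trans (add_le_add le_rfl (hmB _))
    nlinarith [norm_nonneg p.2, mul_nonneg hB0 (norm_nonneg p.2)]

end

section

/-- correlation of the estimator with `z` -/
theorem QQ_corr {I J : Type} [Fintype I] [Fintype J] [DecidableEq I] [DecidableEq J]
    (F f : EuclideanSpace ℝ I → EuclideanSpace ℝ J) (hF : ContDiff ℝ 2 F) (hf : Continuous f)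
    (B : ℝ) (hB : ∀ x, ‖f x‖ ≤ B) (K : ℝ) (hK : ∀ x, ‖fderiv ℝ F x‖ ≤ K)
    (t Λ κ a s s' σ : ℝ) (hκ : 0 < κ) :
    ∫ w, ⟪w.2.1, QQ F f Λ κ a σ (w.1, zob f t a s s' w)⟫ ∂(gam4 I J) =
      Λ * ∫ w, ⟪((HH κ (fderiv ℝ F w.1)) ∘L (fderiv ℝ F w.1)) w.2.1,
        f (a • w.1 + s • w.2.1 + s' • w.2.2.1)⟫ ∂(gam4 I J) := by
  obtain ⟨mI1, -, -, mI0, -⟩ := moments (I := I) (J := J)
  obtain ⟨mJ1, -, -, mJ0, -⟩ := moments (I := J) (J := J)
  have hA : Continuous (fderiv ℝ F) := hF.continuous_fderiv (by norm_num)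
  have hN : Continuous (fun p : EuclideanSpace ℝ I × EuclideanSpace ℝ I =>
      (HH κ (fderiv ℝ F p.1)) ((fderiv ℝ F p.1) p.2)) :=
    ((HH_cont κ hκ).comp (hA.comp continuous_fst)).clm_apply
      ((hA.comp continuous_fst).clm_apply continuous_snd)
  have hNb : ∀ x z : EuclideanSpace ℝ I,
      ‖(HH κ (fderiv ℝ F x)) ((fderiv ℝ F x) z)‖ ≤ K * ‖z‖ := by
    intro x z
    exact ((HH_bounds κ hκ (fderiv ℝ F x) _).1).trans
      ((ContinuousLinearMap.le_opNorm _ _).trans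
        (mul_le_mul_of_nonneg_right (hK x) (norm_nonneg _)))
  have hB0 : 0 ≤ B := (norm_nonneg _).trans (hB 0)
  have hK0 : 0 ≤ K := (norm_nonneg _).trans (hK 0)
  have hmQm : StronglyMeasurable (mQ f a σ) := by
    unfold mQ
    have hc : Continuous (fun p : EuclideanSpace ℝ I × EuclideanSpace ℝ I =>
        f (a • p.1 + σ • p.2)) := by fun_prop
    exact hc.stronglyMeasurable.integral_prod_right'
  have hmQb : ∀ x, ‖mQ f a σ x‖ ≤ B := by
    intro x
    unfold mQ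
    have := norm_integral_le_of_norm_le_const (μ := stdGaussian (EuclideanSpace ℝ I))
      (f := fun g => f (a • x + σ • g)) (C := B) (Filter.Eventually.of_forall fun g => hB _)
    simpa using this
  -- integrability
  have hz : Integrable (fun w : EuclideanSpace ℝ I × EuclideanSpace ℝ I × EuclideanSpace ℝ I ×
      EuclideanSpace ℝ J => ‖w.2.1‖) (gam4 I J) := by
    unfold gam4
    exact (mI1.comp_fst _).comp_snd _
  have hl3 : Integrable (fun w : EuclideanSpace ℝ I × EuclideanSpace ℝ I ×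
      EuclideanSpace ℝ J => ‖w.1‖ * ‖w.2.2‖) ((stdGaussian (EuclideanSpace ℝ I)).prod
    ((stdGaussian (EuclideanSpace ℝ I)).prod (stdGaussian (EuclideanSpace ℝ J)))) :=
    mI1.mul_prod (g := fun p : EuclideanSpace ℝ I × EuclideanSpace ℝ J => ‖p.2‖) (mJ1.comp_snd _)
  have hzl : Integrable (fun w : EuclideanSpace ℝ I × EuclideanSpace ℝ I × EuclideanSpace ℝ I ×
      EuclideanSpace ℝ J => ‖w.2.1‖ * ‖w.2.2.2‖) (gam4 I J) := by
    unfold gam4
    exact hl3.comp_snd _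
  have hcN : Continuous (fun w : EuclideanSpace ℝ I × EuclideanSpace ℝ I × EuclideanSpace ℝ I ×
      EuclideanSpace ℝ J => (HH κ (fderiv ℝ F w.1)) ((fderiv ℝ F w.1) w.2.1)) :=
    ((HH_cont κ hκ).comp (hA.comp continuous_fst)).clm_apply
      ((hA.comp continuous_fst).clm_apply (continuous_fst.comp continuous_snd))
  have i1 : Integrable (fun w : EuclideanSpace ℝ I × EuclideanSpace ℝ I × EuclideanSpace ℝ I ×
      EuclideanSpace ℝ J => ⟪(HH κ (fderiv ℝ F w.1)) ((fderiv ℝ F w.1) w.2.1),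
        f (a • w.1 + s • w.2.1 + s' • w.2.2.1)⟫) (gam4 I J) := by
    refine (hz.const_mul (K * B)).mono' ?_ ?_
    · exact (hcN.inner (by fun_prop)).aestronglyMeasurable
    · refine Filter.Eventually.of_forall fun w => ?_
      refine (norm_inner_le_norm _ _).trans ?_
      calc _ ≤ (K * ‖w.2.1‖) * B := mul_le_mul (hNb _ _) (hB _) (norm_nonneg _) (by positivity)
        _ = K * B * ‖w.2.1‖ := by ring
  have i2 : Integrable (fun w : EuclideanSpace ℝ I × EuclideanSpace ℝ I × EuclideanSpace ℝ I ×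
      EuclideanSpace ℝ J => ⟪(HH κ (fderiv ℝ F w.1)) ((fderiv ℝ F w.1) w.2.1),
        w.2.2.2⟫) (gam4 I J) := by
    refine (hzl.const_mul K).mono' ?_ ?_
    · exact (hcN.inner (by fun_prop)).aestronglyMeasurable
    · refine Filter.Eventually.of_forall fun w => ?_
      refine (norm_inner_le_norm _ _).trans ?_
      calc _ ≤ (K * ‖w.2.1‖) * ‖w.2.2.2‖ :=
            mul_le_mul_of_nonneg_right (hNb _ _) (norm_nonneg _)
        _ = K * (‖w.2.1‖ * ‖w.2.2.2‖) := by ring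
  have i3 : Integrable (fun w : EuclideanSpace ℝ I × EuclideanSpace ℝ I × EuclideanSpace ℝ I ×
      EuclideanSpace ℝ J => ⟪(HH κ (fderiv ℝ F w.1)) ((fderiv ℝ F w.1) w.2.1),
        mQ f a σ w.1⟫) (gam4 I J) := by
    refine (hz.const_mul (K * B)).mono' ?_ ?_
    · exact (hcN.stronglyMeasurable.inner
        (hmQm.comp_measurable measurable_fst)).aestronglyMeasurable
    · refine Filter.Eventually.of_forall fun w => ?_
      refine (norm_inner_le_norm _ _).trans ?_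
      calc _ ≤ (K * ‖w.2.1‖) * B := mul_le_mul (hNb _ _) (hmQb _) (norm_nonneg _) (by positivity)
        _ = K * B * ‖w.2.1‖ := by ring
  -- vanishing
  have z3 : ∫ w, ⟪(HH κ (fderiv ℝ F w.1)) ((fderiv ℝ F w.1) w.2.1), mQ f a σ w.1⟫ ∂(gam4 I J)
      = 0 := by
    unfold gam4 at i3 ⊢
    rw [integral_prod _ i3]
    have : ∀ x : EuclideanSpace ℝ I, ∫ y : EuclideanSpace ℝ I × EuclideanSpace ℝ I ×
        EuclideanSpace ℝ J, ⟪(HH κ (fderiv ℝ F x)) ((fderiv ℝ F x) y.1), mQ f a σ x⟫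
        ∂((stdGaussian (EuclideanSpace ℝ I)).prod
          ((stdGaussian (EuclideanSpace ℝ I)).prod (stdGaussian (EuclideanSpace ℝ J)))) = 0 := by
      intro x
      have h1 := integral_fun_fst (μ := stdGaussian (EuclideanSpace ℝ I))
        (ν := (stdGaussian (EuclideanSpace ℝ I)).prod (stdGaussian (EuclideanSpace ℝ J)))
        (fun z => ⟪(HH κ (fderiv ℝ F x)) ((fderiv ℝ F x) z), mQ f a σ x⟫)
      rw [h1]
      have h2 : ∀ z : EuclideanSpace ℝ I, ⟪(HH κ (fderiv ℝ F x)) ((fderiv ℝ F x) z), mQ f a σ x⟫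
          = ⟪z, ContinuousLinearMap.adjoint (fderiv ℝ F x)
              (HH κ (fderiv ℝ F x) (mQ f a σ x))⟫ := by
        intro z
        rw [HH_sym κ hκ, ContinuousLinearMap.adjoint_inner_right]
      simp only [h2, mI0, smul_zero]
    simp only [this, integral_zero]
  have z2 : ∫ w, ⟪(HH κ (fderiv ℝ F w.1)) ((fderiv ℝ F w.1) w.2.1), w.2.2.2⟫ ∂(gam4 I J)
      = 0 := by
    unfold gam4 at i2 ⊢
    rw [integral_prod _ i2]
    have : ∀ x : EuclideanSpace ℝ I, ∫ y : EuclideanSpace ℝ I × EuclideanSpace ℝ I ×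
        EuclideanSpace ℝ J, ⟪(HH κ (fderiv ℝ F x)) ((fderiv ℝ F x) y.1), y.2.2⟫
        ∂((stdGaussian (EuclideanSpace ℝ I)).prod
          ((stdGaussian (EuclideanSpace ℝ I)).prod (stdGaussian (EuclideanSpace ℝ J)))) = 0 := by
      intro x
      have hcx : Continuous (fun y : EuclideanSpace ℝ I × EuclideanSpace ℝ I ×
        EuclideanSpace ℝ J => (HH κ (fderiv ℝ F x)) ((fderiv ℝ F x) y.1)) := by fun_prop
      have ix : Integrable (fun y : EuclideanSpace ℝ I × EuclideanSpace ℝ I ×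
        EuclideanSpace ℝ J => ⟪(HH κ (fderiv ℝ F x)) ((fderiv ℝ F x) y.1), y.2.2⟫)
        ((stdGaussian (EuclideanSpace ℝ I)).prod
          ((stdGaussian (EuclideanSpace ℝ I)).prod (stdGaussian (EuclideanSpace ℝ J)))) := by
        refine (hl3.const_mul K).mono' ?_ ?_
        · exact (hcx.inner (by fun_prop)).aestronglyMeasurable
        · refine Filter.Eventually.of_forall fun w => ?_
          refine (norm_inner_le_norm _ _).trans ?_
          calc _ ≤ (K * ‖w.1‖) * ‖w.2.2‖ :=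
                mul_le_mul_of_nonneg_right (hNb _ _) (norm_nonneg _)
            _ = K * (‖w.1‖ * ‖w.2.2‖) := by ring
      rw [integral_prod _ ix]
      have h1 : ∀ z : EuclideanSpace ℝ I, ∫ y : EuclideanSpace ℝ I × EuclideanSpace ℝ J,
          ⟪(HH κ (fderiv ℝ F x)) ((fderiv ℝ F x) z), y.2⟫
          ∂((stdGaussian (EuclideanSpace ℝ I)).prod (stdGaussian (EuclideanSpace ℝ J))) = 0 := by
        intro z
        have h2 := integral_fun_snd (μ := stdGaussian (EuclideanSpace ℝ I))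
          (ν := stdGaussian (EuclideanSpace ℝ J))
          (fun l => ⟪(HH κ (fderiv ℝ F x)) ((fderiv ℝ F x) z), l⟫)
        rw [h2]
        have h3 : ∀ l : EuclideanSpace ℝ J, ⟪(HH κ (fderiv ℝ F x)) ((fderiv ℝ F x) z), l⟫
            = ⟪l, (HH κ (fderiv ℝ F x)) ((fderiv ℝ F x) z)⟫ := fun l => real_inner_comm _ _
        simp only [h3, mJ0, smul_zero]
      simp only [h1, integral_zero]
    simp only [this, integral_zero]
  -- combine
  have hpt : ∀ w : EuclideanSpace ℝ I × EuclideanSpace ℝ I × EuclideanSpace ℝ I ×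
      EuclideanSpace ℝ J, ⟪w.2.1, QQ F f Λ κ a σ (w.1, zob f t a s s' w)⟫ =
      Λ * (⟪(HH κ (fderiv ℝ F w.1)) ((fderiv ℝ F w.1) w.2.1),
        f (a • w.1 + s • w.2.1 + s' • w.2.2.1)⟫
        + √t * ⟪(HH κ (fderiv ℝ F w.1)) ((fderiv ℝ F w.1) w.2.1), w.2.2.2⟫
        - ⟪(HH κ (fderiv ℝ F w.1)) ((fderiv ℝ F w.1) w.2.1), mQ f a σ w.1⟫) := by
    intro w
    unfold QQ zob
    simp only
    rw [real_inner_smul_right, ContinuousLinearMap.adjoint_inner_right, ← HH_sym κ hκ,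
      inner_sub_right, inner_add_right, real_inner_smul_right]
  simp only [hpt]
  rw [integral_const_mul]
  congr 1
  have i2' := i2.const_mul (√t)
  have i12 : Integrable (fun w : EuclideanSpace ℝ I × EuclideanSpace ℝ I × EuclideanSpace ℝ I ×
      EuclideanSpace ℝ J => ⟪(HH κ (fderiv ℝ F w.1)) ((fderiv ℝ F w.1) w.2.1),
        f (a • w.1 + s • w.2.1 + s' • w.2.2.1)⟫
        + √t * ⟪(HH κ (fderiv ℝ F w.1)) ((fderiv ℝ F w.1) w.2.1), w.2.2.2⟫) (gam4 I J) :=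
    i1.add i2'
  rw [integral_sub i12 i3, integral_add i1 i2', integral_const_mul, z2, z3]
  simp only [mul_zero, add_zero, sub_zero]
  rfl

end

section

theorem QQ_corr2_split {Ω : Type*} [MeasurableSpace Ω] {μ : Measure Ω} {f g h : Ω → ℝ} (r : ℝ)
    (hf : Integrable f μ) (hg : Integrable g μ) (hh : Integrable h μ) :
    ∫ w, (r * f w + g w + h w) ∂μ = r * (∫ w, f w ∂μ) + (∫ w, g w ∂μ) + ∫ w, h w ∂μ := by
  have h1 : Integrable (fun w => r * f w + g w) μ := (hf.const_mul r).add hg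
  rw [integral_add h1 hh, integral_add (hf.const_mul r) hg, integral_const_mul]

theorem QQ_corr2_int {I J : Type} [Fintype I] [Fintype J] [DecidableEq I] [DecidableEq J]
    (F g : EuclideanSpace ℝ I → EuclideanSpace ℝ J) (hF : ContDiff ℝ 2 F) (hg : Continuous g)
    (B : ℝ) (hB : ∀ x, ‖g x‖ ≤ B) (K : ℝ) (hK : ∀ x, ‖fderiv ℝ F x‖ ≤ K)
    (κ a s s' : ℝ) (hκ : 0 < κ) :
    Integrable (fun w => ⟪((HH κ (fderiv ℝ F w.1)) ∘L (fderiv ℝ F w.1)) w.2.1,
        g (a • w.1 + s • w.2.1 + s' • w.2.2.1)⟫) (gam4 I J) := by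
  have hcD : Continuous (fun x => fderiv ℝ F x) := hF.continuous_fderiv (by norm_num)
  have hcont : Continuous (fun w : EuclideanSpace ℝ I × EuclideanSpace ℝ I ×
      EuclideanSpace ℝ I × EuclideanSpace ℝ J =>
      ⟪((HH κ (fderiv ℝ F w.1)) ∘L (fderiv ℝ F w.1)) w.2.1,
        g (a • w.1 + s • w.2.1 + s' • w.2.2.1)⟫) := by
    have h1 : Continuous (fun w : EuclideanSpace ℝ I × EuclideanSpace ℝ I ×
      EuclideanSpace ℝ I × EuclideanSpace ℝ J => fderiv ℝ F w.1) := hcD.comp continuous_fst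
    have h2 : Continuous (fun w : EuclideanSpace ℝ I × EuclideanSpace ℝ I ×
      EuclideanSpace ℝ I × EuclideanSpace ℝ J => HH κ (fderiv ℝ F w.1)) := (HH_cont κ hκ).comp h1
    have h3 : Continuous (fun w : EuclideanSpace ℝ I × EuclideanSpace ℝ I ×
      EuclideanSpace ℝ I × EuclideanSpace ℝ J => (fderiv ℝ F w.1) w.2.1) :=
      h1.clm_apply (continuous_fst.comp continuous_snd)
    have h4 : Continuous (fun w : EuclideanSpace ℝ I × EuclideanSpace ℝ I ×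
      EuclideanSpace ℝ I × EuclideanSpace ℝ J =>
      (HH κ (fderiv ℝ F w.1)) ((fderiv ℝ F w.1) w.2.1)) := h2.clm_apply h3
    have h5 : Continuous (fun w : EuclideanSpace ℝ I × EuclideanSpace ℝ I ×
      EuclideanSpace ℝ I × EuclideanSpace ℝ J => g (a • w.1 + s • w.2.1 + s' • w.2.2.1)) :=
      hg.comp (by fun_prop)
    exact h4.inner h5
  have hz : Integrable (fun w : EuclideanSpace ℝ I × EuclideanSpace ℝ I ×
      EuclideanSpace ℝ I × EuclideanSpace ℝ J => ‖w.2.1‖) (gam4 I J) := by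
    have h1 := (moments (I := I) (J := J)).1
    have h2 : Integrable (fun p : EuclideanSpace ℝ I × EuclideanSpace ℝ I × EuclideanSpace ℝ J =>
      ‖p.1‖) ((stdGaussian (EuclideanSpace ℝ I)).prod
        ((stdGaussian (EuclideanSpace ℝ I)).prod (stdGaussian (EuclideanSpace ℝ J)))) :=
      h1.comp_fst _
    exact h2.comp_snd _
  have hK0 : 0 ≤ K := (norm_nonneg _).trans (hK 0)
  have hB0 : 0 ≤ B := (norm_nonneg _).trans (hB 0)
  refine (hz.const_mul (K * B)).mono' hcont.aestronglyMeasurable ?_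
  refine Filter.Eventually.of_forall fun w => ?_
  have e1 : ‖((HH κ (fderiv ℝ F w.1)) ∘L (fderiv ℝ F w.1)) w.2.1‖ ≤ K * ‖w.2.1‖ := by
    refine ((HH_bounds κ hκ (fderiv ℝ F w.1) ((fderiv ℝ F w.1) w.2.1)).1).trans ?_
    refine ((fderiv ℝ F w.1).le_opNorm _).trans ?_
    exact mul_le_mul_of_nonneg_right (hK _) (norm_nonneg _)
  calc ‖⟪((HH κ (fderiv ℝ F w.1)) ∘L (fderiv ℝ F w.1)) w.2.1,
        g (a • w.1 + s • w.2.1 + s' • w.2.2.1)⟫‖
      ≤ ‖((HH κ (fderiv ℝ F w.1)) ∘L (fderiv ℝ F w.1)) w.2.1‖ *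
        ‖g (a • w.1 + s • w.2.1 + s' • w.2.2.1)‖ := norm_inner_le_norm _ _
    _ ≤ (K * ‖w.2.1‖) * B := mul_le_mul e1 (hB _) (norm_nonneg _) (by positivity)
    _ = K * B * ‖w.2.1‖ := by ring

/-- lower bound for the correlation -/
theorem QQ_corr2 {I J : Type} [Fintype I] [Fintype J] [DecidableEq I] [DecidableEq J]
    (F f₁ f₂ : EuclideanSpace ℝ I → EuclideanSpace ℝ J) (C4 CD K r t ℓ ε b : ℝ)
    (D : Dat F f₁ f₂ C4 CD K r t ℓ ε b) (Λ κ a s s' σ : ℝ) (hκ : 0 < κ) (ha : 0 ≤ a)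
    (hσ0 : 0 ≤ σ) (hσ : σ ^ 2 = s ^ 2 + s' ^ 2) (haσ : a ^ 2 + σ ^ 2 = 1) (hs0 : 0 < s)
    (hΛ : 0 ≤ Λ) :
    Λ * ((r * s * (b - κ⁻¹ * (C4 * b ^ 2) - b / 8 - 6 * σ ^ 2 * (CD * b ^ 2)) -
        s * (r * b / 16 + 4 * ℓ ^ 2 / r) - (r * s * b / 16 + 4 * ε ^ 2 / (r * s))) *
        Fintype.card J) ≤
      ∫ w, ⟪w.2.1, QQ F (fun x => r • F x + f₁ x + f₂ x) Λ κ a σ
        (w.1, zob (fun x => r • F x + f₁ x + f₂ x) t a s s' w)⟫ ∂(gam4 I J) := by
  have hcf : Continuous (fun x => r • F x + f₁ x + f₂ x) :=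
    ((D.F2.continuous.const_smul r).add D.f11.continuous).add D.f2c
  have hBf : ∀ x, ‖r • F x + f₁ x + f₂ x‖ ≤ |r| * K + K + ε * √(Fintype.card J) := by
    intro x
    refine (norm_add_le _ _).trans (add_le_add ((norm_add_le _ _).trans (add_le_add ?_ (D.f1K x)))
      (D.f2e x))
    rw [norm_smul, Real.norm_eq_abs]
    exact mul_le_mul_of_nonneg_left (D.FK x) (abs_nonneg r)
  rw [QQ_corr F _ D.F2 hcf _ hBf K D.F1K t Λ κ a s s' σ hκ]
  have i0 := QQ_corr2_int F F D.F2 D.F2.continuous K D.FK K D.F1K κ a s s' hκ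
  have i1 := QQ_corr2_int F f₁ D.F2 D.f11.continuous K D.f1K K D.F1K κ a s s' hκ
  have i2 := QQ_corr2_int F f₂ D.F2 D.f2c _ D.f2e K D.F1K κ a s s' hκ
  have hsplit : ∫ w, ⟪((HH κ (fderiv ℝ F w.1)) ∘L (fderiv ℝ F w.1)) w.2.1,
        r • F (a • w.1 + s • w.2.1 + s' • w.2.2.1) + f₁ (a • w.1 + s • w.2.1 + s' • w.2.2.1) +
          f₂ (a • w.1 + s • w.2.1 + s' • w.2.2.1)⟫ ∂(gam4 I J) =
      r * (∫ w, ⟪((HH κ (fderiv ℝ F w.1)) ∘L (fderiv ℝ F w.1)) w.2.1,
        F (a • w.1 + s • w.2.1 + s' • w.2.2.1)⟫ ∂(gam4 I J)) +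
      (∫ w, ⟪((HH κ (fderiv ℝ F w.1)) ∘L (fderiv ℝ F w.1)) w.2.1,
        f₁ (a • w.1 + s • w.2.1 + s' • w.2.2.1)⟫ ∂(gam4 I J)) +
      (∫ w, ⟪((HH κ (fderiv ℝ F w.1)) ∘L (fderiv ℝ F w.1)) w.2.1,
        f₂ (a • w.1 + s • w.2.1 + s' • w.2.2.1)⟫ ∂(gam4 I J)) := by
    rw [← QQ_corr2_split r i0 i1 i2]
    refine integral_congr_ae (Filter.Eventually.of_forall fun w => ?_)
    simp only [inner_add_right, inner_smul_right]
  rw [hsplit]
  have g0 := gainI F f₁ f₂ C4 CD K r t ℓ ε b D κ a s s' σ hκ ha hσ0 hσ haσ hs0.le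
  have g1 := gainI1 F f₁ f₂ C4 CD K r t ℓ ε b D κ a s s' hκ hs0.le
  have g2 := gainI2 F f₁ f₂ C4 CD K r t ℓ ε b D κ a s s' hκ hs0
  refine mul_le_mul_of_nonneg_left ?_ hΛ
  have g0' := mul_le_mul_of_nonneg_left g0 D.r0.le
  linarith

end

section

section qs
variable {I J : Type} [Fintype I] [Fintype J] [DecidableEq I] [DecidableEq J]

theorem qs_int (f : EuclideanSpace ℝ I → EuclideanSpace ℝ J) (hf : Continuous f) (B : ℝ)
    (hB : ∀ x, ‖f x‖ ≤ B) (a σ : ℝ) (x : EuclideanSpace ℝ I) :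
    Integrable (fun g => f (a • x + σ • g)) (stdGaussian (EuclideanSpace ℝ I)) := by
  apply Integrable.mono' (integrable_const B)
  · exact (hf.comp (by fun_prop)).aestronglyMeasurable
  · exact Filter.Eventually.of_forall fun g => hB _

theorem qs_mQ_le (f : EuclideanSpace ℝ I → EuclideanSpace ℝ J) (B : ℝ)
    (hB : ∀ x, ‖f x‖ ≤ B) (a σ : ℝ) (x : EuclideanSpace ℝ I) :
    ‖∫ g, f (a • x + σ • g) ∂(stdGaussian (EuclideanSpace ℝ I))‖ ≤ B := by
  have h := norm_integral_le_of_norm_le_const (μ := stdGaussian (EuclideanSpace ℝ I)) (C := B)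
    (f := fun g => f (a • x + σ • g)) (Filter.Eventually.of_forall fun g => hB _)
  simpa using h

theorem qs_part (F f : EuclideanSpace ℝ I → EuclideanSpace ℝ J) (hF : ContDiff ℝ 2 F)
    (hf : Continuous f) (B : ℝ) (hB : ∀ x, ‖f x‖ ≤ B) (κ a σ : ℝ) (hκ : 0 < κ) :
    Integrable (fun z : EuclideanSpace ℝ I × EuclideanSpace ℝ I × EuclideanSpace ℝ J =>
      ‖ContinuousLinearMap.adjoint (fderiv ℝ F z.1) (HH κ (fderiv ℝ F z.1)
        (f (a • z.1 + σ • z.2.1) -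
          ∫ g, f (a • z.1 + σ • g) ∂(stdGaussian (EuclideanSpace ℝ I))))‖ ^ 2) (gam3 I J) := by
  have hB0 : 0 ≤ B := (norm_nonneg _).trans (hB 0)
  apply Integrable.mono' (integrable_const (κ / 4 * (2 * B) ^ 2))
  · have hm := (QQ_meas F f hF hf B hB 1 κ a σ hκ).1
    have h0 : Measurable fun z : EuclideanSpace ℝ I × EuclideanSpace ℝ I × EuclideanSpace ℝ J =>
        f (a • z.1 + σ • z.2.1) := by
      apply Continuous.measurable
      exact hf.comp (by fun_prop)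
    have h1 : Measurable fun z : EuclideanSpace ℝ I × EuclideanSpace ℝ I × EuclideanSpace ℝ J =>
        (z.1, f (a • z.1 + σ • z.2.1)) := measurable_fst.prodMk h0
    have h2 := (hm.comp h1).norm.pow_const 2
    have h3 : (fun z : EuclideanSpace ℝ I × EuclideanSpace ℝ I × EuclideanSpace ℝ J =>
      ‖ContinuousLinearMap.adjoint (fderiv ℝ F z.1) (HH κ (fderiv ℝ F z.1)
        (f (a • z.1 + σ • z.2.1) -
          ∫ g, f (a • z.1 + σ • g) ∂(stdGaussian (EuclideanSpace ℝ I))))‖ ^ 2) =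
        fun z => ‖QQ F f 1 κ a σ (z.1, f (a • z.1 + σ • z.2.1))‖ ^ 2 := by
      funext z
      unfold QQ
      rw [one_smul]
      rfl
    rw [h3]
    exact h2.aestronglyMeasurable
  · refine Filter.Eventually.of_forall fun z => ?_
    rw [Real.norm_of_nonneg (sq_nonneg _)]
    refine ((HH_bounds κ hκ (fderiv ℝ F z.1) _).2.1).trans ?_
    have h2 : ‖f (a • z.1 + σ • z.2.1) -
        ∫ g, f (a • z.1 + σ • g) ∂(stdGaussian (EuclideanSpace ℝ I))‖ ≤ 2 * B :=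
      (norm_sub_le _ _).trans (by linarith [hB (a • z.1 + σ • z.2.1), qs_mQ_le f B hB a σ z.1])
    gcongr

theorem qs_noise (F : EuclideanSpace ℝ I → EuclideanSpace ℝ J) (hF : ContDiff ℝ 2 F)
    (κ t : ℝ) (hκ : 0 < κ) :
    Integrable (fun z : EuclideanSpace ℝ I × EuclideanSpace ℝ I × EuclideanSpace ℝ J =>
      ‖ContinuousLinearMap.adjoint (fderiv ℝ F z.1) (HH κ (fderiv ℝ F z.1)
        (√t • z.2.2))‖ ^ 2) (gam3 I J) := by
  have hmom := (moments (I := J) (J := J)).2.1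
  have hint : Integrable (fun z : EuclideanSpace ℝ I × EuclideanSpace ℝ I × EuclideanSpace ℝ J =>
      ‖z.2.2‖ ^ 2) (gam3 I J) := by
    unfold gam3
    exact (hmom.comp_snd (stdGaussian (EuclideanSpace ℝ I))).comp_snd _
  apply Integrable.mono' (hint.const_mul (κ / 4 * √t ^ 2))
  · have hm := (QQ_meas F (fun _ => 0) hF continuous_const 0 (fun x => by simp) 1 κ 0 0 hκ).1
    have h1 : Measurable fun z : EuclideanSpace ℝ I × EuclideanSpace ℝ I × EuclideanSpace ℝ J =>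
        (z.1, √t • z.2.2) := measurable_fst.prodMk (by fun_prop)
    have h2 := (hm.comp h1).norm.pow_const 2
    have h3 : (fun z : EuclideanSpace ℝ I × EuclideanSpace ℝ I × EuclideanSpace ℝ J =>
      ‖ContinuousLinearMap.adjoint (fderiv ℝ F z.1) (HH κ (fderiv ℝ F z.1)
        (√t • z.2.2))‖ ^ 2) =
        fun z => ‖QQ F (fun _ => 0) 1 κ 0 0 (z.1, √t • z.2.2)‖ ^ 2 := by
      funext z
      unfold QQ mQ
      rw [one_smul, integral_zero, sub_zero]
    rw [h3]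
    exact h2.aestronglyMeasurable
  · refine Filter.Eventually.of_forall fun z => ?_
    rw [Real.norm_of_nonneg (sq_nonneg _)]
    refine ((HH_bounds κ hκ (fderiv ℝ F z.1) _).2.1).trans (le_of_eq ?_)
    rw [norm_smul, Real.norm_of_nonneg (Real.sqrt_nonneg t)]
    ring

theorem qs_four {V : Type*} [SeminormedAddCommGroup V] (x y z w : V) :
    ‖x + y + z + w‖ ^ 2 ≤ 4 * (‖x‖ ^ 2 + ‖y‖ ^ 2 + ‖z‖ ^ 2 + ‖w‖ ^ 2) := by
  have h1 : ‖x + y + z + w‖ ≤ ‖x‖ + ‖y‖ + ‖z‖ + ‖w‖ :=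
    (norm_add_le _ _).trans (add_le_add_left ((norm_add_le _ _).trans
      (add_le_add_left (norm_add_le _ _) _)) _)
  have h2 : ‖x + y + z + w‖ ^ 2 ≤ (‖x‖ + ‖y‖ + ‖z‖ + ‖w‖) ^ 2 :=
    pow_le_pow_left₀ (norm_nonneg _) h1 2
  nlinarith [sq_nonneg (‖x‖ - ‖y‖), sq_nonneg (‖x‖ - ‖z‖), sq_nonneg (‖x‖ - ‖w‖),
    sq_nonneg (‖y‖ - ‖z‖), sq_nonneg (‖y‖ - ‖w‖), sq_nonneg (‖z‖ - ‖w‖)]

end qs

/-- upper bound for the second moment -/
theorem QQ_sq {I J : Type} [Fintype I] [Fintype J] [DecidableEq I] [DecidableEq J]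
    (F f₁ f₂ : EuclideanSpace ℝ I → EuclideanSpace ℝ J) (C4 CD K r t ℓ ε b : ℝ)
    (D : Dat F f₁ f₂ C4 CD K r t ℓ ε b) (Λ κ a s s' σ : ℝ) (hκ : 0 < κ)
    (hσ : σ ^ 2 = s ^ 2 + s' ^ 2) (haσ : a ^ 2 + σ ^ 2 = 1) :
    ∫ w, ‖QQ F (fun x => r • F x + f₁ x + f₂ x) Λ κ a σ
        (w.1, zob (fun x => r • F x + f₁ x + f₂ x) t a s s' w)‖ ^ 2 ∂(gam4 I J) ≤
      4 * Λ ^ 2 * ((r ^ 2 * (2 * σ ^ 2 * (C4 * b ^ 2)) + 2 * σ ^ 2 * (ℓ ^ 2 * b) + κ * ε ^ 2 +
        t * b) * Fintype.card J) := by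
  set f : EuclideanSpace ℝ I → EuclideanSpace ℝ J := fun x => r • F x + f₁ x + f₂ x with hf
  have hFc : Continuous F := D.F2.continuous
  have hf1c : Continuous f₁ := D.f11.continuous
  have hf2c := D.f2c
  have hfc : Continuous f := by
    rw [hf]
    fun_prop
  have hfB : ∀ x, ‖f x‖ ≤ |r| * K + K + ε * √(Fintype.card J) := by
    intro x
    refine (norm_add_le _ _).trans (add_le_add ((norm_add_le _ _).trans
      (add_le_add ?_ (D.f1K x))) (D.f2e x))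
    rw [norm_smul, Real.norm_eq_abs]
    exact mul_le_mul_of_nonneg_left (D.FK x) (abs_nonneg r)
  have hQm := (QQ_meas F f D.F2 hfc _ hfB Λ κ a σ hκ).1
  -- transfer to three variables
  let G : EuclideanSpace ℝ I × EuclideanSpace ℝ I × EuclideanSpace ℝ J → ℝ := fun z =>
    ‖QQ F f Λ κ a σ (z.1, f (a • z.1 + z.2.1) + √t • z.2.2)‖ ^ 2
  have hGm : Measurable G := by
    have h0 : Measurable fun z : EuclideanSpace ℝ I × EuclideanSpace ℝ I × EuclideanSpace ℝ J =>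
        f (a • z.1 + z.2.1) + √t • z.2.2 := by
      apply Continuous.measurable
      exact (hfc.comp (by fun_prop)).add (by fun_prop)
    exact (hQm.comp (measurable_fst.prodMk h0)).norm.pow_const 2
  have htr : ∫ w, ‖QQ F f Λ κ a σ (w.1, zob f t a s s' w)‖ ^ 2 ∂(gam4 I J) =
      ∫ z, G (z.1, σ • z.2.1, z.2.2) ∂(gam3 I J) := by
    have h1 : ∀ w : EuclideanSpace ℝ I × EuclideanSpace ℝ I × EuclideanSpace ℝ I ×
        EuclideanSpace ℝ J, ‖QQ F f Λ κ a σ (w.1, zob f t a s s' w)‖ ^ 2 =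
        G (w.1, s • w.2.1 + s' • w.2.2.1, w.2.2.2) := by
      intro w
      simp only [G, zob, add_assoc]
    simp only [h1]
    have hφ : Measurable fun w : EuclideanSpace ℝ I × EuclideanSpace ℝ I × EuclideanSpace ℝ I ×
        EuclideanSpace ℝ J => (w.1, s • w.2.1 + s' • w.2.2.1, w.2.2.2) := by fun_prop
    have hψ : Measurable fun z : EuclideanSpace ℝ I × EuclideanSpace ℝ I × EuclideanSpace ℝ J =>
        (z.1, σ • z.2.1, z.2.2) := by fun_prop
    have h2 := integral_map (μ := gam4 I J) hφ.aemeasurable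
      (f := G) hGm.aestronglyMeasurable
    have h3 := integral_map (μ := gam3 I J) hψ.aemeasurable
      (f := G) hGm.aestronglyMeasurable
    rw [merge34 I J s s' σ hσ] at h2
    rw [← h2, h3]
  rw [htr]
  -- the four parts
  have i0 := qs_part F F D.F2 hFc K D.FK κ a σ hκ
  have i1 := qs_part F f₁ D.F2 hf1c K D.f1K κ a σ hκ
  have i2 := qs_part F f₂ D.F2 D.f2c _ D.f2e κ a σ hκ
  have i3 := qs_noise F D.F2 κ t hκ
  have b0 := gainII0 F f₁ f₂ C4 CD K r t ℓ ε b D κ a σ hκ haσ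
  have b1 := gainII1 F f₁ f₂ C4 CD K r t ℓ ε b D κ a σ hκ haσ
  have b2 := gainII2 F f₁ f₂ C4 CD K r t ℓ ε b D κ a σ hκ
  have b3 := gainII3 F f₁ f₂ C4 CD K r t ℓ ε b D κ hκ
  set t0 : EuclideanSpace ℝ I × EuclideanSpace ℝ I × EuclideanSpace ℝ J → ℝ := fun z =>
    ‖ContinuousLinearMap.adjoint (fderiv ℝ F z.1) (HH κ (fderiv ℝ F z.1)
        (F (a • z.1 + σ • z.2.1) -
          ∫ g, F (a • z.1 + σ • g) ∂(stdGaussian (EuclideanSpace ℝ I))))‖ ^ 2 with ht0
  set t1 : EuclideanSpace ℝ I × EuclideanSpace ℝ I × EuclideanSpace ℝ J → ℝ := fun z =>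
    ‖ContinuousLinearMap.adjoint (fderiv ℝ F z.1) (HH κ (fderiv ℝ F z.1)
        (f₁ (a • z.1 + σ • z.2.1) -
          ∫ g, f₁ (a • z.1 + σ • g) ∂(stdGaussian (EuclideanSpace ℝ I))))‖ ^ 2 with ht1
  set t2 : EuclideanSpace ℝ I × EuclideanSpace ℝ I × EuclideanSpace ℝ J → ℝ := fun z =>
    ‖ContinuousLinearMap.adjoint (fderiv ℝ F z.1) (HH κ (fderiv ℝ F z.1)
        (f₂ (a • z.1 + σ • z.2.1) -
          ∫ g, f₂ (a • z.1 + σ • g) ∂(stdGaussian (EuclideanSpace ℝ I))))‖ ^ 2 with ht2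
  set t3 : EuclideanSpace ℝ I × EuclideanSpace ℝ I × EuclideanSpace ℝ J → ℝ := fun z =>
    ‖ContinuousLinearMap.adjoint (fderiv ℝ F z.1) (HH κ (fderiv ℝ F z.1)
        (√t • z.2.2))‖ ^ 2 with ht3
  have hpt : ∀ z : EuclideanSpace ℝ I × EuclideanSpace ℝ I × EuclideanSpace ℝ J,
      G (z.1, σ • z.2.1, z.2.2) ≤ 4 * Λ ^ 2 * (r ^ 2 * t0 z + t1 z + t2 z + t3 z) := by
    intro z
    have hmq : mQ f a σ z.1 = r • (∫ g, F (a • z.1 + σ • g) ∂(stdGaussian (EuclideanSpace ℝ I))) +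
        (∫ g, f₁ (a • z.1 + σ • g) ∂(stdGaussian (EuclideanSpace ℝ I))) +
        (∫ g, f₂ (a • z.1 + σ • g) ∂(stdGaussian (EuclideanSpace ℝ I))) := by
      have j0 := qs_int F hFc K D.FK a σ z.1
      have j1 := qs_int f₁ hf1c K D.f1K a σ z.1
      have j2 := qs_int f₂ D.f2c _ D.f2e a σ z.1
      have j3 : Integrable (fun g => r • F (a • z.1 + σ • g)) (stdGaussian (EuclideanSpace ℝ I)) :=
        j0.smul r
      have j4 : Integrable (fun g => r • F (a • z.1 + σ • g) + f₁ (a • z.1 + σ • g))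
        (stdGaussian (EuclideanSpace ℝ I)) := j3.add j1
      unfold mQ
      simp only [hf]
      rw [integral_add j4 j2, integral_add j3 j1, integral_smul]
    have hG : G (z.1, σ • z.2.1, z.2.2) = ‖Λ • ContinuousLinearMap.adjoint (fderiv ℝ F z.1)
        (HH κ (fderiv ℝ F z.1) (f (a • z.1 + σ • z.2.1) + √t • z.2.2 - mQ f a σ z.1))‖ ^ 2 := rfl
    have hsplit : f (a • z.1 + σ • z.2.1) + √t • z.2.2 - mQ f a σ z.1 =
        r • (F (a • z.1 + σ • z.2.1) -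
          ∫ g, F (a • z.1 + σ • g) ∂(stdGaussian (EuclideanSpace ℝ I))) +
        (f₁ (a • z.1 + σ • z.2.1) -
          ∫ g, f₁ (a • z.1 + σ • g) ∂(stdGaussian (EuclideanSpace ℝ I))) +
        (f₂ (a • z.1 + σ • z.2.1) -
          ∫ g, f₂ (a • z.1 + σ • g) ∂(stdGaussian (EuclideanSpace ℝ I))) + √t • z.2.2 := by
      rw [hmq]
      simp only [hf]
      module
    rw [hG, hsplit, norm_smul, mul_pow, map_add, map_add, map_add, map_add, map_add, map_add,
      map_smul, map_smul]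
    refine (mul_le_mul_of_nonneg_left (qs_four _ _ _ _) (sq_nonneg _)).trans (le_of_eq ?_)
    rw [norm_smul, mul_pow, Real.norm_eq_abs, Real.norm_eq_abs, sq_abs, sq_abs]
    simp only [ht0, ht1, ht2, ht3]
    ring
  have hint : Integrable (fun z => 4 * Λ ^ 2 * (r ^ 2 * t0 z + t1 z + t2 z + t3 z)) (gam3 I J) :=
    ((((i0.const_mul (r ^ 2)).add i1).add i2).add i3).const_mul _
  have hle : ∫ z, G (z.1, σ • z.2.1, z.2.2) ∂(gam3 I J) ≤
      ∫ z, 4 * Λ ^ 2 * (r ^ 2 * t0 z + t1 z + t2 z + t3 z) ∂(gam3 I J) := by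
    apply integral_mono_of_nonneg
    · exact Filter.Eventually.of_forall fun z => sq_nonneg _
    · exact hint
    · exact Filter.Eventually.of_forall hpt
  refine hle.trans ?_
  have k0 : Integrable (fun z => r ^ 2 * t0 z) (gam3 I J) := i0.const_mul _
  have k1 : Integrable (fun z => r ^ 2 * t0 z + t1 z) (gam3 I J) := k0.add i1
  have k2 : Integrable (fun z => r ^ 2 * t0 z + t1 z + t2 z) (gam3 I J) := k1.add i2
  rw [integral_const_mul, integral_add k2 i3, integral_add k1 i2, integral_add k0 i1,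
    integral_const_mul]
  apply mul_le_mul_of_nonneg_left _ (by positivity)
  have hb0 := mul_le_mul_of_nonneg_left b0 (sq_nonneg r)
  calc r ^ 2 * ∫ z, t0 z ∂(gam3 I J) + ∫ z, t1 z ∂(gam3 I J) + ∫ z, t2 z ∂(gam3 I J) +
        ∫ z, t3 z ∂(gam3 I J)
      ≤ r ^ 2 * (2 * σ ^ 2 * (C4 * b ^ 2 * Fintype.card J)) +
        2 * σ ^ 2 * (ℓ ^ 2 * b * Fintype.card J) + κ * (ε ^ 2 * Fintype.card J) +
        t * (b * Fintype.card J) :=
        add_le_add (add_le_add (add_le_add hb0 b1) b2) b3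
    _ = _ := by ring

end

section

/-- arithmetic: correlation bracket -/
theorem gain_arith1 (C4 CD C₂ r t ℓ ε b s σ : ℝ) (hb : 0 < b) (hr : 0 < r) (hs : 0 < s)
    (hC2 : C₂ = 64 + 48 * |CD| + (8 * |C4| + 8) + 5) (hσs : σ ^ 2 = s ^ 2 + s ^ 2)
    (h1 : C₂ * ℓ ^ 2 ≤ r ^ 2 * b) (h2 : ε ^ 2 ≤ t) (h3 : C₂ * σ ^ 2 * b ≤ 1)
    (h4 : C₂ * t ≤ r ^ 2 * s ^ 2 * b) :
    r * s * b / 4 ≤ r * s * (b - ((8 * |C4| + 8) * b)⁻¹ * (C4 * b ^ 2) - b / 8 -
      6 * σ ^ 2 * (CD * b ^ 2)) -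
        s * (r * b / 16 + 4 * ℓ ^ 2 / r) - (r * s * b / 16 + 4 * ε ^ 2 / (r * s)) := by
  have hC40 := abs_nonneg C4
  have hCD0 := abs_nonneg CD
  have e1 : ((8 * |C4| + 8) * b)⁻¹ * (C4 * b ^ 2) ≤ b / 8 := by
    rw [inv_mul_le_iff₀ (by positivity)]
    have := le_abs_self C4
    nlinarith [sq_nonneg b, mul_pos hb hb]
  have hσb : 0 ≤ σ ^ 2 * b := by positivity
  have e2 : 6 * σ ^ 2 * (CD * b ^ 2) ≤ b / 8 := by
    have k1 : CD * (σ ^ 2 * b) ≤ |CD| * (σ ^ 2 * b) :=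
      mul_le_mul_of_nonneg_right (le_abs_self CD) hσb
    have k2 : 48 * |CD| * (σ ^ 2 * b) ≤ 1 := by
      have : C₂ * (σ ^ 2 * b) ≤ 1 := by linarith
      rw [hC2] at this
      nlinarith [mul_nonneg hC40 hσb]
    have k3 : 48 * (CD * (σ ^ 2 * b)) ≤ 1 := by linarith
    have k4 : 48 * (CD * (σ ^ 2 * b)) * b ≤ 1 * b := mul_le_mul_of_nonneg_right k3 hb.le
    nlinarith
  have hℓ : 64 * ℓ ^ 2 ≤ r ^ 2 * b := by
    refine le_trans ?_ h1
    apply mul_le_mul_of_nonneg_right _ (sq_nonneg ℓ)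
    rw [hC2]; linarith
  have ht0 : 0 ≤ t := le_trans (sq_nonneg ε) h2
  have ht : 64 * t ≤ r ^ 2 * s ^ 2 * b := by
    refine le_trans ?_ h4
    apply mul_le_mul_of_nonneg_right _ ht0
    rw [hC2]; linarith
  have e3 : 4 * ℓ ^ 2 / r ≤ r * b / 16 := by
    rw [div_le_iff₀ hr]; nlinarith
  have hrs : 0 < r * s := mul_pos hr hs
  have e4 : 4 * ε ^ 2 / (r * s) ≤ r * s * b / 16 := by
    rw [div_le_iff₀ hrs]; nlinarith
  have e5 : r * s * (b - b / 8 - b / 8 - b / 8) ≤ r * s * (b - ((8 * |C4| + 8) * b)⁻¹ *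
      (C4 * b ^ 2) - b / 8 - 6 * σ ^ 2 * (CD * b ^ 2)) := by
    apply mul_le_mul_of_nonneg_left _ hrs.le
    linarith
  have e6 : s * (r * b / 16 + 4 * ℓ ^ 2 / r) ≤ s * (r * b / 16 + r * b / 16) := by
    apply mul_le_mul_of_nonneg_left _ hs.le
    linarith
  have hrsb : 0 < r * s * b := mul_pos hrs hb
  nlinarith

/-- arithmetic: second moment -/
theorem gain_arith2 (C4 CD C₂ r t ℓ ε b s σ : ℝ) (hb : 0 < b) (hr : 0 < r) (hs : 0 < s)
    (hC2 : C₂ = 64 + 48 * |CD| + (8 * |C4| + 8) + 5) (hσs : σ ^ 2 = s ^ 2 + s ^ 2)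
    (h1 : C₂ * ℓ ^ 2 ≤ r ^ 2 * b) (h2 : ε ^ 2 ≤ t) 
    (h4 : C₂ * t ≤ r ^ 2 * s ^ 2 * b) :
    r ^ 2 * (2 * σ ^ 2 * (C4 * b ^ 2)) + 2 * σ ^ 2 * (ℓ ^ 2 * b) + ((8 * |C4| + 8) * b) * ε ^ 2 +
        t * b ≤ (4 * |C4| + 1) * (r * s * b) ^ 2 := by
  have hC40 := abs_nonneg C4
  have hCD0 := abs_nonneg CD
  have hC2pos : 0 < C₂ := by rw [hC2]; positivity
  set X := (r * s * b) ^ 2 with hX
  have hX0 : 0 ≤ X := sq_nonneg _
  have ht0 : 0 ≤ t := le_trans (sq_nonneg ε) h2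
  rw [hσs]
  have a1 : r ^ 2 * (2 * (s ^ 2 + s ^ 2) * (C4 * b ^ 2)) = 4 * C4 * X := by rw [hX]; ring
  have a1' : 4 * C4 * X ≤ 4 * |C4| * X := by
    apply mul_le_mul_of_nonneg_right _ hX0
    linarith [le_abs_self C4]
  have a2 : C₂ * (2 * (s ^ 2 + s ^ 2) * (ℓ ^ 2 * b)) ≤ 4 * X := by
    have : 4 * s ^ 2 * b * (C₂ * ℓ ^ 2) ≤ 4 * s ^ 2 * b * (r ^ 2 * b) :=
      mul_le_mul_of_nonneg_left h1 (by positivity)
    rw [hX]; nlinarith
  have a3 : C₂ * (((8 * |C4| + 8) * b) * ε ^ 2) ≤ (8 * |C4| + 8) * X := by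
    have k1 : C₂ * ε ^ 2 ≤ C₂ * t := mul_le_mul_of_nonneg_left h2 hC2pos.le
    have k2 : C₂ * ε ^ 2 ≤ r ^ 2 * s ^ 2 * b := k1.trans h4
    have : ((8 * |C4| + 8) * b) * (C₂ * ε ^ 2) ≤ ((8 * |C4| + 8) * b) * (r ^ 2 * s ^ 2 * b) :=
      mul_le_mul_of_nonneg_left k2 (by positivity)
    rw [hX]; nlinarith
  have a4 : C₂ * (t * b) ≤ X := by
    have : (C₂ * t) * b ≤ (r ^ 2 * s ^ 2 * b) * b := mul_le_mul_of_nonneg_right h4 hb.le
    rw [hX]; nlinarith
  have hsum : C₂ * (2 * (s ^ 2 + s ^ 2) * (ℓ ^ 2 * b) + ((8 * |C4| + 8) * b) * ε ^ 2 + t * b) ≤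
      C₂ * X := by
    have : C₂ * (2 * (s ^ 2 + s ^ 2) * (ℓ ^ 2 * b) + ((8 * |C4| + 8) * b) * ε ^ 2 + t * b) ≤
        (4 + (8 * |C4| + 8) + 1) * X := by nlinarith
    refine this.trans ?_
    apply mul_le_mul_of_nonneg_right _ hX0
    rw [hC2]; linarith
  have := le_of_mul_le_mul_left hsum hC2pos
  rw [a1]
  nlinarith

/-- the gain of one scale -/
theorem gain_step (C4 CD : ℝ) : ∃ c₁ : ℝ, 0 < c₁ ∧ ∃ C₂ : ℝ, 0 < C₂ ∧
    ∀ (I J : Type) [Fintype I] [Fintype J] [DecidableEq I] [DecidableEq J]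
      (F f₁ f₂ : EuclideanSpace ℝ I → EuclideanSpace ℝ J) (K r t ℓ ε b : ℝ),
      Dat F f₁ f₂ C4 CD K r t ℓ ε b → 0 < Fintype.card J → C₂ * ℓ ^ 2 ≤ r ^ 2 * b → ε ^ 2 ≤ t →
      ∀ (a a' s σ : ℝ), 0 ≤ a → 0 < s → 0 ≤ σ → a ^ 2 + σ ^ 2 = 1 → σ ^ 2 = s ^ 2 + s ^ 2 →
      a' ^ 2 = a ^ 2 + s ^ 2 → C₂ * σ ^ 2 * b ≤ 1 → C₂ * t ≤ r ^ 2 * s ^ 2 * b →
      c₁ * Fintype.card J + 2 * Phi (fun x => r • F x + f₁ x + f₂ x) t a σ ≤
        2 * Phi (fun x => r • F x + f₁ x + f₂ x) t a' s := by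
  have hC40 := abs_nonneg C4
  have hCD0 := abs_nonneg CD
  refine ⟨1 / (16 * (4 * (4 * |C4| + 1))), by positivity,
    64 + 48 * |CD| + (8 * |C4| + 8) + 5, by positivity, ?_⟩
  intro I J _ _ _ _ F f₁ f₂ K r t ℓ ε b D hJ h1 h2 a a' s σ ha hs hσ haσ hσs ha' h3 h4
  have hb := D.b0
  have hr := D.r0
  set C5 : ℝ := 4 * (4 * |C4| + 1) with hC5
  have hC5pos : 0 < C5 := by positivity
  set κ : ℝ := (8 * |C4| + 8) * b with hκd
  have hκ : 0 < κ := by positivity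
  set Λ : ℝ := 1 / (4 * C5 * (r * s * b)) with hΛd
  have hrsb : 0 < r * s * b := by positivity
  have hΛ : 0 ≤ Λ := by positivity
  have hu : Λ * (r * s * b) = 1 / (4 * C5) := by
    rw [hΛd]; field_simp
  set f : EuclideanSpace ℝ I → EuclideanSpace ℝ J := fun x => r • F x + f₁ x + f₂ x with hf
  have hfc : Continuous f :=
    ((D.F2.continuous.const_smul r).add D.f11.continuous).add D.f2c
  have hfB : ∀ x, ‖f x‖ ≤ r * K + K + ε * √(Fintype.card J) := by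
    intro x
    calc ‖f x‖ ≤ ‖r • F x + f₁ x‖ + ‖f₂ x‖ := norm_add_le _ _
      _ ≤ ‖r • F x‖ + ‖f₁ x‖ + ‖f₂ x‖ := by gcongr; exact norm_add_le _ _
      _ ≤ r * K + K + ε * √(Fintype.card J) := by
          rw [norm_smul, Real.norm_of_nonneg hr.le]
          gcongr
          · exact D.FK x
          · exact D.f1K x
          · exact D.f2e x
  obtain ⟨hQm, C, hQC⟩ := QQ_meas F f D.F2 hfc _ hfB Λ κ a σ hκ
  obtain ⟨i1, i2, _, _⟩ := z_int f hfc _ hfB t a s s σ D.t0 (QQ F f Λ κ a σ) hQm C hQC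
  have hz := z_step f hfc _ hfB t a s s σ a' D.t0 hσs ha' (QQ F f Λ κ a σ) hQm C hQC
  have hcorr := QQ_corr2 F f₁ f₂ C4 CD K r t ℓ ε b D Λ κ a s s σ hκ ha hσ hσs haσ hs hΛ
  have hsq := QQ_sq F f₁ f₂ C4 CD K r t ℓ ε b D Λ κ a s s σ hκ hσs haσ
  rw [← hf] at hcorr hsq
  have hsplit : ∫ w, (2 * ⟪w.2.1, QQ F f Λ κ a σ (w.1, zob f t a s s w)⟫ -
      ‖QQ F f Λ κ a σ (w.1, zob f t a s s w)‖ ^ 2) ∂(gam4 I J) =
      2 * ∫ w, ⟪w.2.1, QQ F f Λ κ a σ (w.1, zob f t a s s w)⟫ ∂(gam4 I J) -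
      ∫ w, ‖QQ F f Λ κ a σ (w.1, zob f t a s s w)‖ ^ 2 ∂(gam4 I J) := by
    rw [integral_sub (i1.const_mul 2) i2, integral_const_mul]
  rw [hsplit] at hz
  have hJ' : (0:ℝ) < Fintype.card J := by exact_mod_cast hJ
  have b1 := gain_arith1 C4 CD _ r t ℓ ε b s σ hb hr hs rfl hσs h1 h2 h3 h4
  have b2 := gain_arith2 C4 CD _ r t ℓ ε b s σ hb hr hs rfl hσs h1 h2 h4
  rw [← hκd] at b1 b2
  have d1 : 1 / (16 * C5) * Fintype.card J ≤
      ∫ w, ⟪w.2.1, QQ F f Λ κ a σ (w.1, zob f t a s s w)⟫ ∂(gam4 I J) := by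
    refine le_trans ?_ hcorr
    have : Λ * (r * s * b / 4 * Fintype.card J) ≤ _ :=
      mul_le_mul_of_nonneg_left (mul_le_mul_of_nonneg_right b1 hJ'.le) hΛ
    refine le_trans (le_of_eq ?_) this
    have : Λ * (r * s * b / 4 * Fintype.card J) = (Λ * (r * s * b)) / 4 * Fintype.card J := by ring
    rw [this, hu]
    field_simp
    norm_num
  have d2 : ∫ w, ‖QQ F f Λ κ a σ (w.1, zob f t a s s w)‖ ^ 2 ∂(gam4 I J) ≤
      1 / (16 * C5) * Fintype.card J := by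
    refine le_trans hsq ?_
    have : 4 * Λ ^ 2 * ((r ^ 2 * (2 * σ ^ 2 * (C4 * b ^ 2)) + 2 * σ ^ 2 * (ℓ ^ 2 * b) + κ * ε ^ 2 +
        t * b) * Fintype.card J) ≤ 4 * Λ ^ 2 * (((4 * |C4| + 1) * (r * s * b) ^ 2) *
        Fintype.card J) :=
      mul_le_mul_of_nonneg_left (mul_le_mul_of_nonneg_right b2 hJ'.le) (by positivity)
    refine le_trans this (le_of_eq ?_)
    have e : 4 * Λ ^ 2 * (((4 * |C4| + 1) * (r * s * b) ^ 2) * Fintype.card J) =
        C5 * (Λ * (r * s * b)) ^ 2 * Fintype.card J := by rw [hC5]; ring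
    rw [e, hu]
    field_simp
    norm_num
  have e16 : 2 * (1 / (16 * C5) * Fintype.card J) - 1 / (16 * C5) * Fintype.card J =
    1 / (16 * C5) * (Fintype.card J : ℝ) := by ring
  linarith

end

section

/-- the gain over all dyadic scales -/
theorem gain_all (C4 CD : ℝ) : ∃ c₁ : ℝ, 0 < c₁ ∧ ∃ C₂ : ℝ, 0 < C₂ ∧
    ∀ (I J : Type) [Fintype I] [Fintype J] [DecidableEq I] [DecidableEq J]
      (F f₁ f₂ : EuclideanSpace ℝ I → EuclideanSpace ℝ J) (K r t ℓ ε b : ℝ),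
      Dat F f₁ f₂ C4 CD K r t ℓ ε b → 0 < Fintype.card J → t ≤ 1 → C₂ * ℓ ^ 2 ≤ r ^ 2 * b →
      ε ^ 2 ≤ t → ∀ (i₀ i₁ : ℕ), i₀ ≤ i₁ → C₂ * t * b ≤ 2 ^ i₀ → C₂ * 2 ^ i₁ ≤ r ^ 2 * b →
      Phi (fun x => r • F x + f₁ x + f₂ x) t (1 / √(1 + t)) √(t / (1 + t)) ≤
        -((Fintype.card J : ℝ) / 2) * (Real.log (2 * Real.pi * t) + 1) -
          (c₁ * Fintype.card J * ((i₁ : ℝ) - i₀)) / 2 := by
  obtain ⟨c₁, hc₁, C₂', hC₂', hstep⟩ := gain_step C4 CD
  refine ⟨c₁, hc₁, 2 * C₂', by positivity, ?_⟩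
  intro I J _ _ _ _ F f₁ f₂ K r t ℓ ε b hD hJ ht1 hℓ hε i₀ i₁ hi h1 h2
  have ht := hD.t0
  have hb := hD.b0
  have hr := hD.r0
  set f : EuclideanSpace ℝ I → EuclideanSpace ℝ J := fun x => r • F x + f₁ x + f₂ x with hf
  have hfc : Continuous f := by
    have a1 := hD.F2.continuous
    have a2 := hD.f11.continuous
    have a3 := hD.f2c
    exact ((a1.const_smul r).add a2).add a3
  have hfb : ∀ x, ‖f x‖ ≤ r * K + K + ε * √(Fintype.card J) := by
    intro x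
    have a1 := hD.FK x
    have a2 := hD.f1K x
    have a3 := hD.f2e x
    calc ‖f x‖ ≤ ‖r • F x + f₁ x‖ + ‖f₂ x‖ := norm_add_le _ _
      _ ≤ ‖r • F x‖ + ‖f₁ x‖ + ‖f₂ x‖ := by
        have := norm_add_le (r • F x) (f₁ x)
        linarith
      _ ≤ r * K + K + ε * √(Fintype.card J) := by
        rw [norm_smul, Real.norm_eq_abs, abs_of_pos hr]
        have := mul_le_mul_of_nonneg_left a1 hr.le
        linarith
  -- the scales
  have hv0 : ∀ i : ℕ, 0 < t / (1 + t) / 2 ^ i := fun i => by positivity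
  have hvt : t / (1 + t) < 1 := by rw [div_lt_one (by linarith)]; linarith
  have hvle : ∀ i : ℕ, t / (1 + t) / 2 ^ i ≤ t / (1 + t) := fun i =>
    div_le_self (by positivity) (one_le_pow₀ (by norm_num))
  have hv1 : ∀ i : ℕ, 0 ≤ 1 - t / (1 + t) / 2 ^ i := fun i => by
    have := hvle i
    linarith
  have hvs : ∀ i : ℕ, t / (1 + t) / 2 ^ i = t / (1 + t) / 2 ^ (i + 1) + t / (1 + t) / 2 ^ (i + 1) := by
    intro i
    rw [pow_succ]
    field_simp
    norm_num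
  have hσ : ∀ i : ℕ, (√(t / (1 + t) / 2 ^ i)) ^ 2 = t / (1 + t) / 2 ^ i := fun i =>
    Real.sq_sqrt (hv0 i).le
  have ha : ∀ i : ℕ, (√(1 - t / (1 + t) / 2 ^ i)) ^ 2 = 1 - t / (1 + t) / 2 ^ i := fun i =>
    Real.sq_sqrt (hv1 i)
  have key : ∀ i : ℕ, i₀ ≤ i → i < i₁ →
      c₁ * Fintype.card J + 2 * Phi f t (√(1 - t / (1 + t) / 2 ^ i)) (√(t / (1 + t) / 2 ^ i)) ≤
      2 * Phi f t (√(1 - t / (1 + t) / 2 ^ (i + 1))) (√(t / (1 + t) / 2 ^ (i + 1))) := by
    intro i hi0 hi1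
    apply hstep I J F f₁ f₂ K r t ℓ ε b hD hJ
    · have : 0 ≤ C₂' * ℓ ^ 2 := by positivity
      linarith
    · exact hε
    · exact Real.sqrt_nonneg _
    · exact Real.sqrt_pos.2 (hv0 (i + 1))
    · exact Real.sqrt_nonneg _
    · rw [ha, hσ]; ring
    · rw [hσ, hσ]; exact hvs i
    · rw [ha, ha, hσ]
      have := hvs i
      linarith
    · rw [hσ]
      have e1 : t / (1 + t) / 2 ^ i ≤ t / 2 ^ i := by
        apply div_le_div_of_nonneg_right _ (by positivity)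
        exact div_le_self ht.le (by linarith)
      have e2 : (2 : ℝ) ^ i₀ ≤ 2 ^ i := pow_le_pow_right₀ (by norm_num) hi0
      have e3 : C₂' * t * b ≤ 2 ^ i := by
        have : 0 < C₂' * t * b := by positivity
        linarith
      calc C₂' * (t / (1 + t) / 2 ^ i) * b ≤ C₂' * (t / 2 ^ i) * b := by gcongr
        _ = (C₂' * t * b) / 2 ^ i := by ring
        _ ≤ 1 := by rw [div_le_one (by positivity)]; exact e3
    · rw [hσ]
      have e1 : t / 2 ≤ t / (1 + t) := by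
        apply div_le_div_of_nonneg_left ht.le (by linarith) (by linarith)
      have e2 : (2 : ℝ) ^ (i + 1) ≤ 2 ^ i₁ := pow_le_pow_right₀ (by norm_num) (by omega)
      have e3 : t / 2 / 2 ^ i₁ ≤ t / (1 + t) / 2 ^ (i + 1) := by
        apply div_le_div₀ (by positivity) e1 (by positivity) e2
      calc C₂' * t = (2 * C₂' * 2 ^ i₁) * (t / 2 / 2 ^ i₁) := by
            field_simp
        _ ≤ (r ^ 2 * b) * (t / 2 / 2 ^ i₁) := by gcongr
        _ ≤ (r ^ 2 * b) * (t / (1 + t) / 2 ^ (i + 1)) := by gcongr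
        _ = r ^ 2 * (t / (1 + t) / 2 ^ (i + 1)) * b := by ring
  have tele : ∀ k : ℕ, i₀ + k ≤ i₁ →
      c₁ * Fintype.card J * k +
        2 * Phi f t (√(1 - t / (1 + t) / 2 ^ i₀)) (√(t / (1 + t) / 2 ^ i₀)) ≤
      2 * Phi f t (√(1 - t / (1 + t) / 2 ^ (i₀ + k))) (√(t / (1 + t) / 2 ^ (i₀ + k))) := by
    intro k
    induction k with
    | zero => intro _; simp
    | succ k ih =>
      intro hk
      have h3 := ih (by omega)
      have h4 := key (i₀ + k) (by omega) (by omega)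
      rw [add_assoc] at h4
      push_cast
      linarith
  have hT := tele (i₁ - i₀) (by omega)
  have e5 : i₀ + (i₁ - i₀) = i₁ := by omega
  rw [e5, Nat.cast_sub hi] at hT
  have hstart : Phi f t (1 / √(1 + t)) √(t / (1 + t)) ≤
      Phi f t (√(1 - t / (1 + t) / 2 ^ i₀)) (√(t / (1 + t) / 2 ^ i₀)) := by
    apply Phi_mono f hfc _ hfb t _ _ _ _ ht (Real.sqrt_nonneg _)
    · exact Real.sqrt_le_sqrt (hvle i₀)
    · rw [div_pow, Real.sq_sqrt (by linarith), Real.sq_sqrt (by positivity)]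
      field_simp
    · rw [ha, hσ]; ring
  have hend : Phi f t (√(1 - t / (1 + t) / 2 ^ i₁)) (√(t / (1 + t) / 2 ^ i₁)) ≤ Phi f t 1 0 := by
    apply Phi_mono f hfc _ hfb t _ _ _ _ ht le_rfl (Real.sqrt_nonneg _)
    · rw [ha, hσ]; ring
    · norm_num
  rw [Phi_zero f hfc t ht] at hend
  linarith

end

section

/-- MODULE ABC (classical Gaussian part), final statement. -/
theorem classical_main (C4 CD : ℝ) : ∃ c₁ : ℝ, 0 < c₁ ∧ ∃ C₂ : ℝ, 0 < C₂ ∧
    ∀ (I J : Type) [Fintype I] [Fintype J] [DecidableEq I] [DecidableEq J]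
      (F f₁ f₂ : EuclideanSpace ℝ I → EuclideanSpace ℝ J) (K r t ℓ ε S b : ℝ),
      ContDiff ℝ 2 F → (∀ x, ‖F x‖ ≤ K) → (∀ x, ‖fderiv ℝ F x‖ ≤ K) →
      (∀ x, ‖fderiv ℝ (fderiv ℝ F) x‖ ≤ K) →
      ContDiff ℝ 1 f₁ → (∀ x, ‖f₁ x‖ ≤ K) → (∀ x, ‖fderiv ℝ f₁ x‖ ≤ ℓ) →
      Continuous f₂ → (∀ x, ‖f₂ x‖ ≤ ε * √(Fintype.card J)) →
      0 ≤ S → (∀ x, ‖r • F x + f₁ x + f₂ x‖ ≤ S * √(Fintype.card J)) →
      0 < b → ∫ x, hs (fderiv ℝ F x) ∂(stdGaussian (EuclideanSpace ℝ I)) = b * Fintype.card J →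
      ∫ x, hs4 (fderiv ℝ F x) ∂(stdGaussian (EuclideanSpace ℝ I)) ≤ C4 * b ^ 2 * Fintype.card J →
      ∫ x, hs2 (fderiv ℝ (fderiv ℝ F) x) ∂(stdGaussian (EuclideanSpace ℝ I)) ≤
        CD * b ^ 2 * Fintype.card J →
      0 < t → t ≤ 1 → 0 < r → 0 ≤ ℓ → C₂ * ℓ ^ 2 ≤ r ^ 2 * b → 0 ≤ ε → ε ^ 2 ≤ t →
      Fintype.card I = 3 * Fintype.card J → 0 < Fintype.card J →
      ∀ (i₀ i₁ : ℕ), i₀ ≤ i₁ → C₂ * t * b ≤ 2 ^ i₀ → C₂ * 2 ^ i₁ ≤ r ^ 2 * b →
      ∀ (n : ℕ) (u : ℕ → ℝ), u 0 = t → StrictMono u → u n ≤ 1 →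
      ∀ (P : ℕ → EuclideanSpace ℝ I × EuclideanSpace ℝ J →
          EuclideanSpace ℝ I × EuclideanSpace ℝ J),
        (∀ j, Measurable (P j)) → (∀ j, ∃ C, ∀ y, ‖P j y‖ ≤ C) →
      ∑ j ∈ Finset.range n, (u (j + 1) - u j) / u (j + 1) *
        ∫ z, (2 * (⟪z.2.1, (P j (obs (fun x => r • F x + f₁ x + f₂ x) (u (j + 1)) z)).1⟫ +
              ⟪z.2.2, (P j (obs (fun x => r • F x + f₁ x + f₂ x) (u (j + 1)) z)).2⟫) -
            ‖(P j (obs (fun x => r • F x + f₁ x + f₂ x) (u (j + 1)) z)).1‖ ^ 2 -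
            ‖(P j (obs (fun x => r • F x + f₁ x + f₂ x) (u (j + 1)) z)).2‖ ^ 2) ∂(gam3 I J)
        ≤ Fintype.card J * (4 * Real.log (2 + S ^ 2) + Real.log (1 / t) -
            c₁ * ((i₁ : ℝ) - i₀)) := by
  obtain ⟨c₁, hc₁, C₂, hC₂, hall⟩ := gain_all C4 CD
  refine ⟨c₁, hc₁, C₂, hC₂, ?_⟩
  intro I J _ _ _ _ F f₁ f₂ K r t ℓ ε S b hF hFK hF1 hF2 hf1 hf1K hf1l hf2 hf2e hS0 hS hb hhb hh4
    hhD ht ht1 hr hl hlb he het hIJ hJ i₀ i₁ hi h1 h2 n u hu0 hu hun P hP hPb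
  have hD : Dat F f₁ f₂ C4 CD K r t ℓ ε b :=
    ⟨hF, hFK, hF1, hF2, hf1, hf1K, hf1l, hf2, hf2e, hb, hhb, hh4, hhD, ht, hr, hl, he⟩
  have hG := hall I J F f₁ f₂ K r t ℓ ε b hD hJ ht1 hlb het i₀ i₁ hi h1 h2
  have hcont : Continuous (fun x => r • F x + f₁ x + f₂ x) :=
    ((hF.continuous.const_smul r).add hf1.continuous).add hf2
  have h3 := chain_bound (fun x => r • F x + f₁ x + f₂ x) hcont S hS0 hS t ht ht1 hIJ
    (c₁ * Fintype.card J * ((i₁ : ℝ) - i₀)) hG n u hu0 hu hun P hP hPb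
  refine h3.trans (le_of_eq ?_)
  ring

end

end Pool.Agent.Helper38.FE
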