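import Pool.Agent.Helper38.FE.GueB

/-! MODULE D: GUE matrices converge to the Fock system. -/

set_option autoImplicit false
set_option linter.unusedVariables false
set_option linter.unusedSectionVars false

open MeasureTheory Filter Topology ProbabilityTheory
open scoped InnerProductSpace ENNReal

namespace Pool.Agent.Helper38.FE

variable {ι : Type} [Fintype ι] [DecidableEq ι]

section

/-- evaluation of a formal combination of words -/
noncomputable def lp_ev {A : Type} [Ring A] [Algebra ℂ A] (x : ι → A) (P : List (ℂ × List ι)) : A :=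
  (P.map fun c => c.1 • Wp x c.2).sum

noncomputable def lp_mul (P Q : List (ℂ × List ι)) : List (ℂ × List ι) :=
  P.flatMap fun c => Q.map fun d => (c.1 * d.1, c.2 ++ d.2)

noncomputable def lp_smul (a : ℂ) (P : List (ℂ × List ι)) : List (ℂ × List ι) :=
  P.map fun c => (a * c.1, c.2)

noncomputable def lp_star (P : List (ℂ × List ι)) : List (ℂ × List ι) :=
  P.map fun c => (star c.1, c.2.reverse)

noncomputable def lp_pow (P : List (ℂ × List ι)) : ℕ → List (ℂ × List ι)
  | 0 => [(1, [])]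
  | n + 1 => lp_mul (lp_pow P n) P

noncomputable def lp_poly (q : Polynomial ℂ) (P : List (ℂ × List ι)) : ℕ → List (ℂ × List ι)
  | 0 => []
  | n + 1 => lp_poly q P n ++ lp_smul (q.coeff n) (lp_pow P n)

theorem lp_ev_nil {A : Type} [Ring A] [Algebra ℂ A] (x : ι → A) :
    lp_ev x ([] : List (ℂ × List ι)) = 0 := rfl

theorem lp_ev_cons {A : Type} [Ring A] [Algebra ℂ A] (x : ι → A) (c : ℂ × List ι)
    (P : List (ℂ × List ι)) : lp_ev x (c :: P) = c.1 • Wp x c.2 + lp_ev x P := by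
  simp only [lp_ev, List.map_cons, List.sum_cons]

theorem lp_ev_append {A : Type} [Ring A] [Algebra ℂ A] (x : ι → A) (P Q : List (ℂ × List ι)) :
    lp_ev x (P ++ Q) = lp_ev x P + lp_ev x Q := by
  simp only [lp_ev, List.map_append, List.sum_append]

theorem lp_Wp_append {A : Type} [Ring A] (x : ι → A) (a b : List ι) :
    Wp x (a ++ b) = Wp x a * Wp x b := by
  simp only [Wp, List.map_append, List.prod_append]

theorem lp_ev_one {A : Type} [Ring A] [Algebra ℂ A] (x : ι → A) :
    lp_ev x ([(1, [])] : List (ℂ × List ι)) = 1 := by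
  rw [lp_ev_cons, lp_ev_nil, add_zero, one_smul]
  rfl

theorem lp_ev_smul {A : Type} [Ring A] [Algebra ℂ A] (x : ι → A) (a : ℂ)
    (P : List (ℂ × List ι)) : lp_ev x (lp_smul a P) = a • lp_ev x P := by
  induction P with
  | nil => simp only [lp_smul, List.map_nil, lp_ev_nil, smul_zero]
  | cons c P ih =>
    have h : lp_smul a (c :: P) = (a * c.1, c.2) :: lp_smul a P := rfl
    rw [h, lp_ev_cons, lp_ev_cons, ih, smul_add, smul_smul]

theorem lp_ev_mul_aux {A : Type} [Ring A] [Algebra ℂ A] (x : ι → A) (c : ℂ × List ι)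
    (Q : List (ℂ × List ι)) :
    lp_ev x (Q.map fun d => (c.1 * d.1, c.2 ++ d.2)) = (c.1 • Wp x c.2) * lp_ev x Q := by
  induction Q with
  | nil => simp only [List.map_nil, lp_ev_nil, mul_zero]
  | cons d Q ih =>
    rw [List.map_cons, lp_ev_cons, lp_ev_cons, ih, mul_add, lp_Wp_append, smul_mul_smul_comm]

theorem lp_ev_mul {A : Type} [Ring A] [Algebra ℂ A] (x : ι → A) (P Q : List (ℂ × List ι)) :
    lp_ev x (lp_mul P Q) = lp_ev x P * lp_ev x Q := by
  induction P with
  | nil => simp only [lp_mul, List.flatMap_nil, lp_ev_nil, zero_mul]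
  | cons c P ih =>
    have h : lp_mul (c :: P) Q = (Q.map fun d => (c.1 * d.1, c.2 ++ d.2)) ++ lp_mul P Q := rfl
    rw [h, lp_ev_append, ih, lp_ev_mul_aux, lp_ev_cons, add_mul]

theorem lp_Wp_star {A : Type} [Ring A] [StarRing A] (x : ι → A) (hx : ∀ i, IsSelfAdjoint (x i))
    (a : List ι) : star (Wp x a) = Wp x a.reverse := by
  induction a with
  | nil => simp only [Wp, List.map_nil, List.prod_nil, star_one, List.reverse_nil]
  | cons i a ih =>
    have h : Wp x (i :: a) = x i * Wp x a := by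
      simp only [Wp, List.map_cons, List.prod_cons]
    have h1 : Wp x [i] = x i := by
      simp only [Wp, List.map_cons, List.map_nil, List.prod_cons, List.prod_nil, mul_one]
    rw [h, star_mul, ih, List.reverse_cons, lp_Wp_append, h1, (hx i).star_eq]

theorem lp_ev_star {A : Type} [Ring A] [StarRing A] [Algebra ℂ A] [StarModule ℂ A] (x : ι → A)
    (hx : ∀ i, IsSelfAdjoint (x i)) (P : List (ℂ × List ι)) :
    lp_ev x (lp_star P) = star (lp_ev x P) := by
  induction P with
  | nil => simp only [lp_star, List.map_nil, lp_ev_nil, star_zero]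
  | cons c P ih =>
    have h : lp_star (c :: P) = (star c.1, c.2.reverse) :: lp_star P := rfl
    rw [h, lp_ev_cons, lp_ev_cons, ih, star_add, star_smul, lp_Wp_star x hx]

theorem lp_ev_pow {A : Type} [Ring A] [Algebra ℂ A] (x : ι → A) (P : List (ℂ × List ι)) (n : ℕ) :
    lp_ev x (lp_pow P n) = lp_ev x P ^ n := by
  induction n with
  | zero => rw [pow_zero]; exact lp_ev_one x
  | succ n ih => rw [pow_succ, lp_pow, lp_ev_mul, ih]

theorem lp_ev_poly {A : Type} [Ring A] [Algebra ℂ A] (x : ι → A) (q : Polynomial ℂ)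
    (P : List (ℂ × List ι)) (n : ℕ) :
    lp_ev x (lp_poly q P n) = ∑ i ∈ Finset.range n, q.coeff i • lp_ev x P ^ i := by
  induction n with
  | zero => rw [Finset.sum_range_zero]; rfl
  | succ n ih => rw [Finset.sum_range_succ, lp_poly, lp_ev_append, ih, lp_ev_smul, lp_ev_pow]

theorem lp_ev_lin {A : Type} [Ring A] [Algebra ℂ A] (x : ι → A) (f : ι → ℂ) :
    lp_ev x ((Finset.univ : Finset ι).toList.map fun i => (f i, [i])) = ∑ i, f i • x i := by
  rw [← Finset.sum_map_toList, lp_ev, List.map_map]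
  congr 1
  refine List.map_congr_left (fun i _ => ?_)
  simp only [Function.comp_apply, Wp, List.map_cons, List.map_nil, List.prod_cons, List.prod_nil,
    mul_one]

/-- polynomial words in linear combinations are linear combinations of pure words -/
theorem lin_poly {κ : Type} (c : κ → ι → ℝ) (q : Polynomial ℂ) (w : List (Lt κ)) :
    ∃ P : List (ℂ × List ι),
    ∀ (A : Type) [Ring A] [StarRing A] [Algebra ℂ A] [StarModule ℂ A] (x : ι → A),
      (∀ i, IsSelfAdjoint (x i)) →
      evWq q (fun k => ∑ i, ((c k i : ℝ) : ℂ) • x i) w = (P.map fun c => c.1 • Wp x c.2).sum := by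
  have hL : ∀ k : κ, ∃ P : List (ℂ × List ι), ∀ (A : Type) [Ring A] [StarRing A] [Algebra ℂ A]
      [StarModule ℂ A] (x : ι → A), (∀ i, IsSelfAdjoint (x i)) →
      (∑ i, ((c k i : ℝ) : ℂ) • x i) = lp_ev x P := by
    intro k
    refine ⟨(Finset.univ : Finset ι).toList.map fun i => (((c k i : ℝ) : ℂ), [i]), ?_⟩
    intro A _ _ _ _ x hx
    exact (lp_ev_lin x (fun i => ((c k i : ℝ) : ℂ))).symm
  have hQ : ∀ k : κ, ∃ P : List (ℂ × List ι), ∀ (A : Type) [Ring A] [StarRing A] [Algebra ℂ A]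
      [StarModule ℂ A] (x : ι → A), (∀ i, IsSelfAdjoint (x i)) →
      Polynomial.aeval (∑ i, ((c k i : ℝ) : ℂ) • x i) q = lp_ev x P := by
    intro k
    obtain ⟨P, hP⟩ := hL k
    refine ⟨lp_poly q P (q.natDegree + 1), ?_⟩
    intro A _ _ _ _ x hx
    rw [hP A x hx, lp_ev_poly, Polynomial.aeval_eq_sum_range]
  have hE : ∀ l : Lt κ, ∃ P : List (ℂ × List ι), ∀ (A : Type) [Ring A] [StarRing A] [Algebra ℂ A]
      [StarModule ℂ A] (x : ι → A), (∀ i, IsSelfAdjoint (x i)) →
      evLq q (fun k => ∑ i, ((c k i : ℝ) : ℂ) • x i) l = lp_ev x P := by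
    intro l
    cases l with
    | X k => exact hL k
    | U k => exact hQ k
    | V k =>
      obtain ⟨P, hP⟩ := hQ k
      refine ⟨lp_star P, ?_⟩
      intro A _ _ _ _ x hx
      rw [lp_ev_star x hx, ← hP A x hx]
      rfl
  suffices hW : ∃ P : List (ℂ × List ι), ∀ (A : Type) [Ring A] [StarRing A] [Algebra ℂ A]
      [StarModule ℂ A] (x : ι → A), (∀ i, IsSelfAdjoint (x i)) →
      evWq q (fun k => ∑ i, ((c k i : ℝ) : ℂ) • x i) w = lp_ev x P from hW
  induction w with
  | nil =>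
    refine ⟨[(1, [])], ?_⟩
    intro A _ _ _ _ x hx
    rw [lp_ev_one]
    rfl
  | cons l w ih =>
    obtain ⟨P, hP⟩ := hE l
    obtain ⟨Q, hQ'⟩ := ih
    refine ⟨lp_mul P Q, ?_⟩
    intro A _ _ _ _ x hx
    rw [lp_ev_mul, ← hP A x hx, ← hQ' A x hx]
    simp only [evWq, List.map_cons, List.prod_cons]

end

section

theorem j18661_int (N : ℕ) (w : List ι) :
    Integrable (fun x => tr (Wp (Xm (N + 1) x) w)) (gue ι (N + 1)) := by
  cases w with
  | nil =>
    have h : (fun x : EuclideanSpace ℝ (ι × Fin (N + 1) × Fin (N + 1)) =>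
        tr (Wp (Xm (N + 1) x) ([] : List ι))) = fun _ => (1 : ℂ) := by
      funext x
      have : Wp (Xm (N + 1) x) ([] : List ι) = 1 := by simp [Wp]
      rw [this, (tr_basic (N + 1) (Nat.succ_pos N)).2.2.2.2.1]
    rw [h]
    exact integrable_const _
  | cons i w =>
    have h := (word_PG (ι := ι) (N + 1) (Nat.succ_pos N)).2.1 1 (i :: w)
    simp only [one_mul] at h
    exact (PG_int _ h (i, 0, 0)).1

theorem j18661_tr_zero (N : ℕ) : tr (0 : BN N) = 0 := by
  simp [tr, ent]

theorem j18661_int' (N : ℕ) (P : List (ℂ × List ι)) :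
    Integrable (fun x => tr ((P.map fun c => c.1 • Wp (Xm (N + 1) x) c.2).sum))
      (gue ι (N + 1)) := by
  induction P with
  | nil =>
    have h : (fun x : EuclideanSpace ℝ (ι × Fin (N + 1) × Fin (N + 1)) =>
        tr ((([] : List (ℂ × List ι)).map fun c => c.1 • Wp (Xm (N + 1) x) c.2).sum)) =
        fun _ => (0 : ℂ) := by
      funext x
      simp [j18661_tr_zero]
    rw [h]
    exact integrable_zero _ _ _
  | cons c P ih =>
    have h : (fun x : EuclideanSpace ℝ (ι × Fin (N + 1) × Fin (N + 1)) =>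
        tr (((c :: P).map fun c => c.1 • Wp (Xm (N + 1) x) c.2).sum)) =
        fun x => c.1 * tr (Wp (Xm (N + 1) x) c.2) +
          tr ((P.map fun c => c.1 • Wp (Xm (N + 1) x) c.2).sum) := by
      funext x
      rw [List.map_cons, List.sum_cons, (tr_basic (N + 1) (Nat.succ_pos N)).1,
        (tr_basic (N + 1) (Nat.succ_pos N)).2.1]
    rw [h]
    exact ((j18661_int N c.2).const_mul c.1).add ih

/-- convergence of traces of polynomials -/
theorem P_tendsto {H : Type} [NormedAddCommGroup H] [InnerProductSpace ℂ H] [CompleteSpace H]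
    (S : FS ι H) (P : List (ℂ × List ι)) :
    Tendsto (fun N : ℕ => ∫ x, tr ((P.map fun c => c.1 • Wp (Xm (N + 1) x) c.2).sum)
      ∂(gue ι (N + 1))) atTop (𝓝 (tau S.Ω ((P.map fun c => c.1 • Wp S.s c.2).sum))) := by
  induction P with
  | nil =>
    have h : (fun N : ℕ => ∫ x, tr ((([] : List (ℂ × List ι)).map
        fun c => c.1 • Wp (Xm (N + 1) x) c.2).sum) ∂(gue ι (N + 1))) = fun _ => (0 : ℂ) := by
      funext N
      simp [j18661_tr_zero]
    have h2 : tau S.Ω ((([] : List (ℂ × List ι)).map fun c => c.1 • Wp S.s c.2).sum) = 0 := by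
      simp [tau]
    rw [h, h2]
    exact tendsto_const_nhds
  | cons c P ih =>
    have h : (fun N : ℕ => ∫ x, tr (((c :: P).map fun c => c.1 • Wp (Xm (N + 1) x) c.2).sum)
        ∂(gue ι (N + 1))) = fun N => c.1 * mN (N + 1) [c.2] +
          ∫ x, tr ((P.map fun c => c.1 • Wp (Xm (N + 1) x) c.2).sum) ∂(gue ι (N + 1)) := by
      funext N
      have h1 : mN (N + 1) [c.2] = ∫ x, tr (Wp (Xm (N + 1) x) c.2) ∂(gue ι (N + 1)) := by
        simp [mN]
      rw [h1, ← integral_const_mul, ← integral_add ((j18661_int N c.2).const_mul c.1)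
        (j18661_int' N P)]
      refine integral_congr_ae (Eventually.of_forall fun x => ?_)
      simp only [List.map_cons, List.sum_cons]
      rw [(tr_basic (N + 1) (Nat.succ_pos N)).1, (tr_basic (N + 1) (Nat.succ_pos N)).2.1]
    have h2 : tau S.Ω (((c :: P).map fun c => c.1 • Wp S.s c.2).sum) =
        c.1 * tau S.Ω (Wp S.s c.2) + tau S.Ω ((P.map fun c => c.1 • Wp S.s c.2).sum) := by
      rw [List.map_cons, List.sum_cons]
      simp only [tau, ContinuousLinearMap.add_apply, ContinuousLinearMap.smul_apply,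
        inner_add_right, inner_smul_right]
    rw [h, h2]
    have h3 := mN_tendsto S [c.2]
    simp only [List.map_cons, List.map_nil, List.prod_cons, List.prod_nil, mul_one] at h3
    exact (h3.const_mul c.1).add ih

end

section

theorem pb_int (N : ℕ) (φ : EuclideanSpace ℝ (ι × Fin (N+1) × Fin (N+1)) → ℂ) (h : PG φ) :
    Integrable φ (gue ι (N+1)) := by
  by_cases hι : Nonempty ι
  · obtain ⟨i⟩ := hι
    exact (PG_int φ h (i, 0, 0)).1
  · rw [not_nonempty_iff] at hι
    have : φ = fun _ => φ 0 := by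
      funext x
      congr 1
      ext k
      exact hι.elim k.1
    rw [this]
    exact integrable_const _

theorem pb_star (N : ℕ) (x : EuclideanSpace ℝ (ι × Fin (N+1) × Fin (N+1))) (v : List ι) :
    star (Wp (Xm (N+1) x) v) = Wp (Xm (N+1) x) v.reverse := by
  induction v with
  | nil => simp [Wp]
  | cons i v ih =>
    have h1 : Wp (Xm (N+1) x) (i :: v) = Xm (N+1) x i * Wp (Xm (N+1) x) v := by simp [Wp]
    have h2 : Wp (Xm (N+1) x) (i :: v).reverse = Wp (Xm (N+1) x) v.reverse * Xm (N+1) x i := by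
      simp [Wp]
    rw [h1, h2, star_mul, ih, ((Xm_basic (N+1) (Nat.succ_pos N)).1 x i).star_eq]

theorem pb_F (N : ℕ) (v : List ι) :
    PG (fun x : EuclideanSpace ℝ (ι × Fin (N+1) × Fin (N+1)) => tr (Wp (Xm (N+1) x) v)) := by
  have h := (word_PG (ι := ι) (N+1) (Nat.succ_pos N)).2.1 1 v
  simpa using h

theorem pb_G (N : ℕ) (v : List ι) (x : EuclideanSpace ℝ (ι × Fin (N+1) × Fin (N+1))) :
    (([v, v.reverse].map fun w => tr (Wp (Xm (N+1) x) w)).prod).re =
      ‖tr (Wp (Xm (N+1) x) v)‖ ^ 2 := by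
  have h1 : tr (Wp (Xm (N+1) x) v.reverse) = star (tr (Wp (Xm (N+1) x) v)) := by
    rw [← pb_star, (tr_basic (N+1) (Nat.succ_pos N)).2.2.2.2.2.1]
  simp only [List.map_cons, List.map_nil, List.prod_cons, List.prod_nil, mul_one]
  rw [h1]
  have h2 : tr (Wp (Xm (N+1) x) v) * star (tr (Wp (Xm (N+1) x) v)) =
      ((‖tr (Wp (Xm (N+1) x) v)‖ ^ 2 : ℝ) : ℂ) := by
    have := Complex.mul_conj (tr (Wp (Xm (N+1) x) v))
    rw [Complex.normSq_eq_norm_sq] at this
    exact this
  rw [h2, Complex.ofReal_re]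

theorem pb_sq (N : ℕ) (v : List ι) :
    Integrable (fun x => ‖tr (Wp (Xm (N+1) x) v)‖ ^ 2) (gue ι (N+1)) ∧
    ∫ x, ‖tr (Wp (Xm (N+1) x) v)‖ ^ 2 ∂(gue ι (N+1)) = (mN (ι := ι) (N+1) [v, v.reverse]).re := by
  have h1 := pb_int N _ ((word_PG (ι := ι) (N+1) (Nat.succ_pos N)).2.2.1 [v, v.reverse])
  have h2 := h1.re
  have h3 : (fun x : EuclideanSpace ℝ (ι × Fin (N+1) × Fin (N+1)) =>
      RCLike.re (([v, v.reverse].map fun w => tr (Wp (Xm (N+1) x) w)).prod)) =
      fun x => ‖tr (Wp (Xm (N+1) x) v)‖ ^ 2 := by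
    funext x
    exact pb_G N v x
  rw [h3] at h2
  refine ⟨h2, ?_⟩
  rw [← h3, integral_re h1]
  rfl

theorem pb_word {H : Type} [NormedAddCommGroup H] [InnerProductSpace ℂ H] [CompleteSpace H]
    (S : FS ι H) (v : List ι) (L : ℝ)
    (hL : Tendsto (fun N : ℕ => (gue ι (N + 1)).real (good (N + 1) L)ᶜ) atTop (𝓝 0)) :
    Tendsto (fun N : ℕ => ∫ x in (good (N + 1) L)ᶜ,
      tr (Wp (Xm (N + 1) x) v) ∂(gue ι (N + 1))) atTop (𝓝 0) := by
  have hre : Tendsto (fun N : ℕ => (mN (ι := ι) (N + 1) [v, v.reverse]).re) atTop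
      (𝓝 (([v, v.reverse].map fun w => tau S.Ω (Wp S.s w)).prod).re) :=
    (Complex.continuous_re.tendsto _).comp (mN_tendsto S [v, v.reverse])
  obtain ⟨C, hC⟩ := hre.bddAbove_range
  have hC' : ∀ N : ℕ, ∫ x, ‖tr (Wp (Xm (N+1) x) v)‖ ^ 2 ∂(gue ι (N+1)) ≤ C := by
    intro N
    rw [(pb_sq N v).2]
    exact hC ⟨N, rfl⟩
  have hC0 : 0 ≤ C := (integral_nonneg fun x => sq_nonneg _).trans (hC' 0)
  rw [Metric.tendsto_atTop]
  intro ε hε
  obtain ⟨δ, hδ⟩ : ∃ δ, δ = ε / (C + 1) := ⟨_, rfl⟩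
  have hδ0 : 0 < δ := by rw [hδ]; positivity
  have hδC : δ * (C + 1) = ε := by rw [hδ]; field_simp
  obtain ⟨N0, hN0⟩ := (Metric.tendsto_atTop.1 hL) (ε * δ) (by positivity)
  refine ⟨N0, fun N hN => ?_⟩
  have hp := hN0 N hN
  rw [Real.dist_eq, sub_zero, abs_of_nonneg measureReal_nonneg] at hp
  rw [dist_zero_right]
  have hF := pb_int N _ (pb_F (ι := ι) N v)
  have hF2 := (pb_sq (ι := ι) N v).1
  have hpt : ∀ x : EuclideanSpace ℝ (ι × Fin (N+1) × Fin (N+1)), ‖tr (Wp (Xm (N+1) x) v)‖ ≤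
      δ / 2 * ‖tr (Wp (Xm (N+1) x) v)‖ ^ 2 + 1 / (2 * δ) := by
    intro x
    obtain ⟨y, hy⟩ : ∃ y, y = ‖tr (Wp (Xm (N+1) x) v)‖ := ⟨_, rfl⟩
    rw [← hy]
    have h1 : 0 ≤ (δ * y - 1) ^ 2 / (2 * δ) := by positivity
    have h2 : (δ * y - 1) ^ 2 / (2 * δ) = δ / 2 * y ^ 2 + 1 / (2 * δ) - y := by
      field_simp
      ring
    linarith
  calc ‖∫ x in (good (N + 1) L)ᶜ, tr (Wp (Xm (N + 1) x) v) ∂(gue ι (N + 1))‖
      ≤ ∫ x in (good (N + 1) L)ᶜ, ‖tr (Wp (Xm (N + 1) x) v)‖ ∂(gue ι (N + 1)) :=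
        norm_integral_le_integral_norm _
    _ ≤ ∫ x in (good (N + 1) L)ᶜ, (δ / 2 * ‖tr (Wp (Xm (N+1) x) v)‖ ^ 2 + 1 / (2 * δ))
          ∂(gue ι (N + 1)) := by
        refine integral_mono hF.norm.integrableOn ?_ hpt
        exact ((hF2.const_mul _).add (integrable_const _)).integrableOn
    _ = δ / 2 * (∫ x in (good (N + 1) L)ᶜ, ‖tr (Wp (Xm (N+1) x) v)‖ ^ 2 ∂(gue ι (N + 1))) +
          (gue ι (N + 1)).real (good (N + 1) L)ᶜ * (1 / (2 * δ)) := by
        rw [integral_add (hF2.const_mul _).integrableOn (integrable_const _).integrableOn,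
          integral_const_mul, setIntegral_const, smul_eq_mul]
    _ ≤ δ / 2 * C + (gue ι (N + 1)).real (good (N + 1) L)ᶜ * (1 / (2 * δ)) := by
        have h1 : (∫ x in (good (N + 1) L)ᶜ, ‖tr (Wp (Xm (N+1) x) v)‖ ^ 2 ∂(gue ι (N + 1))) ≤ C :=
          (setIntegral_le_integral hF2 (Filter.Eventually.of_forall fun x => sq_nonneg _)).trans
            (hC' N)
        have h2 := mul_le_mul_of_nonneg_left h1 (show 0 ≤ δ / 2 by linarith)
        linarith
    _ < ε := by
        have h1 : (gue ι (N + 1)).real (good (N + 1) L)ᶜ * (1 / (2 * δ)) < ε * δ * (1 / (2 * δ)) :=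
          mul_lt_mul_of_pos_right hp (by positivity)
        have h2 : ε * δ * (1 / (2 * δ)) = ε / 2 := by field_simp
        nlinarith


/-- the bad event does not contribute -/
theorem P_bad {H : Type} [NormedAddCommGroup H] [InnerProductSpace ℂ H] [CompleteSpace H]
    (S : FS ι H) (P : List (ℂ × List ι)) (L : ℝ)
    (hL : Tendsto (fun N : ℕ => (gue ι (N + 1)).real (good (N + 1) L)ᶜ) atTop (𝓝 0)) :
    Tendsto (fun N : ℕ => ∫ x in (good (N + 1) L)ᶜ,
      tr ((P.map fun c => c.1 • Wp (Xm (N + 1) x) c.2).sum) ∂(gue ι (N + 1))) atTop (𝓝 0) := by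
  have hkey : (∀ N : ℕ, Integrable (fun x : EuclideanSpace ℝ (ι × Fin (N+1) × Fin (N+1)) =>
      tr ((P.map fun c => c.1 • Wp (Xm (N + 1) x) c.2).sum)) (gue ι (N+1))) ∧
      Tendsto (fun N : ℕ => ∫ x in (good (N + 1) L)ᶜ,
      tr ((P.map fun c => c.1 • Wp (Xm (N + 1) x) c.2).sum) ∂(gue ι (N + 1))) atTop (𝓝 0) := by
    induction P with
    | nil =>
      have h0 : ∀ N : ℕ, tr (0 : BN (N+1)) = 0 := by
        intro N
        have := (tr_basic (N+1) (Nat.succ_pos N)).2.2.2.1 0
        exact norm_le_zero_iff.1 (this.trans norm_zero.le)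
      simp only [List.map_nil, List.sum_nil, h0]
      refine ⟨fun N => integrable_const _, ?_⟩
      simp
    | cons c P ih =>
      obtain ⟨ih1, ih2⟩ := ih
      have h1 : ∀ (N : ℕ) (x : EuclideanSpace ℝ (ι × Fin (N+1) × Fin (N+1))),
          tr (((c :: P).map fun c => c.1 • Wp (Xm (N + 1) x) c.2).sum) =
          c.1 * tr (Wp (Xm (N+1) x) c.2) +
            tr ((P.map fun c => c.1 • Wp (Xm (N + 1) x) c.2).sum) := by
        intro N x
        rw [List.map_cons, List.sum_cons, (tr_basic (N+1) (Nat.succ_pos N)).1,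
          (tr_basic (N+1) (Nat.succ_pos N)).2.1]
      simp only [h1]
      have h2 : ∀ N : ℕ, Integrable (fun x : EuclideanSpace ℝ (ι × Fin (N+1) × Fin (N+1)) =>
          c.1 * tr (Wp (Xm (N+1) x) c.2)) (gue ι (N+1)) := fun N =>
        (pb_int N _ (pb_F N c.2)).const_mul c.1
      refine ⟨fun N => (h2 N).add (ih1 N), ?_⟩
      have h3 : ∀ N : ℕ, ∫ x in (good (N + 1) L)ᶜ, (c.1 * tr (Wp (Xm (N+1) x) c.2) +
            tr ((P.map fun c => c.1 • Wp (Xm (N + 1) x) c.2).sum)) ∂(gue ι (N + 1)) =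
          c.1 * (∫ x in (good (N + 1) L)ᶜ, tr (Wp (Xm (N+1) x) c.2) ∂(gue ι (N + 1))) +
          ∫ x in (good (N + 1) L)ᶜ,
            tr ((P.map fun c => c.1 • Wp (Xm (N + 1) x) c.2).sum) ∂(gue ι (N + 1)) := by
        intro N
        rw [integral_add (h2 N).integrableOn (ih1 N).integrableOn, integral_const_mul]
      simp only [h3]
      have h4 := ((pb_word S c.2 L hL).const_mul c.1).add ih2
      simpa using h4
  exact hkey.2

end

section

theorem P_good_int (N : ℕ) (hN : 0 < N) (P : List (ℂ × List ι)) :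
    Integrable (fun x => tr ((P.map fun c => c.1 • Wp (Xm N x) c.2).sum)) (gue ι N) := by
  rcases isEmpty_or_nonempty ι with he | hne
  · have hconst : (fun x : EuclideanSpace ℝ (ι × Fin N × Fin N) =>
        tr ((P.map fun c => c.1 • Wp (Xm N x) c.2).sum))
        = fun _ => tr ((P.map fun c => c.1 • Wp (Xm N (0 : EuclideanSpace ℝ (ι × Fin N × Fin N))) c.2).sum) := by
      funext x
      have hx : x = 0 := by
        ext i
        exact (he.false i.1).elim
      rw [hx]
    rw [hconst]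
    exact integrable_const _
  · obtain ⟨i0⟩ := hne
    have hk : ι × Fin N × Fin N := (i0, ⟨0, hN⟩, ⟨0, hN⟩)
    obtain ⟨hadd, hsmul, _, _, _, _, _⟩ := tr_basic N hN
    have h0 : tr (0 : BN N) = 0 := by
      unfold tr ent
      simp
    induction P with
    | nil =>
      simp only [List.map_nil, List.sum_nil, h0]
      exact integrable_zero _ _ _
    | cons c P ih =>
      simp only [List.map_cons, List.sum_cons, hadd, hsmul]
      apply Integrable.add _ ih
      apply Integrable.const_mul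
      have h1 := (word_PG (ι := ι) N hN).2.2.1 [c.2]
      have h2 := (PG_int _ h1 hk).1
      simpa using h2

/-- convergence on the good event -/
theorem P_good {H : Type} [NormedAddCommGroup H] [InnerProductSpace ℂ H] [CompleteSpace H]
    (S : FS ι H) (P : List (ℂ × List ι)) (L : ℝ)
    (hL : Tendsto (fun N : ℕ => (gue ι (N + 1)).real (good (N + 1) L)ᶜ) atTop (𝓝 0)) :
    Tendsto (fun N : ℕ => ∫ x in good (N + 1) L,
      tr ((P.map fun c => c.1 • Wp (Xm (N + 1) x) c.2).sum) ∂(gue ι (N + 1))) atTop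
      (𝓝 (tau S.Ω ((P.map fun c => c.1 • Wp S.s c.2).sum))) := by
  have h := (P_tendsto S P).sub (P_bad S P L hL)
  rw [sub_zero] at h
  refine h.congr ?_
  intro N
  have hm : MeasurableSet (good (ι := ι) (N + 1) L) :=
    (ev_cont (ι := ι) (N + 1) (Nat.succ_pos N) [] L).2
  rw [← integral_add_compl hm (P_good_int (N + 1) (Nat.succ_pos N) P)]
  ring

end

section

theorem lc_tr_cont (N : ℕ) : Continuous (fun T : BN N => tr T) := by
  unfold tr ent
  fun_prop

theorem lc_al_im : al.im ≠ 0 := by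
  unfold al
  rw [Complex.div_ofReal_im, Complex.I_im]
  have : (0 : ℝ) < √2 := Real.sqrt_pos.mpr (by norm_num)
  exact (div_pos one_pos this).ne'

theorem lc_unit {N : ℕ} {T : BN N} (hT : IsSelfAdjoint T) : IsUnit (T - al • (1 : BN N)) := by
  by_contra h
  have h1 : al ∈ spectrum ℂ T := by
    rw [spectrum.mem_iff]
    intro h2
    apply h
    have e : T - al • (1 : BN N) = -(algebraMap ℂ (BN N) al - T) := by
      rw [Algebra.algebraMap_eq_smul_one]; abel
    rw [e]
    exact h2.neg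
  have h3 := hT.mem_spectrum_eq_re h1
  apply lc_al_im
  rw [h3]
  simp

theorem lc_cay_cont {X : Type*} [TopologicalSpace X] {N : ℕ} (Y : X → BN N) (hY : Continuous Y)
    (hs : ∀ x, IsSelfAdjoint (Y x)) : Continuous (fun x => cay (Y x)) := by
  unfold cay
  refine (hY.add continuous_const).mul ?_
  rw [continuous_iff_continuousAt]
  intro x
  obtain ⟨u, hu⟩ := lc_unit (hs x)
  have h1 : ContinuousAt Ring.inverse (Y x - al • (1 : BN N)) := by
    rw [← hu]
    exact NormedRing.inverse_continuousAt u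
  have h2 : ContinuousAt (fun x => Y x - al • (1 : BN N)) x :=
    (hY.sub continuous_const).continuousAt
  exact ContinuousAt.comp (g := Ring.inverse) (f := fun x => Y x - al • (1 : BN N)) h1 h2

theorem lc_evW {X κ : Type} [TopologicalSpace X] {N : ℕ} (Y : X → κ → BN N)
    (hY : ∀ k, Continuous (fun x => Y x k)) (hs : ∀ x k, IsSelfAdjoint (Y x k))
    (w : List (Lt κ)) : Continuous (fun x => evW (Y x) w) := by
  induction w with
  | nil =>
    unfold evW
    simp only [List.map_nil, List.prod_nil]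
    exact continuous_const
  | cons a w ih =>
    have e : (fun x => evW (Y x) (a :: w)) = fun x => evL (Y x) a * evW (Y x) w := by
      funext x
      simp [evW]
    rw [e]
    refine Continuous.mul ?_ ih
    cases a with
    | X i => exact hY i
    | U i => exact lc_cay_cont (fun x => Y x i) (hY i) (fun x => hs x i)
    | V i =>
      have h1 : Continuous (star : BN N → BN N) :=
        (ContinuousLinearMap.adjoint (𝕜 := ℂ) (E := EuclideanSpace ℂ (Fin N))
          (F := EuclideanSpace ℂ (Fin N))).continuous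
      exact h1.comp (lc_cay_cont (fun x => Y x i) (hY i) (fun x => hs x i))

/-- continuity of words in linear combinations -/
theorem lin_cont {κ : Type} (c : κ → ι → ℝ) (N : ℕ) (hN : 0 < N) (w : List (Lt κ)) :
    Continuous (fun x : EuclideanSpace ℝ (ι × Fin N × Fin N) =>
      tr (evW (fun k => ∑ i, ((c k i : ℝ) : ℂ) • Xm N x i) w)) := by
  obtain ⟨h1, h2, _, _⟩ := Xm_basic (ι := ι) N hN
  refine (lc_tr_cont N).comp (lc_evW (fun (x : EuclideanSpace ℝ (ι × Fin N × Fin N)) (k : κ) =>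
    ∑ i, ((c k i : ℝ) : ℂ) • Xm N x i) ?_ ?_ w)
  · intro k
    refine continuous_finsetSum _ fun i _ => ?_
    obtain ⟨T, hT, _⟩ := h2 i
    have e : (fun x : EuclideanSpace ℝ (ι × Fin N × Fin N) => Xm N x i) = fun x => T x := by
      funext x; exact (hT x).symm
    have h3 : Continuous (fun x : EuclideanSpace ℝ (ι × Fin N × Fin N) => Xm N x i) := by
      rw [e]; exact T.continuous
    exact h3.const_smul ((c k i : ℝ) : ℂ)
  · intro x k
    have h4 : ∀ i, IsSelfAdjoint (((c k i : ℝ) : ℂ) • Xm N x i) := by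
      intro i
      rw [IsSelfAdjoint, star_smul, (h1 x i).star_eq]
      congr 1
      simp
    have h5 : ∀ s : Finset ι, IsSelfAdjoint (∑ i ∈ s, ((c k i : ℝ) : ℂ) • Xm N x i) := by
      intro s
      induction s using Finset.induction_on with
      | empty =>
        rw [Finset.sum_empty]
        exact IsSelfAdjoint.zero (BN N)
      | insert a s ha ih =>
        rw [Finset.sum_insert ha]
        have h6 := h4 a
        rw [ContinuousLinearMap.isSelfAdjoint_iff'] at h6 ih ⊢
        rw [map_add, h6, ih]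
    exact h5 Finset.univ

end

section

/-- the index of a letter -/
def ixL {κ : Type} : Lt κ → κ
  | Lt.X i => i
  | Lt.U i => i
  | Lt.V i => i

theorem evW_congr {κ A : Type} [Ring A] [StarRing A] [Algebra ℂ A] (x y : κ → A)
    (w : List (Lt κ)) (h : ∀ a ∈ w, x (ixL a) = y (ixL a)) : evW x w = evW y w := by
  unfold evW
  congr 1
  refine List.map_congr_left fun a ha => ?_
  have := h a ha
  cases a <;> simp only [ixL] at this <;> simp only [evL, this]

theorem evWq_congr {κ A : Type} [Ring A] [StarRing A] [Algebra ℂ A] (q : Polynomial ℂ)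
    (x y : κ → A) (w : List (Lt κ)) (h : ∀ a ∈ w, x (ixL a) = y (ixL a)) :
    evWq q x w = evWq q y w := by
  unfold evWq
  congr 1
  refine List.map_congr_left fun a ha => ?_
  have := h a ha
  cases a <;> simp only [ixL] at this <;> simp only [evLq, this]

/-- norm estimate for words in linear combinations -/
theorem lin_word {κ : Type} (c : κ → ι → ℝ) (L : ℝ) (hL : 0 ≤ L) (w : List (Lt κ)) :
    ∃ L' : ℝ, 2 ≤ L' ∧ ∀ (A : Type) [CStarAlgebra A] (x : ι → A), (∀ i, IsSelfAdjoint (x i)) →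
      (∀ i, ‖x i‖ ≤ L) → ∀ (q : Polynomial ℂ) (ε : ℝ), 0 ≤ ε → ε ≤ 1 → Appr q L' ε →
      ‖evW (fun k => ∑ i, ((c k i : ℝ) : ℂ) • x i) w‖ ≤ L' ^ w.length ∧
      ‖evW (fun k => ∑ i, ((c k i : ℝ) : ℂ) • x i) w -
        evWq q (fun k => ∑ i, ((c k i : ℝ) : ℂ) • x i) w‖ ≤ w.length * L' ^ w.length * ε := by
  classical
  set M : ℝ := (w.map fun a => ∑ i, |c (ixL a) i|).sum with hM
  have hMnn : ∀ a ∈ w.map (fun a => ∑ i, |c (ixL a) i|), 0 ≤ a := by
    intro a ha
    obtain ⟨b, _, rfl⟩ := List.mem_map.mp ha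
    exact Finset.sum_nonneg fun i _ => abs_nonneg _
  have hM0 : 0 ≤ M := List.sum_nonneg hMnn
  have hle : ∀ a ∈ w, ∑ i, |c (ixL a) i| ≤ M := by
    intro a ha
    exact List.single_le_sum hMnn _ (List.mem_map.mpr ⟨a, ha, rfl⟩)
  refine ⟨2 + L * M, by nlinarith [mul_nonneg hL hM0], ?_⟩
  intro A _ x hx hxL q ε hε hε1 hq
  let c0 : κ → ι → ℝ := fun k i => if k ∈ w.map ixL then c k i else 0
  let y : κ → A := fun k => ∑ i, ((c0 k i : ℝ) : ℂ) • x i
  have hy : ∀ a ∈ w, (fun k => ∑ i, ((c k i : ℝ) : ℂ) • x i) (ixL a) = y (ixL a) := by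
    intro a ha
    have hmem : ixL a ∈ w.map ixL := List.mem_map.mpr ⟨a, ha, rfl⟩
    simp only [y, c0, hmem, if_true]
  rw [evW_congr _ _ w hy, evWq_congr q _ _ w hy]
  have hysa : ∀ k, IsSelfAdjoint (y k) := by
    intro k
    show star _ = _
    simp only [y]
    rw [star_sum]
    refine Finset.sum_congr rfl fun i _ => ?_
    rw [star_smul, (hx i).star_eq]
    congr 1
    exact Complex.conj_ofReal _
  have hyL : ∀ k, ‖y k‖ ≤ 2 + L * M := by
    intro k
    by_cases hk : k ∈ w.map ixL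
    · obtain ⟨a, ha, rfl⟩ := List.mem_map.mp hk
      have e : y (ixL a) = ∑ i, ((c (ixL a) i : ℝ) : ℂ) • x i := (hy a ha).symm
      rw [e]
      calc ‖∑ i, ((c (ixL a) i : ℝ) : ℂ) • x i‖ ≤ ∑ i, ‖((c (ixL a) i : ℝ) : ℂ) • x i‖ :=
            norm_sum_le _ _
        _ ≤ ∑ i, |c (ixL a) i| * L := by
            refine Finset.sum_le_sum fun i _ => ?_
            rw [norm_smul, Complex.norm_real, Real.norm_eq_abs]
            exact mul_le_mul_of_nonneg_left (hxL i) (abs_nonneg _)
        _ = L * ∑ i, |c (ixL a) i| := by rw [← Finset.sum_mul, mul_comm]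
        _ ≤ L * M := mul_le_mul_of_nonneg_left (hle a ha) hL
        _ ≤ 2 + L * M := by linarith
    · have e : y k = 0 := by
        simp only [y, c0, hk, if_false]
        simp
      rw [e, norm_zero]
      nlinarith [mul_nonneg hL hM0]
  obtain ⟨h1, _, h3⟩ := word_appr y hysa q (2 + L * M) ε (by nlinarith [mul_nonneg hL hM0]) hε hε1
    hyL hq w
  exact ⟨h1, h3⟩

end

section

theorem gcl_cont (N : ℕ) (hN : 0 < N) (P : List (ℂ × List ι)) :
    Continuous (fun x : EuclideanSpace ℝ (ι × Fin N × Fin N) =>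
      tr ((P.map fun c => c.1 • Wp (Xm N x) c.2).sum)) := by
  obtain ⟨h1, h2, -, -, -, -, h7⟩ := tr_basic N hN
  induction P with
  | nil =>
    simp only [List.map_nil, List.sum_nil]
    exact continuous_const
  | cons c P ih =>
    have h3 : (fun x : EuclideanSpace ℝ (ι × Fin N × Fin N) =>
        tr (((c :: P).map fun c => c.1 • Wp (Xm N x) c.2).sum)) =
        fun x => c.1 * tr ((1 : BN N) * Wp (Xm N x) c.2) +
          tr ((P.map fun c => c.1 • Wp (Xm N x) c.2).sum) := by
      funext x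
      rw [List.map_cons, List.sum_cons, h1, h2, one_mul]
    rw [h3]
    have h4 := ((word_PG (ι := ι) N hN).2.1 1 c.2).1.continuous
    exact (continuous_const.mul h4).add ih

/-- D2 for words in real linear combinations of the matrices. -/
theorem gue_conv_lin {H : Type} [NormedAddCommGroup H] [InnerProductSpace ℂ H] [CompleteSpace H]
    {κ : Type} (c : κ → ι → ℝ) (S : FS ι H) (L : ℝ) (hL2 : 2 ≤ L) (hL : Tendsto (fun N : ℕ =>
      (stdGaussian (EuclideanSpace ℝ (ι × Fin (N + 1) × Fin (N + 1)))).real (good (N + 1) L)ᶜ)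
      atTop (𝓝 0)) (w : List (Lt κ)) :
    Tendsto (fun N : ℕ => ∫ x in good (N + 1) L,
      tr (evW (fun k => ∑ i, ((c k i : ℝ) : ℂ) • Xm (N + 1) x i) w)
      ∂(stdGaussian (EuclideanSpace ℝ (ι × Fin (N + 1) × Fin (N + 1)))))
      atTop (𝓝 (tau S.Ω (evW (fun k => ∑ i, ((c k i : ℝ) : ℂ) • S.s i) w))) := by
  classical
  obtain ⟨L', hL', hLW⟩ := lin_word c L (by linarith) w
  set C : ℝ := w.length * L' ^ w.length with hC
  have hC0 : 0 ≤ C := by
    have : 0 ≤ L' := by linarith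
    positivity
  rw [Metric.tendsto_atTop]
  intro δ hδ
  set ε : ℝ := min 1 (δ / (4 * (C + 1))) with hε
  have hε0 : 0 < ε := lt_min one_pos (by positivity)
  have hε1 : ε ≤ 1 := min_le_left _ _
  have hCε : C * ε ≤ δ / 4 := by
    calc C * ε ≤ (C + 1) * (δ / (4 * (C + 1))) := by
          apply mul_le_mul (by linarith) (min_le_right _ _) hε0.le (by linarith)
      _ = δ / 4 := by field_simp
  obtain ⟨q, hq⟩ := weier L' ε hε0
  obtain ⟨P, hP⟩ := lin_poly c q w
  have hPg := P_good S P L hL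
  rw [Metric.tendsto_atTop] at hPg
  obtain ⟨N0, hN0⟩ := hPg (δ / 4) (by linarith)
  refine ⟨N0, fun N hN => ?_⟩
  have h2 := hN0 N hN
  -- the limit side
  have h3 : dist (tau S.Ω ((P.map fun c => c.1 • Wp S.s c.2).sum))
      (tau S.Ω (evW (fun k => ∑ i, ((c k i : ℝ) : ℂ) • S.s i) w)) ≤ δ / 4 := by
    rw [← hP (H →L[ℂ] H) S.s S.s_sa]
    obtain ⟨-, h4⟩ := hLW (H →L[ℂ] H) S.s S.s_sa (fun i => (S.norm_s i).trans hL2) q ε hε0.le hε1 hq
    rw [dist_comm, dist_eq_norm]
    unfold tau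
    rw [← inner_sub_right, ← sub_apply]
    refine (norm_inner_le_norm _ _).trans ?_
    rw [S.norm_Ω, one_mul]
    refine (ContinuousLinearMap.le_opNorm _ _).trans ?_
    rw [S.norm_Ω, mul_one]
    exact h4.trans hCε
  have hn : 0 < N + 1 := Nat.succ_pos N
  obtain ⟨t1, t2, -, t4, -, -, t7⟩ := tr_basic (N + 1) hn
  have hsa := (Xm_basic (ι := ι) (N + 1) hn).1
  have hgood : MeasurableSet (good (ι := ι) (N + 1) L) := (ev_cont (N + 1) hn [] L).2
  have hF : Continuous (fun x : EuclideanSpace ℝ (ι × Fin (N + 1) × Fin (N + 1)) =>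
      tr (evW (fun k => ∑ i, ((c k i : ℝ) : ℂ) • Xm (N + 1) x i) w)) := lin_cont c (N + 1) hn w
  have hG := gcl_cont (ι := ι) (N + 1) hn P
  have hbd : ∀ x ∈ good (ι := ι) (N + 1) L,
      ‖tr (evW (fun k => ∑ i, ((c k i : ℝ) : ℂ) • Xm (N + 1) x i) w)‖ ≤ L' ^ w.length ∧
      ‖tr (evW (fun k => ∑ i, ((c k i : ℝ) : ℂ) • Xm (N + 1) x i) w) -
        tr ((P.map fun c => c.1 • Wp (Xm (N + 1) x) c.2).sum)‖ ≤ C * ε := by
    intro x hx
    obtain ⟨h5, h6⟩ := hLW (BN (N + 1)) (Xm (N + 1) x) (hsa x) hx q ε hε0.le hε1 hq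
    refine ⟨(t4 _).trans h5, ?_⟩
    rw [← hP (BN (N + 1)) (Xm (N + 1) x) (hsa x), ← t7]
    exact (t4 _).trans h6
  have hFi : IntegrableOn (fun x : EuclideanSpace ℝ (ι × Fin (N + 1) × Fin (N + 1)) =>
      tr (evW (fun k => ∑ i, ((c k i : ℝ) : ℂ) • Xm (N + 1) x i) w)) (good (N + 1) L)
      (stdGaussian (EuclideanSpace ℝ (ι × Fin (N + 1) × Fin (N + 1)))) := by
    apply Measure.integrableOn_of_bounded (measure_ne_top _ _) hF.aestronglyMeasurable
      (M := L' ^ w.length)
    exact ae_restrict_of_forall_mem hgood fun x hx => (hbd x hx).1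
  have hGi : IntegrableOn (fun x : EuclideanSpace ℝ (ι × Fin (N + 1) × Fin (N + 1)) =>
      tr ((P.map fun c => c.1 • Wp (Xm (N + 1) x) c.2).sum)) (good (N + 1) L)
      (stdGaussian (EuclideanSpace ℝ (ι × Fin (N + 1) × Fin (N + 1)))) := by
    apply Measure.integrableOn_of_bounded (measure_ne_top _ _) hG.aestronglyMeasurable
      (M := L' ^ w.length + C * ε)
    refine ae_restrict_of_forall_mem hgood fun x hx => ?_
    obtain ⟨h5, h6⟩ := hbd x hx
    rw [norm_sub_rev] at h6
    have h7 := norm_le_norm_add_norm_sub' (tr ((P.map fun c => c.1 • Wp (Xm (N + 1) x) c.2).sum))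
      (tr (evW (fun k => ∑ i, ((c k i : ℝ) : ℂ) • Xm (N + 1) x i) w))
    linarith
  have h8 : dist (∫ x in good (N + 1) L,
      tr (evW (fun k => ∑ i, ((c k i : ℝ) : ℂ) • Xm (N + 1) x i) w)
      ∂(stdGaussian (EuclideanSpace ℝ (ι × Fin (N + 1) × Fin (N + 1)))))
      (∫ x in good (N + 1) L, tr ((P.map fun c => c.1 • Wp (Xm (N + 1) x) c.2).sum)
        ∂(stdGaussian (EuclideanSpace ℝ (ι × Fin (N + 1) × Fin (N + 1))))) ≤ δ / 4 := by
    rw [dist_eq_norm, ← integral_sub hFi hGi]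
    refine (norm_setIntegral_le_of_norm_le_const (measure_lt_top _ _)
      (fun x hx => (hbd x hx).2)).trans ?_
    refine le_trans ?_ hCε
    exact mul_le_of_le_one_right (by positivity) measureReal_le_one
  refine lt_of_le_of_lt (dist_triangle4 _
    (∫ x in good (N + 1) L, tr ((P.map fun c => c.1 • Wp (Xm (N + 1) x) c.2).sum)
        ∂(stdGaussian (EuclideanSpace ℝ (ι × Fin (N + 1) × Fin (N + 1)))))
    (tau S.Ω ((P.map fun c => c.1 • Wp S.s c.2).sum)) _) ?_
  have h9 : dist (∫ x in good (N + 1) L, tr ((P.map fun c => c.1 • Wp (Xm (N + 1) x) c.2).sum)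
        ∂(stdGaussian (EuclideanSpace ℝ (ι × Fin (N + 1) × Fin (N + 1)))))
      (tau S.Ω ((P.map fun c => c.1 • Wp S.s c.2).sum)) < δ / 4 := h2
  linarith

end

end Pool.Agent.Helper38.FE
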