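import Pool.Agent.Helper38.FE.Low

/-! MODULE H2: definitions for the second order (Taylor) estimate of the words. -/

set_option autoImplicit false

open MeasureTheory Filter Topology ProbabilityTheory
open scoped InnerProductSpace ENNReal

namespace Pool.Agent.Helper38.FE

section gen
variable {A : Type*} [Ring A] [StarRing A] [Algebra ℂ A]

/-- derivative of `W_b` at `z` in the direction `w`:
`α ∑_p u_{b_1}(z) ⋯ u_{b_{p-1}}(z) (u_{b_p}(z) - 1) w_{b_p} (u_{b_p}(z) - 1) u_{b_{p+1}}(z) ⋯ u_{b_L}(z)` -/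
noncomputable def DWd (z w : Fin 3 → A) : List (Fin 3) → A
  | [] => 0
  | i :: b => al • ((cay (z i) - 1) * w i * (cay (z i) - 1) * Wd b z) + cay (z i) * DWd z w b

/-- derivative of `F_b = W_b + W_b*` at `z` in the (self-adjoint) direction `w` -/
noncomputable def DFb (b : List (Fin 3)) (z w : Fin 3 → A) : A := DWd z w b + star (DWd z w b)

end gen

variable {H : Type} [NormedAddCommGroup H] [InnerProductSpace ℂ H] [CompleteSpace H]

/-- `z_i = (x_i + √t s_i)/√(1+t)` -/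
noncomputable def FS.zz (S : FS I0 H) (t : ℝ) : Fin 3 → (H →L[ℂ] H) := fun i =>
  (((√(1 + t))⁻¹ : ℝ) : ℂ) • S.xb i + (((√(1 + t))⁻¹ * √t : ℝ) : ℂ) • S.n1 i.castSucc

/-- `w_i = (s_i - √t x_i)/√(1+t)` -/
noncomputable def FS.ww (S : FS I0 H) (t : ℝ) : Fin 3 → (H →L[ℂ] H) := fun i =>
  (((√(1 + t))⁻¹ : ℝ) : ℂ) • S.n1 i.castSucc - (((√(1 + t))⁻¹ * √t : ℝ) : ℂ) • S.xb i

/-- the Taylor remainder `F_b(x) - F_b(z) + φ DF_b(z)[w]`, `φ = arctan √t`
(`x = cos φ z - sin φ w`) -/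
noncomputable def FS.Gb (S : FS I0 H) (b : List (Fin 3)) (t : ℝ) : H →L[ℂ] H :=
  Fb b S.xb - Fb b (S.zz t) + ((Real.arctan (√t) : ℝ) : ℂ) • DFb b (S.zz t) (S.ww t)

/-- interface of part [B]: the remainder bound for words satisfying `Good` -/
def FS.RemBound (S : FS I0 H) (Good : ℕ → List (Fin 3) → Prop) : Prop :=
  ∃ C₀ : ℝ, 0 < C₀ ∧ ∀ (m : ℕ) (b : List (Fin 3)), Good m b → ∀ t : ℝ, 0 < t → t ≤ 1 →
    ‖S.Gb b t S.Ω‖ ≤ C₀ * t * m

end Pool.Agent.Helper38.FE
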