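import Pool.Agent.Helper38.FE.Gue0

/-! MODULE D: GUE matrices converge to the Fock system. -/

set_option autoImplicit false
set_option linter.unusedVariables false
set_option linter.unusedSectionVars false

open MeasureTheory Filter Topology ProbabilityTheory
open scoped InnerProductSpace ENNReal

namespace Pool.Agent.Helper38.FE

variable {ι : Type} [Fintype ι] [DecidableEq ι]

section

/-- the matrix of `Hm` -/
noncomputable def HMx (N : ℕ) (a : EuclideanSpace ℝ (Fin N × Fin N)) :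
    Matrix (Fin N) (Fin N) ℂ :=
  Matrix.of fun p q => ((1 / √(N : ℝ) : ℝ) : ℂ) *
      (((1 + Complex.I) / 2) * (a (p, q) : ℂ) + ((1 - Complex.I) / 2) * (a (q, p) : ℂ))

lemma HMx_apply (N : ℕ) (a : EuclideanSpace ℝ (Fin N × Fin N)) (p q : Fin N) :
    HMx N a p q = ((1 / √(N : ℝ) : ℝ) : ℂ) *
      (((1 + Complex.I) / 2) * (a (p, q) : ℂ) + ((1 - Complex.I) / 2) * (a (q, p) : ℂ)) := rfl

lemma Hm_eq_HMx (N : ℕ) (a : EuclideanSpace ℝ (Fin N × Fin N)) :
    Hm N a = Matrix.toEuclideanCLM (n := Fin N) (𝕜 := ℂ) (HMx N a) := rfl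

lemma HMx_add (N : ℕ) (a b : EuclideanSpace ℝ (Fin N × Fin N)) :
    HMx N (a + b) = HMx N a + HMx N b := by
  ext p q
  rw [Matrix.add_apply, HMx_apply, HMx_apply, HMx_apply]
  simp only [PiLp.add_apply, Complex.ofReal_add]
  ring

lemma HMx_smul (N : ℕ) (c : ℝ) (a : EuclideanSpace ℝ (Fin N × Fin N)) :
    HMx N (c • a) = (c : ℂ) • HMx N a := by
  ext p q
  rw [Matrix.smul_apply, HMx_apply, HMx_apply]
  simp only [PiLp.smul_apply, smul_eq_mul, Complex.ofReal_mul]
  ring

lemma HMx_sa (N : ℕ) (a : EuclideanSpace ℝ (Fin N × Fin N)) : IsSelfAdjoint (HMx N a) := by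
  rw [isSelfAdjoint_iff]
  ext p q
  rw [Matrix.star_apply, HMx_apply, HMx_apply]
  simp only [star_mul', star_add, RCLike.star_def, Complex.conj_ofReal, map_div₀, map_add,
    map_sub, map_one, Complex.conj_I, map_ofNat, sub_neg_eq_add]
  ring

lemma HMx_normsq (N : ℕ) (a : EuclideanSpace ℝ (Fin N × Fin N)) (p q : Fin N) :
    ‖HMx N a p q‖ ^ 2 = (1 / (N : ℝ)) * ((a (p, q) ^ 2 + a (q, p) ^ 2) / 2) := by
  rw [HMx_apply, norm_mul, mul_pow]
  congr 1
  · rw [Complex.norm_real, Real.norm_eq_abs, sq_abs, div_pow, one_pow,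
      Real.sq_sqrt (Nat.cast_nonneg N)]
  · rw [← Complex.normSq_eq_norm_sq, Complex.normSq_apply]
    simp only [Complex.add_re, Complex.mul_re, Complex.div_re, Complex.add_im, Complex.mul_im,
      Complex.div_im, Complex.ofReal_re, Complex.ofReal_im, Complex.one_re, Complex.one_im,
      Complex.I_re, Complex.I_im, Complex.sub_re, Complex.sub_im, Complex.re_ofNat,
      Complex.im_ofNat, Complex.normSq_ofNat]
    ring

lemma HMx_hs (N : ℕ) (a : EuclideanSpace ℝ (Fin N × Fin N)) :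
    ∑ p, ∑ q, ‖HMx N a p q‖ ^ 2 = ‖a‖ ^ 2 / (N : ℝ) := by
  simp only [HMx_normsq]
  rw [EuclideanSpace.norm_sq_eq, Fintype.sum_prod_type]
  simp only [Real.norm_eq_abs, sq_abs, ← Finset.mul_sum]
  have h1 : ∑ p : Fin N, ∑ q : Fin N, (a (p, q) ^ 2 + a (q, p) ^ 2) / 2 =
      ∑ p : Fin N, ∑ q : Fin N, a (p, q) ^ 2 := by
    have h2 : ∑ p : Fin N, ∑ q : Fin N, a (q, p) ^ 2 = ∑ p : Fin N, ∑ q : Fin N, a (p, q) ^ 2 :=
      Finset.sum_comm
    have h3 : ∑ p : Fin N, ∑ q : Fin N, (a (p, q) ^ 2 + a (q, p) ^ 2) / 2 =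
        (∑ p : Fin N, ∑ q : Fin N, a (p, q) ^ 2 + ∑ p : Fin N, ∑ q : Fin N, a (q, p) ^ 2) / 2 := by
      rw [← Finset.sum_add_distrib, Finset.sum_div]
      refine Finset.sum_congr rfl fun p _ => ?_
      rw [← Finset.sum_add_distrib, Finset.sum_div]
    rw [h3, h2]
    ring
  rw [h1]
  ring

lemma toE_norm (N : ℕ) (M : Matrix (Fin N) (Fin N) ℂ) (v : EuclideanSpace ℂ (Fin N)) :
    ‖Matrix.toEuclideanCLM (n := Fin N) (𝕜 := ℂ) M v‖ ^ 2 ≤
      (∑ p, ∑ q, ‖M p q‖ ^ 2) * ‖v‖ ^ 2 := by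
  rw [EuclideanSpace.norm_sq_eq, EuclideanSpace.norm_sq_eq, Finset.sum_mul]
  refine Finset.sum_le_sum fun p _ => ?_
  rw [Matrix.ofLp_toEuclideanCLM, Matrix.mulVec, dotProduct]
  have h1 : ‖∑ q, M p q * v q‖ ≤ ∑ q, ‖M p q‖ * ‖v q‖ := by
    refine (norm_sum_le _ _).trans (le_of_eq ?_)
    exact Finset.sum_congr rfl fun q _ => norm_mul _ _
  refine (pow_le_pow_left₀ (norm_nonneg _) h1 2).trans ?_
  exact Finset.sum_mul_sq_le_sq_mul_sq _ _ _

/-- basic properties of `Hm` -/
theorem Hm_basic (N : ℕ) (hN : 0 < N) :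
    (∀ a, IsSelfAdjoint (Hm N a)) ∧ (∀ a b, Hm N (a + b) = Hm N a + Hm N b) ∧
    (∀ (c : ℝ) a, Hm N (c • a) = (c : ℂ) • Hm N a) ∧ (∀ a, ‖Hm N a‖ ≤ ‖a‖ / √(N : ℝ)) ∧
    (∀ a p q, ent (Hm N a) p q = ((1 / √(N : ℝ) : ℝ) : ℂ) *
      (((1 + Complex.I) / 2) * (a (p, q) : ℂ) + ((1 - Complex.I) / 2) * (a (q, p) : ℂ))) ∧
    (∀ a, Hm N a = ∑ p, (a p : ℂ) • Hm N (EuclideanSpace.single p 1)) := by
  have hadd : ∀ a b, Hm N (a + b) = Hm N a + Hm N b := by
    intro a b
    rw [Hm_eq_HMx, Hm_eq_HMx, Hm_eq_HMx, HMx_add, map_add]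
  have hsm : ∀ (c : ℝ) a, Hm N (c • a) = (c : ℂ) • Hm N a := by
    intro c a
    rw [Hm_eq_HMx, Hm_eq_HMx, HMx_smul, map_smul]
  refine ⟨?_, hadd, hsm, ?_, ?_, ?_⟩
  · intro a
    rw [Hm_eq_HMx]
    exact (HMx_sa N a).map _
  · intro a
    refine ContinuousLinearMap.opNorm_le_bound _ (by positivity) fun v => ?_
    rw [Hm_eq_HMx]
    have h1 := toE_norm N (HMx N a) v
    rw [HMx_hs] at h1
    have h2 : ‖a‖ ^ 2 / (N : ℝ) * ‖v‖ ^ 2 = (‖a‖ / √(N : ℝ) * ‖v‖) ^ 2 := by
      rw [mul_pow, div_pow, Real.sq_sqrt (Nat.cast_nonneg N)]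
    rw [h2] at h1
    exact le_of_sq_le_sq h1 (by positivity)
  · intro a p q
    rw [Hm_eq_HMx]
    unfold ent
    rw [Matrix.ofLp_toEuclideanCLM]
    change (Matrix.mulVec (HMx N a) (Pi.single q 1)) p = _
    rw [Matrix.mulVec_single_one]
    rfl
  · intro a
    have h1 : a = ∑ p, a p • EuclideanSpace.single p (1 : ℝ) := by
      ext i
      simp [Finset.sum_apply, Pi.single_apply]
    have h2 : ∀ s : Finset (Fin N × Fin N), Hm N (∑ p ∈ s, a p • EuclideanSpace.single p (1 : ℝ)) =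
        ∑ p ∈ s, (a p : ℂ) • Hm N (EuclideanSpace.single p 1) := by
      intro s
      classical
      induction s using Finset.induction_on with
      | empty =>
        rw [Finset.sum_empty, Finset.sum_empty]
        have h := hadd 0 0
        rw [add_zero] at h
        exact left_eq_add.1 h
      | insert p s hp ih =>
        rw [Finset.sum_insert hp, Finset.sum_insert hp, hadd, hsm, ih]
    conv_lhs => rw [h1]
    exact h2 Finset.univ

end

section

/-- expansion of the entries of a product -/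
theorem ent_mul' {N : ℕ} (S T : BN N) (p q : Fin N) :
    ent (S * T) p q = ∑ r, ent S p r * ent T r q := by
  have hx : ∀ v : EuclideanSpace ℂ (Fin N), v = ∑ r, v r • EuclideanSpace.single r (1 : ℂ) := by
    intro v
    ext k
    simp [Finset.sum_apply, Pi.single_apply]
  unfold ent
  rw [mul_apply_eq_comp]
  conv_lhs => rw [hx (T (EuclideanSpace.single q 1)), map_sum]
  simp [mul_comm]

theorem ent_star' {N : ℕ} (T : BN N) (p : Fin N) :
    ent (star T) p p = star (ent T p p) := by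
  unfold ent
  have h1 : ∀ v : EuclideanSpace ℂ (Fin N), v p = ⟪EuclideanSpace.single p (1 : ℂ), v⟫_ℂ := by
    intro v
    simp [EuclideanSpace.inner_single_left]
  rw [h1, h1, ContinuousLinearMap.star_eq_adjoint, ContinuousLinearMap.adjoint_inner_right]
  have := inner_conj_symm (𝕜 := ℂ) (T (EuclideanSpace.single p (1 : ℂ))) (EuclideanSpace.single p (1 : ℂ))
  rw [← this]
  simp

theorem ent_norm' {N : ℕ} (T : BN N) (p : Fin N) : ‖ent T p p‖ ≤ ‖T‖ := by
  unfold ent
  calc ‖(T (EuclideanSpace.single p 1)) p‖ ≤ ‖T (EuclideanSpace.single p (1 : ℂ))‖ :=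
        PiLp.norm_apply_le _ _
    _ ≤ ‖T‖ * ‖EuclideanSpace.single p (1 : ℂ)‖ := T.le_opNorm _
    _ = ‖T‖ := by simp
/-- basic properties of the normalised trace -/
theorem tr_basic (N : ℕ) (hN : 0 < N) :
    (∀ S T : BN N, tr (S + T) = tr S + tr T) ∧ (∀ (c : ℂ) (T : BN N), tr (c • T) = c * tr T) ∧
    (∀ S T : BN N, tr (S * T) = tr (T * S)) ∧ (∀ T : BN N, ‖tr T‖ ≤ ‖T‖) ∧
    tr (1 : BN N) = 1 ∧ (∀ T : BN N, tr (star T) = star (tr T)) ∧
    (∀ S T : BN N, tr (S - T) = tr S - tr T) := by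
  have hN' : (N : ℂ) ≠ 0 := by exact_mod_cast hN.ne'
  have hNr : (N : ℝ) ≠ 0 := by exact_mod_cast hN.ne'
  refine ⟨?_, ?_, ?_, ?_, ?_, ?_, ?_⟩
  · intro S T
    unfold tr ent
    simp [Finset.sum_add_distrib, mul_add]
  · intro c T
    unfold tr ent
    simp [← Finset.mul_sum]
    ring
  · intro S T
    unfold tr
    simp only [ent_mul']
    rw [Finset.sum_comm]
    simp [mul_comm]
  · intro T
    unfold tr
    rw [norm_mul]
    have h1 : ‖∑ p, ent T p p‖ ≤ N * ‖T‖ := by
      calc ‖∑ p, ent T p p‖ ≤ ∑ p : Fin N, ‖ent T p p‖ := norm_sum_le _ _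
        _ ≤ ∑ p : Fin N, ‖T‖ := Finset.sum_le_sum fun p _ => ent_norm' T p
        _ = N * ‖T‖ := by simp
    have h2 : ‖(1 / (N : ℂ))‖ = 1 / N := by simp
    rw [h2]
    have hp : (0 : ℝ) < N := by exact_mod_cast hN
    calc (1 / (N : ℝ)) * ‖∑ p, ent T p p‖ ≤ (1 / (N : ℝ)) * (N * ‖T‖) := by gcongr
      _ = ‖T‖ := by field_simp
  · unfold tr ent
    simp [hN']
  · intro T
    unfold tr
    simp only [ent_star']
    simp
  · intro S T
    unfold tr ent
    simp [Finset.sum_sub_distrib, mul_sub]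

end

section

theorem res_norm798 (N : ℕ) (x : EuclideanSpace ℝ (ι × Fin N × Fin N)) (i : ι) :
    ‖(WithLp.toLp 2 fun p => x (i, p) : EuclideanSpace ℝ (Fin N × Fin N))‖ ≤ ‖x‖ := by
  rw [EuclideanSpace.norm_eq, EuclideanSpace.norm_eq]
  refine Real.sqrt_le_sqrt ?_
  rw [Fintype.sum_prod_type (f := fun q : ι × Fin N × Fin N => ‖x q‖ ^ 2)]
  exact Finset.single_le_sum (f := fun j => ∑ p : Fin N × Fin N, ‖x (j, p)‖ ^ 2)
    (fun j _ => Finset.sum_nonneg fun p _ => sq_nonneg _) (Finset.mem_univ i)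

/-- basic properties of `Xm` -/
theorem Xm_basic (N : ℕ) (hN : 0 < N) :
    (∀ (x : EuclideanSpace ℝ (ι × Fin N × Fin N)) i, IsSelfAdjoint (Xm N x i)) ∧
    (∀ i, ∃ T : EuclideanSpace ℝ (ι × Fin N × Fin N) →L[ℝ] BN N, (∀ x, T x = Xm N x i) ∧
      ‖T‖ ≤ 1 / √(N : ℝ)) ∧
    (∀ (i j : ι) (p : Fin N × Fin N), Xm N (EuclideanSpace.single (i, p) 1) j =
      if j = i then Hm N (EuclideanSpace.single p 1) else 0) ∧
    (∀ (x : EuclideanSpace ℝ (ι × Fin N × Fin N)) i,
      Xm N x i = ∑ p, (x (i, p) : ℂ) • Hm N (EuclideanSpace.single p 1)) := by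
  obtain ⟨h1, h2, h3, h4, h5, h6⟩ := Hm_basic N hN
  refine ⟨fun x i => h1 _, fun i => ?_, fun i j p => ?_, fun x i => h6 _⟩
  · have hadd : ∀ x y : EuclideanSpace ℝ (ι × Fin N × Fin N), Xm N (x + y) i =
        Xm N x i + Xm N y i := by
      intro x y
      unfold Xm
      rw [← h2]
      rfl
    have hsm : ∀ (c : ℝ) (x : EuclideanSpace ℝ (ι × Fin N × Fin N)), Xm N (c • x) i =
        c • Xm N x i := by
      intro c x
      unfold Xm
      have h7 := h3 c (WithLp.toLp 2 fun p => x (i, p))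
      have h9 : ∀ T : BN N, c • T = (c : ℂ) • T := fun T =>
        ContinuousLinearMap.ext fun v => (RCLike.real_smul_eq_coe_smul (K := ℂ) c (T v))
      rw [h9, ← h7]
      rfl
    have hb : ∀ x : EuclideanSpace ℝ (ι × Fin N × Fin N), ‖Xm N x i‖ ≤ 1 / √(N : ℝ) * ‖x‖ := by
      intro x
      refine (h4 _).trans ?_
      rw [div_mul_eq_mul_div, one_mul]
      exact div_le_div_of_nonneg_right (res_norm798 N x i) (Real.sqrt_nonneg _)
    refine ⟨LinearMap.mkContinuous
      ({ toFun := fun x => Xm N x i, map_add' := hadd, map_smul' := hsm } :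
        EuclideanSpace ℝ (ι × Fin N × Fin N) →ₗ[ℝ] BN N) (1 / √(N : ℝ)) hb, fun x => rfl, ?_⟩
    exact LinearMap.mkContinuous_norm_le _ (by positivity) _
  · unfold Xm
    have h7 : (WithLp.toLp 2 fun p' : Fin N × Fin N =>
        (EuclideanSpace.single (i, p) (1:ℝ) : EuclideanSpace ℝ (ι × Fin N × Fin N)) (j, p')) =
        if j = i then (EuclideanSpace.single p (1:ℝ) : EuclideanSpace ℝ (Fin N × Fin N)) else 0 := by
      ext p'
      by_cases hji : j = i
      · rw [if_pos hji]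
        show (EuclideanSpace.single (i, p) (1:ℝ) : EuclideanSpace ℝ (ι × Fin N × Fin N)) (j, p') =
          (EuclideanSpace.single p (1:ℝ) : EuclideanSpace ℝ (Fin N × Fin N)) p'
        rw [EuclideanSpace.single_apply, EuclideanSpace.single_apply]
        simp [hji]
      · rw [if_neg hji]
        show (EuclideanSpace.single (i, p) (1:ℝ) : EuclideanSpace ℝ (ι × Fin N × Fin N)) (j, p') = 0
        rw [EuclideanSpace.single_apply]
        simp [hji]
    rw [h7]
    split_ifs with hji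
    · rfl
    · have h8 := h3 0 0
      rw [zero_smul] at h8
      rw [h8]
      show ((0:ℝ) : ℂ) • Hm N 0 = 0
      rw [Complex.ofReal_zero]
      exact zero_smul ℂ (Hm N 0)

end

section

/-- a net of the unit ball of `ℂ^N` -/
theorem net (N : ℕ) : ∃ s : Finset (EuclideanSpace ℂ (Fin N)), s.card ≤ 25 ^ N ∧
    (∀ z ∈ s, ‖z‖ ≤ 1) ∧ ∀ v : EuclideanSpace ℂ (Fin N), ‖v‖ ≤ 1 → ∃ z ∈ s, ‖v - z‖ ≤ 1 / 2 := by
  classical
  have hfr : Module.finrank ℝ (EuclideanSpace ℂ (Fin N)) = 2 * N := by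
    have h := finrank_real_of_complex (EuclideanSpace ℂ (Fin N))
    rw [finrank_euclideanSpace, Fintype.card_fin] at h
    exact h
  have hbound : ∀ t : Finset (EuclideanSpace ℂ (Fin N)), (∀ c ∈ t, ‖c‖ ≤ 2) →
      (∀ c ∈ t, ∀ d ∈ t, c ≠ d → 1 ≤ ‖c - d‖) → t.card ≤ 25 ^ N := by
    intro t h1 h2
    have h3 := Besicovitch.card_le_of_separated t h1 h2
    rw [hfr, pow_mul] at h3
    exact h3
  obtain ⟨P, hP⟩ : ∃ P : ℕ → Prop, P = fun k => ∃ t : Finset (EuclideanSpace ℂ (Fin N)), t.card = k ∧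
      (∀ c ∈ t, ‖c‖ ≤ 2) ∧ (∀ c ∈ t, ∀ d ∈ t, c ≠ d → 1 ≤ ‖c - d‖) := ⟨_, rfl⟩
  have hP0 : P 0 := by
    rw [hP]
    refine ⟨∅, rfl, ?_, ?_⟩
    · intro c hc
      exact absurd hc (Finset.notMem_empty _)
    · intro c hc
      exact absurd hc (Finset.notMem_empty _)
  obtain ⟨n, hn⟩ : ∃ n, n = Nat.findGreatest P (25 ^ N) := ⟨_, rfl⟩
  have h1 : P n := by
    rw [hn]
    exact Nat.findGreatest_spec (Nat.zero_le _) hP0
  rw [hP] at h1
  obtain ⟨t, ht1, ht2, ht3⟩ := h1
  have hcover : ∀ v : EuclideanSpace ℂ (Fin N), ‖v‖ ≤ 2 → ∃ c ∈ t, ‖v - c‖ < 1 := by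
    intro v hv
    by_contra hcon
    push Not at hcon
    have hvt : v ∉ t := by
      intro hvt
      have := hcon v hvt
      rw [sub_self, norm_zero] at this
      linarith
    have hPn : P (t.card + 1) := by
      rw [hP]
      refine ⟨insert v t, Finset.card_insert_of_notMem hvt, ?_, ?_⟩
      · intro c hc
        rcases Finset.mem_insert.1 hc with rfl | hc
        · exact hv
        · exact ht2 c hc
      · intro c hc d hd hcd
        rcases Finset.mem_insert.1 hc with hc' | hc'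
        · rcases Finset.mem_insert.1 hd with hd' | hd'
          · exact absurd (hc'.trans hd'.symm) hcd
          · rw [hc']
            exact hcon d hd'
        · rcases Finset.mem_insert.1 hd with hd' | hd'
          · rw [hd', norm_sub_rev]
            exact hcon c hc'
          · exact ht3 c hc' d hd' hcd
    have hle : t.card + 1 ≤ 25 ^ N := by
      have h2 := hPn
      rw [hP] at h2
      obtain ⟨t', h3, h4, h5⟩ := h2
      rw [← h3]
      exact hbound t' h4 h5
    have h6 := Nat.le_findGreatest hle hPn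
    rw [← hn] at h6
    omega
  refine ⟨t.image (fun c => (1 / 2 : ℝ) • c), ?_, ?_, ?_⟩
  · exact Finset.card_image_le.trans (hbound t ht2 ht3)
  · intro z hz
    obtain ⟨c, hc, rfl⟩ := Finset.mem_image.1 hz
    rw [norm_smul]
    have := ht2 c hc
    rw [Real.norm_eq_abs, abs_of_pos (by norm_num : (0:ℝ) < 1 / 2)]
    linarith
  · intro v hv
    obtain ⟨c, hc, hcv⟩ := hcover ((2 : ℝ) • v) (by
      rw [norm_smul, Real.norm_eq_abs, abs_of_pos (by norm_num : (0:ℝ) < 2)]
      linarith)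
    refine ⟨(1 / 2 : ℝ) • c, Finset.mem_image.2 ⟨c, hc, rfl⟩, ?_⟩
    have h2 : v - (1 / 2 : ℝ) • c = (1 / 2 : ℝ) • ((2 : ℝ) • v - c) := by
      rw [smul_sub, smul_smul]
      norm_num
    rw [h2, norm_smul, Real.norm_eq_abs, abs_of_pos (by norm_num : (0:ℝ) < 1 / 2)]
    linarith

end

section

/-- operator norm through a net -/
theorem net_norm (N : ℕ) (s : Finset (EuclideanSpace ℂ (Fin N))) (hs : ∀ z ∈ s, ‖z‖ ≤ 1)
    (hn : ∀ v : EuclideanSpace ℂ (Fin N), ‖v‖ ≤ 1 → ∃ z ∈ s, ‖v - z‖ ≤ 1 / 2) (T : BN N) (M : ℝ)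
    (hM0 : 0 ≤ M) (hM : ∀ w ∈ s, ∀ z ∈ s, ‖⟪w, T z⟫_ℂ‖ ≤ M) : ‖T‖ ≤ 4 * M := by
  have h1 : ∀ z ∈ s, ‖T z‖ ≤ 2 * M := by
    intro z hz
    by_cases h0 : T z = 0
    · rw [h0, norm_zero]; positivity
    · have hpos : 0 < ‖T z‖ := norm_pos_iff.mpr h0
      obtain ⟨u, hu⟩ : ∃ u : EuclideanSpace ℂ (Fin N), u = ((‖T z‖⁻¹ : ℝ) : ℂ) • T z := ⟨_, rfl⟩
      have hu1 : ‖u‖ = 1 := by
        rw [hu, norm_smul, Complex.norm_real, norm_inv, norm_norm, inv_mul_cancel₀ hpos.ne']
      have hu2 : ‖⟪u, T z⟫_ℂ‖ = ‖T z‖ := by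
        rw [hu, inner_smul_left, norm_mul, inner_self_eq_norm_sq_to_K, RCLike.norm_conj,
          Complex.norm_real, norm_inv, norm_norm, norm_pow]
        simp only [Complex.coe_algebraMap, Complex.norm_real, norm_norm]
        field_simp
      obtain ⟨w, hw, hwu⟩ := hn u hu1.le
      have h2 : ⟪u, T z⟫_ℂ = ⟪w, T z⟫_ℂ + ⟪u - w, T z⟫_ℂ := by
        rw [inner_sub_left]; ring
      have h3 : ‖⟪u - w, T z⟫_ℂ‖ ≤ 1 / 2 * ‖T z‖ :=
        (norm_inner_le_norm _ _).trans (mul_le_mul_of_nonneg_right hwu (norm_nonneg _))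
      have h4 : ‖⟪u, T z⟫_ℂ‖ ≤ M + 1 / 2 * ‖T z‖ := by
        rw [h2]
        exact (norm_add_le _ _).trans (add_le_add (hM w hw z hz) h3)
      rw [hu2] at h4
      linarith
  have h2 : ‖T‖ ≤ 2 * M + ‖T‖ / 2 := by
    apply ContinuousLinearMap.opNorm_le_of_unit_norm (by positivity)
    intro v hv
    obtain ⟨z, hz, hvz⟩ := hn v hv.le
    have h3 : T v = T z + T (v - z) := by rw [map_sub]; abel
    rw [h3]
    refine (norm_add_le _ _).trans (add_le_add (h1 z hz) ?_)
    calc ‖T (v - z)‖ ≤ ‖T‖ * ‖v - z‖ := T.le_opNorm _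
      _ ≤ ‖T‖ * (1 / 2) := mul_le_mul_of_nonneg_left hvz (norm_nonneg _)
      _ = ‖T‖ / 2 := by ring
  linarith

end

section

/-- Gaussian tail bound for a linear functional -/
theorem gtail {I : Type} [Fintype I] (T : EuclideanSpace ℝ I →L[ℝ] ℝ) (σ M : ℝ) (hσ : 0 < σ)
    (hT : ‖T‖ ≤ σ) (hM : 0 ≤ M) :
    (stdGaussian (EuclideanSpace ℝ I)).real {x | M ≤ |T x|} ≤
      2 * Real.exp (-M ^ 2 / (2 * σ ^ 2)) := by
  classical
  have key : ∀ S : EuclideanSpace ℝ I →L[ℝ] ℝ, ‖S‖ ≤ σ →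
      (stdGaussian (EuclideanSpace ℝ I)).real {x | M ≤ S x} ≤
        Real.exp (-M ^ 2 / (2 * σ ^ 2)) := by
    intro S hS
    have hmap : (stdGaussian (EuclideanSpace ℝ I)).map (fun x => S x) =
        gaussianReal 0 (‖S‖ ^ 2).toNNReal := by
      have h := IsGaussian.map_eq_gaussianReal (μ := stdGaussian (EuclideanSpace ℝ I)) S
      rw [variance_dual_stdGaussian, integral_strongDual_stdGaussian] at h
      exact h
    have hs : 0 ≤ M / σ ^ 2 := by positivity
    have hint : Integrable (fun ω => Real.exp (M / σ ^ 2 * S ω))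
        (stdGaussian (EuclideanSpace ℝ I)) := by
      have h1 : Integrable (fun y : ℝ => Real.exp (M / σ ^ 2 * y))
          ((stdGaussian (EuclideanSpace ℝ I)).map (fun x => S x)) := by
        rw [hmap]
        exact integrable_exp_mul_gaussianReal _
      exact h1.comp_measurable (by fun_prop)
    have h2 := measure_ge_le_exp_mul_mgf (μ := stdGaussian (EuclideanSpace ℝ I))
      (X := fun x => S x) M hs hint
    rw [mgf_gaussianReal hmap] at h2
    refine h2.trans ?_
    rw [← Real.exp_add]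
    apply Real.exp_le_exp.2
    have h3 : (((‖S‖ ^ 2).toNNReal : NNReal) : ℝ) = ‖S‖ ^ 2 :=
      Real.coe_toNNReal _ (by positivity)
    rw [h3]
    have h4 : ‖S‖ ^ 2 ≤ σ ^ 2 := by gcongr
    have h5 : ‖S‖ ^ 2 * (M / σ ^ 2) ^ 2 ≤ σ ^ 2 * (M / σ ^ 2) ^ 2 := by gcongr
    have h6 : σ ^ 2 * (M / σ ^ 2) ^ 2 = M ^ 2 / σ ^ 2 := by
      field_simp
    have h7 : -(M / σ ^ 2) * M = -(M ^ 2 / σ ^ 2) := by ring
    have h8 : -M ^ 2 / (2 * σ ^ 2) = -(M ^ 2 / σ ^ 2) / 2 := by
      field_simp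
    rw [h7, h8]
    linarith
  have hsub : {x : EuclideanSpace ℝ I | M ≤ |T x|} ⊆ {x | M ≤ T x} ∪ {x | M ≤ (-T) x} := by
    intro x hx
    simp only [Set.mem_setOf_eq] at hx
    rcases le_abs.1 hx with h | h
    · exact Or.inl h
    · exact Or.inr (by simpa using h)
  calc (stdGaussian (EuclideanSpace ℝ I)).real {x | M ≤ |T x|}
      ≤ (stdGaussian (EuclideanSpace ℝ I)).real ({x | M ≤ T x} ∪ {x | M ≤ (-T) x}) :=
        measureReal_mono hsub
    _ ≤ (stdGaussian (EuclideanSpace ℝ I)).real {x | M ≤ T x} +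
        (stdGaussian (EuclideanSpace ℝ I)).real {x | M ≤ (-T) x} := measureReal_union_le _ _
    _ ≤ Real.exp (-M ^ 2 / (2 * σ ^ 2)) + Real.exp (-M ^ 2 / (2 * σ ^ 2)) := by
        gcongr
        · exact key T hT
        · exact key (-T) (by simpa using hT)
    _ = 2 * Real.exp (-M ^ 2 / (2 * σ ^ 2)) := by ring

end

section

theorem entry_tail_lin {E : Type} [NormedAddCommGroup E] [NormedSpace ℝ E] (N : ℕ)
    (T : E →L[ℝ] BN N) (w z : EuclideanSpace ℂ (Fin N)) (x y : E) (c : ℝ) :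
    ⟪w, T (x + y) z⟫_ℂ = ⟪w, T x z⟫_ℂ + ⟪w, T y z⟫_ℂ ∧
      ⟪w, T (c • x) z⟫_ℂ = (c : ℂ) * ⟪w, T x z⟫_ℂ := by
  constructor
  · rw [map_add]
    show ⟪w, T x z + T y z⟫_ℂ = _
    rw [inner_add_right]
  · rw [map_smul]
    have h : (c • T x) z = (c : ℂ) • (T x z) := by
      show c • (T x z) = (c : ℂ) • (T x z)
      rw [Complex.coe_smul]
    rw [h, inner_smul_right]

theorem entry_tail_bd {E : Type} [NormedAddCommGroup E] [NormedSpace ℝ E] (N : ℕ)
    (T : E →L[ℝ] BN N) (σ : ℝ) (hT : ‖T‖ ≤ σ) (w z : EuclideanSpace ℂ (Fin N)) (hw : ‖w‖ ≤ 1)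
    (hz : ‖z‖ ≤ 1) (x : E) : ‖⟪w, T x z⟫_ℂ‖ ≤ σ * ‖x‖ := by
  calc ‖⟪w, T x z⟫_ℂ‖ ≤ ‖w‖ * ‖T x z‖ := norm_inner_le_norm _ _
    _ ≤ 1 * ‖T x z‖ := mul_le_mul_of_nonneg_right hw (norm_nonneg _)
    _ = ‖T x z‖ := one_mul _
    _ ≤ ‖T x‖ * ‖z‖ := (T x).le_opNorm z
    _ ≤ ‖T x‖ * 1 := mul_le_mul_of_nonneg_left hz (norm_nonneg _)
    _ = ‖T x‖ := mul_one _
    _ ≤ ‖T‖ * ‖x‖ := T.le_opNorm x
    _ ≤ σ * ‖x‖ := mul_le_mul_of_nonneg_right hT (norm_nonneg _)

/-- tail of a matrix coefficient -/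
theorem entry_tail (N : ℕ) (hN : 0 < N) (i : ι) (w z : EuclideanSpace ℂ (Fin N)) (hw : ‖w‖ ≤ 1)
    (hz : ‖z‖ ≤ 1) (M : ℝ) (hM : 0 ≤ M) :
    (gue ι N).real {x | M < ‖⟪w, Xm N x i z⟫_ℂ‖} ≤ 4 * Real.exp (-(N * M ^ 2) / 4) := by
  obtain ⟨T, hTx, hTn⟩ := (Xm_basic (ι := ι) N hN).2.1 i
  have hN' : (0:ℝ) < N := by exact_mod_cast hN
  have hσ : (0:ℝ) < 1 / √(N : ℝ) := by positivity
  let fre : EuclideanSpace ℝ (ι × Fin N × Fin N) →ₗ[ℝ] ℝ :=
    { toFun := fun x => (⟪w, T x z⟫_ℂ).re
      map_add' := fun x y => by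
        rw [(entry_tail_lin N T w z x y 0).1, Complex.add_re]
      map_smul' := fun c x => by
        rw [(entry_tail_lin N T w z x x c).2, Complex.re_ofReal_mul]
        rfl }
  let fim : EuclideanSpace ℝ (ι × Fin N × Fin N) →ₗ[ℝ] ℝ :=
    { toFun := fun x => (⟪w, T x z⟫_ℂ).im
      map_add' := fun x y => by
        rw [(entry_tail_lin N T w z x y 0).1, Complex.add_im]
      map_smul' := fun c x => by
        rw [(entry_tail_lin N T w z x x c).2, Complex.im_ofReal_mul]
        rfl }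
  have hre : ∀ x, ‖fre x‖ ≤ 1 / √(N : ℝ) * ‖x‖ := fun x =>
    (Complex.abs_re_le_norm _).trans (entry_tail_bd N T _ hTn w z hw hz x)
  have him : ∀ x, ‖fim x‖ ≤ 1 / √(N : ℝ) * ‖x‖ := fun x =>
    (Complex.abs_im_le_norm _).trans (entry_tail_bd N T _ hTn w z hw hz x)
  let Fre := fre.mkContinuous _ hre
  let Fim := fim.mkContinuous _ him
  have nre : ‖Fre‖ ≤ 1 / √(N : ℝ) := LinearMap.mkContinuous_norm_le _ hσ.le _
  have nim : ‖Fim‖ ≤ 1 / √(N : ℝ) := LinearMap.mkContinuous_norm_le _ hσ.le _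
  have hM2 : 0 ≤ M / √2 := by positivity
  have t1 := gtail Fre (1 / √(N : ℝ)) (M / √2) hσ nre hM2
  have t2 := gtail Fim (1 / √(N : ℝ)) (M / √2) hσ nim hM2
  have hexp : -(M / √2) ^ 2 / (2 * (1 / √(N : ℝ)) ^ 2) = -(N * M ^ 2) / 4 := by
    rw [div_pow, div_pow, Real.sq_sqrt (by norm_num), Real.sq_sqrt hN'.le, one_pow]
    field_simp
    ring
  rw [hexp] at t1 t2
  have hsub : {x | M < ‖⟪w, Xm N x i z⟫_ℂ‖} ⊆ {x | M / √2 ≤ |Fre x|} ∪ {x | M / √2 ≤ |Fim x|} := by
    intro x hx
    have hx' : M < ‖⟪w, T x z⟫_ℂ‖ := by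
      rw [hTx]
      exact hx
    by_contra hcon
    rw [Set.mem_union] at hcon
    push Not at hcon
    obtain ⟨h1, h2⟩ := hcon
    have h1' : |(⟪w, T x z⟫_ℂ).re| < M / √2 := not_le.1 h1
    have h2' : |(⟪w, T x z⟫_ℂ).im| < M / √2 := not_le.1 h2
    have h3 : (⟪w, T x z⟫_ℂ).re ^ 2 < M ^ 2 / 2 := by
      have := sq_lt_sq' (by linarith [abs_nonneg (⟪w, T x z⟫_ℂ).re]) h1'
      rw [sq_abs, div_pow, Real.sq_sqrt (by norm_num)] at this
      exact this
    have h4 : (⟪w, T x z⟫_ℂ).im ^ 2 < M ^ 2 / 2 := by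
      have := sq_lt_sq' (by linarith [abs_nonneg (⟪w, T x z⟫_ℂ).im]) h2'
      rw [sq_abs, div_pow, Real.sq_sqrt (by norm_num)] at this
      exact this
    have h5 : ‖⟪w, T x z⟫_ℂ‖ ^ 2 < M ^ 2 := by
      rw [Complex.sq_norm, Complex.normSq_apply]
      nlinarith
    have h6 : M ^ 2 < ‖⟪w, T x z⟫_ℂ‖ ^ 2 := pow_lt_pow_left₀ hx' hM two_ne_zero
    linarith
  calc (gue ι N).real {x | M < ‖⟪w, Xm N x i z⟫_ℂ‖}
      ≤ (gue ι N).real ({x | M / √2 ≤ |Fre x|} ∪ {x | M / √2 ≤ |Fim x|}) := measureReal_mono hsub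
    _ ≤ (gue ι N).real {x | M / √2 ≤ |Fre x|} + (gue ι N).real {x | M / √2 ≤ |Fim x|} :=
        measureReal_union_le _ _
    _ ≤ 2 * Real.exp (-(N * M ^ 2) / 4) + 2 * Real.exp (-(N * M ^ 2) / 4) := add_le_add t1 t2
    _ = 4 * Real.exp (-(N * M ^ 2) / 4) := by ring

end

section

/-- probability of the bad event -/
theorem bad_bound (N : ℕ) (hN : 0 < N) :
    (gue ι N).real (good (ι := ι) N 24)ᶜ ≤
      Fintype.card ι * ((625 : ℝ) ^ N * (4 * Real.exp (-(9 * N)))) := by
  classical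
  obtain ⟨s, hsc, hs1, hs2⟩ := net N
  have hsub : (good (ι := ι) N 24)ᶜ ⊆ ⋃ i ∈ (Finset.univ : Finset ι), ⋃ p ∈ s ×ˢ s,
      {x : EuclideanSpace ℝ (ι × Fin N × Fin N) | (6 : ℝ) < ‖⟪p.1, Xm N x i p.2⟫_ℂ‖} := by
    intro x hx
    by_contra hcon
    apply hx
    intro i
    have h := net_norm N s hs1 hs2 (Xm N x i) 6 (by norm_num) (by
      intro w hw z hz
      by_contra hlt
      apply hcon
      simp only [Set.mem_iUnion]
      refine ⟨i, Finset.mem_univ i, (w, z), Finset.mem_product.2 ⟨hw, hz⟩, ?_⟩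
      exact not_le.1 hlt)
    linarith
  have h1 : (gue ι N).real (good (ι := ι) N 24)ᶜ ≤
      (gue ι N).real (⋃ i ∈ (Finset.univ : Finset ι), ⋃ p ∈ s ×ˢ s,
      {x : EuclideanSpace ℝ (ι × Fin N × Fin N) | (6 : ℝ) < ‖⟪p.1, Xm N x i p.2⟫_ℂ‖}) :=
    measureReal_mono hsub (measure_ne_top _ _)
  have hb : ∀ i : ι, ∀ p ∈ s ×ˢ s, (gue ι N).real
      {x : EuclideanSpace ℝ (ι × Fin N × Fin N) | (6 : ℝ) < ‖⟪p.1, Xm N x i p.2⟫_ℂ‖} ≤
        4 * Real.exp (-(9 * N)) := by
    intro i p hp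
    have hp' := Finset.mem_product.1 hp
    have h := entry_tail (ι := ι) N hN i p.1 p.2 (hs1 _ hp'.1) (hs1 _ hp'.2) 6 (by norm_num)
    have he : (-((N : ℝ) * 6 ^ 2) / 4) = -(9 * N) := by ring
    rwa [he] at h
  have hcard : ((s ×ˢ s).card : ℝ) ≤ (625 : ℝ) ^ N := by
    rw [Finset.card_product]
    push_cast
    have h2 : (s.card : ℝ) ≤ (25 : ℝ) ^ N := by exact_mod_cast hsc
    have h3 : (625 : ℝ) ^ N = (25 : ℝ) ^ N * (25 : ℝ) ^ N := by
      rw [← mul_pow]; norm_num
    rw [h3]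
    exact mul_le_mul h2 h2 (by positivity) (by positivity)
  have hi : ∀ i ∈ (Finset.univ : Finset ι), (gue ι N).real (⋃ p ∈ s ×ˢ s,
      {x : EuclideanSpace ℝ (ι × Fin N × Fin N) | (6 : ℝ) < ‖⟪p.1, Xm N x i p.2⟫_ℂ‖}) ≤
        (625 : ℝ) ^ N * (4 * Real.exp (-(9 * N))) := by
    intro i _
    refine (measureReal_biUnion_finset_le _ _).trans ?_
    refine (Finset.sum_le_sum (hb i)).trans ?_
    rw [Finset.sum_const, nsmul_eq_mul]
    exact mul_le_mul_of_nonneg_right hcard (by positivity)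
  refine h1.trans ((measureReal_biUnion_finset_le _ _).trans ((Finset.sum_le_sum hi).trans ?_))
  rw [Finset.sum_const, nsmul_eq_mul, Finset.card_univ]

end

section

/-- D1: the operator norms are bounded with probability tending to one. -/
theorem gue_norm : ∃ L : ℝ, 2 ≤ L ∧ Tendsto (fun N : ℕ =>
    (stdGaussian (EuclideanSpace ℝ (ι × Fin (N + 1) × Fin (N + 1)))).real (good (N + 1) L)ᶜ)
    atTop (𝓝 0) := by
  refine ⟨24, by norm_num, ?_⟩
  have hr0 : (0 : ℝ) ≤ 625 * Real.exp (-9) := by positivity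
  have hr1 : 625 * Real.exp (-9) < 1 := by
    have h1 : (2.7182818283 : ℝ) < Real.exp 1 := Real.exp_one_gt_d9
    have h2 : Real.exp 9 = Real.exp 1 ^ 9 := by
      rw [← Real.exp_nat_mul]
      norm_num
    have h3 : (2.7 : ℝ) ^ 9 ≤ Real.exp 1 ^ 9 :=
      pow_le_pow_left₀ (by norm_num) (by linarith) 9
    have h4 : (625 : ℝ) < Real.exp 9 := by
      rw [h2]
      refine lt_of_lt_of_le ?_ h3
      norm_num
    rw [Real.exp_neg, ← div_eq_mul_inv, div_lt_one (Real.exp_pos 9)]
    exact h4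
  have hb : ∀ N : ℕ,
      (stdGaussian (EuclideanSpace ℝ (ι × Fin (N + 1) × Fin (N + 1)))).real
        (good (ι := ι) (N + 1) 24)ᶜ ≤
        (Fintype.card ι * (4 * (625 * Real.exp (-9)))) * (625 * Real.exp (-9)) ^ N := by
    intro N
    have h := bad_bound (ι := ι) (N + 1) (Nat.succ_pos N)
    have he : Real.exp (-(9 * ((N + 1 : ℕ) : ℝ))) = Real.exp (-9) ^ (N + 1) := by
      rw [← Real.exp_nat_mul]
      congr 1
      ring
    rw [he] at h
    refine h.trans (le_of_eq ?_)
    rw [mul_pow]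
    ring
  have ht : Tendsto (fun N : ℕ =>
      ((Fintype.card ι : ℝ) * (4 * (625 * Real.exp (-9)))) * (625 * Real.exp (-9)) ^ N)
      atTop (𝓝 0) := by
    have := (tendsto_pow_atTop_nhds_zero_of_lt_one hr0 hr1).const_mul
      ((Fintype.card ι : ℝ) * (4 * (625 * Real.exp (-9))))
    simpa using this
  exact squeeze_zero (fun N => measureReal_nonneg) hb ht

end

section

theorem ra_word_aux1 {H : Type} [NormedAddCommGroup H] [InnerProductSpace ℂ H] [CompleteSpace H]
    (s : ι → (H →L[ℂ] H)) (j : ι) (v : List ι) (x : H) :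
    Wp s (j :: v) x = s j (Wp s v x) := by
  unfold Wp
  rw [List.map_cons, List.prod_cons]
  rfl

theorem ra_word_aux2 {H : Type} [NormedAddCommGroup H] [InnerProductSpace ℂ H] [CompleteSpace H]
    (s : ι → (H →L[ℂ] H)) (Ω : H) (j : ι) (l : List (List ι × List ι)) :
    s j ((l.map fun p => tau Ω (Wp s p.2) • Wp s p.1 Ω).sum) =
      ((l.map fun p : List ι × List ι => (j :: p.1, p.2)).map
        fun p => tau Ω (Wp s p.2) • Wp s p.1 Ω).sum := by
  induction l with
  | nil => simp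
  | cons p l ih =>
    simp only [List.map_cons, List.sum_cons]
    rw [map_add, ih, map_smul, ra_word_aux1]

/-- right annihilation applied to a word -/
theorem ra_word {H : Type} [NormedAddCommGroup H] [InnerProductSpace ℂ H] [CompleteSpace H]
    (S : FS ι H) (i : ι) (v : List ι) :
    S.ra i (Wp S.s v S.Ω) =
      ((spl i v).map fun p => tau S.Ω (Wp S.s p.2) • Wp S.s p.1 S.Ω).sum := by
  induction v with
  | nil =>
    have h1 : Wp S.s ([] : List ι) S.Ω = S.Ω := by
      unfold Wp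
      simp
    rw [h1, S.raΩ]
    simp [spl]
  | cons j v ih =>
    rw [ra_word_aux1]
    by_cases hj : j = i
    · subst hj
      rw [S.ra_s_self, ih, ra_word_aux2]
      have h2 : spl j (j :: v) = ([], v) :: (spl j v).map fun p => (j :: p.1, p.2) := by
        simp [spl]
      rw [h2, List.map_cons, List.sum_cons, add_comm]
      congr 1
    · have h3 : S.ra i (S.s j (Wp S.s v S.Ω)) = S.s j (S.ra i (Wp S.s v S.Ω)) := by
        have := congrArg (fun T : H →L[ℂ] H => T (Wp S.s v S.Ω)) (S.ra_s i j (Ne.symm hj))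
        exact this
      rw [h3, ih, ra_word_aux2]
      have h2 : spl i (j :: v) = (spl i v).map fun p => (j :: p.1, p.2) := by
        simp [spl, hj]
      rw [h2]

end

section

theorem fock_rec_list {H : Type} [NormedAddCommGroup H] [InnerProductSpace ℂ H] [CompleteSpace H]
    (S : FS ι H) (l : List (List ι × List ι)) :
    ⟪S.Ω, (l.map fun p => tau S.Ω (Wp S.s p.2) • Wp S.s p.1 S.Ω).sum⟫_ℂ =
      (l.map fun p => tau S.Ω (Wp S.s p.1) * tau S.Ω (Wp S.s p.2)).sum := by
  induction l with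
  | nil => simp
  | cons p l ih =>
    rw [List.map_cons, List.map_cons, List.sum_cons, List.sum_cons, inner_add_right, ih,
      inner_smul_right, mul_comm]
    rfl

/-- recursion for the moments of the semicircular system -/
theorem fock_rec {H : Type} [NormedAddCommGroup H] [InnerProductSpace ℂ H] [CompleteSpace H]
    (S : FS ι H) (i : ι) (v : List ι) :
    tau S.Ω (Wp S.s (i :: v)) =
      ((spl i v).map fun p => tau S.Ω (Wp S.s p.1) * tau S.Ω (Wp S.s p.2)).sum := by
  rw [← fock_rec_list, ← ra_word]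
  obtain ⟨ξ, hξ⟩ : ∃ ξ, ξ = Wp S.s v S.Ω := ⟨_, rfl⟩
  have h1 : tau S.Ω (Wp S.s (i :: v)) = ⟪S.Ω, S.s i ξ⟫_ℂ := by
    rw [hξ]
    unfold tau Wp
    rw [List.map_cons, List.prod_cons]
    rfl
  have h2 : ⟪S.Ω, S.s i ξ⟫_ℂ = ⟪S.s i S.Ω, ξ⟫_ℂ := by
    have h3 := ContinuousLinearMap.adjoint_inner_left (S.s i) ξ S.Ω
    have h4 : ContinuousLinearMap.adjoint (S.s i) = S.s i := S.s_sa i
    rw [h4] at h3
    exact h3.symm
  have h5 : ⟪(star (S.ra i)) S.Ω, ξ⟫_ℂ = ⟪S.Ω, S.ra i ξ⟫_ℂ :=
    ContinuousLinearMap.adjoint_inner_left (S.ra i) ξ S.Ω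
  rw [h1, h2, S.sΩ, S.d_eq, ContinuousLinearMap.add_apply, S.raΩ, zero_add, h5, hξ]

end

section

theorem sETE_ext {N : ℕ} {S T : BN N} (h : ∀ p q, ent S p q = ent T p q) : S = T := by
  apply ContinuousLinearMap.coe_injective
  apply (EuclideanSpace.basisFun (Fin N) ℂ).toBasis.ext
  intro q
  ext p
  simpa [ent] using h p q

theorem sETE_add {N : ℕ} (S T : BN N) (p q : Fin N) : ent (S + T) p q = ent S p q + ent T p q := by
  simp [ent]

theorem sETE_smul {N : ℕ} (c : ℂ) (T : BN N) (p q : Fin N) : ent (c • T) p q = c * ent T p q := by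
  simp [ent]

theorem sETE_one {N : ℕ} (p q : Fin N) : ent (1 : BN N) p q = if p = q then 1 else 0 := by
  simp [ent]

theorem sETE_sum {N : ℕ} {κ : Type} (s : Finset κ) (F : κ → BN N) (p q : Fin N) :
    ent (∑ k ∈ s, F k) p q = ∑ k ∈ s, ent (F k) p q := by
  classical
  induction s using Finset.induction_on with
  | empty => simp [ent]
  | insert a s ha ih => rw [Finset.sum_insert ha, Finset.sum_insert ha, sETE_add, ih]

theorem sETE_vec {N : ℕ} (v : EuclideanSpace ℂ (Fin N)) :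
    v = ∑ k, v k • EuclideanSpace.single k (1 : ℂ) := by
  have := (EuclideanSpace.basisFun (Fin N) ℂ).sum_repr v
  simpa using this.symm

theorem sETE_mul {N : ℕ} (S T : BN N) (p q : Fin N) :
    ent (S * T) p q = ∑ k, ent S p k * ent T k q := by
  have h : (S * T) (EuclideanSpace.single q 1) = S (T (EuclideanSpace.single q 1)) := rfl
  unfold ent
  rw [h]
  conv_lhs => rw [sETE_vec (T (EuclideanSpace.single q 1))]
  rw [map_sum]
  simp [mul_comm]

theorem sETE_dd {κ : Type} [Fintype κ] [DecidableEq κ] (x y : κ) :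
    ∑ p : κ, ((if x = p then (1 : ℂ) else 0) * (if y = p then (1 : ℂ) else 0)) =
      if x = y then 1 else 0 := by
  simp [Finset.sum_ite_eq, eq_comm]

theorem sETE_key (N : ℕ) (hN : 0 < N) (r k l s : Fin N) :
    ∑ p : Fin N × Fin N, ent (Hm N (EuclideanSpace.single p 1)) r k *
      ent (Hm N (EuclideanSpace.single p 1)) l s =
      if r = s ∧ k = l then 1 / (N : ℂ) else 0 := by
  have hE := (Hm_basic N hN).2.2.2.2.1
  have hs : ∀ p x : Fin N × Fin N,
      ((EuclideanSpace.single p (1 : ℝ) : EuclideanSpace ℝ (Fin N × Fin N)) x : ℂ) =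
        if x = p then 1 else 0 := by
    intro p x
    rw [PiLp.single_apply]
    split_ifs <;> simp
  have hc : ((1 / √(N : ℝ) : ℝ) : ℂ) * ((1 / √(N : ℝ) : ℝ) : ℂ) = 1 / (N : ℂ) := by
    rw [← Complex.ofReal_mul]
    have : (1 / √(N : ℝ)) * (1 / √(N : ℝ)) = 1 / (N : ℝ) := by
      rw [div_mul_div_comm, Real.mul_self_sqrt (by positivity), one_mul]
    rw [this]
    push_cast
    ring
  have step : ∀ p : Fin N × Fin N, ent (Hm N (EuclideanSpace.single p 1)) r k *
      ent (Hm N (EuclideanSpace.single p 1)) l s =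
      (1 / (N : ℂ)) * (((1 + Complex.I) / 2) * ((1 + Complex.I) / 2) *
          ((if (r, k) = p then (1 : ℂ) else 0) * (if (l, s) = p then (1 : ℂ) else 0)) +
        ((1 + Complex.I) / 2) * ((1 - Complex.I) / 2) *
          ((if (r, k) = p then (1 : ℂ) else 0) * (if (s, l) = p then (1 : ℂ) else 0)) +
        ((1 + Complex.I) / 2) * ((1 - Complex.I) / 2) *
          ((if (k, r) = p then (1 : ℂ) else 0) * (if (l, s) = p then (1 : ℂ) else 0)) +
        ((1 - Complex.I) / 2) * ((1 - Complex.I) / 2) *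
          ((if (k, r) = p then (1 : ℂ) else 0) * (if (s, l) = p then (1 : ℂ) else 0))) := by
    intro p
    rw [hE, hE, hs, hs, hs, hs, ← hc]
    ring
  rw [Finset.sum_congr rfl (fun p _ => step p), ← Finset.mul_sum, Finset.sum_add_distrib,
    Finset.sum_add_distrib, Finset.sum_add_distrib, ← Finset.mul_sum, ← Finset.mul_sum,
    ← Finset.mul_sum, ← Finset.mul_sum, sETE_dd, sETE_dd, sETE_dd, sETE_dd]
  have e1 : ((k, r) = (s, l)) ↔ ((r, k) = (l, s)) := by
    simp only [Prod.mk.injEq]; tauto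
  have e2 : ((k, r) = (l, s)) ↔ (r = s ∧ k = l) := by
    simp only [Prod.mk.injEq]; tauto
  have e3 : ((r, k) = (s, l)) ↔ (r = s ∧ k = l) := by
    simp only [Prod.mk.injEq]
  simp only [e1, e2, e3]
  have hI : Complex.I * Complex.I = -1 := Complex.I_mul_I
  by_cases h1 : (r, k) = (l, s) <;> by_cases h2 : (r = s ∧ k = l)
  · rw [if_pos h1, if_pos h2, if_pos h2]
    linear_combination (0 : ℂ) * hI
  · rw [if_pos h1, if_neg h2, if_neg h2]
    linear_combination (1 / (N : ℂ) / 2) * hI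
  · rw [if_neg h1, if_pos h2, if_pos h2]
    linear_combination (- (1 / (N : ℂ)) / 2) * hI
  · rw [if_neg h1, if_neg h2, if_neg h2]
    ring

/-- `∑_p E_p T E_p = tr(T) 1` -/
theorem sum_ETE (N : ℕ) (hN : 0 < N) (T : BN N) :
    ∑ p : Fin N × Fin N, Hm N (EuclideanSpace.single p 1) * T * Hm N (EuclideanSpace.single p 1) =
      tr T • (1 : BN N) := by
  apply sETE_ext
  intro r s
  rw [sETE_sum, sETE_smul, sETE_one]
  have step : ∀ p : Fin N × Fin N,
      ent (Hm N (EuclideanSpace.single p 1) * T * Hm N (EuclideanSpace.single p 1)) r s =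
      ∑ l, ∑ k, ent T k l * (ent (Hm N (EuclideanSpace.single p 1)) r k *
        ent (Hm N (EuclideanSpace.single p 1)) l s) := by
    intro p
    rw [sETE_mul]
    refine Finset.sum_congr rfl fun l _ => ?_
    rw [sETE_mul, Finset.sum_mul]
    refine Finset.sum_congr rfl fun k _ => ?_
    ring
  rw [Finset.sum_congr rfl (fun p _ => step p), Finset.sum_comm]
  have step2 : ∀ l : Fin N, ∑ p : Fin N × Fin N, ∑ k, ent T k l *
      (ent (Hm N (EuclideanSpace.single p 1)) r k *
        ent (Hm N (EuclideanSpace.single p 1)) l s) =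
      ∑ k, ent T k l * (if r = s ∧ k = l then 1 / (N : ℂ) else 0) := by
    intro l
    rw [Finset.sum_comm]
    refine Finset.sum_congr rfl fun k _ => ?_
    rw [← Finset.mul_sum, sETE_key N hN]
  rw [Finset.sum_congr rfl (fun l _ => step2 l)]
  by_cases h : r = s
  · subst h
    simp only [true_and, if_true, mul_ite, mul_zero, Finset.sum_ite_eq', Finset.sum_ite_eq,
      Finset.mem_univ, mul_one, tr]
    rw [Finset.mul_sum]
    refine Finset.sum_congr rfl fun l _ => ?_
    ring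
  · simp [h]

end

section

theorem ent_mul_j16810 {N : ℕ} (S T : BN N) (p q : Fin N) :
    ent (S * T) p q = ∑ r, ent S p r * ent T r q := by
  have h1 : T (EuclideanSpace.single q 1) =
      ∑ r, (ent T r q) • (EuclideanSpace.single r (1:ℂ) : EuclideanSpace ℂ (Fin N)) := by
    ext k
    simp [ent, Pi.single_apply]
  have h2 : ent (S * T) p q = (S (T (EuclideanSpace.single q 1))) p := rfl
  rw [h2, h1, map_sum]
  simp only [map_smul]
  rw [WithLp.ofLp_sum, Finset.sum_apply]
  refine Finset.sum_congr rfl fun r _ => ?_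
  simp only [PiLp.smul_apply, smul_eq_mul, ent]
  ring

theorem tr_EA_j16810 (N : ℕ) (hN : 0 < N) (A : BN N) (p q : Fin N) :
    tr (Hm N (EuclideanSpace.single (p, q) 1) * A) =
      (1 / (N : ℂ)) * (((1 / √(N : ℝ) : ℝ) : ℂ) *
        (((1 + Complex.I) / 2) * ent A q p + ((1 - Complex.I) / 2) * ent A p q)) := by
  have hE : ∀ k r, ent (Hm N (EuclideanSpace.single (p, q) 1)) k r =
      ((1 / √(N : ℝ) : ℝ) : ℂ) * (((1 + Complex.I) / 2) * (if k = p ∧ r = q then 1 else 0) +
        ((1 - Complex.I) / 2) * (if r = p ∧ k = q then 1 else 0)) := by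
    intro k r
    rw [(Hm_basic N hN).2.2.2.2.1]
    congr 2
    · congr 1
      by_cases h : k = p ∧ r = q
      · simp [h]
      · have h' : (k, r) ≠ (p, q) := fun e => h ⟨(Prod.ext_iff.1 e).1, (Prod.ext_iff.1 e).2⟩
        simp [h, h']
    · congr 1
      by_cases h : r = p ∧ k = q
      · simp [h]
      · have h' : (r, k) ≠ (p, q) := fun e => h ⟨(Prod.ext_iff.1 e).1, (Prod.ext_iff.1 e).2⟩
        simp [h, h']
  unfold tr
  congr 1
  have h1 : ∀ k, ent (Hm N (EuclideanSpace.single (p, q) 1) * A) k k =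
      ((1 / √(N : ℝ) : ℝ) : ℂ) * (((1 + Complex.I) / 2) * (if k = p then ent A q k else 0) +
        ((1 - Complex.I) / 2) * (if k = q then ent A p k else 0)) := by
    intro k
    rw [ent_mul_j16810]
    have h2 : ∀ r, ent (Hm N (EuclideanSpace.single (p, q) 1)) k r * ent A r k =
        ((1 / √(N : ℝ) : ℝ) : ℂ) * ((1 + Complex.I) / 2) *
          (if r = q then (if k = p then ent A q k else 0) else 0) +
        ((1 / √(N : ℝ) : ℝ) : ℂ) * ((1 - Complex.I) / 2) *
          (if r = p then (if k = q then ent A p k else 0) else 0) := by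
      intro r
      rw [hE]
      by_cases h3 : r = q <;> by_cases h4 : k = p <;> by_cases h5 : r = p <;>
        by_cases h6 : k = q <;> simp_all <;> ring
    simp only [h2]
    rw [Finset.sum_add_distrib, ← Finset.mul_sum, ← Finset.mul_sum]
    simp only [Finset.sum_ite_eq', Finset.mem_univ, if_true]
    ring
  simp only [h1]
  rw [← Finset.mul_sum, Finset.sum_add_distrib, ← Finset.mul_sum, ← Finset.mul_sum]
  simp only [Finset.sum_ite_eq', Finset.mem_univ, if_true]

/-- `∑_p tr(E_p A) tr(E_p B) = N^{-2} tr(AB)` -/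
theorem sum_trtr (N : ℕ) (hN : 0 < N) (A B : BN N) :
    ∑ p : Fin N × Fin N, tr (Hm N (EuclideanSpace.single p 1) * A) *
        tr (Hm N (EuclideanSpace.single p 1) * B) =
      (1 / (N : ℂ) ^ 2) * tr (A * B) := by
  have hN0 : (N : ℂ) ≠ 0 := by exact_mod_cast hN.ne'
  have hs : ((1 / √(N : ℝ) : ℝ) : ℂ) * ((1 / √(N : ℝ) : ℝ) : ℂ) = 1 / (N : ℂ) := by
    rw [← Complex.ofReal_mul]
    have : (1 / √(N : ℝ)) * (1 / √(N : ℝ)) = 1 / (N : ℝ) := by
      rw [div_mul_div_comm, Real.mul_self_sqrt (Nat.cast_nonneg N), one_mul]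
    rw [this]
    push_cast
    rfl
  obtain ⟨c, hc⟩ : ∃ c : ℂ, c = ((1 / √(N : ℝ) : ℝ) : ℂ) := ⟨_, rfl⟩
  rw [← hc] at hs
  rw [Fintype.sum_prod_type]
  have h1 : ∀ p q, tr (Hm N (EuclideanSpace.single (p, q) 1) * A) *
      tr (Hm N (EuclideanSpace.single (p, q) 1) * B) =
      (1 / (N : ℂ)) ^ 3 * ((Complex.I / 2) * (ent A q p * ent B q p) -
        (Complex.I / 2) * (ent A p q * ent B p q) + (1 / 2) * (ent A q p * ent B p q) +
        (1 / 2) * (ent A p q * ent B q p)) := by
    intro p q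
    rw [tr_EA_j16810 N hN, tr_EA_j16810 N hN, ← hc]
    have e1 : ((1 + Complex.I) / 2) * ((1 + Complex.I) / 2) = Complex.I / 2 := by
      have := Complex.I_mul_I
      linear_combination (1/4) * this
    have e2 : ((1 - Complex.I) / 2) * ((1 - Complex.I) / 2) = - (Complex.I / 2) := by
      have := Complex.I_mul_I
      linear_combination (1/4) * this
    have e3 : ((1 + Complex.I) / 2) * ((1 - Complex.I) / 2) = 1 / 2 := by
      have := Complex.I_mul_I
      linear_combination (-1/4) * this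
    obtain ⟨u, hu⟩ : ∃ u : ℂ, u = (1 + Complex.I) / 2 := ⟨_, rfl⟩
    obtain ⟨v, hv⟩ : ∃ v : ℂ, v = (1 - Complex.I) / 2 := ⟨_, rfl⟩
    rw [← hu] at e1 e3
    rw [← hv] at e2 e3
    rw [← hu, ← hv]
    obtain ⟨w, hw⟩ : ∃ w : ℂ, w = 1 / (N : ℂ) := ⟨_, rfl⟩
    rw [← hw] at hs
    rw [← hw]
    calc w * (c * (u * ent A q p + v * ent A p q)) * (w * (c * (u * ent B q p + v * ent B p q)))
        = w * w * (c * c) * ((u * u) * (ent A q p * ent B q p) + (v * v) *
          (ent A p q * ent B p q) + (u * v) * (ent A q p * ent B p q) +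
          (u * v) * (ent A p q * ent B q p)) := by ring
      _ = _ := by rw [hs, e1, e2, e3]; ring
  simp only [h1]
  have h2 : ∀ f g : Fin N → Fin N → ℂ, ∑ p, ∑ q, f q p * g q p = ∑ p, ∑ q, f p q * g p q :=
    fun f g => Finset.sum_comm
  have h3 : ∑ p, ∑ q, ent A q p * ent B p q = ∑ p, ∑ q, ent A p q * ent B q p :=
    Finset.sum_comm
  simp only [← Finset.mul_sum, Finset.sum_add_distrib, Finset.sum_sub_distrib]
  rw [h2 (ent A) (ent B), h3]
  unfold tr
  simp only [ent_mul_j16810]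
  field_simp
  ring

end

section

theorem PG_pos {I E : Type} [Fintype I] [NormedAddCommGroup E] [NormedSpace ℝ E]
    {φ : EuclideanSpace ℝ I → E} (h : PG φ) : ContDiff ℝ 1 φ ∧ ∃ (C : ℝ) (m : ℕ), 0 ≤ C ∧
    ∀ x, ‖φ x‖ ≤ C * (1 + ‖x‖) ^ m ∧ ‖fderiv ℝ φ x‖ ≤ C * (1 + ‖x‖) ^ m := by
  obtain ⟨h1, C, m, h2⟩ := h
  refine ⟨h1, |C|, m, abs_nonneg _, fun x => ?_⟩
  have h3 : C * (1 + ‖x‖) ^ m ≤ |C| * (1 + ‖x‖) ^ m :=
    mul_le_mul_of_nonneg_right (le_abs_self C) (by positivity)
  exact ⟨(h2 x).1.trans h3, (h2 x).2.trans h3⟩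

theorem PG_mul {I E : Type} [Fintype I] [NormedRing E] [NormedAlgebra ℝ E]
    (φ ψ : EuclideanSpace ℝ I → E) (hφ : PG φ) (hψ : PG ψ) : PG (fun x => φ x * ψ x) := by
  obtain ⟨h1, C1, m1, hC1, hb1⟩ := PG_pos hφ
  obtain ⟨h2, C2, m2, hC2, hb2⟩ := PG_pos hψ
  refine ⟨h1.mul h2, 2 * C1 * C2, m1 + m2, fun x => ?_⟩
  have hx : (0:ℝ) ≤ 1 + ‖x‖ := by positivity
  obtain ⟨a1, a2⟩ := hb1 x
  obtain ⟨b1, b2⟩ := hb2 x
  have hA : 0 ≤ C1 * (1 + ‖x‖) ^ m1 := by positivity
  have hB : 0 ≤ C2 * (1 + ‖x‖) ^ m2 := by positivity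
  have e : 2 * C1 * C2 * (1 + ‖x‖) ^ (m1 + m2) =
      2 * ((C1 * (1 + ‖x‖) ^ m1) * (C2 * (1 + ‖x‖) ^ m2)) := by
    rw [pow_add]; ring
  rw [e]
  constructor
  · calc ‖φ x * ψ x‖ ≤ ‖φ x‖ * ‖ψ x‖ := norm_mul_le _ _
      _ ≤ (C1 * (1 + ‖x‖) ^ m1) * (C2 * (1 + ‖x‖) ^ m2) :=
        mul_le_mul a1 b1 (norm_nonneg _) hA
      _ ≤ 2 * ((C1 * (1 + ‖x‖) ^ m1) * (C2 * (1 + ‖x‖) ^ m2)) := by
        have := mul_nonneg hA hB
        linarith
  · have d1 : HasFDerivAt φ (fderiv ℝ φ x) x :=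
      ((h1.differentiable (by norm_num)) x).hasFDerivAt
    have d2 : HasFDerivAt ψ (fderiv ℝ ψ x) x :=
      ((h2.differentiable (by norm_num)) x).hasFDerivAt
    have d3 := d1.mul' d2
    rw [show (fun x => φ x * ψ x) = φ * ψ from rfl, d3.fderiv]
    apply ContinuousLinearMap.opNorm_le_bound _ (by positivity)
    intro v
    have e2 : (φ x • fderiv ℝ ψ x + MulOpposite.op (ψ x) • fderiv ℝ φ x) v =
        φ x * (fderiv ℝ ψ x v) + (fderiv ℝ φ x v) * ψ x := rfl
    rw [e2]
    have f1 : ‖φ x * (fderiv ℝ ψ x v)‖ ≤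
        (C1 * (1 + ‖x‖) ^ m1) * ((C2 * (1 + ‖x‖) ^ m2) * ‖v‖) := by
      refine (norm_mul_le _ _).trans (mul_le_mul a1 ?_ (norm_nonneg _) hA)
      exact (ContinuousLinearMap.le_opNorm _ _).trans
        (mul_le_mul_of_nonneg_right b2 (norm_nonneg _))
    have f2 : ‖(fderiv ℝ φ x v) * ψ x‖ ≤
        ((C1 * (1 + ‖x‖) ^ m1) * ‖v‖) * (C2 * (1 + ‖x‖) ^ m2) := by
      refine (norm_mul_le _ _).trans (mul_le_mul ?_ b1 (norm_nonneg _) (by positivity))
      exact (ContinuousLinearMap.le_opNorm _ _).trans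
        (mul_le_mul_of_nonneg_right a2 (norm_nonneg _))
    refine (norm_add_le _ _).trans ?_
    refine (add_le_add f1 f2).trans (le_of_eq ?_)
    ring

theorem PG_add {I E : Type} [Fintype I] [NormedRing E] [NormedAlgebra ℝ E]
    (φ ψ : EuclideanSpace ℝ I → E) (hφ : PG φ) (hψ : PG ψ) : PG (fun x => φ x + ψ x) := by
  obtain ⟨h1, C1, m1, hC1, hb1⟩ := PG_pos hφ
  obtain ⟨h2, C2, m2, hC2, hb2⟩ := PG_pos hψ
  refine ⟨h1.add h2, C1 + C2, m1 + m2, fun x => ?_⟩
  have hx : (1:ℝ) ≤ 1 + ‖x‖ := by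
    have := norm_nonneg x
    linarith
  obtain ⟨a1, a2⟩ := hb1 x
  obtain ⟨b1, b2⟩ := hb2 x
  have g1 : C1 * (1 + ‖x‖) ^ m1 ≤ C1 * (1 + ‖x‖) ^ (m1 + m2) :=
    mul_le_mul_of_nonneg_left (pow_le_pow_right₀ hx (by omega)) hC1
  have g2 : C2 * (1 + ‖x‖) ^ m2 ≤ C2 * (1 + ‖x‖) ^ (m1 + m2) :=
    mul_le_mul_of_nonneg_left (pow_le_pow_right₀ hx (by omega)) hC2
  rw [add_mul]
  constructor
  · refine (norm_add_le _ _).trans ?_
    linarith
  · have d1 : DifferentiableAt ℝ φ x := (h1.differentiable (by norm_num)) x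
    have d2 : DifferentiableAt ℝ ψ x := (h2.differentiable (by norm_num)) x
    rw [show (fun x => φ x + ψ x) = φ + ψ from rfl, fderiv_add d1 d2]
    refine (norm_add_le _ _).trans ?_
    linarith

theorem PG_const {I E : Type} [Fintype I] [NormedRing E] [NormedAlgebra ℝ E] (c : E) :
    PG (fun _ : EuclideanSpace ℝ I => c) := by
  refine ⟨contDiff_const, ‖c‖, 0, fun x => ⟨?_, ?_⟩⟩
  · simp
  · rw [fderiv_const_apply]; simp

/-- closure properties of maps of polynomial growth -/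
theorem PG_ring {I E : Type} [Fintype I] [NormedRing E] [NormedAlgebra ℝ E] :
    (∀ c : E, PG (fun _ : EuclideanSpace ℝ I => c)) ∧
    (∀ T : EuclideanSpace ℝ I →L[ℝ] E, PG (fun x => T x)) ∧
    (∀ φ ψ : EuclideanSpace ℝ I → E, PG φ → PG ψ → PG (fun x => φ x * ψ x)) ∧
    (∀ φ ψ : EuclideanSpace ℝ I → E, PG φ → PG ψ → PG (fun x => φ x + ψ x)) ∧
    (∀ (κ : Type) (φ : κ → EuclideanSpace ℝ I → E) (l : List κ), (∀ k ∈ l, PG (φ k)) →
      PG (fun x => (l.map fun k => φ k x).prod)) := by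
  refine ⟨PG_const, ?_, PG_mul, PG_add, ?_⟩
  · intro T
    refine ⟨T.contDiff, ‖T‖, 1, fun x => ⟨?_, ?_⟩⟩
    · refine (T.le_opNorm x).trans ?_
      apply mul_le_mul_of_nonneg_left _ (norm_nonneg _)
      rw [pow_one]; linarith
    · rw [show (fun x => T x) = (T : EuclideanSpace ℝ I → E) from rfl,
        ContinuousLinearMap.fderiv, pow_one]
      have h1 := norm_nonneg T
      have h2 := norm_nonneg x
      nlinarith
  · intro κ φ l
    induction l with
    | nil =>
      intro _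
      simp only [List.map_nil, List.prod_nil]
      exact PG_const 1
    | cons k l ih =>
      intro h
      simp only [List.map_cons, List.prod_cons]
      exact PG_mul _ _ (h k (by simp)) (ih fun k' hk' => h k' (by simp [hk']))

end

section

/-- composition with a continuous linear map -/
theorem PG_comp {I E E' : Type} [Fintype I] [NormedAddCommGroup E] [NormedSpace ℝ E]
    [NormedAddCommGroup E'] [NormedSpace ℝ E'] (φ : EuclideanSpace ℝ I → E) (h : PG φ)
    (T : E →L[ℝ] E') : PG (fun x => T (φ x)) := by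
  obtain ⟨hc, C, m, hb⟩ := h
  have hd : Differentiable ℝ φ := hc.differentiable (by norm_num)
  refine ⟨T.contDiff.comp hc, ‖T‖ * C, m, fun x => ⟨?_, ?_⟩⟩
  · calc ‖T (φ x)‖ ≤ ‖T‖ * ‖φ x‖ := T.le_opNorm _
      _ ≤ ‖T‖ * (C * (1 + ‖x‖) ^ m) := mul_le_mul_of_nonneg_left (hb x).1 (norm_nonneg _)
      _ = ‖T‖ * C * (1 + ‖x‖) ^ m := by ring
  · have he : fderiv ℝ (fun x => T (φ x)) x = T ∘L fderiv ℝ φ x :=
      (T.hasFDerivAt.comp x (hd x).hasFDerivAt).fderiv
    rw [he]
    calc ‖T ∘L fderiv ℝ φ x‖ ≤ ‖T‖ * ‖fderiv ℝ φ x‖ := T.opNorm_comp_le _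
      _ ≤ ‖T‖ * (C * (1 + ‖x‖) ^ m) := mul_le_mul_of_nonneg_left (hb x).2 (norm_nonneg _)
      _ = ‖T‖ * C * (1 + ‖x‖) ^ m := by ring

end

section

theorem PG_int_pow {I : Type} [Fintype I] (m : ℕ) :
    Integrable (fun x : EuclideanSpace ℝ I => (1 + ‖x‖) ^ m) (stdGaussian (EuclideanSpace ℝ I)) := by
  have h1 : MemLp (fun x : EuclideanSpace ℝ I => x) (m : ℝ≥0∞) (stdGaussian (EuclideanSpace ℝ I)) :=
    IsGaussian.memLp_id (stdGaussian (EuclideanSpace ℝ I)) m (by simp)
  have h2 : MemLp (fun x : EuclideanSpace ℝ I => 1 + ‖x‖) (m : ℝ≥0∞)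
      (stdGaussian (EuclideanSpace ℝ I)) := (memLp_const (1 : ℝ)).add h1.norm
  have h3 := h2.integrable_norm_pow'
  refine h3.congr (Filter.Eventually.of_forall (fun x => ?_))
  show ‖1 + ‖x‖‖ ^ m = (1 + ‖x‖) ^ m
  rw [Real.norm_of_nonneg (by positivity)]

/-- integrability of maps of polynomial growth -/
theorem PG_int {I : Type} [Fintype I] (φ : EuclideanSpace ℝ I → ℂ) (h : PG φ) (k : I) :
    Integrable φ (stdGaussian (EuclideanSpace ℝ I)) ∧
    Integrable (fun x => ((x k : ℝ) : ℂ) * φ x) (stdGaussian (EuclideanSpace ℝ I)) ∧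
    ∀ v, Integrable (fun x => fderiv ℝ φ x v) (stdGaussian (EuclideanSpace ℝ I)) := by
  obtain ⟨hφ, C, m, hC⟩ := h
  have hC0 : 0 ≤ C := by
    have := (norm_nonneg _).trans (hC 0).1
    simpa using this
  have hcont : Continuous φ := hφ.continuous
  have hcd : Continuous (fun x => fderiv ℝ φ x) := hφ.continuous_fderiv (by norm_num)
  refine ⟨?_, ?_, ?_⟩
  · exact ((PG_int_pow m).const_mul C).mono' hcont.aestronglyMeasurable
      (Filter.Eventually.of_forall (fun x => (hC x).1))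
  · have hc2 : Continuous (fun x : EuclideanSpace ℝ I => ((x k : ℝ) : ℂ) * φ x) := by fun_prop
    refine ((PG_int_pow (m + 1)).const_mul C).mono' hc2.aestronglyMeasurable
      (Filter.Eventually.of_forall (fun x => ?_))
    rw [norm_mul, Complex.norm_real]
    have h1 : ‖x k‖ ≤ 1 + ‖x‖ := (PiLp.norm_apply_le x k).trans (by linarith)
    calc ‖x k‖ * ‖φ x‖ ≤ (1 + ‖x‖) * (C * (1 + ‖x‖) ^ m) :=
          mul_le_mul h1 (hC x).1 (norm_nonneg _) (by positivity)
      _ = C * (1 + ‖x‖) ^ (m + 1) := by ring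
  · intro v
    have hc2 : Continuous (fun x => fderiv ℝ φ x v) := hcd.clm_apply continuous_const
    refine (((PG_int_pow m).const_mul C).mul_const ‖v‖).mono' hc2.aestronglyMeasurable
      (Filter.Eventually.of_forall (fun x => ?_))
    exact ((fderiv ℝ φ x).le_opNorm v).trans
      (mul_le_mul_of_nonneg_right (hC x).2 (norm_nonneg _))

end

section

/-- density of the standard Gaussian -/
noncomputable def spg {I : Type} [Fintype I] (y : EuclideanSpace ℝ I) : ℝ :=
  (2 * Real.pi) ^ (-(Fintype.card I : ℝ) / 2) * Real.exp (-(1 / 2) * ‖y‖ ^ 2)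

theorem spg_int {I : Type} [Fintype I] :
    Integrable (fun y : EuclideanSpace ℝ I => spg y) := by
  have h1 : Integrable (fun y : EuclideanSpace ℝ I => Real.exp (-(1 / 2) * ‖y‖ ^ 2)) := by
    apply Integrable.of_integral_ne_zero
    rw [GaussianFourier.integral_rexp_neg_mul_sq_norm (V := EuclideanSpace ℝ I) (b := 1 / 2) (by norm_num)]
    positivity
  unfold spg
  exact h1.const_mul _

theorem spg_nonneg {I : Type} [Fintype I] (y : EuclideanSpace ℝ I) : 0 ≤ spg y := by
  unfold spg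
  positivity

theorem spg_cont {I : Type} [Fintype I] : Continuous (fun y : EuclideanSpace ℝ I => spg y) := by
  unfold spg
  fun_prop

theorem spg_std {I : Type} [Fintype I] : stdGaussian (EuclideanSpace ℝ I) =
    (volume : Measure (EuclideanSpace ℝ I)).withDensity (fun y => ENNReal.ofReal (spg y)) := by
  haveI : IsFiniteMeasure ((volume : Measure (EuclideanSpace ℝ I)).withDensity
      (fun y => ENNReal.ofReal (spg y))) :=
    isFiniteMeasure_withDensity_ofReal spg_int.2
  apply Measure.ext_of_charFun (E := EuclideanSpace ℝ I)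
  ext t
  rw [charFun_stdGaussian, charFun_apply]
  rw [integral_withDensity_eq_integral_toReal_smul
    (spg_cont.measurable.ennreal_ofReal) (Filter.Eventually.of_forall fun y => ENNReal.ofReal_lt_top)]
  have h1 : ∀ y : EuclideanSpace ℝ I, (ENNReal.ofReal (spg y)).toReal • Complex.exp ((⟪y, t⟫_ℝ : ℝ) * Complex.I)
      = (((2 * Real.pi) ^ (-(Fintype.card I : ℝ) / 2) : ℝ) : ℂ) *
        Complex.exp (-(((1 / 2 : ℝ)) : ℂ) * ((‖y‖ : ℝ) : ℂ) ^ 2 + Complex.I * ((⟪t, y⟫_ℝ : ℝ) : ℂ)) := by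
    intro y
    rw [ENNReal.toReal_ofReal (spg_nonneg y), Complex.real_smul]
    unfold spg
    rw [Complex.ofReal_mul, Complex.ofReal_exp, mul_assoc, ← Complex.exp_add, real_inner_comm]
    congr 2
    push_cast
    ring
  rw [integral_congr_ae (Filter.Eventually.of_forall h1), integral_const_mul,
    GaussianFourier.integral_cexp_neg_mul_sq_norm_add (V := EuclideanSpace ℝ I) (b := (((1 / 2 : ℝ)) : ℂ))
      (by rw [Complex.ofReal_re]; norm_num) Complex.I t]
  rw [finrank_euclideanSpace]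
  have h2 : ((Real.pi : ℂ) / (((1 / 2 : ℝ)) : ℂ)) ^ ((Fintype.card I : ℂ) / 2)
      = (((2 * Real.pi) ^ ((Fintype.card I : ℝ) / 2) : ℝ) : ℂ) := by
    rw [Complex.ofReal_cpow (by positivity)]
    push_cast
    congr 1
    ring
  rw [h2, ← mul_assoc, ← Complex.ofReal_mul, ← Real.rpow_add (by positivity)]
  have h3 : -(Fintype.card I : ℝ) / 2 + (Fintype.card I : ℝ) / 2 = 0 := by ring
  rw [h3, Real.rpow_zero, Complex.ofReal_one, one_mul]
  congr 1
  rw [Complex.I_sq]
  push_cast
  ring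

theorem spg_integral {I : Type} [Fintype I] (f : EuclideanSpace ℝ I → ℂ) :
    ∫ z, f z ∂(stdGaussian (EuclideanSpace ℝ I)) = ∫ z, spg z • f z := by
  rw [spg_std, integral_withDensity_eq_integral_toReal_smul (spg_cont.measurable.ennreal_ofReal)
    (Filter.Eventually.of_forall fun x => ENNReal.ofReal_lt_top)]
  congr 1
  funext z
  rw [ENNReal.toReal_ofReal (spg_nonneg z)]

theorem spg_integrable {I : Type} [Fintype I] (f : EuclideanSpace ℝ I → ℂ)
    (h : Integrable f (stdGaussian (EuclideanSpace ℝ I))) : Integrable (fun z => spg z • f z) := by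
  rw [spg_std, integrable_withDensity_iff_integrable_smul' (spg_cont.measurable.ennreal_ofReal)
    (Filter.Eventually.of_forall fun x => ENNReal.ofReal_lt_top)] at h
  refine h.congr (Filter.Eventually.of_forall fun z => ?_)
  show (ENNReal.ofReal (spg z)).toReal • f z = spg z • f z
  rw [ENNReal.toReal_ofReal (spg_nonneg z)]

theorem spg_fd {I : Type} [Fintype I] [DecidableEq I] (z : EuclideanSpace ℝ I) (i : I) :
    DifferentiableAt ℝ (spg : EuclideanSpace ℝ I → ℝ) z ∧
    fderiv ℝ spg z (EuclideanSpace.single i 1) = -(z i * spg z) := by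
  obtain ⟨c, hc⟩ : ∃ c : ℝ, c = (2 * Real.pi) ^ (-(Fintype.card I : ℝ) / 2) := ⟨_, rfl⟩
  have hg : (spg : EuclideanSpace ℝ I → ℝ) = fun y => c * Real.exp (-(1 / 2) * ‖y‖ ^ 2) := by
    funext y
    unfold spg
    rw [hc]
  have h : HasFDerivAt (fun y : EuclideanSpace ℝ I => c * Real.exp (-(1 / 2) * ‖y‖ ^ 2))
      (c • (Real.exp (-(1 / 2) * ‖z‖ ^ 2) • ((-(1 / 2) : ℝ) • (2 • innerSL ℝ z)))) z :=
    (((hasStrictFDerivAt_norm_sq z).hasFDerivAt.const_mul (-(1 / 2))).exp).const_mul c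
  rw [hg]
  refine ⟨h.differentiableAt, ?_⟩
  rw [h.fderiv]
  show c * (Real.exp (-(1 / 2) * ‖z‖ ^ 2) * (-(1 / 2) * (2 • ⟪z, EuclideanSpace.single i 1⟫_ℝ))) = _
  have h2 : ⟪z, EuclideanSpace.single i (1 : ℝ)⟫_ℝ = z i := by
    rw [EuclideanSpace.inner_single_right]
    simp
  rw [h2]
  simp only [nsmul_eq_mul]
  push_cast
  ring

/-- Gaussian integration by parts for functions of polynomial growth -/
theorem stein_poly {I : Type} [Fintype I] [DecidableEq I] (φ : EuclideanSpace ℝ I → ℂ) (h : PG φ)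
    (k : I) :
    ∫ x, ((x k : ℝ) : ℂ) * φ x ∂(stdGaussian (EuclideanSpace ℝ I)) =
      ∫ x, fderiv ℝ φ x (EuclideanSpace.single k 1) ∂(stdGaussian (EuclideanSpace ℝ I)) := by
  obtain ⟨i1, i2, i3⟩ := PG_int φ h k
  have j1 := spg_integrable _ i1
  have j2 := spg_integrable _ i2
  have j3 := spg_integrable _ (i3 (EuclideanSpace.single k 1))
  have hd : Differentiable ℝ φ := h.1.differentiable (by norm_num)
  have e2 : (fun z : EuclideanSpace ℝ I => fderiv ℝ (spg : EuclideanSpace ℝ I → ℝ) z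
      (EuclideanSpace.single k 1) • φ z) = fun z => -(spg z • (((z k : ℝ) : ℂ) * φ z)) := by
    funext z
    rw [(spg_fd z k).2, Complex.real_smul, Complex.real_smul]
    push_cast
    ring
  have key := integral_smul_fderiv_eq_neg_fderiv_smul_of_integrable
    (μ := (volume : Measure (EuclideanSpace ℝ I))) (f := (spg : EuclideanSpace ℝ I → ℝ)) (g := φ)
    (v := EuclideanSpace.single k 1) (by rw [e2]; exact j2.neg) j3 j1
    (fun x _ => (spg_fd x k).1) (fun x _ => hd x)
  rw [spg_integral, spg_integral, key, e2, integral_neg, neg_neg]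

end

section

/-- the normalised trace as a continuous real-linear map -/
theorem wpg_trL (N : ℕ) (hN : 0 < N) : ∃ T : BN N →L[ℝ] ℂ, ∀ S, T S = tr S := by
  obtain ⟨h1, h2, -, h4, -, -, -⟩ := tr_basic N hN
  let L : BN N →ₗ[ℂ] ℂ := { toFun := tr, map_add' := h1, map_smul' := fun c T => h2 c T }
  let T : BN N →L[ℂ] ℂ := L.mkContinuous 1 (fun x => by
    rw [one_mul]
    exact h4 x)
  exact ⟨T.restrictScalars ℝ, fun S => rfl⟩

/-- the adjoint as a continuous real-linear map -/
theorem wpg_starL (N : ℕ) : ∃ T : BN N →L[ℝ] BN N, ∀ S, T S = star S := by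
  have hs : ∀ (c : ℝ) (T : BN N), star (c • T) = c • star T := by
    intro c T
    have h1 : c • T = (c : ℂ) • T := rfl
    have h2 : c • star T = (c : ℂ) • star T := rfl
    rw [h1, h2, star_smul]
    congr 1
    exact Complex.conj_ofReal c
  let L : BN N →ₗ[ℝ] BN N := { toFun := star, map_add' := fun x y => star_add x y, map_smul' := hs }
  let T : BN N →L[ℝ] BN N := L.mkContinuous 1 (fun x => by
    rw [one_mul]
    exact (norm_star x).le)
  exact ⟨T, fun S => rfl⟩

/-- words are of polynomial growth -/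
theorem word_PG (N : ℕ) (hN : 0 < N) :
    (∀ w : List ι, PG (fun x : EuclideanSpace ℝ (ι × Fin N × Fin N) => Wp (Xm N x) w)) ∧
    (∀ (A : BN N) (w : List ι),
      PG (fun x : EuclideanSpace ℝ (ι × Fin N × Fin N) => tr (A * Wp (Xm N x) w))) ∧
    (∀ l : List (List ι), PG (fun x : EuclideanSpace ℝ (ι × Fin N × Fin N) =>
      (l.map fun w => tr (Wp (Xm N x) w)).prod)) ∧
    (∀ (q : Polynomial ℂ) (ws : List (List (Lt ι))),
      PG (fun x : EuclideanSpace ℝ (ι × Fin N × Fin N) =>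
        (ws.map fun w => tr (evWq q (Xm N x) w)).prod)) := by
  obtain ⟨hc, hT, hm, ha, hl⟩ := PG_ring (I := ι × Fin N × Fin N) (E := BN N)
  obtain ⟨hc', hT', hm', ha', hl'⟩ := PG_ring (I := ι × Fin N × Fin N) (E := ℂ)
  obtain ⟨trL, htr⟩ := wpg_trL N hN
  obtain ⟨stL, hst⟩ := wpg_starL N
  have hX : ∀ i, PG (fun x : EuclideanSpace ℝ (ι × Fin N × Fin N) => Xm N x i) := by
    intro i
    obtain ⟨T, hT1, -⟩ := (Xm_basic (ι := ι) N hN).2.1 i
    have h := hT T
    have h2 : (fun x => T x) = (fun x : EuclideanSpace ℝ (ι × Fin N × Fin N) => Xm N x i) :=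
      funext hT1
    rw [h2] at h
    exact h
  have hW : ∀ w : List ι, PG (fun x : EuclideanSpace ℝ (ι × Fin N × Fin N) => Wp (Xm N x) w) := by
    intro w
    exact hl ι (fun i x => Xm N x i) w (fun i _ => hX i)
  have hAW : ∀ (A : BN N) (w : List ι),
      PG (fun x : EuclideanSpace ℝ (ι × Fin N × Fin N) => tr (A * Wp (Xm N x) w)) := by
    intro A w
    have h := PG_comp _ (hm _ _ (hc A) (hW w)) trL
    simp only [htr] at h
    exact h
  have hpow : ∀ i (n : ℕ), PG (fun x : EuclideanSpace ℝ (ι × Fin N × Fin N) => (Xm N x i) ^ n) := by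
    intro i n
    induction n with
    | zero => simpa using hc 1
    | succ n ih =>
      simp only [pow_succ]
      exact hm _ _ ih (hX i)
  have hq : ∀ (q : Polynomial ℂ) i, PG (fun x : EuclideanSpace ℝ (ι × Fin N × Fin N) =>
      Polynomial.aeval (Xm N x i) q) := by
    intro q i
    induction q using Polynomial.induction_on' with
    | add p q hp hq =>
      simp only [map_add]
      exact ha _ _ hp hq
    | monomial n a =>
      simp only [Polynomial.aeval_monomial]
      exact hm _ _ (hc _) (hpow i n)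
  have hlet : ∀ (q : Polynomial ℂ) (l : Lt ι), PG (fun x : EuclideanSpace ℝ (ι × Fin N × Fin N) =>
      evLq q (Xm N x) l) := by
    intro q l
    cases l with
    | X i => exact hX i
    | U i => exact hq q i
    | V i =>
      have h := PG_comp _ (hq q i) stL
      simp only [hst] at h
      exact h
  refine ⟨hW, hAW, ?_, ?_⟩
  · intro l
    apply hl' (List ι) (fun w x => tr (Wp (Xm N x) w)) l
    intro w _
    have h := hAW 1 w
    simpa only [one_mul] using h
  · intro q ws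
    apply hl' (List (Lt ι)) (fun w x => tr (evWq q (Xm N x) w)) ws
    intro w _
    have h1 : PG (fun x : EuclideanSpace ℝ (ι × Fin N × Fin N) => evWq q (Xm N x) w) :=
      hl (Lt ι) (fun l x => evLq q (Xm N x) l) w (fun l _ => hlet q l)
    have h := PG_comp _ h1 trL
    simp only [htr] at h
    exact h

end

section

/-- derivative of a word -/
theorem word_deriv (N : ℕ) (hN : 0 < N) (w : List ι) (x : EuclideanSpace ℝ (ι × Fin N × Fin N))
    (i : ι) (p : Fin N × Fin N) :
    fderiv ℝ (fun x : EuclideanSpace ℝ (ι × Fin N × Fin N) => Wp (Xm N x) w) x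
        (EuclideanSpace.single (i, p) 1) =
      ((spl i w).map fun s => Wp (Xm N x) s.1 * Hm N (EuclideanSpace.single p 1) *
        Wp (Xm N x) s.2).sum := by
  induction w with
  | nil =>
    have h1 : (fun x : EuclideanSpace ℝ (ι × Fin N × Fin N) => Wp (Xm N x) ([] : List ι)) =
        fun _ => (1 : BN N) := by
      funext y
      simp [Wp]
    rw [h1]
    simp [spl]
  | cons j w ih =>
    obtain ⟨T, hT, -⟩ := (Xm_basic N hN).2.1 j
    have hfun : (fun x : EuclideanSpace ℝ (ι × Fin N × Fin N) => Wp (Xm N x) (j :: w)) =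
        fun x => T x * Wp (Xm N x) w := by
      funext y
      rw [hT y]
      simp [Wp]
    have hd : DifferentiableAt ℝ
        (fun x : EuclideanSpace ℝ (ι × Fin N × Fin N) => Wp (Xm N x) w) x :=
      (((word_PG N hN).1 w).1.differentiable one_ne_zero) x
    have hd1 : HasFDerivAt (fun x : EuclideanSpace ℝ (ι × Fin N × Fin N) => T x) T x :=
      T.hasFDerivAt
    have h2 := hd1.mul' hd.hasFDerivAt
    have h3 : fderiv ℝ (fun x : EuclideanSpace ℝ (ι × Fin N × Fin N) => Wp (Xm N x) (j :: w)) x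
        (EuclideanSpace.single (i, p) 1) =
        T x * fderiv ℝ (fun x : EuclideanSpace ℝ (ι × Fin N × Fin N) => Wp (Xm N x) w) x
          (EuclideanSpace.single (i, p) 1) +
        T (EuclideanSpace.single (i, p) 1) * Wp (Xm N x) w := by
      have h5 : fderiv ℝ (fun x => T x * Wp (Xm N x) w) x =
          T x • fderiv ℝ (fun x => Wp (Xm N x) w) x + MulOpposite.op (Wp (Xm N x) w) • T :=
        h2.fderiv
      rw [hfun, h5]
      rfl
    rw [h3, ih, hT x, hT, (Xm_basic N hN).2.2.1 i j p]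
    have h4 : ∀ l : List (List ι × List ι), Xm N x j * (l.map fun s =>
        Wp (Xm N x) s.1 * Hm N (EuclideanSpace.single p 1) * Wp (Xm N x) s.2).sum =
        ((l.map fun s => (j :: s.1, s.2)).map fun s =>
        Wp (Xm N x) s.1 * Hm N (EuclideanSpace.single p 1) * Wp (Xm N x) s.2).sum := by
      intro l
      induction l with
      | nil => simp
      | cons a l ihl =>
        simp only [List.map_cons, List.sum_cons, mul_add]
        rw [ihl]
        congr 1
        try simp only [Wp, List.map_cons, List.prod_cons, mul_assoc]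
    rw [h4]
    by_cases hji : j = i
    · simp only [spl, hji, if_true, List.map_append, List.sum_append, List.map_cons,
        List.map_nil, List.sum_cons, List.sum_nil, add_zero]
      rw [add_comm]
      congr 1
      try simp [Wp]
    · simp only [spl, hji, if_false, List.nil_append, zero_mul, add_zero]

end

section

/-- the normalised trace as a real-linear continuous map -/
theorem exists_trL (N : ℕ) (hN : 0 < N) : ∃ L : BN N →L[ℝ] ℂ, ∀ T, L T = tr T := by
  obtain ⟨h1, h2, -, h4, -⟩ := tr_basic N hN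
  refine ⟨LinearMap.mkContinuous
    { toFun := fun T : BN N => tr T
      map_add' := h1
      map_smul' := fun r T => ?_ } 1 (fun T => ?_), fun T => rfl⟩
  · have : (r • T : BN N) = (r : ℂ) • T := by
      ext v
      simp
    rw [this, h2]
    simp
  · rw [one_mul]
    exact h4 T

theorem Wp_append' {κ A : Type} [Monoid A] (x : κ → A) (a b : List κ) :
    Wp x (a ++ b) = Wp x a * Wp x b := by
  simp [Wp]

theorem trW_hasFDeriv (N : ℕ) (hN : 0 < N) (w : List ι)
    (x : EuclideanSpace ℝ (ι × Fin N × Fin N)) :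
    DifferentiableAt ℝ (fun x : EuclideanSpace ℝ (ι × Fin N × Fin N) => tr (Wp (Xm N x) w)) x ∧
    ∀ (i : ι) (p : Fin N × Fin N),
      fderiv ℝ (fun x : EuclideanSpace ℝ (ι × Fin N × Fin N) => tr (Wp (Xm N x) w)) x
        (EuclideanSpace.single (i, p) 1) =
      ((spl i w).map fun s => tr (Hm N (EuclideanSpace.single p 1) *
        (Wp (Xm N x) (s.2 ++ s.1)))).sum := by
  obtain ⟨L, hL⟩ := exists_trL N hN
  have hw : DifferentiableAt ℝ
      (fun x : EuclideanSpace ℝ (ι × Fin N × Fin N) => Wp (Xm N x) w) x :=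
    (((word_PG N hN).1 w).1.differentiable one_ne_zero) x
  have e : (fun x : EuclideanSpace ℝ (ι × Fin N × Fin N) => tr (Wp (Xm N x) w)) =
      fun x => L (Wp (Xm N x) w) := by
    funext y
    rw [hL]
  have hd : HasFDerivAt (fun x : EuclideanSpace ℝ (ι × Fin N × Fin N) => L (Wp (Xm N x) w))
      (L.comp (fderiv ℝ (fun x : EuclideanSpace ℝ (ι × Fin N × Fin N) => Wp (Xm N x) w) x)) x :=
    L.hasFDerivAt.comp x hw.hasFDerivAt
  rw [e]
  refine ⟨hd.differentiableAt, fun i p => ?_⟩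
  rw [hd.fderiv, ContinuousLinearMap.comp_apply, word_deriv N hN w x i p, map_list_sum,
    List.map_map]
  congr 1
  apply List.map_congr_left
  intro s _
  obtain ⟨-, -, h3, -⟩ := tr_basic N hN
  simp only [Function.comp]
  rw [hL, mul_assoc, h3, mul_assoc, Wp_append']

/-- derivative of a product of traces of words -/
theorem prod_deriv (N : ℕ) (hN : 0 < N) (l : List (List ι))
    (x : EuclideanSpace ℝ (ι × Fin N × Fin N)) (i : ι) (p : Fin N × Fin N) :
    fderiv ℝ (fun x : EuclideanSpace ℝ (ι × Fin N × Fin N) =>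
        (l.map fun w => tr (Wp (Xm N x) w)).prod) x (EuclideanSpace.single (i, p) 1) =
      ∑ j ∈ Finset.range l.length, ((spl i (l.getD j [])).map fun s =>
        tr (Hm N (EuclideanSpace.single p 1) * (Wp (Xm N x) (s.2 ++ s.1)))).sum *
        ((l.eraseIdx j).map fun w => tr (Wp (Xm N x) w)).prod := by
  induction l with
  | nil => simp
  | cons w l ih =>
    obtain ⟨d1, e1⟩ := trW_hasFDeriv N hN w x
    have d2 : DifferentiableAt ℝ (fun x : EuclideanSpace ℝ (ι × Fin N × Fin N) =>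
        (l.map fun w => tr (Wp (Xm N x) w)).prod) x :=
      (((word_PG N hN).2.2.1 l).1.differentiable one_ne_zero) x
    have hm := (d1.hasFDerivAt.mul d2.hasFDerivAt).fderiv
    have e : (fun x : EuclideanSpace ℝ (ι × Fin N × Fin N) =>
        ((w :: l).map fun w => tr (Wp (Xm N x) w)).prod) =
        (fun x : EuclideanSpace ℝ (ι × Fin N × Fin N) => tr (Wp (Xm N x) w)) *
        (fun x : EuclideanSpace ℝ (ι × Fin N × Fin N) =>
        (l.map fun w => tr (Wp (Xm N x) w)).prod) := by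
      funext y
      simp
    rw [e, hm]
    rw [List.length_cons, Finset.sum_range_succ']
    simp only [ContinuousLinearMap.add_apply, ContinuousLinearMap.smul_apply, smul_eq_mul]
    rw [e1, ih, Finset.mul_sum]
    congr 1
    · apply Finset.sum_congr rfl
      intro j _
      simp only [List.getD_cons_succ, List.eraseIdx_cons_succ, List.map_cons, List.prod_cons]
      ring
    · simp only [List.getD_cons_zero, List.eraseIdx_cons_zero]
      ring

end

section

theorem rec_int_list {α X : Type*} [MeasurableSpace X] (μ : Measure X) (L : List α)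
    (g : α → X → ℂ) (hg : ∀ s ∈ L, Integrable (g s) μ) :
    Integrable (fun x => (L.map fun s => g s x).sum) μ ∧
    ∫ x, (L.map fun s => g s x).sum ∂μ = (L.map fun s => ∫ x, g s x ∂μ).sum := by
  induction L with
  | nil => simp
  | cons a L ih =>
    have h1 := hg a (by simp)
    obtain ⟨h2, h3⟩ := ih (fun s hs => hg s (by simp [hs]))
    simp only [List.map_cons, List.sum_cons]
    exact ⟨h1.add h2, by rw [integral_add h1 h2, h3]⟩

theorem rec_sum_comm {α β : Type*} (S : Finset β) (L : List α) (g : β → α → ℂ) :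
    ∑ p ∈ S, (L.map (g p)).sum = (L.map fun s => ∑ p ∈ S, g p s).sum := by
  induction L with
  | nil => simp
  | cons a L ih => simp [Finset.sum_add_distrib, ih]

theorem rec_Wp_append {κ A : Type} [Monoid A] (x : κ → A) (a b : List κ) :
    Wp x (a ++ b) = Wp x a * Wp x b := by
  unfold Wp
  rw [List.map_append, List.prod_append]

theorem rec_tr_sum (N : ℕ) (hN : 0 < N) {β : Type*} (S : Finset β) (f : β → BN N) :
    tr (∑ p ∈ S, f p) = ∑ p ∈ S, tr (f p) := by
  have hb := tr_basic N hN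
  classical
  have h0 : tr (0 : BN N) = 0 := by
    have := hb.2.2.2.2.2.2 (0 : BN N) 0
    rwa [sub_self, sub_self] at this
  induction S using Finset.induction_on with
  | empty => simpa using h0
  | insert a S ha ih => rw [Finset.sum_insert ha, Finset.sum_insert ha, hb.1, ih]

theorem rec_tr_list (N : ℕ) (hN : 0 < N) {β : Type*} (L : List β) (f : β → BN N) (E : BN N) :
    tr (E * (L.map f).sum) = (L.map fun s => tr (E * f s)).sum := by
  have hb := tr_basic N hN
  have h0 : tr (0 : BN N) = 0 := by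
    have := hb.2.2.2.2.2.2 (0 : BN N) 0
    rwa [sub_self, sub_self] at this
  induction L with
  | nil => simpa using h0
  | cons a L ih => simp only [List.map_cons, List.sum_cons, mul_add, hb.1, ih]

/-- derivative of `x ↦ tr (E * Wp x v)` -/
theorem rec_f1 (N : ℕ) (hN : 0 < N) (E : BN N) (v : List ι)
    (x e : EuclideanSpace ℝ (ι × Fin N × Fin N)) :
    HasFDerivAt (fun x : EuclideanSpace ℝ (ι × Fin N × Fin N) => tr (E * Wp (Xm N x) v))
      (fderiv ℝ (fun x : EuclideanSpace ℝ (ι × Fin N × Fin N) => tr (E * Wp (Xm N x) v)) x) x ∧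
    fderiv ℝ (fun x : EuclideanSpace ℝ (ι × Fin N × Fin N) => tr (E * Wp (Xm N x) v)) x e =
      tr (E * fderiv ℝ (fun x : EuclideanSpace ℝ (ι × Fin N × Fin N) => Wp (Xm N x) v) x e) := by
  have hb := tr_basic N hN
  let trL : BN N →ₗ[ℂ] ℂ :=
    { toFun := tr
      map_add' := hb.1
      map_smul' := fun c T => by rw [hb.2.1]; rfl }
  let trC : BN N →L[ℂ] ℂ := trL.mkContinuous 1 (fun T => by
    rw [one_mul]
    exact hb.2.2.2.1 T)
  let Lp : BN N →L[ℝ] ℂ := (trC.comp (ContinuousLinearMap.mul ℂ (BN N) E)).restrictScalars ℝ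
  have hLp : ∀ T, Lp T = tr (E * T) := fun T => rfl
  have hW : Differentiable ℝ
      (fun x : EuclideanSpace ℝ (ι × Fin N × Fin N) => Wp (Xm N x) v) :=
    ((word_PG N hN).1 v).1.differentiable (by simp)
  have h1 : HasFDerivAt (fun x : EuclideanSpace ℝ (ι × Fin N × Fin N) =>
      tr (E * Wp (Xm N x) v))
      (Lp.comp (fderiv ℝ (fun x : EuclideanSpace ℝ (ι × Fin N × Fin N) => Wp (Xm N x) v) x)) x := by
    have hL : HasFDerivAt (fun T : BN N => tr (E * T)) Lp (Wp (Xm N x) v) := Lp.hasFDerivAt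
    exact hL.comp x (hW x).hasFDerivAt
  rw [h1.fderiv]
  exact ⟨h1, rfl⟩

/-- recursion (loop equation) for the mixed moments -/
theorem mN_rec (N : ℕ) (hN : 0 < N) (i : ι) (v : List ι) (l : List (List ι)) :
    mN N ((i :: v) :: l) = ((spl i v).map fun s => mN N (s.1 :: s.2 :: l)).sum +
      (1 / (N : ℂ) ^ 2) * ∑ j ∈ Finset.range l.length, ((spl i (l.getD j [])).map fun s =>
        mN N ((v ++ (s.2 ++ s.1)) :: l.eraseIdx j)).sum := by
  have hb := tr_basic N hN
  obtain ⟨G, hGdef⟩ : ∃ G : List (List ι) → EuclideanSpace ℝ (ι × Fin N × Fin N) → ℂ,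
      G = fun l x => (l.map fun w => tr (Wp (Xm N x) w)).prod := ⟨_, rfl⟩
  have hGcons : ∀ w l x, G (w :: l) x = tr (Wp (Xm N x) w) * G l x := by
    intro w l x
    rw [hGdef]
    simp only [List.map_cons, List.prod_cons]
  have hGPG : ∀ l, PG (G l) := by
    intro l
    rw [hGdef]
    exact (word_PG N hN).2.2.1 l
  have hmN : ∀ l, mN N l = ∫ x, G l x ∂(gue ι N) := by
    intro l
    rw [hGdef]
    rfl
  have hGint : ∀ l, Integrable (G l) (gue ι N) := fun l =>
    (PG_int _ (hGPG l) (i, (⟨0, hN⟩, ⟨0, hN⟩))).1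
  obtain ⟨E, hE⟩ : ∃ E : Fin N × Fin N → BN N, E = fun p => Hm N (EuclideanSpace.single p 1) :=
    ⟨_, rfl⟩
  obtain ⟨φ, hφ⟩ : ∃ φ : Fin N × Fin N → EuclideanSpace ℝ (ι × Fin N × Fin N) → ℂ,
      φ = fun p x => tr (E p * Wp (Xm N x) v) * G l x := ⟨_, rfl⟩
  have hφPG : ∀ p, PG (φ p) := by
    intro p
    rw [hφ]
    exact PG_ring.2.2.1 _ _ ((word_PG N hN).2.1 (E p) v) (hGPG l)
  have step1 : ∀ x : EuclideanSpace ℝ (ι × Fin N × Fin N),
      G ((i :: v) :: l) x = ∑ p : Fin N × Fin N, ((x (i, p) : ℝ) : ℂ) * φ p x := by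
    intro x
    rw [hGcons]
    have e1 : Wp (Xm N x) (i :: v) = Xm N x i * Wp (Xm N x) v := by
      unfold Wp
      rw [List.map_cons, List.prod_cons]
    rw [e1, (Xm_basic N hN).2.2.2 x i, Finset.sum_mul, rec_tr_sum N hN, Finset.sum_mul]
    refine Finset.sum_congr rfl fun p _ => ?_
    rw [smul_mul_assoc, hb.2.1, hφ, hE]
    ring
  have step2 : ∫ x, G ((i :: v) :: l) x ∂(gue ι N) =
      ∫ x, ∑ p : Fin N × Fin N, fderiv ℝ (φ p) x (EuclideanSpace.single (i, p) 1)
        ∂(gue ι N) := by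
    calc ∫ x, G ((i :: v) :: l) x ∂(gue ι N)
        = ∫ x, ∑ p : Fin N × Fin N, ((x (i, p) : ℝ) : ℂ) * φ p x ∂(gue ι N) :=
          integral_congr_ae (Eventually.of_forall step1)
      _ = ∑ p : Fin N × Fin N, ∫ x, ((x (i, p) : ℝ) : ℂ) * φ p x ∂(gue ι N) :=
          integral_finset_sum _ fun p _ => (PG_int _ (hφPG p) (i, p)).2.1
      _ = ∑ p : Fin N × Fin N, ∫ x, fderiv ℝ (φ p) x (EuclideanSpace.single (i, p) 1)
          ∂(gue ι N) :=
          Finset.sum_congr rfl fun p _ => stein_poly (φ p) (hφPG p) (i, p)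
      _ = _ := (integral_finset_sum _ fun p _ =>
          (PG_int _ (hφPG p) (i, p)).2.2 (EuclideanSpace.single (i, p) 1)).symm
  have step3 : ∀ x : EuclideanSpace ℝ (ι × Fin N × Fin N),
      ∑ p : Fin N × Fin N, fderiv ℝ (φ p) x (EuclideanSpace.single (i, p) 1) =
      ((spl i v).map fun s => G (s.1 :: s.2 :: l) x).sum +
      (1 / (N : ℂ) ^ 2) * ∑ j ∈ Finset.range l.length, ((spl i (l.getD j [])).map fun s =>
        G ((v ++ (s.2 ++ s.1)) :: l.eraseIdx j) x).sum := by
    intro x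
    have hR : HasFDerivAt (G l) (fderiv ℝ (G l) x) x :=
      ((hGPG l).1.differentiable (by simp) x).hasFDerivAt
    have hder : ∀ p : Fin N × Fin N, fderiv ℝ (φ p) x (EuclideanSpace.single (i, p) 1) =
        tr (E p * Wp (Xm N x) v) * fderiv ℝ (G l) x (EuclideanSpace.single (i, p) 1) +
        G l x * tr (E p * fderiv ℝ (fun x : EuclideanSpace ℝ (ι × Fin N × Fin N) =>
          Wp (Xm N x) v) x (EuclideanSpace.single (i, p) 1)) := by
      intro p
      obtain ⟨h1, h2⟩ := rec_f1 N hN (E p) v x (EuclideanSpace.single (i, p) 1)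
      have h3 := h1.mul hR
      have h4 : fderiv ℝ (φ p) x = tr (E p * Wp (Xm N x) v) • fderiv ℝ (G l) x +
          G l x • fderiv ℝ (fun x : EuclideanSpace ℝ (ι × Fin N × Fin N) =>
            tr (E p * Wp (Xm N x) v)) x := by
        rw [hφ]
        exact h3.fderiv
      rw [h4, ContinuousLinearMap.add_apply, ContinuousLinearMap.smul_apply,
        ContinuousLinearMap.smul_apply, h2, smul_eq_mul, smul_eq_mul]
    rw [Finset.sum_congr rfl fun p _ => hder p, Finset.sum_add_distrib, add_comm]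
    congr 1
    · -- the splittings of `v`
      rw [← Finset.mul_sum]
      have e1 : ∀ p : Fin N × Fin N, tr (E p * fderiv ℝ
          (fun x : EuclideanSpace ℝ (ι × Fin N × Fin N) => Wp (Xm N x) v) x
            (EuclideanSpace.single (i, p) 1)) =
          ((spl i v).map fun s => tr (E p * (Wp (Xm N x) s.1 * E p * Wp (Xm N x) s.2))).sum := by
        intro p
        rw [word_deriv N hN v x i p, hE]
        exact rec_tr_list N hN _ _ _
      rw [Finset.sum_congr rfl fun p _ => e1 p, rec_sum_comm, ← List.sum_map_mul_left]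
      congr 1
      refine List.map_congr_left fun s _ => ?_
      have e2 : ∑ p : Fin N × Fin N, tr (E p * (Wp (Xm N x) s.1 * E p * Wp (Xm N x) s.2)) =
          tr (Wp (Xm N x) s.1) * tr (Wp (Xm N x) s.2) := by
        have e3 : ∀ p : Fin N × Fin N, tr (E p * (Wp (Xm N x) s.1 * E p * Wp (Xm N x) s.2)) =
            tr ((E p * Wp (Xm N x) s.1 * E p) * Wp (Xm N x) s.2) := by
          intro p
          congr 1
        rw [Finset.sum_congr rfl fun p _ => e3 p, ← rec_tr_sum N hN, ← Finset.sum_mul]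
        have e4 : ∑ p : Fin N × Fin N, E p * Wp (Xm N x) s.1 * E p =
            tr (Wp (Xm N x) s.1) • (1 : BN N) := by
          rw [hE]
          exact sum_ETE N hN _
        rw [e4, smul_mul_assoc, one_mul, hb.2.1]
      rw [e2, hGcons, hGcons]
      ring
    · -- the splittings of the other words
      have e1 : ∀ p : Fin N × Fin N, fderiv ℝ (G l) x (EuclideanSpace.single (i, p) 1) =
          ∑ j ∈ Finset.range l.length, ((spl i (l.getD j [])).map fun s =>
            tr (E p * (Wp (Xm N x) (s.2 ++ s.1)))).sum * G (l.eraseIdx j) x := by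
        intro p
        rw [hGdef, hE]
        exact prod_deriv N hN l x i p
      have e2 : ∀ p : Fin N × Fin N, tr (E p * Wp (Xm N x) v) *
          fderiv ℝ (G l) x (EuclideanSpace.single (i, p) 1) =
          ∑ j ∈ Finset.range l.length, ((spl i (l.getD j [])).map fun s =>
            tr (E p * Wp (Xm N x) v) * tr (E p * (Wp (Xm N x) (s.2 ++ s.1)))).sum *
              G (l.eraseIdx j) x := by
        intro p
        rw [e1 p, Finset.mul_sum]
        refine Finset.sum_congr rfl fun j _ => ?_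
        rw [List.sum_map_mul_left]
        ring
      rw [Finset.sum_congr rfl fun p _ => e2 p, Finset.sum_comm, Finset.mul_sum]
      refine Finset.sum_congr rfl fun j _ => ?_
      rw [← Finset.sum_mul, rec_sum_comm, ← List.sum_map_mul_right, ← List.sum_map_mul_left]
      congr 1
      refine List.map_congr_left fun s _ => ?_
      have e3 : ∑ p : Fin N × Fin N, tr (E p * Wp (Xm N x) v) *
          tr (E p * (Wp (Xm N x) (s.2 ++ s.1))) =
          (1 / (N : ℂ) ^ 2) * tr (Wp (Xm N x) v * Wp (Xm N x) (s.2 ++ s.1)) := by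
        rw [hE]
        exact sum_trtr N hN _ _
      rw [e3, hGcons, ← rec_Wp_append]
      ring
  rw [hmN, step2, integral_congr_ae (Eventually.of_forall step3)]
  have i1 := rec_int_list (gue ι N) (spl i v) (fun s x => G (s.1 :: s.2 :: l) x)
    (fun s _ => hGint _)
  have i2 : ∀ j, Integrable (fun x => ((spl i (l.getD j [])).map fun s =>
      G ((v ++ (s.2 ++ s.1)) :: l.eraseIdx j) x).sum) (gue ι N) ∧
      ∫ x, ((spl i (l.getD j [])).map fun s =>
        G ((v ++ (s.2 ++ s.1)) :: l.eraseIdx j) x).sum ∂(gue ι N) =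
      ((spl i (l.getD j [])).map fun s =>
        ∫ x, G ((v ++ (s.2 ++ s.1)) :: l.eraseIdx j) x ∂(gue ι N)).sum := fun j =>
    rec_int_list (gue ι N) (spl i (l.getD j []))
      (fun s x => G ((v ++ (s.2 ++ s.1)) :: l.eraseIdx j) x) (fun s _ => hGint _)
  rw [integral_add i1.1 ((integrable_finset_sum _ fun j _ => (i2 j).1).const_mul _), i1.2,
    integral_const_mul, integral_finset_sum _ fun j _ => (i2 j).1]
  simp only [hmN]
  congr 2
  exact Finset.sum_congr rfl fun j _ => (i2 j).2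

end

section

theorem spl_len833 {κ : Type} [DecidableEq κ] (i : κ) (v : List κ) :
    ∀ s ∈ spl i v, s.1.length + s.2.length + 1 = v.length := by
  induction v with
  | nil => intro s hs; simp [spl] at hs
  | cons j v ih =>
    intro s hs
    unfold spl at hs
    rw [List.mem_append] at hs
    rcases hs with hs | hs
    · split_ifs at hs
      · rw [List.mem_singleton] at hs
        subst hs
        simp
      · simp at hs
    · rw [List.mem_map] at hs
      obtain ⟨p, hp, rfl⟩ := hs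
      have := ih p hp
      simp only [List.length_cons]
      omega

theorem erase_len833 {κ : Type} (l : List (List κ)) : ∀ j < l.length,
    ((l.eraseIdx j).map List.length).sum + (l.getD j []).length = (l.map List.length).sum := by
  induction l with
  | nil => intro j hj; simp at hj
  | cons w l ih =>
    intro j hj
    cases j with
    | zero =>
      simp only [List.eraseIdx_cons_zero, List.getD_cons_zero, List.map_cons, List.sum_cons]
      omega
    | succ j =>
      have h1 := ih j (by simpa using hj)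
      simp only [List.eraseIdx_cons_succ, List.map_cons, List.sum_cons, List.getD_cons_succ]
      omega
/-- convergence of the mixed moments -/
theorem mN_tendsto {H : Type} [NormedAddCommGroup H] [InnerProductSpace ℂ H] [CompleteSpace H]
    (S : FS ι H) (l : List (List ι)) :
    Tendsto (fun N : ℕ => mN (N + 1) l) atTop
      (𝓝 (l.map fun w => tau S.Ω (Wp S.s w)).prod) := by
  have key : ∀ k : ℕ, ∀ l : List (List ι), (l.map List.length).sum + l.length < k →
      Tendsto (fun N : ℕ => mN (N + 1) l) atTop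
        (𝓝 (l.map fun w => tau S.Ω (Wp S.s w)).prod) := by
    intro k
    induction k with
    | zero => intro l hl; omega
    | succ k ih =>
      intro l hl
      rcases l with _ | ⟨w, l⟩
      · have h1 : ∀ N : ℕ, mN (ι := ι) (N + 1) [] = 1 := by
          intro N
          unfold mN
          simp
        simp only [h1, List.map_nil, List.prod_nil]
        exact tendsto_const_nhds
      · rcases w with _ | ⟨i, v⟩
        · have h1 : ∀ N : ℕ, mN (N + 1) ([] :: l) = mN (N + 1) l := by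
            intro N
            unfold mN
            apply integral_congr_ae
            refine Filter.Eventually.of_forall fun x => ?_
            have h2 : tr (Wp (Xm (N + 1) x) []) = 1 := by
              unfold Wp
              rw [List.map_nil, List.prod_nil]
              exact (tr_basic (N + 1) (Nat.succ_pos N)).2.2.2.2.1
            simp only [List.map_cons, List.prod_cons, h2, one_mul]
          have h3 : tau S.Ω (Wp S.s []) = 1 := by
            unfold Wp tau
            rw [List.map_nil, List.prod_nil]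
            rw [show (1 : H →L[ℂ] H) S.Ω = S.Ω from rfl, inner_self_eq_norm_sq_to_K, S.norm_Ω]
            simp
          simp only [h1, List.map_cons, List.prod_cons, h3, one_mul]
          apply ih
          simp only [List.map_cons, List.sum_cons, List.length_nil, List.length_cons] at hl
          omega
        · simp only [List.map_cons, List.sum_cons, List.length_cons] at hl
          have h1 : ∀ N : ℕ, mN (N + 1) ((i :: v) :: l)
              = ((spl i v).map fun s => mN (N + 1) (s.1 :: s.2 :: l)).sum +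
              (1 / ((N + 1 : ℕ) : ℂ) ^ 2) * ∑ j ∈ Finset.range l.length,
              ((spl i (l.getD j [])).map fun s =>
                mN (N + 1) ((v ++ (s.2 ++ s.1)) :: l.eraseIdx j)).sum := fun N =>
            mN_rec (N + 1) (Nat.succ_pos N) i v l
          simp only [h1]
          have t1 : Tendsto (fun N : ℕ => ((spl i v).map fun s =>
              mN (N + 1) (s.1 :: s.2 :: l)).sum) atTop
              (𝓝 ((spl i v).map fun s => ((s.1 :: s.2 :: l).map
                fun w => tau S.Ω (Wp S.s w)).prod).sum) := by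
            apply tendsto_list_sum
            intro s hs
            apply ih
            have h2 := spl_len833 i v s hs
            simp only [List.map_cons, List.sum_cons, List.length_cons]
            omega
          have t2 : Tendsto (fun N : ℕ => ∑ j ∈ Finset.range l.length,
              ((spl i (l.getD j [])).map fun s =>
                mN (N + 1) ((v ++ (s.2 ++ s.1)) :: l.eraseIdx j)).sum) atTop
              (𝓝 (∑ j ∈ Finset.range l.length, ((spl i (l.getD j [])).map fun s =>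
                (((v ++ (s.2 ++ s.1)) :: l.eraseIdx j).map
                  fun w => tau S.Ω (Wp S.s w)).prod).sum)) := by
            apply tendsto_finsetSum
            intro j hj
            rw [Finset.mem_range] at hj
            apply tendsto_list_sum
            intro s hs
            apply ih
            have h2 := spl_len833 i _ s hs
            have h3 := erase_len833 l j hj
            have h4 := List.length_eraseIdx_of_lt hj
            simp only [List.map_cons, List.sum_cons, List.length_cons, List.length_append]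
            omega
          have t3 : Tendsto (fun N : ℕ => (1 / ((N + 1 : ℕ) : ℂ) ^ 2)) atTop (𝓝 0) := by
            have h2 : Tendsto (fun N : ℕ => (1 / ((N : ℂ) + 1))) atTop (𝓝 0) :=
              tendsto_one_div_add_atTop_nhds_zero_nat
            have h3 := h2.pow 2
            rw [zero_pow (by norm_num)] at h3
            refine h3.congr (fun N => ?_)
            rw [div_pow, one_pow]
            push_cast
            rfl
          have t4 := t1.add (t3.mul t2)
          rw [zero_mul, add_zero] at t4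
          have hval : ((spl i v).map fun s => ((s.1 :: s.2 :: l).map
                fun w => tau S.Ω (Wp S.s w)).prod).sum
              = (((i :: v) :: l).map fun w => tau S.Ω (Wp S.s w)).prod := by
            simp only [List.map_cons, List.prod_cons]
            rw [fock_rec S i v, ← List.sum_map_mul_right]
            congr 1
            apply List.map_congr_left
            intro s _
            ring
          rw [← hval]
          exact t4
  exact key _ l (Nat.lt_succ_self _)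

end

end Pool.Agent.Helper38.FE
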