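import Pool.Agent.Helper38.FE.ClsB
import Pool.Agent.Helper38.FE.GueA

/-! MODULE H2, part [A]: a second order Taylor estimate in Gauss space. -/

set_option autoImplicit false
set_option linter.unusedVariables false
set_option linter.unusedSectionVars false

open MeasureTheory ProbabilityTheory Filter Topology
open scoped RealInnerProductSpace

namespace Pool.Agent.Helper38.FE
namespace CT


/-- the rotated point `x_θ = cos θ Z - sin θ G` -/
noncomputable def xt {I : Type} (θ : ℝ) (p : EuclideanSpace ℝ I × EuclideanSpace ℝ I) :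
    EuclideanSpace ℝ I := Real.cos θ • p.1 - Real.sin θ • p.2

/-- its derivative `x'_θ = - sin θ Z - cos θ G` -/
noncomputable def xd {I : Type} (θ : ℝ) (p : EuclideanSpace ℝ I × EuclideanSpace ℝ I) :
    EuclideanSpace ℝ I := -(Real.sin θ • p.1) - Real.cos θ • p.2

/-- the square of the standard Gaussian -/
noncomputable def g2 (I : Type) [Fintype I] :
    Measure (EuclideanSpace ℝ I × EuclideanSpace ℝ I) :=
  (stdGaussian (EuclideanSpace ℝ I)).prod (stdGaussian (EuclideanSpace ℝ I))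

instance (I : Type) [Fintype I] : IsProbabilityMeasure (g2 I) := by
  unfold g2; infer_instance

/-- `(Z, G) ↦ (x_θ, x'_θ)` is a measure preserving involution -/
theorem xt_mp (I : Type) [Fintype I] (θ : ℝ) :
    MeasurePreserving (fun p : EuclideanSpace ℝ I × EuclideanSpace ℝ I => (xt θ p, xd θ p))
      (g2 I) (g2 I) ∧ ∀ p : EuclideanSpace ℝ I × EuclideanSpace ℝ I,
        xt θ (xt θ p, xd θ p) = p.1 ∧ xd θ (xt θ p, xd θ p) = p.2 := by
  have hcs : Real.cos θ * Real.cos θ + Real.sin θ * Real.sin θ = 1 := by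
    have := Real.cos_sq_add_sin_sq θ
    nlinarith
  constructor
  · have h := (refl1_mp I (Real.cos θ) (-Real.sin θ) (by
      rw [neg_sq]; exact Real.cos_sq_add_sin_sq θ)).1
    have e : (fun p : EuclideanSpace ℝ I × EuclideanSpace ℝ I => (xt θ p, xd θ p)) =
        fun p => (Real.cos θ • p.1 + (-Real.sin θ) • p.2,
          (-Real.sin θ) • p.1 - Real.cos θ • p.2) := by
      funext p
      simp only [xt, xd, neg_smul, sub_eq_add_neg]
    rw [e]
    exact h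
  · intro p
    constructor
    · have e1 : xt θ (xt θ p, xd θ p) =
          (Real.cos θ * Real.cos θ + Real.sin θ * Real.sin θ) • p.1 := by
        simp only [xt, xd]
        module
      rw [e1, hcs, one_smul]
    · have e1 : xd θ (xt θ p, xd θ p) =
          (Real.cos θ * Real.cos θ + Real.sin θ * Real.sin θ) • p.2 := by
        simp only [xt, xd]
        module
      rw [e1, hcs, one_smul]

/-- functions of polynomial growth are integrable under the product Gaussian -/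
theorem g2_int {I F : Type} [Fintype I] [NormedAddCommGroup F]
    (φ : EuclideanSpace ℝ I × EuclideanSpace ℝ I → F) (hφ : Continuous φ) (C : ℝ) (m : ℕ)
    (h : ∀ p, ‖φ p‖ ≤ C * (1 + ‖p.1‖ + ‖p.2‖) ^ m) : Integrable φ (g2 I) := by
  have hint : Integrable (fun p : EuclideanSpace ℝ I × EuclideanSpace ℝ I =>
      |C| * ((1 + ‖p.1‖) ^ m * (1 + ‖p.2‖) ^ m)) (g2 I) :=
    (Integrable.mul_prod (PG_int_pow (I := I) m) (PG_int_pow (I := I) m)).const_mul |C|
  refine hint.mono' hφ.aestronglyMeasurable (Filter.Eventually.of_forall fun p => ?_)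
  have h1 : 0 ≤ ‖p.1‖ := norm_nonneg _
  have h2 : 0 ≤ ‖p.2‖ := norm_nonneg _
  have h3 : (1 + ‖p.1‖ + ‖p.2‖) ^ m ≤ (1 + ‖p.1‖) ^ m * (1 + ‖p.2‖) ^ m := by
    rw [← mul_pow]
    apply pow_le_pow_left₀ (by positivity)
    nlinarith [mul_nonneg h1 h2]
  calc ‖φ p‖ ≤ C * (1 + ‖p.1‖ + ‖p.2‖) ^ m := h p
    _ ≤ |C| * (1 + ‖p.1‖ + ‖p.2‖) ^ m :=
        mul_le_mul_of_nonneg_right (le_abs_self C) (by positivity)
    _ ≤ |C| * ((1 + ‖p.1‖) ^ m * (1 + ‖p.2‖) ^ m) :=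
        mul_le_mul_of_nonneg_left h3 (abs_nonneg C)

/-- vector valued Gaussian integration by parts, linear growth -/
theorem stein_grow {I J : Type} [Fintype I] [Fintype J] [DecidableEq I]
    (A : EuclideanSpace ℝ I → EuclideanSpace ℝ J) (hA : ContDiff ℝ 1 A) (C : ℝ)
    (h0 : ∀ x, ‖A x‖ ≤ C * (1 + ‖x‖)) (h1 : ∀ x, ‖fderiv ℝ A x‖ ≤ C * (1 + ‖x‖))
    (B : EuclideanSpace ℝ I →L[ℝ] EuclideanSpace ℝ J) :
    ∫ z, ⟪A z, B z⟫ ∂(stdGaussian (EuclideanSpace ℝ I)) =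
      ∫ z, hsip (fderiv ℝ A z) B ∂(stdGaussian (EuclideanSpace ℝ I)) := by
  have hC : 0 ≤ C := by
    have := (norm_nonneg _).trans (h0 0)
    simpa using this
  have hz : ∀ z : EuclideanSpace ℝ I, z = ∑ k, z k • EuclideanSpace.single k (1:ℝ) := by
    intro z
    ext j
    simp [Finset.sum_apply, Pi.single_apply]
  have hdA : ∀ z, HasFDerivAt A (fderiv ℝ A z) z := fun z =>
    ((hA.differentiable (by norm_num)) z).hasFDerivAt
  have hcf : Continuous (fun z => fderiv ℝ A z) := hA.continuous_fderiv (by norm_num)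
  -- one coordinate
  have hone : ∀ k : I, ∫ z, z k * ⟪B (EuclideanSpace.single k 1), A z⟫
      ∂(stdGaussian (EuclideanSpace ℝ I)) =
      ∫ z, ⟪B (EuclideanSpace.single k 1), fderiv ℝ A z (EuclideanSpace.single k 1)⟫
        ∂(stdGaussian (EuclideanSpace ℝ I)) := by
    intro k
    set b := B (EuclideanSpace.single k 1) with hb
    set L : EuclideanSpace ℝ J →L[ℝ] ℂ := Complex.ofRealCLM.comp (innerSL ℝ b) with hL
    have hLa : ∀ y, L y = ((⟪b, y⟫ : ℝ) : ℂ) := fun y => rfl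
    have hfd : ∀ z, HasFDerivAt (fun z => L (A z)) (L.comp (fderiv ℝ A z)) z := fun z =>
      L.hasFDerivAt.comp z (hdA z)
    have hPG : PG (fun z => L (A z)) := by
      refine ⟨L.contDiff.comp hA, ‖L‖ * C, 1, fun z => ⟨?_, ?_⟩⟩
      · calc ‖L (A z)‖ ≤ ‖L‖ * ‖A z‖ := L.le_opNorm _
          _ ≤ ‖L‖ * (C * (1 + ‖z‖)) := mul_le_mul_of_nonneg_left (h0 z) (norm_nonneg _)
          _ = ‖L‖ * C * (1 + ‖z‖) ^ 1 := by ring
      · rw [(hfd z).fderiv]
        calc ‖L.comp (fderiv ℝ A z)‖ ≤ ‖L‖ * ‖fderiv ℝ A z‖ := L.opNorm_comp_le _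
          _ ≤ ‖L‖ * (C * (1 + ‖z‖)) := mul_le_mul_of_nonneg_left (h1 z) (norm_nonneg _)
          _ = ‖L‖ * C * (1 + ‖z‖) ^ 1 := by ring
    have hst := stein_poly _ hPG k
    have e1 : ∀ x : EuclideanSpace ℝ I, ((x k : ℝ) : ℂ) * L (A x) = ((x k * ⟪b, A x⟫ : ℝ) : ℂ) := by
      intro x
      rw [hLa]
      push_cast
      rfl
    have e2 : ∀ x : EuclideanSpace ℝ I, fderiv ℝ (fun z => L (A z)) x (EuclideanSpace.single k 1) =
        ((⟪b, fderiv ℝ A x (EuclideanSpace.single k 1)⟫ : ℝ) : ℂ) := by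
      intro x
      rw [(hfd x).fderiv]
      rfl
    simp only [e1, e2] at hst
    rw [integral_complex_ofReal, integral_complex_ofReal] at hst
    exact Complex.ofReal_injective hst
  have hpow : ∀ D : ℝ, Integrable (fun x : EuclideanSpace ℝ I => D * (1 + ‖x‖) ^ 2)
      (stdGaussian (EuclideanSpace ℝ I)) := fun D => (PG_int_pow 2).const_mul D
  have hi1 : ∀ k : I, Integrable (fun z : EuclideanSpace ℝ I =>
      z k * ⟪B (EuclideanSpace.single k 1), A z⟫) (stdGaussian (EuclideanSpace ℝ I)) := by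
    intro k
    refine (hpow (‖B (EuclideanSpace.single k 1)‖ * C)).mono' ?_ (ae_of_all _ fun z => ?_)
    · refine Continuous.aestronglyMeasurable ?_
      exact (EuclideanSpace.proj (𝕜 := ℝ) k).continuous.mul
        (continuous_const.inner hA.continuous)
    · rw [norm_mul]
      have a1 : ‖z k‖ ≤ ‖z‖ := PiLp.norm_apply_le z k
      have a2 : ‖⟪B (EuclideanSpace.single k 1), A z⟫‖ ≤
          ‖B (EuclideanSpace.single k 1)‖ * (C * (1 + ‖z‖)) :=
        (norm_inner_le_norm _ _).trans (mul_le_mul_of_nonneg_left (h0 z) (norm_nonneg _))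
      have a3 : 0 ≤ ‖B (EuclideanSpace.single k 1)‖ * (C * (1 + ‖z‖)) := by positivity
      calc ‖z k‖ * ‖⟪B (EuclideanSpace.single k 1), A z⟫‖
          ≤ ‖z‖ * (‖B (EuclideanSpace.single k 1)‖ * (C * (1 + ‖z‖))) :=
            mul_le_mul a1 a2 (norm_nonneg _) (norm_nonneg _)
        _ ≤ (1 + ‖z‖) * (‖B (EuclideanSpace.single k 1)‖ * (C * (1 + ‖z‖))) :=
            mul_le_mul_of_nonneg_right (by linarith) a3
        _ = ‖B (EuclideanSpace.single k 1)‖ * C * (1 + ‖z‖) ^ 2 := by ring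
  have hi2 : ∀ k : I, Integrable (fun z : EuclideanSpace ℝ I =>
      ⟪fderiv ℝ A z (EuclideanSpace.single k 1), B (EuclideanSpace.single k 1)⟫)
      (stdGaussian (EuclideanSpace ℝ I)) := by
    intro k
    refine (hpow (‖B (EuclideanSpace.single k 1)‖ * C)).mono' ?_ (ae_of_all _ fun z => ?_)
    · refine Continuous.aestronglyMeasurable ?_
      exact (hcf.clm_apply continuous_const).inner continuous_const
    · have a1 : ‖fderiv ℝ A z (EuclideanSpace.single k 1)‖ ≤ C * (1 + ‖z‖) := by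
        refine ((fderiv ℝ A z).le_opNorm _).trans ?_
        rw [EuclideanSpace.norm_single, norm_one, mul_one]
        exact h1 z
      have a2 := norm_inner_le_norm (𝕜 := ℝ) (fderiv ℝ A z (EuclideanSpace.single k 1))
        (B (EuclideanSpace.single k 1))
      have a3 : 0 ≤ ‖B (EuclideanSpace.single k 1)‖ * (C * (1 + ‖z‖)) := by positivity
      calc _ ≤ ‖fderiv ℝ A z (EuclideanSpace.single k 1)‖ * ‖B (EuclideanSpace.single k 1)‖ := a2
        _ ≤ (C * (1 + ‖z‖)) * ‖B (EuclideanSpace.single k 1)‖ :=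
            mul_le_mul_of_nonneg_right a1 (norm_nonneg _)
        _ = 1 * (‖B (EuclideanSpace.single k 1)‖ * (C * (1 + ‖z‖))) := by ring
        _ ≤ (1 + ‖z‖) * (‖B (EuclideanSpace.single k 1)‖ * (C * (1 + ‖z‖))) :=
            mul_le_mul_of_nonneg_right (by linarith [norm_nonneg z]) a3
        _ = ‖B (EuclideanSpace.single k 1)‖ * C * (1 + ‖z‖) ^ 2 := by ring
  have hL : ∀ z : EuclideanSpace ℝ I, ⟪A z, B z⟫ =
      ∑ k, z k * ⟪B (EuclideanSpace.single k 1), A z⟫ := by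
    intro z
    conv_lhs => rw [hz z, map_sum, ← hz z]
    rw [inner_sum]
    refine Finset.sum_congr rfl fun k _ => ?_
    rw [map_smul, inner_smul_right, real_inner_comm]
  calc ∫ z, ⟪A z, B z⟫ ∂(stdGaussian (EuclideanSpace ℝ I))
      = ∫ z, ∑ k, z k * ⟪B (EuclideanSpace.single k 1), A z⟫ ∂(stdGaussian (EuclideanSpace ℝ I)) := by
        simp only [hL]
    _ = ∑ k, ∫ z, z k * ⟪B (EuclideanSpace.single k 1), A z⟫ ∂(stdGaussian (EuclideanSpace ℝ I)) :=
        integral_finset_sum _ fun k _ => hi1 k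
    _ = ∑ k, ∫ z, ⟪fderiv ℝ A z (EuclideanSpace.single k 1), B (EuclideanSpace.single k 1)⟫
          ∂(stdGaussian (EuclideanSpace ℝ I)) := by
        refine Finset.sum_congr rfl fun k _ => ?_
        rw [hone k]
        simp only [real_inner_comm]
    _ = ∫ z, ∑ k, ⟪fderiv ℝ A z (EuclideanSpace.single k 1), B (EuclideanSpace.single k 1)⟫
          ∂(stdGaussian (EuclideanSpace ℝ I)) :=
        (integral_finset_sum _ fun k _ => hi2 k).symm
    _ = ∫ z, hsip (fderiv ℝ A z) B ∂(stdGaussian (EuclideanSpace ℝ I)) := rfl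

variable {I J : Type} [Fintype I] [Fintype J] [DecidableEq I]
  (f : EuclideanSpace ℝ I → EuclideanSpace ℝ J) (K : ℝ)

/-- the mixed term `∑_k ⟪D²f(x)[e_k, v], Df(y) e_k⟫` -/
noncomputable def mix1 (x v y : EuclideanSpace ℝ I) : ℝ :=
  ∑ k, ⟪fderiv ℝ (fderiv ℝ f) x (EuclideanSpace.single k 1) v,
    fderiv ℝ f y (EuclideanSpace.single k 1)⟫

/-- the mixed term `∑_{k,l} ⟪D²f(x)[e_k, e_l], D²f(y)[e_l, e_k]⟫` -/
noncomputable def mix2 (x y : EuclideanSpace ℝ I) : ℝ :=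
  ∑ k, ∑ l, ⟪fderiv ℝ (fderiv ℝ f) x (EuclideanSpace.single k 1) (EuclideanSpace.single l 1),
    fderiv ℝ (fderiv ℝ f) y (EuclideanSpace.single l 1) (EuclideanSpace.single k 1)⟫

/-- joint continuity of all the functions occurring below -/
theorem all_cont (hf : ContDiff ℝ 2 f) :
    Continuous (fun q : ℝ × (EuclideanSpace ℝ I × EuclideanSpace ℝ I) =>
      ‖fderiv ℝ f (xt q.1 q.2) (xd q.1 q.2) + fderiv ℝ f q.2.1 q.2.2‖ ^ 2) ∧
    (∀ θ : ℝ, Continuous (fun p : EuclideanSpace ℝ I × EuclideanSpace ℝ I =>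
      ⟪fderiv ℝ f (xt θ p) (xd θ p), fderiv ℝ f p.1 p.2⟫)) ∧
    (∀ θ : ℝ, Continuous (fun p : EuclideanSpace ℝ I × EuclideanSpace ℝ I =>
      ‖fderiv ℝ f (xt θ p) (xd θ p)‖ ^ 2)) ∧
    (∀ θ : ℝ, Continuous (fun p : EuclideanSpace ℝ I × EuclideanSpace ℝ I =>
      hsip (fderiv ℝ f (xt θ p)) (fderiv ℝ f p.1))) ∧
    (∀ θ : ℝ, Continuous (fun p : EuclideanSpace ℝ I × EuclideanSpace ℝ I =>
      mix1 f (xt θ p) (xd θ p) p.1)) ∧
    (∀ θ : ℝ, Continuous (fun p : EuclideanSpace ℝ I × EuclideanSpace ℝ I =>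
      mix2 f (xt θ p) p.1)) := by
  have h1 : Continuous (fderiv ℝ f) := hf.continuous_fderiv (by norm_num)
  have hC1 : ContDiff ℝ 1 (fderiv ℝ f) := hf.fderiv_right (by norm_num)
  have h2 : Continuous (fderiv ℝ (fderiv ℝ f)) := hC1.continuous_fderiv (by norm_num)
  have hxt : Continuous (fun q : ℝ × (EuclideanSpace ℝ I × EuclideanSpace ℝ I) => xt q.1 q.2) := by
    unfold xt; fun_prop
  have hxd : Continuous (fun q : ℝ × (EuclideanSpace ℝ I × EuclideanSpace ℝ I) => xd q.1 q.2) := by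
    unfold xd; fun_prop
  have hxt' : ∀ θ : ℝ, Continuous (fun p : EuclideanSpace ℝ I × EuclideanSpace ℝ I => xt θ p) := by
    intro θ; unfold xt; fun_prop
  have hxd' : ∀ θ : ℝ, Continuous (fun p : EuclideanSpace ℝ I × EuclideanSpace ℝ I => xd θ p) := by
    intro θ; unfold xd; fun_prop
  have hf1 : Continuous (fun p : EuclideanSpace ℝ I × EuclideanSpace ℝ I => fderiv ℝ f p.1) :=
    h1.comp continuous_fst
  have hf2 : Continuous (fun p : EuclideanSpace ℝ I × EuclideanSpace ℝ I =>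
      fderiv ℝ (fderiv ℝ f) p.1) := h2.comp continuous_fst
  refine ⟨?_, fun θ => ?_, fun θ => ?_, fun θ => ?_, fun θ => ?_, fun θ => ?_⟩
  · refine (Continuous.add ?_ ?_).norm.pow 2
    · exact (h1.comp hxt).clm_apply hxd
    · exact (h1.comp (continuous_fst.comp continuous_snd)).clm_apply
        (continuous_snd.comp continuous_snd)
  · exact ((h1.comp (hxt' θ)).clm_apply (hxd' θ)).inner (hf1.clm_apply continuous_snd)
  · exact ((h1.comp (hxt' θ)).clm_apply (hxd' θ)).norm.pow 2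
  · unfold hsip
    refine continuous_finsetSum _ fun i _ => ?_
    exact ((h1.comp (hxt' θ)).clm_apply continuous_const).inner (hf1.clm_apply continuous_const)
  · unfold mix1
    refine continuous_finsetSum _ fun i _ => ?_
    exact (((h2.comp (hxt' θ)).clm_apply continuous_const).clm_apply (hxd' θ)).inner
      (hf1.clm_apply continuous_const)
  · unfold mix2
    refine continuous_finsetSum _ fun i _ => continuous_finsetSum _ fun j _ => ?_
    exact (((h2.comp (hxt' θ)).clm_apply continuous_const).clm_apply continuous_const).inner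
      ((hf2.clm_apply continuous_const).clm_apply continuous_const)

/-- `E ‖Df(x_θ) x'_θ‖² = E ‖Df(Z) G‖² = E hs(Df)` -/
theorem norm_terms (hf : ContDiff ℝ 2 f) (h1 : ∀ x, ‖fderiv ℝ f x‖ ≤ K) (θ : ℝ) :
    ∫ p, ‖fderiv ℝ f (xt θ p) (xd θ p)‖ ^ 2 ∂(g2 I) =
      ∫ x, hs (fderiv ℝ f x) ∂(stdGaussian (EuclideanSpace ℝ I)) ∧
    ∫ p, ‖fderiv ℝ f p.1 p.2‖ ^ 2 ∂(g2 I) =
      ∫ x, hs (fderiv ℝ f x) ∂(stdGaussian (EuclideanSpace ℝ I)) := by
  have hFc : Continuous (fun p : EuclideanSpace ℝ I × EuclideanSpace ℝ I =>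
      ‖fderiv ℝ f p.1 p.2‖ ^ 2) := by
    have h2 : Continuous (fderiv ℝ f) := hf.continuous_fderiv (by norm_num)
    exact ((h2.comp continuous_fst).clm_apply continuous_snd).norm.pow 2
  have hFi : Integrable (fun p : EuclideanSpace ℝ I × EuclideanSpace ℝ I =>
      ‖fderiv ℝ f p.1 p.2‖ ^ 2) (g2 I) := by
    refine g2_int _ hFc (K ^ 2) 2 fun p => ?_
    have hK : 0 ≤ K := (norm_nonneg _).trans (h1 p.1)
    have h2 : ‖fderiv ℝ f p.1 p.2‖ ≤ K * (1 + ‖p.1‖ + ‖p.2‖) := by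
      calc ‖fderiv ℝ f p.1 p.2‖ ≤ ‖fderiv ℝ f p.1‖ * ‖p.2‖ := ContinuousLinearMap.le_opNorm _ _
        _ ≤ K * ‖p.2‖ := mul_le_mul_of_nonneg_right (h1 _) (norm_nonneg _)
        _ ≤ K * (1 + ‖p.1‖ + ‖p.2‖) := by
            refine mul_le_mul_of_nonneg_left ?_ hK
            have := norm_nonneg p.1
            linarith
    rw [Real.norm_eq_abs, abs_of_nonneg (sq_nonneg _), ← mul_pow]
    exact pow_le_pow_left₀ (norm_nonneg _) h2 2
  have hsec : ∫ p, ‖fderiv ℝ f p.1 p.2‖ ^ 2 ∂(g2 I) =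
      ∫ x, hs (fderiv ℝ f x) ∂(stdGaussian (EuclideanSpace ℝ I)) := by
    have hFi' := hFi
    unfold g2 at hFi' ⊢
    rw [integral_prod _ hFi']
    refine integral_congr_ae (Filter.Eventually.of_forall fun x => ?_)
    exact (moments (I := I) (J := J)).2.2.2.2 (fderiv ℝ f x)
  refine ⟨?_, hsec⟩
  rw [← hsec]
  have hmp := (xt_mp I θ).1
  have h3 := integral_map (μ := g2 I)
    (φ := fun p : EuclideanSpace ℝ I × EuclideanSpace ℝ I => (xt θ p, xd θ p))
    hmp.measurable.aemeasurable (f := fun p : EuclideanSpace ℝ I × EuclideanSpace ℝ I =>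
      ‖fderiv ℝ f p.1 p.2‖ ^ 2) hFc.aestronglyMeasurable
  rw [hmp.map_eq] at h3
  exact h3.symm

theorem ibp1_norm_single (k : I) : ‖(EuclideanSpace.single k (1:ℝ) : EuclideanSpace ℝ I)‖ = 1 := by
  simp

theorem ibp1_xd_le (θ : ℝ) (Z G : EuclideanSpace ℝ I) : ‖xd θ (Z, G)‖ ≤ ‖Z‖ + ‖G‖ := by
  unfold xd
  have h1 : ‖Real.sin θ • Z‖ ≤ ‖Z‖ := by
    rw [norm_smul, Real.norm_eq_abs]
    have := Real.abs_sin_le_one θ
    have h0 := norm_nonneg Z
    nlinarith
  have h2 : ‖Real.cos θ • G‖ ≤ ‖G‖ := by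
    rw [norm_smul, Real.norm_eq_abs]
    have := Real.abs_cos_le_one θ
    have h0 := norm_nonneg G
    nlinarith
  calc ‖-(Real.sin θ • Z) - Real.cos θ • G‖ ≤ ‖-(Real.sin θ • Z)‖ + ‖Real.cos θ • G‖ := norm_sub_le _ _
    _ ≤ ‖Z‖ + ‖G‖ := by rw [norm_neg]; linarith

/-- the function `G ↦ Df(x) x'` for fixed `Z` -/
noncomputable def ibpA (θ : ℝ) (Z G : EuclideanSpace ℝ I) : EuclideanSpace ℝ J :=
  fderiv ℝ f (xt θ (Z, G)) (xd θ (Z, G))

theorem ibp1_hasF (hf : ContDiff ℝ 2 f) (θ : ℝ) (Z G : EuclideanSpace ℝ I) :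
    HasFDerivAt (ibpA f θ Z)
      ((fderiv ℝ f (xt θ (Z, G))).comp (-(Real.cos θ • ContinuousLinearMap.id ℝ (EuclideanSpace ℝ I)))
        + ((fderiv ℝ (fderiv ℝ f) (xt θ (Z, G))).comp
          (-(Real.sin θ • ContinuousLinearMap.id ℝ (EuclideanSpace ℝ I)))).flip (xd θ (Z, G))) G := by
  have hx : HasFDerivAt (fun G : EuclideanSpace ℝ I => xt θ (Z, G))
      (-(Real.sin θ • ContinuousLinearMap.id ℝ (EuclideanSpace ℝ I))) G := by
    unfold xt
    exact (((hasFDerivAt_id G).const_smul (Real.sin θ)).const_sub (Real.cos θ • Z))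
  have hd : HasFDerivAt (fun G : EuclideanSpace ℝ I => xd θ (Z, G))
      (-(Real.cos θ • ContinuousLinearMap.id ℝ (EuclideanSpace ℝ I))) G := by
    unfold xd
    exact (((hasFDerivAt_id G).const_smul (Real.cos θ)).const_sub (-(Real.sin θ • Z)))
  have hD : HasFDerivAt (fderiv ℝ f) (fderiv ℝ (fderiv ℝ f) (xt θ (Z, G))) (xt θ (Z, G)) := by
    have h1 : ContDiff ℝ 1 (fderiv ℝ f) := hf.fderiv_right (by norm_num)
    exact ((h1.differentiable (by norm_num)) _).hasFDerivAt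
  have hc : HasFDerivAt (fun G : EuclideanSpace ℝ I => fderiv ℝ f (xt θ (Z, G)))
      ((fderiv ℝ (fderiv ℝ f) (xt θ (Z, G))).comp
          (-(Real.sin θ • ContinuousLinearMap.id ℝ (EuclideanSpace ℝ I)))) G :=
    HasFDerivAt.comp G hD hx
  exact hc.clm_apply hd

theorem ibp1_fd_apply (hf : ContDiff ℝ 2 f) (θ : ℝ) (Z G e : EuclideanSpace ℝ I) :
    fderiv ℝ (ibpA f θ Z) G e = -(Real.cos θ • fderiv ℝ f (xt θ (Z, G)) e)
      - Real.sin θ • fderiv ℝ (fderiv ℝ f) (xt θ (Z, G)) e (xd θ (Z, G)) := by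
  rw [(ibp1_hasF f hf θ Z G).fderiv]
  simp only [ContinuousLinearMap.add_apply, ContinuousLinearMap.comp_apply,
    ContinuousLinearMap.neg_apply, ContinuousLinearMap.smul_apply, ContinuousLinearMap.flip_apply,
    ContinuousLinearMap.id_apply, map_neg, map_smul]
  rw [sub_eq_add_neg]

theorem ibp1_contA (hf : ContDiff ℝ 2 f) (θ : ℝ) (Z : EuclideanSpace ℝ I) :
    ContDiff ℝ 1 (ibpA f θ Z) := by
  have h1 : ContDiff ℝ 1 (fderiv ℝ f) := hf.fderiv_right (by norm_num)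
  unfold ibpA xt xd
  apply ContDiff.clm_apply
  · apply h1.comp
    fun_prop
  · fun_prop

/-- first integration by parts -/
theorem ibp1 (hf : ContDiff ℝ 2 f) (h1 : ∀ x, ‖fderiv ℝ f x‖ ≤ K)
    (h2 : ∀ x, ‖fderiv ℝ (fderiv ℝ f) x‖ ≤ K) (θ : ℝ) :
    ∫ p, ⟪fderiv ℝ f (xt θ p) (xd θ p), fderiv ℝ f p.1 p.2⟫ ∂(g2 I) =
      -(Real.cos θ * ∫ p, hsip (fderiv ℝ f (xt θ p)) (fderiv ℝ f p.1) ∂(g2 I)) -
        Real.sin θ * ∫ p, mix1 f (xt θ p) (xd θ p) p.1 ∂(g2 I) := by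
  classical
  have hK : 0 ≤ K := le_trans (norm_nonneg _) (h1 0)
  obtain ⟨-, c2, -, c4, c5, -⟩ := all_cont f hf
  -- integrability
  have i1 : Integrable (fun p : EuclideanSpace ℝ I × EuclideanSpace ℝ I =>
      ⟪fderiv ℝ f (xt θ p) (xd θ p), fderiv ℝ f p.1 p.2⟫) (g2 I) := by
    apply g2_int _ (c2 θ) (K ^ 2) 2
    rintro ⟨Z, G⟩
    have hz := norm_nonneg Z
    have hg := norm_nonneg G
    have a1 : ‖fderiv ℝ f (xt θ (Z, G)) (xd θ (Z, G))‖ ≤ K * (‖Z‖ + ‖G‖) :=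
      le_trans (ContinuousLinearMap.le_opNorm _ _)
        (mul_le_mul (h1 _) (ibp1_xd_le θ Z G) (norm_nonneg _) hK)
    have a2 : ‖fderiv ℝ f Z G‖ ≤ K * ‖G‖ :=
      le_trans (ContinuousLinearMap.le_opNorm _ _) (mul_le_mul_of_nonneg_right (h1 _) hg)
    calc ‖⟪fderiv ℝ f (xt θ (Z, G)) (xd θ (Z, G)), fderiv ℝ f Z G⟫‖
        ≤ ‖fderiv ℝ f (xt θ (Z, G)) (xd θ (Z, G))‖ * ‖fderiv ℝ f Z G‖ := norm_inner_le_norm _ _
      _ ≤ (K * (‖Z‖ + ‖G‖)) * (K * ‖G‖) := mul_le_mul a1 a2 (norm_nonneg _) (by positivity)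
      _ ≤ K ^ 2 * (1 + ‖Z‖ + ‖G‖) ^ 2 := by
        have e1 : (‖Z‖ + ‖G‖) * ‖G‖ ≤ (1 + ‖Z‖ + ‖G‖) ^ 2 := by nlinarith [mul_nonneg hz hg]
        have e2 : (K * (‖Z‖ + ‖G‖)) * (K * ‖G‖) = K ^ 2 * ((‖Z‖ + ‖G‖) * ‖G‖) := by ring
        rw [e2]
        exact mul_le_mul_of_nonneg_left e1 (by positivity)
  have i2 : Integrable (fun p : EuclideanSpace ℝ I × EuclideanSpace ℝ I =>
      hsip (fderiv ℝ f (xt θ p)) (fderiv ℝ f p.1)) (g2 I) := by
    apply g2_int _ (c4 θ) (Fintype.card I * (K * K)) 0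
    rintro ⟨Z, G⟩
    rw [pow_zero, mul_one]
    unfold hsip
    calc ‖∑ i, ⟪fderiv ℝ f (xt θ (Z, G)) (EuclideanSpace.single i 1),
          fderiv ℝ f Z (EuclideanSpace.single i 1)⟫‖
        ≤ ∑ i : I, ‖⟪fderiv ℝ f (xt θ (Z, G)) (EuclideanSpace.single i 1),
          fderiv ℝ f Z (EuclideanSpace.single i 1)⟫‖ := norm_sum_le _ _
      _ ≤ ∑ _i : I, K * K := by
        apply Finset.sum_le_sum
        intro i _
        have b1 := le_trans (ContinuousLinearMap.le_opNorm (fderiv ℝ f (xt θ (Z, G)))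
          (EuclideanSpace.single i 1)) (mul_le_mul_of_nonneg_right (h1 _) (norm_nonneg _))
        have b2 := le_trans (ContinuousLinearMap.le_opNorm (fderiv ℝ f Z)
          (EuclideanSpace.single i 1)) (mul_le_mul_of_nonneg_right (h1 _) (norm_nonneg _))
        rw [ibp1_norm_single, mul_one] at b1 b2
        exact le_trans (norm_inner_le_norm _ _) (mul_le_mul b1 b2 (norm_nonneg _) hK)
      _ = Fintype.card I * (K * K) := by
        rw [Finset.sum_const, Finset.card_univ, nsmul_eq_mul]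
  have i3 : Integrable (fun p : EuclideanSpace ℝ I × EuclideanSpace ℝ I =>
      mix1 f (xt θ p) (xd θ p) p.1) (g2 I) := by
    apply g2_int _ (c5 θ) (Fintype.card I * (K * K)) 1
    rintro ⟨Z, G⟩
    have hz := norm_nonneg Z
    have hg := norm_nonneg G
    rw [pow_one]
    unfold mix1
    calc ‖∑ i, ⟪fderiv ℝ (fderiv ℝ f) (xt θ (Z, G)) (EuclideanSpace.single i 1) (xd θ (Z, G)),
          fderiv ℝ f Z (EuclideanSpace.single i 1)⟫‖
        ≤ ∑ i : I, ‖⟪fderiv ℝ (fderiv ℝ f) (xt θ (Z, G)) (EuclideanSpace.single i 1) (xd θ (Z, G)),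
          fderiv ℝ f Z (EuclideanSpace.single i 1)⟫‖ := norm_sum_le _ _
      _ ≤ ∑ _i : I, (K * K) * (1 + ‖Z‖ + ‖G‖) := by
        apply Finset.sum_le_sum
        intro i _
        have b1 := ContinuousLinearMap.le_opNorm
          (fderiv ℝ (fderiv ℝ f) (xt θ (Z, G)) (EuclideanSpace.single i 1)) (xd θ (Z, G))
        have b3 := le_trans (ContinuousLinearMap.le_opNorm (fderiv ℝ (fderiv ℝ f) (xt θ (Z, G)))
          (EuclideanSpace.single i 1)) (mul_le_mul_of_nonneg_right (h2 _) (norm_nonneg _))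
        have b2 := le_trans (ContinuousLinearMap.le_opNorm (fderiv ℝ f Z)
          (EuclideanSpace.single i 1)) (mul_le_mul_of_nonneg_right (h1 _) (norm_nonneg _))
        rw [ibp1_norm_single, mul_one] at b3 b2
        have b4 : ‖fderiv ℝ (fderiv ℝ f) (xt θ (Z, G)) (EuclideanSpace.single i 1) (xd θ (Z, G))‖
            ≤ K * (‖Z‖ + ‖G‖) :=
          le_trans b1 (mul_le_mul b3 (ibp1_xd_le θ Z G) (norm_nonneg _) hK)
        calc ‖⟪fderiv ℝ (fderiv ℝ f) (xt θ (Z, G)) (EuclideanSpace.single i 1) (xd θ (Z, G)),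
              fderiv ℝ f Z (EuclideanSpace.single i 1)⟫‖ ≤ (K * (‖Z‖ + ‖G‖)) * K :=
              le_trans (norm_inner_le_norm _ _) (mul_le_mul b4 b2 (norm_nonneg _) (by positivity))
          _ = (K * K) * (‖Z‖ + ‖G‖) := by ring
          _ ≤ (K * K) * (1 + ‖Z‖ + ‖G‖) :=
            mul_le_mul_of_nonneg_left (by linarith) (by positivity)
      _ = Fintype.card I * (K * K) * (1 + ‖Z‖ + ‖G‖) := by
        rw [Finset.sum_const, Finset.card_univ, nsmul_eq_mul]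
        ring
  have i4 : Integrable (fun p : EuclideanSpace ℝ I × EuclideanSpace ℝ I =>
      -(Real.cos θ * hsip (fderiv ℝ f (xt θ p)) (fderiv ℝ f p.1))
        - Real.sin θ * mix1 f (xt θ p) (xd θ p) p.1) (g2 I) :=
    ((i2.const_mul _).neg).sub (i3.const_mul _)
  have r1 : -(Real.cos θ * ∫ p, hsip (fderiv ℝ f (xt θ p)) (fderiv ℝ f p.1) ∂(g2 I)) -
        Real.sin θ * ∫ p, mix1 f (xt θ p) (xd θ p) p.1 ∂(g2 I)
      = ∫ p, (-(Real.cos θ * hsip (fderiv ℝ f (xt θ p)) (fderiv ℝ f p.1))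
        - Real.sin θ * mix1 f (xt θ p) (xd θ p) p.1) ∂(g2 I) := by
    have e1 := integral_sub ((i2.const_mul (Real.cos θ)).neg) (i3.const_mul (Real.sin θ))
    simp only [Pi.neg_apply] at e1
    rw [e1, integral_neg, integral_const_mul, integral_const_mul]
  rw [r1]
  unfold g2 at i1 i4 ⊢
  rw [integral_prod _ i1, integral_prod _ i4]
  congr 1
  funext Z
  have hz := norm_nonneg Z
  have key := stein_grow (ibpA f θ Z) (ibp1_contA f hf θ Z) (K * (1 + ‖Z‖)) (by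
      intro G
      have hg := norm_nonneg G
      have a1 : ‖fderiv ℝ f (xt θ (Z, G)) (xd θ (Z, G))‖ ≤ K * (‖Z‖ + ‖G‖) :=
        le_trans (ContinuousLinearMap.le_opNorm _ _)
          (mul_le_mul (h1 _) (ibp1_xd_le θ Z G) (norm_nonneg _) hK)
      refine le_trans a1 ?_
      rw [mul_assoc]
      apply mul_le_mul_of_nonneg_left _ hK
      nlinarith [mul_nonneg hz hg]) (by
      intro G
      have hg := norm_nonneg G
      apply ContinuousLinearMap.opNorm_le_bound _ (by positivity)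
      intro e
      rw [ibp1_fd_apply f hf]
      have he := norm_nonneg e
      have b1 : ‖fderiv ℝ f (xt θ (Z, G)) e‖ ≤ K * ‖e‖ :=
        le_trans (ContinuousLinearMap.le_opNorm _ _) (mul_le_mul_of_nonneg_right (h1 _) he)
      have b2 : ‖fderiv ℝ (fderiv ℝ f) (xt θ (Z, G)) e (xd θ (Z, G))‖
          ≤ (K * ‖e‖) * (‖Z‖ + ‖G‖) := by
        refine le_trans (ContinuousLinearMap.le_opNorm _ _) ?_
        apply mul_le_mul _ (ibp1_xd_le θ Z G) (norm_nonneg _) (by positivity)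
        exact le_trans (ContinuousLinearMap.le_opNorm _ _) (mul_le_mul_of_nonneg_right (h2 _) he)
      have b3 : ‖Real.cos θ • fderiv ℝ f (xt θ (Z, G)) e‖ ≤ K * ‖e‖ := by
        rw [norm_smul, Real.norm_eq_abs]
        have := Real.abs_cos_le_one θ
        have h0 := norm_nonneg (fderiv ℝ f (xt θ (Z, G)) e)
        nlinarith
      have b4 : ‖Real.sin θ • fderiv ℝ (fderiv ℝ f) (xt θ (Z, G)) e (xd θ (Z, G))‖
          ≤ (K * ‖e‖) * (‖Z‖ + ‖G‖) := by
        rw [norm_smul, Real.norm_eq_abs]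
        have := Real.abs_sin_le_one θ
        have h0 := norm_nonneg (fderiv ℝ (fderiv ℝ f) (xt θ (Z, G)) e (xd θ (Z, G)))
        nlinarith
      calc ‖-(Real.cos θ • fderiv ℝ f (xt θ (Z, G)) e)
            - Real.sin θ • fderiv ℝ (fderiv ℝ f) (xt θ (Z, G)) e (xd θ (Z, G))‖
          ≤ ‖-(Real.cos θ • fderiv ℝ f (xt θ (Z, G)) e)‖
            + ‖Real.sin θ • fderiv ℝ (fderiv ℝ f) (xt θ (Z, G)) e (xd θ (Z, G))‖ := norm_sub_le _ _
        _ ≤ K * ‖e‖ + (K * ‖e‖) * (‖Z‖ + ‖G‖) := by rw [norm_neg]; linarith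
        _ = (K * ‖e‖) * (1 + ‖Z‖ + ‖G‖) := by ring
        _ ≤ (K * ‖e‖) * ((1 + ‖Z‖) * (1 + ‖G‖)) :=
          mul_le_mul_of_nonneg_left (by nlinarith [mul_nonneg hz hg]) (by positivity)
        _ = K * (1 + ‖Z‖) * (1 + ‖G‖) * ‖e‖ := by ring) (fderiv ℝ f Z)
  have l1 : ∀ G : EuclideanSpace ℝ I, hsip (fderiv ℝ (ibpA f θ Z) G) (fderiv ℝ f Z)
      = -(Real.cos θ * hsip (fderiv ℝ f (xt θ (Z, G))) (fderiv ℝ f Z))
        - Real.sin θ * mix1 f (xt θ (Z, G)) (xd θ (Z, G)) Z := by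
    intro G
    unfold hsip mix1
    rw [Finset.mul_sum, Finset.mul_sum, ← Finset.sum_neg_distrib, ← Finset.sum_sub_distrib]
    apply Finset.sum_congr rfl
    intro k _
    rw [ibp1_fd_apply f hf, inner_sub_left, inner_neg_left, real_inner_smul_left,
      real_inner_smul_left]
  simp only [l1] at key
  exact key

theorem ibp2_norm_single (k : I) : ‖(EuclideanSpace.single k (1:ℝ) : EuclideanSpace ℝ I)‖ = 1 := by
  simp

/-- transport by the measure preserving map -/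
theorem ibp2_tr (θ : ℝ) (F : EuclideanSpace ℝ I × EuclideanSpace ℝ I → ℝ) (hF : Continuous F) :
    ∫ p, F (xt θ p, xd θ p) ∂(g2 I) = ∫ p, F p ∂(g2 I) := by
  have hmp := (xt_mp I θ).1
  have h3 := integral_map (μ := g2 I)
    (φ := fun p : EuclideanSpace ℝ I × EuclideanSpace ℝ I => (xt θ p, xd θ p))
    hmp.measurable.aemeasurable (f := F) hF.aestronglyMeasurable
  rw [hmp.map_eq] at h3
  exact h3.symm

theorem ibp2_c1 (hf : ContDiff ℝ 2 f) : ContDiff ℝ 1 (fderiv ℝ f) := hf.fderiv_right (by norm_num)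

theorem ibp2_c2 (hf : ContDiff ℝ 2 f) : Continuous (fderiv ℝ (fderiv ℝ f)) :=
  (ibp2_c1 f hf).continuous_fderiv (by norm_num)

theorem ibp2_F1 (hf : ContDiff ℝ 2 f) (θ : ℝ) :
    Continuous (fun p : EuclideanSpace ℝ I × EuclideanSpace ℝ I => mix1 f p.1 p.2 (xt θ p)) := by
  unfold mix1 xt
  refine continuous_finset_sum _ fun k _ => ?_
  refine Continuous.inner ?_ ?_
  · exact (((ibp2_c2 f hf).comp continuous_fst).clm_apply continuous_const).clm_apply continuous_snd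
  · exact (((ibp2_c1 f hf).continuous).comp (by fun_prop)).clm_apply continuous_const

theorem ibp2_F2 (hf : ContDiff ℝ 2 f) (θ : ℝ) :
    Continuous (fun p : EuclideanSpace ℝ I × EuclideanSpace ℝ I => mix2 f p.1 (xt θ p)) := by
  unfold mix2 xt
  refine continuous_finset_sum _ fun k _ => continuous_finset_sum _ fun l _ => ?_
  refine Continuous.inner ?_ ?_
  · exact (((ibp2_c2 f hf).comp continuous_fst).clm_apply continuous_const).clm_apply
      continuous_const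
  · exact (((ibp2_c2 f hf).comp (by fun_prop)).clm_apply continuous_const).clm_apply
      continuous_const

/-- second integration by parts -/
theorem ibp2 (hf : ContDiff ℝ 2 f) (h1 : ∀ x, ‖fderiv ℝ f x‖ ≤ K)
    (h2 : ∀ x, ‖fderiv ℝ (fderiv ℝ f) x‖ ≤ K) (θ : ℝ) :
    ∫ p, mix1 f (xt θ p) (xd θ p) p.1 ∂(g2 I) =
      -(Real.sin θ * ∫ p, mix2 f (xt θ p) p.1 ∂(g2 I)) := by
  have hK : 0 ≤ K := le_trans (norm_nonneg _) (h1 0)
  have t1 : ∫ p, mix1 f (xt θ p) (xd θ p) p.1 ∂(g2 I) =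
      ∫ p, mix1 f p.1 p.2 (xt θ p) ∂(g2 I) := by
    rw [← ibp2_tr θ _ (ibp2_F1 f hf θ)]
    refine integral_congr_ae (Filter.Eventually.of_forall fun p => ?_)
    show _ = mix1 f (xt θ p) (xd θ p) (xt θ (xt θ p, xd θ p))
    rw [((xt_mp I θ).2 p).1]
  have t2 : ∫ p, mix2 f (xt θ p) p.1 ∂(g2 I) =
      ∫ p, mix2 f p.1 (xt θ p) ∂(g2 I) := by
    rw [← ibp2_tr θ _ (ibp2_F2 f hf θ)]
    refine integral_congr_ae (Filter.Eventually.of_forall fun p => ?_)
    show _ = mix2 f (xt θ p) (xt θ (xt θ p, xd θ p))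
    rw [((xt_mp I θ).2 p).1]
  have b2 : ∀ (x e : EuclideanSpace ℝ I), ‖fderiv ℝ (fderiv ℝ f) x e‖ ≤ K * ‖e‖ := fun x e =>
    ((fderiv ℝ (fderiv ℝ f) x).le_opNorm e).trans
      (mul_le_mul_of_nonneg_right (h2 x) (norm_nonneg _))
  have b22 : ∀ (x e v : EuclideanSpace ℝ I), ‖fderiv ℝ (fderiv ℝ f) x e v‖ ≤ K * ‖e‖ * ‖v‖ :=
    fun x e v => ((fderiv ℝ (fderiv ℝ f) x e).le_opNorm v).trans
      (mul_le_mul_of_nonneg_right (b2 x e) (norm_nonneg _))
  have b1 : ∀ (x e : EuclideanSpace ℝ I), ‖fderiv ℝ f x e‖ ≤ K * ‖e‖ := fun x e =>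
    ((fderiv ℝ f x).le_opNorm e).trans
      (mul_le_mul_of_nonneg_right (h1 x) (norm_nonneg _))
  have i1 : Integrable (fun p : EuclideanSpace ℝ I × EuclideanSpace ℝ I =>
      mix1 f p.1 p.2 (xt θ p)) (g2 I) := by
    refine g2_int _ (ibp2_F1 f hf θ) (Fintype.card I * K ^ 2) 1 fun p => ?_
    have hn1 := norm_nonneg p.1
    have hn2 := norm_nonneg p.2
    unfold mix1
    refine (norm_sum_le_of_le _ (f := fun k => ⟪fderiv ℝ (fderiv ℝ f) p.1 (EuclideanSpace.single k 1)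
      p.2, fderiv ℝ f (xt θ p) (EuclideanSpace.single k 1)⟫)
      (n := fun _ => K ^ 2 * (1 + ‖p.1‖ + ‖p.2‖)) fun k _ => ?_).trans ?_
    · refine (norm_inner_le_norm _ _).trans ?_
      have a1 := b22 p.1 (EuclideanSpace.single k 1) p.2
      have a2 := b1 (xt θ p) (EuclideanSpace.single k 1)
      rw [ibp2_norm_single, mul_one] at a1 a2
      calc _ ≤ (K * ‖p.2‖) * K := mul_le_mul a1 a2 (norm_nonneg _) (by positivity)
        _ = K ^ 2 * ‖p.2‖ := by ring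
        _ ≤ K ^ 2 * (1 + ‖p.1‖ + ‖p.2‖) := mul_le_mul_of_nonneg_left (by linarith) (by positivity)
    · rw [Finset.sum_const, Finset.card_univ, nsmul_eq_mul, pow_one]
      exact le_of_eq (by ring)
  have i2 : Integrable (fun p : EuclideanSpace ℝ I × EuclideanSpace ℝ I =>
      mix2 f p.1 (xt θ p)) (g2 I) := by
    refine g2_int _ (ibp2_F2 f hf θ) (Fintype.card I * (Fintype.card I * K ^ 2)) 0 fun p => ?_
    unfold mix2
    refine (norm_sum_le_of_le _ (n := fun _ => (Fintype.card I : ℝ) * K ^ 2) fun k _ => ?_).trans ?_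
    · refine (norm_sum_le_of_le _ (n := fun _ => K ^ 2) fun l _ => ?_).trans ?_
      · refine (norm_inner_le_norm _ _).trans ?_
        have a1 := b22 p.1 (EuclideanSpace.single k 1) (EuclideanSpace.single l 1)
        have a2 := b22 (xt θ p) (EuclideanSpace.single l 1) (EuclideanSpace.single k 1)
        rw [ibp2_norm_single, ibp2_norm_single, mul_one, mul_one] at a1 a2
        calc _ ≤ K * K := mul_le_mul a1 a2 (norm_nonneg _) hK
          _ = K ^ 2 := by ring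
      · rw [Finset.sum_const, Finset.card_univ, nsmul_eq_mul]
    · rw [Finset.sum_const, Finset.card_univ, nsmul_eq_mul, pow_zero, mul_one]
  rw [t1, t2]
  unfold g2 at i1 i2 ⊢
  rw [integral_prod _ i1, integral_prod _ i2, ← integral_const_mul, ← integral_neg]
  refine integral_congr_ae (Filter.Eventually.of_forall fun U => ?_)
  show ∫ V, mix1 f U V (xt θ (U, V)) ∂(stdGaussian (EuclideanSpace ℝ I)) =
    -(Real.sin θ * ∫ V, mix2 f U (xt θ (U, V)) ∂(stdGaussian (EuclideanSpace ℝ I)))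
  have hxt : ∀ V : EuclideanSpace ℝ I, xt θ (U, V) = Real.cos θ • U + (-Real.sin θ) • V := by
    intro V
    unfold xt
    rw [neg_smul, sub_eq_add_neg]
  have hG1 : ∀ k : I, ContDiff ℝ 1 (fun x => fderiv ℝ f x (EuclideanSpace.single k 1)) := fun k =>
    (ibp2_c1 f hf).clm_apply contDiff_const
  have hGd : ∀ (k : I) (x e : EuclideanSpace ℝ I),
      fderiv ℝ (fun x => fderiv ℝ f x (EuclideanSpace.single k 1)) x e =
      fderiv ℝ (fderiv ℝ f) x e (EuclideanSpace.single k 1) := by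
    intro k x e
    have hd : HasFDerivAt (fderiv ℝ f) (fderiv ℝ (fderiv ℝ f) x) x :=
      ((ibp2_c1 f hf).differentiable (by norm_num) x).hasFDerivAt
    have h := hd.clm_apply (hasFDerivAt_const (EuclideanSpace.single k (1 : ℝ)) x)
    rw [h.fderiv]
    simp
  have hGn : ∀ (k : I) (x : EuclideanSpace ℝ I),
      ‖fderiv ℝ (fun x => fderiv ℝ f x (EuclideanSpace.single k 1)) x‖ ≤ K := by
    intro k x
    refine ContinuousLinearMap.opNorm_le_bound _ hK fun e => ?_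
    rw [hGd]
    have := b22 x e (EuclideanSpace.single k 1)
    rwa [ibp2_norm_single, mul_one] at this
  have hst := fun k : I => stein_vec (fun x => fderiv ℝ f x (EuclideanSpace.single k 1)) (hG1 k) K
    (fun x => by
      have := b1 x (EuclideanSpace.single k 1)
      rwa [ibp2_norm_single, mul_one] at this) (hGn k)
    (fderiv ℝ (fderiv ℝ f) U (EuclideanSpace.single k 1)) (Real.cos θ • U) (-Real.sin θ)
  have hm := moments (I := I) (J := J)
  have j1 : ∀ k : I, Integrable (fun V => ⟪fderiv ℝ (fderiv ℝ f) U (EuclideanSpace.single k 1) V,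
      fderiv ℝ f (Real.cos θ • U + (-Real.sin θ) • V) (EuclideanSpace.single k 1)⟫)
      (stdGaussian (EuclideanSpace ℝ I)) := by
    intro k
    refine (hm.1.const_mul (K * K)).mono' ?_ (Filter.Eventually.of_forall fun V => ?_)
    · refine Continuous.aestronglyMeasurable ?_
      exact Continuous.inner (by fun_prop)
        (((ibp2_c1 f hf).continuous.comp (by fun_prop)).clm_apply continuous_const)
    · refine (norm_inner_le_norm _ _).trans ?_
      have a1 := b22 U (EuclideanSpace.single k 1) V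
      have a2 := b1 (Real.cos θ • U + (-Real.sin θ) • V) (EuclideanSpace.single k 1)
      rw [ibp2_norm_single, mul_one] at a1 a2
      calc _ ≤ (K * ‖V‖) * K := mul_le_mul a1 a2 (norm_nonneg _) (by positivity)
        _ = K * K * ‖V‖ := by ring
  have hhs : ∀ (k : I) (V : EuclideanSpace ℝ I),
      hsip (fderiv ℝ (fderiv ℝ f) U (EuclideanSpace.single k 1))
        (fderiv ℝ (fun x => fderiv ℝ f x (EuclideanSpace.single k 1))
          (Real.cos θ • U + (-Real.sin θ) • V)) =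
      ∑ l, ⟪fderiv ℝ (fderiv ℝ f) U (EuclideanSpace.single k 1) (EuclideanSpace.single l 1),
        fderiv ℝ (fderiv ℝ f) (xt θ (U, V)) (EuclideanSpace.single l 1)
          (EuclideanSpace.single k 1)⟫ := by
    intro k V
    unfold hsip
    refine Finset.sum_congr rfl fun l _ => ?_
    rw [hGd, hxt]
  have j2 : ∀ k : I, Integrable (fun V =>
      hsip (fderiv ℝ (fderiv ℝ f) U (EuclideanSpace.single k 1))
        (fderiv ℝ (fun x => fderiv ℝ f x (EuclideanSpace.single k 1))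
          (Real.cos θ • U + (-Real.sin θ) • V))) (stdGaussian (EuclideanSpace ℝ I)) := by
    intro k
    simp only [hhs]
    refine integrable_finset_sum _ fun l _ => ?_
    refine (integrable_const (K * K)).mono' ?_ (Filter.Eventually.of_forall fun V => ?_)
    · refine Continuous.aestronglyMeasurable ?_
      refine Continuous.inner continuous_const ?_
      refine Continuous.clm_apply (Continuous.clm_apply ((ibp2_c2 f hf).comp ?_) continuous_const)
        continuous_const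
      unfold xt
      fun_prop
    · refine (norm_inner_le_norm _ _).trans ?_
      have a1 := b22 U (EuclideanSpace.single k 1) (EuclideanSpace.single l 1)
      have a2 := b22 (xt θ (U, V)) (EuclideanSpace.single l 1) (EuclideanSpace.single k 1)
      rw [ibp2_norm_single, ibp2_norm_single, mul_one, mul_one] at a1 a2
      exact mul_le_mul a1 a2 (norm_nonneg _) hK
  have e1 : ∫ V, mix1 f U V (xt θ (U, V)) ∂(stdGaussian (EuclideanSpace ℝ I)) =
      ∑ k, ∫ V, ⟪fderiv ℝ (fderiv ℝ f) U (EuclideanSpace.single k 1) V,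
        fderiv ℝ f (Real.cos θ • U + (-Real.sin θ) • V) (EuclideanSpace.single k 1)⟫
        ∂(stdGaussian (EuclideanSpace ℝ I)) := by
    rw [← integral_finset_sum _ fun k _ => j1 k]
    refine integral_congr_ae (Filter.Eventually.of_forall fun V => ?_)
    show mix1 f U V (xt θ (U, V)) = _
    unfold mix1
    rw [hxt]
  have e2 : ∫ V, mix2 f U (xt θ (U, V)) ∂(stdGaussian (EuclideanSpace ℝ I)) =
      ∑ k, ∫ V, hsip (fderiv ℝ (fderiv ℝ f) U (EuclideanSpace.single k 1))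
        (fderiv ℝ (fun x => fderiv ℝ f x (EuclideanSpace.single k 1))
          (Real.cos θ • U + (-Real.sin θ) • V)) ∂(stdGaussian (EuclideanSpace ℝ I)) := by
    rw [← integral_finset_sum _ fun k _ => j2 k]
    refine integral_congr_ae (Filter.Eventually.of_forall fun V => ?_)
    show mix2 f U (xt θ (U, V)) = _
    unfold mix2
    exact Finset.sum_congr rfl fun k _ => (hhs k V).symm
  rw [e1, e2, Finset.mul_sum, ← Finset.sum_neg_distrib]
  refine Finset.sum_congr rfl fun k _ => ?_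
  rw [hst k]
  ring

theorem mix2_le_pt (x y : EuclideanSpace ℝ I) :
    |mix2 f x y| ≤ (hs2 (fderiv ℝ (fderiv ℝ f) x) + hs2 (fderiv ℝ (fderiv ℝ f) y)) / 2 := by
  have e : hs2 (fderiv ℝ (fderiv ℝ f) y) = ∑ k, ∑ l,
      ‖fderiv ℝ (fderiv ℝ f) y (EuclideanSpace.single l 1) (EuclideanSpace.single k 1)‖ ^ 2 := by
    unfold hs2
    rw [Finset.sum_comm]
  rw [e]
  unfold mix2 hs2
  rw [← Finset.sum_add_distrib, Finset.sum_div]
  refine (Finset.abs_sum_le_sum_abs _ _).trans (Finset.sum_le_sum fun k _ => ?_)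
  rw [← Finset.sum_add_distrib, Finset.sum_div]
  refine (Finset.abs_sum_le_sum_abs _ _).trans (Finset.sum_le_sum fun l _ => ?_)
  set a := fderiv ℝ (fderiv ℝ f) x (EuclideanSpace.single k 1) (EuclideanSpace.single l 1)
  set b := fderiv ℝ (fderiv ℝ f) y (EuclideanSpace.single l 1) (EuclideanSpace.single k 1)
  have h1 := abs_real_inner_le_norm a b
  nlinarith [sq_nonneg (‖a‖ - ‖b‖)]

theorem mix2_le_bd (h2 : ∀ x, ‖fderiv ℝ (fderiv ℝ f) x‖ ≤ K) (x : EuclideanSpace ℝ I) :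
    hs2 (fderiv ℝ (fderiv ℝ f) x) ≤ (Fintype.card I : ℝ) * ((Fintype.card I : ℝ) * K ^ 2) := by
  unfold hs2
  refine (Finset.sum_le_card_nsmul _ _ ((Fintype.card I : ℝ) * K ^ 2) fun k _ => ?_).trans
    (le_of_eq ?_)
  · refine (Finset.sum_le_card_nsmul _ _ (K ^ 2) fun l _ => ?_).trans (le_of_eq ?_)
    · have h3 : ‖fderiv ℝ (fderiv ℝ f) x (EuclideanSpace.single k 1) (EuclideanSpace.single l 1)‖ ≤ K := by
        have h4 := (fderiv ℝ (fderiv ℝ f) x).le_opNorm₂ (EuclideanSpace.single k (1 : ℝ))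
          (EuclideanSpace.single l (1 : ℝ))
        rw [EuclideanSpace.norm_single, EuclideanSpace.norm_single, norm_one, mul_one, mul_one] at h4
        exact h4.trans (h2 x)
      exact pow_le_pow_left₀ (norm_nonneg _) h3 2
    · rw [Finset.card_univ, nsmul_eq_mul]
  · rw [Finset.card_univ, nsmul_eq_mul]

theorem mix2_le_nn (x : EuclideanSpace ℝ I) : 0 ≤ hs2 (fderiv ℝ (fderiv ℝ f) x) := by
  unfold hs2; positivity

/-- Cauchy-Schwarz for the mixed term -/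
theorem mix2_le (hf : ContDiff ℝ 2 f) (h2 : ∀ x, ‖fderiv ℝ (fderiv ℝ f) x‖ ≤ K) (θ : ℝ) :
    ∫ p, mix2 f (xt θ p) p.1 ∂(g2 I) ≤
      ∫ x, hs2 (fderiv ℝ (fderiv ℝ f) x) ∂(stdGaussian (EuclideanSpace ℝ I)) := by
  have hc0 : Continuous (fderiv ℝ (fderiv ℝ f)) := by
    have h1 : ContDiff ℝ 1 (fderiv ℝ f) := hf.fderiv_right (by norm_num)
    exact h1.continuous_fderiv (by norm_num)
  have hcH : Continuous (fun x => hs2 (fderiv ℝ (fderiv ℝ f) x)) := by
    unfold hs2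
    fun_prop
  set H : EuclideanSpace ℝ I → ℝ := fun x => hs2 (fderiv ℝ (fderiv ℝ f) x) with hH
  set C : ℝ := (Fintype.card I : ℝ) * ((Fintype.card I : ℝ) * K ^ 2) with hC
  have hxt : Continuous (fun p : EuclideanSpace ℝ I × EuclideanSpace ℝ I => xt θ p) := by
    unfold xt; fun_prop
  have hxd : Continuous (fun p : EuclideanSpace ℝ I × EuclideanSpace ℝ I => xd θ p) := by
    unfold xd; fun_prop
  have hbd : ∀ x, ‖H x‖ ≤ C := by
    intro x
    rw [Real.norm_eq_abs, abs_of_nonneg (mix2_le_nn f x)]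
    exact mix2_le_bd f K h2 x
  have i1 : Integrable (fun p : EuclideanSpace ℝ I × EuclideanSpace ℝ I => H p.1) (g2 I) := by
    refine g2_int _ (hcH.comp continuous_fst) C 0 fun p => ?_
    rw [pow_zero, mul_one]; exact hbd _
  have i2 : Integrable (fun p : EuclideanSpace ℝ I × EuclideanSpace ℝ I => H (xt θ p)) (g2 I) := by
    refine g2_int _ (hcH.comp hxt) C 0 fun p => ?_
    rw [pow_zero, mul_one]; exact hbd _
  have i3 : Integrable (fun p : EuclideanSpace ℝ I × EuclideanSpace ℝ I => mix2 f (xt θ p) p.1) (g2 I) := by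
    refine g2_int _ ((all_cont f hf).2.2.2.2.2 θ) C 0 fun p => ?_
    rw [pow_zero, mul_one, Real.norm_eq_abs]
    have h3 := mix2_le_pt f (xt θ p) p.1
    have h4 := mix2_le_bd f K h2 (xt θ p)
    have h5 := mix2_le_bd f K h2 p.1
    linarith
  have e1 : ∫ p : EuclideanSpace ℝ I × EuclideanSpace ℝ I, H p.1 ∂(g2 I) =
      ∫ x, H x ∂(stdGaussian (EuclideanSpace ℝ I)) := by
    have hm : MeasurePreserving (Prod.fst : EuclideanSpace ℝ I × EuclideanSpace ℝ I → _) (g2 I)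
        (stdGaussian (EuclideanSpace ℝ I)) := measurePreserving_fst
    rw [← hm.map_eq, integral_map hm.aemeasurable]
    exact hcH.aestronglyMeasurable
  have e2 : ∫ p : EuclideanSpace ℝ I × EuclideanSpace ℝ I, H (xt θ p) ∂(g2 I) =
      ∫ p : EuclideanSpace ℝ I × EuclideanSpace ℝ I, H p.1 ∂(g2 I) := by
    have hm := (xt_mp I θ).1
    have h3 := integral_map (μ := g2 I) hm.aemeasurable
      (f := fun p : EuclideanSpace ℝ I × EuclideanSpace ℝ I => H p.1)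
      (hcH.comp continuous_fst).aestronglyMeasurable
    rw [hm.map_eq] at h3
    exact h3.symm
  calc ∫ p, mix2 f (xt θ p) p.1 ∂(g2 I) ≤ ∫ p, (H (xt θ p) + H p.1) / 2 ∂(g2 I) := by
        refine integral_mono i3 ((i2.add i1).div_const 2) fun p => ?_
        exact (le_abs_self _).trans (mix2_le_pt f (xt θ p) p.1)
    _ = ∫ x, H x ∂(stdGaussian (EuclideanSpace ℝ I)) := by
        rw [integral_div, integral_add i2 i1, e2, e1]; ring

/-- `E hs(Df(x_θ) - Df(Z)) ≤ θ² E hs2(D²f)` -/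
theorem corr_path (hf : ContDiff ℝ 2 f) (h1 : ∀ x, ‖fderiv ℝ f x‖ ≤ K)
    (h2 : ∀ x, ‖fderiv ℝ (fderiv ℝ f) x‖ ≤ K) (θ : ℝ) (hθ : 0 ≤ θ) :
    ∫ p, hs (fderiv ℝ f (xt θ p) - fderiv ℝ f p.1) ∂(g2 I) ≤
      θ ^ 2 * ∫ x, hs2 (fderiv ℝ (fderiv ℝ f) x) ∂(stdGaussian (EuclideanSpace ℝ I)) := by
  classical
  have hDf : ContDiff ℝ 1 (fderiv ℝ f) := hf.fderiv_right (by norm_num)
  have hg : ∀ i : I, ContDiff ℝ 1 (fun x => fderiv ℝ f x (EuclideanSpace.single i 1)) :=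
    fun i => hDf.clm_apply contDiff_const
  have hgd : ∀ (i : I) (x h : EuclideanSpace ℝ I),
      fderiv ℝ (fun x => fderiv ℝ f x (EuclideanSpace.single i 1)) x h =
        fderiv ℝ (fderiv ℝ f) x h (EuclideanSpace.single i 1) := by
    intro i x h
    have h3 : HasFDerivAt (fderiv ℝ f) (fderiv ℝ (fderiv ℝ f) x) x :=
      (hDf.differentiable (by norm_num) x).hasFDerivAt
    have h4 := h3.clm_apply (hasFDerivAt_const (EuclideanSpace.single i (1:ℝ)) x)
    rw [h4.fderiv]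
    simp
  have hsingle : ∀ i : I, ‖(EuclideanSpace.single i (1:ℝ) : EuclideanSpace ℝ I)‖ = 1 := by
    intro i; simp
  have hK0 : 0 ≤ K := (norm_nonneg _).trans (h1 0)
  have hgb : ∀ (i : I) (x : EuclideanSpace ℝ I),
      ‖fderiv ℝ (fun x => fderiv ℝ f x (EuclideanSpace.single i 1)) x‖ ≤ K := by
    intro i x
    refine ContinuousLinearMap.opNorm_le_bound _ hK0 fun h => ?_
    rw [hgd]
    calc ‖fderiv ℝ (fderiv ℝ f) x h (EuclideanSpace.single i 1)‖
        ≤ ‖fderiv ℝ (fderiv ℝ f) x h‖ * ‖(EuclideanSpace.single i (1:ℝ) : EuclideanSpace ℝ I)‖ :=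
          ContinuousLinearMap.le_opNorm _ _
      _ = ‖fderiv ℝ (fderiv ℝ f) x h‖ := by rw [hsingle, mul_one]
      _ ≤ ‖fderiv ℝ (fderiv ℝ f) x‖ * ‖h‖ := ContinuousLinearMap.le_opNorm _ _
      _ ≤ K * ‖h‖ := by gcongr; exact h2 x
  have hgn : ∀ (i : I) (x : EuclideanSpace ℝ I),
      ‖fderiv ℝ f x (EuclideanSpace.single i 1)‖ ≤ K := by
    intro i x
    calc ‖fderiv ℝ f x (EuclideanSpace.single i 1)‖
        ≤ ‖fderiv ℝ f x‖ * ‖(EuclideanSpace.single i (1:ℝ) : EuclideanSpace ℝ I)‖ :=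
          ContinuousLinearMap.le_opNorm _ _
      _ = ‖fderiv ℝ f x‖ := by rw [hsingle, mul_one]
      _ ≤ K := h1 x
  -- continuity
  have hcont1 : ∀ i : I, Continuous (fun p : EuclideanSpace ℝ I × EuclideanSpace ℝ I =>
      ‖fderiv ℝ f (xt θ p) (EuclideanSpace.single i 1) -
        fderiv ℝ f p.1 (EuclideanSpace.single i 1)‖ ^ 2) := by
    intro i
    have hxt : Continuous (fun p : EuclideanSpace ℝ I × EuclideanSpace ℝ I => xt θ p) := by
      unfold xt; fun_prop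
    exact ((((hg i).continuous.comp hxt).sub ((hg i).continuous.comp continuous_fst)).norm).pow 2
  have hint1 : ∀ i : I, Integrable (fun p : EuclideanSpace ℝ I × EuclideanSpace ℝ I =>
      ‖fderiv ℝ f (xt θ p) (EuclideanSpace.single i 1) -
        fderiv ℝ f p.1 (EuclideanSpace.single i 1)‖ ^ 2) (g2 I) := by
    intro i
    refine g2_int _ (hcont1 i) ((K + K) ^ 2) 0 fun p => ?_
    rw [pow_zero, mul_one, Real.norm_eq_abs, abs_of_nonneg (by positivity)]
    gcongr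
    exact (norm_sub_le _ _).trans (add_le_add (hgn i _) (hgn i _))
  -- reflection
  have href : ∀ i : I, ∫ p, ‖fderiv ℝ f (xt θ p) (EuclideanSpace.single i 1) -
        fderiv ℝ f p.1 (EuclideanSpace.single i 1)‖ ^ 2 ∂(g2 I) =
      ∫ p, ‖fderiv ℝ f (Real.cos θ • p.1 + Real.sin θ • p.2) (EuclideanSpace.single i 1) -
        fderiv ℝ f p.1 (EuclideanSpace.single i 1)‖ ^ 2
        ∂((stdGaussian (EuclideanSpace ℝ I)).prod (stdGaussian (EuclideanSpace ℝ I))) := by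
    intro i
    have hmp := (refl1_mp I 1 0 (by norm_num)).1
    have e1 := integral_map (μ := (stdGaussian (EuclideanSpace ℝ I)).prod
      (stdGaussian (EuclideanSpace ℝ I))) hmp.measurable.aemeasurable
      (f := fun p : EuclideanSpace ℝ I × EuclideanSpace ℝ I =>
        ‖fderiv ℝ f (xt θ p) (EuclideanSpace.single i 1) -
        fderiv ℝ f p.1 (EuclideanSpace.single i 1)‖ ^ 2) (hcont1 i).aestronglyMeasurable
    rw [hmp.map_eq] at e1
    unfold g2
    rw [e1]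
    congr 1
    funext p
    simp only [xt, one_smul, zero_smul, add_zero, zero_sub, smul_neg, sub_neg_eq_add]
  have hrot : ∀ i : I, ∫ p, ‖fderiv ℝ f (xt θ p) (EuclideanSpace.single i 1) -
        fderiv ℝ f p.1 (EuclideanSpace.single i 1)‖ ^ 2 ∂(g2 I) ≤
      θ ^ 2 * ∫ x, hs (fderiv ℝ (fun x => fderiv ℝ f x (EuclideanSpace.single i 1)) x)
        ∂(stdGaussian (EuclideanSpace ℝ I)) := by
    intro i
    rw [href i]
    exact rotpath (fun x => fderiv ℝ f x (EuclideanSpace.single i 1)) (hg i) K (hgb i) θ hθ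
  have hcont2 : ∀ i : I, Continuous (fun x : EuclideanSpace ℝ I =>
      hs (fderiv ℝ (fun x => fderiv ℝ f x (EuclideanSpace.single i 1)) x)) := by
    intro i
    unfold hs
    refine continuous_finset_sum _ fun l _ => ?_
    have := (hg i).continuous_fderiv (by norm_num)
    exact ((this.clm_apply continuous_const).norm).pow 2
  have hint2 : ∀ i : I, Integrable (fun x : EuclideanSpace ℝ I =>
      hs (fderiv ℝ (fun x => fderiv ℝ f x (EuclideanSpace.single i 1)) x))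
      (stdGaussian (EuclideanSpace ℝ I)) := by
    intro i
    refine Integrable.of_bound (hcont2 i).aestronglyMeasurable (∑ l : I, K ^ 2)
      (Eventually.of_forall fun x => ?_)
    rw [Real.norm_eq_abs, abs_of_nonneg (by unfold hs; positivity)]
    unfold hs
    refine Finset.sum_le_sum fun l _ => ?_
    gcongr
    calc ‖fderiv ℝ (fun x => fderiv ℝ f x (EuclideanSpace.single i 1)) x
          (EuclideanSpace.single l 1)‖
        ≤ ‖fderiv ℝ (fun x => fderiv ℝ f x (EuclideanSpace.single i 1)) x‖ *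
          ‖(EuclideanSpace.single l (1:ℝ) : EuclideanSpace ℝ I)‖ :=
          ContinuousLinearMap.le_opNorm _ _
      _ = ‖fderiv ℝ (fun x => fderiv ℝ f x (EuclideanSpace.single i 1)) x‖ := by
          rw [hsingle, mul_one]
      _ ≤ K := hgb i x
  calc ∫ p, hs (fderiv ℝ f (xt θ p) - fderiv ℝ f p.1) ∂(g2 I)
      = ∫ p, ∑ i : I, ‖fderiv ℝ f (xt θ p) (EuclideanSpace.single i 1) -
        fderiv ℝ f p.1 (EuclideanSpace.single i 1)‖ ^ 2 ∂(g2 I) := by
        rfl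
    _ = ∑ i : I, ∫ p, ‖fderiv ℝ f (xt θ p) (EuclideanSpace.single i 1) -
        fderiv ℝ f p.1 (EuclideanSpace.single i 1)‖ ^ 2 ∂(g2 I) :=
        integral_finset_sum _ fun i _ => hint1 i
    _ ≤ ∑ i : I, θ ^ 2 * ∫ x, hs (fderiv ℝ (fun x => fderiv ℝ f x (EuclideanSpace.single i 1)) x)
        ∂(stdGaussian (EuclideanSpace ℝ I)) := Finset.sum_le_sum fun i _ => hrot i
    _ = θ ^ 2 * ∫ x, ∑ i : I, hs (fderiv ℝ (fun x => fderiv ℝ f x (EuclideanSpace.single i 1)) x)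
        ∂(stdGaussian (EuclideanSpace ℝ I)) := by
        rw [integral_finset_sum _ fun i _ => hint2 i, Finset.mul_sum]
    _ = θ ^ 2 * ∫ x, hs2 (fderiv ℝ (fderiv ℝ f) x) ∂(stdGaussian (EuclideanSpace ℝ I)) := by
        congr 2
        funext x
        unfold hs hs2
        rw [Finset.sum_comm]
        refine Finset.sum_congr rfl fun l _ => Finset.sum_congr rfl fun i _ => ?_
        rw [hgd]

theorem ce_hs_sub (A B : EuclideanSpace ℝ I →L[ℝ] EuclideanSpace ℝ J) :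
    hs (A - B) = hs A + hs B - 2 * hsip A B := by
  unfold hs hsip
  rw [Finset.mul_sum, ← Finset.sum_add_distrib, ← Finset.sum_sub_distrib]
  refine Finset.sum_congr rfl fun i _ => ?_
  rw [ContinuousLinearMap.sub_apply, norm_sub_sq_real]
  ring

theorem ce_apply_le (A : EuclideanSpace ℝ I →L[ℝ] EuclideanSpace ℝ J)
    {K : ℝ} (hA : ‖A‖ ≤ K) (i : I) : ‖A (EuclideanSpace.single i 1)‖ ≤ K := by
  have h1 := A.le_opNorm (EuclideanSpace.single i 1)
  have h2 : ‖(EuclideanSpace.single i (1 : ℝ) : EuclideanSpace ℝ I)‖ = 1 := by simp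
  rw [h2, mul_one] at h1
  exact h1.trans hA

/-- `E hs(Df(x_θ) - Df(Z)) = 2 E hs(Df) - 2 E ⟪Df(x_θ), Df(Z)⟫` -/
theorem corr_expand (hf : ContDiff ℝ 2 f) (h1 : ∀ x, ‖fderiv ℝ f x‖ ≤ K) (θ : ℝ) :
    ∫ p, hs (fderiv ℝ f (xt θ p) - fderiv ℝ f p.1) ∂(g2 I) =
      2 * ∫ x, hs (fderiv ℝ f x) ∂(stdGaussian (EuclideanSpace ℝ I)) -
        2 * ∫ p, hsip (fderiv ℝ f (xt θ p)) (fderiv ℝ f p.1) ∂(g2 I) := by
  have hK : 0 ≤ K := (norm_nonneg _).trans (h1 0)
  have hDc : Continuous (fderiv ℝ f) := hf.continuous_fderiv two_ne_zero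
  have hhs : Continuous fun x => hs (fderiv ℝ f x) := by
    unfold hs
    refine continuous_finsetSum _ fun i _ => ?_
    exact (hDc.clm_apply continuous_const).norm.pow 2
  have hxt : Continuous (fun p : EuclideanSpace ℝ I × EuclideanSpace ℝ I => xt θ p) := by
    unfold xt; fun_prop
  have hxd : Continuous (fun p : EuclideanSpace ℝ I × EuclideanSpace ℝ I => xd θ p) := by
    unfold xd; fun_prop
  have hbd : ∀ x, ‖hs (fderiv ℝ f x)‖ ≤ Fintype.card I * K ^ 2 := by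
    intro x
    have h3 : 0 ≤ hs (fderiv ℝ f x) := Finset.sum_nonneg fun i _ => sq_nonneg _
    rw [Real.norm_of_nonneg h3]
    unfold hs
    calc ∑ i, ‖fderiv ℝ f x (EuclideanSpace.single i 1)‖ ^ 2 ≤ ∑ _i : I, K ^ 2 := by
          refine Finset.sum_le_sum fun i _ => ?_
          exact pow_le_pow_left₀ (norm_nonneg _) (ce_apply_le _ (h1 x) i) 2
      _ = _ := by simp
  have hi1 : Integrable (fun p : EuclideanSpace ℝ I × EuclideanSpace ℝ I =>
      hs (fderiv ℝ f (xt θ p))) (g2 I) := by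
    refine g2_int _ (hhs.comp hxt) (Fintype.card I * K ^ 2) 0 fun p => ?_
    rw [pow_zero, mul_one]; exact hbd _
  have hi2 : Integrable (fun p : EuclideanSpace ℝ I × EuclideanSpace ℝ I =>
      hs (fderiv ℝ f p.1)) (g2 I) := by
    refine g2_int _ (hhs.comp continuous_fst) (Fintype.card I * K ^ 2) 0 fun p => ?_
    rw [pow_zero, mul_one]; exact hbd _
  have hi3 : Integrable (fun p : EuclideanSpace ℝ I × EuclideanSpace ℝ I =>
      hsip (fderiv ℝ f (xt θ p)) (fderiv ℝ f p.1)) (g2 I) := by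
    refine g2_int _ ((all_cont f hf).2.2.2.1 θ) (Fintype.card I * K ^ 2) 0 fun p => ?_
    rw [pow_zero, mul_one, Real.norm_eq_abs]
    unfold hsip
    refine (Finset.abs_sum_le_sum_abs _ _).trans ?_
    calc ∑ i, |⟪fderiv ℝ f (xt θ p) (EuclideanSpace.single i 1),
          fderiv ℝ f p.1 (EuclideanSpace.single i 1)⟫| ≤ ∑ _i : I, K ^ 2 := by
          refine Finset.sum_le_sum fun i _ => ?_
          refine (abs_real_inner_le_norm _ _).trans ?_
          rw [pow_two]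
          exact mul_le_mul (ce_apply_le _ (h1 _) i) (ce_apply_le _ (h1 _) i) (norm_nonneg _) hK
      _ = _ := by simp
  have e2 : ∫ p, hs (fderiv ℝ f p.1) ∂(g2 I) =
      ∫ x, hs (fderiv ℝ f x) ∂(stdGaussian (EuclideanSpace ℝ I)) := by
    unfold g2
    rw [integral_fun_fst (fun x => hs (fderiv ℝ f x))]
    simp
  have e1 : ∫ p, hs (fderiv ℝ f (xt θ p)) ∂(g2 I) = ∫ p, hs (fderiv ℝ f p.1) ∂(g2 I) := by
    have hT := (xt_mp I θ).1
    conv_rhs => rw [← hT.map_eq]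
    rw [integral_map hT.measurable.aemeasurable]
    exact (hhs.comp continuous_fst).aestronglyMeasurable
  calc ∫ p, hs (fderiv ℝ f (xt θ p) - fderiv ℝ f p.1) ∂(g2 I)
      = ∫ p, (hs (fderiv ℝ f (xt θ p)) + hs (fderiv ℝ f p.1) -
          2 * hsip (fderiv ℝ f (xt θ p)) (fderiv ℝ f p.1)) ∂(g2 I) := by
        refine integral_congr_ae (Filter.Eventually.of_forall fun p => ?_)
        exact ce_hs_sub _ _
    _ = ∫ p, hs (fderiv ℝ f (xt θ p)) ∂(g2 I) + ∫ p, hs (fderiv ℝ f p.1) ∂(g2 I) -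
          2 * ∫ p, hsip (fderiv ℝ f (xt θ p)) (fderiv ℝ f p.1) ∂(g2 I) := by
        have hadd : Integrable (fun p : EuclideanSpace ℝ I × EuclideanSpace ℝ I =>
          hs (fderiv ℝ f (xt θ p)) + hs (fderiv ℝ f p.1)) (g2 I) := hi1.add hi2
        rw [integral_sub hadd (hi3.const_mul 2), integral_add hi1 hi2, integral_const_mul]
    _ = _ := by
        rw [e1, e2]; ring

theorem xd_norm_le (θ : ℝ) (p : EuclideanSpace ℝ I × EuclideanSpace ℝ I) :
    ‖xd θ p‖ ≤ ‖p.1‖ + ‖p.2‖ := by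
  unfold xd
  refine (norm_sub_le _ _).trans ?_
  rw [norm_neg, norm_smul, norm_smul, Real.norm_eq_abs, Real.norm_eq_abs]
  have h1 := Real.abs_sin_le_one θ
  have h2 := Real.abs_cos_le_one θ
  have := mul_le_mul_of_nonneg_right h1 (norm_nonneg p.1)
  have := mul_le_mul_of_nonneg_right h2 (norm_nonneg p.2)
  linarith

/-- the key estimate `E ‖Df(x_θ) x'_θ + Df(Z) G‖² ≤ θ² (E hs + 3 E hs2)` -/
theorem key (hf : ContDiff ℝ 2 f) (h1 : ∀ x, ‖fderiv ℝ f x‖ ≤ K)
    (h2 : ∀ x, ‖fderiv ℝ (fderiv ℝ f) x‖ ≤ K) (θ : ℝ) (hθ0 : 0 ≤ θ) (hθ1 : θ ≤ Real.pi / 2) :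
    ∫ p, ‖fderiv ℝ f (xt θ p) (xd θ p) + fderiv ℝ f p.1 p.2‖ ^ 2 ∂(g2 I) ≤
      θ ^ 2 * (3 * ∫ x, hs2 (fderiv ℝ (fderiv ℝ f) x) ∂(stdGaussian (EuclideanSpace ℝ I)) +
        ∫ x, hs (fderiv ℝ f x) ∂(stdGaussian (EuclideanSpace ℝ I))) := by
  have hK : 0 ≤ K := (norm_nonneg _).trans (h1 0)
  have hc := all_cont f hf
  have ba : ∀ p : EuclideanSpace ℝ I × EuclideanSpace ℝ I,
      ‖fderiv ℝ f (xt θ p) (xd θ p)‖ ≤ K * (1 + ‖p.1‖ + ‖p.2‖) := by
    intro p
    refine (ContinuousLinearMap.le_opNorm _ _).trans ?_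
    apply mul_le_mul (h1 _) _ (norm_nonneg _) hK
    linarith [xd_norm_le (I := I) θ p]
  have bb : ∀ p : EuclideanSpace ℝ I × EuclideanSpace ℝ I,
      ‖fderiv ℝ f p.1 p.2‖ ≤ K * (1 + ‖p.1‖ + ‖p.2‖) := by
    intro p
    refine (ContinuousLinearMap.le_opNorm _ _).trans ?_
    apply mul_le_mul (h1 _) _ (norm_nonneg _) hK
    linarith [norm_nonneg p.1]
  have ia : Integrable (fun p : EuclideanSpace ℝ I × EuclideanSpace ℝ I =>
      ‖fderiv ℝ f (xt θ p) (xd θ p)‖ ^ 2) (g2 I) := by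
    apply g2_int _ (hc.2.2.1 θ) (K ^ 2) 2
    intro p
    rw [Real.norm_eq_abs, abs_of_nonneg (by positivity), ← mul_pow]
    exact pow_le_pow_left₀ (norm_nonneg _) (ba p) 2
  have cb : Continuous (fun p : EuclideanSpace ℝ I × EuclideanSpace ℝ I =>
      ‖fderiv ℝ f p.1 p.2‖ ^ 2) := by
    have := ((hf.continuous_fderiv (by norm_num)).comp continuous_fst).clm_apply
      (continuous_snd : Continuous (fun p : EuclideanSpace ℝ I × EuclideanSpace ℝ I => p.2))
    exact this.norm.pow 2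
  have ib : Integrable (fun p : EuclideanSpace ℝ I × EuclideanSpace ℝ I =>
      ‖fderiv ℝ f p.1 p.2‖ ^ 2) (g2 I) := by
    apply g2_int _ cb (K ^ 2) 2
    intro p
    rw [Real.norm_eq_abs, abs_of_nonneg (by positivity), ← mul_pow]
    exact pow_le_pow_left₀ (norm_nonneg _) (bb p) 2
  have ic : Integrable (fun p : EuclideanSpace ℝ I × EuclideanSpace ℝ I =>
      ⟪fderiv ℝ f (xt θ p) (xd θ p), fderiv ℝ f p.1 p.2⟫) (g2 I) := by
    apply g2_int _ (hc.2.1 θ) (K ^ 2) 2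
    intro p
    refine (norm_inner_le_norm _ _).trans ?_
    rw [← mul_pow, pow_two]
    exact mul_le_mul (ba p) (bb p) (norm_nonneg _) ((norm_nonneg _).trans (ba p))
  have e1 : ∫ p, ‖fderiv ℝ f (xt θ p) (xd θ p) + fderiv ℝ f p.1 p.2‖ ^ 2 ∂(g2 I) =
      ∫ p, ‖fderiv ℝ f (xt θ p) (xd θ p)‖ ^ 2 ∂(g2 I) +
        2 * ∫ p, ⟪fderiv ℝ f (xt θ p) (xd θ p), fderiv ℝ f p.1 p.2⟫ ∂(g2 I) +
        ∫ p, ‖fderiv ℝ f p.1 p.2‖ ^ 2 ∂(g2 I) := by
    have e2 : (fun p : EuclideanSpace ℝ I × EuclideanSpace ℝ I =>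
        ‖fderiv ℝ f (xt θ p) (xd θ p) + fderiv ℝ f p.1 p.2‖ ^ 2) = fun p =>
        (‖fderiv ℝ f (xt θ p) (xd θ p)‖ ^ 2 +
        2 * ⟪fderiv ℝ f (xt θ p) (xd θ p), fderiv ℝ f p.1 p.2⟫) +
        ‖fderiv ℝ f p.1 p.2‖ ^ 2 := by
      funext p
      exact norm_add_sq_real _ _
    have i2 : Integrable (fun p : EuclideanSpace ℝ I × EuclideanSpace ℝ I =>
        2 * ⟪fderiv ℝ f (xt θ p) (xd θ p), fderiv ℝ f p.1 p.2⟫) (g2 I) := ic.const_mul 2
    have i3 : Integrable (fun p : EuclideanSpace ℝ I × EuclideanSpace ℝ I =>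
        ‖fderiv ℝ f (xt θ p) (xd θ p)‖ ^ 2 +
        2 * ⟪fderiv ℝ f (xt θ p) (xd θ p), fderiv ℝ f p.1 p.2⟫) (g2 I) := ia.add i2
    rw [e2, integral_add i3 ib, integral_add ia i2, integral_const_mul]
  rw [e1, (norm_terms f K hf h1 θ).1, (norm_terms f K hf h1 θ).2, ibp1 f K hf h1 h2 θ,
    ibp2 f K hf h1 h2 θ]
  have c1 := mix2_le f K hf h2 θ
  have c2 := corr_path f K hf h1 h2 θ hθ0
  have c3 := corr_expand f K hf h1 θ
  have hH : 0 ≤ ∫ x, hs (fderiv ℝ f x) ∂(stdGaussian (EuclideanSpace ℝ I)) := by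
    apply integral_nonneg
    intro x
    exact Finset.sum_nonneg fun i _ => by positivity
  have hH2 : 0 ≤ ∫ x, hs2 (fderiv ℝ (fderiv ℝ f) x) ∂(stdGaussian (EuclideanSpace ℝ I)) := by
    apply integral_nonneg
    intro x
    exact Finset.sum_nonneg fun i _ => Finset.sum_nonneg fun j _ => by positivity
  have t1 := Real.one_sub_sq_div_two_le_cos (x := θ)
  have t2 : Real.sin θ ≤ θ := Real.sin_le hθ0
  have t3 : 0 ≤ Real.sin θ := Real.sin_nonneg_of_nonneg_of_le_pi hθ0 (by linarith [Real.pi_pos])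
  have t4 : 0 ≤ Real.cos θ := Real.cos_nonneg_of_neg_pi_div_two_le_of_le (by linarith) hθ1
  have t5 : Real.cos θ ≤ 1 := Real.cos_le_one θ
  generalize (∫ x, hs (fderiv ℝ f x) ∂(stdGaussian (EuclideanSpace ℝ I))) = H at *
  generalize (∫ x, hs2 (fderiv ℝ (fderiv ℝ f) x) ∂(stdGaussian (EuclideanSpace ℝ I))) = H2 at *
  generalize (∫ p, mix2 f (xt θ p) p.1 ∂(g2 I)) = M at *
  generalize (∫ p, hs (fderiv ℝ f (xt θ p) - fderiv ℝ f p.1) ∂(g2 I)) = Dd at *
  generalize (∫ p, hsip (fderiv ℝ f (xt θ p)) (fderiv ℝ f p.1) ∂(g2 I)) = P at *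
  generalize Real.cos θ = c at *
  generalize Real.sin θ = s at *
  have u1 : s ^ 2 * M ≤ s ^ 2 * H2 := mul_le_mul_of_nonneg_left c1 (by positivity)
  have u2 : s ^ 2 * H2 ≤ θ ^ 2 * H2 :=
    mul_le_mul_of_nonneg_right (pow_le_pow_left₀ t3 t2 2) hH2
  have u3 : c * Dd ≤ c * (θ ^ 2 * H2) := mul_le_mul_of_nonneg_left c2 t4
  have u4 : c * (θ ^ 2 * H2) ≤ 1 * (θ ^ 2 * H2) :=
    mul_le_mul_of_nonneg_right t5 (by positivity)
  have u5 : (2 * (1 - c)) * H ≤ θ ^ 2 * H := mul_le_mul_of_nonneg_right (by linarith) hH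
  have u6 : P = H - Dd / 2 := by linarith
  subst u6
  nlinarith [u1, u2, u3, u4, u5]

theorem pointwise_cs (v : ℝ → ℝ) (hv : Continuous v) (ph : ℝ) (hp : 0 < ph) :
    (∫ θ in (0 : ℝ)..ph, v θ) ^ 2 ≤ ph * ∫ θ in (0 : ℝ)..ph, v θ ^ 2 := by
  set c := (∫ θ in (0 : ℝ)..ph, v θ) / ph with hc
  have h0 : 0 ≤ ∫ θ in (0 : ℝ)..ph, (v θ - c) ^ 2 :=
    intervalIntegral.integral_nonneg hp.le fun θ _ => sq_nonneg _
  have h1 : ∫ θ in (0 : ℝ)..ph, (v θ - c) ^ 2 =
      (∫ θ in (0 : ℝ)..ph, v θ ^ 2) - 2 * c * (∫ θ in (0 : ℝ)..ph, v θ) + ph * c ^ 2 := by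
    have e1 : ∀ θ, (v θ - c) ^ 2 = v θ ^ 2 - 2 * c * v θ + c ^ 2 := fun θ => by ring
    simp only [e1]
    rw [intervalIntegral.integral_add, intervalIntegral.integral_sub,
      intervalIntegral.integral_const_mul, intervalIntegral.integral_const, sub_zero, smul_eq_mul]
    · exact (hv.pow 2).intervalIntegrable _ _
    · exact (hv.const_mul _).intervalIntegrable _ _
    · exact ((hv.pow 2).sub (hv.const_mul _)).intervalIntegrable _ _
    · exact continuous_const.intervalIntegrable _ _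
  rw [h1] at h0
  have h2 : (∫ θ in (0 : ℝ)..ph, v θ) = c * ph := by
    rw [hc, div_mul_cancel₀ _ hp.ne']
  rw [h2] at h0 ⊢
  nlinarith

/-- pointwise bound of the remainder -/
theorem pointwise (hf : ContDiff ℝ 2 f) (ph : ℝ) (hp0 : 0 ≤ ph)
    (p : EuclideanSpace ℝ I × EuclideanSpace ℝ I) :
    ‖f (Real.cos ph • p.1 - Real.sin ph • p.2) - f p.1 + ph • fderiv ℝ f p.1 p.2‖ ^ 2 ≤
      ph * ∫ θ in (0 : ℝ)..ph, ‖fderiv ℝ f (xt θ p) (xd θ p) + fderiv ℝ f p.1 p.2‖ ^ 2 := by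
  rcases hp0.eq_or_lt with rfl | hp
  · simp
  have hfd : Continuous (fderiv ℝ f) := hf.continuous_fderiv (by norm_num)
  have hxt : Continuous fun θ : ℝ => xt θ p := by
    unfold xt; fun_prop
  have hxd : Continuous fun θ : ℝ => xd θ p := by
    unfold xd; fun_prop
  have hV : Continuous fun θ : ℝ => fderiv ℝ f (xt θ p) (xd θ p) + fderiv ℝ f p.1 p.2 :=
    ((hfd.comp hxt).clm_apply hxd).add continuous_const
  have hder : ∀ θ : ℝ, HasDerivAt (fun θ : ℝ => f (xt θ p) + θ • fderiv ℝ f p.1 p.2)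
      (fderiv ℝ f (xt θ p) (xd θ p) + fderiv ℝ f p.1 p.2) θ := by
    intro θ
    have h1 : HasDerivAt (fun θ : ℝ => xt θ p) (xd θ p) θ := by
      have h2 := ((Real.hasDerivAt_cos θ).smul_const p.1).sub
        ((Real.hasDerivAt_sin θ).smul_const p.2)
      refine h2.congr_deriv ?_
      unfold xd
      rw [neg_smul]
    have h3 : HasFDerivAt f (fderiv ℝ f (xt θ p)) (xt θ p) :=
      ((hf.differentiable (by norm_num)) _).hasFDerivAt
    have h4 := HasFDerivAt.comp_hasDerivAt (l := f) (f := fun θ : ℝ => xt θ p) θ h3 h1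
    have h5 : HasDerivAt (fun θ : ℝ => θ • fderiv ℝ f p.1 p.2) (fderiv ℝ f p.1 p.2) θ := by
      have := (hasDerivAt_id θ).smul_const (fderiv ℝ f p.1 p.2)
      rw [one_smul] at this
      exact this
    exact h4.add h5
  have hftc := intervalIntegral.integral_eq_sub_of_hasDerivAt (a := 0) (b := ph)
    (fun θ _ => hder θ) (hV.intervalIntegrable _ _)
  have h0 : xt 0 p = p.1 := by
    unfold xt
    simp
  rw [h0, zero_smul, add_zero] at hftc
  have e1 : f (Real.cos ph • p.1 - Real.sin ph • p.2) - f p.1 + ph • fderiv ℝ f p.1 p.2 =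
      ∫ θ in (0 : ℝ)..ph, (fderiv ℝ f (xt θ p) (xd θ p) + fderiv ℝ f p.1 p.2) := by
    rw [hftc]
    unfold xt
    abel
  rw [e1]
  have h6 : ‖∫ θ in (0 : ℝ)..ph, (fderiv ℝ f (xt θ p) (xd θ p) + fderiv ℝ f p.1 p.2)‖ ≤
      ∫ θ in (0 : ℝ)..ph, ‖fderiv ℝ f (xt θ p) (xd θ p) + fderiv ℝ f p.1 p.2‖ :=
    intervalIntegral.norm_integral_le_integral_norm hp.le
  exact (pow_le_pow_left₀ (norm_nonneg _) h6 2).trans (pointwise_cs _ hV.norm ph hp)

theorem fub_bound_aux (h1 : ∀ x, ‖fderiv ℝ f x‖ ≤ K) (θ : ℝ)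
    (p : EuclideanSpace ℝ I × EuclideanSpace ℝ I) :
    ‖(‖fderiv ℝ f (xt θ p) (xd θ p) + fderiv ℝ f p.1 p.2‖ ^ 2 : ℝ)‖ ≤
      (4 * K ^ 2) * (1 + ‖p.1‖ + ‖p.2‖) ^ 2 := by
  have hK : 0 ≤ K := (norm_nonneg _).trans (h1 0)
  have hxd : ‖xd θ p‖ ≤ ‖p.1‖ + ‖p.2‖ := by
    unfold xd
    calc ‖-(Real.sin θ • p.1) - Real.cos θ • p.2‖
        ≤ ‖-(Real.sin θ • p.1)‖ + ‖Real.cos θ • p.2‖ := norm_sub_le _ _
      _ = |Real.sin θ| * ‖p.1‖ + |Real.cos θ| * ‖p.2‖ := by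
          rw [norm_neg, norm_smul, norm_smul, Real.norm_eq_abs, Real.norm_eq_abs]
      _ ≤ 1 * ‖p.1‖ + 1 * ‖p.2‖ := by
          gcongr
          · exact Real.abs_sin_le_one θ
          · exact Real.abs_cos_le_one θ
      _ = ‖p.1‖ + ‖p.2‖ := by ring
  have ha : ‖fderiv ℝ f (xt θ p) (xd θ p)‖ ≤ K * (‖p.1‖ + ‖p.2‖) :=
    calc ‖fderiv ℝ f (xt θ p) (xd θ p)‖ ≤ ‖fderiv ℝ f (xt θ p)‖ * ‖xd θ p‖ :=
          ContinuousLinearMap.le_opNorm _ _
      _ ≤ K * (‖p.1‖ + ‖p.2‖) := mul_le_mul (h1 _) hxd (norm_nonneg _) hK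
  have hb : ‖fderiv ℝ f p.1 p.2‖ ≤ K * ‖p.2‖ :=
    calc ‖fderiv ℝ f p.1 p.2‖ ≤ ‖fderiv ℝ f p.1‖ * ‖p.2‖ :=
          ContinuousLinearMap.le_opNorm _ _
      _ ≤ K * ‖p.2‖ := mul_le_mul_of_nonneg_right (h1 _) (norm_nonneg _)
  have hc : ‖fderiv ℝ f (xt θ p) (xd θ p) + fderiv ℝ f p.1 p.2‖ ≤
      2 * K * (1 + ‖p.1‖ + ‖p.2‖) := by
    refine (norm_add_le _ _).trans ?_
    have e1 := norm_nonneg p.1
    have e2 := norm_nonneg p.2
    nlinarith [mul_nonneg hK e1, mul_nonneg hK e2]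
  rw [Real.norm_eq_abs, abs_of_nonneg (by positivity)]
  calc ‖fderiv ℝ f (xt θ p) (xd θ p) + fderiv ℝ f p.1 p.2‖ ^ 2
      ≤ (2 * K * (1 + ‖p.1‖ + ‖p.2‖)) ^ 2 :=
        pow_le_pow_left₀ (norm_nonneg _) hc 2
    _ = (4 * K ^ 2) * (1 + ‖p.1‖ + ‖p.2‖) ^ 2 := by ring

/-- Fubini for the remainder -/
theorem fubini (hf : ContDiff ℝ 2 f) (h1 : ∀ x, ‖fderiv ℝ f x‖ ≤ K) (ph : ℝ) (hp0 : 0 ≤ ph) :
    ∫ p, (∫ θ in (0 : ℝ)..ph, ‖fderiv ℝ f (xt θ p) (xd θ p) + fderiv ℝ f p.1 p.2‖ ^ 2) ∂(g2 I) =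
      ∫ θ in (0 : ℝ)..ph,
        (∫ p, ‖fderiv ℝ f (xt θ p) (xd θ p) + fderiv ℝ f p.1 p.2‖ ^ 2 ∂(g2 I)) ∧
    Integrable (fun p : EuclideanSpace ℝ I × EuclideanSpace ℝ I =>
      ∫ θ in (0 : ℝ)..ph, ‖fderiv ℝ f (xt θ p) (xd θ p) + fderiv ℝ f p.1 p.2‖ ^ 2) (g2 I) ∧
    IntervalIntegrable (fun θ : ℝ =>
      ∫ p, ‖fderiv ℝ f (xt θ p) (xd θ p) + fderiv ℝ f p.1 p.2‖ ^ 2 ∂(g2 I)) volume 0 ph := by
  have hb : Integrable (fun p : EuclideanSpace ℝ I × EuclideanSpace ℝ I =>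
      (4 * K ^ 2) * (1 + ‖p.1‖ + ‖p.2‖) ^ 2) (g2 I) := by
    refine g2_int (fun p : EuclideanSpace ℝ I × EuclideanSpace ℝ I =>
      (4 * K ^ 2) * (1 + ‖p.1‖ + ‖p.2‖) ^ 2) (by fun_prop) (4 * K ^ 2) 2 ?_
    intro p
    rw [Real.norm_eq_abs, abs_of_nonneg (by positivity)]
  have hcont := (all_cont f hf).1
  have hint : Integrable (Function.uncurry
      (fun (θ : ℝ) (p : EuclideanSpace ℝ I × EuclideanSpace ℝ I) =>
        ‖fderiv ℝ f (xt θ p) (xd θ p) + fderiv ℝ f p.1 p.2‖ ^ 2))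
      ((volume.restrict (Set.Ioc (0 : ℝ) ph)).prod (g2 I)) := by
    have hb2 : Integrable (fun q : ℝ × (EuclideanSpace ℝ I × EuclideanSpace ℝ I) =>
        (4 * K ^ 2) * (1 + ‖q.2.1‖ + ‖q.2.2‖) ^ 2)
        ((volume.restrict (Set.Ioc (0 : ℝ) ph)).prod (g2 I)) := hb.comp_snd _
    refine hb2.mono' ?_ ?_
    · exact hcont.aestronglyMeasurable
    · exact Filter.Eventually.of_forall fun q => fub_bound_aux f K h1 q.1 q.2
  refine ⟨?_, ?_, ?_⟩
  · simp only [intervalIntegral.integral_of_le hp0]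
    exact (integral_integral_swap hint).symm
  · simp only [intervalIntegral.integral_of_le hp0]
    exact hint.integral_prod_right
  · rw [intervalIntegrable_iff_integrableOn_Ioc_of_le hp0]
    exact hint.integral_prod_left

/-- classical Taylor lemma -/
theorem taylor_gauss3 (hf : ContDiff ℝ 2 f)
    (h0 : ∀ x, ‖f x‖ ≤ K) (h1 : ∀ x, ‖fderiv ℝ f x‖ ≤ K)
    (h2 : ∀ x, ‖fderiv ℝ (fderiv ℝ f) x‖ ≤ K) (ph : ℝ) (hp0 : 0 ≤ ph) (hp1 : ph ≤ Real.pi / 2) :
    ∫ p, ‖f (Real.cos ph • p.1 - Real.sin ph • p.2) - f p.1 + ph • fderiv ℝ f p.1 p.2‖ ^ 2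
      ∂((stdGaussian (EuclideanSpace ℝ I)).prod (stdGaussian (EuclideanSpace ℝ I))) ≤
      ph ^ 4 / 3 * (3 * ∫ x, hs2 (fderiv ℝ (fderiv ℝ f) x) ∂(stdGaussian (EuclideanSpace ℝ I)) +
        ∫ x, hs (fderiv ℝ f x) ∂(stdGaussian (EuclideanSpace ℝ I))) := by
  obtain ⟨hf1, hf2, hf3⟩ := fubini f K hf h1 ph hp0
  obtain ⟨C, hC⟩ : ∃ C : ℝ, C = (3 * ∫ x, hs2 (fderiv ℝ (fderiv ℝ f) x) ∂(stdGaussian (EuclideanSpace ℝ I)) +
        ∫ x, hs (fderiv ℝ f x) ∂(stdGaussian (EuclideanSpace ℝ I))) := ⟨_, rfl⟩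
  have hkey : ∀ θ ∈ Set.Icc 0 ph,
      ∫ p, ‖fderiv ℝ f (xt θ p) (xd θ p) + fderiv ℝ f p.1 p.2‖ ^ 2 ∂(g2 I) ≤ θ ^ 2 * C := by
    intro θ hθ
    rw [hC]
    exact key f K hf h1 h2 θ hθ.1 (hθ.2.trans hp1)
  rw [← hC]
  have hint : IntervalIntegrable (fun θ : ℝ => θ ^ 2 * C) volume 0 ph :=
    (by fun_prop : Continuous (fun θ : ℝ => θ ^ 2 * C)).intervalIntegrable _ _
  have hle := intervalIntegral.integral_mono_on hp0 hf3 hint hkey
  have hval : ∫ θ in (0 : ℝ)..ph, θ ^ 2 * C = ph ^ 3 / 3 * C := by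
    rw [intervalIntegral.integral_mul_const, integral_pow]
    norm_num
  rw [hval] at hle
  have h3 : ∫ p, ‖f (Real.cos ph • p.1 - Real.sin ph • p.2) - f p.1 + ph • fderiv ℝ f p.1 p.2‖ ^ 2
      ∂(g2 I) ≤ ∫ p, ph * (∫ θ in (0 : ℝ)..ph,
        ‖fderiv ℝ f (xt θ p) (xd θ p) + fderiv ℝ f p.1 p.2‖ ^ 2) ∂(g2 I) := by
    refine integral_mono_of_nonneg ?_ (hf2.const_mul ph) ?_
    · exact Filter.Eventually.of_forall fun p => sq_nonneg _
    · exact Filter.Eventually.of_forall fun p => pointwise f hf ph hp0 p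
  rw [integral_const_mul, hf1] at h3
  change ∫ p, ‖f (Real.cos ph • p.1 - Real.sin ph • p.2) - f p.1 + ph • fderiv ℝ f p.1 p.2‖ ^ 2
      ∂(g2 I) ≤ _
  calc _ ≤ _ := h3
    _ ≤ ph * (ph ^ 3 / 3 * C) := mul_le_mul_of_nonneg_left hle hp0
    _ = _ := by ring

end CT
end Pool.Agent.Helper38.FE
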