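import Pool.Agent.Helper38.FE.Up
import Pool.Agent.Helper38.FE.GueLin
import Pool.Agent.Helper38.FE.LowTay
import Pool.Agent.Helper38.FE.Tay

/-! MODULE H2, part [B]: the Taylor remainder of good words in the limit `N → ∞`. -/

set_option autoImplicit false
set_option linter.unusedVariables false
set_option linter.unusedSectionVars false

open MeasureTheory Filter Topology ProbabilityTheory
open scoped InnerProductSpace ENNReal ComplexConjugate

namespace Pool.Agent.Helper38.FE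
namespace Tay

/-- the event that all matrices have norm at most `L` -/
def good {ι : Type} [Fintype ι] (N : ℕ) (L : ℝ) : Set (EuclideanSpace ℝ (ι × Fin N × Fin N)) :=
  {x | ∀ i, ‖Xm N x i‖ ≤ L}

theorem gue_norm {ι : Type} [Fintype ι] [DecidableEq ι] : ∃ L : ℝ, 2 ≤ L ∧
    Tendsto (fun N : ℕ => (stdGaussian (EuclideanSpace ℝ (ι × Fin (N + 1) × Fin (N + 1)))).real
      (good (N + 1) L)ᶜ) atTop (𝓝 0) :=
  Pool.Agent.Helper38.FE.gue_norm

theorem gue_conv_lin {ι : Type} [Fintype ι] [DecidableEq ι] {H : Type} [NormedAddCommGroup H]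
    [InnerProductSpace ℂ H] [CompleteSpace H]
    {κ : Type} (c : κ → ι → ℝ) (S : FS ι H) (L : ℝ) (hL2 : 2 ≤ L) (hL : Tendsto (fun N : ℕ =>
      (stdGaussian (EuclideanSpace ℝ (ι × Fin (N + 1) × Fin (N + 1)))).real (good (N + 1) L)ᶜ)
      atTop (𝓝 0)) (w : List (Lt κ)) :
    Tendsto (fun N : ℕ => ∫ x in good (N + 1) L,
      tr (evW (fun k => ∑ i, ((c k i : ℝ) : ℂ) • Xm (N + 1) x i) w)
      ∂(stdGaussian (EuclideanSpace ℝ (ι × Fin (N + 1) × Fin (N + 1)))))
      atTop (𝓝 (tau S.Ω (evW (fun k => ∑ i, ((c k i : ℝ) : ℂ) • S.s i) w))) :=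
  Pool.Agent.Helper38.FE.gue_conv_lin c S L hL2 hL w

/-- classical Taylor lemma -/
theorem taylor_gauss {I J : Type} [Fintype I] [Fintype J] [DecidableEq I] [DecidableEq J]
    (f : EuclideanSpace ℝ I → EuclideanSpace ℝ J) (K : ℝ) (hf : ContDiff ℝ 2 f)
    (h0 : ∀ x, ‖f x‖ ≤ K) (h1 : ∀ x, ‖fderiv ℝ f x‖ ≤ K)
    (h2 : ∀ x, ‖fderiv ℝ (fderiv ℝ f) x‖ ≤ K) (ph : ℝ) (hp0 : 0 ≤ ph) (hp1 : ph ≤ Real.pi / 2) :
    ∫ p, ‖f (Real.cos ph • p.1 - Real.sin ph • p.2) - f p.1 + ph • fderiv ℝ f p.1 p.2‖ ^ 2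
      ∂((stdGaussian (EuclideanSpace ℝ I)).prod (stdGaussian (EuclideanSpace ℝ I))) ≤
      ph ^ 4 / 3 * (3 * ∫ x, hs2 (fderiv ℝ (fderiv ℝ f) x) ∂(stdGaussian (EuclideanSpace ℝ I)) +
        ∫ x, hs (fderiv ℝ f x) ∂(stdGaussian (EuclideanSpace ℝ I))) :=
  CT.taylor_gauss3 f K hf h0 h1 h2 ph hp0 hp1

/-- self-adjointness and linearity of `Hm` -/
theorem Hm_facts (N : ℕ) : (∀ a, IsSelfAdjoint (Hm N a)) ∧
    (∀ a b, Hm N (a + b) = Hm N a + Hm N b) ∧
    (∀ (c : ℝ) a, Hm N (c • a) = ((c : ℝ) : ℂ) • Hm N a) ∧ Continuous (Hm N) :=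
  U.Hm_sa N

/-- `Hm` and `crd` are inverse to each other -/
theorem Hm_crd (N : ℕ) (hN : 0 < N) : (∀ T : BN N, IsSelfAdjoint T → Hm N (crd T) = T) ∧
    (∀ a : EuclideanSpace ℝ (Fin N × Fin N), crd (Hm N a) = a) :=
  U.Hm_crd N hN

/-- the coordinate inner product is the trace inner product -/
theorem inner_crd (N : ℕ) (A B : BN N) (hA : IsSelfAdjoint A) (hB : IsSelfAdjoint B) :
    ⟪crd A, crd B⟫_ℝ = (N : ℝ) ^ 2 * (tr (A * B)).re :=
  U.inner_crd N A B hA hB

theorem tr_facts (N : ℕ) : (∀ A B : BN N, tr (A + B) = tr A + tr B) ∧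
    (∀ (c : ℂ) (A : BN N), tr (c • A) = c * tr A) ∧ (∀ A : BN N, ‖tr A‖ ≤ ‖A‖) ∧
    Continuous (fun A : BN N => tr A) :=
  U.tr_facts N

/-- `al` -/
theorem al_facts : ‖al‖ ≤ 1 ∧ al * al = -(1 / 2) ∧ starRingEnd ℂ al = -al ∧ al ≠ 0 :=
  Low.al_facts

/-- the Cayley transform of a self-adjoint operator -/
theorem cay_facts {H : Type} [NormedAddCommGroup H] [InnerProductSpace ℂ H] [CompleteSpace H]
    (a : H →L[ℂ] H) (ha : IsSelfAdjoint a) :
    IsUnit (a - al • (1 : H →L[ℂ] H)) ∧ ‖cay a‖ ≤ 1 :=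
  Low.cay_facts a ha

variable {H : Type} [NormedAddCommGroup H] [InnerProductSpace ℂ H] [CompleteSpace H]


/-- `F_b(x) - F_b(z) + φ DF_b(z)[w]` for a tuple `y = (x, z, w)` -/
noncomputable def GG {A : Type*} [Ring A] [StarRing A] [Algebra ℂ A] (b : List (Fin 3)) (φ : ℝ)
    (y : Fin 3 × Fin 3 → A) : A :=
  Fb b (fun i => y (0, i)) - Fb b (fun i => y (1, i)) +
    ((φ : ℝ) : ℂ) • DFb b (fun i => y (1, i)) (fun i => y (2, i))

/-- linear combinations of blocks -/
noncomputable def blk {ι : Type} [Fintype ι] (N : ℕ) (c : Fin 3 → ι → ℝ)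
    (x : EuclideanSpace ℝ (ι × Fin N × Fin N)) : EuclideanSpace ℝ (Fin 3 × Fin N × Fin N) :=
  WithLp.toLp 2 fun p => ∑ j, c p.1 j * x (j, p.2)

/-- linear combinations of a tuple -/
noncomputable def lc {ι κ : Type} [Fintype ι] {A : Type*} [AddCommMonoid A] [Module ℂ A]
    (c : κ → ι → ℝ) (f : ι → A) (k : κ) : A := ∑ i, ((c k i : ℝ) : ℂ) • f i

theorem wc_evW_append {κ : Type} {A : Type*} [Ring A] [StarRing A] [Algebra ℂ A] (y : κ → A)
    (w w' : List (Lt κ)) : evW y (w ++ w') = evW y w * evW y w' := by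
  unfold evW
  rw [List.map_append, List.prod_append]

theorem wc_smul {κ : Type} {A : Type*} [Ring A] [StarRing A] [Algebra ℂ A] (y : κ → A) (c : ℂ)
    (P : List (ℂ × List (Lt κ))) :
    ((P.map fun p => (c * p.1, p.2)).map fun p => p.1 • evW y p.2).sum =
      c • (P.map fun p => p.1 • evW y p.2).sum := by
  induction P with
  | nil => simp
  | cons p P ih =>
    rw [List.map_cons, List.map_cons, List.sum_cons, ih, List.map_cons, List.sum_cons, smul_add,
      mul_smul]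

theorem wc_mul1 {κ : Type} {A : Type*} [Ring A] [StarRing A] [Algebra ℂ A] (y : κ → A) (c : ℂ)
    (w : List (Lt κ)) (P : List (ℂ × List (Lt κ))) :
    ((P.map fun q => (c * q.1, w ++ q.2)).map fun p => p.1 • evW y p.2).sum =
      (c • evW y w) * (P.map fun p => p.1 • evW y p.2).sum := by
  induction P with
  | nil => simp
  | cons p P ih =>
    rw [List.map_cons, List.map_cons, List.sum_cons, ih, List.map_cons, List.sum_cons, mul_add]
    congr 1
    rw [wc_evW_append, smul_mul_smul_comm]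

theorem wc_mul {κ : Type} {A : Type*} [Ring A] [StarRing A] [Algebra ℂ A] (y : κ → A)
    (P P' : List (ℂ × List (Lt κ))) :
    ((P.flatMap fun p => P'.map fun q => (p.1 * q.1, p.2 ++ q.2)).map
      fun p => p.1 • evW y p.2).sum =
      (P.map fun p => p.1 • evW y p.2).sum * (P'.map fun p => p.1 • evW y p.2).sum := by
  induction P with
  | nil => simp
  | cons p P ih =>
    rw [List.flatMap_cons, List.map_append, List.sum_append, ih, wc_mul1, List.map_cons,
      List.sum_cons, add_mul]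

/-- star of a letter -/
def wcS {κ : Type} : Lt κ → Lt κ
  | Lt.X i => Lt.X i
  | Lt.U i => Lt.V i
  | Lt.V i => Lt.U i

theorem wc_starL {κ : Type} {A : Type*} [Ring A] [StarRing A] [Algebra ℂ A] (y : κ → A)
    (hy : ∀ k, IsSelfAdjoint (y k)) (l : Lt κ) : star (evL y l) = evL y (wcS l) := by
  cases l with
  | X i => exact hy i
  | U i => rfl
  | V i => exact star_star _

theorem wc_starW {κ : Type} {A : Type*} [Ring A] [StarRing A] [Algebra ℂ A] (y : κ → A)
    (hy : ∀ k, IsSelfAdjoint (y k)) (w : List (Lt κ)) :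
    star (evW y w) = evW y ((w.map wcS).reverse) := by
  induction w with
  | nil =>
    unfold evW
    simp
  | cons l w ih =>
    have h1 : evW y (l :: w) = evL y l * evW y w := by
      unfold evW
      rw [List.map_cons, List.prod_cons]
    have h2 : evW y [wcS l] = evL y (wcS l) := by
      unfold evW
      simp
    rw [h1, star_mul, ih, wc_starL y hy, List.map_cons, List.reverse_cons, wc_evW_append, h2]

theorem wc_star {κ : Type} {A : Type*} [Ring A] [StarRing A] [Algebra ℂ A] [StarModule ℂ A]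
    (y : κ → A) (hy : ∀ k, IsSelfAdjoint (y k)) (P : List (ℂ × List (Lt κ))) :
    ((P.map fun p => (star p.1, (p.2.map wcS).reverse)).map fun p => p.1 • evW y p.2).sum =
      star ((P.map fun p => p.1 • evW y p.2).sum) := by
  induction P with
  | nil => simp
  | cons p P ih =>
    rw [List.map_cons, List.map_cons, List.sum_cons, ih, List.map_cons, List.sum_cons, star_add,
      star_smul, wc_starW y hy]

/-- universal combinations of words are closed under the operations used below -/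
theorem words_closed {κ : Type} :
    let R : (∀ (A : Type) [Ring A] [StarRing A] [Algebra ℂ A] [StarModule ℂ A], (κ → A) → A) → Prop :=
      fun G => ∃ P : List (ℂ × List (Lt κ)),
        ∀ (A : Type) [Ring A] [StarRing A] [Algebra ℂ A] [StarModule ℂ A] (y : κ → A),
          (∀ k, IsSelfAdjoint (y k)) → G A y = (P.map fun p => p.1 • evW y p.2).sum
    (R fun A _ _ _ _ y => 0) ∧ (R fun A _ _ _ _ y => 1) ∧
    (∀ k, R fun A _ _ _ _ y => y k) ∧ (∀ k, R fun A _ _ _ _ y => cay (y k)) ∧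
    (∀ G G', R G → R G' → R fun A _ _ _ _ y => G A y + G' A y) ∧
    (∀ (c : ℂ) G, R G → R fun A _ _ _ _ y => c • G A y) ∧
    (∀ G G', R G → R G' → R fun A _ _ _ _ y => G A y * G' A y) ∧
    (∀ G, R G → R fun A _ _ _ _ y => star (G A y)) := by
  intro R
  refine ⟨⟨[], ?_⟩, ⟨[(1, [])], ?_⟩, fun k => ⟨[(1, [Lt.X k])], ?_⟩,
    fun k => ⟨[(1, [Lt.U k])], ?_⟩, ?_, ?_, ?_, ?_⟩
  · intro A _ _ _ _ y _
    simp
  · intro A _ _ _ _ y _
    simp [evW]
  · intro A _ _ _ _ y _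
    simp [evW, evL]
  · intro A _ _ _ _ y _
    simp [evW, evL]
  · rintro G G' ⟨P, hP⟩ ⟨P', hP'⟩
    refine ⟨P ++ P', ?_⟩
    intro A _ _ _ _ y hy
    rw [List.map_append, List.sum_append, ← hP A y hy, ← hP' A y hy]
  · rintro c G ⟨P, hP⟩
    refine ⟨P.map fun p => (c * p.1, p.2), ?_⟩
    intro A _ _ _ _ y hy
    rw [wc_smul, ← hP A y hy]
  · rintro G G' ⟨P, hP⟩ ⟨P', hP'⟩
    refine ⟨P.flatMap fun p => P'.map fun q => (p.1 * q.1, p.2 ++ q.2), ?_⟩
    intro A _ _ _ _ y hy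
    rw [wc_mul, ← hP A y hy, ← hP' A y hy]
  · rintro G ⟨P, hP⟩
    refine ⟨P.map fun p => (star p.1, (p.2.map wcS).reverse), ?_⟩
    intro A _ _ _ _ y hy
    rw [wc_star y hy, ← hP A y hy]

/-- universal combinations of words -/
def RRw {κ : Type}
    (G : ∀ (A : Type) [Ring A] [StarRing A] [Algebra ℂ A] [StarModule ℂ A], (κ → A) → A) : Prop :=
  ∃ P : List (ℂ × List (Lt κ)),
    ∀ (A : Type) [Ring A] [StarRing A] [Algebra ℂ A] [StarModule ℂ A] (y : κ → A),
      (∀ k, IsSelfAdjoint (y k)) → G A y = (P.map fun p => p.1 • evW y p.2).sum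

theorem rrw_closed {κ : Type} :
    (RRw (κ := κ) fun A _ _ _ _ y => 0) ∧ (RRw (κ := κ) fun A _ _ _ _ y => 1) ∧
    (∀ k, RRw (κ := κ) fun A _ _ _ _ y => y k) ∧
    (∀ k, RRw (κ := κ) fun A _ _ _ _ y => cay (y k)) ∧
    (∀ G G', RRw (κ := κ) G → RRw (κ := κ) G' → RRw (κ := κ) fun A _ _ _ _ y => G A y + G' A y) ∧
    (∀ (c : ℂ) G, RRw (κ := κ) G → RRw (κ := κ) fun A _ _ _ _ y => c • G A y) ∧
    (∀ G G', RRw (κ := κ) G → RRw (κ := κ) G' → RRw (κ := κ) fun A _ _ _ _ y => G A y * G' A y) ∧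
    (∀ G, RRw (κ := κ) G → RRw (κ := κ) fun A _ _ _ _ y => star (G A y)) :=
  words_closed

theorem rrw_congr {κ : Type}
    (G G' : ∀ (A : Type) [Ring A] [StarRing A] [Algebra ℂ A] [StarModule ℂ A], (κ → A) → A)
    (h : ∀ (A : Type) [Ring A] [StarRing A] [Algebra ℂ A] [StarModule ℂ A] (y : κ → A),
      G A y = G' A y) (hG : RRw G) : RRw G' := by
  obtain ⟨P, hP⟩ := hG
  refine ⟨P, ?_⟩
  intro A _ _ _ _ y hy
  rw [← h A y]
  exact hP A y hy

theorem rrw_sub {κ : Type}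
    (G G' : ∀ (A : Type) [Ring A] [StarRing A] [Algebra ℂ A] [StarModule ℂ A], (κ → A) → A)
    (hG : RRw G) (hG' : RRw G') : RRw (κ := κ) fun A _ _ _ _ y => G A y - G' A y := by
  obtain ⟨-, -, -, -, hadd, hsmul, -, -⟩ := rrw_closed (κ := κ)
  refine rrw_congr (fun A _ _ _ _ y => G A y + (-1 : ℂ) • G' A y) _ ?_
    (hadd _ _ hG (hsmul _ _ hG'))
  intro A _ _ _ _ y
  rw [neg_smul, one_smul, sub_eq_add_neg]

theorem rrw_Wd (a : Fin 3) (b : List (Fin 3)) :
    RRw (κ := Fin 3 × Fin 3) fun A _ _ _ _ y => Wd b (fun i => y (a, i)) := by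
  obtain ⟨-, h1, -, hU, -, -, hmul, -⟩ := rrw_closed (κ := Fin 3 × Fin 3)
  induction b with
  | nil => exact h1
  | cons i b ih =>
    refine rrw_congr (fun A _ _ _ _ y => cay (y (a, i)) * Wd b (fun i => y (a, i))) _ ?_
      (hmul _ _ (hU (a, i)) ih)
    intro A _ _ _ _ y
    unfold Wd
    rw [List.map_cons, List.prod_cons]

theorem rrw_DWd (b : List (Fin 3)) :
    RRw (κ := Fin 3 × Fin 3) fun A _ _ _ _ y =>
      DWd (fun i => y (1, i)) (fun i => y (2, i)) b := by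
  obtain ⟨h0, h1, hX, hU, hadd, hsmul, hmul, -⟩ := rrw_closed (κ := Fin 3 × Fin 3)
  induction b with
  | nil => exact h0
  | cons i b ih =>
    have e1 := rrw_sub _ _ (hU (1, i)) h1
    have e2 := hmul _ _ (hmul _ _ (hmul _ _ e1 (hX (2, i))) e1) (rrw_Wd 1 b)
    exact hadd _ _ (hsmul al _ e2) (hmul _ _ (hU (1, i)) ih)

theorem rrw_GG (b : List (Fin 3)) (φ : ℝ) :
    RRw (κ := Fin 3 × Fin 3) fun A _ _ _ _ y => GG b φ y := by
  obtain ⟨-, -, -, -, hadd, hsmul, -, hstar⟩ := rrw_closed (κ := Fin 3 × Fin 3)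
  have e0 : RRw (κ := Fin 3 × Fin 3) fun A _ _ _ _ y => Fb b (fun i => y (0, i)) :=
    hadd _ _ (rrw_Wd 0 b) (hstar _ (rrw_Wd 0 b))
  have e1 : RRw (κ := Fin 3 × Fin 3) fun A _ _ _ _ y => Fb b (fun i => y (1, i)) :=
    hadd _ _ (rrw_Wd 1 b) (hstar _ (rrw_Wd 1 b))
  have e2 : RRw (κ := Fin 3 × Fin 3) fun A _ _ _ _ y =>
      DFb b (fun i => y (1, i)) (fun i => y (2, i)) :=
    hadd _ _ (rrw_DWd b) (hstar _ (rrw_DWd b))
  exact hadd _ _ (rrw_sub _ _ e0 e1) (hsmul _ _ e2)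

/-- `GG* GG` is a universal combination of words -/
theorem GG_words (b : List (Fin 3)) (φ : ℝ) : ∃ P : List (ℂ × List (Lt (Fin 3 × Fin 3))),
    ∀ (A : Type) [Ring A] [StarRing A] [Algebra ℂ A] [StarModule ℂ A] (y : Fin 3 × Fin 3 → A),
      (∀ k, IsSelfAdjoint (y k)) →
      star (GG b φ y) * GG b φ y = (P.map fun p => p.1 • evW y p.2).sum := by
  obtain ⟨-, -, -, -, -, -, hmul, hstar⟩ := rrw_closed (κ := Fin 3 × Fin 3)
  exact hmul _ _ (hstar _ (rrw_GG b φ)) (rrw_GG b φ)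

/-- words in linear combinations of the matrices are continuous functions of the coordinates -/
theorem word_cont {ι κ : Type} [Fintype ι] (c : κ → ι → ℝ) (N : ℕ) (w : List (Lt κ)) :
    Continuous (fun x : EuclideanSpace ℝ (ι × Fin N × Fin N) => evW (lc c (Xm N x)) w) := by
  obtain ⟨hsa, _, _, hcont⟩ := Hm_facts N
  have hX : ∀ i, Continuous (fun x : EuclideanSpace ℝ (ι × Fin N × Fin N) => Xm N x i) := by
    intro i
    unfold Xm
    apply hcont.comp
    exact (PiLp.continuous_toLp 2 _).comp (continuous_pi fun p => by fun_prop)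
  have hlc : ∀ k, Continuous (fun x : EuclideanSpace ℝ (ι × Fin N × Fin N) =>
      lc c (Xm N x) k) := by
    intro k
    show Continuous (fun x : EuclideanSpace ℝ (ι × Fin N × Fin N) =>
      ∑ i, (((c k i : ℝ) : ℂ) • (Xm N x i : BN N)))
    exact continuous_finsetSum _ fun i _ => (hX i).const_smul (((c k i : ℝ) : ℂ))
  have hsaX : ∀ (x : EuclideanSpace ℝ (ι × Fin N × Fin N)) k,
      IsSelfAdjoint (lc c (Xm N x) k) := by
    intro x k
    show star (∑ i, (((c k i : ℝ) : ℂ) • (Xm N x i : BN N))) =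
      ∑ i, (((c k i : ℝ) : ℂ) • (Xm N x i : BN N))
    rw [ContinuousLinearMap.star_eq_adjoint, map_sum]
    refine Finset.sum_congr rfl fun i _ => ?_
    rw [LinearIsometryEquiv.map_smulₛₗ]
    have h1 : ContinuousLinearMap.adjoint (Xm N x i) = Xm N x i := by
      rw [← ContinuousLinearMap.star_eq_adjoint]
      exact (hsa _)
    rw [h1]
    congr 1
    exact Complex.conj_ofReal _
  have hcay : ∀ k, Continuous (fun x : EuclideanSpace ℝ (ι × Fin N × Fin N) =>
      cay (lc c (Xm N x) k)) := by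
    intro k
    unfold cay
    refine ((hlc k).add continuous_const).mul ?_
    rw [continuous_iff_continuousAt]
    intro x
    obtain ⟨u, hu⟩ := (cay_facts _ (hsaX x k)).1
    have h1 := NormedRing.inverse_continuousAt u
    rw [hu] at h1
    exact ContinuousAt.comp (f := fun x : EuclideanSpace ℝ (ι × Fin N × Fin N) =>
      lc c (Xm N x) k - al • (1 : BN N)) h1 ((hlc k).sub continuous_const).continuousAt
  have hL : ∀ l : Lt κ, Continuous (fun x : EuclideanSpace ℝ (ι × Fin N × Fin N) =>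
      evL (lc c (Xm N x)) l) := by
    intro l
    cases l with
    | X k => exact hlc k
    | U k => exact hcay k
    | V k =>
      have h1 : Continuous (fun T : BN N => ContinuousLinearMap.adjoint T) :=
        ContinuousLinearMap.adjoint.continuous
      exact h1.comp (hcay k)
  induction w with
  | nil =>
    have : (fun x : EuclideanSpace ℝ (ι × Fin N × Fin N) => evW (lc c (Xm N x)) ([] : List (Lt κ)))
        = fun _ => 1 := by
      funext x
      simp [evW]
    rw [this]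
    exact continuous_const
  | cons l w ih =>
    have : (fun x : EuclideanSpace ℝ (ι × Fin N × Fin N) => evW (lc c (Xm N x)) (l :: w))
        = fun x => evL (lc c (Xm N x)) l * evW (lc c (Xm N x)) w := by
      funext x
      simp [evW]
    rw [this]
    exact (hL l).mul ih

theorem lc_sa {ι κ : Type} [Fintype ι] (c : κ → ι → ℝ) (N : ℕ)
    (x : EuclideanSpace ℝ (ι × Fin N × Fin N)) (k : κ) : IsSelfAdjoint (lc c (Xm N x) k) := by
  unfold lc
  rw [IsSelfAdjoint]
  refine (star_sum Finset.univ (fun i => ((c k i : ℝ) : ℂ) • Xm N x i)).trans ?_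
  refine Finset.sum_congr rfl fun i _ => ?_
  rw [star_smul]
  have h : star (Xm N x i) = Xm N x i := (Hm_facts N).1 _
  rw [h]
  have h2 : star ((c k i : ℝ) : ℂ) = ((c k i : ℝ) : ℂ) := Complex.conj_ofReal _
  rw [h2]

theorem letter_bdd {ι κ : Type} [Fintype ι] (c : κ → ι → ℝ) (L : ℝ) (l : Lt κ) :
    ∃ C : ℝ, 0 ≤ C ∧ ∀ (N : ℕ) (x : EuclideanSpace ℝ (ι × Fin N × Fin N)), x ∈ good (ι := ι) N L →
      ‖evL (lc c (Xm N x)) l‖ ≤ C := by
  cases l with
  | X k =>
    refine ⟨∑ i, |c k i| * |L|, Finset.sum_nonneg fun i _ => by positivity, ?_⟩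
    intro N x hx
    show ‖lc c (Xm N x) k‖ ≤ _
    unfold lc
    refine (norm_sum_le _ _).trans (Finset.sum_le_sum fun i _ => ?_)
    rw [norm_smul, Complex.norm_real, Real.norm_eq_abs]
    exact mul_le_mul_of_nonneg_left ((hx i).trans (le_abs_self L)) (abs_nonneg _)
  | U k =>
    refine ⟨1, zero_le_one, ?_⟩
    intro N x _
    exact (cay_facts _ (lc_sa c N x k)).2
  | V k =>
    refine ⟨1, zero_le_one, ?_⟩
    intro N x _
    show ‖star (cay (lc c (Xm N x) k))‖ ≤ 1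
    exact le_trans (le_of_eq (norm_star (cay (lc c (Xm N x) k)))) (cay_facts _ (lc_sa c N x k)).2

/-- words in linear combinations of the matrices are bounded on the good event -/
theorem word_bdd {ι κ : Type} [Fintype ι] (c : κ → ι → ℝ) (L : ℝ) (w : List (Lt κ)) :
    ∃ C : ℝ, ∀ (N : ℕ) (x : EuclideanSpace ℝ (ι × Fin N × Fin N)), x ∈ good (ι := ι) N L →
      ‖evW (lc c (Xm N x)) w‖ ≤ C := by
  induction w with
  | nil =>
    refine ⟨1, ?_⟩
    intro N x _
    show ‖((([] : List (Lt κ)).map (evL (lc c (Xm N x)))).prod)‖ ≤ 1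
    rw [List.map_nil, List.prod_nil]
    exact ContinuousLinearMap.norm_id_le
  | cons l w ih =>
    obtain ⟨C, hC⟩ := ih
    obtain ⟨B, hB0, hB⟩ := letter_bdd c L l
    refine ⟨B * C, ?_⟩
    intro N x hx
    show ‖(((l :: w).map (evL (lc c (Xm N x)))).prod)‖ ≤ B * C
    rw [List.map_cons, List.prod_cons]
    refine (norm_mul_le _ _).trans ?_
    exact mul_le_mul (hB N x hx) (hC N x hx) (norm_nonneg _) hB0

theorem lim_words_meas {ι : Type} [Fintype ι] (N : ℕ) (L : ℝ) :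
    MeasurableSet (good (ι := ι) N L) := by
  have hc : ∀ i : ι, Continuous (fun x : EuclideanSpace ℝ (ι × Fin N × Fin N) => Xm N x i) := by
    intro i
    unfold Xm
    refine (Hm_facts N).2.2.2.comp ?_
    fun_prop
  have : good (ι := ι) N L = ⋂ i, {x | ‖Xm N x i‖ ≤ L} := by
    ext x; simp [good]
  rw [this]
  exact (isClosed_iInter fun i => isClosed_le (hc i).norm continuous_const).measurableSet

theorem lim_words_one {ι κ : Type} [Fintype ι] [DecidableEq ι] (c : κ → ι → ℝ)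
    (w : List (Lt κ)) (L : ℝ) (N : ℕ) :
    IntegrableOn (fun x => tr (evW (lc c (Xm (N + 1) x)) w))
      (good (N + 1) L) (stdGaussian (EuclideanSpace ℝ (ι × Fin (N + 1) × Fin (N + 1)))) := by
  obtain ⟨C, hC⟩ := word_bdd c L w
  have hcont : Continuous (fun x : EuclideanSpace ℝ (ι × Fin (N + 1) × Fin (N + 1)) =>
      tr (evW (lc c (Xm (N + 1) x)) w)) := (tr_facts (N + 1)).2.2.2.comp (word_cont c (N + 1) w)
  refine Measure.integrableOn_of_bounded (M := C) (measure_ne_top _ _)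
    hcont.aestronglyMeasurable ?_
  refine ae_restrict_of_forall_mem (lim_words_meas (N + 1) L) ?_
  intro x hx
  exact ((tr_facts (N + 1)).2.2.1 _).trans (hC (N + 1) x hx)

/-- convergence of traces of combinations of words in linear combinations -/
theorem lim_words {ι κ : Type} [Fintype ι] [DecidableEq ι] (S : FS ι H) (c : κ → ι → ℝ)
    (P : List (ℂ × List (Lt κ))) (L : ℝ) (hL2 : 2 ≤ L) (hL : Tendsto (fun N : ℕ =>
      (stdGaussian (EuclideanSpace ℝ (ι × Fin (N + 1) × Fin (N + 1)))).real (good (N + 1) L)ᶜ)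
      atTop (𝓝 0)) :
    (∀ N : ℕ, IntegrableOn (fun x => tr ((P.map fun p => p.1 • evW (lc c (Xm (N + 1) x)) p.2).sum))
      (good (N + 1) L) (stdGaussian (EuclideanSpace ℝ (ι × Fin (N + 1) × Fin (N + 1))))) ∧
    Tendsto (fun N : ℕ => ∫ x in good (N + 1) L,
        tr ((P.map fun p => p.1 • evW (lc c (Xm (N + 1) x)) p.2).sum)
        ∂(stdGaussian (EuclideanSpace ℝ (ι × Fin (N + 1) × Fin (N + 1)))))
      atTop (𝓝 (tau S.Ω ((P.map fun p => p.1 • evW (lc c S.s) p.2).sum))) := by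
  induction P with
  | nil =>
    have h0 : ∀ N : ℕ, tr (0 : BN (N + 1)) = 0 := by
      intro N
      have h := (tr_facts (N + 1)).1 (0 : BN (N + 1)) 0
      rw [add_zero] at h
      exact left_eq_add.mp h
    constructor
    · intro N
      simp only [List.map_nil, List.sum_nil, h0]
      exact integrableOn_zero
    · simp only [List.map_nil, List.sum_nil, h0, integral_zero, tau]
      simp
  | cons p P ih =>
    obtain ⟨ih1, ih2⟩ := ih
    have e : ∀ (N : ℕ) (x : EuclideanSpace ℝ (ι × Fin (N + 1) × Fin (N + 1))),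
        tr (((p :: P).map fun p => p.1 • evW (lc c (Xm (N + 1) x)) p.2).sum)
        = p.1 * tr (evW (lc c (Xm (N + 1) x)) p.2)
          + tr ((P.map fun p => p.1 • evW (lc c (Xm (N + 1) x)) p.2).sum) := by
      intro N x
      rw [List.map_cons, List.sum_cons, (tr_facts (N + 1)).1, (tr_facts (N + 1)).2.1]
    have h1 : ∀ N : ℕ, IntegrableOn (fun x => p.1 * tr (evW (lc c (Xm (N + 1) x)) p.2))
        (good (N + 1) L) (stdGaussian (EuclideanSpace ℝ (ι × Fin (N + 1) × Fin (N + 1)))) :=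
      fun N => (lim_words_one c p.2 L N).const_mul p.1
    constructor
    · intro N
      simp only [e]
      exact (h1 N).add (ih1 N)
    · simp only [e]
      have e2 : ∀ N : ℕ, ∫ x in good (N + 1) L, (p.1 * tr (evW (lc c (Xm (N + 1) x)) p.2)
          + tr ((P.map fun p => p.1 • evW (lc c (Xm (N + 1) x)) p.2).sum))
          ∂(stdGaussian (EuclideanSpace ℝ (ι × Fin (N + 1) × Fin (N + 1))))
          = p.1 * (∫ x in good (N + 1) L, tr (evW (lc c (Xm (N + 1) x)) p.2)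
          ∂(stdGaussian (EuclideanSpace ℝ (ι × Fin (N + 1) × Fin (N + 1)))))
          + ∫ x in good (N + 1) L, tr ((P.map fun p => p.1 • evW (lc c (Xm (N + 1) x)) p.2).sum)
          ∂(stdGaussian (EuclideanSpace ℝ (ι × Fin (N + 1) × Fin (N + 1)))) := by
        intro N
        rw [integral_add (h1 N) (ih1 N), integral_const_mul]
      simp only [e2]
      have e3 : tau S.Ω (((p :: P).map fun p => p.1 • evW (lc c S.s) p.2).sum)
          = p.1 * tau S.Ω (evW (lc c S.s) p.2)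
            + tau S.Ω ((P.map fun p => p.1 • evW (lc c S.s) p.2).sum) := by
        rw [List.map_cons, List.sum_cons]
        simp only [tau, ContinuousLinearMap.add_apply, ContinuousLinearMap.smul_apply,
          inner_add_right, inner_smul_right]
      rw [e3]
      refine Tendsto.add ?_ ih2
      refine Tendsto.const_mul _ ?_
      exact gue_conv_lin c S L hL2 hL p.2

/-- matrices of a linear combination of blocks -/
theorem Xm_blk {ι : Type} [Fintype ι] (N : ℕ) (c : Fin 3 → ι → ℝ)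
    (x : EuclideanSpace ℝ (ι × Fin N × Fin N)) (i : Fin 3) :
    Xm N (blk N c x) i = lc c (Xm N x) i := by
  obtain ⟨_, hadd, hsmul, _⟩ := Hm_facts N
  let φ : EuclideanSpace ℝ (Fin N × Fin N) →+ BN N := AddMonoidHom.mk' (Hm N) hadd
  have h1 : (WithLp.toLp 2 fun p => blk N c x (i, p) : EuclideanSpace ℝ (Fin N × Fin N)) =
      ∑ j, c i j • (WithLp.toLp 2 fun p => x (j, p) : EuclideanSpace ℝ (Fin N × Fin N)) := by
    ext p
    simp [blk]
  unfold Xm lc
  rw [h1]
  calc Hm N (∑ j, c i j • (WithLp.toLp 2 fun p => x (j, p) : EuclideanSpace ℝ (Fin N × Fin N)))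
      = φ (∑ j, c i j • (WithLp.toLp 2 fun p => x (j, p) : EuclideanSpace ℝ (Fin N × Fin N))) := rfl
    _ = ∑ j, φ (c i j • (WithLp.toLp 2 fun p => x (j, p) : EuclideanSpace ℝ (Fin N × Fin N))) :=
        map_sum φ _ _
    _ = _ := Finset.sum_congr rfl fun j _ => hsmul _ _

theorem cay_eq' (a : H →L[ℂ] H) (ha : IsSelfAdjoint a) :
    cay a = 1 + (2 * al) • Ring.inverse (a - al • (1 : H →L[ℂ] H)) := by
  have hu := (cay_facts a ha).1
  have e : a + al • (1 : H →L[ℂ] H) = (a - al • (1 : H →L[ℂ] H)) + (2 * al) • 1 := by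
    rw [mul_smul, two_smul]
    abel
  rw [cay, e, add_mul, Ring.mul_inverse_cancel _ hu, smul_mul_assoc, one_mul]

theorem hasFDerivAt_cay {E : Type} [NormedAddCommGroup E] [NormedSpace ℝ E]
    (X : E →L[ℝ] (H →L[ℂ] H)) (hX : ∀ x, IsSelfAdjoint (X x)) (x : E) :
    ∃ D : E →L[ℝ] (H →L[ℂ] H), HasFDerivAt (fun y => cay (X y)) D x ∧
      ∀ h, D h = al • ((cay (X x) - 1) * X h * (cay (X x) - 1)) := by
  obtain ⟨U, hU⟩ := (cay_facts (X x) (hX x)).1
  have h1 : HasFDerivAt (fun y => X y - al • (1 : H →L[ℂ] H)) X x :=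
    X.hasFDerivAt.sub_const _
  have h2 := hasFDerivAt_ringInverse (𝕜 := ℝ) (R := H →L[ℂ] H) U
  rw [hU] at h2
  have h3 := h2.comp x h1
  have h4 := (h3.const_smul (2 * al)).const_add (1 : H →L[ℂ] H)
  refine ⟨_, h4.congr_of_eventuallyEq (Filter.Eventually.of_forall fun y => ?_), fun h => ?_⟩
  · exact cay_eq' (X y) (hX y)
  · have e1 : cay (X x) - 1 = (2 * al) • (↑U⁻¹ : H →L[ℂ] H) := by
      rw [cay_eq' (X x) (hX x), add_sub_cancel_left, ← hU, Ring.inverse_unit]
    have e2 : al * ((2 * al) * (2 * al)) = -(2 * al) := by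
      have := al_facts.2.1
      linear_combination (4 * al) * this
    rw [e1]
    show (2 * al) • (-(↑U⁻¹ * X h * ↑U⁻¹) : H →L[ℂ] H) = _
    rw [smul_mul_assoc, smul_mul_assoc, mul_smul_comm, smul_smul, smul_smul, mul_assoc al, e2,
      neg_smul, smul_neg]

/-- derivative of `x ↦ W_b(X)` along self-adjoint directions -/
theorem hasFDerivAt_Wd {E : Type} [NormedAddCommGroup E] [NormedSpace ℝ E]
    (X : Fin 3 → E →L[ℝ] (H →L[ℂ] H)) (hX : ∀ i x, IsSelfAdjoint (X i x)) (b : List (Fin 3))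
    (x : E) : ∃ D : E →L[ℝ] (H →L[ℂ] H), HasFDerivAt (fun y => Wd b (fun i => X i y)) D x ∧
      ∀ h, D h = DWd (fun i => X i x) (fun i => X i h) b := by
  induction b with
  | nil =>
    refine ⟨0, ?_, fun h => rfl⟩
    exact hasFDerivAt_const (1 : H →L[ℂ] H) x
  | cons i b ih =>
    obtain ⟨D, hD, hDh⟩ := ih
    obtain ⟨D1, hD1, hDh1⟩ := hasFDerivAt_cay (X i) (hX i) x
    refine ⟨_, hD1.mul' hD, fun h => ?_⟩
    show cay (X i x) * D h + D1 h * Wd b (fun i => X i x) = _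
    rw [hDh, hDh1, DWd, smul_mul_assoc, add_comm]

theorem fd_slice (N : ℕ) (i : Fin 3) : ∃ L : EuclideanSpace ℝ (Fin 3 × Fin N × Fin N) →L[ℝ] BN N,
    ∀ x, L x = Xm N x i := by
  obtain ⟨h1, h2, h3, h4⟩ := Hm_facts N
  refine ⟨LinearMap.toContinuousLinearMap
    { toFun := fun x => Xm N x i
      map_add' := fun x y => ?_
      map_smul' := fun c x => ?_ }, fun x => rfl⟩
  · unfold Xm
    rw [← h2]
    rfl
  · unfold Xm
    have : (WithLp.toLp 2 fun p => (c • x) (i, p) : EuclideanSpace ℝ (Fin N × Fin N)) =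
        c • WithLp.toLp 2 fun p => x (i, p) := rfl
    rw [this, h3]
    rfl

theorem fd_ent (N : ℕ) : (∀ (A B : BN N) p q, ent (A + B) p q = ent A p q + ent B p q) ∧
    (∀ (c : ℂ) (A : BN N) p q, ent (c • A) p q = c * ent A p q) :=
  ⟨fun A B p q => rfl, fun c A p q => rfl⟩

theorem fd_crd (N : ℕ) : ∃ L : BN N →L[ℝ] EuclideanSpace ℝ (Fin N × Fin N),
    ∀ x, L x = crd x := by
  refine ⟨LinearMap.toContinuousLinearMap
    { toFun := fun x => crd x
      map_add' := fun x y => ?_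
      map_smul' := fun c x => ?_ }, fun x => rfl⟩
  · ext p
    show √(N : ℝ) * ((ent (x + y) p.1 p.2).re + (ent (x + y) p.1 p.2).im) =
      √(N : ℝ) * ((ent x p.1 p.2).re + (ent x p.1 p.2).im) +
        √(N : ℝ) * ((ent y p.1 p.2).re + (ent y p.1 p.2).im)
    rw [(fd_ent N).1, Complex.add_re, Complex.add_im]
    ring
  · ext p
    show √(N : ℝ) * ((ent (c • x) p.1 p.2).re + (ent (c • x) p.1 p.2).im) =
      c * (√(N : ℝ) * ((ent x p.1 p.2).re + (ent x p.1 p.2).im))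
    have : ent (c • x) p.1 p.2 = (c : ℂ) * ent x p.1 p.2 := by
      have := (fd_ent N).2 (c : ℂ) x p.1 p.2
      rw [← this]
      rfl
    rw [this, Complex.re_ofReal_mul, Complex.im_ofReal_mul]
    ring

/-- derivative of `Fc` -/
theorem fderiv_Fc (N : ℕ) (b : List (Fin 3)) (z w : EuclideanSpace ℝ (Fin 3 × Fin N × Fin N)) :
    fderiv ℝ (Fc N b) z w = crd (DFb b (Xm N z) (Xm N w)) := by
  choose X hX using fd_slice N
  obtain ⟨L, hL⟩ := fd_crd N
  have hsa : ∀ i x, IsSelfAdjoint (X i x) := fun i x => by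
    rw [hX]; exact (Hm_facts N).1 _
  obtain ⟨D, hD, hD2⟩ := hasFDerivAt_Wd X hsa b z
  have hs : HasFDerivAt (fun y => star (Wd b (fun i => X i y)))
      (((starL' ℝ : BN N ≃L[ℝ] BN N) : BN N →L[ℝ] BN N).comp D) z :=
    ((starL' ℝ : BN N ≃L[ℝ] BN N) : BN N →L[ℝ] BN N).hasFDerivAt.comp z hD
  have h1 : HasFDerivAt (fun y => L (Wd b (fun i => X i y) + star (Wd b (fun i => X i y))))
      (L.comp (D + ((starL' ℝ : BN N ≃L[ℝ] BN N) : BN N →L[ℝ] BN N).comp D)) z :=
    L.hasFDerivAt.comp z (hD.add hs)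
  have h2 : (Fc N b) = fun y => L (Wd b (fun i => X i y) + star (Wd b (fun i => X i y))) := by
    funext y
    rw [hL]
    have : (fun i => X i y) = Xm N y := funext fun i => hX i y
    rw [this]
    rfl
  have e1 : (fun i => X i z) = Xm N z := funext fun i => hX i z
  have e2 : (fun i => X i w) = Xm N w := funext fun i => hX i w
  rw [h2, h1.fderiv]
  show L (D w + star (D w)) = _
  rw [hL, hD2, e1, e2]
  rfl

theorem Fb_star' {A : Type*} [Ring A] [StarRing A] [Algebra ℂ A] (b : List (Fin 3))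
    (z : Fin 3 → A) : star (Fb b z) = Fb b z := by
  rw [Fb, star_add, star_star, add_comm]

theorem DFb_star' {A : Type*} [Ring A] [StarRing A] [Algebra ℂ A] (b : List (Fin 3))
    (z w : Fin 3 → A) : star (DFb b z w) = DFb b z w := by
  rw [DFb, star_add, star_star, add_comm]

theorem GG_star' {A : Type*} [Ring A] [StarRing A] [Algebra ℂ A] [StarModule ℂ A]
    (b : List (Fin 3)) (φ : ℝ) (y : Fin 3 × Fin 3 → A) : star (GG b φ y) = GG b φ y := by
  rw [GG, star_add, star_sub, star_smul, Fb_star', Fb_star', DFb_star']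
  congr 2
  exact Complex.conj_ofReal φ

theorem ent_lin {N : ℕ} (A B C : BN N) (φ : ℝ) (p q : Fin N) :
    ent (A - B + ((φ : ℝ) : ℂ) • C) p q = ent A p q - ent B p q + ((φ : ℝ) : ℂ) * ent C p q := by
  simp [ent]

theorem crd_lin {N : ℕ} (A B C : BN N) (φ : ℝ) :
    crd (A - B + ((φ : ℝ) : ℂ) • C) = crd A - crd B + φ • crd C := by
  ext p
  simp only [crd, ent_lin, PiLp.add_apply, PiLp.sub_apply, PiLp.smul_apply, smul_eq_mul,
    Complex.add_re, Complex.add_im, Complex.sub_re, Complex.sub_im, Complex.re_ofReal_mul,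
    Complex.im_ofReal_mul]
  ring

/-- `GG` at the matrices in coordinates -/
theorem GG_crd {ι : Type} [Fintype ι] (N : ℕ) (b : List (Fin 3)) (φ : ℝ)
    (c : Fin 3 × Fin 3 → ι → ℝ) (x : EuclideanSpace ℝ (ι × Fin (N + 1) × Fin (N + 1))) :
    (tr (star (GG b φ (lc c (Xm (N + 1) x))) * GG b φ (lc c (Xm (N + 1) x)))).re =
      (((N : ℝ) + 1) ^ 2)⁻¹ * ‖Fc (N + 1) b (blk (N + 1) (fun i => c (0, i)) x) -
        Fc (N + 1) b (blk (N + 1) (fun i => c (1, i)) x) +
        φ • fderiv ℝ (Fc (N + 1) b) (blk (N + 1) (fun i => c (1, i)) x)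
          (blk (N + 1) (fun i => c (2, i)) x)‖ ^ 2 := by
  have hy : ∀ a : Fin 3, (fun i => lc c (Xm (N + 1) x) (a, i)) =
      Xm (N + 1) (blk (N + 1) (fun i => c (a, i)) x) := by
    intro a
    funext i
    rw [Xm_blk]
    rfl
  have hG : GG b φ (lc c (Xm (N + 1) x)) =
      Fb b (Xm (N + 1) (blk (N + 1) (fun i => c (0, i)) x)) -
        Fb b (Xm (N + 1) (blk (N + 1) (fun i => c (1, i)) x)) + ((φ : ℝ) : ℂ) •
        DFb b (Xm (N + 1) (blk (N + 1) (fun i => c (1, i)) x))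
          (Xm (N + 1) (blk (N + 1) (fun i => c (2, i)) x)) := by
    rw [GG, hy, hy, hy]
  have hsa : star (GG b φ (lc c (Xm (N + 1) x))) = GG b φ (lc c (Xm (N + 1) x)) :=
    GG_star' b φ _
  have h1 := inner_crd (N + 1) _ _ (show IsSelfAdjoint (GG b φ (lc c (Xm (N + 1) x))) from hsa)
    (show IsSelfAdjoint (GG b φ (lc c (Xm (N + 1) x))) from hsa)
  rw [real_inner_self_eq_norm_sq, Nat.cast_add_one] at h1
  have h2 : crd (GG b φ (lc c (Xm (N + 1) x))) =
      Fc (N + 1) b (blk (N + 1) (fun i => c (0, i)) x) -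
        Fc (N + 1) b (blk (N + 1) (fun i => c (1, i)) x) +
        φ • fderiv ℝ (Fc (N + 1) b) (blk (N + 1) (fun i => c (1, i)) x)
          (blk (N + 1) (fun i => c (2, i)) x) := by
    rw [hG, crd_lin, fderiv_Fc]
    rfl
  rw [← h2, h1, hsa]
  have h3 : ((N : ℝ) + 1) ^ 2 ≠ 0 := by positivity
  rw [← mul_assoc, inv_mul_cancel₀ h3, one_mul]

theorem lp_alg {J K : Type} [Fintype J] [Fintype K] [DecidableEq K] (c₁ c₂ : K → J → ℝ)
    (h11 : ∀ i k, ∑ j, c₁ i j * c₁ k j = if i = k then 1 else 0)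
    (h22 : ∀ i k, ∑ j, c₂ i j * c₂ k j = if i = k then 1 else 0)
    (h12 : ∀ i k, ∑ j, c₁ i j * c₂ k j = 0) (a b : K → ℝ) :
    ∑ j, (∑ k, (a k * c₁ k j + b k * c₂ k j)) ^ 2 = ∑ k, a k ^ 2 + ∑ k, b k ^ 2 := by
  calc ∑ j, (∑ k, (a k * c₁ k j + b k * c₂ k j)) ^ 2
      = ∑ j, ∑ k, ∑ l, (a k * c₁ k j + b k * c₂ k j) * (a l * c₁ l j + b l * c₂ l j) := by
        simp only [sq, Finset.sum_mul_sum]
    _ = ∑ k, ∑ l, ∑ j, (a k * c₁ k j + b k * c₂ k j) * (a l * c₁ l j + b l * c₂ l j) := by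
        rw [Finset.sum_comm]
        refine Finset.sum_congr rfl fun k _ => ?_
        rw [Finset.sum_comm]
    _ = ∑ k, ∑ l, (a k * a l * (∑ j, c₁ k j * c₁ l j) + a k * b l * (∑ j, c₁ k j * c₂ l j)
          + b k * a l * (∑ j, c₁ l j * c₂ k j) + b k * b l * (∑ j, c₂ k j * c₂ l j)) := by
        refine Finset.sum_congr rfl fun k _ => Finset.sum_congr rfl fun l _ => ?_
        simp only [Finset.mul_sum, ← Finset.sum_add_distrib]
        refine Finset.sum_congr rfl fun j _ => ?_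
        ring
    _ = ∑ k, ∑ l, (if k = l then a k * a l + b k * b l else 0) := by
        refine Finset.sum_congr rfl fun k _ => Finset.sum_congr rfl fun l _ => ?_
        rw [h11, h22, h12, h12]
        split_ifs <;> ring
    _ = ∑ k, a k ^ 2 + ∑ k, b k ^ 2 := by
        rw [← Finset.sum_add_distrib]
        refine Finset.sum_congr rfl fun k _ => ?_
        rw [Finset.sum_ite_eq Finset.univ k, if_pos (Finset.mem_univ _)]
        ring

/-- the linear map given by a matrix -/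
noncomputable def lp_A {J K : Type} [Fintype J] [Fintype K] (c : K → J → ℝ) :
    EuclideanSpace ℝ J →L[ℝ] EuclideanSpace ℝ K :=
  LinearMap.toContinuousLinearMap
    { toFun := fun x => WithLp.toLp 2 fun k => ∑ j, c k j * x j
      map_add' := by
        intro x y
        ext k
        simp [mul_add, Finset.sum_add_distrib]
      map_smul' := by
        intro t x
        ext k
        simp only [PiLp.smul_apply, smul_eq_mul, RingHom.id_apply, Finset.mul_sum]
        refine Finset.sum_congr rfl fun j _ => ?_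
        ring }

theorem lp_A_apply {J K : Type} [Fintype J] [Fintype K] (c : K → J → ℝ)
    (x : EuclideanSpace ℝ J) : lp_A c x = WithLp.toLp 2 fun k => ∑ j, c k j * x j := rfl

theorem lp_cf {E : Type} [NormedAddCommGroup E] [InnerProductSpace ℝ E] [FiniteDimensional ℝ E]
    [MeasurableSpace E] [BorelSpace E] (L : StrongDual ℝ E) (v : E)
    (hv : ∀ x, L x = ⟪v, x⟫_ℝ) :
    charFunDual (stdGaussian E) L = Complex.exp (-(‖v‖ ^ 2 : ℝ) / 2) := by
  have h1 : L = InnerProductSpace.toDual ℝ E v := by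
    ext x
    rw [hv x, InnerProductSpace.toDual_apply_apply]
  rw [← charFun_toDual_symm_eq_charFunDual, h1, LinearIsometryEquiv.symm_apply_apply,
    charFun_stdGaussian]
  push_cast
  rfl

/-- law of a pair of orthonormal linear combinations of the coordinates -/
theorem law_pair {J K : Type} [Fintype J] [Fintype K] [DecidableEq K] (c₁ c₂ : K → J → ℝ)
    (h11 : ∀ i k, ∑ j, c₁ i j * c₁ k j = if i = k then 1 else 0)
    (h22 : ∀ i k, ∑ j, c₂ i j * c₂ k j = if i = k then 1 else 0)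
    (h12 : ∀ i k, ∑ j, c₁ i j * c₂ k j = 0) :
    (stdGaussian (EuclideanSpace ℝ J)).map (fun x =>
      ((WithLp.toLp 2 fun k => ∑ j, c₁ k j * x j : EuclideanSpace ℝ K),
        (WithLp.toLp 2 fun k => ∑ j, c₂ k j * x j : EuclideanSpace ℝ K))) =
      (stdGaussian (EuclideanSpace ℝ K)).prod (stdGaussian (EuclideanSpace ℝ K)) := by
  have hO : (fun x : EuclideanSpace ℝ J =>
      ((WithLp.toLp 2 fun k => ∑ j, c₁ k j * x j : EuclideanSpace ℝ K),
        (WithLp.toLp 2 fun k => ∑ j, c₂ k j * x j : EuclideanSpace ℝ K)))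
      = ((lp_A c₁).prod (lp_A c₂) : EuclideanSpace ℝ J →L[ℝ]
          EuclideanSpace ℝ K × EuclideanSpace ℝ K) := by
    funext x
    rfl
  rw [hO]
  have hprob : IsProbabilityMeasure ((stdGaussian (EuclideanSpace ℝ J)).map
      ((lp_A c₁).prod (lp_A c₂))) :=
    Measure.isProbabilityMeasure_map ((lp_A c₁).prod (lp_A c₂)).continuous.measurable.aemeasurable
  refine Measure.ext_of_charFunDual (funext fun L => ?_)
  rw [charFunDual_map, charFunDual_prod]
  set a : EuclideanSpace ℝ K := (InnerProductSpace.toDual ℝ (EuclideanSpace ℝ K)).symm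
    (L.comp (ContinuousLinearMap.inl ℝ (EuclideanSpace ℝ K) (EuclideanSpace ℝ K))) with ha
  set b : EuclideanSpace ℝ K := (InnerProductSpace.toDual ℝ (EuclideanSpace ℝ K)).symm
    (L.comp (ContinuousLinearMap.inr ℝ (EuclideanSpace ℝ K) (EuclideanSpace ℝ K))) with hb
  have ha' : ∀ x, (L.comp (ContinuousLinearMap.inl ℝ (EuclideanSpace ℝ K)
      (EuclideanSpace ℝ K))) x = ⟪a, x⟫_ℝ := fun x => by
    rw [ha, InnerProductSpace.toDual_symm_apply]
  have hb' : ∀ x, (L.comp (ContinuousLinearMap.inr ℝ (EuclideanSpace ℝ K)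
      (EuclideanSpace ℝ K))) x = ⟪b, x⟫_ℝ := fun x => by
    rw [hb, InnerProductSpace.toDual_symm_apply]
  have hv' : ∀ x, (L.comp ((lp_A c₁).prod (lp_A c₂))) x
      = ⟪(WithLp.toLp 2 fun j => ∑ k, (a k * c₁ k j + b k * c₂ k j) : EuclideanSpace ℝ J), x⟫_ℝ := by
    intro x
    have h1 : (L.comp ((lp_A c₁).prod (lp_A c₂))) x
        = (L.comp (ContinuousLinearMap.inl ℝ (EuclideanSpace ℝ K) (EuclideanSpace ℝ K))) (lp_A c₁ x)
        + (L.comp (ContinuousLinearMap.inr ℝ (EuclideanSpace ℝ K) (EuclideanSpace ℝ K)))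
          (lp_A c₂ x) := by
      change L (lp_A c₁ x, lp_A c₂ x) = L (lp_A c₁ x, 0) + L (0, lp_A c₂ x)
      rw [← map_add, Prod.mk_add_mk, add_zero, zero_add]
    rw [h1, ha', hb', lp_A_apply, lp_A_apply]
    simp only [PiLp.inner_apply, RCLike.inner_apply, conj_trivial]
    simp only [Finset.sum_mul, Finset.mul_sum]
    rw [Finset.sum_comm, Finset.sum_comm (s := Finset.univ (α := K)) (t := Finset.univ (α := J))
      (f := fun k j => c₂ k j * x j * b k), ← Finset.sum_add_distrib]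
    refine Finset.sum_congr rfl fun j _ => ?_
    rw [← Finset.sum_add_distrib]
    refine Finset.sum_congr rfl fun k _ => ?_
    ring
  rw [lp_cf _ _ ha', lp_cf _ _ hb', lp_cf _ _ hv', ← Complex.exp_add]
  congr 1
  rw [EuclideanSpace.real_norm_sq_eq, EuclideanSpace.real_norm_sq_eq,
    EuclideanSpace.real_norm_sq_eq]
  have h2 := lp_alg c₁ c₂ h11 h22 h12 (fun k => a k) (fun k => b k)
  simp only at h2
  rw [h2]
  push_cast
  ring

theorem j19686_sum {ι : Type} [Fintype ι] (N : ℕ) (a : ι → ℝ) (p : Fin N × Fin N)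
    (x : ι × Fin N × Fin N → ℝ) :
    ∑ j : ι × Fin N × Fin N, (if p = j.2 then a j.1 else 0) * x j = ∑ j, a j * x (j, p) := by
  rw [Fintype.sum_prod_type]
  refine Finset.sum_congr rfl fun j _ => ?_
  rw [Finset.sum_eq_single p]
  · rw [if_pos rfl]
  · intro q _ hq
    rw [if_neg (fun h => hq h.symm), zero_mul]
  · intro h
    exact absurd (Finset.mem_univ p) h

/-- law of a pair of orthonormal linear combinations of the blocks -/
theorem law_blk {ι : Type} [Fintype ι] (N : ℕ) (c₁ c₂ : Fin 3 → ι → ℝ)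
    (h11 : ∀ i k, ∑ j, c₁ i j * c₁ k j = if i = k then 1 else 0)
    (h22 : ∀ i k, ∑ j, c₂ i j * c₂ k j = if i = k then 1 else 0)
    (h12 : ∀ i k, ∑ j, c₁ i j * c₂ k j = 0) :
    (stdGaussian (EuclideanSpace ℝ (ι × Fin N × Fin N))).map
      (fun x => (blk N c₁ x, blk N c₂ x)) =
      (stdGaussian (EuclideanSpace ℝ (Fin 3 × Fin N × Fin N))).prod
        (stdGaussian (EuclideanSpace ℝ (Fin 3 × Fin N × Fin N))) := by
  have e : ∀ c : Fin 3 → ι → ℝ, ∀ x : EuclideanSpace ℝ (ι × Fin N × Fin N), blk N c x =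
      WithLp.toLp 2 fun k : Fin 3 × Fin N × Fin N =>
        ∑ j : ι × Fin N × Fin N, (if k.2 = j.2 then c k.1 j.1 else 0) * x j := by
    intro c x
    unfold blk
    congr 1
    funext k
    rw [j19686_sum N (c k.1) k.2 (fun j => x j)]
  have key : ∀ c c' : Fin 3 → ι → ℝ, ∀ i k : Fin 3 × Fin N × Fin N,
      ∑ j : ι × Fin N × Fin N, (if i.2 = j.2 then c i.1 j.1 else 0) *
        (if k.2 = j.2 then c' k.1 j.1 else 0) =
      if k.2 = i.2 then ∑ j, c i.1 j * c' k.1 j else 0 := by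
    intro c c' i k
    rw [j19686_sum N (c i.1) i.2 (fun j => if k.2 = j.2 then c' k.1 j.1 else 0)]
    by_cases h : k.2 = i.2
    · simp [h]
    · simp [h]
  have hortho : ∀ c : Fin 3 → ι → ℝ, (∀ i k, ∑ j, c i j * c k j = if i = k then 1 else 0) →
      ∀ i k : Fin 3 × Fin N × Fin N,
      ∑ j : ι × Fin N × Fin N, (if i.2 = j.2 then c i.1 j.1 else 0) *
        (if k.2 = j.2 then c k.1 j.1 else 0) = if i = k then 1 else 0 := by
    intro c hc i k
    rw [key, hc]
    by_cases h : k.2 = i.2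
    · by_cases h1 : i.1 = k.1
      · rw [if_pos h, if_pos h1, if_pos (Prod.ext h1 h.symm)]
      · rw [if_pos h, if_neg h1, if_neg (fun h2 => h1 (congrArg Prod.fst h2))]
    · rw [if_neg h, if_neg (fun h2 => h (congrArg Prod.snd h2).symm)]
  have h := law_pair (J := ι × Fin N × Fin N) (K := Fin 3 × Fin N × Fin N)
    (fun k j => if k.2 = j.2 then c₁ k.1 j.1 else 0)
    (fun k j => if k.2 = j.2 then c₂ k.1 j.1 else 0) (hortho c₁ h11) (hortho c₂ h22)
    (by
      intro i k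
      rw [key, h12]
      split_ifs <;> rfl)
  rw [← h]
  congr 1
  funext x
  rw [e c₁ x, e c₂ x]

/-- integrability of the Taylor remainder -/
theorem taylor_int {I J : Type} [Fintype I] [Fintype J]
    (f : EuclideanSpace ℝ I → EuclideanSpace ℝ J) (K : ℝ) (hf : ContDiff ℝ 2 f)
    (h0 : ∀ x, ‖f x‖ ≤ K) (h1 : ∀ x, ‖fderiv ℝ f x‖ ≤ K) (ph : ℝ) :
    Integrable (fun p : EuclideanSpace ℝ I × EuclideanSpace ℝ I =>
      ‖f (Real.cos ph • p.1 - Real.sin ph • p.2) - f p.1 + ph • fderiv ℝ f p.1 p.2‖ ^ 2)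
      ((stdGaussian (EuclideanSpace ℝ I)).prod (stdGaussian (EuclideanSpace ℝ I))) := by
  have hfc : Continuous f := hf.continuous
  have hfd : Continuous (fderiv ℝ f) := hf.continuous_fderiv (by norm_num)
  have hcont : Continuous (fun p : EuclideanSpace ℝ I × EuclideanSpace ℝ I =>
      ‖f (Real.cos ph • p.1 - Real.sin ph • p.2) - f p.1 + ph • fderiv ℝ f p.1 p.2‖ ^ 2) := by
    have h2 : Continuous (fun p : EuclideanSpace ℝ I × EuclideanSpace ℝ I =>
        fderiv ℝ f p.1 p.2) := (hfd.comp continuous_fst).clm_apply continuous_snd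
    have h3 : Continuous (fun p : EuclideanSpace ℝ I × EuclideanSpace ℝ I =>
        f (Real.cos ph • p.1 - Real.sin ph • p.2)) := by
      refine hfc.comp ?_
      have c1 : Continuous (fun p : EuclideanSpace ℝ I × EuclideanSpace ℝ I => Real.cos ph • p.1) :=
        by fun_prop
      have c2 : Continuous (fun p : EuclideanSpace ℝ I × EuclideanSpace ℝ I => Real.sin ph • p.2) :=
        by fun_prop
      exact c1.sub c2
    exact (((h3.sub (hfc.comp continuous_fst)).add (h2.const_smul ph)).norm).pow 2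
  have hsq : Integrable (fun y : EuclideanSpace ℝ I => ‖y‖ ^ 2)
      (stdGaussian (EuclideanSpace ℝ I)) := by
    have h := IsGaussian.memLp_id (stdGaussian (EuclideanSpace ℝ I)) 2 (by norm_num)
    have h' := h.integrable_norm_pow (by norm_num)
    simpa using h'
  have hg : Integrable (fun p : EuclideanSpace ℝ I × EuclideanSpace ℝ I =>
      8 * K ^ 2 + (2 * (ph ^ 2 * K ^ 2)) * ‖p.2‖ ^ 2)
      ((stdGaussian (EuclideanSpace ℝ I)).prod (stdGaussian (EuclideanSpace ℝ I))) := by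
    refine (integrable_const _).add ?_
    exact (hsq.comp_snd (stdGaussian (EuclideanSpace ℝ I))).const_mul _
  refine hg.mono' hcont.aestronglyMeasurable ?_
  filter_upwards with p
  rw [Real.norm_of_nonneg (by positivity)]
  have hK : 0 ≤ K := le_trans (norm_nonneg _) (h0 0)
  have a1 : ‖ph • fderiv ℝ f p.1 p.2‖ ≤ |ph| * (K * ‖p.2‖) := by
    rw [norm_smul, Real.norm_eq_abs]
    refine mul_le_mul_of_nonneg_left ?_ (abs_nonneg _)
    exact le_trans ((fderiv ℝ f p.1).le_opNorm p.2)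
      (mul_le_mul_of_nonneg_right (h1 p.1) (norm_nonneg _))
  have a2 : ‖f (Real.cos ph • p.1 - Real.sin ph • p.2) - f p.1 + ph • fderiv ℝ f p.1 p.2‖ ≤
      2 * K + |ph| * (K * ‖p.2‖) := by
    refine le_trans (norm_add_le _ _) (add_le_add ?_ a1)
    refine le_trans (norm_sub_le _ _) ?_
    have := h0 (Real.cos ph • p.1 - Real.sin ph • p.2)
    have := h0 p.1
    linarith
  have a3 := pow_le_pow_left₀ (norm_nonneg _) a2 2
  refine a3.trans ?_
  have a4 : |ph| ^ 2 = ph ^ 2 := sq_abs ph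
  have a5 : 2 * (ph ^ 2 * K ^ 2) * ‖p.2‖ ^ 2 = 2 * (|ph| * (K * ‖p.2‖)) ^ 2 := by
    rw [← a4]; ring
  rw [a5]
  nlinarith [sq_nonneg (2 * K - |ph| * (K * ‖p.2‖))]

theorem finite_bound_cont {ι : Type} [Fintype ι] (N : ℕ) (c : Fin 3 → ι → ℝ) :
    Continuous (blk N c : EuclideanSpace ℝ (ι × Fin N × Fin N) → _) := by
  unfold blk
  refine (PiLp.continuous_toLp 2 _).comp (continuous_pi fun p => ?_)
  refine continuous_finset_sum _ fun j _ => ?_
  exact continuous_const.mul (EuclideanSpace.proj (𝕜 := ℝ) ((j, p.2) : ι × Fin N × Fin N)).continuous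

/-- the estimate for finite `N` -/
theorem finite_bound {ι : Type} [Fintype ι] [DecidableEq ι] (N : ℕ) (b : List (Fin 3)) (φ : ℝ)
    (hφ0 : 0 ≤ φ) (hφ1 : φ ≤ Real.pi / 2) (c : Fin 3 × Fin 3 → ι → ℝ)
    (h11 : ∀ i k, ∑ j, c (1, i) j * c (1, k) j = if i = k then 1 else 0)
    (h22 : ∀ i k, ∑ j, c (2, i) j * c (2, k) j = if i = k then 1 else 0)
    (h12 : ∀ i k, ∑ j, c (1, i) j * c (2, k) j = 0)
    (h0 : ∀ i j, c (0, i) j = Real.cos φ * c (1, i) j - Real.sin φ * c (2, i) j) (L : ℝ) :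
    ∫ x in good (N + 1) L, (tr (star (GG b φ (lc c (Xm (N + 1) x))) *
      GG b φ (lc c (Xm (N + 1) x)))).re
      ∂(stdGaussian (EuclideanSpace ℝ (ι × Fin (N + 1) × Fin (N + 1)))) ≤
      (((N : ℝ) + 1) ^ 2)⁻¹ * (φ ^ 4 / 3 *
        (3 * ∫ x, hs2 (fderiv ℝ (fderiv ℝ (Fc (N + 1) b)) x)
          ∂(stdGaussian (EuclideanSpace ℝ (Fin 3 × Fin (N + 1) × Fin (N + 1)))) +
        ∫ x, hs (fderiv ℝ (Fc (N + 1) b) x)
          ∂(stdGaussian (EuclideanSpace ℝ (Fin 3 × Fin (N + 1) × Fin (N + 1)))))) := by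
  obtain ⟨Cl, hCl, hb⟩ := Fc_bounds
  obtain ⟨hb0, hb1, hb2, K2, hb3⟩ := hb (N + 1) b (Nat.succ_pos N)
  set K : ℝ := max (max (2 * ((N + 1 : ℕ) : ℝ)) (Cl * b.length)) K2 with hK
  have k0 : ∀ x, ‖Fc (N + 1) b x‖ ≤ K := fun x =>
    (hb0 x).trans ((le_max_left _ _).trans (le_max_left _ _))
  have k1 : ∀ x, ‖fderiv ℝ (Fc (N + 1) b) x‖ ≤ K := fun x =>
    (hb1 x).trans ((le_max_right _ _).trans (le_max_left _ _))
  have k2 : ∀ x, ‖fderiv ℝ (fderiv ℝ (Fc (N + 1) b)) x‖ ≤ K := fun x =>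
    (hb3 x).trans (le_max_right _ _)
  set g : EuclideanSpace ℝ (Fin 3 × Fin (N + 1) × Fin (N + 1)) ×
      EuclideanSpace ℝ (Fin 3 × Fin (N + 1) × Fin (N + 1)) → ℝ := fun p =>
    ‖Fc (N + 1) b (Real.cos φ • p.1 - Real.sin φ • p.2) - Fc (N + 1) b p.1 +
      φ • fderiv ℝ (Fc (N + 1) b) p.1 p.2‖ ^ 2 with hg
  have hint := taylor_int (Fc (N + 1) b) K hb2 k0 k1 φ
  have htg := taylor_gauss (Fc (N + 1) b) K hb2 k0 k1 k2 φ hφ0 hφ1
  rw [← hg] at hint
  set μ := stdGaussian (EuclideanSpace ℝ (ι × Fin (N + 1) × Fin (N + 1))) with hμ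
  set γ := stdGaussian (EuclideanSpace ℝ (Fin 3 × Fin (N + 1) × Fin (N + 1))) with hγ
  set T : EuclideanSpace ℝ (ι × Fin (N + 1) × Fin (N + 1)) →
      EuclideanSpace ℝ (Fin 3 × Fin (N + 1) × Fin (N + 1)) ×
      EuclideanSpace ℝ (Fin 3 × Fin (N + 1) × Fin (N + 1)) := fun x =>
    (blk (N + 1) (fun i => c (1, i)) x, blk (N + 1) (fun i => c (2, i)) x) with hT
  have hlaw : μ.map T = γ.prod γ := law_blk (N + 1) (fun i => c (1, i)) (fun i => c (2, i)) h11 h22 h12
  have hTc : Continuous T := (finite_bound_cont _ _).prodMk (finite_bound_cont _ _)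
  have hTm : AEMeasurable T μ := hTc.measurable.aemeasurable
  have hint' : Integrable g (μ.map T) := by rw [hlaw]; exact hint
  have hintT : Integrable (fun x => g (T x)) μ := hint'.comp_aemeasurable hTm
  have hI : ∫ x, g (T x) ∂μ = ∫ p, g p ∂(γ.prod γ) := by
    rw [← hlaw, integral_map hTm hint'.aestronglyMeasurable]
  have hblk : ∀ x, blk (N + 1) (fun i => c (0, i)) x =
      Real.cos φ • blk (N + 1) (fun i => c (1, i)) x - Real.sin φ • blk (N + 1) (fun i => c (2, i)) x := by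
    intro x
    ext p
    show ∑ j, c (0, p.1) j * x (j, p.2) = Real.cos φ * (∑ j, c (1, p.1) j * x (j, p.2)) -
      Real.sin φ * (∑ j, c (2, p.1) j * x (j, p.2))
    rw [Finset.mul_sum, Finset.mul_sum, ← Finset.sum_sub_distrib]
    refine Finset.sum_congr rfl fun j _ => ?_
    rw [h0]
    ring
  have hF : ∀ x, (tr (star (GG b φ (lc c (Xm (N + 1) x))) * GG b φ (lc c (Xm (N + 1) x)))).re =
      (((N : ℝ) + 1) ^ 2)⁻¹ * g (T x) := by
    intro x
    rw [GG_crd, hblk]
  simp only [hF]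
  have hnn : (0 : ℝ) ≤ (((N : ℝ) + 1) ^ 2)⁻¹ := by positivity
  calc ∫ x in good (N + 1) L, (((N : ℝ) + 1) ^ 2)⁻¹ * g (T x) ∂μ
      ≤ ∫ x, (((N : ℝ) + 1) ^ 2)⁻¹ * g (T x) ∂μ := by
        apply setIntegral_le_integral (hintT.const_mul _)
        refine Filter.Eventually.of_forall fun x => ?_
        exact mul_nonneg hnn (sq_nonneg _)
    _ = (((N : ℝ) + 1) ^ 2)⁻¹ * ∫ p, g p ∂(γ.prod γ) := by
        rw [integral_const_mul, hI]
    _ ≤ _ := mul_le_mul_of_nonneg_left htg hnn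

theorem lb_sa {κ ι : Type} [Fintype ι] {K : Type} [NormedAddCommGroup K] [InnerProductSpace ℂ K]
    [CompleteSpace K] (c : κ → ι → ℝ) (f : ι → (K →L[ℂ] K)) (hf : ∀ i, IsSelfAdjoint (f i)) (k : κ) :
    IsSelfAdjoint (lc c f k) := by
  unfold lc
  refine isSelfAdjoint_sum _ fun i _ => ?_
  refine IsSelfAdjoint.smul ?_ (hf i)
  rw [isSelfAdjoint_iff]
  exact Complex.conj_ofReal _

theorem lb_tau {K : Type} [NormedAddCommGroup K] [InnerProductSpace ℂ K] [CompleteSpace K]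
    (Ω : K) (G : K →L[ℂ] K) : (tau Ω (star G * G)).re = ‖G Ω‖ ^ 2 := by
  unfold tau
  rw [ContinuousLinearMap.star_eq_adjoint]
  show (⟪Ω, (ContinuousLinearMap.adjoint G) (G Ω)⟫_ℂ).re = _
  rw [ContinuousLinearMap.adjoint_inner_right, inner_self_eq_norm_sq_to_K]
  norm_cast

/-- the estimate in the limit -/
theorem limit_bound {ι : Type} [Fintype ι] [DecidableEq ι] (S : FS ι H) (C4 CD Cb : ℝ)
    (hD : 0 < CD) (hb : 0 < Cb) (m : ℕ) (b : List (Fin 3)) (hg : GoodWord C4 CD Cb m b) (φ : ℝ)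
    (hφ0 : 0 ≤ φ) (hφ1 : φ ≤ Real.pi / 2) (c : Fin 3 × Fin 3 → ι → ℝ)
    (h11 : ∀ i k, ∑ j, c (1, i) j * c (1, k) j = if i = k then 1 else 0)
    (h22 : ∀ i k, ∑ j, c (2, i) j * c (2, k) j = if i = k then 1 else 0)
    (h12 : ∀ i k, ∑ j, c (1, i) j * c (2, k) j = 0)
    (h0 : ∀ i j, c (0, i) j = Real.cos φ * c (1, i) j - Real.sin φ * c (2, i) j) :
    ‖GG b φ (lc c S.s) S.Ω‖ ^ 2 ≤ φ ^ 4 / 3 * (3 * (CD * (Cb * m) ^ 2) + Cb * m) := by
  obtain ⟨L, hL2, hL⟩ := gue_norm (ι := ι)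
  obtain ⟨P, hP⟩ := GG_words b φ
  obtain ⟨hint, hlim⟩ := lim_words S c P L hL2 hL
  rw [← hP (H →L[ℂ] H) (lc c S.s) (fun k => lb_sa c S.s S.s_sa k)] at hlim
  have hre := (Complex.continuous_re.tendsto _).comp hlim
  rw [lb_tau] at hre
  have heq : ∀ (N : ℕ) (x : EuclideanSpace ℝ (ι × Fin (N + 1) × Fin (N + 1))),
      (P.map fun p => p.1 • evW (lc c (Xm (N + 1) x)) p.2).sum =
      star (GG b φ (lc c (Xm (N + 1) x))) * GG b φ (lc c (Xm (N + 1) x)) := by
    intro N x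
    rw [hP (BN (N + 1)) (lc c (Xm (N + 1) x)) (fun k => lb_sa c (Xm (N + 1) x)
      (fun i => (Hm_facts (N + 1)).1 _) k)]
  refine le_of_tendsto hre ?_
  filter_upwards [hg.2] with N hN
  obtain ⟨β, hβ1, hβ2, hβ3, _, hβ5⟩ := hN
  have h1 : ((Complex.re) ∘ fun N : ℕ => ∫ x in good (N + 1) L,
        tr ((P.map fun p => p.1 • evW (lc c (Xm (N + 1) x)) p.2).sum)
        ∂(stdGaussian (EuclideanSpace ℝ (ι × Fin (N + 1) × Fin (N + 1))))) N =
      ∫ x in good (N + 1) L, (tr (star (GG b φ (lc c (Xm (N + 1) x))) *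
      GG b φ (lc c (Xm (N + 1) x)))).re
      ∂(stdGaussian (EuclideanSpace ℝ (ι × Fin (N + 1) × Fin (N + 1)))) := by
    have h2 := Complex.reCLM.integral_comp_comm (hint N)
    simp only [Function.comp]
    refine h2.symm.trans ?_
    refine integral_congr_ae (Filter.Eventually.of_forall fun x => ?_)
    show (tr ((P.map fun p => p.1 • evW (lc c (Xm (N + 1) x)) p.2).sum)).re = _
    rw [heq]
  rw [h1]
  refine (finite_bound N b φ hφ0 hφ1 c h11 h22 h12 h0 L).trans ?_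
  rw [hβ3]
  have hN0 : (0 : ℝ) < ((N : ℝ) + 1) ^ 2 := by positivity
  have hm0 : (0 : ℝ) ≤ m := Nat.cast_nonneg m
  have hβ0 : 0 ≤ β := hm0.trans hβ1
  calc (((N : ℝ) + 1) ^ 2)⁻¹ * (φ ^ 4 / 3 * (3 * ∫ x, hs2 (fderiv ℝ (fderiv ℝ (Fc (N + 1) b)) x)
          ∂(stdGaussian (EuclideanSpace ℝ (Fin 3 × Fin (N + 1) × Fin (N + 1)))) +
          β * ((N : ℝ) + 1) ^ 2))
      ≤ (((N : ℝ) + 1) ^ 2)⁻¹ * (φ ^ 4 / 3 * (3 * (CD * β ^ 2 * ((N : ℝ) + 1) ^ 2) +
          β * ((N : ℝ) + 1) ^ 2)) := by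
        gcongr
    _ = φ ^ 4 / 3 * (3 * (CD * β ^ 2) + β) := by
        field_simp
    _ ≤ _ := by
        gcongr

/-- the coefficients of `(x, z, w)` -/
noncomputable def cc (t : ℝ) (a : Fin 3 × Fin 3) (j : I0) : ℝ :=
  if a.1 = 0 then (if j = Sum.inl a.2 then 1 else 0)
  else if a.1 = 1 then (if j = Sum.inl a.2 then (√(1 + t))⁻¹ else 0) +
    (if j = Sum.inr (Sum.inl a.2.castSucc) then (√(1 + t))⁻¹ * √t else 0)
  else (if j = Sum.inr (Sum.inl a.2.castSucc) then (√(1 + t))⁻¹ else 0) -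
    (if j = Sum.inl a.2 then (√(1 + t))⁻¹ * √t else 0)

theorem cc_lc_one (S : FS I0 H) (a : I0) (c : ℝ) :
    ∑ j : I0, (((if j = a then c else 0 : ℝ)) : ℂ) • S.s j = ((c : ℝ) : ℂ) • S.s a := by
  rw [Finset.sum_eq_single a]
  · rw [if_pos rfl]
  · intro j _ hj
    rw [if_neg hj]
    simp
  · intro h
    exact absurd (Finset.mem_univ a) h

/-- the linear combinations are `x`, `z`, `w` -/
theorem cc_lc (S : FS I0 H) (t : ℝ) (i : Fin 3) : lc (cc t) S.s (0, i) = S.xb i ∧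
    lc (cc t) S.s (1, i) = S.zz t i ∧ lc (cc t) S.s (2, i) = S.ww t i := by
  refine ⟨?_, ?_, ?_⟩
  · unfold lc cc FS.xb
    simp only [if_true]
    rw [cc_lc_one]
    simp
  · unfold lc cc FS.zz FS.xb FS.n1
    have h : ((1 : Fin 3) = 0) = False := by simp
    simp only [h, if_false, if_true, Complex.ofReal_add, add_smul, Finset.sum_add_distrib,
      cc_lc_one]
  · unfold lc cc FS.ww FS.xb FS.n1
    have h : ((2 : Fin 3) = 0) = False := by simp
    have h' : ((2 : Fin 3) = 1) = False := by simp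
    simp only [h, h', if_false, if_true, Complex.ofReal_sub, sub_smul, Finset.sum_sub_distrib,
      cc_lc_one]

theorem cc_orth_aux_sum {J : Type} [Fintype J] [DecidableEq J] (p q p' q' : J) (a b c d : ℝ) :
    ∑ j, ((if j = p then a else 0) + (if j = q then b else 0)) *
      ((if j = p' then c else 0) + (if j = q' then d else 0)) =
    (if p = p' then a * c else 0) + (if p = q' then a * d else 0) +
      (if q = p' then b * c else 0) + (if q = q' then b * d else 0) := by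
  simp only [add_mul, ite_mul, zero_mul, Finset.sum_add_distrib, Finset.sum_ite_eq',
    Finset.mem_univ, if_true, mul_add, mul_ite, mul_zero]
  rw [if_congr (@eq_comm _ p' p) rfl rfl, if_congr (@eq_comm _ p' q) rfl rfl,
    if_congr (@eq_comm _ q' p) rfl rfl, if_congr (@eq_comm _ q' q) rfl rfl]
  ring

/-- orthonormality and rotation -/
theorem cc_orth (t : ℝ) (ht : 0 < t) :
    (∀ i k, ∑ j, cc t (1, i) j * cc t (1, k) j = if i = k then 1 else 0) ∧
    (∀ i k, ∑ j, cc t (2, i) j * cc t (2, k) j = if i = k then 1 else 0) ∧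
    (∀ i k, ∑ j, cc t (1, i) j * cc t (2, k) j = 0) ∧
    (∀ i j, cc t (0, i) j = Real.cos (Real.arctan (√t)) * cc t (1, i) j -
      Real.sin (Real.arctan (√t)) * cc t (2, i) j) := by
  obtain ⟨r, hr⟩ : ∃ r : ℝ, r = √t := ⟨_, rfl⟩
  obtain ⟨α, hα⟩ : ∃ α : ℝ, α = (√(1 + t))⁻¹ := ⟨_, rfl⟩
  have hr2 : r * r = t := by
    rw [hr]
    exact Real.mul_self_sqrt ht.le
  have hα2 : α * α * (1 + r * r) = 1 := by
    rw [hr2, hα, ← mul_inv, Real.mul_self_sqrt (by linarith)]
    exact inv_mul_cancel₀ (by linarith)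
  have hcos : Real.cos (Real.arctan r) = α := by
    rw [Real.cos_arctan, hα, pow_two, hr2, one_div]
  have hsin : Real.sin (Real.arctan r) = r * α := by
    rw [Real.sin_arctan, hα, pow_two, hr2, div_eq_mul_inv]
  have h0 : ∀ i j, cc t (0, i) j = if j = Sum.inl i then 1 else 0 := by
    intro i j
    simp [cc]
  have h1 : ∀ i j, cc t (1, i) j = (if j = Sum.inl i then α else 0) +
      (if j = Sum.inr (Sum.inl i.castSucc) then α * r else 0) := by
    intro i j
    simp [cc, hα, hr]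
  have h2 : ∀ i j, cc t (2, i) j = (if j = Sum.inr (Sum.inl i.castSucc) then α else 0) +
      (if j = Sum.inl i then -(α * r) else 0) := by
    intro i j
    have h3 : (2 : Fin 3) ≠ 0 := by decide
    have h4 : (2 : Fin 3) ≠ 1 := by decide
    simp only [cc, h3, h4, if_false, ← hα, ← hr]
    split_ifs <;> ring
  refine ⟨?_, ?_, ?_, ?_⟩
  · intro i k
    simp only [h1]
    rw [cc_orth_aux_sum]
    by_cases h : i = k
    · subst h
      simp
      linarith
    · simp [h]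
  · intro i k
    simp only [h2]
    rw [cc_orth_aux_sum]
    by_cases h : i = k
    · subst h
      simp
      linarith
    · simp [h]
  · intro i k
    simp only [h1, h2]
    rw [cc_orth_aux_sum]
    by_cases h : i = k
    · subst h
      simp
      ring
    · simp [h]
  · intro i j
    rw [← hr, hcos, hsin, h0, h1, h2]
    by_cases hp : j = Sum.inl i
    · subst hp
      simp
      linarith
    · by_cases hq : j = Sum.inr (Sum.inl i.castSucc)
      · subst hq
        simp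
        ring
      · simp [hp, hq]

/-- part [B]: the remainder bound for good words -/
theorem remBound (S : FS I0 H) (C4 CD Cb : ℝ) (hD : 0 < CD) (hb : 0 < Cb) :
    S.RemBound (GoodWord C4 CD Cb) := by
  refine ⟨3 * CD * Cb ^ 2 + Cb + 1, by positivity, fun m b hg t ht ht1 => ?_⟩
  have hφ0 : 0 ≤ Real.arctan (√t) := Real.arctan_nonneg.2 (Real.sqrt_nonneg t)
  have hφ1 : Real.arctan (√t) ≤ Real.pi / 2 := (Real.arctan_lt_pi_div_two _).le
  have hφt : Real.arctan (√t) ≤ √t := by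
    have h1 := Real.le_tan hφ0 (Real.arctan_lt_pi_div_two _)
    rwa [Real.tan_arctan] at h1
  have hφ4 : Real.arctan (√t) ^ 4 ≤ t ^ 2 := by
    have h1 := pow_le_pow_left₀ hφ0 hφt 4
    have h2 : √t ^ 4 = t ^ 2 := by
      have := Real.sq_sqrt ht.le
      calc √t ^ 4 = (√t ^ 2) ^ 2 := by ring
        _ = t ^ 2 := by rw [this]
    rwa [h2] at h1
  obtain ⟨h11, h22, h12, h0⟩ := cc_orth t ht
  have hlim := limit_bound S C4 CD Cb hD hb m b hg (Real.arctan (√t)) hφ0 hφ1 (cc t) h11 h22 h12 h0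
  have e0 : (fun i => lc (cc t) S.s (0, i)) = S.xb := funext fun i => (cc_lc S t i).1
  have e1 : (fun i => lc (cc t) S.s (1, i)) = S.zz t := funext fun i => (cc_lc S t i).2.1
  have e2 : (fun i => lc (cc t) S.s (2, i)) = S.ww t := funext fun i => (cc_lc S t i).2.2
  have hG : GG b (Real.arctan (√t)) (lc (cc t) S.s) = S.Gb b t := by
    unfold GG FS.Gb
    rw [e0, e1, e2]
  rw [hG] at hlim
  have hm : (m : ℝ) ≤ (m : ℝ) ^ 2 := by
    have : m ≤ m ^ 2 := Nat.le_self_pow two_ne_zero m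
    exact_mod_cast this
  have hm0 : (0 : ℝ) ≤ m := Nat.cast_nonneg m
  have hK : 3 * (CD * (Cb * m) ^ 2) + Cb * m ≤ (3 * CD * Cb ^ 2 + Cb) * (m : ℝ) ^ 2 := by
    have : Cb * (m : ℝ) ≤ Cb * (m : ℝ) ^ 2 := mul_le_mul_of_nonneg_left hm hb.le
    nlinarith [this]
  have hK0 : 0 ≤ 3 * (CD * (Cb * m) ^ 2) + Cb * m := by positivity
  have hC1 : (3 * CD * Cb ^ 2 + Cb) / 3 ≤ (3 * CD * Cb ^ 2 + Cb + 1) ^ 2 := by
    have : 0 ≤ 3 * CD * Cb ^ 2 + Cb := by positivity
    nlinarith [this, sq_nonneg (3 * CD * Cb ^ 2 + Cb)]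
  refine (pow_le_pow_iff_left₀ (norm_nonneg _) (by positivity) two_ne_zero).1 ?_
  calc ‖S.Gb b t S.Ω‖ ^ 2 ≤ Real.arctan (√t) ^ 4 / 3 * (3 * (CD * (Cb * m) ^ 2) + Cb * m) := hlim
    _ ≤ t ^ 2 / 3 * ((3 * CD * Cb ^ 2 + Cb) * (m : ℝ) ^ 2) := by
        apply mul_le_mul (by linarith) hK hK0 (by positivity)
    _ = (3 * CD * Cb ^ 2 + Cb) / 3 * (t ^ 2 * (m : ℝ) ^ 2) := by ring
    _ ≤ (3 * CD * Cb ^ 2 + Cb + 1) ^ 2 * (t ^ 2 * (m : ℝ) ^ 2) :=
        mul_le_mul_of_nonneg_right hC1 (by positivity)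
    _ = ((3 * CD * Cb ^ 2 + Cb + 1) * t * m) ^ 2 := by ring

end Tay
end Pool.Agent.Helper38.FE
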