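import Pool.Agent.Helper38.FE.Low2Sub

/-! MODULE H2: sharp lower bound for the Fisher information at fine scales. -/

set_option autoImplicit false
set_option linter.unusedVariables false
set_option linter.unusedSectionVars false

open MeasureTheory Filter Topology
open scoped InnerProductSpace ENNReal ComplexConjugate

namespace Pool.Agent.Helper38.FE
namespace Low2

open Low

variable {H : Type} [NormedAddCommGroup H] [InnerProductSpace ℂ H] [CompleteSpace H]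

section core

variable (S : FS I0 H) (n : ℕ) (r : ℕ → ℝ) (b : ℕ → List (Fin 3)) (e : H →L[ℂ] H) (t : ℝ)

/-- the test vector -/
noncomputable def q2 : H := (((√t)⁻¹ : ℝ) : ℂ) •
  (YY S n r b e t 3 S.Ω - ff n r b (S.zz t) S.Ω)

theorem zz_eq (i : Fin 3) : S.zz t i = (((√(1 + t))⁻¹ : ℝ) : ℂ) • yl S t i := by
  simp only [FS.zz, yl, smul_add, smul_smul, Complex.ofReal_mul]

theorem zr_eq (i : Fin 3) : zr S t i = (((√(1 + t))⁻¹ : ℝ) : ℂ) • yr S t i := by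
  simp only [zr, yr, smul_add, smul_smul, Complex.ofReal_mul]

theorem zz_sa (i : Fin 3) : IsSelfAdjoint (S.zz t i) := by
  rw [zz_eq]
  exact rsmul_sa _ _ (yl_sa S t i)

theorem zr_sa (i : Fin 3) : IsSelfAdjoint (zr S t i) := by
  rw [zr_eq]
  exact rsmul_sa _ _ (yr_sa S t i)

theorem ww_sa (i : Fin 3) : IsSelfAdjoint (S.ww t i) :=
  (rsmul_sa _ _ (S.s_sa _)).sub (rsmul_sa _ _ (S.s_sa _))

/-- membership of the test vectors and the projection inequality -/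
theorem Psi_le_gval2 (he : IsSelfAdjoint e) (heA : e ∈ S.Ab) :
    Psi (fun j => S.n1 j S.Ω)
      (fun j => JT (TF n r b (S.zz t) (zr S t) (S.zz t) (zr S t)) j (q2 S n r b e t)) ≤
      gval S.Ω (S.tup (ff n r b S.xb + e)) S.n1 t := by
  unfold gval
  change _ ≤ ∑ j, ‖(L2 S.Ω (YY S n r b e t)).starProjection (S.n1 j S.Ω)‖ ^ 2
  obtain ⟨U, hUc, hU1, hU2, hU3⟩ := exists_proj_algebra (L2 S.Ω (YY S n r b e t))
  obtain ⟨hΩ, hl, hr⟩ := L2_invariant S.Ω (YY S n r b e t)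
  have hY : ∀ j, YY S n r b e t j ∈ U := fun j =>
    (hU3 _ (YY_sa S n r b e t he j) (hl j)).1
  have hy : ∀ i, cay (S.zz t i) ∈ U := fun i => by
    refine (hU3 _ (zz_sa S t i) ?_).2
    intro v hv
    have h1 := hl i.castSucc v hv
    rw [YY_cast] at h1
    rw [zz_eq]
    exact Submodule.smul_mem _ _ h1
  have hy' : ∀ i, cay (zr S t i) ∈ U := fun i => by
    refine (hU3 _ (zr_sa S t i) ?_).2
    intro v hv
    have h1 := hr (yr S t i) i.castSucc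
      (fun j => (YY_left S n r b e t heA j (yr S t i) (pair_y S t i).right).symm)
      (by rw [YY_cast]; exact (pair_y S t i).vac.symm) v hv
    rw [zr_eq]
    exact Submodule.smul_mem _ _ h1
  have hT : ∀ k, TF n r b (S.zz t) (zr S t) (S.zz t) (zr S t) k ∈ U := fun k =>
    TF_mem U _ _ _ _ hy hy' hy hy' n r b k
  have hN : NT (TF n r b (S.zz t) (zr S t) (S.zz t) (zr S t)) ∈ U := by
    unfold NT
    exact add_mem (one_mem _) (sum_mem fun i _ => mul_mem (hT i) (star_mem (hT i)))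
  have hK : KT (TF n r b (S.zz t) (zr S t) (S.zz t) (zr S t)) ∈ U := by
    unfold KT
    exact hU2 _ hN (KT_facts _).1
  have hJ : ∀ j, JT (TF n r b (S.zz t) (zr S t) (S.zz t) (zr S t)) j ∈ U := by
    intro j
    refine Fin.lastCases ?_ ?_ j
    · have h : JT (TF n r b (S.zz t) (zr S t) (S.zz t) (zr S t)) (Fin.last 3) =
          KT (TF n r b (S.zz t) (zr S t) (S.zz t) (zr S t)) := Fin.snoc_last _ _
      rw [h]
      exact hK
    · intro i
      simp only [JT, Fin.snoc_castSucc]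
      exact neg_mem (mul_mem (star_mem (hT i)) hK)
  have hf : ff n r b (S.zz t) ∈ U := ff_mem U n r b _ hy
  have hq : q2 S n r b e t ∈ L2 S.Ω (YY S n r b e t) := by
    unfold q2
    exact Submodule.smul_mem _ _ (Submodule.sub_mem _ (hU1 _ (hY 3) _ hΩ) (hU1 _ hf _ hΩ))
  exact Psi_le_proj _ _ _ (fun j => hU1 _ (hJ j) _ hq)

/-- the vector `D = ∑ T_k v_k` -/
noncomputable def DD (v : Fin 3 → H) : H :=
  ∑ k, TF n r b (S.zz t) (zr S t) (S.zz t) (zr S t) k (v k)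

/-- the remainder operator -/
noncomputable def Rm : H →L[ℂ] H := ∑ j ∈ Finset.range n, ((r j : ℝ) : ℂ) • S.Gb (b j) t

theorem q2_eq (ht : 0 < t)
    (hDF : (∑ j ∈ Finset.range n, ((r j : ℝ) : ℂ) • DFb (b j) (S.zz t) (S.ww t)) S.Ω =
      DD S n r b t (fun k => S.ww t k S.Ω)) :
    q2 S n r b e t = S.n1 3 S.Ω -
      ((Real.arctan (√t) / √t : ℝ) : ℂ) • DD S n r b t (fun k => S.ww t k S.Ω) +
      (((√t)⁻¹ : ℝ) : ℂ) • (Rm S n r b t S.Ω + e S.Ω) := by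
  have hs : (0 : ℝ) < √t := Real.sqrt_pos.mpr ht
  have h1 : Rm S n r b t = ff n r b S.xb - ff n r b (S.zz t) +
      ((Real.arctan (√t) : ℝ) : ℂ) •
        ∑ j ∈ Finset.range n, ((r j : ℝ) : ℂ) • DFb (b j) (S.zz t) (S.ww t) := by
    unfold Rm ff FS.Gb
    rw [Finset.smul_sum, ← Finset.sum_sub_distrib, ← Finset.sum_add_distrib]
    refine Finset.sum_congr rfl fun j _ => ?_
    rw [smul_add, smul_sub, smul_comm]
  have h2 : ff n r b S.xb S.Ω - ff n r b (S.zz t) S.Ω = Rm S n r b t S.Ω -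
      ((Real.arctan (√t) : ℝ) : ℂ) • DD S n r b t (fun k => S.ww t k S.Ω) := by
    rw [h1, ← hDF]
    simp only [_root_.add_apply, _root_.sub_apply, _root_.smul_apply]
    abel
  have h3 : YY S n r b e t 3 S.Ω - ff n r b (S.zz t) S.Ω =
      ((√t : ℝ) : ℂ) • S.n1 3 S.Ω + (Rm S n r b t S.Ω -
      ((Real.arctan (√t) : ℝ) : ℂ) • DD S n r b t (fun k => S.ww t k S.Ω)) + e S.Ω := by
    rw [YY_last, ← h2]
    simp only [_root_.add_apply, _root_.smul_apply]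
    abel
  have h4 : ((((√t)⁻¹ : ℝ) : ℂ)) * ((√t : ℝ) : ℂ) = 1 := by
    rw [← Complex.ofReal_mul, inv_mul_cancel₀ hs.ne']
    simp
  have h5 : ((((√t)⁻¹ : ℝ) : ℂ)) * ((Real.arctan (√t) : ℝ) : ℂ) =
      ((Real.arctan (√t) / √t : ℝ) : ℂ) := by
    rw [← Complex.ofReal_mul, inv_mul_eq_div]
  rw [q2, h3, smul_add, smul_add, smul_sub, smul_smul, smul_smul, h4, h5, one_smul, smul_add]
  abel

end core

end Low2

open Low Low2

variable {H : Type} [NormedAddCommGroup H] [InnerProductSpace ℂ H] [CompleteSpace H]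

/-- MODULE H2. -/
theorem lower_bound2_of (S : FS I0 H) (Good : ℕ → List (Fin 3) → Prop)
    (hrem : S.RemBound Good) : ∃ C : ℝ, 0 < C ∧
    ∀ (k : ℕ) (r : ℕ → ℝ) (m : ℕ → ℕ) (b : ℕ → List (Fin 3)) (e : H →L[ℂ] H) (M ε t : ℝ),
      (∀ j < k, 0 ≤ r j) → (∀ j < k, Good (m j) (b j)) → IsSelfAdjoint e → e ∈ S.Ab →
      ‖e‖ ≤ ε → 1 ≤ M → (∑ j ∈ Finset.range k, r j * (m j : ℝ)) ≤ M → 0 < t → t ≤ 1 →
      1 - C * (M ^ 2 * t + ε ^ 2 / t) ≤
        gval S.Ω (S.tup ((∑ j ∈ Finset.range k, ((r j : ℝ) : ℂ) • Fb (b j) S.xb) + e)) S.n1 t := by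
  obtain ⟨C₀, hC₀, hrem⟩ := hrem
  refine ⟨13 + 6 * C₀ ^ 2, by positivity, ?_⟩
  intro k r m b e M ε t hr hgood he heA hε hM hMs ht ht1
  have hs : (0 : ℝ) < √t := Real.sqrt_pos.mpr ht
  have hst : √t ^ 2 = t := Real.sq_sqrt ht.le
  have h1t : (0 : ℝ) < √(1 + t) := Real.sqrt_pos.mpr (by linarith)
  have hst1 : √(1 + t) ^ 2 = 1 + t := Real.sq_sqrt (by linarith)
  set c : ℝ := (√(1 + t))⁻¹ with hc
  have hc2 : c ^ 2 = (1 + t)⁻¹ := by rw [hc, inv_pow, hst1]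
  have hc2t : c ^ 2 * (1 + t) = 1 := by
    rw [hc2]; field_simp
  obtain ⟨S', hΩ', hz, hzr, hw, hw3⟩ := exists_rot_t S t ht
  obtain ⟨h1, h2, h3, h4, h5, h6, h7, h8⟩ := pair0_closure S' ∅
  have pz0 : ∀ i, Pair0 S' ∅ (S.zz t i) (zr S t i) := fun i => by
    rw [← hz, ← hzr]; exact h1 _ (by simp)
  have pw0 : ∀ i : Fin 3, Pair0 S' ∅ (S.ww t i) (S'.d (Sum.inr i.castSucc)) := fun i => by
    rw [← hw]; exact h1 _ (by simp)
  have hDF := DF_formula S' (S.zz t) (zr S t) (S.ww t) (fun i => S'.d (Sum.inr i.castSucc)) pz0 pw0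
    (zz_sa S t) (zr_sa S t) (ww_sa S t) k r b
  rw [hΩ'] at hDF
  set T := TF k r b (S.zz t) (zr S t) (S.zz t) (zr S t) with hTdef
  -- the closed algebra
  obtain ⟨U, hUc, hU1, hU2, hU3, hU4, hU5⟩ := exists_closed_algebra0 S' (Set.range Sum.inr)
  obtain ⟨g1, -, -, -, -, -, -, -⟩ := pair0_closure S' (Set.range Sum.inr)
  have pz : ∀ i, Pair0 S' (Set.range Sum.inr) (S.zz t i) (zr S t i) := fun i => by
    rw [← hz, ← hzr]; exact g1 _ (by rintro ⟨j, hj⟩; simp at hj)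
  have hx : ∀ i, cay (S.zz t i) ∈ U := fun i =>
    (hU1 _ _ (pair0_cay S' _ _ _ (pz i) (zz_sa S t i) (zr_sa S t i))).1
  have hx' : ∀ i, cay (zr S t i) ∈ U := fun i =>
    (hU1 _ _ (pair0_cay S' _ _ _ (pz i) (zz_sa S t i) (zr_sa S t i))).2
  have hT : ∀ k, T k ∈ U := fun j => TF_mem U _ _ _ _ hx hx' hx hx' k r b j
  have hmem : ∀ j : Fin 4, (Sum.inr j : Fin 3 ⊕ Fin 4) ∈ Set.range Sum.inr := fun j => ⟨j, rfl⟩
  have nv : ∀ k, ‖S'.s k S.Ω‖ = 1 := fun k => by rw [← hΩ']; exact norm_vec0 S' k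
  -- the vectors
  set D : H := DD S k r b t (fun j => S.ww t j S.Ω) with hD
  set Dz : H := DD S k r b t (fun j => S.zz t j S.Ω) with hDz
  set p : H := S.n1 3 S.Ω - ∑ i : Fin 3, T i (S.n1 i.castSucc S.Ω) with hp
  set q : H := q2 S k r b e t with hq
  have hsi : ∀ i : Fin 3, S.n1 i.castSucc S.Ω =
      ((c : ℝ) : ℂ) • S.ww t i S.Ω + ((c * √t : ℝ) : ℂ) • S.zz t i S.Ω := by
    intro i
    have e1 : S.n1 i.castSucc = ((c : ℝ) : ℂ) • S.ww t i + ((c * √t : ℝ) : ℂ) • S.zz t i := by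
      simp only [FS.ww, FS.zz, ← hc, smul_sub, smul_add, smul_smul, ← Complex.ofReal_mul]
      have e2 : c * c + c * √t * (c * √t) = 1 := by
        have : c * c + c * √t * (c * √t) = c ^ 2 * (1 + √t ^ 2) := by ring
        rw [this, hst, hc2t]
      have e3 : c * (c * √t) = c * √t * c := by ring
      rw [e3]
      have : S.n1 i.castSucc = (((c * c + c * √t * (c * √t) : ℝ)) : ℂ) • S.n1 i.castSucc := by
        rw [e2]; simp
      conv_lhs => rw [this, Complex.ofReal_add, add_smul]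
      abel
    conv_lhs => rw [e1]
    rfl
  have hpeq : p = S.n1 3 S.Ω - ((c : ℝ) : ℂ) • D - ((c * √t : ℝ) : ℂ) • Dz := by
    rw [hp, hD, hDz, DD, DD, Finset.smul_sum, Finset.smul_sum, sub_sub, ← Finset.sum_add_distrib]
    congr 1
    refine Finset.sum_congr rfl fun i _ => ?_
    rw [hsi i, map_add, map_smul, map_smul]
  have hqeq := q2_eq S k r b e t ht hDF
  rw [← hq, ← hD] at hqeq
  have hfl := form_lower U hUc T hT (S.zz t) (fun i => (hU1 _ _ (pz i)).1) S.Ω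
    (fun j => S'.s (Sum.inr j) S.Ω)
    (fun η hη j l hjl => by
      have := hU2 η hη _ (hmem j) _ (hmem l) (by simpa using hjl)
      rwa [hΩ'] at this)
    (fun η hη j l => by
      have := hU3 η hη _ (hmem j) _ (hmem l)
      rwa [hΩ'] at this)
    (fun η hη ζ hζ j => by
      have := hU4 η hη ζ hζ _ (hmem j)
      rwa [hΩ'] at this)
    (fun η hη j => by
      have := hU5 η hη _ (hmem j)
      rwa [hΩ'] at this)
    (nv _) c (c * √t) (by rw [hc2]; exact inv_le_one_of_one_le₀ (by linarith)) p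
    (by
      rw [hpeq, hD, hDz, DD, DD]
      simp only [hw, hw3]
      rfl)
  have hPsi := Psi_JT2 T (fun j => S.n1 j S.Ω) p q hp
  have hgv := Psi_le_gval2 S k r b e t he heA
  rw [← hTdef, ← hq, hPsi] at hgv
  -- the error term
  have hqp : q - p = ((c - Real.arctan (√t) / √t : ℝ) : ℂ) • D + ((c * √t : ℝ) : ℂ) • Dz +
      (((√t)⁻¹ : ℝ) : ℂ) • (Rm S k r b t S.Ω + e S.Ω) := by
    rw [hqeq, hpeq, Complex.ofReal_sub, sub_smul]
    abel
  have hadd := KT_form_add3 T (((c - Real.arctan (√t) / √t : ℝ) : ℂ) • D)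
    (((c * √t : ℝ) : ℂ) • Dz) ((((√t)⁻¹ : ℝ) : ℂ) • (Rm S k r b t S.Ω + e S.Ω))
  rw [← hqp, KT_form_smul, KT_form_smul, KT_form_smul] at hadd
  have hDD : (⟪D, KT T D⟫_ℂ).re ≤ 3 := by
    have h := KT_form_T T (fun j => S.ww t j S.Ω)
    have h' : ∑ i : Fin 3, ‖S.ww t i S.Ω‖ ^ 2 = 3 := by
      simp only [← hw, nv]
      norm_num
    rw [h'] at h
    exact h
  have hDDz : (⟪Dz, KT T Dz⟫_ℂ).re ≤ 3 := by
    have h := KT_form_T T (fun j => S.zz t j S.Ω)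
    have h' : ∑ i : Fin 3, ‖S.zz t i S.Ω‖ ^ 2 = 3 := by
      simp only [← hz, nv]
      norm_num
    rw [h'] at h
    exact h
  have hRm : ‖Rm S k r b t S.Ω‖ ≤ C₀ * t * M := by
    have e1 : Rm S k r b t S.Ω = ∑ j ∈ Finset.range k, ((r j : ℝ) : ℂ) • (S.Gb (b j) t S.Ω) := by
      rw [Rm, ContinuousLinearMap.sum_apply]
      rfl
    rw [e1]
    refine (norm_sum_le _ _).trans ?_
    have e2 : ∀ j ∈ Finset.range k, ‖((r j : ℝ) : ℂ) • (S.Gb (b j) t S.Ω)‖ ≤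
        C₀ * t * (r j * (m j : ℝ)) := by
      intro j hj
      have hj' := Finset.mem_range.mp hj
      rw [norm_smul, Complex.norm_real, Real.norm_of_nonneg (hr j hj')]
      have := hrem (m j) (b j) (hgood j hj') t ht ht1
      calc r j * ‖S.Gb (b j) t S.Ω‖ ≤ r j * (C₀ * t * (m j : ℝ)) :=
            mul_le_mul_of_nonneg_left this (hr j hj')
        _ = C₀ * t * (r j * (m j : ℝ)) := by ring
    refine (Finset.sum_le_sum e2).trans ?_
    rw [← Finset.mul_sum]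
    exact mul_le_mul_of_nonneg_left hMs (by positivity)
  have hee : ‖e S.Ω‖ ≤ ε := norm_vac S e ε hε
  have hε0 : 0 ≤ ε := (norm_nonneg e).trans hε
  have hsum : (⟪Rm S k r b t S.Ω + e S.Ω, KT T (Rm S k r b t S.Ω + e S.Ω)⟫_ℂ).re ≤
      2 * (C₀ * t * M) ^ 2 + 2 * ε ^ 2 := by
    refine ((KT_form T _).2).trans ?_
    have e1 : ‖Rm S k r b t S.Ω + e S.Ω‖ ≤ C₀ * t * M + ε :=
      (norm_add_le _ _).trans (add_le_add hRm hee)
    have e2 : 0 ≤ ‖Rm S k r b t S.Ω + e S.Ω‖ := norm_nonneg _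
    have e3 : ‖Rm S k r b t S.Ω + e S.Ω‖ ^ 2 ≤ (C₀ * t * M + ε) ^ 2 :=
      pow_le_pow_left₀ e2 e1 2
    nlinarith [sq_nonneg (C₀ * t * M - ε)]
  have harc := arctan_est t ht ht1
  rw [← hc] at harc
  have harc2 : (c - Real.arctan (√t) / √t) ^ 2 ≤ (t / 2) ^ 2 := by
    rw [← sq_abs]
    exact pow_le_pow_left₀ (abs_nonneg _) harc 2
  have hct : (c * √t) ^ 2 ≤ t := by
    rw [mul_pow, hst, hc2]
    have : (1 + t)⁻¹ ≤ 1 := inv_le_one_of_one_le₀ (by linarith)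
    nlinarith
  have hsi2 : ((√t)⁻¹) ^ 2 = t⁻¹ := by rw [inv_pow, hst]
  have hD0 := (KT_form T D).1
  have hDz0 := (KT_form T Dz).1
  have hx0 := (KT_form T (Rm S k r b t S.Ω + e S.Ω)).1
  have b1 : (c - Real.arctan (√t) / √t) ^ 2 * (⟪D, KT T D⟫_ℂ).re ≤ (t / 2) ^ 2 * 3 :=
    mul_le_mul harc2 hDD hD0 (by positivity)
  have b2 : (c * √t) ^ 2 * (⟪Dz, KT T Dz⟫_ℂ).re ≤ t * 3 :=
    mul_le_mul hct hDDz hDz0 ht.le
  have b3 : ((√t)⁻¹) ^ 2 *
      (⟪Rm S k r b t S.Ω + e S.Ω, KT T (Rm S k r b t S.Ω + e S.Ω)⟫_ℂ).re ≤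
      2 * C₀ ^ 2 * (M ^ 2 * t) + 2 * (ε ^ 2 / t) := by
    rw [hsi2]
    refine (mul_le_mul_of_nonneg_left hsum (by positivity)).trans (le_of_eq ?_)
    field_simp
  have b4 : 1 - t ≤ c ^ 2 := by
    rw [hc2, ← one_div, le_div_iff₀ (by linarith)]
    nlinarith
  have hM2 : 1 ≤ M ^ 2 := one_le_pow₀ hM
  have b5 : t ≤ M ^ 2 * t := by nlinarith
  have b6 : 0 ≤ ε ^ 2 / t := by positivity
  have b7 : 0 ≤ M ^ 2 * t := by positivity
  have b8 : t ^ 2 ≤ t := by nlinarith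
  refine le_trans ?_ hgv
  have hC2 : 0 ≤ C₀ ^ 2 := by positivity
  nlinarith [mul_nonneg hC2 b6, mul_nonneg hC2 b7]

end Pool.Agent.Helper38.FE
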