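import Pool.Agent.Helper38.FE.Main2
import Pool.Agent.Helper38.FE.Low2
import Pool.Agent.Helper38.FE.Lim2

/-! Assembly of the second version. -/

open MeasureTheory Filter Topology ProbabilityTheory
open scoped InnerProductSpace ENNReal

namespace Pool.Agent.Helper38.FE

/-- All four combinations of `limsup` and `liminf` give different dimensions. -/
theorem final4 :
    ∃ (H : Type) (_ : NormedAddCommGroup H) (_ : InnerProductSpace ℂ H)
    (_ : CompleteSpace H) (M : VonNeumannAlgebra H) (Ω : H) (x : Fin 4 → (H →L[ℂ] H))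
    (s : Fin 4 ⊕ Fin 4 → (H →L[ℂ] H)),
    TracialSpace M Ω ∧ (∀ i, x i ∈ M ∧ IsSelfAdjoint (x i)) ∧ (∀ i, s i ∈ M) ∧
    IsFreeSemi Ω x s ∧
    (∀ t : ℝ, 0 < t → PhiStar Ω (pert x (fun j => s (Sum.inl j)) t) ≠ ⊤) ∧
    (∀ t u : ℝ, 0 < t → 0 < u →
      PhiStar Ω (pert (pert x (fun j => s (Sum.inl j)) t) (fun j => s (Sum.inr j)) u) ≠ ⊤) ∧
    (∀ t : ℝ, 0 < t → IntegrableOn (fun u : ℝ => 4 / (1 + u) -
      (PhiStar Ω (pert (pert x (fun j => s (Sum.inl j)) t) (fun j => s (Sum.inr j)) u)).toReal)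
      (Set.Ioi 0)) ∧
    deltaStar Ω x (fun j => s (Sum.inl j)) (fun j => s (Sum.inr j)) ≠
      deltaFive Ω x (fun j => s (Sum.inl j)) ∧
    deltaStarInf Ω x (fun j => s (Sum.inl j)) (fun j => s (Sum.inr j)) ≠
      deltaFiveInf Ω x (fun j => s (Sum.inl j)) ∧
    deltaStar Ω x (fun j => s (Sum.inl j)) (fun j => s (Sum.inr j)) ≠
      deltaFiveInf Ω x (fun j => s (Sum.inl j)) ∧
    deltaStarInf Ω x (fun j => s (Sum.inl j)) (fun j => s (Sum.inr j)) ≠
      deltaFive Ω x (fun j => s (Sum.inl j)) :=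
  final2 fun H _ _ _ S C4 CD Cb _ hD hb => lower_bound2_of S _ (Tay.remBound S C4 CD Cb hD hb)

end Pool.Agent.Helper38.FE
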