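import Pool.Agent.Helper38.FE.Low

/-! MODULE E: Fock space, tracial von Neumann algebra, freeness, conjugate variables. -/

open MeasureTheory Filter Topology ProbabilityTheory
open scoped InnerProductSpace ENNReal

namespace Pool.Agent.Helper38.FE

section E1A

variable {H : Type} [NormedAddCommGroup H] [InnerProductSpace ℂ H] [CompleteSpace H]


/-- shift operators on `ℓ²(List ι)` -/
theorem exists_shift {ι : Type} [DecidableEq ι] (f : List ι → List ι) (hf : Function.Injective f) :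
    ∃ V : (lp (fun _ : List ι => ℂ) 2) →L[ℂ] (lp (fun _ : List ι => ℂ) 2),
      (∀ w, V (lp.single 2 w (1 : ℂ)) = lp.single 2 (f w) (1 : ℂ)) ∧
      (∀ w, (star V) (lp.single 2 (f w) (1 : ℂ)) = lp.single 2 w (1 : ℂ)) ∧
      (∀ v, v ∉ Set.range f → (star V) (lp.single 2 v (1 : ℂ)) = 0) ∧
      (∀ ξ, ‖V ξ‖ = ‖ξ‖) := by
  have hv : Orthonormal ℂ (fun w : List ι =>
      (lp.single 2 (f w) (1 : ℂ) : lp (fun _ : List ι => ℂ) 2)) := by
    rw [orthonormal_iff_ite]
    intro i j
    rw [lp.inner_single_left]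
    by_cases hij : i = j
    · rw [if_pos hij, hij, lp.single_apply_self]
      simp
    · rw [if_neg hij, lp.single_apply_ne 2 _ _ (fun h => hij (hf h))]
      simp
  obtain ⟨W, hW⟩ : ∃ W : (lp (fun _ : List ι => ℂ) 2) →ₗᵢ[ℂ] (lp (fun _ : List ι => ℂ) 2),
      ∀ w, W (lp.single 2 w (1 : ℂ)) = lp.single 2 (f w) (1 : ℂ) := by
    refine ⟨hv.orthogonalFamily.linearIsometry, fun w => ?_⟩
    rw [OrthogonalFamily.linearIsometry_apply_single]
    simp
  have hstar : ∀ (v i : List ι), ((star W.toContinuousLinearMap) (lp.single 2 v (1 : ℂ))) i =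
      (lp.single 2 v (1 : ℂ) : lp (fun _ : List ι => ℂ) 2) (f i) := by
    intro v i
    have h1 : ⟪(lp.single 2 i (1 : ℂ) : lp (fun _ : List ι => ℂ) 2),
        (star W.toContinuousLinearMap) (lp.single 2 v (1 : ℂ))⟫_ℂ =
        ⟪W.toContinuousLinearMap (lp.single 2 i (1 : ℂ)),
          (lp.single 2 v (1 : ℂ) : lp (fun _ : List ι => ℂ) 2)⟫_ℂ := by
      rw [ContinuousLinearMap.star_eq_adjoint, ContinuousLinearMap.adjoint_inner_right]
    rw [lp.inner_single_left, LinearIsometry.coe_toContinuousLinearMap, hW,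
      lp.inner_single_left] at h1
    simpa using h1
  refine ⟨W.toContinuousLinearMap, hW, ?_, ?_, fun ξ => W.norm_map ξ⟩
  · intro w
    ext i
    rw [hstar]
    by_cases hi : i = w
    · rw [hi, lp.single_apply_self, lp.single_apply_self]
    · rw [lp.single_apply_ne 2 _ _ hi, lp.single_apply_ne 2 _ _ (fun h => hi (hf h))]
  · intro v hv'
    ext i
    rw [hstar, lp.single_apply_ne 2 _ _ (fun h => hv' ⟨i, h⟩)]
    rfl

end E1A

section E1B

variable {H : Type} [NormedAddCommGroup H] [InnerProductSpace ℂ H] [CompleteSpace H]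


/-- the data of the left and right creation operators -/
structure J15224D {ι : Type} (e : List ι → H) (l r : ι → (H →L[ℂ] H)) : Prop where
  l1 : ∀ i w, l i (e w) = e (i :: w)
  l2 : ∀ i w, (star (l i)) (e (i :: w)) = e w
  l3 : ∀ i v, v ∉ Set.range (fun w => i :: w) → (star (l i)) (e v) = 0
  l4 : ∀ i ξ, ‖l i ξ‖ = ‖ξ‖
  r1 : ∀ i w, r i (e w) = e (w ++ [i])
  r2 : ∀ i w, (star (r i)) (e (w ++ [i])) = e w
  r3 : ∀ i v, v ∉ Set.range (fun w => w ++ [i]) → (star (r i)) (e v) = 0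
  r4 : ∀ i ξ, ‖r i ξ‖ = ‖ξ‖

section j15224
variable {ι : Type} [DecidableEq ι] {e : List ι → H} {l r : ι → (H →L[ℂ] H)}

omit [DecidableEq ι] in
theorem j15224_lnil (h : J15224D e l r) (i : ι) : (star (l i)) (e []) = 0 := by
  refine h.l3 i [] ?_
  rintro ⟨w, hw⟩
  exact List.cons_ne_nil _ _ hw

theorem j15224_lcons (h : J15224D e l r) (i j : ι) (w : List ι) :
    (star (l i)) (e (j :: w)) = if i = j then e w else 0 := by
  by_cases hij : i = j
  · rw [if_pos hij, hij, h.l2]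
  · rw [if_neg hij]
    refine h.l3 i _ ?_
    rintro ⟨w', hw⟩
    exact hij (List.cons.inj hw).1

omit [DecidableEq ι] in
theorem j15224_rnil (h : J15224D e l r) (i : ι) : (star (r i)) (e []) = 0 := by
  refine h.r3 i [] ?_
  rintro ⟨w, hw⟩
  exact List.append_ne_nil_of_right_ne_nil w (List.cons_ne_nil _ _) hw

theorem j15224_rapp (h : J15224D e l r) (i j : ι) (w : List ι) :
    (star (r i)) (e (w ++ [j])) = if i = j then e w else 0 := by
  by_cases hij : i = j
  · rw [if_pos hij, hij, h.r2]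
  · rw [if_neg hij]
    refine h.r3 i _ ?_
    rintro ⟨w', hw⟩
    have := (List.append_inj' hw rfl).2
    exact hij (List.cons.inj this).1

theorem j15224_X (h : J15224D e l r) (i j k : ι) (w : List ι) :
    (star (r j)) ((star (l i)) (e (w ++ [k]))) = if j = k then (star (l i)) (e w) else 0 := by
  cases w with
  | nil =>
    rw [List.nil_append, j15224_lcons h, j15224_lnil h]
    by_cases h1 : i = k
    · rw [if_pos h1, j15224_rnil h, ite_self]
    · rw [if_neg h1, map_zero, ite_self]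
  | cons m w =>
    rw [List.cons_append, j15224_lcons h, j15224_lcons h]
    by_cases h1 : i = m
    · rw [if_pos h1, if_pos h1, j15224_rapp h]
    · rw [if_neg h1, if_neg h1, map_zero, ite_self]

theorem j15224_R1 (h : J15224D e l r) (i j : ι) (w : List ι) :
    (star (r j)) (l i (e w) + (star (l i)) (e w)) =
      (l i ((star (r j)) (e w)) + (star (l i)) ((star (r j)) (e w))) +
        (if i = j then (if w = [] then e [] else 0) else 0) := by
  rcases List.eq_nil_or_concat w with hw | ⟨w', k, hw⟩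
  · subst hw
    rw [if_pos rfl, j15224_lnil h, j15224_rnil h, map_zero, map_zero, h.l1, add_zero, zero_add,
      zero_add]
    have := j15224_rapp h j i []
    rw [List.nil_append] at this
    rw [this]
    by_cases hij : i = j
    · rw [if_pos hij, if_pos hij.symm]
    · rw [if_neg hij, if_neg (Ne.symm hij)]
  · have hw' : w = w' ++ [k] := by rw [hw, List.concat_eq_append]
    subst hw'
    have hne : w' ++ [k] ≠ [] :=
      List.append_ne_nil_of_right_ne_nil w' (List.cons_ne_nil _ _)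
    rw [if_neg hne, ite_self, add_zero, h.l1, map_add, j15224_X h, ← List.cons_append,
      j15224_rapp h, j15224_rapp h]
    by_cases hjk : j = k
    · rw [if_pos hjk, if_pos hjk, if_pos hjk, h.l1]
    · rw [if_neg hjk, if_neg hjk, if_neg hjk, map_zero, map_zero]

theorem j15224_R2 (h : J15224D e l r) (i j : ι) (w : List ι) :
    l i (r j (e w)) + (star (l i)) (r j (e w)) =
      r j (l i (e w) + (star (l i)) (e w)) +
        (if i = j then (if w = [] then e [] else 0) else 0) := by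
  cases w with
  | nil =>
    rw [if_pos rfl, h.r1, h.l1, h.l1, j15224_lnil h, add_zero, h.r1, List.nil_append,
      j15224_lcons h]
    rfl
  | cons m w =>
    rw [if_neg (List.cons_ne_nil _ _), ite_self, add_zero, h.r1, h.l1, h.l1, map_add, h.r1,
      List.cons_append, j15224_lcons h, j15224_lcons h, List.cons_append, List.cons_append]
    by_cases him : i = m
    · rw [if_pos him, if_pos him, h.r1]
    · rw [if_neg him, if_neg him, map_zero]

omit [DecidableEq ι] in
theorem j15224_ext (he : (Submodule.span ℂ (Set.range e)).topologicalClosure = ⊤)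
    {A B : H →L[ℂ] H} (hAB : ∀ w, A (e w) = B (e w)) : A = B := by
  refine ContinuousLinearMap.ext_on (s := Set.range e)
    (Submodule.dense_iff_topologicalClosure_eq_top.2 he) ?_
  rintro _ ⟨w, rfl⟩
  exact hAB w

omit [CompleteSpace H] [DecidableEq ι] in
theorem j15224_stab (s : ι → (H →L[ℂ] H)) (Ω : H) (i : ι) {x : H}
    (hx : x ∈ Submodule.span ℂ (Set.range fun w : List ι => (w.map s).prod Ω)) :
    s i x ∈ Submodule.span ℂ (Set.range fun w : List ι => (w.map s).prod Ω) := by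
  induction hx using Submodule.span_induction with
  | mem x hx =>
    obtain ⟨v, rfl⟩ := hx
    refine Submodule.subset_span ⟨i :: v, ?_⟩
    change ((i :: v).map s).prod Ω = s i ((v.map s).prod Ω)
    rw [List.map_cons, List.prod_cons]
    rfl
  | zero =>
    rw [map_zero]
    exact Submodule.zero_mem _
  | add x y _ _ hx hy =>
    rw [map_add]
    exact Submodule.add_mem _ hx hy
  | smul c x _ hx =>
    rw [map_smul]
    exact Submodule.smul_mem _ c hx

theorem j15224_mem (h : J15224D e l r) : ∀ (n : ℕ) (w : List ι), w.length ≤ n →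
    e w ∈ Submodule.span ℂ
      (Set.range fun w : List ι => (w.map fun i => l i + star (l i)).prod (e [])) := by
  intro n
  induction n with
  | zero =>
    intro w hw
    have : w = [] := List.length_eq_zero_iff.1 (Nat.le_zero.1 hw)
    subst this
    exact Submodule.subset_span ⟨[], rfl⟩
  | succ n ih =>
    intro w hw
    cases w with
    | nil => exact Submodule.subset_span ⟨[], rfl⟩
    | cons i w =>
      have hw' : w.length ≤ n := Nat.le_of_succ_le_succ hw
      have h1 := ih w hw'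
      have h2 := j15224_stab (fun i => l i + star (l i)) (e []) i h1
      have h3 : (star (l i)) (e w) ∈ Submodule.span ℂ
          (Set.range fun w : List ι => (w.map fun i => l i + star (l i)).prod (e [])) := by
        cases w with
        | nil =>
          rw [j15224_lnil h]
          exact Submodule.zero_mem _
        | cons j w =>
          rw [j15224_lcons h]
          split_ifs
          · exact ih w ((Nat.le_succ _).trans hw')
          · exact Submodule.zero_mem _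
      have h4 : e (i :: w) = (l i + star (l i)) (e w) - (star (l i)) (e w) := by
        rw [ContinuousLinearMap.add_apply, h.l1, add_sub_cancel_right]
      rw [h4]
      exact Submodule.sub_mem _ h2 h3

theorem j15224_norm {a : H →L[ℂ] H} (ha : ∀ ξ, ‖a ξ‖ = ‖ξ‖) : ‖a‖ ≤ 1 :=
  ContinuousLinearMap.opNorm_le_bound _ zero_le_one (fun ξ => by rw [ha ξ, one_mul])

theorem j15224_main (h : J15224D e l r)
    (he : (Submodule.span ℂ (Set.range e)).topologicalClosure = ⊤) (hn : ‖e []‖ = 1)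
    (ho : ∀ w, ⟪e [], e w⟫_ℂ = if w = [] then 1 else 0) : Nonempty (FS ι H) := by
  have hra : ∀ i j (ξ : H), (star (r i)) ((l j + star (l j)) ξ) =
      (l j + star (l j)) ((star (r i)) ξ) +
        (if j = i then ⟪e [], ξ⟫_ℂ • e [] else 0) := by
    intro i j ξ
    by_cases hij : j = i
    · simp only [if_pos hij]
      have := j15224_ext he (A := star (r i) * (l j + star (l j)))
        (B := (l j + star (l j)) * star (r i) + (innerSL ℂ (e [])).smulRight (e [])) (by
          intro w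
          rw [ContinuousLinearMap.mul_apply, ContinuousLinearMap.add_apply,
            ContinuousLinearMap.add_apply, ContinuousLinearMap.mul_apply,
            ContinuousLinearMap.add_apply, j15224_R1 h, if_pos hij,
            ContinuousLinearMap.smulRight_apply, innerSL_apply_apply, ho w]
          congr 1
          split_ifs
          · rw [one_smul]
          · rw [zero_smul])
      have h2 := congrArg (fun T : H →L[ℂ] H => T ξ) this
      simpa [ContinuousLinearMap.smulRight_apply] using h2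
    · simp only [if_neg hij, add_zero]
      have := j15224_ext he (A := star (r i) * (l j + star (l j)))
        (B := (l j + star (l j)) * star (r i)) (by
          intro w
          rw [ContinuousLinearMap.mul_apply, ContinuousLinearMap.add_apply,
            ContinuousLinearMap.mul_apply,
            ContinuousLinearMap.add_apply, j15224_R1 h, if_neg hij, add_zero])
      exact congrArg (fun T : H →L[ℂ] H => T ξ) this
  refine ⟨{ s := fun i => l i + star (l i)
            d := fun i => star (r i) + r i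
            ra := fun i => star (r i)
            Ω := e []
            s_sa := ?_
            d_eq := ?_
            comm := ?_
            sΩ := ?_
            norm_Ω := hn
            norm_s := ?_
            norm_d := ?_
            raΩ := fun i => j15224_rnil h i
            ra_s := ?_
            ra_s_self := ?_
            cyclic := ?_ }⟩
  · intro i
    exact IsSelfAdjoint.add_star_self (l i)
  · intro i
    rw [star_star]
  · intro i j
    refine j15224_ext he fun w => ?_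
    have e1 := j15224_R1 h i j w
    have e2 := j15224_R2 h i j w
    rw [ContinuousLinearMap.mul_apply, ContinuousLinearMap.mul_apply,
      ContinuousLinearMap.add_apply, ContinuousLinearMap.add_apply,
      ContinuousLinearMap.add_apply, ContinuousLinearMap.add_apply, map_add, map_add]
    have e3 : l i ((star (r j)) (e w)) + l i (r j (e w)) +
        ((star (l i)) ((star (r j)) (e w)) + (star (l i)) (r j (e w))) =
        (l i ((star (r j)) (e w)) + (star (l i)) ((star (r j)) (e w))) +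
        (l i (r j (e w)) + (star (l i)) (r j (e w))) := by abel
    rw [e3, e2, e1]
    abel
  · intro i
    rw [ContinuousLinearMap.add_apply, ContinuousLinearMap.add_apply, h.l1, h.r1,
      j15224_lnil h, j15224_rnil h, add_zero, zero_add, List.nil_append]
  · intro i
    have h1 := j15224_norm (h.l4 i)
    calc ‖l i + star (l i)‖ ≤ ‖l i‖ + ‖star (l i)‖ := norm_add_le _ _
      _ = ‖l i‖ + ‖l i‖ := by rw [norm_star]
      _ ≤ 2 := by linarith
  · intro i
    have h1 := j15224_norm (h.r4 i)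
    calc ‖star (r i) + r i‖ ≤ ‖star (r i)‖ + ‖r i‖ := norm_add_le _ _
      _ = ‖r i‖ + ‖r i‖ := by rw [norm_star]
      _ ≤ 2 := by linarith
  · intro i j hij
    ext ξ
    have := hra i j ξ
    rw [if_neg (Ne.symm hij), add_zero] at this
    exact this
  · intro i ξ
    have := hra i i ξ
    rw [if_pos rfl] at this
    exact this
  · refine top_le_iff.1 ?_
    rw [← he]
    refine Submodule.topologicalClosure_mono ?_
    rw [Submodule.span_le]
    rintro _ ⟨w, rfl⟩
    exact j15224_mem h w.length w le_rfl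

end j15224

/-- the full Fock space is a free semicircular system -/
theorem exists_FS_of {ι : Type} [DecidableEq ι]
    (hV : ∀ (f : List ι → List ι), Function.Injective f →
      ∃ V : (lp (fun _ : List ι => ℂ) 2) →L[ℂ] (lp (fun _ : List ι => ℂ) 2),
      (∀ w, V (lp.single 2 w (1 : ℂ)) = lp.single 2 (f w) (1 : ℂ)) ∧
      (∀ w, (star V) (lp.single 2 (f w) (1 : ℂ)) = lp.single 2 w (1 : ℂ)) ∧
      (∀ v, v ∉ Set.range f → (star V) (lp.single 2 v (1 : ℂ)) = 0) ∧
      (∀ ξ, ‖V ξ‖ = ‖ξ‖)) :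
    Nonempty (FS ι (lp (fun _ : List ι => ℂ) 2)) := by
  choose l hl1 hl2 hl3 hl4 using fun i : ι => hV (fun w => i :: w)
    (fun a b hab => (List.cons.inj hab).2)
  choose r hr1 hr2 hr3 hr4 using fun i : ι => hV (fun w => w ++ [i])
    (fun a b hab => (List.append_left_inj [i]).1 hab)
  have hD : J15224D (fun w : List ι => (lp.single 2 w (1 : ℂ) : lp (fun _ : List ι => ℂ) 2))
      l r := ⟨hl1, hl2, hl3, hl4, hr1, hr2, hr3, hr4⟩
  refine j15224_main hD ?_ ?_ ?_
  · set b : HilbertBasis (List ι) ℂ (lp (fun _ : List ι => ℂ) 2) :=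
      HilbertBasis.ofRepr (LinearIsometryEquiv.refl ℂ _) with hb
    have h1 := b.dense_span
    have h2 : (fun w : List ι => (lp.single 2 w (1 : ℂ) : lp (fun _ : List ι => ℂ) 2)) = b := by
      funext w
      exact b.repr_symm_single w
    rw [h2]
    exact h1
  · change ‖(lp.single 2 [] (1 : ℂ) : lp (fun _ : List ι => ℂ) 2)‖ = 1
    rw [lp.norm_single (by norm_num), norm_one]
  · intro w
    rw [lp.inner_single_left]
    by_cases hw : w = []
    · subst hw
      rw [if_pos rfl, lp.single_apply_self]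
      simp
    · rw [if_neg hw, lp.single_apply_ne _ _ _ (Ne.symm hw), inner_zero_right]

end E1B

section E2

variable {H : Type} [NormedAddCommGroup H] [InnerProductSpace ℂ H] [CompleteSpace H]


theorem h15231_wd_comm {ι : Type} (S : FS ι H) (a : H →L[ℂ] H)
    (ha : ∀ i, a * S.d i = S.d i * a) (w : List ι) :
    a * (w.map S.d).prod = (w.map S.d).prod * a := by
  induction w with
  | nil => simp
  | cons i w ih =>
    rw [List.map_cons, List.prod_cons, ← mul_assoc, ha, mul_assoc, ih, mul_assoc]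

theorem h15231_d_star {ι : Type} (S : FS ι H) (i : ι) : star (S.d i) = S.d i := by
  rw [S.d_eq, star_add, star_star, add_comm]

theorem h15231_star_ws {ι : Type} (S : FS ι H) (w : List ι) :
    star ((w.map S.s).prod) = (w.reverse.map S.s).prod := by
  induction w with
  | nil => simp
  | cons i w ih =>
    rw [List.map_cons, List.prod_cons, star_mul, ih, (S.s_sa i).star_eq, List.reverse_cons,
      List.map_append, List.prod_append]
    simp

theorem h15231_star_wd {ι : Type} (S : FS ι H) (w : List ι) :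
    star ((w.map S.d).prod) = (w.reverse.map S.d).prod := by
  induction w with
  | nil => simp
  | cons i w ih =>
    rw [List.map_cons, List.prod_cons, star_mul, ih, h15231_d_star, List.reverse_cons,
      List.map_append, List.prod_append]
    simp

theorem h15231_ws_wd {ι : Type} (S : FS ι H) (w : List ι) :
    (w.map S.s).prod S.Ω = (w.reverse.map S.d).prod S.Ω := by
  induction w with
  | nil => simp
  | cons i w ih =>
    have h1 := h15231_wd_comm S (S.s i) (fun j => S.comm i j) w.reverse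
    have h2 : (S.s i) ((w.reverse.map S.d).prod S.Ω) = (w.reverse.map S.d).prod (S.s i S.Ω) := by
      have := congrArg (fun T : H →L[ℂ] H => T S.Ω) h1
      simpa using this
    have h3 : (S.s i * (List.map S.s w).prod) S.Ω = S.s i ((List.map S.s w).prod S.Ω) := rfl
    rw [List.map_cons, List.prod_cons, h3, ih, h2, S.sΩ,
      List.reverse_cons, List.map_append, List.prod_append]
    simp

theorem h15231_T0 {ι : Type} (S : FS ι H) (a : H →L[ℂ] H)
    (ha : ∀ i, a * S.d i = S.d i * a) (w : List ι) :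
    ⟪(star a) S.Ω, (w.map S.s).prod S.Ω⟫_ℂ = ⟪(star ((w.map S.s).prod)) S.Ω, a S.Ω⟫_ℂ := by
  have hsa : ∀ i, star a * S.d i = S.d i * star a := by
    intro i
    have h1 := congrArg star (ha i)
    rw [star_mul, star_mul, h15231_d_star] at h1
    exact h1.symm
  have h1 : ((w.map S.d).prod) ((star a) S.Ω) = (star a) ((w.map S.d).prod S.Ω) := by
    have h2 := h15231_wd_comm S (star a) hsa w
    have := congrArg (fun T : H →L[ℂ] H => T S.Ω) h2
    simpa using this.symm
  have h3 : star ((w.reverse.map S.d).prod) = (w.map S.d).prod := by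
    rw [h15231_star_wd, List.reverse_reverse]
  calc ⟪(star a) S.Ω, (w.map S.s).prod S.Ω⟫_ℂ
      = ⟪(star a) S.Ω, (w.reverse.map S.d).prod S.Ω⟫_ℂ := by rw [h15231_ws_wd]
    _ = ⟪(star ((w.reverse.map S.d).prod)) ((star a) S.Ω), S.Ω⟫_ℂ := by
        rw [ContinuousLinearMap.star_eq_adjoint ((w.reverse.map S.d).prod),
          ContinuousLinearMap.adjoint_inner_left]
    _ = ⟪(star a) ((w.map S.d).prod S.Ω), S.Ω⟫_ℂ := by rw [h3, h1]
    _ = ⟪(w.map S.d).prod S.Ω, a S.Ω⟫_ℂ := by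
        rw [ContinuousLinearMap.star_eq_adjoint a, ContinuousLinearMap.adjoint_inner_left]
    _ = ⟪(star ((w.map S.s).prod)) S.Ω, a S.Ω⟫_ℂ := by
        rw [h15231_star_ws, h15231_ws_wd, List.reverse_reverse]

/-- polynomials -/
noncomputable def h15231_P {ι : Type} (S : FS ι H) : Submodule ℂ (H →L[ℂ] H) :=
  Submodule.span ℂ (Set.range fun w : List ι => (w.map S.s).prod)

theorem h15231_P_star {ι : Type} (S : FS ι H) (p : H →L[ℂ] H) (hp : p ∈ h15231_P S) :
    star p ∈ h15231_P S := by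
  induction hp using Submodule.span_induction with
  | mem x hx =>
    obtain ⟨w, rfl⟩ := hx
    simp only
    rw [h15231_star_ws]
    exact Submodule.subset_span ⟨w.reverse, rfl⟩
  | zero => rw [star_zero]; exact Submodule.zero_mem _
  | add x y _ _ h1 h2 => rw [star_add]; exact Submodule.add_mem _ h1 h2
  | smul c x _ h1 => rw [star_smul]; exact Submodule.smul_mem _ _ h1

theorem h15231_P_comm {ι : Type} (S : FS ι H) (p : H →L[ℂ] H) (hp : p ∈ h15231_P S) (i : ι) :
    p * S.d i = S.d i * p := by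
  induction hp using Submodule.span_induction with
  | mem x hx =>
    obtain ⟨w, rfl⟩ := hx
    simp only
    induction w with
    | nil => simp
    | cons j w ih =>
      rw [List.map_cons, List.prod_cons, mul_assoc, ih, ← mul_assoc, S.comm, mul_assoc]
  | zero => rw [zero_mul, mul_zero]
  | add x y _ _ h1 h2 => rw [add_mul, mul_add, h1, h2]
  | smul c x _ h1 => rw [smul_mul_assoc, mul_smul_comm, h1]

theorem h15231_T1 {ι : Type} (S : FS ι H) (a : H →L[ℂ] H)
    (ha : ∀ i, a * S.d i = S.d i * a) (p : H →L[ℂ] H) (hp : p ∈ h15231_P S) :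
    ⟪(star a) S.Ω, p S.Ω⟫_ℂ = ⟪(star p) S.Ω, a S.Ω⟫_ℂ := by
  induction hp using Submodule.span_induction with
  | mem x hx =>
    obtain ⟨w, rfl⟩ := hx
    exact h15231_T0 S a ha w
  | zero => simp
  | add x y _ _ h1 h2 =>
    rw [star_add, ContinuousLinearMap.add_apply, ContinuousLinearMap.add_apply, inner_add_right,
      inner_add_left, h1, h2]
  | smul c x _ h1 =>
    rw [star_smul, ContinuousLinearMap.smul_apply, ContinuousLinearMap.smul_apply,
      inner_smul_right, inner_smul_left, h1]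
    simp

theorem h15231_norm {ι : Type} (S : FS ι H) (p : H →L[ℂ] H) (hp : p ∈ h15231_P S) :
    ‖(star p) S.Ω‖ = ‖p S.Ω‖ := by
  have h1 := h15231_T1 S (star p) (h15231_P_comm S _ (h15231_P_star S p hp)) p hp
  rw [star_star] at h1
  have h3 : ‖p S.Ω‖ ^ 2 = ‖(star p) S.Ω‖ ^ 2 := by
    rw [← inner_self_eq_norm_sq (𝕜 := ℂ), ← inner_self_eq_norm_sq (𝕜 := ℂ), h1]
  exact ((sq_eq_sq₀ (norm_nonneg _) (norm_nonneg _)).mp h3).symm

theorem h15231_span {ι : Type} (S : FS ι H) (y : H)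
    (hy : y ∈ Submodule.span ℂ (Set.range fun w : List ι => (w.map S.s).prod S.Ω)) :
    ∃ p ∈ h15231_P S, p S.Ω = y := by
  induction hy using Submodule.span_induction with
  | mem z hz =>
    obtain ⟨w, rfl⟩ := hz
    exact ⟨_, Submodule.subset_span ⟨w, rfl⟩, rfl⟩
  | zero => exact ⟨0, Submodule.zero_mem _, by simp⟩
  | add z z' _ _ h1 h2 =>
    obtain ⟨p, hp, hp2⟩ := h1
    obtain ⟨q, hq, hq2⟩ := h2
    exact ⟨p + q, Submodule.add_mem _ hp hq, by rw [← hp2, ← hq2]; rfl⟩
  | smul c z _ h1 =>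
    obtain ⟨p, hp, hp2⟩ := h1
    exact ⟨c • p, Submodule.smul_mem _ _ hp, by rw [← hp2]; rfl⟩

theorem h15231_dense {ι : Type} (S : FS ι H) (x : H) (ε : ℝ) (hε : 0 < ε) :
    ∃ p ∈ h15231_P S, ‖p S.Ω - x‖ < ε := by
  have h1 : x ∈ (Submodule.span ℂ
      (Set.range fun w : List ι => (w.map S.s).prod S.Ω)).topologicalClosure := by
    rw [S.cyclic]; trivial
  rw [← SetLike.mem_coe, Submodule.topologicalClosure_coe, Metric.mem_closure_iff] at h1
  obtain ⟨y, hy, hy2⟩ := h1 ε hε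
  obtain ⟨p, hp, hpy⟩ := h15231_span S y hy
  refine ⟨p, hp, ?_⟩
  rw [hpy, ← dist_eq_norm, dist_comm]
  exact hy2

/-- a vector whose pairing with all `q Ω` is small is small -/
theorem h15231_small {ι : Type} (S : FS ι H) (x : H) (ε : ℝ) (hε : 0 ≤ ε)
    (h : ∀ q ∈ h15231_P S, ‖⟪q S.Ω, x⟫_ℂ‖ ≤ ε * ‖q S.Ω‖) : ‖x‖ ≤ ε := by
  by_contra hlt
  push Not at hlt
  set δ := ‖x‖ - ε with hδ
  have hδ0 : 0 < δ := by rw [hδ]; linarith
  have hx0 : 0 < ‖x‖ := lt_of_le_of_lt hε hlt
  -- choose q with ‖q Ω - x‖ < η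
  obtain ⟨q, hq, hqx⟩ := h15231_dense S x (δ / 4) (by linarith)
  have h1 := h q hq
  have h2 : ‖q S.Ω‖ ≤ ‖x‖ + δ / 4 := by
    calc ‖q S.Ω‖ = ‖x + (q S.Ω - x)‖ := by congr 1; abel
      _ ≤ ‖x‖ + ‖q S.Ω - x‖ := norm_add_le _ _
      _ ≤ _ := by linarith
  have h3 : ‖x‖ ^ 2 ≤ ‖⟪q S.Ω, x⟫_ℂ‖ + δ / 4 * ‖x‖ := by
    have h4 : ⟪x, x⟫_ℂ = ⟪q S.Ω, x⟫_ℂ - ⟪q S.Ω - x, x⟫_ℂ := by
      rw [inner_sub_left]; ring
    have h5 : ‖⟪x, x⟫_ℂ‖ = ‖x‖ ^ 2 := by
      rw [inner_self_eq_norm_sq_to_K]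
      simp
    rw [← h5, h4]
    refine (norm_sub_le _ _).trans ?_
    have h6 : ‖⟪q S.Ω - x, x⟫_ℂ‖ ≤ δ / 4 * ‖x‖ :=
      (norm_inner_le_norm _ _).trans (mul_le_mul_of_nonneg_right hqx.le (norm_nonneg _))
    linarith
  have h7 : ‖x‖ ^ 2 ≤ ε * (‖x‖ + δ / 4) + δ / 4 * ‖x‖ := by
    have := mul_le_mul_of_nonneg_left h2 hε
    linarith
  have h8 : ε = ‖x‖ - δ := by rw [hδ]; ring
  rw [h8] at h7
  nlinarith

theorem h15231_trace {ι : Type} (S : FS ι H) (a b : H →L[ℂ] H)
    (ha : ∀ i, a * S.d i = S.d i * a) (hb : ∀ i, b * S.d i = S.d i * b) :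
    ⟪(star a) S.Ω, b S.Ω⟫_ℂ = ⟪(star b) S.Ω, a S.Ω⟫_ℂ := by
  have hsb : ∀ i, star b * S.d i = S.d i * star b := by
    intro i
    have h1 := congrArg star (hb i)
    rw [star_mul, star_mul, h15231_d_star] at h1
    exact h1.symm
  rw [← sub_eq_zero]
  have key : ∀ ε : ℝ, 0 < ε →
      ‖⟪(star a) S.Ω, b S.Ω⟫_ℂ - ⟪(star b) S.Ω, a S.Ω⟫_ℂ‖
        ≤ ε * (‖(star a) S.Ω‖ + ‖a S.Ω‖) := by
    intro ε hε
    obtain ⟨p, hp, hpb⟩ := h15231_dense S (b S.Ω) ε hε
    have hps : ‖(star p) S.Ω - (star b) S.Ω‖ ≤ ε := by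
      apply h15231_small S _ ε hε.le
      intro q hq
      have hq' := h15231_P_star S q hq
      have h1 : ⟪q S.Ω, (star p) S.Ω - (star b) S.Ω⟫_ℂ
          = ⟪p S.Ω - b S.Ω, (star q) S.Ω⟫_ℂ := by
        have h2 := h15231_T1 S (star p) (h15231_P_comm S _ (h15231_P_star S p hp)) (star q) hq'
        have h3 := h15231_T1 S (star b) hsb (star q) hq'
        rw [star_star, star_star] at h2 h3
        rw [inner_sub_right, inner_sub_left, h2, h3]
      rw [h1]
      refine (norm_inner_le_norm _ _).trans ?_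
      rw [h15231_norm S q hq]
      exact mul_le_mul_of_nonneg_right hpb.le (norm_nonneg _)
    have h4 := h15231_T1 S a ha p hp
    have h5 : ⟪(star a) S.Ω, b S.Ω⟫_ℂ - ⟪(star b) S.Ω, a S.Ω⟫_ℂ
        = -⟪(star a) S.Ω, p S.Ω - b S.Ω⟫_ℂ + ⟪(star p) S.Ω - (star b) S.Ω, a S.Ω⟫_ℂ := by
      rw [inner_sub_right, inner_sub_left, h4]
      ring
    rw [h5]
    refine (norm_add_le _ _).trans ?_
    rw [norm_neg]
    have h6 : ‖⟪(star a) S.Ω, p S.Ω - b S.Ω⟫_ℂ‖ ≤ ‖(star a) S.Ω‖ * ε :=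
      (norm_inner_le_norm _ _).trans (mul_le_mul_of_nonneg_left hpb.le (norm_nonneg _))
    have h7 : ‖⟪(star p) S.Ω - (star b) S.Ω, a S.Ω⟫_ℂ‖ ≤ ε * ‖a S.Ω‖ :=
      (norm_inner_le_norm _ _).trans (mul_le_mul_of_nonneg_right hps (norm_nonneg _))
    linarith
  set C := ‖(star a) S.Ω‖ + ‖a S.Ω‖ with hC
  have hC0 : 0 ≤ C := add_nonneg (norm_nonneg _) (norm_nonneg _)
  by_contra hne
  have hpos : 0 < ‖⟪(star a) S.Ω, b S.Ω⟫_ℂ - ⟪(star b) S.Ω, a S.Ω⟫_ℂ‖ := norm_pos_iff.mpr hne
  set D := ‖⟪(star a) S.Ω, b S.Ω⟫_ℂ - ⟪(star b) S.Ω, a S.Ω⟫_ℂ‖ with hD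
  have h8 := key (D / (2 * (C + 1))) (by positivity)
  have h9 : D / (2 * (C + 1)) * C < D := by
    rw [div_mul_eq_mul_div, div_lt_iff₀ (by positivity)]
    nlinarith
  linarith

/-- the commutant of the right semicirculars is a tracial von Neumann algebra -/
theorem FS.exists_vN {ι : Type} (S : FS ι H) : ∃ M : VonNeumannAlgebra H,
    TracialSpace M S.Ω ∧ ∀ a : H →L[ℂ] H, a ∈ M ↔ ∀ i, a * S.d i = S.d i * a := by
  let M : VonNeumannAlgebra H :=
    { toStarSubalgebra := StarSubalgebra.centralizer ℂ (Set.range S.d)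
      centralizer_centralizer' := by
        show Set.centralizer (Set.centralizer
          ((StarSubalgebra.centralizer ℂ (Set.range S.d) : StarSubalgebra ℂ (H →L[ℂ] H)) :
            Set (H →L[ℂ] H))) = ((StarSubalgebra.centralizer ℂ (Set.range S.d) :
              StarSubalgebra ℂ (H →L[ℂ] H)) : Set (H →L[ℂ] H))
        rw [StarSubalgebra.coe_centralizer]
        exact Set.centralizer_centralizer_centralizer _ }
  have hM : ∀ a : H →L[ℂ] H, a ∈ M ↔ ∀ i, a * S.d i = S.d i * a := by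
    intro a
    have h1 : a ∈ M ↔ a ∈ StarSubalgebra.centralizer ℂ (Set.range S.d) := Iff.rfl
    rw [h1, StarSubalgebra.mem_centralizer_iff]
    constructor
    · intro h i
      exact ((h (S.d i) ⟨i, rfl⟩).1).symm
    · rintro h _ ⟨i, rfl⟩
      refine ⟨(h i).symm, ?_⟩
      rw [h15231_d_star]
      exact (h i).symm
  refine ⟨M, ⟨S.norm_Ω, ?_, ?_⟩, hM⟩
  · intro a ha b hb
    have h1 := h15231_trace S a b ((hM a).mp ha) ((hM b).mp hb)
    have h2 : ∀ a b : H →L[ℂ] H, ⟪S.Ω, (a * b) S.Ω⟫_ℂ = ⟪(star a) S.Ω, b S.Ω⟫_ℂ := by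
      intro a b
      rw [ContinuousLinearMap.star_eq_adjoint a, ContinuousLinearMap.adjoint_inner_left]
      rfl
    rw [h2, h2, h1]
  · intro a ha h0
    have ha' := (hM a).mp ha
    have h1 : a S.Ω = 0 := by
      have h2 : ⟪S.Ω, (star a * a) S.Ω⟫_ℂ = ⟪a S.Ω, a S.Ω⟫_ℂ := by
        have h3 : (star a * a) S.Ω = (star a) (a S.Ω) := rfl
        rw [h3, ContinuousLinearMap.star_eq_adjoint a, ContinuousLinearMap.adjoint_inner_right]
      rw [h2] at h0
      exact inner_self_eq_zero.mp h0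
    have h2 : ∀ w : List ι, a ((w.map S.s).prod S.Ω) = 0 := by
      intro w
      rw [h15231_ws_wd]
      have h3 := h15231_wd_comm S a ha' w.reverse
      have h4 : a ((w.reverse.map S.d).prod S.Ω) = (w.reverse.map S.d).prod (a S.Ω) := by
        have := congrArg (fun T : H →L[ℂ] H => T S.Ω) h3
        simpa using this
      rw [h4, h1, map_zero]
    have h3 : (Submodule.span ℂ (Set.range fun w : List ι => (w.map S.s).prod S.Ω)) ≤
        LinearMap.ker (a : H →ₗ[ℂ] H) := by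
      rw [Submodule.span_le]
      rintro _ ⟨w, rfl⟩
      exact h2 w
    have h4 : (Submodule.span ℂ
        (Set.range fun w : List ι => (w.map S.s).prod S.Ω)).topologicalClosure ≤
        LinearMap.ker (a : H →ₗ[ℂ] H) :=
      Submodule.topologicalClosure_minimal _ h3 a.isClosed_ker
    rw [S.cyclic] at h4
    ext x
    exact h4 (Submodule.mem_top : x ∈ (⊤ : Submodule ℂ H))

end E2

section E6

variable {H : Type} [NormedAddCommGroup H] [InnerProductSpace ℂ H] [CompleteSpace H]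


/-- moments of a free semicircular family, by the Schwinger-Dyson recursion -/
noncomputable def mom {ι : Type} [DecidableEq ι] : List ι → ℂ
  | [] => 1
  | i :: w => ∑ k : Fin w.length,
      if w[k]'(k.2) = i then mom (w.take k) * mom (w.drop (k + 1)) else 0
termination_by w => w.length
decreasing_by
  all_goals simp_wf

/-- combination of the left semicirculars -/
noncomputable def FS.sg {ι κ : Type} [Fintype ι] (S : FS ι H) (c : κ → ι → ℝ) (k : κ) : H →L[ℂ] H :=
  ∑ i, ((c k i : ℝ) : ℂ) • S.s i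

/-- combination of the right annihilation operators -/
noncomputable def FS.rh {ι κ : Type} [Fintype ι] (S : FS ι H) (c : κ → ι → ℝ) (k : κ) : H →L[ℂ] H :=
  ∑ i, ((c k i : ℝ) : ℂ) • S.ra i

theorem FS.rh_vac {ι κ : Type} [Fintype ι] (S : FS ι H) (c : κ → ι → ℝ) (k : κ) :
    S.rh c k S.Ω = 0 := by
  unfold FS.rh
  rw [ContinuousLinearMap.sum_apply]
  refine Finset.sum_eq_zero fun i _ => ?_
  rw [ContinuousLinearMap.smul_apply, S.raΩ, smul_zero]

theorem FS.ra_s_all {ι : Type} [DecidableEq ι] (S : FS ι H) (i j : ι) (ξ : H) :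
    S.ra i (S.s j ξ) = S.s j (S.ra i ξ) + (if i = j then ⟪S.Ω, ξ⟫_ℂ • S.Ω else 0) := by
  by_cases h : i = j
  · subst h
    rw [if_pos rfl]
    exact S.ra_s_self i ξ
  · rw [if_neg h, add_zero]
    have := congrArg (fun T : H →L[ℂ] H => T ξ) (S.ra_s i j h)
    exact this

theorem FS.rh_sg {ι κ : Type} [Fintype ι] [DecidableEq κ] (S : FS ι H) (c : κ → ι → ℝ)
    (hc : ∀ k l, ∑ i, c k i * c l i = if k = l then 1 else 0) (k l : κ) (ξ : H) :
    S.rh c k (S.sg c l ξ) = S.sg c l (S.rh c k ξ) + (if l = k then ⟪S.Ω, ξ⟫_ℂ else 0) • S.Ω := by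
  classical
  have h1 : S.rh c k (S.sg c l ξ) =
      ∑ i, ∑ j, (((c k i : ℝ) : ℂ) * ((c l j : ℝ) : ℂ)) • S.ra i (S.s j ξ) := by
    unfold FS.rh FS.sg
    simp only [ContinuousLinearMap.sum_apply, ContinuousLinearMap.smul_apply, map_sum, map_smul,
      Finset.smul_sum, smul_smul]
    rw [Finset.sum_comm]
    refine Finset.sum_congr rfl fun i _ => Finset.sum_congr rfl fun j _ => ?_
    rw [mul_comm]
  have h2 : S.sg c l (S.rh c k ξ) =
      ∑ i, ∑ j, (((c k i : ℝ) : ℂ) * ((c l j : ℝ) : ℂ)) • S.s j (S.ra i ξ) := by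
    unfold FS.rh FS.sg
    simp only [ContinuousLinearMap.sum_apply, ContinuousLinearMap.smul_apply, map_sum, map_smul,
      Finset.smul_sum, smul_smul]
  have h3 : (if l = k then ⟪S.Ω, ξ⟫_ℂ else 0) =
      ∑ i, (((c k i : ℝ) : ℂ) * ((c l i : ℝ) : ℂ)) * ⟪S.Ω, ξ⟫_ℂ := by
    rw [← Finset.sum_mul]
    have h4 : ∑ i, (((c k i : ℝ) : ℂ) * ((c l i : ℝ) : ℂ)) = if k = l then 1 else 0 := by
      have := congrArg (fun x : ℝ => (x : ℂ)) (hc k l)
      push_cast at this
      rw [this]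
      by_cases h : k = l
      · rw [if_pos h, if_pos h, Complex.ofReal_one]
      · rw [if_neg h, if_neg h, Complex.ofReal_zero]
    rw [h4]
    by_cases h : k = l
    · rw [if_pos h, if_pos h.symm, one_mul]
    · rw [if_neg h, if_neg (fun h' => h h'.symm), zero_mul]
  rw [h1, h2, h3, Finset.sum_smul, ← Finset.sum_add_distrib]
  refine Finset.sum_congr rfl fun i _ => ?_
  have h5 : (((c k i : ℝ) : ℂ) * ((c l i : ℝ) : ℂ) * ⟪S.Ω, ξ⟫_ℂ) • S.Ω =
      ∑ j, (((c k i : ℝ) : ℂ) * ((c l j : ℝ) : ℂ)) • (if i = j then ⟪S.Ω, ξ⟫_ℂ • S.Ω else 0) := by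
    rw [Finset.sum_eq_single i]
    · rw [if_pos rfl, smul_smul]
    · intro j _ hj
      rw [if_neg (fun h => hj h.symm), smul_zero]
    · intro h
      exact absurd (Finset.mem_univ i) h
  rw [h5, ← Finset.sum_add_distrib]
  refine Finset.sum_congr rfl fun j _ => ?_
  rw [S.ra_s_all, smul_add]

theorem FS.sg_vac {ι κ : Type} [Fintype ι] (S : FS ι H) (c : κ → ι → ℝ) (k : κ) :
    S.sg c k S.Ω = star (S.rh c k) S.Ω := by
  unfold FS.sg FS.rh
  rw [star_sum, ContinuousLinearMap.sum_apply, ContinuousLinearMap.sum_apply]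
  refine Finset.sum_congr rfl fun i _ => ?_
  rw [star_smul, ContinuousLinearMap.smul_apply, ContinuousLinearMap.smul_apply, S.sΩ, S.d_eq,
    ContinuousLinearMap.add_apply, S.raΩ, zero_add]
  congr 1
  exact (Complex.conj_ofReal _).symm

theorem FS.sg_sa {ι κ : Type} [Fintype ι] (S : FS ι H) (c : κ → ι → ℝ) (k : κ) :
    star (S.sg c k) = S.sg c k := by
  unfold FS.sg
  rw [star_sum]
  refine Finset.sum_congr rfl fun i _ => ?_
  rw [star_smul, (S.s_sa i).star_eq]
  congr 1
  exact Complex.conj_ofReal _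

theorem FS.rh_word {ι κ : Type} [Fintype ι] [DecidableEq κ] (S : FS ι H) (c : κ → ι → ℝ)
    (hc : ∀ k l, ∑ i, c k i * c l i = if k = l then 1 else 0) (k : κ) (w : List κ) :
    S.rh c k ((w.map (S.sg c)).prod S.Ω) = ∑ p : Fin w.length,
      (if w[p]'(p.2) = k then tau S.Ω ((w.drop (p + 1)).map (S.sg c)).prod else 0) •
        ((w.take p).map (S.sg c)).prod S.Ω := by
  induction w with
  | nil => simp [S.rh_vac]
  | cons a w ih =>
    have h1 : ((a :: w).map (S.sg c)).prod S.Ω = S.sg c a ((w.map (S.sg c)).prod S.Ω) := by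
      rw [List.map_cons, List.prod_cons]; rfl
    rw [h1, S.rh_sg c hc, ih, map_sum]
    have h2 : (∑ p : Fin (a :: w).length,
      (if (a :: w)[p]'(p.2) = k then tau S.Ω (((a :: w).drop (p + 1)).map (S.sg c)).prod else 0) •
        (((a :: w).take p).map (S.sg c)).prod S.Ω) =
      (if a = k then tau S.Ω (w.map (S.sg c)).prod else 0) • S.Ω +
      ∑ p : Fin w.length,
      (if w[p]'(p.2) = k then tau S.Ω ((w.drop (p + 1)).map (S.sg c)).prod else 0) •
        S.sg c a (((w.take p).map (S.sg c)).prod S.Ω) := by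
      show (∑ p : Fin (w.length + 1),
        (if (a :: w)[p]'(p.2) = k then tau S.Ω (((a :: w).drop (p + 1)).map (S.sg c)).prod else 0) •
        (((a :: w).take p).map (S.sg c)).prod S.Ω) = _
      rw [Fin.sum_univ_succ]
      rfl
    rw [h2, add_comm]
    congr 1
    refine Finset.sum_congr rfl fun p _ => ?_
    rw [map_smul]

theorem FS.tau_cons {ι κ : Type} [Fintype ι] [DecidableEq κ] (S : FS ι H) (c : κ → ι → ℝ)
    (hc : ∀ k l, ∑ i, c k i * c l i = if k = l then 1 else 0) (k : κ) (w : List κ) :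
    tau S.Ω (((k :: w).map (S.sg c)).prod) = ∑ p : Fin w.length,
      (if w[p]'(p.2) = k then tau S.Ω ((w.take p).map (S.sg c)).prod *
        tau S.Ω ((w.drop (p + 1)).map (S.sg c)).prod else 0) := by
  have h1 : tau S.Ω (((k :: w).map (S.sg c)).prod) =
      ⟪S.Ω, S.rh c k ((w.map (S.sg c)).prod S.Ω)⟫_ℂ := by
    unfold tau
    rw [List.map_cons, List.prod_cons]
    show ⟪S.Ω, S.sg c k ((w.map (S.sg c)).prod S.Ω)⟫_ℂ = _
    have h2 : ∀ (T : H →L[ℂ] H) (x y : H), ⟪x, T y⟫_ℂ = ⟪(star T) x, y⟫_ℂ := by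
      intro T x y
      rw [ContinuousLinearMap.star_eq_adjoint, ContinuousLinearMap.adjoint_inner_left]
    rw [h2, S.sg_sa, S.sg_vac, ← h2]
  rw [h1, S.rh_word c hc, inner_sum]
  refine Finset.sum_congr rfl fun p _ => ?_
  rw [inner_smul_right]
  by_cases h : w[p]'(p.2) = k
  · rw [if_pos h, if_pos h, mul_comm]
    rfl
  · rw [if_neg h, if_neg h, zero_mul]

/-- orthonormal real combinations of the `s i` have the semicircular moments. -/
theorem FS.mom_comb {ι κ : Type} [Fintype ι] [DecidableEq κ] (S : FS ι H) (c : κ → ι → ℝ)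
    (hc : ∀ k l, ∑ i, c k i * c l i = if k = l then 1 else 0) (w : List κ) :
    tau S.Ω ((w.map fun k => ∑ i, ((c k i : ℝ) : ℂ) • S.s i).prod) = mom w := by
  show tau S.Ω ((w.map (S.sg c)).prod) = mom w
  obtain ⟨n, hn⟩ : ∃ n, w.length ≤ n := ⟨_, le_rfl⟩
  induction n generalizing w with
  | zero =>
    have : w = [] := List.eq_nil_of_length_eq_zero (by omega)
    subst this
    rw [mom, List.map_nil, List.prod_nil]
    unfold tau
    show ⟪S.Ω, S.Ω⟫_ℂ = 1
    rw [inner_self_eq_norm_sq_to_K, S.norm_Ω]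
    simp
  | succ n ih =>
    cases w with
    | nil => exact ih [] (by simp)
    | cons k w =>
      rw [S.tau_cons c hc, mom]
      refine Finset.sum_congr rfl fun p _ => ?_
      have hlen : w.length ≤ n := by simpa using hn
      by_cases h : w[p]'(p.2) = k
      · rw [if_pos h, if_pos h, ih _ (by rw [List.length_take]; omega),
          ih _ (by rw [List.length_drop]; omega)]
      · rw [if_neg h, if_neg h]

end E6

section E6b

variable {H : Type} [NormedAddCommGroup H] [InnerProductSpace ℂ H] [CompleteSpace H]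



theorem mom_replicate_rec {ι : Type} [DecidableEq ι] (i : ι) (n : ℕ) :
    mom (List.replicate (n + 1) i) = ∑ k ∈ Finset.range n,
      mom (List.replicate k i) * mom (List.replicate (n - (k + 1)) i) := by
  rw [List.replicate_succ, mom, Finset.sum_range]
  have hlen : (List.replicate n i).length = n := List.length_replicate
  rw [← Equiv.sum_comp (finCongr hlen.symm)]
  refine Finset.sum_congr rfl fun k _ => ?_
  have h1 : (finCongr hlen.symm k : ℕ) = k := rfl
  have h2 : (List.replicate n i)[finCongr hlen.symm k]'(finCongr hlen.symm k).2 = i := by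
    simp
  rw [if_pos h2, h1, List.take_replicate, List.drop_replicate]
  have h3 : min (k : ℕ) n = k := min_eq_left k.2.le
  rw [h3]

theorem mom_replicate_split (f : ℕ → ℂ) (k : ℕ) : ∑ j ∈ Finset.range (2 * k + 1), f j =
    ∑ l ∈ Finset.range (k + 1), f (2 * l) + ∑ l ∈ Finset.range k, f (2 * l + 1) := by
  induction k with
  | zero => simp
  | succ k ih =>
    have e : 2 * (k + 1) + 1 = (2 * k + 1) + 1 + 1 := by ring
    have e2 : 2 * k + 1 + 1 = 2 * (k + 1) := by ring
    rw [e, Finset.sum_range_succ, Finset.sum_range_succ, ih,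
      Finset.sum_range_succ (fun l => f (2 * l)) (k + 1),
      Finset.sum_range_succ (fun l => f (2 * l + 1)) k, e2]
    ring

/-- moments of one semicircular element -/
theorem mom_replicate {ι : Type} [DecidableEq ι] (i : ι) (k : ℕ) :
    mom (List.replicate (2 * k) i) = (catalan k : ℂ) ∧ mom (List.replicate (2 * k + 1) i) = 0 := by
  induction k using Nat.strong_induction_on with
  | _ k ih =>
    have heven : mom (List.replicate (2 * k) i) = (catalan k : ℂ) := by
      rcases k with _ | k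
      · simp [mom]
      · have e : 2 * (k + 1) = (2 * k + 1) + 1 := by ring
        rw [e, mom_replicate_rec, mom_replicate_split, catalan_succ]
        have hodd : ∑ l ∈ Finset.range k, mom (List.replicate (2 * l + 1) i) *
            mom (List.replicate (2 * k + 1 - (2 * l + 1 + 1)) i) = 0 := by
          refine Finset.sum_eq_zero fun l hl => ?_
          rw [Finset.mem_range] at hl
          rw [(ih l (by omega)).2, zero_mul]
        rw [hodd, add_zero]
        rw [← Fin.sum_univ_eq_sum_range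
          (fun l => mom (List.replicate (2 * l) i) *
            mom (List.replicate (2 * k + 1 - (2 * l + 1)) i)) (k + 1)]
        push_cast
        refine Finset.sum_congr rfl fun l _ => ?_
        have hl : (l : ℕ) < k + 1 := l.2
        have e2 : 2 * k - 2 * (l : ℕ) = 2 * (k - l) := by omega
        rw [e2, (ih l (by omega)).1, (ih (k - l) (by omega)).1]
    refine ⟨heven, ?_⟩
    rw [mom_replicate_rec]
    refine Finset.sum_eq_zero fun j hj => ?_
    rw [Finset.mem_range] at hj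
    rcases Nat.even_or_odd' j with ⟨l, hl | hl⟩
    · have e : 2 * k - (j + 1) = 2 * (k - l - 1) + 1 := by omega
      rw [e, (ih (k - l - 1) (by omega)).2, mul_zero]
    · rw [hl, (ih l (by omega)).2, zero_mul]

end E6b

section E3A

variable {H : Type} [NormedAddCommGroup H] [InnerProductSpace ℂ H] [CompleteSpace H]


/-- creation words: `Rv v = (ra_{v_n})* ⋯ (ra_{v_1})*` for `v = [v_1, …, v_n]` -/
noncomputable def FS.Rv {ι : Type} (S : FS ι H) : List ι → (H →L[ℂ] H)
  | [] => 1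
  | i :: v => S.Rv v * star (S.ra i)

section FG
variable {ι : Type} (S : FS ι H)

theorem FS.fg_Rv_cons (i : ι) (v : List ι) : S.Rv (i :: v) = S.Rv v * star (S.ra i) := rfl

theorem FS.fg_Rv_nil : S.Rv [] = 1 := rfl

theorem FS.fg_orth (i : ι) (ξ : H) : ⟪S.Ω, (star (S.ra i)) ξ⟫_ℂ = 0 := by
  rw [ContinuousLinearMap.star_eq_adjoint, ContinuousLinearMap.adjoint_inner_right, S.raΩ,
    inner_zero_left]

theorem FS.fg_s_symm (i : ι) (ξ η : H) : ⟪S.s i ξ, η⟫_ℂ = ⟪ξ, S.s i η⟫_ℂ := by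
  have h : ContinuousLinearMap.adjoint (S.s i) = S.s i := (S.s_sa i).adjoint_eq
  have h2 := ContinuousLinearMap.adjoint_inner_left (S.s i) η ξ
  rw [h] at h2
  exact h2

theorem FS.fg_comm_ne {i j : ι} (h : i ≠ j) :
    S.s j * star (S.ra i) = star (S.ra i) * S.s j := by
  have := congrArg star (S.ra_s i j h)
  rw [star_mul, star_mul, (S.s_sa j).star_eq] at this
  exact this

theorem FS.fg_self (i : ι) (η : H) : S.s i ((star (S.ra i)) η) =
    (star (S.ra i)) (S.s i η) + ⟪S.Ω, η⟫_ℂ • S.Ω := by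
  refine ext_inner_right ℂ fun ξ => ?_
  rw [S.fg_s_symm, ContinuousLinearMap.star_eq_adjoint, ContinuousLinearMap.adjoint_inner_left,
    S.ra_s_self, inner_add_right, inner_add_left, ContinuousLinearMap.adjoint_inner_left,
    S.fg_s_symm, inner_smul_right, inner_smul_left, inner_conj_symm]
  ring

theorem FS.fg_comm0 (j : ι) : ∀ (v : List ι) (η : H), ⟪S.Ω, η⟫_ℂ = 0 →
    S.s j (S.Rv v η) = S.Rv v (S.s j η)
  | [], η, _ => rfl
  | i :: v, η, h => by
    have h1 : S.s j (S.Rv v ((star (S.ra i)) η)) = S.Rv v (S.s j ((star (S.ra i)) η)) :=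
      FS.fg_comm0 j v _ (S.fg_orth i η)
    have h2 : S.s j ((star (S.ra i)) η) = (star (S.ra i)) (S.s j η) := by
      by_cases hij : i = j
      · subst hij
        rw [S.fg_self, h, zero_smul, add_zero]
      · exact congrArg (fun T : H →L[ℂ] H => T η) (S.fg_comm_ne hij)
    show S.s j (S.Rv v ((star (S.ra i)) η)) = S.Rv v ((star (S.ra i)) (S.s j η))
    rw [h1, h2]

theorem FS.fg_comm1 {i j : ι} (h : i ≠ j) (v : List ι) :
    S.s j * S.Rv (i :: v) = S.Rv (i :: v) * S.s j := by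
  ext η
  show S.s j (S.Rv v ((star (S.ra i)) η)) = S.Rv v ((star (S.ra i)) (S.s j η))
  rw [S.fg_comm0 j v _ (S.fg_orth i η)]
  congr 1
  exact congrArg (fun T : H →L[ℂ] H => T η) (S.fg_comm_ne h)

theorem FS.fg_sΩ (j : ι) : S.s j S.Ω = (star (S.ra j)) S.Ω := by
  rw [S.sΩ, S.d_eq]
  show S.ra j S.Ω + (star (S.ra j)) S.Ω = _
  rw [S.raΩ, zero_add]

theorem FS.fg_orthRv : ∀ (v : List ι) (η : H), v ≠ [] → ⟪S.Ω, S.Rv v η⟫_ℂ = 0
  | [], η, h => absurd rfl h
  | [i], η, _ => by
    show ⟪S.Ω, (star (S.ra i)) η⟫_ℂ = 0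
    exact S.fg_orth i η
  | i :: j :: v, η, _ => by
    show ⟪S.Ω, S.Rv (j :: v) ((star (S.ra i)) η)⟫_ℂ = 0
    exact FS.fg_orthRv (j :: v) _ (by simp)

theorem FS.fg_append (w v : List ι) : S.Rv (w ++ v) = S.Rv v * S.Rv w := by
  induction w with
  | nil => rw [List.nil_append, S.fg_Rv_nil, mul_one]
  | cons i w ih => rw [List.cons_append, S.fg_Rv_cons, ih, S.fg_Rv_cons, mul_assoc]

variable {K : Type} (c : ι → K)

/-- span of the words in group `k` -/
def FS.fgY (k : K) : Submodule ℂ H :=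
  Submodule.span ℂ {x | ∃ v : List ι, (∀ i ∈ v, c i = k) ∧ x = S.Rv v S.Ω}

/-- span of the nonempty words in group `k` -/
def FS.fgZ (k : K) : Submodule ℂ H :=
  Submodule.span ℂ {x | ∃ v : List ι, v ≠ [] ∧ (∀ i ∈ v, c i = k) ∧ x = S.Rv v S.Ω}

/-- span of the nonempty words with first letter in group `k` -/
def FS.fgQ (k : K) : Submodule ℂ H :=
  Submodule.span ℂ {x | ∃ (i : ι) (v : List ι), c i = k ∧ x = S.Rv (i :: v) S.Ω}

theorem FS.fg_Y_inv {k : K} {j : ι} (hj : c j = k) {y : H} (hy : y ∈ S.fgY c k) :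
    S.s j y ∈ S.fgY c k := by
  induction hy using Submodule.span_induction with
  | mem x hx =>
    obtain ⟨v, hv, rfl⟩ := hx
    cases v with
    | nil =>
      have : S.s j (S.Rv [] S.Ω) = S.Rv [j] S.Ω := S.fg_sΩ j
      rw [this]
      exact Submodule.subset_span ⟨[j], by simpa using hj, rfl⟩
    | cons i v =>
      have h1 : S.s j (S.Rv (i :: v) S.Ω) = S.Rv v (S.s j ((star (S.ra i)) S.Ω)) :=
        S.fg_comm0 j v _ (S.fg_orth i _)
      have h3 : S.Rv (j :: i :: v) S.Ω = S.Rv v ((star (S.ra i)) (S.s j S.Ω)) := by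
        rw [S.fg_sΩ]; rfl
      have h4 : S.Rv (j :: i :: v) S.Ω ∈ S.fgY c k := by
        refine Submodule.subset_span ⟨_, ?_, rfl⟩
        intro l hl
        rcases List.mem_cons.1 hl with rfl | hl
        · exact hj
        · exact hv l hl
      rw [h1]
      by_cases hij : i = j
      · subst hij
        rw [S.fg_self, map_add, ← h3]
        refine Submodule.add_mem _ h4 ?_
        rw [map_smul]
        refine Submodule.smul_mem _ _ (Submodule.subset_span ⟨v, ?_, rfl⟩)
        intro l hl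
        exact hv l (List.mem_cons_of_mem _ hl)
      · have h2 : S.s j ((star (S.ra i)) S.Ω) = (star (S.ra i)) (S.s j S.Ω) :=
          congrArg (fun T : H →L[ℂ] H => T S.Ω) (S.fg_comm_ne hij)
        rw [h2, ← h3]
        exact h4
  | zero => rw [map_zero]; exact Submodule.zero_mem _
  | add x y _ _ hx hy => rw [map_add]; exact Submodule.add_mem _ hx hy
  | smul a x _ hx => rw [map_smul]; exact Submodule.smul_mem _ _ hx

/-- a property of the generators and stable under the algebra operations -/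
theorem FS.fg_ind (k : K) (p : (H →L[ℂ] H) → Prop)
    (hs : ∀ j, c j = k → p (S.s j)) (halg : ∀ z : ℂ, p (algebraMap ℂ (H →L[ℂ] H) z))
    (hadd : ∀ a b, p a → p b → p (a + b)) (hmul : ∀ a b, p a → p b → p (a * b))
    {a : H →L[ℂ] H} (ha : a ∈ StarAlgebra.adjoin ℂ (S.s '' {i | c i = k})) : p a := by
  have key : p a ∧ p (star a) := by
    induction ha using StarAlgebra.adjoin_induction with
    | mem x hx =>
      obtain ⟨j, hj, rfl⟩ := hx
      rw [(S.s_sa j).star_eq]
      exact ⟨hs j hj, hs j hj⟩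
    | algebraMap z =>
      refine ⟨halg z, ?_⟩
      rw [← algebraMap_star_comm]
      exact halg _
    | add x y _ _ hx hy =>
      rw [star_add]
      exact ⟨hadd _ _ hx.1 hy.1, hadd _ _ hx.2 hy.2⟩
    | mul x y _ _ hx hy =>
      rw [star_mul]
      exact ⟨hmul _ _ hx.1 hy.1, hmul _ _ hy.2 hx.2⟩
    | star x _ hx =>
      rw [star_star]
      exact ⟨hx.2, hx.1⟩
  exact key.1

theorem FS.fg_aY (k : K) {a : H →L[ℂ] H}
    (ha : a ∈ StarAlgebra.adjoin ℂ (S.s '' {i | c i = k})) : a S.Ω ∈ S.fgY c k := by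
  have h1 : ∀ y ∈ S.fgY c k, a y ∈ S.fgY c k := by
    refine S.fg_ind c k (fun a => ∀ y ∈ S.fgY c k, a y ∈ S.fgY c k) ?_ ?_ ?_ ?_ ha
    · intro j hj y hy
      exact S.fg_Y_inv c hj hy
    · intro z y hy
      have : (algebraMap ℂ (H →L[ℂ] H) z) y = z • y := by
        rw [Algebra.algebraMap_eq_smul_one]; rfl
      rw [this]
      exact Submodule.smul_mem _ _ hy
    · intro a b ha hb y hy
      exact Submodule.add_mem _ (ha y hy) (hb y hy)
    · intro a b ha hb y hy
      exact ha _ (hb y hy)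
  exact h1 _ (Submodule.subset_span ⟨[], by simp, rfl⟩)

theorem FS.fg_YZ (k : K) {y : H} (hy : y ∈ S.fgY c k) :
    y - ⟪S.Ω, y⟫_ℂ • S.Ω ∈ S.fgZ c k := by
  induction hy using Submodule.span_induction with
  | mem x hx =>
    obtain ⟨v, hv, rfl⟩ := hx
    cases v with
    | nil =>
      have h0 : S.Rv [] S.Ω = S.Ω := rfl
      rw [h0, inner_self_eq_norm_sq_to_K, S.norm_Ω]
      simp
    | cons i v =>
      rw [S.fg_orthRv (i :: v) _ (by simp), zero_smul, sub_zero]
      exact Submodule.subset_span ⟨i :: v, by simp, hv, rfl⟩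
  | zero => simp
  | add x y _ _ hx hy =>
    have : x + y - ⟪S.Ω, x + y⟫_ℂ • S.Ω = (x - ⟪S.Ω, x⟫_ℂ • S.Ω) + (y - ⟪S.Ω, y⟫_ℂ • S.Ω) := by
      rw [inner_add_right]; module
    rw [this]; exact Submodule.add_mem _ hx hy
  | smul a x _ hx =>
    have : a • x - ⟪S.Ω, a • x⟫_ℂ • S.Ω = a • (x - ⟪S.Ω, x⟫_ℂ • S.Ω) := by
      rw [inner_smul_right]; module
    rw [this]; exact Submodule.smul_mem _ _ hx

theorem FS.fg_aZ (k : K) {a : H →L[ℂ] H}
    (ha : a ∈ (StarAlgebra.adjoin ℂ (S.s '' {i | c i = k})).topologicalClosure)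
    (h0 : tau S.Ω a = 0) : a S.Ω ∈ closure (S.fgZ c k : Set H) := by
  have ha' : a ∈ closure ((StarAlgebra.adjoin ℂ (S.s '' {i | c i = k}) :
      StarSubalgebra ℂ (H →L[ℂ] H)) : Set (H →L[ℂ] H)) := ha
  have h1 : a S.Ω - ⟪S.Ω, a S.Ω⟫_ℂ • S.Ω ∈ closure (S.fgZ c k : Set H) := by
    refine map_mem_closure (f := fun b : H →L[ℂ] H => b S.Ω - ⟪S.Ω, b S.Ω⟫_ℂ • S.Ω) ?_ ha' ?_
    · fun_prop
    · intro b hb
      exact S.fg_YZ c k (S.fg_aY c k hb)
  have h2 : ⟪S.Ω, a S.Ω⟫_ℂ = 0 := h0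
  rwa [h2, zero_smul, sub_zero] at h1

theorem FS.fg_acomm (k : K) {a : H →L[ℂ] H}
    (ha : a ∈ (StarAlgebra.adjoin ℂ (S.s '' {i | c i = k})).topologicalClosure)
    {i : ι} (hi : c i ≠ k) (v : List ι) : a * S.Rv (i :: v) = S.Rv (i :: v) * a := by
  have ha' : a ∈ closure ((StarAlgebra.adjoin ℂ (S.s '' {i | c i = k}) :
      StarSubalgebra ℂ (H →L[ℂ] H)) : Set (H →L[ℂ] H)) := ha
  have hcl : IsClosed {b : H →L[ℂ] H | b * S.Rv (i :: v) = S.Rv (i :: v) * b} :=
    isClosed_eq (by fun_prop) (by fun_prop)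
  refine closure_minimal ?_ hcl ha'
  intro b hb
  refine S.fg_ind c k (fun b => b * S.Rv (i :: v) = S.Rv (i :: v) * b) ?_ ?_ ?_ ?_ hb
  · intro j hj
    refine S.fg_comm1 ?_ v
    rintro rfl
    exact hi hj
  · intro z
    exact Algebra.commutes z _
  · intro a b ha hb
    rw [add_mul, mul_add, ha, hb]
  · intro a b ha hb
    rw [mul_assoc, hb, ← mul_assoc, ha, mul_assoc]

theorem FS.fg_main : ∀ (l : List (K × (H →L[ℂ] H))) (p : K × (H →L[ℂ] H)),
    (p :: l).IsChain (fun p q => p.1 ≠ q.1) →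
    (∀ q ∈ p :: l, q.2 ∈ (StarAlgebra.adjoin ℂ (S.s '' {i | c i = q.1})).topologicalClosure ∧
      tau S.Ω q.2 = 0) →
    ((p :: l).map Prod.snd).prod S.Ω ∈ closure (S.fgQ c p.1 : Set H)
  | [], p, _, h => by
    have hp := h p (by simp)
    have h1 := S.fg_aZ c p.1 hp.1 hp.2
    have h2 : (([p] : List (K × (H →L[ℂ] H))).map Prod.snd).prod = p.2 := by simp
    rw [h2]
    refine closure_mono ?_ h1
    refine Submodule.span_mono ?_
    rintro x ⟨v, hv, hv2, rfl⟩
    cases v with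
    | nil => exact absurd rfl hv
    | cons i v => exact ⟨i, v, hv2 i (by simp), rfl⟩
  | q :: l, p, hc, h => by
    rw [List.isChain_cons_cons] at hc
    have hp := h p (by simp)
    have ih := FS.fg_main l q hc.2 (fun r hr => h r (List.mem_cons_of_mem _ hr))
    have h1 : ((p :: q :: l).map Prod.snd).prod S.Ω =
        p.2 (((q :: l).map Prod.snd).prod S.Ω) := by
      rw [List.map_cons, List.prod_cons]; rfl
    rw [h1]
    have hZ := S.fg_aZ c p.1 hp.1 hp.2
    have h2 : ∀ y ∈ S.fgQ c q.1, p.2 y ∈ (S.fgQ c p.1).topologicalClosure := by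
      intro y hy
      induction hy using Submodule.span_induction with
      | mem x hx =>
        obtain ⟨i, v, hi, rfl⟩ := hx
        have hne : c i ≠ p.1 := by rw [hi]; exact hc.1.symm
        have h3 : p.2 (S.Rv (i :: v) S.Ω) = S.Rv (i :: v) (p.2 S.Ω) :=
          congrArg (fun T : H →L[ℂ] H => T S.Ω) (S.fg_acomm c p.1 hp.1 hne v)
        rw [h3]
        show S.Rv (i :: v) (p.2 S.Ω) ∈ closure (S.fgQ c p.1 : Set H)
        refine map_mem_closure (S.Rv (i :: v)).continuous hZ ?_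
        intro z hz
        have hz' : z ∈ S.fgZ c p.1 := hz
        show S.Rv (i :: v) z ∈ S.fgQ c p.1
        induction hz' using Submodule.span_induction with
        | mem x hx =>
          obtain ⟨w, hw, hw2, rfl⟩ := hx
          cases w with
          | nil => exact absurd rfl hw
          | cons j w =>
            have h4 : S.Rv (i :: v) (S.Rv (j :: w) S.Ω) = S.Rv (j :: (w ++ i :: v)) S.Ω := by
              rw [← List.cons_append, S.fg_append]; rfl
            rw [h4]
            exact Submodule.subset_span ⟨j, _, hw2 j (by simp), rfl⟩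
        | zero => rw [map_zero]; exact Submodule.zero_mem _
        | add x y hx' hy' hx hy =>
          rw [map_add]; exact Submodule.add_mem _ (hx hx') (hy hy')
        | smul a x hx' hx => rw [map_smul]; exact Submodule.smul_mem _ _ (hx hx')
      | zero => rw [map_zero]; exact Submodule.zero_mem _
      | add x y _ _ hx hy => rw [map_add]; exact Submodule.add_mem _ hx hy
      | smul a x _ hx => rw [map_smul]; exact Submodule.smul_mem _ _ hx
    have h3 : p.2 (((q :: l).map Prod.snd).prod S.Ω) ∈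
        closure (closure (S.fgQ c p.1 : Set H)) :=
      map_mem_closure p.2.continuous ih (fun y hy => h2 y hy)
    rwa [closure_closure] at h3

end FG

/-- freeness of the norm closed algebras generated by disjoint groups of semicirculars -/
theorem FS.free_groups {ι K : Type} [DecidableEq K] (S : FS ι H) (c : ι → K) :
    IsFreeFam S.Ω (fun k : K =>
      (StarAlgebra.adjoin ℂ (S.s '' {i | c i = k})).topologicalClosure) := by
  intro l hne hc h
  cases l with
  | nil => exact absurd rfl hne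
  | cons p l =>
    have h1 := S.fg_main c l p hc h
    have hcl : IsClosed {ξ : H | ⟪S.Ω, ξ⟫_ℂ = 0} := isClosed_eq (by fun_prop) (by fun_prop)
    have key : ∀ y ∈ S.fgQ c p.1, ⟪S.Ω, y⟫_ℂ = 0 := by
      intro y hy
      induction hy using Submodule.span_induction with
      | mem x hx =>
        obtain ⟨i, v, hi, rfl⟩ := hx
        exact S.fg_orthRv (i :: v) _ (by simp)
      | zero => exact inner_zero_right _
      | add x y _ _ h1 h2 => rw [inner_add_right, h1, h2, add_zero]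
      | smul a x _ h1 => rw [inner_smul_right, h1, mul_zero]
    exact closure_minimal key hcl h1

end E3A

section E7

variable {H : Type} [NormedAddCommGroup H] [InnerProductSpace ℂ H] [CompleteSpace H]



theorem wd_append_349 {n : ℕ} (x : Fin n → (H →L[ℂ] H)) (v w : List (Fin n)) :
    wd x (v ++ w) = wd x v * wd x w := by
  unfold wd
  rw [List.map_append, List.prod_append]

theorem star_wd_349 {n : ℕ} (x : Fin n → (H →L[ℂ] H)) (hx : ∀ i, IsSelfAdjoint (x i))
    (w : List (Fin n)) : star (wd x w) = wd x w.reverse := by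
  induction w with
  | nil => simp [wd]
  | cons a w ih =>
    have h1 : wd x (a :: w) = x a * wd x w := by simp [wd]
    rw [h1, star_mul, ih, (hx a).star_eq, List.reverse_cons, wd_append_349]
    simp [wd]

theorem inner_wd_349 {n : ℕ} (Ω : H) (x : Fin n → (H →L[ℂ] H)) (hx : ∀ i, IsSelfAdjoint (x i))
    (v w : List (Fin n)) : ⟪wd x v Ω, wd x w Ω⟫_ℂ = tau Ω (wd x (v.reverse ++ w)) := by
  unfold tau
  rw [wd_append_349, ← star_wd_349 x hx, ContinuousLinearMap.mul_apply,
    ContinuousLinearMap.star_eq_adjoint, ContinuousLinearMap.adjoint_inner_right]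

/-- combination map -/
noncomputable def cmb_349 {n : ℕ} (Ω : H) (x : Fin n → (H →L[ℂ] H)) :
    (List (Fin n) →₀ ℂ) →ₗ[ℂ] H :=
  Finsupp.linearCombination ℂ (fun w => wd x w Ω)

theorem inner_cmb_349 {n : ℕ} (Ω : H) (x y : Fin n → (H →L[ℂ] H))
    (hx : ∀ i, IsSelfAdjoint (x i)) (hy : ∀ i, IsSelfAdjoint (y i))
    (h : ∀ w : List (Fin n), tau Ω (wd x w) = tau Ω (wd y w)) (p q : List (Fin n) →₀ ℂ) :
    ⟪cmb_349 Ω x p, cmb_349 Ω x q⟫_ℂ = ⟪cmb_349 Ω y p, cmb_349 Ω y q⟫_ℂ := by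
  unfold cmb_349
  simp only [Finsupp.linearCombination_apply, Finsupp.sum]
  simp only [sum_inner, inner_sum, inner_smul_left, inner_smul_right, inner_wd_349 Ω x hx,
    inner_wd_349 Ω y hy, h]

theorem norm_cmb_349 {n : ℕ} (Ω : H) (x y : Fin n → (H →L[ℂ] H))
    (hx : ∀ i, IsSelfAdjoint (x i)) (hy : ∀ i, IsSelfAdjoint (y i))
    (h : ∀ w : List (Fin n), tau Ω (wd x w) = tau Ω (wd y w)) (p : List (Fin n) →₀ ℂ) :
    ‖cmb_349 Ω x p‖ = ‖cmb_349 Ω y p‖ := by
  rw [@norm_eq_sqrt_re_inner ℂ, @norm_eq_sqrt_re_inner ℂ, inner_cmb_349 Ω x y hx hy h]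

theorem tauDiff_congr_349 {n : ℕ} (Ω : H) (x y : Fin n → (H →L[ℂ] H))
    (h : ∀ w : List (Fin n), tau Ω (wd x w) = tau Ω (wd y w)) (j : Fin n) (w : List (Fin n)) :
    tauDiff Ω x j w = tauDiff Ω y j w := by
  unfold tauDiff
  simp only [h]

theorem transfer_349 {n : ℕ} (Ω : H) (x y : Fin n → (H →L[ℂ] H))
    (hx : ∀ i, IsSelfAdjoint (x i)) (hy : ∀ i, IsSelfAdjoint (y i))
    (h : ∀ w : List (Fin n), tau Ω (wd x w) = tau Ω (wd y w)) (ξ : H) (hξ : ξ ∈ L2 Ω x) :
    ∃ η ∈ L2 Ω y, ‖η‖ = ‖ξ‖ ∧ ∀ w, ⟪(star (wd y w)) Ω, η⟫_ℂ = ⟪(star (wd x w)) Ω, ξ⟫_ℂ := by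
  unfold L2 at hξ
  rw [← SetLike.mem_coe, Submodule.topologicalClosure_coe, mem_closure_iff_seq_limit] at hξ
  obtain ⟨s, hs, hlim⟩ := hξ
  have hr : ∀ m, ∃ p : List (Fin n) →₀ ℂ, cmb_349 Ω x p = s m := by
    intro m
    have := hs m
    rw [SetLike.mem_coe, Finsupp.mem_span_range_iff_exists_finsupp] at this
    obtain ⟨c, hc⟩ := this
    exact ⟨c, by rw [← hc]; simp [cmb_349, Finsupp.linearCombination_apply]⟩
  choose p hp using hr
  have hcau : CauchySeq (fun m => cmb_349 Ω y (p m)) := by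
    have hc : CauchySeq s := hlim.cauchySeq
    rw [Metric.cauchySeq_iff] at hc ⊢
    intro ε hε
    obtain ⟨N, hN⟩ := hc ε hε
    refine ⟨N, fun a ha b hb => ?_⟩
    have := hN a ha b hb
    rw [dist_eq_norm] at this ⊢
    rw [← map_sub, ← norm_cmb_349 Ω x y hx hy h, map_sub, hp, hp]
    exact this
  obtain ⟨η, hη⟩ := cauchySeq_tendsto_of_complete hcau
  refine ⟨η, ?_, ?_, ?_⟩
  · unfold L2
    rw [← SetLike.mem_coe, Submodule.topologicalClosure_coe, mem_closure_iff_seq_limit]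
    refine ⟨fun m => cmb_349 Ω y (p m), fun m => ?_, hη⟩
    rw [SetLike.mem_coe]
    unfold cmb_349
    rw [Finsupp.mem_span_range_iff_exists_finsupp]
    exact ⟨p m, by simp [Finsupp.linearCombination_apply]⟩
  · have h1 : Tendsto (fun m => ‖cmb_349 Ω y (p m)‖) atTop (𝓝 ‖η‖) := hη.norm
    have h2 : Tendsto (fun m => ‖s m‖) atTop (𝓝 ‖ξ‖) := hlim.norm
    have h3 : (fun m => ‖cmb_349 Ω y (p m)‖) = fun m => ‖s m‖ := by
      funext m
      rw [← norm_cmb_349 Ω x y hx hy h, hp]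
    rw [h3] at h1
    exact tendsto_nhds_unique h1 h2
  · intro w
    have hsx : (star (wd x w)) Ω = cmb_349 Ω x (Finsupp.single w.reverse 1) := by
      rw [star_wd_349 x hx]
      simp [cmb_349]
    have hsy : (star (wd y w)) Ω = cmb_349 Ω y (Finsupp.single w.reverse 1) := by
      rw [star_wd_349 y hy]
      simp [cmb_349]
    rw [hsx, hsy]
    have h1 : Tendsto (fun m => ⟪cmb_349 Ω y (Finsupp.single w.reverse 1), cmb_349 Ω y (p m)⟫_ℂ)
      atTop (𝓝 ⟪cmb_349 Ω y (Finsupp.single w.reverse 1), η⟫_ℂ) := tendsto_const_nhds.inner hη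
    have h2 : Tendsto (fun m => ⟪cmb_349 Ω x (Finsupp.single w.reverse 1), s m⟫_ℂ)
      atTop (𝓝 ⟪cmb_349 Ω x (Finsupp.single w.reverse 1), ξ⟫_ℂ) := tendsto_const_nhds.inner hlim
    have h3 : (fun m => ⟪cmb_349 Ω y (Finsupp.single w.reverse 1), cmb_349 Ω y (p m)⟫_ℂ) =
        fun m => ⟪cmb_349 Ω x (Finsupp.single w.reverse 1), s m⟫_ℂ := by
      funext m
      rw [← inner_cmb_349 Ω x y hx hy h, hp]
    rw [h3] at h1
    exact tendsto_nhds_unique h1 h2

theorem PhiStar_le_349 {n : ℕ} (Ω : H) (x y : Fin n → (H →L[ℂ] H))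
    (hx : ∀ i, IsSelfAdjoint (x i)) (hy : ∀ i, IsSelfAdjoint (y i))
    (h : ∀ w : List (Fin n), tau Ω (wd x w) = tau Ω (wd y w)) :
    PhiStar Ω y ≤ PhiStar Ω x := by
  unfold PhiStar
  refine le_iInf₂ fun ξ hξ => ?_
  choose η hη1 hη2 hη3 using fun j => transfer_349 Ω x y hx hy h (ξ j) (hξ.1 j)
  have hc : IsConj Ω y η := by
    refine ⟨hη1, fun j w => ?_⟩
    rw [hη3, hξ.2, tauDiff_congr_349 Ω x y h]
  refine (iInf₂_le η hc).trans ?_
  simp only [hη2]
  exact le_rfl

/-- `Φ*` depends only on the joint moments. -/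
theorem PhiStar_congr {n : ℕ} (Ω : H) (x y : Fin n → (H →L[ℂ] H))
    (hx : ∀ i, IsSelfAdjoint (x i)) (hy : ∀ i, IsSelfAdjoint (y i))
    (h : ∀ w : List (Fin n), tau Ω (wd x w) = tau Ω (wd y w)) :
    PhiStar Ω x = PhiStar Ω y := by
  exact le_antisymm (PhiStar_le_349 Ω y x hy hx (fun w => (h w).symm)) (PhiStar_le_349 Ω x y hx hy h)

end E7

section E4

variable {H : Type} [NormedAddCommGroup H] [InnerProductSpace ℂ H] [CompleteSpace H]


private theorem wd_cons {n : ℕ} (y : Fin n → (H →L[ℂ] H)) (i : Fin n) (w : List (Fin n)) :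
    wd y (i :: w) = y i * wd y w := by
  simp [wd]

private theorem wd_append {n : ℕ} (y : Fin n → (H →L[ℂ] H)) (v w : List (Fin n)) :
    wd y (v ++ w) = wd y v * wd y w := by
  simp [wd]

private theorem star_wd {n : ℕ} (y : Fin n → (H →L[ℂ] H)) (hy : ∀ i, IsSelfAdjoint (y i))
    (w : List (Fin n)) : star (wd y w) = wd y w.reverse := by
  induction w with
  | nil => simp [wd]
  | cons i w ih =>
    rw [wd_cons, star_mul, ih, List.reverse_cons, wd_append, (hy i).star_eq]
    congr 1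

private theorem wd_comm {n : ℕ} (y : Fin n → (H →L[ℂ] H)) (D : H →L[ℂ] H)
    (h : ∀ i, y i * D = D * y i) (w : List (Fin n)) : wd y w * D = D * wd y w := by
  induction w with
  | nil => simp [wd]
  | cons i w ih => rw [wd_cons, mul_assoc, ih, ← mul_assoc, h i, mul_assoc]

private theorem R_wd {n : ℕ} (Ω : H) (y : Fin n → (H →L[ℂ] H)) (R : H →L[ℂ] H) (j : Fin n) (c : ℂ)
    (hRΩ : R Ω = 0)
    (hR : ∀ i (ξ : H), R (y i ξ) = y i (R ξ) + if i = j then c • (⟪Ω, ξ⟫_ℂ • Ω) else 0)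
    (w : List (Fin n)) :
    R (wd y w Ω) = c • ∑ k ∈ Finset.range w.length,
      if w[k]? = some j then tau Ω (wd y (w.drop (k + 1))) • (wd y (w.take k) Ω) else 0 := by
  induction w with
  | nil => simp [wd, hRΩ]
  | cons i w ih =>
    rw [wd_cons, ContinuousLinearMap.mul_apply, hR, ih, List.length_cons,
      Finset.sum_range_succ']
    rw [smul_add]
    congr 1
    · rw [map_smul, map_sum]
      congr 1
      apply Finset.sum_congr rfl
      intro k _
      rw [List.getElem?_cons_succ, List.drop_succ_cons, List.take_succ_cons]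
      split_ifs
      · rw [map_smul, wd_cons, ContinuousLinearMap.mul_apply]
      · rw [map_zero]
    · rw [List.getElem?_cons_zero]
      by_cases h : i = j
      · rw [if_pos h, if_pos (by rw [h])]
        simp [wd, tau]
      · rw [if_neg h, if_neg (by simpa using h), smul_zero]

private theorem PhiStar_abs {n : ℕ} (Ω : H) (y : Fin n → (H →L[ℂ] H))
    (hy : ∀ i, IsSelfAdjoint (y i)) (t : ℝ) (ht : 0 < t) (sn D R : Fin n → (H →L[ℂ] H))
    (hD : ∀ j, D j = R j + star (R j)) (hsΩ : ∀ j, sn j Ω = D j Ω) (hRΩ : ∀ j, R j Ω = 0)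
    (hcomm : ∀ i j, y i * D j = D j * y i)
    (hR : ∀ j i (ξ : H), R j (y i ξ) = y i (R j ξ) +
      if i = j then ((√t : ℝ) : ℂ) • (⟪Ω, ξ⟫_ℂ • Ω) else 0) :
    PhiStar Ω y = ENNReal.ofReal ((∑ j, ‖(L2 Ω y).starProjection (sn j Ω)‖ ^ 2) / t) := by
  have hst : (√t : ℝ) ≠ 0 := (Real.sqrt_pos.2 ht).ne'
  have hstc : ((√t : ℝ) : ℂ) ≠ 0 := by exact_mod_cast hst
  obtain ⟨ξ, hξ⟩ : ∃ ξ : Fin n → H, ξ = fun j =>
      (((√t : ℝ) : ℂ)⁻¹) • (L2 Ω y).starProjection (sn j Ω) := ⟨_, rfl⟩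
  have hmemwd : ∀ w : List (Fin n), wd y w Ω ∈ L2 Ω y := fun w =>
    Submodule.le_topologicalClosure _ (Submodule.subset_span ⟨w, rfl⟩)
  have hmemst : ∀ w : List (Fin n), (star (wd y w)) Ω ∈ L2 Ω y := by
    intro w
    rw [star_wd y hy]
    exact hmemwd _
  have hadj : ∀ (T : H →L[ℂ] H) (a b : H), ⟪(star T) a, b⟫_ℂ = ⟪a, T b⟫_ℂ := by
    intro T a b
    rw [ContinuousLinearMap.star_eq_adjoint, ContinuousLinearMap.adjoint_inner_left]
  have hconj : IsConj Ω y ξ := by
    refine ⟨fun j => ?_, fun j w => ?_⟩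
    · rw [hξ]
      exact Submodule.smul_mem _ _ (Submodule.starProjection_apply_mem _ _)
    · have h1 : ⟪(star (wd y w)) Ω, (L2 Ω y).starProjection (sn j Ω)⟫_ℂ
          = ⟪(star (wd y w)) Ω, sn j Ω⟫_ℂ := by
        have h2 := (L2 Ω y).starProjection_inner_eq_zero (sn j Ω) _ (hmemst w)
        have h3 := inner_eq_zero_symm.1 h2
        rw [inner_sub_right] at h3
        exact (sub_eq_zero.1 h3).symm
      have h4 : ⟪(star (wd y w)) Ω, sn j Ω⟫_ℂ = ((√t : ℝ) : ℂ) * tauDiff Ω y j w := by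
        rw [hadj, hsΩ, ← ContinuousLinearMap.mul_apply, wd_comm y (D j) (fun i => hcomm i j),
          ContinuousLinearMap.mul_apply, hD, ContinuousLinearMap.add_apply, inner_add_right,
          R_wd Ω y (R j) j _ (hRΩ j) (hR j) w]
        have h5 : ⟪Ω, (star (R j)) (wd y w Ω)⟫_ℂ = 0 := by
          have := hadj (R j) (wd y w Ω) Ω
          rw [hRΩ, inner_zero_right] at this
          exact inner_eq_zero_symm.1 this
        rw [h5, add_zero, inner_smul_right, inner_sum]
        congr 1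
        unfold tauDiff
        apply Finset.sum_congr rfl
        intro k _
        split_ifs
        · rw [inner_smul_right]
          unfold tau
          ring
        · rw [inner_zero_right]
      rw [hξ]
      simp only []
      rw [inner_smul_right, h1, h4, ← mul_assoc, inv_mul_cancel₀ hstc, one_mul]
  have huniq : ∀ ξ' : Fin n → H, IsConj Ω y ξ' → ξ' = ξ := by
    intro ξ' h'
    funext j
    have hd : ξ' j - ξ j ∈ L2 Ω y := Submodule.sub_mem _ (h'.1 j) (hconj.1 j)
    have ho : ∀ w : List (Fin n), ⟪wd y w Ω, ξ' j - ξ j⟫_ℂ = 0 := by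
      intro w
      have h1 := h'.2 j w.reverse
      have h2 := hconj.2 j w.reverse
      rw [star_wd y hy, List.reverse_reverse] at h1 h2
      rw [inner_sub_right, h1, h2, sub_self]
    have hmem : ξ' j - ξ j ∈ (L2 Ω y)ᗮ := by
      unfold L2
      rw [Submodule.orthogonal_closure]
      rw [Submodule.mem_orthogonal]
      intro u hu
      induction hu using Submodule.span_induction with
      | mem x hx =>
        obtain ⟨w, rfl⟩ := hx
        exact ho w
      | zero => simp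
      | add a b _ _ ha hb => rw [inner_add_left, ha, hb, add_zero]
      | smul c a _ ha => rw [inner_smul_left, ha, mul_zero]
    have h0 : ⟪ξ' j - ξ j, ξ' j - ξ j⟫_ℂ = 0 := (Submodule.mem_orthogonal _ _).1 hmem _ hd
    exact sub_eq_zero.1 (inner_self_eq_zero.1 h0)
  have hval : ∑ j, ENNReal.ofReal (‖ξ j‖ ^ 2)
      = ENNReal.ofReal ((∑ j, ‖(L2 Ω y).starProjection (sn j Ω)‖ ^ 2) / t) := by
    rw [← ENNReal.ofReal_sum_of_nonneg (fun j _ => by positivity)]
    congr 1
    rw [Finset.sum_div]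
    apply Finset.sum_congr rfl
    intro j _
    rw [hξ]
    simp only []
    rw [norm_smul, mul_pow, norm_inv, Complex.norm_real, Real.norm_eq_abs,
      abs_of_pos (Real.sqrt_pos.2 ht), inv_pow, Real.sq_sqrt ht.le]
    field_simp
  rw [← hval]
  unfold PhiStar
  apply le_antisymm
  · exact iInf₂_le ξ hconj
  · refine le_iInf₂ fun ξ' h' => ?_
    rw [huniq ξ' h']

private theorem Ab_comm (S : FS I0 H) (T : H →L[ℂ] H)
    (hT : ∀ i, T * S.xb i = S.xb i * T) (a : H →L[ℂ] H) (ha : a ∈ S.Ab) : T * a = a * T := by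
  have hadj : ∀ a ∈ StarAlgebra.adjoin ℂ (Set.range S.xb),
      T * a = a * T ∧ T * star a = star a * T := by
    intro a ha
    induction ha using StarAlgebra.adjoin_induction with
    | mem x hx =>
      obtain ⟨i, rfl⟩ := hx
      have hsa : star (S.xb i) = S.xb i := (S.s_sa (Sum.inl i)).star_eq
      rw [hsa]
      exact ⟨hT i, hT i⟩
    | algebraMap c =>
      refine ⟨(Algebra.commutes c T).symm, ?_⟩
      rw [← algebraMap_star_comm]
      exact (Algebra.commutes _ T).symm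
    | add x y _ _ hx hy =>
      rw [star_add, mul_add, add_mul, mul_add, add_mul, hx.1, hy.1, hx.2, hy.2]
      exact ⟨rfl, rfl⟩
    | mul x y _ _ hx hy =>
      constructor
      · rw [← mul_assoc, hx.1, mul_assoc, hy.1, mul_assoc]
      · rw [star_mul, ← mul_assoc, hy.2, mul_assoc, hx.2, mul_assoc]
    | star x _ hx => exact ⟨hx.2, by rw [star_star]; exact hx.1⟩
  have hcl : IsClosed {a : H →L[ℂ] H | T * a = a * T} :=
    isClosed_eq (continuous_const.mul continuous_id) (continuous_id.mul continuous_const)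
  have hsub : ((StarAlgebra.adjoin ℂ (Set.range S.xb) : StarSubalgebra ℂ (H →L[ℂ] H)) :
      Set (H →L[ℂ] H)) ⊆ {a : H →L[ℂ] H | T * a = a * T} :=
    fun x hx => (hadj x hx).1
  exact closure_minimal hsub hcl ha

/-- `Φ*(x + √t s) = g(t)/t`; here the conjugate variables are `E(s_j | ·)/√t`. -/
theorem FS.PhiStar_eq (S : FS I0 H) (xl : H →L[ℂ] H) (hx : xl ∈ S.Ab) (hs : IsSelfAdjoint xl)
    (t : ℝ) (ht : 0 < t) :
    PhiStar S.Ω (pert (S.tup xl) S.n1 t) =
      ENNReal.ofReal (gval S.Ω (S.tup xl) S.n1 t / t) := by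
  have htup : ∀ P : (H →L[ℂ] H) → Prop, (∀ i, P (S.xb i)) → P xl → ∀ i, P (S.tup xl i) := by
    intro P h1 h2 i
    unfold FS.tup
    induction i using Fin.lastCases with
    | last => rw [Fin.snoc_last]; exact h2
    | cast i => rw [Fin.snoc_castSucc]; exact h1 i
  have htupsa : ∀ i, IsSelfAdjoint (S.tup xl i) :=
    htup IsSelfAdjoint (fun i => S.s_sa (Sum.inl i)) hs
  have htupD : ∀ j i, S.d (Sum.inr (Sum.inl j)) * S.tup xl i
      = S.tup xl i * S.d (Sum.inr (Sum.inl j)) := by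
    intro j
    have h1 : ∀ i, S.d (Sum.inr (Sum.inl j)) * S.xb i = S.xb i * S.d (Sum.inr (Sum.inl j)) :=
      fun i => (S.comm (Sum.inl i) (Sum.inr (Sum.inl j))).symm
    exact htup (fun a => S.d (Sum.inr (Sum.inl j)) * a = a * S.d (Sum.inr (Sum.inl j))) h1
      (Ab_comm S _ h1 xl hx)
  have htupR : ∀ j i, S.ra (Sum.inr (Sum.inl j)) * S.tup xl i
      = S.tup xl i * S.ra (Sum.inr (Sum.inl j)) := by
    intro j
    have h1 : ∀ i, S.ra (Sum.inr (Sum.inl j)) * S.xb i = S.xb i * S.ra (Sum.inr (Sum.inl j)) :=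
      fun i => S.ra_s (Sum.inr (Sum.inl j)) (Sum.inl i) (by simp)
    exact htup (fun a => S.ra (Sum.inr (Sum.inl j)) * a = a * S.ra (Sum.inr (Sum.inl j))) h1
      (Ab_comm S _ h1 xl hx)
  refine PhiStar_abs S.Ω (pert (S.tup xl) S.n1 t) ?_ t ht S.n1
    (fun j => S.d (Sum.inr (Sum.inl j))) (fun j => S.ra (Sum.inr (Sum.inl j)))
    (fun j => S.d_eq _) (fun j => S.sΩ _) (fun j => S.raΩ _) ?_ ?_
  · intro i
    unfold pert
    refine (htupsa i).add ?_
    rw [IsSelfAdjoint, star_smul]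
    have h1 : star (S.n1 i) = S.n1 i := (S.s_sa _).star_eq
    rw [h1]
    congr 1
    exact Complex.conj_ofReal _
  · intro i j
    unfold pert
    rw [add_mul, mul_add, smul_mul_assoc, mul_smul_comm, htupD j i]
    congr 2
    exact S.comm (Sum.inr (Sum.inl i)) (Sum.inr (Sum.inl j))
  · intro j i ξ
    unfold pert
    rw [ContinuousLinearMap.add_apply, ContinuousLinearMap.add_apply, map_add,
      ContinuousLinearMap.smul_apply, ContinuousLinearMap.smul_apply, map_smul]
    have h1 : S.ra (Sum.inr (Sum.inl j)) (S.tup xl i ξ)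
        = S.tup xl i (S.ra (Sum.inr (Sum.inl j)) ξ) := by
      have := congrArg (fun T : H →L[ℂ] H => T ξ) (htupR j i)
      simpa only [ContinuousLinearMap.mul_apply] using this
    rw [h1]
    by_cases h : i = j
    · subst h
      rw [if_pos rfl]
      have h2 := S.ra_s_self (Sum.inr (Sum.inl i)) ξ
      have h3 : S.n1 i = S.s (Sum.inr (Sum.inl i)) := rfl
      rw [h3, h2, smul_add, add_assoc]
    · rw [if_neg h, add_zero]
      have h2 := S.ra_s (Sum.inr (Sum.inl j)) (Sum.inr (Sum.inl i)) (by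
        intro h5
        apply h
        simpa using h5.symm)
      have h3 := congrArg (fun T : H →L[ℂ] H => T ξ) h2
      simp only [ContinuousLinearMap.mul_apply] at h3
      have h4 : S.n1 i = S.s (Sum.inr (Sum.inl i)) := rfl
      rw [h4, h3]

end E4

section E8

variable {H : Type} [NormedAddCommGroup H] [InnerProductSpace ℂ H] [CompleteSpace H]



theorem inner_sO_15275 {ι : Type} (S : FS ι H) (j : ι) (ξ : H) :
    ⟪S.s j S.Ω, ξ⟫_ℂ = ⟪S.Ω, S.ra j ξ⟫_ℂ := by
  rw [S.sΩ, S.d_eq, ContinuousLinearMap.add_apply, S.raΩ, zero_add,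
    ContinuousLinearMap.star_eq_adjoint, ContinuousLinearMap.adjoint_inner_left]

theorem inner_self_15275 {ι : Type} (S : FS ι H) (j : ι) :
    ⟪S.s j S.Ω, S.s j S.Ω⟫_ℂ = 1 := by
  rw [inner_sO_15275, S.ra_s_self, S.raΩ, map_zero, zero_add, inner_smul_right,
    inner_self_eq_norm_sq_to_K, S.norm_Ω]
  simp

theorem norm_sO_15275 {ι : Type} (S : FS ι H) (j : ι) : ‖S.s j S.Ω‖ = 1 := by
  have h := inner_self_15275 S j
  have h2 : ‖S.s j S.Ω‖ ^ 2 = 1 := by
    rw [norm_sq_eq_re_inner (𝕜 := ℂ), h]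
    simp
  nlinarith [norm_nonneg (S.s j S.Ω)]

theorem inner_comm_15275 {ι : Type} (S : FS ι H) (j : ι) (a : H →L[ℂ] H)
    (h : S.ra j * a = a * S.ra j) : ⟪S.s j S.Ω, a S.Ω⟫_ℂ = 0 := by
  rw [inner_sO_15275]
  have h1 : S.ra j (a S.Ω) = 0 := by
    have := congrArg (fun T : H →L[ℂ] H => T S.Ω) h
    simp only [ContinuousLinearMap.mul_apply] at this
    rw [this, S.raΩ, map_zero]
  rw [h1, inner_zero_right]

theorem proj_15275 (K : Submodule ℂ H) [K.HasOrthogonalProjection] (u v : H) (hv : v ∈ K) (c : ℝ) :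
    2 * c * (⟪u, v⟫_ℂ).re - c ^ 2 * ‖v‖ ^ 2 ≤ ‖K.starProjection u‖ ^ 2 := by
  have h1 : ⟪K.starProjection u, v⟫_ℂ = ⟪u, v⟫_ℂ := by
    rw [Submodule.inner_starProjection_left_eq_right, Submodule.starProjection_eq_self_iff.2 hv]
  have h2 := norm_sub_sq (𝕜 := ℂ) (K.starProjection u) ((c : ℂ) • v)
  rw [inner_smul_right, h1, norm_smul] at h2
  have h3 : RCLike.re ((c : ℂ) * ⟪u, v⟫_ℂ) = c * (⟪u, v⟫_ℂ).re := by
    simp
  have h4 : ‖(c : ℂ)‖ = |c| := by simp
  rw [h3, h4] at h2
  have h5 : (|c| * ‖v‖) ^ 2 = c ^ 2 * ‖v‖ ^ 2 := by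
    rw [mul_pow, sq_abs]
  rw [h5] at h2
  have h6 := sq_nonneg ‖K.starProjection u - (c : ℂ) • v‖
  nlinarith

theorem FS.gval_le (S : FS I0 H) (xl : H →L[ℂ] H) (t : ℝ) :
    gval S.Ω (S.tup xl) S.n1 t ≤ 4 := by
  unfold gval
  calc _ ≤ ∑ j : Fin 4, (1 : ℝ) := by
        apply Finset.sum_le_sum
        intro j _
        have h1 : ‖(L2 S.Ω (pert (S.tup xl) S.n1 t)).starProjection (S.n1 j S.Ω)‖
            ≤ ‖S.n1 j S.Ω‖ := Submodule.norm_starProjection_apply_le _ _
        have h2 : ‖S.n1 j S.Ω‖ = 1 := norm_sO_15275 S _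
        rw [h2] at h1
        have h3 := norm_nonneg ((L2 S.Ω (pert (S.tup xl) S.n1 t)).starProjection (S.n1 j S.Ω))
        nlinarith
    _ = 4 := by simp

theorem comm_Ab_15275 (S : FS I0 H) (j : Fin 4) (a : H →L[ℂ] H) (ha : a ∈ S.Ab) :
    S.ra (Sum.inr (Sum.inl j)) * a = a * S.ra (Sum.inr (Sum.inl j)) := by
  have hb : ∀ k : Fin 3, S.ra (Sum.inr (Sum.inl j)) * S.s (Sum.inl k)
      = S.s (Sum.inl k) * S.ra (Sum.inr (Sum.inl j)) := by
    intro k
    exact S.ra_s _ _ (by simp)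
  have h1 : StarAlgebra.adjoin ℂ (Set.range S.xb) ≤
      StarSubalgebra.centralizer ℂ {S.ra (Sum.inr (Sum.inl j))} := by
    apply StarAlgebra.adjoin_le
    rintro _ ⟨k, rfl⟩
    change S.s (Sum.inl k) ∈ StarSubalgebra.centralizer ℂ {S.ra (Sum.inr (Sum.inl j))}
    rw [StarSubalgebra.mem_centralizer_iff]
    intro g hg
    have hg' : g = S.ra (Sum.inr (Sum.inl j)) := hg
    subst hg'
    refine ⟨hb k, ?_⟩
    have h2 := congrArg star (hb k)
    rw [star_mul, star_mul, (S.s_sa (Sum.inl k)).star_eq] at h2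
    exact h2.symm
  have h2 : S.Ab ≤ StarSubalgebra.centralizer ℂ {S.ra (Sum.inr (Sum.inl j))} := by
    unfold FS.Ab
    apply StarSubalgebra.topologicalClosure_minimal h1
    exact Set.isClosed_centralizer _
  have h3 := h2 ha
  rw [StarSubalgebra.mem_centralizer_iff] at h3
  exact (h3 _ rfl).1

theorem FS.gval_ge (S : FS I0 H) (xl : H →L[ℂ] H) (hx : xl ∈ S.Ab) (hs : IsSelfAdjoint xl)
    (t : ℝ) (ht : 0 < t) :
    16 * t / (3 + ‖xl‖ ^ 2 + 4 * t) ≤ gval S.Ω (S.tup xl) S.n1 t := by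
  set D : ℝ := 3 + ‖xl‖ ^ 2 + 4 * t with hD
  have hDpos : 0 < D := by positivity
  set c : ℝ := 4 * √t / D with hc
  have hst : √t * √t = t := Real.mul_self_sqrt ht.le
  -- commutation
  have hcomm : ∀ i : Fin 4, S.ra (Sum.inr (Sum.inl i)) * S.tup xl i
      = S.tup xl i * S.ra (Sum.inr (Sum.inl i)) := by
    intro i
    refine Fin.lastCases ?_ (fun k => ?_) i
    · have e : S.tup xl (Fin.last 3) = xl := by
        unfold FS.tup
        exact Fin.snoc_last _ _
      rw [e]
      exact comm_Ab_15275 S _ xl hx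
    · have e : S.tup xl k.castSucc = S.xb k := by simp [FS.tup]
      rw [e]
      exact S.ra_s _ _ (by simp)
  have hterm : ∀ i : Fin 4, 2 * c * √t - c ^ 2 * (‖S.tup xl i S.Ω‖ ^ 2 + t)
      ≤ ‖(L2 S.Ω (pert (S.tup xl) S.n1 t)).starProjection (S.n1 i S.Ω)‖ ^ 2 := by
    intro i
    have hmem : (pert (S.tup xl) S.n1 t i) S.Ω ∈ L2 S.Ω (pert (S.tup xl) S.n1 t) := by
      unfold L2
      apply Submodule.le_topologicalClosure
      apply Submodule.subset_span
      exact ⟨[i], by simp [wd]⟩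
    have h1 := proj_15275 (L2 S.Ω (pert (S.tup xl) S.n1 t)) (S.n1 i S.Ω) _ hmem c
    have h0 : ⟪S.n1 i S.Ω, S.tup xl i S.Ω⟫_ℂ = 0 := inner_comm_15275 S _ _ (hcomm i)
    have hone : ⟪S.n1 i S.Ω, S.n1 i S.Ω⟫_ℂ = 1 := inner_self_15275 S _
    have hy : (pert (S.tup xl) S.n1 t i) S.Ω
        = S.tup xl i S.Ω + ((√t : ℝ) : ℂ) • S.n1 i S.Ω := by
      simp [pert]
    have h2 : (⟪S.n1 i S.Ω, (pert (S.tup xl) S.n1 t i) S.Ω⟫_ℂ).re = √t := by
      rw [hy, inner_add_right, h0, inner_smul_right, hone]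
      simp
    have h3 : ‖(pert (S.tup xl) S.n1 t i) S.Ω‖ ^ 2 = ‖S.tup xl i S.Ω‖ ^ 2 + t := by
      have h4 := norm_add_sq (𝕜 := ℂ) (S.tup xl i S.Ω) (((√t : ℝ) : ℂ) • S.n1 i S.Ω)
      have h5 : ⟪S.tup xl i S.Ω, ((√t : ℝ) : ℂ) • S.n1 i S.Ω⟫_ℂ = 0 := by
        rw [inner_smul_right, ← inner_conj_symm, h0]
        simp
      have h6 : ‖((√t : ℝ) : ℂ) • S.n1 i S.Ω‖ = √t := by
        rw [norm_smul]
        have : ‖S.n1 i S.Ω‖ = 1 := norm_sO_15275 S _
        rw [this, mul_one, Complex.norm_real, Real.norm_of_nonneg (Real.sqrt_nonneg t)]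
      rw [h5, h6] at h4
      rw [hy, h4, pow_two (√t), hst]
      simp
    rw [h2, h3] at h1
    exact h1
  have hsum : ∑ i : Fin 4, ‖S.tup xl i S.Ω‖ ^ 2 ≤ 3 + ‖xl‖ ^ 2 := by
    rw [Fin.sum_univ_castSucc]
    have e1 : ∀ k : Fin 3, ‖S.tup xl k.castSucc S.Ω‖ ^ 2 = 1 := by
      intro k
      have e : S.tup xl k.castSucc = S.xb k := by simp [FS.tup]
      have e' : ‖S.xb k S.Ω‖ = 1 := norm_sO_15275 S _
      rw [e, e']
      norm_num
    have e2 : ‖S.tup xl (Fin.last 3) S.Ω‖ ≤ ‖xl‖ := by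
      have e : S.tup xl (Fin.last 3) = xl := by
        unfold FS.tup
        exact Fin.snoc_last _ _
      rw [e]
      calc ‖xl S.Ω‖ ≤ ‖xl‖ * ‖S.Ω‖ := xl.le_opNorm _
        _ = ‖xl‖ := by rw [S.norm_Ω, mul_one]
    have e3 : ‖S.tup xl (Fin.last 3) S.Ω‖ ^ 2 ≤ ‖xl‖ ^ 2 :=
      pow_le_pow_left₀ (norm_nonneg _) e2 2
    have e4 : ∑ i : Fin 3, (1 : ℝ) = 3 := by simp
    simp only [e1]
    rw [e4]
    linarith
  have htot : 8 * c * √t - c ^ 2 * D ≤ gval S.Ω (S.tup xl) S.n1 t := by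
    unfold gval
    calc 8 * c * √t - c ^ 2 * D
        ≤ ∑ i : Fin 4, (2 * c * √t - c ^ 2 * (‖S.tup xl i S.Ω‖ ^ 2 + t)) := by
          have hc2 : 0 ≤ c ^ 2 := sq_nonneg c
          have := mul_le_mul_of_nonneg_left hsum hc2
          have e5 : ∑ i : Fin 4, (2 * c * √t - c ^ 2 * (‖S.tup xl i S.Ω‖ ^ 2 + t))
              = 8 * c * √t - (c ^ 2 * ∑ i : Fin 4, ‖S.tup xl i S.Ω‖ ^ 2) - c ^ 2 * (4 * t) := by
            simp only [Fin.sum_univ_four]
            ring
          rw [e5, hD]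
          nlinarith
      _ ≤ _ := Finset.sum_le_sum fun i _ => hterm i
  refine le_trans (le_of_eq ?_) htot
  have h1 : c ^ 2 * D = 16 * t / D := by
    rw [hc, div_pow, mul_pow, pow_two (√t), hst]
    field_simp
    norm_num
  have h2 : 8 * c * √t = 32 * t / D := by
    rw [hc]
    calc 8 * (4 * √t / D) * √t = 32 * (√t * √t) / D := by ring
      _ = 32 * t / D := by rw [hst]
  rw [h1, h2]
  ring

end E8

section E9

variable {H : Type} [NormedAddCommGroup H] [InnerProductSpace ℂ H] [CompleteSpace H]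


theorem E9_al_im : al.im ≠ 0 := by
  unfold al
  rw [Complex.div_ofReal_im, Complex.I_im]
  positivity

theorem E9_al_conj : (starRingEnd ℂ) al = -al := by
  unfold al
  rw [map_div₀, Complex.conj_I, Complex.conj_ofReal]
  ring

/-- the two resolvent type elements are units -/
theorem E9_unit (a : H →L[ℂ] H) (ha : IsSelfAdjoint a) (c : ℂ) (hc : c.im ≠ 0) :
    IsUnit (a - c • (1 : H →L[ℂ] H)) := by
  have h1 : c ∉ spectrum ℂ a := fun h => hc (ha.im_eq_zero_of_mem_spectrum h)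
  rw [spectrum.notMem_iff, Algebra.algebraMap_eq_smul_one] at h1
  have h2 : a - c • (1 : H →L[ℂ] H) = -(c • (1 : H →L[ℂ] H) - a) := by abel
  rw [h2]
  exact h1.neg

theorem E9_cay (a : H →L[ℂ] H) (ha : IsSelfAdjoint a) :
    ∃ u v : (H →L[ℂ] H)ˣ, (u : H →L[ℂ] H) = a - al • (1 : H →L[ℂ] H) ∧
      (v : H →L[ℂ] H) = a + al • (1 : H →L[ℂ] H) ∧
      cay a = ((v * u⁻¹ : (H →L[ℂ] H)ˣ) : H →L[ℂ] H) ∧
      star (cay a) = ((v⁻¹ * u : (H →L[ℂ] H)ˣ) : H →L[ℂ] H) ∧ Commute u v := by
  obtain ⟨u, hu⟩ := E9_unit a ha al E9_al_im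
  obtain ⟨v, hv⟩ := E9_unit a ha (-al) (by rw [Complex.neg_im]; exact neg_ne_zero.2 E9_al_im)
  have hv' : (v : H →L[ℂ] H) = a + al • (1 : H →L[ℂ] H) := by rw [hv, neg_smul, sub_neg_eq_add]
  have hsu : star (u : H →L[ℂ] H) = (v : H →L[ℂ] H) := by
    rw [hu, hv', star_sub, star_smul, star_one, ha.star_eq]
    have : star al = -al := E9_al_conj
    rw [this, neg_smul, sub_neg_eq_add]
  have hsv : star (v : H →L[ℂ] H) = (u : H →L[ℂ] H) := by
    rw [← hsu, star_star]
  have hcay : cay a = ((v * u⁻¹ : (H →L[ℂ] H)ˣ) : H →L[ℂ] H) := by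
    unfold cay
    rw [← hu, ← hv', Ring.inverse_unit, Units.val_mul]
  have hcomm : Commute u v := by
    apply Units.ext
    rw [Units.val_mul, Units.val_mul, hu, hv']
    have h1 : Commute a (al • (1 : H →L[ℂ] H)) := (Commute.one_right a).smul_right al
    have h2 := h1.eq
    rw [sub_mul, mul_add, mul_add, add_mul, mul_sub, mul_sub, h2]
    abel
  refine ⟨u, v, hu, hv', hcay, ?_, hcomm⟩
  have hsinv : star ((u⁻¹ : (H →L[ℂ] H)ˣ) : H →L[ℂ] H) = ((v⁻¹ : (H →L[ℂ] H)ˣ) : H →L[ℂ] H) := by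
    have h1 : star ((u⁻¹ : (H →L[ℂ] H)ˣ) : H →L[ℂ] H) * (v : H →L[ℂ] H) = 1 := by
      rw [← hsu, ← star_mul, Units.mul_inv, star_one]
    have h3 : star ((u⁻¹ : (H →L[ℂ] H)ˣ) : H →L[ℂ] H) =
        (star ((u⁻¹ : (H →L[ℂ] H)ˣ) : H →L[ℂ] H) * (v : H →L[ℂ] H)) *
          ((v⁻¹ : (H →L[ℂ] H)ˣ) : H →L[ℂ] H) := by
      rw [mul_assoc, Units.mul_inv, mul_one]
    rw [h3, h1, one_mul]
  rw [hcay, Units.val_mul, star_mul, hsinv, hsv, Units.val_mul]

theorem E9_star_mul (a : H →L[ℂ] H) (ha : IsSelfAdjoint a) : star (cay a) * cay a = 1 := by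
  obtain ⟨u, v, -, -, h1, h2, h3⟩ := E9_cay a ha
  rw [h2, h1, ← Units.val_mul]
  have : v⁻¹ * u * (v * u⁻¹) = 1 := by
    rw [mul_assoc, ← mul_assoc u v, h3.eq]
    group
  rw [this, Units.val_one]

theorem E9_norm_cay (a : H →L[ℂ] H) (ha : IsSelfAdjoint a) : ‖cay a‖ ≤ 1 := by
  have h1 : ‖star (cay a) * cay a‖ = ‖cay a‖ * ‖cay a‖ := CStarRing.norm_star_mul_self
  rw [E9_star_mul a ha] at h1
  have h2 : ‖(1 : H →L[ℂ] H)‖ ≤ 1 := ContinuousLinearMap.norm_id_le
  nlinarith [norm_nonneg (cay a)]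

theorem E9_cay_mem (T : StarSubalgebra ℂ (H →L[ℂ] H)) (hT : IsClosed (T : Set (H →L[ℂ] H)))
    (a : H →L[ℂ] H) (ha : IsSelfAdjoint a) (haT : a ∈ T) : cay a ∈ T := by
  obtain ⟨u, v, hu, hv, h1, -, -⟩ := E9_cay a ha
  have hone : (1 : H →L[ℂ] H) ∈ T := one_mem T
  have huT : (u : H →L[ℂ] H) ∈ T := by
    rw [hu]
    exact sub_mem haT (T.smul_mem hone al)
  have hvT : (v : H →L[ℂ] H) ∈ T := by
    rw [hv]
    exact add_mem haT (T.smul_mem hone al)
  have hinv : ((u⁻¹ : (H →L[ℂ] H)ˣ) : H →L[ℂ] H) ∈ T := by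
    have := hT
    have h2 : IsUnit ((⟨(u : H →L[ℂ] H), huT⟩ : T) : H →L[ℂ] H) := u.isUnit
    have h3 : IsUnit (⟨(u : H →L[ℂ] H), huT⟩ : T) := (StarSubalgebra.coe_isUnit T).1 h2
    obtain ⟨w, hw⟩ := h3
    have h4 : ((w : T) : H →L[ℂ] H) = (u : H →L[ℂ] H) := by rw [hw]
    have h5 : (((w⁻¹ : Tˣ) : T) : H →L[ℂ] H) * (u : H →L[ℂ] H) = 1 := by
      rw [← h4, ← MulMemClass.coe_mul, Units.inv_mul]
      rfl
    have h6 : ((u⁻¹ : (H →L[ℂ] H)ˣ) : H →L[ℂ] H) = (((w⁻¹ : Tˣ) : T) : H →L[ℂ] H) := by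
      have h7 : (((w⁻¹ : Tˣ) : T) : H →L[ℂ] H) = ((((w⁻¹ : Tˣ) : T) : H →L[ℂ] H) *
          (u : H →L[ℂ] H)) * ((u⁻¹ : (H →L[ℂ] H)ˣ) : H →L[ℂ] H) := by
        rw [mul_assoc, Units.mul_inv, mul_one]
      rw [h7, h5, one_mul]
    rw [h6]
    exact ((w⁻¹ : Tˣ) : T).2
  rw [h1, Units.val_mul]
  exact mul_mem hvT hinv

theorem E9_Ab_closed (S : FS I0 H) : IsClosed (S.Ab : Set (H →L[ℂ] H)) := by
  unfold FS.Ab
  exact StarSubalgebra.isClosed_topologicalClosure _

theorem E9_xb_mem (S : FS I0 H) (i : Fin 3) : S.xb i ∈ S.Ab := by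
  unfold FS.Ab
  exact StarSubalgebra.le_topologicalClosure _ (StarAlgebra.subset_adjoin ℂ _ ⟨i, rfl⟩)

theorem E9_xb_sa (S : FS I0 H) (i : Fin 3) : IsSelfAdjoint (S.xb i) := S.s_sa _

theorem E9_Wd (S : FS I0 H) (b : List (Fin 3)) : Wd b S.xb ∈ S.Ab ∧ ‖Wd b S.xb‖ ≤ 1 := by
  unfold Wd
  induction b with
  | nil =>
    rw [List.map_nil, List.prod_nil]
    exact ⟨one_mem _, ContinuousLinearMap.norm_id_le⟩
  | cons i b ih =>
    rw [List.map_cons, List.prod_cons]
    refine ⟨mul_mem (E9_cay_mem S.Ab (E9_Ab_closed S) _ (E9_xb_sa S i) (E9_xb_mem S i)) ih.1, ?_⟩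
    have h1 := E9_norm_cay (S.xb i) (E9_xb_sa S i)
    calc ‖cay (S.xb i) * (List.map (fun i => cay (S.xb i)) b).prod‖
        ≤ ‖cay (S.xb i)‖ * ‖(List.map (fun i => cay (S.xb i)) b).prod‖ := norm_mul_le _ _
      _ ≤ 1 * 1 := mul_le_mul h1 ih.2 (norm_nonneg _) zero_le_one
      _ = 1 := one_mul 1

/-- `Fb b xb` is a self-adjoint element of the norm closed algebra, of norm at most 2 -/
theorem FS.Fb_mem (S : FS I0 H) (b : List (Fin 3)) :
    Fb b S.xb ∈ S.Ab ∧ IsSelfAdjoint (Fb b S.xb) ∧ ‖Fb b S.xb‖ ≤ 2 := by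
  obtain ⟨h1, h2⟩ := E9_Wd S b
  refine ⟨add_mem h1 (star_mem h1), IsSelfAdjoint.add_star_self _, ?_⟩
  calc ‖Fb b S.xb‖ ≤ ‖Wd b S.xb‖ + ‖star (Wd b S.xb)‖ := norm_add_le _ _
    _ = ‖Wd b S.xb‖ + ‖Wd b S.xb‖ := by rw [norm_star]
    _ ≤ 1 + 1 := add_le_add h2 h2
    _ = 2 := by norm_num

theorem E9_commutant (S : FS I0 H) (z : H →L[ℂ] H)
    (h1 : ∀ i, z * S.xb i = S.xb i * z) (h2 : ∀ i, star z * S.xb i = S.xb i * star z)
    (a : H →L[ℂ] H) (ha : a ∈ S.Ab) : z * a = a * z := by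
  have h3 : S.Ab ≤ StarSubalgebra.centralizer ℂ {z} := by
    unfold FS.Ab
    apply StarSubalgebra.topologicalClosure_minimal
    · apply StarAlgebra.adjoin_le
      rintro x ⟨i, rfl⟩
      rw [SetLike.mem_coe, StarSubalgebra.mem_centralizer_iff]
      intro g hg
      rw [Set.mem_singleton_iff] at hg
      subst hg
      exact ⟨h1 i, h2 i⟩
    · rw [StarSubalgebra.coe_centralizer]
      exact Set.isClosed_centralizer _
  have h4 := h3 ha
  rw [StarSubalgebra.mem_centralizer_iff] at h4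
  exact (h4 z (Set.mem_singleton z)).1

/-- elements of `Ab` commute with the right semicirculars -/
theorem FS.Ab_comm (S : FS I0 H) (a : H →L[ℂ] H) (ha : a ∈ S.Ab) (i : I0) :
    a * S.d i = S.d i * a := by
  have h0 : star (S.d i) = S.d i := by
    rw [S.d_eq, star_add, star_star, add_comm]
  refine (E9_commutant S (S.d i) (fun j => (S.comm _ i).symm) (fun j => ?_) a ha).symm
  rw [h0]
  exact (S.comm _ i).symm

/-- elements of `Ab` commute with the right annihilations of the noise indices -/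
theorem FS.Ab_ra (S : FS I0 H) (a : H →L[ℂ] H) (ha : a ∈ S.Ab) (j : Fin 4 ⊕ Fin 4) :
    a * S.ra (Sum.inr j) = S.ra (Sum.inr j) * a := by
  have h0 : ∀ k, S.ra (Sum.inr j) * S.xb k = S.xb k * S.ra (Sum.inr j) := by
    intro k
    exact S.ra_s (Sum.inr j) (Sum.inl k) (by simp)
  refine (E9_commutant S (S.ra (Sum.inr j)) h0 (fun k => ?_) a ha).symm
  have h1 := congrArg star (h0 k)
  rw [star_mul, star_mul, (E9_xb_sa S k).star_eq] at h1
  exact h1.symm

end E9

section E3B

variable {H : Type} [NormedAddCommGroup H] [InnerProductSpace ℂ H] [CompleteSpace H]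



theorem FS.isFreeSemi' (S : FS I0 H) (xl : H →L[ℂ] H) (hx : xl ∈ S.Ab)
    (hmom : ∀ (c : Unit → I0 → ℝ), (∀ k l, ∑ i, c k i * c l i = if k = l then 1 else 0) →
      ∀ w : List Unit, tau S.Ω ((w.map fun k => ∑ i, ((c k i : ℝ) : ℂ) • S.s i).prod) = mom w)
    (hrep : ∀ k : ℕ, mom (List.replicate (2 * k) ()) = (catalan k : ℂ) ∧
      mom (List.replicate (2 * k + 1) ()) = 0)
    (hfree : ∀ c : I0 → Option (Fin 4 ⊕ Fin 4), IsFreeFam S.Ω (fun k =>
      (StarAlgebra.adjoin ℂ (S.s '' {i | c i = k})).topologicalClosure)) :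
    IsFreeSemi S.Ω (S.tup xl) (fun j : Fin 4 ⊕ Fin 4 => S.s (Sum.inr j)) := by
  refine ⟨fun j => ?_, ?_⟩
  · have key : ∀ n : ℕ, tau S.Ω ((S.s (Sum.inr j)) ^ n) = mom (List.replicate n ()) := by
      intro n
      have h := hmom (fun _ i => if i = Sum.inr j then 1 else 0) (by
        intro k l
        have hkl : k = l := Subsingleton.elim _ _
        simp [hkl]) (List.replicate n ())
      rw [List.map_replicate, List.prod_replicate] at h
      have e : (∑ i : I0, (((if i = Sum.inr j then (1 : ℝ) else 0) : ℝ) : ℂ) • S.s i) =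
          S.s (Sum.inr j) := by
        rw [Finset.sum_eq_single (Sum.inr j)]
        · simp
        · intro b _ hb
          simp [hb]
        · intro h
          exact absurd (Finset.mem_univ _) h
      rw [e] at h
      exact h
    refine ⟨S.s_sa _, fun k => ?_, fun k => ?_⟩
    · rw [key]; exact (hrep k).1
    · rw [key]; exact (hrep k).2
  · set c : I0 → Option (Fin 4 ⊕ Fin 4) := Sum.elim (fun _ => none) some with hc
    intro l hl hch hmem
    refine hfree c l hl hch (fun p hp => ⟨?_, (hmem p hp).2⟩)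
    have h1 := (hmem p hp).1
    rcases hp1 : p.1 with _ | j
    · rw [hp1] at h1
      have hsub : S.Ab ≤ (StarAlgebra.adjoin ℂ (S.s '' {i | c i = none})).topologicalClosure := by
        refine StarSubalgebra.topologicalClosure_mono ?_
        refine StarAlgebra.adjoin_mono ?_
        rintro _ ⟨i, rfl⟩
        exact ⟨Sum.inl i, rfl, rfl⟩
      have hle : StarAlgebra.adjoin ℂ (Set.range (S.tup xl)) ≤ S.Ab := by
        rw [StarAlgebra.adjoin_le_iff]
        rintro _ ⟨i, rfl⟩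
        refine Fin.lastCases ?_ (fun i => ?_) i
        · have : S.tup xl (Fin.last 3) = xl := by
            unfold FS.tup
            exact Fin.snoc_last (α := fun _ => (H →L[ℂ] H)) _ _
          rw [this]
          exact hx
        · have : S.tup xl (Fin.castSucc i) = S.xb i := by
            unfold FS.tup
            exact Fin.snoc_castSucc (α := fun _ => (H →L[ℂ] H)) _ _ _
          rw [this]
          exact StarSubalgebra.le_topologicalClosure _ (StarAlgebra.subset_adjoin ℂ _ ⟨i, rfl⟩)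
      exact hsub (hle h1)
    · rw [hp1] at h1
      refine StarSubalgebra.le_topologicalClosure _ (StarAlgebra.adjoin_mono ?_ h1)
      rintro _ rfl
      exact ⟨Sum.inr j, rfl, rfl⟩

end E3B

section E5

variable {H : Type} [NormedAddCommGroup H] [InnerProductSpace ℂ H] [CompleteSpace H]



/-- orthonormal coefficients -/
noncomputable def e5c (α β : ℝ) : Fin 3 ⊕ Fin 4 → I0 → ℝ
  | Sum.inl a => fun i => if i = Sum.inl a then 1 else 0
  | Sum.inr j => fun i => (if i = Sum.inr (Sum.inl j) then α else 0) +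
      (if i = Sum.inr (Sum.inr j) then β else 0)

theorem e5c_orth (α β : ℝ) (h : α ^ 2 + β ^ 2 = 1) (k l : Fin 3 ⊕ Fin 4) :
    ∑ i, e5c α β k i * e5c α β l i = if k = l then 1 else 0 := by
  rcases k with a | j <;> rcases l with b | m
  · simp only [e5c, ite_mul, one_mul, zero_mul, Finset.sum_ite_eq', Finset.mem_univ, if_true,
      Sum.inl.injEq]
  · simp [e5c]
  · simp [e5c]
  · simp only [e5c, add_mul, ite_mul, zero_mul, Finset.sum_add_distrib, Finset.sum_ite_eq',
      Finset.mem_univ, if_true, Sum.inr.injEq, Sum.inl.injEq, reduceCtorEq, if_false, add_zero,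
      zero_add]
    by_cases hjm : j = m
    · simp only [hjm, if_true]
      nlinarith
    · simp only [hjm, if_false]
      simp

theorem e5c_sum (S : FS I0 H) (α β : ℝ) (k : Fin 3 ⊕ Fin 4) :
    ∑ i, ((e5c α β k i : ℝ) : ℂ) • S.s i =
      Sum.elim S.xb (fun j => (α : ℂ) • S.n1 j + (β : ℂ) • S.n2 j) k := by
  rcases k with a | j
  · simp [e5c, FS.xb]
  · simp only [e5c, Complex.ofReal_add, add_smul, Finset.sum_add_distrib, Sum.elim_inr, FS.n1,
      FS.n2]
    congr 1
    · simp [apply_ite]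
    · simp [apply_ite]

/-- pairs of generators -/
noncomputable def e5g (S : FS I0 H) (α β : ℝ) : Fin 3 ⊕ Fin 4 → (H →L[ℂ] H) × (H →L[ℂ] H) :=
  fun k => (Sum.elim S.xb (fun j => (α : ℂ) • S.n1 j + (β : ℂ) • S.n2 j) k,
    Sum.elim S.xb (fun j => S.n1 j) k)

theorem e5_word (S : FS I0 H) (α β : ℝ) (w : List (Fin 3 ⊕ Fin 4)) :
    ((w.map (e5g S α β)).prod).1 = (w.map (Sum.elim S.xb
      (fun j => (α : ℂ) • S.n1 j + (β : ℂ) • S.n2 j))).prod ∧
    ((w.map (e5g S α β)).prod).2 = (w.map (Sum.elim S.xb (fun j => S.n1 j))).prod := by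
  induction w with
  | nil => simp
  | cons k w ih =>
    simp only [List.map_cons, List.prod_cons, Prod.fst_mul, Prod.snd_mul, ih.1, ih.2]
    exact ⟨rfl, rfl⟩

/-- pairs with the same trace -/
noncomputable def e5T (Ω : H) : Submodule ℂ ((H →L[ℂ] H) × (H →L[ℂ] H)) where
  carrier := {p | tau Ω p.1 = tau Ω p.2}
  add_mem' := by
    intro p q hp hq
    simp only [Set.mem_ofPred_eq, tau, Prod.fst_add, Prod.snd_add, add_apply,
      inner_add_right] at *
    rw [hp, hq]
  zero_mem' := by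
    simp [tau]
  smul_mem' := by
    intro c p hp
    simp only [Set.mem_ofPred_eq, tau, Prod.smul_fst, Prod.smul_snd, smul_apply,
      inner_smul_right] at *
    rw [hp]

theorem e5T_closed (Ω : H) : IsClosed (e5T Ω : Set ((H →L[ℂ] H) × (H →L[ℂ] H))) := by
  have h1 : Continuous (fun p : (H →L[ℂ] H) × (H →L[ℂ] H) => tau Ω p.1) := by
    unfold tau
    fun_prop
  have h2 : Continuous (fun p : (H →L[ℂ] H) × (H →L[ℂ] H) => tau Ω p.2) := by
    unfold tau
    fun_prop
  exact isClosed_eq h1 h2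

theorem e5_adjoin_le (S : FS I0 H) (α β : ℝ)
    (h : ∀ w : List (Fin 3 ⊕ Fin 4), tau S.Ω (w.map (Sum.elim S.xb
      (fun j => (α : ℂ) • S.n1 j + (β : ℂ) • S.n2 j))).prod =
        tau S.Ω (w.map (Sum.elim S.xb (fun j => S.n1 j))).prod) :
    Subalgebra.toSubmodule (Algebra.adjoin ℂ (Set.range (e5g S α β))) ≤ e5T S.Ω := by
  rw [Algebra.adjoin_eq_span, Submodule.span_le]
  intro p hp
  have h1 : ∃ w : List (Fin 3 ⊕ Fin 4), p = (w.map (e5g S α β)).prod := by
    refine Submonoid.closure_induction (motive := fun p _ => ∃ w : List (Fin 3 ⊕ Fin 4),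
      p = (w.map (e5g S α β)).prod) ?_ ?_ ?_ hp
    · rintro _ ⟨k, rfl⟩
      exact ⟨[k], by simp⟩
    · exact ⟨[], by simp⟩
    · rintro x y _ _ ⟨w1, rfl⟩ ⟨w2, rfl⟩
      exact ⟨w1 ++ w2, by simp⟩
  obtain ⟨w, rfl⟩ := h1
  show tau S.Ω _ = tau S.Ω _
  rw [(e5_word S α β w).1, (e5_word S α β w).2]
  exact h w

theorem e5_diag (S : FS I0 H) (α β : ℝ) (a : H →L[ℂ] H) (ha : a ∈ S.Ab) :
    (a, a) ∈ (Algebra.adjoin ℂ (Set.range (e5g S α β))).topologicalClosure := by
  have h1 : ∀ b ∈ StarAlgebra.adjoin ℂ (Set.range S.xb),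
      (b, b) ∈ Algebra.adjoin ℂ (Set.range (e5g S α β)) := by
    intro b hb
    have hb' : b ∈ Algebra.adjoin ℂ (Set.range S.xb ∪ star (Set.range S.xb)) := by
      rw [← StarAlgebra.adjoin_toSubalgebra]
      exact hb
    refine Algebra.adjoin_induction (p := fun b _ =>
      (b, b) ∈ Algebra.adjoin ℂ (Set.range (e5g S α β))) ?_ ?_ ?_ ?_ hb'
    · rintro x (⟨i, rfl⟩ | hx)
      · exact Algebra.subset_adjoin ⟨Sum.inl i, rfl⟩
      · obtain ⟨i, hi⟩ := Set.mem_star.1 hx
        have h2 : x = S.xb i := by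
          rw [← star_star x, ← hi]
          exact (S.s_sa (Sum.inl i)).star_eq
        rw [h2]
        exact Algebra.subset_adjoin ⟨Sum.inl i, rfl⟩
    · intro r
      exact Subalgebra.algebraMap_mem _ r
    · intro x y _ _ hx hy
      exact add_mem hx hy
    · intro x y _ _ hx hy
      exact mul_mem hx hy
  have h2 : a ∈ closure (StarAlgebra.adjoin ℂ (Set.range S.xb) : Set (H →L[ℂ] H)) := ha
  have h3 : Continuous (fun b : H →L[ℂ] H => (b, b)) := continuous_id.prodMk continuous_id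
  exact map_mem_closure (f := fun b : H →L[ℂ] H => (b, b)) h3 h2 h1

theorem e5_tup_mem (S : FS I0 H) (xl : H →L[ℂ] H) (hx : xl ∈ S.Ab) (i : Fin 4) :
    S.tup xl i ∈ S.Ab := by
  refine Fin.lastCases ?_ (fun j => ?_) i
  · unfold FS.tup
    rw [Fin.snoc_last]
    exact hx
  · unfold FS.tup
    rw [Fin.snoc_castSucc]
    exact subset_closure (StarAlgebra.subset_adjoin ℂ _ ⟨j, rfl⟩)

theorem e5_tup_sa (S : FS I0 H) (xl : H →L[ℂ] H) (hs : IsSelfAdjoint xl) (i : Fin 4) :
    IsSelfAdjoint (S.tup xl i) := by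
  refine Fin.lastCases ?_ (fun j => ?_) i
  · unfold FS.tup
    rw [Fin.snoc_last]
    exact hs
  · unfold FS.tup
    rw [Fin.snoc_castSucc]
    exact S.s_sa _

theorem e5_pert_sa {x s : Fin 4 → (H →L[ℂ] H)} (hx : ∀ i, IsSelfAdjoint (x i))
    (hs : ∀ i, IsSelfAdjoint (s i)) (t : ℝ) (i : Fin 4) : IsSelfAdjoint (pert x s t i) := by
  unfold pert
  refine (hx i).add ?_
  have : IsSelfAdjoint (((√t : ℝ) : ℂ)) := Complex.conj_ofReal _
  exact this.smul (hs i)

theorem FS.PhiStar_add' (S : FS I0 H) (xl : H →L[ℂ] H) (hx : xl ∈ S.Ab) (hs : IsSelfAdjoint xl)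
    (t u : ℝ) (ht : 0 < t) (hu : 0 < u)
    (hcongr : ∀ x y : Fin 4 → (H →L[ℂ] H), (∀ i, IsSelfAdjoint (x i)) →
      (∀ i, IsSelfAdjoint (y i)) →
      (∀ w : List (Fin 4), tau S.Ω (wd x w) = tau S.Ω (wd y w)) → PhiStar S.Ω x = PhiStar S.Ω y)
    (hmom : ∀ (c : Fin 3 ⊕ Fin 4 → I0 → ℝ),
      (∀ k l, ∑ i, c k i * c l i = if k = l then 1 else 0) →
      ∀ w : List (Fin 3 ⊕ Fin 4),
        tau S.Ω ((w.map fun k => ∑ i, ((c k i : ℝ) : ℂ) • S.s i).prod) = mom w) :
    PhiStar S.Ω (pert (pert (S.tup xl) S.n1 t) S.n2 u) =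
      PhiStar S.Ω (pert (S.tup xl) S.n1 (t + u)) := by
  have htu : 0 < t + u := by linarith
  obtain ⟨α, hα⟩ : ∃ α, α = √t / √(t + u) := ⟨_, rfl⟩
  obtain ⟨β, hβ⟩ : ∃ β, β = √u / √(t + u) := ⟨_, rfl⟩
  have hαβ : α ^ 2 + β ^ 2 = 1 := by
    rw [hα, hβ, div_pow, div_pow, Real.sq_sqrt ht.le, Real.sq_sqrt hu.le, Real.sq_sqrt htu.le]
    field_simp
  have hm1 : ∀ (α β : ℝ), α ^ 2 + β ^ 2 = 1 → ∀ w : List (Fin 3 ⊕ Fin 4),
      tau S.Ω (w.map (Sum.elim S.xb
        (fun j => (α : ℂ) • S.n1 j + (β : ℂ) • S.n2 j))).prod = mom w := by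
    intro α β h w
    rw [← hmom (e5c α β) (e5c_orth α β h) w]
    congr 3
    funext k
    exact (e5c_sum S α β k).symm
  have hm2 : ∀ w : List (Fin 3 ⊕ Fin 4),
      tau S.Ω (w.map (Sum.elim S.xb (fun j => S.n1 j))).prod = mom w := by
    intro w
    rw [← hm1 1 0 (by norm_num) w]
    congr 4
    funext j
    simp
  have hle := e5_adjoin_le S α β (fun w => by rw [hm1 α β hαβ w, hm2 w])
  have hcl : ∀ p ∈ (Algebra.adjoin ℂ (Set.range (e5g S α β))).topologicalClosure,
      tau S.Ω p.1 = tau S.Ω p.2 := by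
    intro p hp
    exact closure_minimal (s := (Algebra.adjoin ℂ (Set.range (e5g S α β)) :
      Set ((H →L[ℂ] H) × (H →L[ℂ] H)))) (fun q hq => hle hq) (e5T_closed S.Ω) hp
  have hsq : √(t + u) ≠ 0 := (Real.sqrt_pos.2 htu).ne'
  have hpair : ∀ i, (pert (pert (S.tup xl) S.n1 t) S.n2 u i, pert (S.tup xl) S.n1 (t + u) i) ∈
      (Algebra.adjoin ℂ (Set.range (e5g S α β))).topologicalClosure := by
    intro i
    have h1 := e5_diag S α β _ (e5_tup_mem S xl hx i)
    have h2 : e5g S α β (Sum.inr i) ∈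
        (Algebra.adjoin ℂ (Set.range (e5g S α β))).topologicalClosure :=
      Subalgebra.le_topologicalClosure _ (Algebra.subset_adjoin ⟨_, rfl⟩)
    have h3 := add_mem h1 (Subalgebra.smul_mem _ h2 ((√(t + u) : ℝ) : ℂ))
    have h4 : (pert (pert (S.tup xl) S.n1 t) S.n2 u i, pert (S.tup xl) S.n1 (t + u) i) =
        (S.tup xl i, S.tup xl i) + ((√(t + u) : ℝ) : ℂ) • e5g S α β (Sum.inr i) := by
      apply Prod.ext
      · simp only [pert, e5g, Sum.elim_inr, Prod.fst_add, Prod.smul_fst, smul_add, smul_smul]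
        rw [← Complex.ofReal_mul, ← Complex.ofReal_mul, hα, hβ, mul_div_cancel₀ _ hsq,
          mul_div_cancel₀ _ hsq, add_assoc]
      · simp only [pert, e5g, Sum.elim_inr, Prod.snd_add, Prod.smul_snd]
    rw [h4]
    exact h3
  apply hcongr
  · exact e5_pert_sa (e5_pert_sa (e5_tup_sa S xl hs) (fun i => S.s_sa _) t) (fun i => S.s_sa _) u
  · exact e5_pert_sa (e5_tup_sa S xl hs) (fun i => S.s_sa _) (t + u)
  · intro w
    have h5 : ∀ w : List (Fin 4), (wd (pert (pert (S.tup xl) S.n1 t) S.n2 u) w,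
        wd (pert (S.tup xl) S.n1 (t + u)) w) ∈
        (Algebra.adjoin ℂ (Set.range (e5g S α β))).topologicalClosure := by
      intro w
      induction w with
      | nil => exact one_mem _
      | cons i w ih =>
        have h6 := mul_mem (hpair i) ih
        unfold wd at *
        rw [List.map_cons, List.prod_cons, List.map_cons, List.prod_cons]
        exact h6
    exact hcl _ (h5 w)

end E5


/-- E1 -/
theorem exists_FS (ι : Type) [Countable ι] : ∃ (H : Type) (_ : NormedAddCommGroup H)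
    (_ : InnerProductSpace ℂ H) (_ : CompleteSpace H), Nonempty (FS ι H) := by
  classical
  exact ⟨_, _, _, inferInstance, exists_FS_of fun f hf => exists_shift f hf⟩

variable {H : Type} [NormedAddCommGroup H] [InnerProductSpace ℂ H] [CompleteSpace H]

/-- E3 -/
theorem FS.isFreeSemi (S : FS I0 H) (xl : H →L[ℂ] H) (hx : xl ∈ S.Ab) :
    IsFreeSemi S.Ω (S.tup xl) (fun j : Fin 4 ⊕ Fin 4 => S.s (Sum.inr j)) := by
  exact S.isFreeSemi' xl hx (fun c hc w => S.mom_comb c hc w) (fun k => mom_replicate () k)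
    (fun c => S.free_groups c)

/-- E5 -/
theorem FS.PhiStar_add (S : FS I0 H) (xl : H →L[ℂ] H) (hx : xl ∈ S.Ab) (hs : IsSelfAdjoint xl)
    (t u : ℝ) (ht : 0 < t) (hu : 0 < u) :
    PhiStar S.Ω (pert (pert (S.tup xl) S.n1 t) S.n2 u) =
      PhiStar S.Ω (pert (S.tup xl) S.n1 (t + u)) := by
  exact S.PhiStar_add' xl hx hs t u ht hu (fun x y hx hy h => PhiStar_congr S.Ω x y hx hy h)
    (fun c hc w => S.mom_comb c hc w)

end Pool.Agent.Helper38.FE
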