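import Pool.Agent.Helper38.FE.GueB

/-! MODULE D: GUE matrices converge to the Fock system (`gue_norm`, `gue_conv`, `gue_conv3` are in `GueA`, `GueB`). -/
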