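import Pool.Agent.Helper38.FE.Base

/-! Module D: definitions. -/

set_option autoImplicit false
set_option linter.unusedVariables false
set_option linter.unusedSectionVars false

open MeasureTheory Filter Topology ProbabilityTheory
open scoped InnerProductSpace ENNReal

namespace Pool.Agent.Helper38.FE

variable {ι : Type} [Fintype ι] [DecidableEq ι]

/-- the event that all matrices have norm at most `L` -/
def good (N : ℕ) (L : ℝ) : Set (EuclideanSpace ℝ (ι × Fin N × Fin N)) :=
  {x | ∀ i, ‖Xm N x i‖ ≤ L}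

/-- letters which are unitaries -/
def isU : Lt ι → Prop
  | Lt.X _ => False
  | Lt.U _ => True
  | Lt.V _ => True

/-- the Gaussian measure of the GUE coordinates -/
noncomputable abbrev gue (ι : Type) [Fintype ι] (N : ℕ) :
    Measure (EuclideanSpace ℝ (ι × Fin N × Fin N)) :=
  stdGaussian (EuclideanSpace ℝ (ι × Fin N × Fin N))

/-- pure words -/
noncomputable def Wp {κ A : Type} [Monoid A] (x : κ → A) (w : List κ) : A := (w.map x).prod

/-- all splittings `v = a ++ i :: b` -/
def spl {κ : Type} [DecidableEq κ] (i : κ) : List κ → List (List κ × List κ)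
  | [] => []
  | j :: v => (if j = i then [([], v)] else []) ++ (spl i v).map fun p => (j :: p.1, p.2)

/-- mixed moments `E ∏ tr w_j(X)` -/
noncomputable def mN (N : ℕ) (l : List (List ι)) : ℂ :=
  ∫ x, (l.map fun w => tr (Wp (Xm N x) w)).prod ∂(gue ι N)

/-- evaluation of a letter, the Cayley transform being replaced by the polynomial `q` -/
noncomputable def evLq {κ A : Type} [Ring A] [StarRing A] [Algebra ℂ A] (q : Polynomial ℂ)
    (x : κ → A) : Lt κ → A
  | Lt.X i => x i
  | Lt.U i => Polynomial.aeval (x i) q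
  | Lt.V i => star (Polynomial.aeval (x i) q)

/-- evaluation of a word, the Cayley transform being replaced by the polynomial `q` -/
noncomputable def evWq {κ A : Type} [Ring A] [StarRing A] [Algebra ℂ A] (q : Polynomial ℂ)
    (x : κ → A) (w : List (Lt κ)) : A := (w.map (evLq q x)).prod

/-- adjoint of a letter -/
def stL {κ : Type} : Lt κ → Lt κ
  | Lt.X i => Lt.X i
  | Lt.U i => Lt.V i
  | Lt.V i => Lt.U i

/-- adjoint of a word -/
def stW {κ : Type} (w : List (Lt κ)) : List (Lt κ) := (w.map stL).reverse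

/-- `C¹` maps of polynomial growth -/
def PG {I E : Type} [Fintype I] [NormedAddCommGroup E] [NormedSpace ℝ E]
    (φ : EuclideanSpace ℝ I → E) : Prop :=
  ContDiff ℝ 1 φ ∧ ∃ (C : ℝ) (m : ℕ), ∀ x, ‖φ x‖ ≤ C * (1 + ‖x‖) ^ m ∧
    ‖fderiv ℝ φ x‖ ≤ C * (1 + ‖x‖) ^ m

/-- `q` approximates the Cayley function on `[-L, L]` up to `ε` -/
def Appr (q : Polynomial ℂ) (L ε : ℝ) : Prop :=
  ∀ y : ℝ, |y| ≤ L → ‖q.eval (y : ℂ) - ((y : ℂ) + al) / ((y : ℂ) - al)‖ ≤ ε

end Pool.Agent.Helper38.FE
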