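import Pool.Agent.Helper38.FE.GueA

/-! MODULE D: GUE matrices converge to the Fock system. -/

set_option autoImplicit false
set_option linter.unusedVariables false
set_option linter.unusedSectionVars false

open MeasureTheory Filter Topology ProbabilityTheory
open scoped InnerProductSpace ENNReal

namespace Pool.Agent.Helper38.FE

variable {ι : Type} [Fintype ι] [DecidableEq ι]

section

theorem aux_mulP {κ : Type} (P Q : List (ℂ × List κ)) (A : Type) [Ring A] [Algebra ℂ A]
    (x : κ → A) :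
    ((P.flatMap fun c => Q.map fun d => (c.1 * d.1, c.2 ++ d.2)).map
      fun c => c.1 • Wp x c.2).sum =
    (P.map fun c => c.1 • Wp x c.2).sum * (Q.map fun c => c.1 • Wp x c.2).sum := by
  induction P with
  | nil => simp
  | cons c P ih =>
    rw [List.flatMap_cons, List.map_append, List.sum_append, ih, List.map_cons, List.sum_cons,
      add_mul]
    congr 1
    rw [List.map_map, ← List.sum_map_mul_left]
    congr 1
    apply List.map_congr_left
    intro d _
    simp only [Function.comp_apply, Wp, List.map_append, List.prod_append, smul_mul_smul_comm]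

theorem aux_range {κ : Type} (f : ℕ → ℂ) (n : ℕ) (i : κ) (A : Type) [Ring A] [Algebra ℂ A]
    (x : κ → A) :
    (((List.range n).map fun k => (f k, List.replicate k i)).map fun c => c.1 • Wp x c.2).sum =
      ∑ k ∈ Finset.range n, f k • x i ^ k := by
  induction n with
  | zero => simp
  | succ n ih =>
    rw [List.range_succ, List.map_append, List.map_append, List.sum_append, ih,
      Finset.sum_range_succ]
    simp [Wp]

/-- polynomial words are linear combinations of pure words, uniformly in the algebra -/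
theorem evWq_poly (q : Polynomial ℂ) (w : List (Lt ι)) : ∃ P : List (ℂ × List ι),
    ∀ (A : Type) [Ring A] [StarRing A] [Algebra ℂ A] [StarModule ℂ A] (x : ι → A),
      (∀ i, IsSelfAdjoint (x i)) →
      evWq q x w = (P.map fun c => c.1 • Wp x c.2).sum := by
  induction w with
  | nil =>
    refine ⟨[(1, [])], ?_⟩
    intro A _ _ _ _ x hx
    simp [evWq, Wp]
  | cons a w ih =>
    obtain ⟨Q, hQ⟩ := ih
    have hL : ∃ P : List (ℂ × List ι),
        ∀ (A : Type) [Ring A] [StarRing A] [Algebra ℂ A] [StarModule ℂ A] (x : ι → A),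
          (∀ i, IsSelfAdjoint (x i)) →
          evLq q x a = (P.map fun c => c.1 • Wp x c.2).sum := by
      cases a with
      | X i =>
        refine ⟨[(1, [i])], ?_⟩
        intro A _ _ _ _ x hx
        simp [evLq, Wp]
      | U i =>
        refine ⟨(List.range (q.natDegree + 1)).map fun k => (q.coeff k, List.replicate k i), ?_⟩
        intro A _ _ _ _ x hx
        rw [aux_range]
        exact Polynomial.aeval_eq_sum_range _
      | V i =>
        refine ⟨(List.range (q.natDegree + 1)).map fun k =>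
          (star (q.coeff k), List.replicate k i), ?_⟩
        intro A _ _ _ _ x hx
        rw [aux_range]
        show star (Polynomial.aeval (x i) q) = _
        rw [Polynomial.aeval_eq_sum_range, star_sum]
        apply Finset.sum_congr rfl
        intro k _
        rw [star_smul, star_pow, (hx i).star_eq]
    obtain ⟨P, hP⟩ := hL
    refine ⟨P.flatMap fun c => Q.map fun d => (c.1 * d.1, c.2 ++ d.2), ?_⟩
    intro A _ _ _ _ x hx
    rw [aux_mulP, ← hP A x hx, ← hQ A x hx]
    simp [evWq]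

end

section

/-- adjoint of a word -/
theorem evWq_star (q : Polynomial ℂ) (w : List (Lt ι)) (A : Type) [Ring A] [StarRing A]
    [Algebra ℂ A] (x : ι → A) (hx : ∀ i, IsSelfAdjoint (x i)) :
    star (evWq q x w) = evWq q x (stW w) := by
  have hl : ∀ a : Lt ι, star (evLq q x a) = evLq q x (stL a) := by
    intro a
    cases a with
    | X i => exact hx i
    | U i => rfl
    | V i => exact star_star _
  induction w with
  | nil => simp [evWq, stW]
  | cons a w ih =>
    have h1 : evWq q x (a :: w) = evLq q x a * evWq q x w := by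
      simp [evWq]
    have h2 : evWq q x (stW (a :: w)) = evWq q x (stW w) * evLq q x (stL a) := by
      simp [evWq, stW]
    rw [h1, h2, star_mul, ih, hl]

end

section

omit [Fintype ι] [DecidableEq ι] in
theorem mqaux_lin {A : Type} [Ring A] [Algebra ℂ A] (L : A → ℂ) (hadd : ∀ a b, L (a + b) = L a + L b)
    (hsmul : ∀ (c : ℂ) a, L (c • a) = c * L a) (x : ι → A) (P : List (ℂ × List ι)) :
    L (P.map fun c => c.1 • Wp x c.2).sum = (P.map fun c => c.1 * L (Wp x c.2)).sum := by
  induction P with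
  | nil =>
    have := hsmul 0 0
    simpa using this
  | cons c P ih =>
    rw [List.map_cons, List.sum_cons, hadd, hsmul, ih, List.map_cons, List.sum_cons]

/-- the mixed integrand -/
noncomputable def mqF (q : Polynomial ℂ) (l : List (List ι)) (ws : List (List (Lt ι))) (N : ℕ)
    (x : EuclideanSpace ℝ (ι × Fin (N + 1) × Fin (N + 1))) : ℂ :=
  (l.map fun v => tr (Wp (Xm (N + 1) x) v)).prod * (ws.map fun w => tr (evWq q (Xm (N + 1) x) w)).prod

theorem mqaux_int (N : ℕ) (l : List (List ι)) :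
    Integrable (fun x => (l.map fun v => tr (Wp (Xm (N + 1) x) v)).prod) (gue ι (N + 1)) := by
  rcases isEmpty_or_nonempty ι with h | ⟨⟨i⟩⟩
  · have : (fun x : EuclideanSpace ℝ (ι × Fin (N + 1) × Fin (N + 1)) =>
        (l.map fun v => tr (Wp (Xm (N + 1) x) v)).prod) =
        fun _ => (l.map fun v => tr (Wp (Xm (N + 1) (0 : EuclideanSpace ℝ (ι × Fin (N + 1) × Fin (N + 1)))) v)).prod := by
      funext x
      have : x = 0 := by
        ext p
        exact h.elim p.1
      rw [this]
    rw [this]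
    exact integrable_const _
  · exact (PG_int _ ((word_PG (ι := ι) (N + 1) (Nat.succ_pos N)).2.2.1 l) (i, 0, 0)).1

theorem mqaux {H : Type} [NormedAddCommGroup H] [InnerProductSpace ℂ H] [CompleteSpace H]
    (S : FS ι H) (q : Polynomial ℂ) (ws : List (List (Lt ι))) : ∀ l : List (List ι),
    (∀ N, Integrable (mqF q l ws N) (gue ι (N + 1))) ∧
    Tendsto (fun N : ℕ => ∫ x, mqF q l ws N x ∂(gue ι (N + 1))) atTop
      (𝓝 ((l.map fun w => tau S.Ω (Wp S.s w)).prod *
        (ws.map fun w => tau S.Ω (evWq q S.s w)).prod)) := by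
  induction ws with
  | nil =>
    intro l
    have e : ∀ N, mqF q l [] N = fun x : EuclideanSpace ℝ (ι × Fin (N + 1) × Fin (N + 1)) =>
        (l.map fun v => tr (Wp (Xm (N + 1) x) v)).prod := by
      intro N
      funext x
      simp [mqF]
    refine ⟨fun N => by rw [e]; exact mqaux_int N l, ?_⟩
    have := mN_tendsto S l
    simp only [e, List.map_nil, List.prod_nil, mul_one]
    exact this
  | cons w ws ih =>
    intro l
    obtain ⟨P, hP⟩ := evWq_poly q w
    have e1 : ∀ N (x : EuclideanSpace ℝ (ι × Fin (N + 1) × Fin (N + 1))),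
        mqF q l (w :: ws) N x = (P.map fun c => c.1 * mqF q (c.2 :: l) ws N x).sum := by
      intro N x
      obtain ⟨tadd, tsmul, -⟩ := tr_basic (N + 1) (Nat.succ_pos N)
      have h1 := hP (BN (N + 1)) (Xm (N + 1) x) ((Xm_basic (N + 1) (Nat.succ_pos N)).1 x)
      have h2 : tr (evWq q (Xm (N + 1) x) w) = (P.map fun c => c.1 * tr (Wp (Xm (N + 1) x) c.2)).sum := by
        rw [h1]
        exact mqaux_lin tr tadd tsmul _ P
      unfold mqF
      rw [List.map_cons, List.prod_cons, h2]
      clear hP h1 h2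
      induction P with
      | nil => simp
      | cons c P ihP =>
        rw [List.map_cons, List.sum_cons, List.map_cons, List.sum_cons, ← ihP, List.map_cons,
          List.prod_cons]
        ring
    have e2 : tau S.Ω (evWq q S.s w) = (P.map fun c => c.1 * tau S.Ω (Wp S.s c.2)).sum := by
      rw [hP (H →L[ℂ] H) S.s S.s_sa]
      exact mqaux_lin (tau S.Ω) (fun a b => by simp [tau, inner_add_right])
        (fun c a => by simp [tau, inner_smul_right]) _ P
    have e3 : (l.map fun w => tau S.Ω (Wp S.s w)).prod *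
        ((w :: ws).map fun w => tau S.Ω (evWq q S.s w)).prod =
        (P.map fun c => c.1 * (((c.2 :: l).map fun w => tau S.Ω (Wp S.s w)).prod *
          (ws.map fun w => tau S.Ω (evWq q S.s w)).prod)).sum := by
      rw [List.map_cons, List.prod_cons, e2]
      clear hP e1 e2
      induction P with
      | nil => simp
      | cons c P ihP =>
        rw [List.map_cons, List.sum_cons, List.map_cons, List.sum_cons, ← ihP, List.map_cons,
          List.prod_cons]
        ring
    rw [e3]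
    have e4 : ∀ N, mqF q l (w :: ws) N = fun x => (P.map fun c => c.1 * mqF q (c.2 :: l) ws N x).sum :=
      fun N => funext (e1 N)
    simp only [e4]
    clear e1 e2 e3 e4 hP
    induction P with
    | nil =>
      refine ⟨fun N => ?_, ?_⟩
      · simp only [List.map_nil, List.sum_nil]
        exact integrable_zero _ _ _
      · simp
    | cons c P ihP =>
      have hc : ∀ N, Integrable (fun x => c.1 * mqF q (c.2 :: l) ws N x) (gue ι (N + 1)) :=
        fun N => ((ih (c.2 :: l)).1 N).const_mul _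
      refine ⟨fun N => ?_, ?_⟩
      · simp only [List.map_cons, List.sum_cons]
        exact (hc N).add (ihP.1 N)
      · simp only [List.map_cons, List.sum_cons]
        have hs : ∀ N, ∫ x, (c.1 * mqF q (c.2 :: l) ws N x +
            (P.map fun c => c.1 * mqF q (c.2 :: l) ws N x).sum) ∂(gue ι (N + 1)) =
            c.1 * ∫ x, mqF q (c.2 :: l) ws N x ∂(gue ι (N + 1)) +
            ∫ x, (P.map fun c => c.1 * mqF q (c.2 :: l) ws N x).sum ∂(gue ι (N + 1)) := by
          intro N
          rw [integral_add (hc N) (ihP.1 N), integral_const_mul]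
        simp only [hs]
        have := ((ih (c.2 :: l)).2.const_mul c.1).add ihP.2
        simpa only [List.map_cons, List.prod_cons] using this
/-- convergence of the mixed moments of polynomial words -/
theorem mq_tendsto {H : Type} [NormedAddCommGroup H] [InnerProductSpace ℂ H] [CompleteSpace H]
    (S : FS ι H) (q : Polynomial ℂ) (ws : List (List (Lt ι))) :
    Tendsto (fun N : ℕ => ∫ x, (ws.map fun w => tr (evWq q (Xm (N + 1) x) w)).prod
      ∂(gue ι (N + 1))) atTop (𝓝 (ws.map fun w => tau S.Ω (evWq q S.s w)).prod) := by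
  have h := (mqaux S q ws []).2
  simpa [mqF] using h

end

section

omit [DecidableEq ι] in
theorem F_int168 [DecidableEq ι] (N : ℕ) (q : Polynomial ℂ) (ws : List (List (Lt ι))) :
    Integrable (fun x => (ws.map fun w => tr (evWq q (Xm (N + 1) x) w)).prod)
      (gue ι (N + 1)) := by
  rcases isEmpty_or_nonempty ι with hι | hι
  · have h0 : (fun x : EuclideanSpace ℝ (ι × Fin (N + 1) × Fin (N + 1)) =>
        (ws.map fun w => tr (evWq q (Xm (N + 1) x) w)).prod) =
        fun _ => (ws.map fun w => tr (evWq q (Xm (N + 1) (0 :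
          EuclideanSpace ℝ (ι × Fin (N + 1) × Fin (N + 1)))) w)).prod := by
      funext x
      have : x = 0 := Subsingleton.elim _ _
      rw [this]
    rw [h0]
    exact integrable_const _
  · obtain ⟨i⟩ := hι
    exact (PG_int _ ((word_PG (N + 1) (Nat.succ_pos N)).2.2.2 q ws) (i, 0, 0)).1

theorem F_sq168 (N : ℕ) (q : Polynomial ℂ) (ws : List (List (Lt ι)))
    (x : EuclideanSpace ℝ (ι × Fin (N + 1) × Fin (N + 1))) :
    ((‖(ws.map fun w => tr (evWq q (Xm (N + 1) x) w)).prod‖ ^ 2 : ℝ) : ℂ) =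
      ((ws ++ ws.map stW).map fun w => tr (evWq q (Xm (N + 1) x) w)).prod := by
  have h1 : ∀ w : List (Lt ι), tr (evWq q (Xm (N + 1) x) (stW w)) =
      star (tr (evWq q (Xm (N + 1) x) w)) := by
    intro w
    rw [← (tr_basic (N + 1) (Nat.succ_pos N)).2.2.2.2.2.1, evWq_star q w _ _
      (fun i => (Xm_basic (N + 1) (Nat.succ_pos N)).1 x i)]
  have h2 : ((ws.map stW).map fun w => tr (evWq q (Xm (N + 1) x) w)).prod =
      star ((ws.map fun w => tr (evWq q (Xm (N + 1) x) w)).prod) := by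
    induction ws with
    | nil => simp
    | cons a l ih =>
      simp only [List.map_cons, List.prod_cons, star_mul', ih, h1]
  rw [List.map_append, List.prod_append, h2]
  push_cast
  exact (Complex.mul_conj' _).symm

/-- the bad event does not contribute -/
theorem mq_bad {H : Type} [NormedAddCommGroup H] [InnerProductSpace ℂ H] [CompleteSpace H]
    (S : FS ι H) (q : Polynomial ℂ) (ws : List (List (Lt ι))) (L : ℝ)
    (hL : Tendsto (fun N : ℕ => (gue ι (N + 1)).real (good (N + 1) L)ᶜ) atTop (𝓝 0)) :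
    Tendsto (fun N : ℕ => ∫ x in (good (N + 1) L)ᶜ,
      (ws.map fun w => tr (evWq q (Xm (N + 1) x) w)).prod ∂(gue ι (N + 1))) atTop (𝓝 0) := by
  have hG := mq_tendsto S q (ws ++ ws.map stW)
  set c := ((ws ++ ws.map stW).map fun w => tau S.Ω (evWq q S.s w)).prod with hc
  -- second moments
  have hsq : ∀ N : ℕ, ∫ x, ‖(ws.map fun w => tr (evWq q (Xm (N + 1) x) w)).prod‖ ^ 2
      ∂(gue ι (N + 1)) = (∫ x, ((ws ++ ws.map stW).map fun w =>
        tr (evWq q (Xm (N + 1) x) w)).prod ∂(gue ι (N + 1))).re := by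
    intro N
    have h1 : (∫ x, ((ws ++ ws.map stW).map fun w =>
        tr (evWq q (Xm (N + 1) x) w)).prod ∂(gue ι (N + 1))) =
        ((∫ x, ‖(ws.map fun w => tr (evWq q (Xm (N + 1) x) w)).prod‖ ^ 2
          ∂(gue ι (N + 1)) : ℝ) : ℂ) := by
      rw [← integral_complex_ofReal]
      refine integral_congr_ae (Eventually.of_forall fun x => ?_)
      exact (F_sq168 N q ws x).symm
    rw [h1, Complex.ofReal_re]
  have hint2 : ∀ N : ℕ, Integrable (fun x =>
      ‖(ws.map fun w => tr (evWq q (Xm (N + 1) x) w)).prod‖ ^ 2) (gue ι (N + 1)) := by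
    intro N
    have h1 := (F_int168 N q (ws ++ ws.map stW)).re
    refine h1.congr (Eventually.of_forall fun x => ?_)
    show Complex.re _ = _
    rw [← F_sq168 N q ws x, Complex.ofReal_re]
  have hlim : Tendsto (fun N : ℕ => ∫ x, ‖(ws.map fun w =>
      tr (evWq q (Xm (N + 1) x) w)).prod‖ ^ 2 ∂(gue ι (N + 1))) atTop (𝓝 c.re) := by
    simp_rw [hsq]
    exact (Complex.continuous_re.tendsto c).comp hG
  have hbd : ∀ᶠ N : ℕ in atTop, ∫ x, ‖(ws.map fun w =>
      tr (evWq q (Xm (N + 1) x) w)).prod‖ ^ 2 ∂(gue ι (N + 1)) ≤ |c.re| + 1 := by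
    have := hlim.eventually (Iio_mem_nhds (show c.re < |c.re| + 1 by
      have := le_abs_self c.re
      linarith))
    filter_upwards [this] with N hN
    exact le_of_lt hN
  rw [Metric.tendsto_atTop']
  intro ε hε
  set M := |c.re| + 1 with hM
  have hMpos : 0 < M := by positivity
  set δ := ε / (2 * M) with hδ
  have hδpos : 0 < δ := by positivity
  have hP : ∀ᶠ N : ℕ in atTop, (gue ι (N + 1)).real (good (N + 1) L)ᶜ < ε / 2 * (4 * δ) :=
    hL.eventually (Iio_mem_nhds (by positivity))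
  obtain ⟨n, hn⟩ := (hbd.and hP).exists_forall_of_atTop
  refine ⟨n, fun N hN => ?_⟩
  obtain ⟨h1, h2⟩ := hn N hN.le
  rw [dist_zero_right]
  have key : ∀ t : ℝ, t ≤ δ * t ^ 2 + 1 / (4 * δ) := by
    intro t
    have h3 : 0 ≤ (2 * δ * t - 1) ^ 2 / (4 * δ) := by positivity
    have h4 : (2 * δ * t - 1) ^ 2 / (4 * δ) = δ * t ^ 2 - t + 1 / (4 * δ) := by
      field_simp
      ring
    linarith
  have hb1 : ‖∫ x in (good (N + 1) L)ᶜ,
      (ws.map fun w => tr (evWq q (Xm (N + 1) x) w)).prod ∂(gue ι (N + 1))‖ ≤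
      ∫ x in (good (N + 1) L)ᶜ,
      ‖(ws.map fun w => tr (evWq q (Xm (N + 1) x) w)).prod‖ ∂(gue ι (N + 1)) :=
    norm_integral_le_integral_norm _
  have hb2 : ∫ x in (good (N + 1) L)ᶜ,
      ‖(ws.map fun w => tr (evWq q (Xm (N + 1) x) w)).prod‖ ∂(gue ι (N + 1)) ≤
      ∫ x in (good (N + 1) L)ᶜ,
      (δ * ‖(ws.map fun w => tr (evWq q (Xm (N + 1) x) w)).prod‖ ^ 2 + 1 / (4 * δ))
        ∂(gue ι (N + 1)) := by
    refine setIntegral_mono (F_int168 N q ws).norm.integrableOn
      (((hint2 N).const_mul δ).add (integrable_const _)).integrableOn ?_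
    intro x
    exact key _
  have hb3 : ∫ x in (good (N + 1) L)ᶜ,
      (δ * ‖(ws.map fun w => tr (evWq q (Xm (N + 1) x) w)).prod‖ ^ 2 + 1 / (4 * δ))
        ∂(gue ι (N + 1)) = (∫ x in (good (N + 1) L)ᶜ,
      δ * ‖(ws.map fun w => tr (evWq q (Xm (N + 1) x) w)).prod‖ ^ 2 ∂(gue ι (N + 1))) +
      (gue ι (N + 1)).real (good (N + 1) L)ᶜ * (1 / (4 * δ)) := by
    rw [integral_add ((hint2 N).const_mul δ).integrableOn (integrable_const _).integrableOn,
      setIntegral_const, smul_eq_mul]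
  have hb4 : ∫ x in (good (N + 1) L)ᶜ,
      δ * ‖(ws.map fun w => tr (evWq q (Xm (N + 1) x) w)).prod‖ ^ 2 ∂(gue ι (N + 1)) ≤
      ∫ x, δ * ‖(ws.map fun w => tr (evWq q (Xm (N + 1) x) w)).prod‖ ^ 2 ∂(gue ι (N + 1)) :=
    setIntegral_le_integral ((hint2 N).const_mul δ)
      (Eventually.of_forall fun x => by
        show (0 : ℝ) ≤ _
        positivity)
  have hb4' : ∫ x, δ * ‖(ws.map fun w => tr (evWq q (Xm (N + 1) x) w)).prod‖ ^ 2
      ∂(gue ι (N + 1)) = δ * ∫ x, ‖(ws.map fun w => tr (evWq q (Xm (N + 1) x) w)).prod‖ ^ 2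
      ∂(gue ι (N + 1)) := integral_const_mul _ _
  have hb5 : δ * ∫ x, ‖(ws.map fun w => tr (evWq q (Xm (N + 1) x) w)).prod‖ ^ 2
      ∂(gue ι (N + 1)) ≤ δ * M := mul_le_mul_of_nonneg_left h1 hδpos.le
  have hb6 : δ * M = ε / 2 := by
    rw [hδ]
    field_simp
  have hb7 : (gue ι (N + 1)).real (good (N + 1) L)ᶜ * (1 / (4 * δ)) < ε / 2 := by
    rw [mul_one_div, div_lt_iff₀ (by positivity)]
    exact h2
  linarith

end

section

theorem mq_good_meas (N : ℕ) (L : ℝ) :
    MeasurableSet (good (ι := ι) (N + 1) L) := by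
  have hc : IsClosed (good (ι := ι) (N + 1) L) := by
    have : good (ι := ι) (N + 1) L = ⋂ i : ι, {x | ‖Xm (N + 1) x i‖ ≤ L} := by
      ext x; simp [good]
    rw [this]
    refine isClosed_iInter fun i => ?_
    obtain ⟨T, hT, -⟩ := (Xm_basic (ι := ι) (N + 1) (Nat.succ_pos N)).2.1 i
    have h2 : {x : EuclideanSpace ℝ (ι × Fin (N + 1) × Fin (N + 1)) | ‖Xm (N + 1) x i‖ ≤ L} =
        {x | ‖T x‖ ≤ L} := by
      ext x; simp [hT]
    rw [h2]
    exact isClosed_le T.continuous.norm continuous_const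
  exact hc.measurableSet

/-- convergence of the mixed moments of polynomial words on the good event -/
theorem mq_good {H : Type} [NormedAddCommGroup H] [InnerProductSpace ℂ H] [CompleteSpace H]
    (S : FS ι H) (q : Polynomial ℂ) (ws : List (List (Lt ι))) (L : ℝ)
    (hL : Tendsto (fun N : ℕ => (gue ι (N + 1)).real (good (N + 1) L)ᶜ) atTop (𝓝 0)) :
    Tendsto (fun N : ℕ => ∫ x in good (N + 1) L,
      (ws.map fun w => tr (evWq q (Xm (N + 1) x) w)).prod ∂(gue ι (N + 1))) atTop
      (𝓝 (ws.map fun w => tau S.Ω (evWq q S.s w)).prod) := by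
  rcases isEmpty_or_nonempty ι with hι | ⟨⟨i₀⟩⟩
  · have hg : ∀ N : ℕ, good (ι := ι) (N + 1) L = Set.univ := by
      intro N
      ext x
      simp [good]
    simp only [hg, Measure.restrict_univ]
    exact mq_tendsto S q ws
  · have h1 := (mq_tendsto S q ws).sub (mq_bad S q ws L hL)
    rw [sub_zero] at h1
    refine h1.congr fun N => ?_
    have hint : Integrable (fun x : EuclideanSpace ℝ (ι × Fin (N + 1) × Fin (N + 1)) =>
        (ws.map fun w => tr (evWq q (Xm (N + 1) x) w)).prod) (gue ι (N + 1)) :=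
      (PG_int _ ((word_PG (ι := ι) (N + 1) (Nat.succ_pos N)).2.2.2 q ws) (i₀, 0, 0)).1
    rw [← integral_add_compl (mq_good_meas N L) hint]
    ring

end

section

/-- Weierstrass approximation of the Cayley function -/
theorem weier (L ε : ℝ) (hε : 0 < ε) : ∃ q : Polynomial ℂ, Appr q L ε := by
  classical
  have hden : ∀ y : ℝ, ((y : ℂ) - al) ≠ 0 := by
    intro y h
    have h1 := congrArg Complex.im h
    have h2 : (al : ℂ).im = 1 / √2 := by
      unfold al
      rw [Complex.div_ofReal_im]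
      simp
    rw [Complex.sub_im, Complex.ofReal_im, h2, Complex.zero_im] at h1
    have h3 : (0:ℝ) < 1 / √2 := by positivity
    linarith
  have hg : Continuous (fun y : ℝ => ((y : ℂ) + al) / ((y : ℂ) - al)) := by
    apply Continuous.div
    · exact Complex.continuous_ofReal.add continuous_const
    · exact Complex.continuous_ofReal.sub continuous_const
    · exact hden
  have hre : Continuous (fun y : ℝ => (((y : ℂ) + al) / ((y : ℂ) - al)).re) :=
    Complex.continuous_re.comp hg
  have him : Continuous (fun y : ℝ => (((y : ℂ) + al) / ((y : ℂ) - al)).im) :=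
    Complex.continuous_im.comp hg
  obtain ⟨p1, hp1⟩ := exists_polynomial_near_of_continuousOn (-L) L _ hre.continuousOn (ε / 2)
    (by positivity)
  obtain ⟨p2, hp2⟩ := exists_polynomial_near_of_continuousOn (-L) L _ him.continuousOn (ε / 2)
    (by positivity)
  refine ⟨p1.map Complex.ofRealHom + Polynomial.C Complex.I * p2.map Complex.ofRealHom, ?_⟩
  intro y hy
  have hmem : y ∈ Set.Icc (-L) L := abs_le.mp hy
  have e1 := hp1 y hmem
  have e2 := hp2 y hmem
  set g : ℂ := ((y : ℂ) + al) / ((y : ℂ) - al) with hgdef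
  have ev1 : (p1.map Complex.ofRealHom).eval (y : ℂ) = ((p1.eval y : ℝ) : ℂ) := by
    have := Polynomial.eval_map_apply (f := Complex.ofRealHom) (p := p1) y
    simpa using this
  have ev2 : (p2.map Complex.ofRealHom).eval (y : ℂ) = ((p2.eval y : ℝ) : ℂ) := by
    have := Polynomial.eval_map_apply (f := Complex.ofRealHom) (p := p2) y
    simpa using this
  have hval : Polynomial.eval (y : ℂ)
      (p1.map Complex.ofRealHom + Polynomial.C Complex.I * p2.map Complex.ofRealHom) - g
      = ((p1.eval y - g.re : ℝ) : ℂ) + Complex.I * ((p2.eval y - g.im : ℝ) : ℂ) := by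
    rw [Polynomial.eval_add, Polynomial.eval_mul, Polynomial.eval_C, ev1, ev2]
    have hgg : g = (g.re : ℂ) + (g.im : ℂ) * Complex.I := (Complex.re_add_im g).symm
    push_cast
    linear_combination (-1 : ℂ) * hgg
  rw [hval]
  refine (norm_add_le _ _).trans ?_
  rw [norm_mul, Complex.norm_I, one_mul, Complex.norm_real, Complex.norm_real,
    Real.norm_eq_abs, Real.norm_eq_abs]
  linarith

end

section

theorem j16827_conj_al : (starRingEnd ℂ) al = - al := by
  unfold al
  rw [map_div₀, Complex.conj_I, Complex.conj_ofReal]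
  ring

theorem j16827_im_al : al.im ≠ 0 := by
  have h : al = ((1 / √2 : ℝ) : ℂ) * Complex.I := by
    unfold al
    push_cast
    ring
  rw [h]
  simp

/-- functional calculus estimate -/
theorem cay_appr {A : Type} [CStarAlgebra A] (T : A) (hT : IsSelfAdjoint T) :
    ‖cay T‖ ≤ 1 ∧ ∀ (q : Polynomial ℂ) (L ε : ℝ), 0 ≤ ε → ‖T‖ ≤ L → Appr q L ε →
      ‖cay T - Polynomial.aeval T q‖ ≤ ε := by
  rcases subsingleton_or_nontrivial A with hA | hA
  · refine ⟨?_, fun q L ε hε _ _ => ?_⟩
    · rw [Subsingleton.elim (cay T) 0, norm_zero]; norm_num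
    · rw [Subsingleton.elim (cay T - Polynomial.aeval T q) 0, norm_zero]; exact hε
  have hn : IsStarNormal T := hT.isStarNormal
  have hreal : ∀ z ∈ spectrum ℂ T, z = ((z.re : ℝ) : ℂ) := fun z hz => hT.mem_spectrum_eq_re hz
  have hne : ∀ y : ℝ, (y : ℂ) - al ≠ 0 := by
    intro y h
    have := congrArg Complex.im h
    rw [Complex.sub_im, Complex.ofReal_im, Complex.zero_im, zero_sub] at this
    exact j16827_im_al (neg_eq_zero.1 this)
  have hne' : ∀ z ∈ spectrum ℂ T, z - al ≠ 0 := by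
    intro z hz
    rw [hreal z hz]
    exact hne _
  have hc1 : ContinuousOn (fun z : ℂ => z + al) (spectrum ℂ T) := by fun_prop
  have hc2 : ContinuousOn (fun z : ℂ => z - al) (spectrum ℂ T) := by fun_prop
  have hc3 : ContinuousOn (fun z : ℂ => (z - al)⁻¹) (spectrum ℂ T) := hc2.inv₀ hne'
  have hc4 : ContinuousOn (fun z : ℂ => (z + al) * (z - al)⁻¹) (spectrum ℂ T) := hc1.mul hc3
  have h1 : cfc (fun z : ℂ => z + al) T = T + al • (1 : A) := by
    rw [cfc_add_const al (fun z : ℂ => z) T (by fun_prop) hn, cfc_id' ℂ T hn,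
      Algebra.algebraMap_eq_smul_one]
  have h2 : cfc (fun z : ℂ => z - al) T = T - al • (1 : A) := by
    have : (fun z : ℂ => z - al) = fun z : ℂ => z + (-al) := by funext z; ring
    rw [this, cfc_add_const (-al) (fun z : ℂ => z) T (by fun_prop) hn, cfc_id' ℂ T hn,
      Algebra.algebraMap_eq_smul_one, neg_smul, sub_eq_add_neg]
  have h3 : cay T = cfc (fun z : ℂ => (z + al) * (z - al)⁻¹) T := by
    unfold cay
    rw [cfc_mul (fun z : ℂ => z + al) (fun z : ℂ => (z - al)⁻¹) T hc1 hc3,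
      cfc_inv (fun z : ℂ => z - al) T hne' hc2 hn, h1, h2]
  have h4 : ∀ y : ℝ, ‖((y : ℂ) + al) * ((y : ℂ) - al)⁻¹‖ = 1 := by
    intro y
    have e1 : (y : ℂ) - al = (starRingEnd ℂ) ((y : ℂ) + al) := by
      rw [map_add, Complex.conj_ofReal, j16827_conj_al]; ring
    have e2 : ‖(y : ℂ) - al‖ = ‖(y : ℂ) + al‖ := by rw [e1, Complex.norm_conj]
    rw [norm_mul, norm_inv, ← e2]
    exact mul_inv_cancel₀ (norm_ne_zero_iff.2 (hne y))
  constructor
  · rw [h3]
    refine norm_cfc_le zero_le_one fun z hz => ?_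
    rw [hreal z hz]
    exact (h4 _).le
  · intro q L ε hε hL hq
    rw [h3, ← cfc_polynomial q T hn, ← cfc_sub (fun z : ℂ => (z + al) * (z - al)⁻¹) q.eval T hc4
      (by fun_prop)]
    refine norm_cfc_le hε fun z hz => ?_
    have hz1 : |z.re| ≤ L := (Complex.abs_re_le_norm z).trans ((spectrum.norm_le_norm_of_mem hz).trans hL)
    have h5 := hq z.re hz1
    rw [norm_sub_rev]
    rw [hreal z hz]
    rw [← div_eq_mul_inv]
    exact h5

end

section

theorem word_appr_norm_one (A : Type) [CStarAlgebra A] : ‖(1 : A)‖ ≤ 1 := by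
  rcases subsingleton_or_nontrivial A with h | h
  · rw [Subsingleton.elim (1 : A) 0, norm_zero]
    exact zero_le_one
  · exact (CStarRing.norm_one).le

theorem word_appr_letter {κ A : Type} [CStarAlgebra A] (x : κ → A)
    (hx : ∀ i, IsSelfAdjoint (x i))
    (q : Polynomial ℂ) (L ε : ℝ) (hL : 2 ≤ L) (hε : 0 ≤ ε) (hε1 : ε ≤ 1) (hxL : ∀ i, ‖x i‖ ≤ L)
    (hq : Appr q L ε) (a : Lt κ) :
    ‖evL x a‖ ≤ L ∧ ‖evLq q x a‖ ≤ L ∧ ‖evL x a - evLq q x a‖ ≤ ε := by
  have h1 : ∀ i, ‖cay (x i)‖ ≤ 1 := fun i => (cay_appr (x i) (hx i)).1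
  have h2 : ∀ i, ‖cay (x i) - Polynomial.aeval (x i) q‖ ≤ ε := fun i =>
    (cay_appr (x i) (hx i)).2 q L ε hε (hxL i) hq
  have h3 : ∀ i, ‖Polynomial.aeval (x i) q‖ ≤ L := by
    intro i
    have e : Polynomial.aeval (x i) q = cay (x i) - (cay (x i) - Polynomial.aeval (x i) q) := by
      abel
    rw [e]
    refine (norm_sub_le _ _).trans ?_
    linarith [h1 i, h2 i]
  cases a with
  | X i => exact ⟨hxL i, hxL i, by simp only [evL, evLq, sub_self, norm_zero]; exact hε⟩
  | U i => exact ⟨(h1 i).trans (by linarith), h3 i, h2 i⟩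
  | V i =>
    refine ⟨?_, ?_, ?_⟩
    · show ‖star (cay (x i))‖ ≤ L
      rw [norm_star]; exact (h1 i).trans (by linarith)
    · show ‖star (Polynomial.aeval (x i) q)‖ ≤ L
      rw [norm_star]; exact h3 i
    · show ‖star (cay (x i)) - star (Polynomial.aeval (x i) q)‖ ≤ ε
      rw [← star_sub, norm_star]; exact h2 i

/-- norm estimate for words -/
theorem word_appr {κ A : Type} [CStarAlgebra A] (x : κ → A) (hx : ∀ i, IsSelfAdjoint (x i))
    (q : Polynomial ℂ) (L ε : ℝ) (hL : 2 ≤ L) (hε : 0 ≤ ε) (hε1 : ε ≤ 1) (hxL : ∀ i, ‖x i‖ ≤ L)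
    (hq : Appr q L ε) (w : List (Lt κ)) :
    ‖evW x w‖ ≤ L ^ w.length ∧ ‖evWq q x w‖ ≤ L ^ w.length ∧
      ‖evW x w - evWq q x w‖ ≤ w.length * L ^ w.length * ε := by
  induction w with
  | nil =>
    have h := word_appr_norm_one A
    refine ⟨?_, ?_, ?_⟩
    · simpa [evW] using h
    · simpa [evWq] using h
    · simp [evW, evWq]
  | cons a w ih =>
    obtain ⟨i1, i2, i3⟩ := ih
    obtain ⟨l1, l2, l3⟩ := word_appr_letter x hx q L ε hL hε hε1 hxL hq a
    have e1 : evW x (a :: w) = evL x a * evW x w := by simp [evW]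
    have e2 : evWq q x (a :: w) = evLq q x a * evWq q x w := by simp [evWq]
    have hL0 : (0 : ℝ) ≤ L := by linarith
    have hLn : (0 : ℝ) ≤ L ^ w.length := by positivity
    rw [e1, e2, List.length_cons]
    refine ⟨?_, ?_, ?_⟩
    · refine (norm_mul_le _ _).trans ?_
      rw [pow_succ']
      exact mul_le_mul l1 i1 (norm_nonneg _) hL0
    · refine (norm_mul_le _ _).trans ?_
      rw [pow_succ']
      exact mul_le_mul l2 i2 (norm_nonneg _) hL0
    · have e3 : evL x a * evW x w - evLq q x a * evWq q x w =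
          (evL x a - evLq q x a) * evW x w + evLq q x a * (evW x w - evWq q x w) := by
        noncomm_ring
      rw [e3]
      refine (norm_add_le _ _).trans ?_
      have k1 : ‖(evL x a - evLq q x a) * evW x w‖ ≤ ε * L ^ w.length :=
        (norm_mul_le _ _).trans (mul_le_mul l3 i1 (norm_nonneg _) hε)
      have k2 : ‖evLq q x a * (evW x w - evWq q x w)‖ ≤ L * (w.length * L ^ w.length * ε) :=
        (norm_mul_le _ _).trans (mul_le_mul l2 i3 (norm_nonneg _) hL0)
      have k3 : ε * L ^ w.length ≤ L ^ w.length * L * ε := by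
        have : ε * L ^ w.length ≤ (ε * L ^ w.length) * L :=
          le_mul_of_one_le_right (by positivity) (by linarith)
        nlinarith
      rw [pow_succ]
      push_cast
      nlinarith

end

section

theorem h74_prod_appr {κ : Type} (L : ℝ) (hL : 2 ≤ L) (ws : List (List (Lt κ))) : ∃ C : ℝ, 0 ≤ C ∧
    ∀ (A : Type) [CStarAlgebra A] (φ : A → ℂ), (∀ a, ‖φ a‖ ≤ ‖a‖) →
      (∀ a b, φ (a - b) = φ a - φ b) → ∀ (x : κ → A), (∀ i, IsSelfAdjoint (x i)) →
      (∀ i, ‖x i‖ ≤ L) → ∀ (q : Polynomial ℂ) (ε : ℝ), 0 ≤ ε → ε ≤ 1 → Appr q L ε →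
      ‖(ws.map fun w => φ (evW x w)).prod - (ws.map fun w => φ (evWq q x w)).prod‖ ≤ C * ε ∧
      ‖(ws.map fun w => φ (evW x w)).prod‖ ≤ C ∧
      ‖(ws.map fun w => φ (evWq q x w)).prod‖ ≤ C := by
  induction ws with
  | nil =>
    refine ⟨1, zero_le_one, ?_⟩
    intro A _ φ hφ hφs x hx hxL q ε hε hε1 hq
    refine ⟨?_, ?_, ?_⟩
    · simp only [List.map_nil, List.prod_nil, sub_self, norm_zero, one_mul]
      exact hε
    · simp
    · simp
  | cons w ws ih =>
    obtain ⟨C, hC, h⟩ := ih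
    have hK : (0 : ℝ) ≤ L ^ w.length := by positivity
    refine ⟨(w.length : ℝ) * L ^ w.length * C + L ^ w.length * C, by positivity, ?_⟩
    intro A _ φ hφ hφs x hx hxL q ε hε hε1 hq
    obtain ⟨h1, h2, h3⟩ := h A φ hφ hφs x hx hxL q ε hε hε1 hq
    obtain ⟨w1, w2, w3⟩ := word_appr x hx q L ε hL hε hε1 hxL hq w
    simp only [List.map_cons, List.prod_cons]
    set a := φ (evW x w) with ha
    set a' := φ (evWq q x w) with ha'
    set b := (ws.map fun w => φ (evW x w)).prod with hb
    set b' := (ws.map fun w => φ (evWq q x w)).prod with hb'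
    have ea : ‖a‖ ≤ L ^ w.length := (hφ _).trans w1
    have ea' : ‖a'‖ ≤ L ^ w.length := (hφ _).trans w2
    have ed : ‖a - a'‖ ≤ w.length * L ^ w.length * ε := by
      rw [ha, ha', ← hφs]
      exact (hφ _).trans w3
    have hKC : (0 : ℝ) ≤ (w.length : ℝ) * L ^ w.length * C := by positivity
    refine ⟨?_, ?_, ?_⟩
    · have e1 : a * b - a' * b' = (a - a') * b + a' * (b - b') := by ring
      rw [e1]
      calc ‖(a - a') * b + a' * (b - b')‖ ≤ ‖(a - a') * b‖ + ‖a' * (b - b')‖ := norm_add_le _ _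
        _ = ‖a - a'‖ * ‖b‖ + ‖a'‖ * ‖b - b'‖ := by rw [norm_mul, norm_mul]
        _ ≤ (w.length * L ^ w.length * ε) * C + L ^ w.length * (C * ε) := by
          refine add_le_add ?_ ?_
          · exact mul_le_mul ed h2 (norm_nonneg _) (by positivity)
          · exact mul_le_mul ea' h1 (norm_nonneg _) hK
        _ = _ := by ring
    · rw [norm_mul]
      refine (mul_le_mul ea h2 (norm_nonneg _) hK).trans ?_
      linarith
    · rw [norm_mul]
      refine (mul_le_mul ea' h3 (norm_nonneg _) hK).trans ?_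
      linarith

/-- estimate for products -/
theorem prod_appr {κ : Type} (L : ℝ) (hL : 2 ≤ L) (ws : List (List (Lt κ))) : ∃ C : ℝ, 0 ≤ C ∧
    ∀ (A : Type) [CStarAlgebra A] (φ : A → ℂ), (∀ a, ‖φ a‖ ≤ ‖a‖) →
      (∀ a b, φ (a - b) = φ a - φ b) → ∀ (x : κ → A), (∀ i, IsSelfAdjoint (x i)) →
      (∀ i, ‖x i‖ ≤ L) → ∀ (q : Polynomial ℂ) (ε : ℝ), 0 ≤ ε → ε ≤ 1 → Appr q L ε →
      ‖(ws.map fun w => φ (evW x w)).prod - (ws.map fun w => φ (evWq q x w)).prod‖ ≤ C * ε ∧
      ‖(ws.map fun w => φ (evW x w)).prod‖ ≤ C := by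
  obtain ⟨C, hC, h⟩ := h74_prod_appr L hL ws
  refine ⟨C, hC, ?_⟩
  intro A _ φ hφ hφs x hx hxL q ε hε hε1 hq
  obtain ⟨h1, h2, -⟩ := h A φ hφ hφs x hx hxL q ε hε hε1 hq
  exact ⟨h1, h2⟩

end

section

theorem evc_unit {N : ℕ} (T : BN N) (hT : IsSelfAdjoint T) : IsUnit (T - al • (1 : BN N)) := by
  have h1 : al ∉ spectrum ℂ T := by
    intro h
    have h2 := hT.mem_spectrum_eq_re h
    have h3 := congrArg Complex.im h2
    rw [Complex.ofReal_im] at h3
    unfold al at h3
    rw [Complex.div_ofReal_im, Complex.I_im] at h3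
    have : (0:ℝ) < √2 := by positivity
    have h4 : (1:ℝ) / √2 ≠ 0 := by positivity
    exact h4 h3
  rw [spectrum.notMem_iff] at h1
  rw [← Algebra.algebraMap_eq_smul_one]
  exact IsUnit.sub_iff.1 h1

/-- continuity of words in the coordinates -/
theorem ev_cont (N : ℕ) (hN : 0 < N) (w : List (Lt ι)) (L : ℝ) :
    Continuous (fun x : EuclideanSpace ℝ (ι × Fin N × Fin N) => tr (evW (Xm N x) w)) ∧
    MeasurableSet (good (ι := ι) N L) := by
  obtain ⟨hsa, hcl, -, -⟩ := Xm_basic (ι := ι) N hN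
  have hX : ∀ i, Continuous fun x : EuclideanSpace ℝ (ι × Fin N × Fin N) => Xm N x i := by
    intro i
    obtain ⟨T, hT, -⟩ := hcl i
    have h1 := T.continuous
    have h2 : (fun x : EuclideanSpace ℝ (ι × Fin N × Fin N) => Xm N x i) = fun x => T x := by
      funext x; rw [hT x]
    rw [h2]
    exact h1
  have hC : ∀ i, Continuous fun x : EuclideanSpace ℝ (ι × Fin N × Fin N) => cay (Xm N x i) := by
    intro i
    unfold cay
    refine ((hX i).add continuous_const).mul ?_
    rw [continuous_iff_continuousAt]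
    intro x
    obtain ⟨u, hu⟩ := evc_unit (Xm N x i) (hsa x i)
    have h1 : ContinuousAt Ring.inverse (Xm N x i - al • (1 : BN N)) := by
      rw [← hu]; exact NormedRing.inverse_continuousAt u
    exact h1.comp (f := fun x : EuclideanSpace ℝ (ι × Fin N × Fin N) =>
      Xm N x i - al • (1 : BN N)) ((hX i).sub continuous_const).continuousAt
  have hL : ∀ l : Lt ι, Continuous fun x : EuclideanSpace ℝ (ι × Fin N × Fin N) =>
      evL (Xm N x) l := by
    intro l
    cases l with
    | X i => exact hX i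
    | U i => exact hC i
    | V i => exact continuous_star.comp (hC i)
  have hW : Continuous fun x : EuclideanSpace ℝ (ι × Fin N × Fin N) => evW (Xm N x) w := by
    induction w with
    | nil => exact continuous_const
    | cons l w ih =>
      have h1 : (fun x : EuclideanSpace ℝ (ι × Fin N × Fin N) => evW (Xm N x) (l :: w))
          = fun x => evL (Xm N x) l * evW (Xm N x) w := by
        funext x
        simp [evW]
      rw [h1]
      exact (hL l).mul ih
  obtain ⟨-, -, -, htn, -, -, hts⟩ := tr_basic N hN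
  have ht : Continuous (tr : BN N → ℂ) := by
    refine (LipschitzWith.mk_one (f := (tr : BN N → ℂ)) fun S T => ?_).continuous
    rw [dist_eq_norm, dist_eq_norm, ← hts]
    exact htn _
  refine ⟨ht.comp hW, ?_⟩
  have hcl : IsClosed (good (ι := ι) N L) := by
    have : good (ι := ι) N L = ⋂ i, {x | ‖Xm N x i‖ ≤ L} := by
      ext x; simp [good]
    rw [this]
    exact isClosed_iInter fun i => isClosed_le (hX i).norm continuous_const
  exact hcl.measurableSet

end

section

/-- convergence of the mixed moments on the good event -/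
theorem gue_multi {H : Type} [NormedAddCommGroup H] [InnerProductSpace ℂ H] [CompleteSpace H]
    (S : FS ι H) (ws : List (List (Lt ι))) (L : ℝ) (hL2 : 2 ≤ L)
    (hL : Tendsto (fun N : ℕ => (gue ι (N + 1)).real (good (N + 1) L)ᶜ) atTop (𝓝 0)) :
    Tendsto (fun N : ℕ => ∫ x in good (N + 1) L,
      (ws.map fun w => tr (evW (Xm (N + 1) x) w)).prod ∂(gue ι (N + 1))) atTop
      (𝓝 (ws.map fun w => tau S.Ω (evW S.s w)).prod) := by
  obtain ⟨C, hC0, hC⟩ := prod_appr (κ := ι) L hL2 ws
  rw [Metric.tendsto_atTop]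
  intro ε hε
  have hC1 : 0 < 4 * (C + 1) := by linarith
  set δ : ℝ := min 1 (ε / (4 * (C + 1))) with hδdef
  have hδ : 0 < δ := lt_min one_pos (div_pos hε hC1)
  have hδ1 : δ ≤ 1 := min_le_left _ _
  have hCδ : C * δ ≤ ε / 4 := by
    have h1 : δ ≤ ε / (4 * (C + 1)) := min_le_right _ _
    have h2 : C * δ ≤ (C + 1) * (ε / (4 * (C + 1))) :=
      mul_le_mul (by linarith) h1 hδ.le (by linarith)
    have h3 : (C + 1) * (ε / (4 * (C + 1))) = ε / 4 := by
      field_simp
    linarith
  obtain ⟨q, hq⟩ := weier L δ hδ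
  obtain ⟨N0, hN0⟩ := (Metric.tendsto_atTop.1 (mq_good S q ws L hL)) (ε / 4) (by linarith)
  refine ⟨N0, fun N hN => ?_⟩
  have hB := hN0 N hN
  -- the limits
  have hlim : ‖(ws.map fun w => tau S.Ω (evW S.s w)).prod -
      (ws.map fun w => tau S.Ω (evWq q S.s w)).prod‖ ≤ C * δ := by
    refine (hC (H →L[ℂ] H) (tau S.Ω) ?_ ?_ S.s S.s_sa (fun i => (S.norm_s i).trans hL2)
      q δ hδ.le hδ1 hq).1
    · intro a
      unfold tau
      calc ‖⟪S.Ω, a S.Ω⟫_ℂ‖ ≤ ‖S.Ω‖ * ‖a S.Ω‖ := norm_inner_le_norm _ _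
        _ ≤ ‖S.Ω‖ * (‖a‖ * ‖S.Ω‖) := by
            gcongr
            exact a.le_opNorm _
        _ = ‖a‖ := by rw [S.norm_Ω]; ring
    · intro a b
      simp only [tau, ContinuousLinearMap.sub_apply, inner_sub_right]
  -- the approximants
  have hpt : ∀ x ∈ good (ι := ι) (N + 1) L,
      ‖(ws.map fun w => tr (evW (Xm (N + 1) x) w)).prod -
        (ws.map fun w => tr (evWq q (Xm (N + 1) x) w)).prod‖ ≤ C * δ ∧
      ‖(ws.map fun w => tr (evW (Xm (N + 1) x) w)).prod‖ ≤ C := by
    intro x hx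
    exact hC (BN (N + 1)) tr (tr_basic (N + 1) (Nat.succ_pos N)).2.2.2.1
      (tr_basic (N + 1) (Nat.succ_pos N)).2.2.2.2.2.2 (Xm (N + 1) x)
      ((Xm_basic (N + 1) (Nat.succ_pos N)).1 x) hx q δ hδ.le hδ1 hq
  have hmeas : MeasurableSet (good (ι := ι) (N + 1) L) :=
    (ev_cont (ι := ι) (N + 1) (Nat.succ_pos N) [] L).2
  have hcf : Continuous (fun x : EuclideanSpace ℝ (ι × Fin (N + 1) × Fin (N + 1)) =>
      (ws.map fun w => tr (evW (Xm (N + 1) x) w)).prod) := by
    refine continuous_list_prod ws fun w _ => ?_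
    exact (ev_cont (ι := ι) (N + 1) (Nat.succ_pos N) w L).1
  have hcg : Continuous (fun x : EuclideanSpace ℝ (ι × Fin (N + 1) × Fin (N + 1)) =>
      (ws.map fun w => tr (evWq q (Xm (N + 1) x) w)).prod) :=
    ((word_PG (ι := ι) (N + 1) (Nat.succ_pos N)).2.2.2 q ws).1.continuous
  have hfin : (gue ι (N + 1)) (good (ι := ι) (N + 1) L) < ⊤ := measure_lt_top _ _
  have hfi : IntegrableOn (fun x : EuclideanSpace ℝ (ι × Fin (N + 1) × Fin (N + 1)) =>
      (ws.map fun w => tr (evW (Xm (N + 1) x) w)).prod) (good (N + 1) L) (gue ι (N + 1)) :=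
    Measure.integrableOn_of_bounded hfin.ne hcf.aestronglyMeasurable
      ((ae_restrict_iff' hmeas).2 (Eventually.of_forall fun x hx => (hpt x hx).2))
  have hgi : IntegrableOn (fun x : EuclideanSpace ℝ (ι × Fin (N + 1) × Fin (N + 1)) =>
      (ws.map fun w => tr (evWq q (Xm (N + 1) x) w)).prod) (good (N + 1) L)
      (gue ι (N + 1)) := by
    refine Measure.integrableOn_of_bounded (M := C + C * δ) hfin.ne hcg.aestronglyMeasurable
      ((ae_restrict_iff' hmeas).2 (Eventually.of_forall fun x hx => ?_))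
    have h1 := (hpt x hx).1
    have h2 := (hpt x hx).2
    have h3 : (ws.map fun w => tr (evWq q (Xm (N + 1) x) w)).prod =
        (ws.map fun w => tr (evW (Xm (N + 1) x) w)).prod -
        ((ws.map fun w => tr (evW (Xm (N + 1) x) w)).prod -
        (ws.map fun w => tr (evWq q (Xm (N + 1) x) w)).prod) := by ring
    rw [h3]
    exact (norm_sub_le _ _).trans (by linarith)
  have hA : ‖(∫ x in good (N + 1) L,
      (ws.map fun w => tr (evW (Xm (N + 1) x) w)).prod ∂(gue ι (N + 1))) -
      ∫ x in good (N + 1) L,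
      (ws.map fun w => tr (evWq q (Xm (N + 1) x) w)).prod ∂(gue ι (N + 1))‖ ≤ C * δ := by
    rw [← integral_sub hfi hgi]
    have h1 := norm_setIntegral_le_of_norm_le_const (μ := gue ι (N + 1)) (C := C * δ)
      (s := good (ι := ι) (N + 1) L) (f := fun x : EuclideanSpace ℝ (ι × Fin (N + 1) × Fin (N + 1)) =>
      (ws.map fun w => tr (evW (Xm (N + 1) x) w)).prod -
        (ws.map fun w => tr (evWq q (Xm (N + 1) x) w)).prod) hfin (fun x hx => (hpt x hx).1)
    refine h1.trans ?_
    have h2 : (gue ι (N + 1)).real (good (ι := ι) (N + 1) L) ≤ 1 := measureReal_le_one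
    have h4 : 0 ≤ C * δ := mul_nonneg hC0 hδ.le
    nlinarith
  rw [dist_eq_norm] at hB ⊢
  have hsplit : (∫ x in good (N + 1) L,
      (ws.map fun w => tr (evW (Xm (N + 1) x) w)).prod ∂(gue ι (N + 1))) -
      (ws.map fun w => tau S.Ω (evW S.s w)).prod =
      ((∫ x in good (N + 1) L,
      (ws.map fun w => tr (evW (Xm (N + 1) x) w)).prod ∂(gue ι (N + 1))) -
      ∫ x in good (N + 1) L,
      (ws.map fun w => tr (evWq q (Xm (N + 1) x) w)).prod ∂(gue ι (N + 1))) +
      ((∫ x in good (N + 1) L,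
      (ws.map fun w => tr (evWq q (Xm (N + 1) x) w)).prod ∂(gue ι (N + 1))) -
      (ws.map fun w => tau S.Ω (evWq q S.s w)).prod) -
      ((ws.map fun w => tau S.Ω (evW S.s w)).prod -
      (ws.map fun w => tau S.Ω (evWq q S.s w)).prod) := by ring
  rw [hsplit]
  refine (norm_sub_le _ _).trans_lt ?_
  have h5 := norm_add_le ((∫ x in good (N + 1) L,
      (ws.map fun w => tr (evW (Xm (N + 1) x) w)).prod ∂(gue ι (N + 1))) -
      ∫ x in good (N + 1) L,
      (ws.map fun w => tr (evWq q (Xm (N + 1) x) w)).prod ∂(gue ι (N + 1)))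
      ((∫ x in good (N + 1) L,
      (ws.map fun w => tr (evWq q (Xm (N + 1) x) w)).prod ∂(gue ι (N + 1))) -
      (ws.map fun w => tau S.Ω (evWq q S.s w)).prod)
  linarith

end

section

/-- D2: convergence of traces of words in `X_i, u_i, u_i*` on the good event. -/
theorem gue_conv {H : Type} [NormedAddCommGroup H] [InnerProductSpace ℂ H] [CompleteSpace H]
    (S : FS ι H) (L : ℝ) (hL2 : 2 ≤ L) (hL : Tendsto (fun N : ℕ =>
      (stdGaussian (EuclideanSpace ℝ (ι × Fin (N + 1) × Fin (N + 1)))).real (good (N + 1) L)ᶜ)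
      atTop (𝓝 0)) (w : List (Lt ι)) :
    Tendsto (fun N : ℕ => ∫ x in good (N + 1) L, tr (evW (Xm (N + 1) x) w)
      ∂(stdGaussian (EuclideanSpace ℝ (ι × Fin (N + 1) × Fin (N + 1)))))
      atTop (𝓝 (tau S.Ω (evW S.s w))) := by
  have h := gue_multi S [w] L hL2 hL
  simp only [List.map_cons, List.map_nil, List.prod_cons, List.prod_nil, mul_one] at h
  exact h

end

section

/-- words in unitaries have norm at most one -/
theorem isU_norm (N : ℕ) (hN : 0 < N) (x : EuclideanSpace ℝ (ι × Fin N × Fin N))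
    (w : List (Lt ι)) (hw : ∀ a ∈ w, isU a) : ‖tr (evW (Xm N x) w)‖ ≤ 1 := by
  have hsa := (Xm_basic (ι := ι) N hN).1 x
  have hcay : ∀ i, ‖cay (Xm N x i)‖ ≤ 1 := fun i => (cay_appr (Xm N x i) (hsa i)).1
  refine ((tr_basic N hN).2.2.2.1 _).trans ?_
  induction w with
  | nil =>
    unfold evW
    rw [List.map_nil, List.prod_nil]
    exact ContinuousLinearMap.norm_id_le
  | cons a w ih =>
    have h1 : evW (Xm N x) (a :: w) = evL (Xm N x) a * evW (Xm N x) w := by
      unfold evW
      rw [List.map_cons, List.prod_cons]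
    rw [h1]
    have h2 := ih (fun b hb => hw b (List.mem_cons_of_mem _ hb))
    have h3 : ‖evL (Xm N x) a‖ ≤ 1 := by
      have h4 := hw a List.mem_cons_self
      cases a with
      | X i => exact absurd h4 (by simp [isU])
      | U i => exact hcay i
      | V i =>
        exact (norm_star (cay (Xm N x i))).le.trans (hcay i)
    calc ‖evL (Xm N x) a * evW (Xm N x) w‖ ≤ ‖evL (Xm N x) a‖ * ‖evW (Xm N x) w‖ :=
          norm_mul_le _ _
      _ ≤ 1 * 1 := mul_le_mul h3 h2 (norm_nonneg _) zero_le_one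
      _ = 1 := one_mul 1

end

section

/-- D3: products of three traces of words in `u_i, u_i*`. -/
theorem gue_conv3 {H : Type} [NormedAddCommGroup H] [InnerProductSpace ℂ H] [CompleteSpace H]
    (S : FS ι H) (w₁ w₂ w₃ : List (Lt ι)) (h₁ : ∀ a ∈ w₁, isU a) (h₂ : ∀ a ∈ w₂, isU a)
    (h₃ : ∀ a ∈ w₃, isU a) :
    Tendsto (fun N : ℕ => ∫ x, tr (evW (Xm (N + 1) x) w₁) * tr (evW (Xm (N + 1) x) w₂) *
      tr (evW (Xm (N + 1) x) w₃)
      ∂(stdGaussian (EuclideanSpace ℝ (ι × Fin (N + 1) × Fin (N + 1)))))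
      atTop (𝓝 (tau S.Ω (evW S.s w₁) * tau S.Ω (evW S.s w₂) * tau S.Ω (evW S.s w₃))) := by
  obtain ⟨L, hL2, hL⟩ := gue_norm (ι := ι)
  have hlim := gue_multi S [w₁, w₂, w₃] L hL2 hL
  have hF : ∀ N : ℕ, Continuous (fun x : EuclideanSpace ℝ (ι × Fin (N + 1) × Fin (N + 1)) =>
      tr (evW (Xm (N + 1) x) w₁) * tr (evW (Xm (N + 1) x) w₂) * tr (evW (Xm (N + 1) x) w₃)) := by
    intro N
    exact ((ev_cont (N + 1) N.succ_pos w₁ L).1.mul (ev_cont (N + 1) N.succ_pos w₂ L).1).mul
      (ev_cont (N + 1) N.succ_pos w₃ L).1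
  have hFb : ∀ (N : ℕ) (x : EuclideanSpace ℝ (ι × Fin (N + 1) × Fin (N + 1))),
      ‖tr (evW (Xm (N + 1) x) w₁) * tr (evW (Xm (N + 1) x) w₂) * tr (evW (Xm (N + 1) x) w₃)‖ ≤ 1 := by
    intro N x
    have e1 := isU_norm (N + 1) N.succ_pos x w₁ h₁
    have e2 := isU_norm (N + 1) N.succ_pos x w₂ h₂
    have e3 := isU_norm (N + 1) N.succ_pos x w₃ h₃
    rw [norm_mul, norm_mul]
    have e4 : ‖tr (evW (Xm (N + 1) x) w₁)‖ * ‖tr (evW (Xm (N + 1) x) w₂)‖ ≤ 1 :=
      mul_le_one₀ e1 (norm_nonneg _) e2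
    exact mul_le_one₀ e4 (norm_nonneg _) e3
  have hint : ∀ N : ℕ, Integrable (fun x : EuclideanSpace ℝ (ι × Fin (N + 1) × Fin (N + 1)) =>
      tr (evW (Xm (N + 1) x) w₁) * tr (evW (Xm (N + 1) x) w₂) * tr (evW (Xm (N + 1) x) w₃))
      (gue ι (N + 1)) := by
    intro N
    refine (integrable_const (1 : ℝ)).mono' (hF N).aestronglyMeasurable ?_
    filter_upwards with x
    exact hFb N x
  have hbad : Tendsto (fun N : ℕ => ∫ x in (good (ι := ι) (N + 1) L)ᶜ,
      tr (evW (Xm (N + 1) x) w₁) * tr (evW (Xm (N + 1) x) w₂) * tr (evW (Xm (N + 1) x) w₃)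
        ∂(gue ι (N + 1))) atTop (𝓝 0) := by
    refine squeeze_zero_norm (fun N => ?_) hL
    have e5 := norm_setIntegral_le_of_norm_le_const (μ := gue ι (N + 1))
      (s := (good (ι := ι) (N + 1) L)ᶜ) (C := 1)
      (f := fun x => tr (evW (Xm (N + 1) x) w₁) * tr (evW (Xm (N + 1) x) w₂) * tr (evW (Xm (N + 1) x) w₃))
      (measure_lt_top _ _) (fun x _ => hFb N x)
    rw [one_mul] at e5
    exact e5
  have hsum := hlim.add hbad
  rw [add_zero] at hsum
  have e6 : ([w₁, w₂, w₃].map fun w => tau S.Ω (evW S.s w)).prod =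
      tau S.Ω (evW S.s w₁) * tau S.Ω (evW S.s w₂) * tau S.Ω (evW S.s w₃) := by
    simp only [List.map_cons, List.map_nil, List.prod_cons, List.prod_nil, mul_one, mul_assoc]
  rw [e6] at hsum
  refine hsum.congr fun N => ?_
  have e7 : (fun x : EuclideanSpace ℝ (ι × Fin (N + 1) × Fin (N + 1)) =>
      ([w₁, w₂, w₃].map fun w => tr (evW (Xm (N + 1) x) w)).prod) =
      fun x => tr (evW (Xm (N + 1) x) w₁) * tr (evW (Xm (N + 1) x) w₂) * tr (evW (Xm (N + 1) x) w₃) := by
    funext x
    simp only [List.map_cons, List.map_nil, List.prod_cons, List.prod_nil, mul_one, mul_assoc]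
  rw [e7]
  exact integral_add_compl (ev_cont (N + 1) N.succ_pos w₁ L).2 (hint N)

end

end Pool.Agent.Helper38.FE
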