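import Pool.Agent.Helper38.FE.LowLem

/-! MODULE H: lower bound for the Fisher information at fine scales. -/

set_option autoImplicit false
set_option linter.unusedVariables false
set_option linter.unusedSectionVars false

open MeasureTheory Filter Topology
open scoped InnerProductSpace ENNReal ComplexConjugate

namespace Pool.Agent.Helper38.FE

instance instCompleteL2 {H : Type} [NormedAddCommGroup H] [InnerProductSpace ℂ H]
    [CompleteSpace H] {n : ℕ} (Ω : H) (x : Fin n → (H →L[ℂ] H)) : CompleteSpace (L2 Ω x) :=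
  (Submodule.isClosed_topologicalClosure _).completeSpace_coe

/-- `g(t) = ∑_j ‖E(s_j | W*(x + √t s))‖² = t Φ*(x + √t s)` -/
noncomputable def gval {H : Type} [NormedAddCommGroup H] [InnerProductSpace ℂ H]
    [CompleteSpace H] {n : ℕ} (Ω : H) (x s : Fin n → (H →L[ℂ] H)) (t : ℝ) : ℝ :=
  ∑ j, ‖(L2 Ω (pert x s t)).starProjection (s j Ω)‖ ^ 2

/-- index set: three base semicirculars, four noises, four more noises -/
abbrev I0 := Fin 3 ⊕ (Fin 4 ⊕ Fin 4)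

variable {H : Type} [NormedAddCommGroup H] [InnerProductSpace ℂ H] [CompleteSpace H]

/-- base variables -/
def FS.xb (S : FS I0 H) : Fin 3 → (H →L[ℂ] H) := fun i => S.s (Sum.inl i)

/-- first noise -/
def FS.n1 (S : FS I0 H) : Fin 4 → (H →L[ℂ] H) := fun j => S.s (Sum.inr (Sum.inl j))

/-- second noise -/
def FS.n2 (S : FS I0 H) : Fin 4 → (H →L[ℂ] H) := fun j => S.s (Sum.inr (Sum.inr j))

/-- the 4-tuple `(x_0, x_1, x_2, xl)` -/
def FS.tup (S : FS I0 H) (xl : H →L[ℂ] H) : Fin 4 → (H →L[ℂ] H) :=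
  Fin.snoc (α := fun _ => (H →L[ℂ] H)) S.xb xl

/-- the norm closed *-algebra generated by the base variables -/
noncomputable def FS.Ab (S : FS I0 H) : StarSubalgebra ℂ (H →L[ℂ] H) :=
  (StarAlgebra.adjoin ℂ (Set.range S.xb)).topologicalClosure

namespace Low

/-- elements of `Ab` are left elements -/
theorem Ab_left (S : FS I0 H) (e : H →L[ℂ] H) (he : e ∈ S.Ab) (c : H →L[ℂ] H)
    (hc : ∀ i, c * S.s i = S.s i * c) : e * c = c * e := by
  have h1 : StarAlgebra.adjoin ℂ (Set.range S.xb) ≤ StarSubalgebra.centralizer ℂ {c} := by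
    rw [StarAlgebra.adjoin_le_iff]
    rintro _ ⟨i, rfl⟩
    rw [SetLike.mem_coe, StarSubalgebra.mem_centralizer_iff]
    intro g hg
    rw [Set.mem_singleton_iff] at hg
    subst hg
    refine ⟨hc _, ?_⟩
    have := congrArg star (hc (Sum.inl i))
    rw [star_mul, star_mul, (S.s_sa (Sum.inl i)).star_eq] at this
    exact this.symm
  have h2 : S.Ab ≤ StarSubalgebra.centralizer ℂ {c} := by
    apply StarSubalgebra.topologicalClosure_minimal h1
    rw [StarSubalgebra.coe_centralizer]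
    exact Set.isClosed_centralizer _
  have h3 := h2 he
  rw [StarSubalgebra.mem_centralizer_iff] at h3
  exact ((h3 c rfl).1).symm


/-- right partners of the base variables -/
def xr (S : FS I0 H) : Fin 3 → (H →L[ℂ] H) := fun i => S.d (Sum.inl i)

/-- right partners of the perturbed base variables -/
noncomputable def yr (S : FS I0 H) (t : ℝ) : Fin 3 → (H →L[ℂ] H) := fun i =>
  S.d (Sum.inl i) + ((√t : ℝ) : ℂ) • S.d (Sum.inr (Sum.inl i.castSucc))

/-- the perturbed base variables -/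
noncomputable def yl (S : FS I0 H) (t : ℝ) : Fin 3 → (H →L[ℂ] H) := fun i =>
  S.xb i + ((√t : ℝ) : ℂ) • S.n1 i.castSucc

/-- noise indices -/
def QN : Set I0 := Set.range (fun i : Fin 4 => (Sum.inr (Sum.inl i) : I0))

theorem d_sa {ι : Type} (S : FS ι H) (i : ι) : IsSelfAdjoint (S.d i) := by
  rw [S.d_eq, IsSelfAdjoint, star_add, star_star, add_comm]

theorem rsmul_sa (c : ℝ) (a : H →L[ℂ] H) (ha : IsSelfAdjoint a) :
    IsSelfAdjoint (((c : ℝ) : ℂ) • a) := by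
  rw [IsSelfAdjoint, star_smul, ha.star_eq]
  simp

theorem yr_sa (S : FS I0 H) (t : ℝ) (i : Fin 3) : IsSelfAdjoint (yr S t i) :=
  (d_sa S _).add (rsmul_sa _ _ (d_sa S _))

theorem yl_sa (S : FS I0 H) (t : ℝ) (i : Fin 3) : IsSelfAdjoint (yl S t i) :=
  (S.s_sa _).add (rsmul_sa _ _ (S.s_sa _))

theorem pair_x (S : FS I0 H) (i : Fin 3) : Pair S QN (S.xb i) (xr S i) :=
  (pair_closure S QN).1 (Sum.inl i) (by rintro ⟨j, hj⟩; simp at hj)

theorem pair_x0 (S : FS I0 H) (i : Fin 3) : Pair S ∅ (S.xb i) (xr S i) :=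
  (pair_closure S ∅).1 (Sum.inl i) (by simp)

theorem pair_y (S : FS I0 H) (t : ℝ) (i : Fin 3) : Pair S ∅ (yl S t i) (yr S t i) := by
  obtain ⟨h1, h2, h3, h4, h5, h6, h7, h8⟩ := pair_closure S ∅
  exact h3 _ _ _ _ (h1 _ (by simp)) (h4 _ _ _ (h1 _ (by simp)))

theorem norm_vac (S : FS I0 H) (a : H →L[ℂ] H) (c : ℝ) (h : ‖a‖ ≤ c) : ‖a S.Ω‖ ≤ c := by
  have := a.le_opNorm S.Ω
  rw [S.norm_Ω, mul_one] at this
  exact this.trans h

/-- the cut-off function is Lipschitz along `x → y` -/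
theorem cay_close (S : FS I0 H) (t : ℝ) (ht : 0 ≤ t) (i : Fin 3) :
    ‖cay (yl S t i) - cay (S.xb i)‖ ≤ 8 * √t ∧ ‖cay (yr S t i) - cay (xr S i)‖ ≤ 8 * √t := by
  have hs : (0 : ℝ) ≤ √t := Real.sqrt_nonneg t
  constructor
  · have h := norm_cay_sub_le (S.xb i) (yl S t i) (S.s_sa _) (yl_sa S t i)
    have h2 : yl S t i - S.xb i = ((√t : ℝ) : ℂ) • S.n1 i.castSucc := by
      simp [yl]
    rw [h2, norm_smul, Complex.norm_real, Real.norm_of_nonneg hs] at h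
    have h3 : ‖S.n1 i.castSucc‖ ≤ 2 := S.norm_s _
    nlinarith
  · have h := norm_cay_sub_le (xr S i) (yr S t i) (d_sa S _) (yr_sa S t i)
    have h2 : yr S t i - xr S i = ((√t : ℝ) : ℂ) • S.d (Sum.inr (Sum.inl i.castSucc)) := by
      simp [yr, xr]
    rw [h2, norm_smul, Complex.norm_real, Real.norm_of_nonneg hs] at h
    have h3 : ‖S.d (Sum.inr (Sum.inl i.castSucc))‖ ≤ 2 := S.norm_d _
    nlinarith

/-- `f(z) = ∑ r_j F_{b_j}(z)` -/
noncomputable def ff (n : ℕ) (r : ℕ → ℝ) (b : ℕ → List (Fin 3)) (z : Fin 3 → (H →L[ℂ] H)) :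
    H →L[ℂ] H := ∑ j ∈ Finset.range n, ((r j : ℝ) : ℂ) • Fb (b j) z

theorem Fb_sa (b : List (Fin 3)) (z : Fin 3 → (H →L[ℂ] H)) : IsSelfAdjoint (Fb b z) := by
  rw [Fb, IsSelfAdjoint, star_add, star_star, add_comm]

theorem ff_sa (n : ℕ) (r : ℕ → ℝ) (b : ℕ → List (Fin 3)) (z : Fin 3 → (H →L[ℂ] H)) :
    IsSelfAdjoint (ff n r b z) := by
  unfold ff
  exact isSelfAdjoint_sum _ (fun j _ => rsmul_sa _ _ (Fb_sa _ _))

theorem ff_left (S : FS I0 H) (n : ℕ) (r : ℕ → ℝ) (b : ℕ → List (Fin 3)) (c : H →L[ℂ] H)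
    (hc : ∀ i, c * S.s i = S.s i * c) : ff n r b S.xb * c = c * ff n r b S.xb := by
  unfold ff
  rw [Finset.sum_mul, Finset.mul_sum]
  refine Finset.sum_congr rfl fun j _ => ?_
  obtain ⟨h1, h2, h3, h4, h5, h6, h7, h8⟩ := pair_closure S ∅
  have hp := pair_Wd S ∅ S.xb (xr S) (pair_x0 S) (fun i => S.s_sa _) (fun i => d_sa S _) (b j)
  exact (h4 ((r j : ℝ) : ℂ) _ _ (h3 _ _ _ _ hp (h6 _ _ hp))).left c hc

theorem ff_mem (U : StarSubalgebra ℂ (H →L[ℂ] H)) (n : ℕ) (r : ℕ → ℝ) (b : ℕ → List (Fin 3))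
    (z : Fin 3 → (H →L[ℂ] H)) (hz : ∀ i, cay (z i) ∈ U) : ff n r b z ∈ U := by
  unfold ff
  refine sum_mem fun j _ => U.smul_mem ?_ _
  have h : Wd (b j) z ∈ U := by
    unfold Wd
    refine list_prod_mem ?_
    intro a ha
    rw [List.mem_map] at ha
    obtain ⟨i, _, rfl⟩ := ha
    exact hz i
  exact add_mem h (star_mem h)

/-- test vector data -/
theorem core_alg (S : FS I0 H) (n : ℕ) (r : ℕ → ℝ) (b : ℕ → List (Fin 3)) :
    Psi (fun j => S.n1 j S.Ω) (fun j => JT (TF n r b S.xb (xr S) S.xb (xr S)) j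
      (S.n1 3 S.Ω - ∑ i : Fin 3, TF n r b S.xb (xr S) S.xb (xr S) i (S.n1 i.castSucc S.Ω))) = 1 := by
  obtain ⟨U, hUc, hU1, hU2, hU3, hU4⟩ := exists_closed_algebra S QN
  have hx : ∀ i, cay (S.xb i) ∈ U := fun i =>
    (hU1 _ _ (pair_cay S QN _ _ (pair_x S i) (S.s_sa _) (d_sa S _))).1
  have hx' : ∀ i, cay (xr S i) ∈ U := fun i =>
    (hU1 _ _ (pair_cay S QN _ _ (pair_x S i) (S.s_sa _) (d_sa S _))).2
  have hT : ∀ k, TF n r b S.xb (xr S) S.xb (xr S) k ∈ U := fun k =>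
    TF_mem U _ _ _ _ hx hx' hx hx' n r b k
  have hmem : ∀ j : Fin 4, (Sum.inr (Sum.inl j) : I0) ∈ QN := fun j => ⟨j, rfl⟩
  set q := S.n1 3 S.Ω - ∑ i : Fin 3, TF n r b S.xb (xr S) S.xb (xr S) i (S.n1 i.castSucc S.Ω)
    with hq
  have h1 := Psi_JT (TF n r b S.xb (xr S) S.xb (xr S)) (fun j => S.n1 j S.Ω) q hq
  rw [h1]
  have h2 : ‖S.n1 3 S.Ω‖ = 1 := by
    have hp1 := (pair_closure S QN).2.1
    have h := (pair_inner S QN 1 1 1 1 hp1 hp1 (Sum.inr (Sum.inl 3)) (Sum.inr (Sum.inl 3))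
      (hmem 3)).2
    simp only [mul_one, one_apply_eq_self] at h
    rw [inner_self_eq_norm_sq_to_K, inner_self_eq_norm_sq_to_K, S.norm_Ω] at h
    have h' : ((‖S.n1 3 S.Ω‖ : ℂ)) ^ 2 = 1 := by
      exact h.trans (by simp)
    have h'' : ‖S.n1 3 S.Ω‖ ^ 2 = 1 := by exact_mod_cast h'
    nlinarith [norm_nonneg (S.n1 3 S.Ω)]
  have h3 := inner_KT_eq_one U hUc (TF n r b S.xb (xr S) S.xb (xr S)) hT
    (fun j => S.n1 j S.Ω) (fun η hη j k hjk => hU2 η hη _ (hmem j) _ (hmem k) (by simpa using hjk))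
    (fun η hη j k => hU3 η hη _ (hmem j) _ (hmem k))
    (fun η hη ζ hζ j => hU4 η hη ζ hζ _ (hmem j)) h2 q hq
  rw [h3]
  simp


section core

variable (S : FS I0 H) (n : ℕ) (r : ℕ → ℝ) (b : ℕ → List (Fin 3)) (e : H →L[ℂ] H) (t : ℝ)

/-- the perturbed 4-tuple -/
noncomputable def YY : Fin 4 → (H →L[ℂ] H) := pert (S.tup (ff n r b S.xb + e)) S.n1 t

theorem YY_cast (i : Fin 3) : YY S n r b e t i.castSucc = yl S t i := by
  simp [YY, pert, FS.tup, yl]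

theorem YY_last : YY S n r b e t 3 = ff n r b S.xb + e + ((√t : ℝ) : ℂ) • S.n1 3 := by
  change Fin.snoc (α := fun _ => (H →L[ℂ] H)) S.xb (ff n r b S.xb + e) (Fin.last 3) + _ = _
  rw [Fin.snoc_last]

theorem YY_sa (he : IsSelfAdjoint e) (j : Fin 4) : IsSelfAdjoint (YY S n r b e t j) := by
  refine Fin.lastCases ?_ ?_ j
  · have h : Fin.last 3 = (3 : Fin 4) := rfl
    rw [h, YY_last]
    exact ((ff_sa n r b S.xb).add he).add (rsmul_sa _ _ (S.s_sa _))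
  · intro i
    rw [YY_cast]
    exact yl_sa S t i

theorem YY_left (heA : e ∈ S.Ab) (j : Fin 4) (c : H →L[ℂ] H)
    (hc : ∀ i, c * S.s i = S.s i * c) : YY S n r b e t j * c = c * YY S n r b e t j := by
  refine Fin.lastCases ?_ ?_ j
  · have h : Fin.last 3 = (3 : Fin 4) := rfl
    rw [h, YY_last, add_mul, add_mul, mul_add, mul_add, ff_left S n r b c hc,
      Ab_left S e heA c hc, smul_mul_assoc, mul_smul_comm]
    congr 2
    exact (hc _).symm
  · intro i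
    rw [YY_cast]
    exact (pair_y S t i).left c hc

/-- the test vector -/
noncomputable def qq : H := (((√t)⁻¹ : ℝ) : ℂ) •
  (YY S n r b e t 3 S.Ω - ff n r b (yl S t) S.Ω)

theorem qq_eq (ht : 0 < t) : qq S n r b e t = S.n1 3 S.Ω -
    ∑ k, TF n r b S.xb (xr S) (yl S t) (yr S t) k (S.n1 k.castSucc S.Ω) +
      (((√t)⁻¹ : ℝ) : ℂ) • e S.Ω := by
  have hs : (0 : ℝ) < √t := Real.sqrt_pos.mpr ht
  have hs' : ((√t : ℝ) : ℂ) ≠ 0 := by exact_mod_cast hs.ne'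
  have hf := TF_formula S S.xb (xr S) (yl S t) (yr S t) (pair_x0 S) (pair_y S t)
    (fun i => S.s_sa _) (fun i => d_sa S _) (yl_sa S t) (yr_sa S t) n r b
  have hf2 : ff n r b (yl S t) S.Ω = ff n r b S.xb S.Ω +
      ∑ k, TF n r b S.xb (xr S) (yl S t) (yr S t) k ((yl S t k - S.xb k) S.Ω) := by
    rw [← hf]
    unfold ff
    abel
  have hk : ∀ k : Fin 3, TF n r b S.xb (xr S) (yl S t) (yr S t) k ((yl S t k - S.xb k) S.Ω) =
      ((√t : ℝ) : ℂ) • TF n r b S.xb (xr S) (yl S t) (yr S t) k (S.n1 k.castSucc S.Ω) := by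
    intro k
    have h2 : yl S t k - S.xb k = ((√t : ℝ) : ℂ) • S.n1 k.castSucc := by simp [yl]
    rw [h2, _root_.smul_apply, map_smul]
  rw [Finset.sum_congr rfl (fun k _ => hk k), ← Finset.smul_sum] at hf2
  rw [qq, hf2, YY_last]
  simp only [_root_.add_apply, _root_.smul_apply]
  rw [show ff n r b S.xb S.Ω + e S.Ω + ((√t : ℝ) : ℂ) • S.n1 3 S.Ω -
      (ff n r b S.xb S.Ω + ((√t : ℝ) : ℂ) •
        ∑ k, TF n r b S.xb (xr S) (yl S t) (yr S t) k (S.n1 k.castSucc S.Ω)) =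
      ((√t : ℝ) : ℂ) • (S.n1 3 S.Ω -
        ∑ k, TF n r b S.xb (xr S) (yl S t) (yr S t) k (S.n1 k.castSucc S.Ω)) + e S.Ω by
    rw [smul_sub]; abel]
  rw [smul_add, smul_smul]
  congr 1
  have h1 : ((((√t)⁻¹ : ℝ) : ℂ)) * ((√t : ℝ) : ℂ) = 1 := by
    rw [← Complex.ofReal_mul, inv_mul_cancel₀ hs.ne']
    simp
  rw [h1, one_smul]

/-- membership of the test vectors and the projection inequality -/
theorem Psi_le_gval (he : IsSelfAdjoint e) (heA : e ∈ S.Ab) :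
    Psi (fun j => S.n1 j S.Ω)
      (fun j => JT (TF n r b (yl S t) (yr S t) (yl S t) (yr S t)) j (qq S n r b e t)) ≤
      gval S.Ω (S.tup (ff n r b S.xb + e)) S.n1 t := by
  unfold gval
  change _ ≤ ∑ j, ‖(L2 S.Ω (YY S n r b e t)).starProjection (S.n1 j S.Ω)‖ ^ 2
  obtain ⟨U, hUc, hU1, hU2, hU3⟩ := exists_proj_algebra (L2 S.Ω (YY S n r b e t))
  obtain ⟨hΩ, hl, hr⟩ := L2_invariant S.Ω (YY S n r b e t)
  have hY : ∀ j, YY S n r b e t j ∈ U := fun j =>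
    (hU3 _ (YY_sa S n r b e t he j) (hl j)).1
  have hy : ∀ i, cay (yl S t i) ∈ U := fun i => by
    have h := (hU3 _ (YY_sa S n r b e t he i.castSucc) (hl i.castSucc)).2
    rwa [YY_cast] at h
  have hy' : ∀ i, cay (yr S t i) ∈ U := fun i => by
    refine (hU3 _ (yr_sa S t i) (hr (yr S t i) i.castSucc ?_ ?_)).2
    · intro j
      exact (YY_left S n r b e t heA j (yr S t i) (pair_y S t i).right).symm
    · rw [YY_cast]
      exact (pair_y S t i).vac.symm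
  have hT : ∀ k, TF n r b (yl S t) (yr S t) (yl S t) (yr S t) k ∈ U := fun k =>
    TF_mem U _ _ _ _ hy hy' hy hy' n r b k
  have hN : NT (TF n r b (yl S t) (yr S t) (yl S t) (yr S t)) ∈ U := by
    unfold NT
    exact add_mem (one_mem _) (sum_mem fun i _ => mul_mem (hT i) (star_mem (hT i)))
  have hK : KT (TF n r b (yl S t) (yr S t) (yl S t) (yr S t)) ∈ U := by
    unfold KT
    exact hU2 _ hN (KT_facts _).1
  have hJ : ∀ j, JT (TF n r b (yl S t) (yr S t) (yl S t) (yr S t)) j ∈ U := by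
    intro j
    refine Fin.lastCases ?_ ?_ j
    · have h : JT (TF n r b (yl S t) (yr S t) (yl S t) (yr S t)) (Fin.last 3) =
          KT (TF n r b (yl S t) (yr S t) (yl S t) (yr S t)) := Fin.snoc_last _ _
      rw [h]
      exact hK
    · intro i
      simp only [JT, Fin.snoc_castSucc]
      exact neg_mem (mul_mem (star_mem (hT i)) hK)
  have hf : ff n r b (yl S t) ∈ U := ff_mem U n r b _ hy
  have hq : qq S n r b e t ∈ L2 S.Ω (YY S n r b e t) := by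
    unfold qq
    exact Submodule.smul_mem _ _ (Submodule.sub_mem _ (hU1 _ (hY 3) _ hΩ) (hU1 _ hf _ hΩ))
  exact Psi_le_proj _ _ _ (fun j => hU1 _ (hJ j) _ hq)

end core

/-- MODULE H, core estimate -/
theorem core_bound (S : FS I0 H) (n : ℕ) (r : ℕ → ℝ) (b : ℕ → List (Fin 3)) (e : H →L[ℂ] H)
    (M ε t : ℝ) (he : IsSelfAdjoint e) (heA : e ∈ S.Ab) (hε : ‖e‖ ≤ ε) (hM : 1 ≤ M)
    (hMs : (∑ j ∈ Finset.range n, |r j| * ((b j).length : ℝ) ^ 2) ≤ M) (ht : 0 < t) :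
    1 - 4 * (4 + 2 * (50 * M) + (384 * M * √t + ε / √t + 1433600 * M ^ 4 * √t)) *
      (384 * M * √t + ε / √t + 1433600 * M ^ 4 * √t) ≤
      gval S.Ω (S.tup (ff n r b S.xb + e)) S.n1 t := by
  have hs : (0 : ℝ) < √t := Real.sqrt_pos.mpr ht
  have hM0 : 0 < M := by linarith
  have cx : ∀ i, ‖cay (S.xb i)‖ ≤ 1 := fun i => (cay_facts _ (S.s_sa _)).2
  have cx' : ∀ i, ‖cay (xr S i)‖ ≤ 1 := fun i => (cay_facts _ (d_sa S _)).2
  have cy : ∀ i, ‖cay (yl S t i)‖ ≤ 1 := fun i => (cay_facts _ (yl_sa S t i)).2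
  have cy' : ∀ i, ‖cay (yr S t i)‖ ≤ 1 := fun i => (cay_facts _ (yr_sa S t i)).2
  have dl := fun i => (cay_close S t ht.le i).1
  have dr := fun i => (cay_close S t ht.le i).2
  have h8 : (0 : ℝ) ≤ 8 * √t := by positivity
  have h0 : ∀ a : H →L[ℂ] H, ‖a - a‖ ≤ 8 * √t := fun a => by simpa using h8
  set T := TF n r b S.xb (xr S) S.xb (xr S) with hTdef
  set T' := TF n r b (yl S t) (yr S t) (yl S t) (yr S t) with hT'def
  set Tm := TF n r b S.xb (xr S) (yl S t) (yr S t) with hTmdef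
  have nT : ∀ k, ‖T k‖ ≤ 8 * M := fun k => norm_TF_le _ _ _ _ cx cx' cx cx' n r b M hMs k
  have nT' : ∀ k, ‖T' k‖ ≤ 8 * M := fun k => norm_TF_le _ _ _ _ cy cy' cy cy' n r b M hMs k
  have dT : ∀ k, ‖T' k - T k‖ ≤ 8 * M * (8 * √t) := fun k =>
    norm_TF_sub_le _ _ _ _ _ _ _ _ cy cy' cy cy' cx cx' cx cx' (8 * √t) h8 dl dr dl dr
      n r b M hMs k
  have dTm : ∀ k, ‖Tm k - T k‖ ≤ 8 * M * (8 * √t) := fun k =>
    norm_TF_sub_le _ _ _ _ _ _ _ _ cx cx' cy cy' cx cx' cx cx' (8 * √t) h8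
      (fun i => h0 _) (fun i => h0 _) dl dr n r b M hMs k
  have nv : ∀ j, ‖S.n1 j S.Ω‖ ≤ 2 := fun j => norm_vac S _ 2 (S.norm_s _)
  set q0 : H := S.n1 3 S.Ω - ∑ i : Fin 3, T i (S.n1 i.castSucc S.Ω) with hq0
  set q : H := qq S n r b e t with hqdef
  have hTv : ∀ (A : H →L[ℂ] H) (c : ℝ) (j : Fin 4), ‖A‖ ≤ c → ‖A (S.n1 j S.Ω)‖ ≤ c * 2 := by
    intro A c j hA
    exact A.le_of_opNorm_le_of_le hA (nv j)
  have nq0 : ‖q0‖ ≤ 50 * M := by
    have h1 : ‖∑ i : Fin 3, T i (S.n1 i.castSucc S.Ω)‖ ≤ ∑ i : Fin 3, 8 * M * 2 :=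
      norm_sum_le_of_le _ (fun i _ => hTv _ _ _ (nT i))
    rw [Finset.sum_const, Finset.card_univ, Fintype.card_fin, nsmul_eq_mul] at h1
    have h2 := norm_sub_le (S.n1 3 S.Ω) (∑ i : Fin 3, T i (S.n1 i.castSucc S.Ω))
    have h3 := nv 3
    push_cast at h1
    rw [hq0]
    linarith
  have dq : ‖q - q0‖ ≤ 384 * M * √t + ε / √t := by
    have h1 : q - q0 = -(∑ i : Fin 3, (Tm i - T i) (S.n1 i.castSucc S.Ω)) +
        (((√t)⁻¹ : ℝ) : ℂ) • e S.Ω := by
      rw [hqdef, qq_eq S n r b e t ht, hq0]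
      simp only [_root_.sub_apply, Finset.sum_sub_distrib]
      abel
    rw [h1]
    have h2 : ‖∑ i : Fin 3, (Tm i - T i) (S.n1 i.castSucc S.Ω)‖ ≤
        ∑ i : Fin 3, 8 * M * (8 * √t) * 2 :=
      norm_sum_le_of_le _ (fun i _ => hTv _ _ _ (dTm i))
    rw [Finset.sum_const, Finset.card_univ, Fintype.card_fin, nsmul_eq_mul] at h2
    rw [Nat.cast_ofNat] at h2
    have h3 : ‖(((√t)⁻¹ : ℝ) : ℂ) • e S.Ω‖ ≤ ε / √t := by
      rw [norm_smul, Complex.norm_real, Real.norm_of_nonneg (by positivity)]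
      have h4 := norm_vac S e ε hε
      rw [div_eq_inv_mul]
      exact mul_le_mul_of_nonneg_left h4 (by positivity)
    have h5 := norm_add_le (-(∑ i : Fin 3, (Tm i - T i) (S.n1 i.castSucc S.Ω)))
      ((((√t)⁻¹ : ℝ) : ℂ) • e S.Ω)
    rw [norm_neg] at h5
    linarith
  have hA : (1 : ℝ) ≤ 8 * M := by linarith
  have hX0 : ∀ j, ‖JT T j q0‖ ≤ 50 * M := fun j => ((JT_facts T q0).2 j).trans nq0
  have hd : ∀ j, ‖JT T' j q - JT T j q0‖ ≤
      384 * M * √t + ε / √t + 1433600 * M ^ 4 * √t := by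
    intro j
    have h1 : JT T' j q - JT T j q0 = JT T' j (q - q0) + (JT T' j - JT T j) q0 := by
      rw [ContinuousLinearMap.map_sub (JT T' j) q q0, _root_.sub_apply (JT T' j)]
      abel
    rw [h1]
    have h2 : ‖JT T' j (q - q0)‖ ≤ ‖q - q0‖ := (JT_facts T' (q - q0)).2 j
    have h3 := norm_JT_sub_le T' T (8 * M) (8 * M * (8 * √t)) hA nT' nT dT j
    have h4 := (JT T' j - JT T j).le_of_opNorm_le_of_le h3 nq0
    have h5 := norm_add_le (JT T' j (q - q0)) ((JT T' j - JT T j) q0)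
    have h6 : 7 * (8 * M) ^ 2 * (8 * M * (8 * √t)) * (50 * M) = 1433600 * M ^ 4 * √t := by ring
    linarith
  have hP := Psi_perturb (fun j => S.n1 j S.Ω) (fun j => JT T' j q) (fun j => JT T j q0)
    (50 * M) _ nv hX0 hd
  have hP1 : Psi (fun j => S.n1 j S.Ω) (fun j => JT T j q0) = 1 := core_alg S n r b
  rw [hP1] at hP
  exact hP.trans (Psi_le_gval S n r b e t he heA)

end Low


/-- MODULE H. -/
theorem lower_bound (S : FS I0 H) : ∃ C : ℝ, 0 < C ∧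
    ∀ (k : ℕ) (r : ℕ → ℝ) (b : ℕ → List (Fin 3)) (e : H →L[ℂ] H) (M ε t : ℝ),
      IsSelfAdjoint e → e ∈ S.Ab → ‖e‖ ≤ ε → 1 ≤ M → 
      (∑ j ∈ Finset.range k, |r j| * ((b j).length : ℝ) ^ 2) ≤ M → 0 < t → t ≤ 1 →
      1 - C * M ^ 6 * (√t + ε / √t) ≤
        gval S.Ω (S.tup ((∑ j ∈ Finset.range k, ((r j : ℝ) : ℂ) • Fb (b j) S.xb) + e)) S.n1 t := by
  refine ⟨10 ^ 9, by norm_num, ?_⟩
  intro k r b e M ε t he heA hε hM hMs ht ht1
  have hcore := Low.core_bound S k r b e M ε t he heA hε hM hMs ht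
  have hs : (0 : ℝ) < √t := Real.sqrt_pos.mpr ht
  have hε0 : 0 ≤ ε := (norm_nonneg e).trans hε
  have hd0 : 0 ≤ ε / √t := div_nonneg hε0 hs.le
  have hM0 : 0 < M := by linarith
  set w := √t + ε / √t with hw
  have hw0 : 0 < w := by positivity
  have hgv : 0 ≤ gval S.Ω
      (S.tup ((∑ j ∈ Finset.range k, ((r j : ℝ) : ℂ) • Fb (b j) S.xb) + e)) S.n1 t := by
    unfold gval
    exact Finset.sum_nonneg fun j _ => by positivity
  by_cases hbig : 1 ≤ 10 ^ 9 * M ^ 6 * w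
  · linarith
  · push Not at hbig
    refine le_trans ?_ hcore
    set κ := 384 * M * √t + ε / √t + 1433600 * M ^ 4 * √t with hκ
    have hM4 : 1 ≤ M ^ 4 := one_le_pow₀ hM
    have hM14 : M ≤ M ^ 4 := by
      calc M = M ^ 1 := (pow_one M).symm
        _ ≤ M ^ 4 := pow_le_pow_right₀ hM (by norm_num)
    have hκ1 : κ ≤ 1433984 * M ^ 4 * w := by
      rw [hκ, hw]
      have h1 : 384 * M * √t ≤ 384 * M ^ 4 * √t := by gcongr
      have h2 : ε / √t ≤ 1433984 * M ^ 4 * (ε / √t) := by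
        have : 1 ≤ 1433984 * M ^ 4 := by linarith
        nlinarith
      nlinarith
    have hκ0 : 0 ≤ κ := by positivity
    have hM46 : M ^ 4 ≤ M ^ 6 := pow_le_pow_right₀ hM (by norm_num)
    have hM56 : M ^ 5 ≤ M ^ 6 := pow_le_pow_right₀ hM (by norm_num)
    have hκ2 : κ ≤ 1 := by
      have h1 : 1433984 * M ^ 4 * w ≤ 10 ^ 9 * M ^ 6 * w := by
        have : 1433984 * M ^ 4 ≤ 10 ^ 9 * M ^ 6 := by nlinarith
        nlinarith
      linarith
    have h3 : 4 * (4 + 2 * (50 * M) + κ) * κ ≤ 420 * M * κ := by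
      have : 4 * (4 + 2 * (50 * M) + κ) ≤ 420 * M := by nlinarith
      exact mul_le_mul_of_nonneg_right this hκ0
    have h4 : 420 * M * κ ≤ 420 * M * (1433984 * M ^ 4 * w) := by gcongr
    have h5 : 420 * M * (1433984 * M ^ 4 * w) ≤ 10 ^ 9 * M ^ 6 * w := by
      have : 420 * M * (1433984 * M ^ 4 * w) = 602273280 * M ^ 5 * w := by ring
      rw [this]
      have : 602273280 * M ^ 5 ≤ 10 ^ 9 * M ^ 6 := by nlinarith [pow_pos hM0 5]
      nlinarith
    linarith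

end Pool.Agent.Helper38.FE
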