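import Pool.Agent.Helper38.FE.LowTay

/-! MODULE H2: left/right pairs for free semicircular systems without norm bounds. -/

set_option autoImplicit false
set_option linter.unusedVariables false
set_option linter.unusedSectionVars false

open MeasureTheory Filter Topology
open scoped InnerProductSpace ENNReal ComplexConjugate

namespace Pool.Agent.Helper38.FE
namespace Low2

open Low

variable {ι H : Type} [NormedAddCommGroup H] [InnerProductSpace ℂ H] [CompleteSpace H]

/-- A free semicircular system in Fock form, without norm bounds and cyclicity. -/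
structure FS0 (ι : Type) (H : Type) [NormedAddCommGroup H] [InnerProductSpace ℂ H]
    [CompleteSpace H] where
  s : ι → (H →L[ℂ] H)
  d : ι → (H →L[ℂ] H)
  ra : ι → (H →L[ℂ] H)
  Ω : H
  s_sa : ∀ i, IsSelfAdjoint (s i)
  d_eq : ∀ i, d i = ra i + star (ra i)
  comm : ∀ i j, s i * d j = d j * s i
  sΩ : ∀ i, s i Ω = d i Ω
  norm_Ω : ‖Ω‖ = 1
  raΩ : ∀ i, ra i Ω = 0
  ra_s : ∀ i j, i ≠ j → ra i * s j = s j * ra i
  ra_s_self : ∀ i (ξ : H), ra i (s i ξ) = s i (ra i ξ) + ⟪Ω, ξ⟫_ℂ • Ω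

/-- `a` is a left element (in `{s}''`), `a'` is its right partner (in `{s}'`), and both `a` and
`a*` commute with the right annihilation operators with index in `Q` -/
structure Pair0 (S : FS0 ι H) (Q : Set ι) (a a' : H →L[ℂ] H) : Prop where
  left : ∀ c : H →L[ℂ] H, (∀ i, c * S.s i = S.s i * c) → a * c = c * a
  right : ∀ i, a' * S.s i = S.s i * a'
  vac : a S.Ω = a' S.Ω
  vac_star : (star a) S.Ω = (star a') S.Ω
  ra : ∀ j ∈ Q, S.ra j * a = a * S.ra j
  ra_star : ∀ j ∈ Q, S.ra j * star a = star a * S.ra j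

theorem pc_star_comm (S : FS0 ι H) (c : H →L[ℂ] H) (hc : ∀ i, c * S.s i = S.s i * c) (i : ι) :
    star c * S.s i = S.s i * star c := by
  have h1 := congrArg star (hc i)
  rw [star_mul, star_mul, (S.s_sa i).star_eq] at h1
  exact h1.symm

theorem pc_left_star (S : FS0 ι H) (Q : Set ι) (a a' : H →L[ℂ] H) (h : Pair0 S Q a a')
    (c : H →L[ℂ] H) (hc : ∀ i, c * S.s i = S.s i * c) : star a * c = c * star a := by
  have h1 := congrArg star (h.left (star c) (pc_star_comm S c hc))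
  rw [star_mul, star_mul, star_star] at h1
  exact h1.symm

theorem pc_inv (a c : H →L[ℂ] H) (ha : IsUnit a) (h : a * c = c * a) :
    Ring.inverse a * c = c * Ring.inverse a := by
  calc Ring.inverse a * c = Ring.inverse a * c * (a * Ring.inverse a) := by
        rw [Ring.mul_inverse_cancel a ha, mul_one]
    _ = Ring.inverse a * (c * a) * Ring.inverse a := by simp only [mul_assoc]
    _ = (Ring.inverse a * a) * c * Ring.inverse a := by rw [← h]; simp only [mul_assoc]
    _ = c * Ring.inverse a := by rw [Ring.inverse_mul_cancel a ha, one_mul]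

theorem pc_inv_vac (a a' : H →L[ℂ] H) (Ω : H) (ha : IsUnit a) (ha' : IsUnit a')
    (hc : a * Ring.inverse a' = Ring.inverse a' * a) (h : a Ω = a' Ω) :
    Ring.inverse a Ω = Ring.inverse a' Ω := by
  have h1 : a (Ring.inverse a' Ω) = Ω := by
    have h2 : a (Ring.inverse a' Ω) = (a * Ring.inverse a') Ω := rfl
    rw [h2, hc]
    show Ring.inverse a' (a Ω) = Ω
    rw [h]
    show (Ring.inverse a' * a') Ω = Ω
    rw [Ring.inverse_mul_cancel a' ha']
    rfl
  have h3 : Ring.inverse a (a (Ring.inverse a' Ω)) = Ring.inverse a' Ω := by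
    show (Ring.inverse a * a) (Ring.inverse a' Ω) = _
    rw [Ring.inverse_mul_cancel a ha]
    rfl
  rw [h1] at h3
  exact h3

theorem pair0_closure (S : FS0 ι H) (Q : Set ι) :
    (∀ i, i ∉ Q → Pair0 S Q (S.s i) (S.d i)) ∧
    Pair0 S Q 1 1 ∧
    (∀ a a' b b', Pair0 S Q a a' → Pair0 S Q b b' → Pair0 S Q (a + b) (a' + b')) ∧
    (∀ (c : ℂ) a a', Pair0 S Q a a' → Pair0 S Q (c • a) (c • a')) ∧
    (∀ a a' b b', Pair0 S Q a a' → Pair0 S Q b b' → Pair0 S Q (a * b) (b' * a')) ∧
    (∀ a a', Pair0 S Q a a' → Pair0 S Q (star a) (star a')) ∧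
    (∀ a a', Pair0 S Q a a' → IsUnit a → IsUnit a' →
      Pair0 S Q (Ring.inverse a) (Ring.inverse a')) ∧
    (∀ (Q' : Set ι) a a', Q' ⊆ Q → Pair0 S Q a a' → Pair0 S Q' a a') := by
  have hgen : ∀ i, i ∉ Q → Pair0 S Q (S.s i) (S.d i) := by
    intro i hi
    have hd : star (S.d i) = S.d i := by
      rw [S.d_eq, star_add, star_star, add_comm]
    refine ⟨fun c hc => (hc i).symm, fun j => (S.comm j i).symm, S.sΩ i, ?_, ?_, ?_⟩
    · rw [hd, (S.s_sa i).star_eq, S.sΩ]
    · intro j hj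
      exact S.ra_s j i (fun h => hi (h ▸ hj))
    · intro j hj
      rw [(S.s_sa i).star_eq]
      exact S.ra_s j i (fun h => hi (h ▸ hj))
  have hmul : ∀ a a' b b', Pair0 S Q a a' → Pair0 S Q b b' → Pair0 S Q (a * b) (b' * a') := by
    intro a a' b b' ha hb
    refine ⟨?_, ?_, ?_, ?_, ?_, ?_⟩
    · intro c hc
      rw [mul_assoc, hb.left c hc, ← mul_assoc, ha.left c hc, mul_assoc]
    · intro i
      rw [mul_assoc, ha.right i, ← mul_assoc, hb.right i, mul_assoc]
    · show a (b S.Ω) = b' (a' S.Ω)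
      rw [hb.vac, ← ha.vac]
      show (a * b') S.Ω = (b' * a) S.Ω
      rw [ha.left b' hb.right]
    · rw [star_mul, star_mul]
      show star b (star a S.Ω) = star a' (star b' S.Ω)
      rw [ha.vac_star, ← hb.vac_star]
      show (star b * star a') S.Ω = (star a' * star b) S.Ω
      rw [pc_left_star S Q b b' hb (star a') (pc_star_comm S a' ha.right)]
    · intro j hj
      rw [← mul_assoc, ha.ra j hj, mul_assoc, hb.ra j hj, mul_assoc]
    · intro j hj
      rw [star_mul, ← mul_assoc, hb.ra_star j hj, mul_assoc, ha.ra_star j hj, mul_assoc]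
  have hstar : ∀ a a', Pair0 S Q a a' → Pair0 S Q (star a) (star a') := by
    intro a a' ha
    refine ⟨pc_left_star S Q a a' ha, pc_star_comm S a' ha.right, ha.vac_star, ?_, ha.ra_star, ?_⟩
    · rw [star_star, star_star, ha.vac]
    · intro j hj
      rw [star_star]
      exact ha.ra j hj
  refine ⟨hgen, ?_, ?_, ?_, hmul, hstar, ?_, ?_⟩
  · refine ⟨?_, ?_, rfl, ?_, ?_, ?_⟩
    · intro c _
      rw [one_mul, mul_one]
    · intro i
      rw [one_mul, mul_one]
    · rfl
    · intro j _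
      rw [one_mul, mul_one]
    · intro j _
      rw [star_one, one_mul, mul_one]
  · intro a a' b b' ha hb
    refine ⟨?_, ?_, ?_, ?_, ?_, ?_⟩
    · intro c hc
      rw [add_mul, mul_add, ha.left c hc, hb.left c hc]
    · intro i
      rw [add_mul, mul_add, ha.right i, hb.right i]
    · rw [ContinuousLinearMap.add_apply, ContinuousLinearMap.add_apply, ha.vac, hb.vac]
    · rw [star_add, star_add, ContinuousLinearMap.add_apply, ContinuousLinearMap.add_apply,
        ha.vac_star, hb.vac_star]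
    · intro j hj
      rw [add_mul, mul_add, ha.ra j hj, hb.ra j hj]
    · intro j hj
      rw [star_add, add_mul, mul_add, ha.ra_star j hj, hb.ra_star j hj]
  · intro z a a' ha
    refine ⟨?_, ?_, ?_, ?_, ?_, ?_⟩
    · intro c hc
      rw [smul_mul_assoc, mul_smul_comm, ha.left c hc]
    · intro i
      rw [smul_mul_assoc, mul_smul_comm, ha.right i]
    · rw [ContinuousLinearMap.smul_apply, ContinuousLinearMap.smul_apply, ha.vac]
    · rw [star_smul, star_smul, ContinuousLinearMap.smul_apply, ContinuousLinearMap.smul_apply,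
        ha.vac_star]
    · intro j hj
      rw [smul_mul_assoc, mul_smul_comm, ha.ra j hj]
    · intro j hj
      rw [star_smul, smul_mul_assoc, mul_smul_comm, ha.ra_star j hj]
  · intro a a' ha hua hua'
    have hus : IsUnit (star a) := hua.star
    have hus' : IsUnit (star a') := hua'.star
    have hri : ∀ i, Ring.inverse a' * S.s i = S.s i * Ring.inverse a' :=
      fun i => pc_inv a' (S.s i) hua' (ha.right i)
    have hsa := hstar a a' ha
    have hri' : ∀ i, Ring.inverse (star a') * S.s i = S.s i * Ring.inverse (star a') :=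
      fun i => pc_inv (star a') (S.s i) hus' (hsa.right i)
    refine ⟨?_, hri, ?_, ?_, ?_, ?_⟩
    · intro c hc
      exact pc_inv a c hua (ha.left c hc)
    · exact pc_inv_vac a a' S.Ω hua hua' (ha.left _ hri) ha.vac
    · rw [← Ring.inverse_star, ← Ring.inverse_star]
      exact pc_inv_vac (star a) (star a') S.Ω hus hus' (hsa.left _ hri') hsa.vac
    · intro j hj
      exact (pc_inv a (S.ra j) hua (ha.ra j hj).symm).symm
    · intro j hj
      rw [← Ring.inverse_star]
      exact (pc_inv (star a) (S.ra j) hus (ha.ra_star j hj).symm).symm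
  · intro Q' a a' hQ ha
    exact ⟨ha.left, ha.right, ha.vac, ha.vac_star, fun j hj => ha.ra j (hQ hj),
      fun j hj => ha.ra_star j (hQ hj)⟩

theorem ring_inv_comm {R : Type*} [Ring R] (u v : R) (hu : IsUnit u) (h : u * v = v * u) :
    Ring.inverse u * v = v * Ring.inverse u := by
  calc Ring.inverse u * v = Ring.inverse u * v * (u * Ring.inverse u) := by
        rw [Ring.mul_inverse_cancel u hu, mul_one]
    _ = Ring.inverse u * (v * u) * Ring.inverse u := by simp only [mul_assoc]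
    _ = Ring.inverse u * (u * v) * Ring.inverse u := by rw [h]
    _ = (Ring.inverse u * u) * v * Ring.inverse u := by simp only [mul_assoc]
    _ = v * Ring.inverse u := by rw [Ring.inverse_mul_cancel u hu, one_mul]

/-- pairs are closed under the Cayley transform -/
theorem pair0_cay (S : FS0 ι H) (Q : Set ι) (a a' : H →L[ℂ] H) (h : Pair0 S Q a a')
    (ha : IsSelfAdjoint a) (ha' : IsSelfAdjoint a') : Pair0 S Q (cay a) (cay a') := by
  obtain ⟨_, h1, hadd, hsm, hmul, _, hinv, _⟩ := pair0_closure S Q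
  have p2 : Pair0 S Q (a + al • (1 : H →L[ℂ] H)) (a' + al • (1 : H →L[ℂ] H)) :=
    hadd _ _ _ _ h (hsm al 1 1 h1)
  have e : ∀ x : H →L[ℂ] H, x + (-al) • (1 : H →L[ℂ] H) = x - al • (1 : H →L[ℂ] H) := by
    intro x
    rw [neg_smul, sub_eq_add_neg]
  have p3 : Pair0 S Q (a - al • (1 : H →L[ℂ] H)) (a' - al • (1 : H →L[ℂ] H)) := by
    have := hadd _ _ _ _ h (hsm (-al) 1 1 h1)
    rwa [e, e] at this
  have u := (cay_facts a ha).1
  have u' := (cay_facts a' ha').1
  have p4 := hmul _ _ _ _ p2 (hinv _ _ p3 u u')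
  have hc : (a' - al • (1 : H →L[ℂ] H)) * (a' + al • (1 : H →L[ℂ] H)) =
      (a' + al • (1 : H →L[ℂ] H)) * (a' - al • (1 : H →L[ℂ] H)) := by
    rw [sub_mul, mul_add, mul_add, add_mul, mul_sub, mul_sub]
    simp only [mul_smul_comm, smul_mul_assoc, mul_one, one_mul]
    abel
  rw [ring_inv_comm _ _ u' hc] at p4
  exact p4

/-- words in the Cayley transforms are pairs -/
theorem pair0_Wd (S : FS0 ι H) (Q : Set ι) (x x' : Fin 3 → (H →L[ℂ] H))
    (h : ∀ i, Pair0 S Q (x i) (x' i)) (ha : ∀ i, IsSelfAdjoint (x i))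
    (ha' : ∀ i, IsSelfAdjoint (x' i)) (b : List (Fin 3)) : Pair0 S Q (Wd b x) (WR b x') := by
  obtain ⟨-, hone, -, -, hmul, -, -, -⟩ := pair0_closure S Q
  induction b with
  | nil => simpa [Wd, WR] using hone
  | cons i b ih =>
    have e1 : Wd (i :: b) x = cay (x i) * Wd b x := by
      simp [Wd]
    have e2 : WR (i :: b) x' = WR b x' * cay (x' i) := by
      simp [WR]
    rw [e1, e2]
    exact hmul _ _ _ _ (pair0_cay S Q _ _ (h i) (ha i) (ha' i)) ih

/-- `⟪s_j Ω, a b' s_k Ω⟫ = δ_jk τ(a) τ(b)` -/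
theorem pair0_inner (S : FS0 ι H) (Q : Set ι) (a a' b b' : H →L[ℂ] H) (ha : Pair0 S Q a a')
    (hb : Pair0 S Q b b') (j k : ι) (hj : j ∈ Q) :
    (j ≠ k → ⟪S.s j S.Ω, (a * b') (S.s k S.Ω)⟫_ℂ = 0) ∧
      ⟪S.s j S.Ω, (a * b') (S.s j S.Ω)⟫_ℂ = ⟪S.Ω, a S.Ω⟫_ℂ * ⟪S.Ω, b S.Ω⟫_ℂ := by
  have happ : ∀ (f g : H →L[ℂ] H) (v : H), f * g = g * f → f (g v) = g (f v) := by
    intro f g v h
    have := congrArg (fun T : H →L[ℂ] H => T v) h
    exact this
  have hmul : ∀ (f g : H →L[ℂ] H) (v : H), (f * g) v = f (g v) := fun f g v => rfl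
  have hs : S.s j S.Ω = (star (S.ra j)) S.Ω := by
    rw [S.sΩ, S.d_eq]
    show S.ra j S.Ω + (star (S.ra j)) S.Ω = _
    rw [S.raΩ, zero_add]
  have hin : ∀ w : H, ⟪S.s j S.Ω, w⟫_ℂ = ⟪S.Ω, S.ra j w⟫_ℂ := by
    intro w
    rw [hs, ContinuousLinearMap.star_eq_adjoint, ContinuousLinearMap.adjoint_inner_left]
  have hb0 : S.ra j (b S.Ω) = 0 := by
    rw [happ _ _ _ (hb.ra j hj), S.raΩ, map_zero]
  have hab : ∀ k, (a * b') (S.s k S.Ω) = a (S.s k (b S.Ω)) := by
    intro k
    rw [hmul, happ _ _ _ (hb.right k), ← hb.vac]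
  constructor
  · intro hjk
    rw [hin, hab, happ _ _ _ (ha.ra j hj), happ _ _ _ (S.ra_s j k hjk), hb0, map_zero, map_zero,
      inner_zero_right]
  · rw [hin, hab, happ _ _ _ (ha.ra j hj), S.ra_s_self, hb0, map_zero, zero_add, map_smul,
      inner_smul_right, mul_comm]

/-- left and right elements commute, and `τ` is a trace -/
theorem pair0_trace (S : FS0 ι H) (Q : Set ι) (a a' b b' : H →L[ℂ] H) (ha : Pair0 S Q a a')
    (hb : Pair0 S Q b b') :
    a * b' = b' * a ∧ ⟪S.Ω, (a * b) S.Ω⟫_ℂ = ⟪S.Ω, (b * a) S.Ω⟫_ℂ := by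
  have hc : a * b' = b' * a := ha.left b' hb.right
  refine ⟨hc, ?_⟩
  have h1 : (a * b) S.Ω = (b' * a) S.Ω := by
    rw [← hc]
    change a (b S.Ω) = a (b' S.Ω)
    rw [hb.vac]
  have h2 : ⟪S.Ω, (b' * a) S.Ω⟫_ℂ = ⟪(star b') S.Ω, a S.Ω⟫_ℂ := by
    rw [ContinuousLinearMap.star_eq_adjoint, ContinuousLinearMap.adjoint_inner_left]
    rfl
  have h3 : ⟪S.Ω, (b * a) S.Ω⟫_ℂ = ⟪(star b) S.Ω, a S.Ω⟫_ℂ := by
    rw [ContinuousLinearMap.star_eq_adjoint, ContinuousLinearMap.adjoint_inner_left]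
    rfl
  rw [h1, h2, h3, hb.vac_star]

/-- the *-algebra spanned by the products `a b'` -/
theorem exists_span_algebra0 (S : FS0 ι H) (Q : Set ι) : ∃ U : StarSubalgebra ℂ (H →L[ℂ] H),
    (U : Set (H →L[ℂ] H)) = (Submodule.span ℂ {η : H →L[ℂ] H | ∃ a a' b b',
      Pair0 S Q a a' ∧ Pair0 S Q b b' ∧ η = a * b'} : Set (H →L[ℂ] H)) := by
  obtain ⟨-, h1, -, hsmul, hmul, hstar, -, -⟩ := pair0_closure S Q
  set T : Set (H →L[ℂ] H) := {η : H →L[ℂ] H | ∃ a a' b b',
      Pair0 S Q a a' ∧ Pair0 S Q b b' ∧ η = a * b'} with hT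
  have hone : (1 : H →L[ℂ] H) ∈ T := ⟨1, 1, 1, 1, h1, h1, (one_mul _).symm⟩
  have hTT : ∀ x ∈ T, ∀ y ∈ T, x * y ∈ T := by
    rintro x ⟨a, a', b, b', ha, hb, rfl⟩ y ⟨c, c', e, e', hc, he, rfl⟩
    refine ⟨a * c, c' * a', e * b, b' * e', hmul _ _ _ _ ha hc, hmul _ _ _ _ he hb, ?_⟩
    have h2 := (pair0_trace S Q c c' b b' hc hb).1
    calc a * b' * (c * e') = a * (b' * c) * e' := by noncomm_ring
      _ = a * (c * b') * e' := by rw [h2]
      _ = a * c * (b' * e') := by noncomm_ring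
  have hmm : ∀ x ∈ Submodule.span ℂ T, ∀ y ∈ Submodule.span ℂ T, x * y ∈ Submodule.span ℂ T := by
    intro x hx y hy
    have h3 := Submodule.mul_mem_mul hx hy
    rw [Submodule.span_mul_span] at h3
    refine Submodule.span_mono ?_ h3
    rintro z ⟨u, hu, v, hv, rfl⟩
    exact hTT u hu v hv
  have hst : ∀ x ∈ Submodule.span ℂ T, star x ∈ Submodule.span ℂ T := by
    intro x hx
    induction hx using Submodule.span_induction with
    | mem x h =>
      obtain ⟨a, a', b, b', ha, hb, rfl⟩ := h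
      apply Submodule.subset_span
      refine ⟨star a, star a', star b, star b', hstar _ _ ha, hstar _ _ hb, ?_⟩
      rw [star_mul]
      exact ((pair0_trace S Q (star a) (star a') (star b) (star b') (hstar _ _ ha)
        (hstar _ _ hb)).1).symm
    | zero => rw [star_zero]; exact Submodule.zero_mem _
    | add x y _ _ hx hy => rw [star_add]; exact Submodule.add_mem _ hx hy
    | smul c x _ hx => rw [star_smul]; exact Submodule.smul_mem _ _ hx
  refine ⟨{ carrier := (Submodule.span ℂ T : Set (H →L[ℂ] H))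
            mul_mem' := fun {x y} hx hy => hmm x hx y hy
            one_mem' := Submodule.subset_span hone
            add_mem' := fun {x y} hx hy => Submodule.add_mem _ hx hy
            zero_mem' := Submodule.zero_mem _
            algebraMap_mem' := ?_
            star_mem' := fun {x} hx => hst x hx }, rfl⟩
  intro r
  rw [Algebra.algebraMap_eq_smul_one]
  exact Submodule.smul_mem _ _ (Submodule.subset_span hone)

/-- left elements kill the noise vectors -/
theorem pair0_vac (S : FS0 ι H) (Q : Set ι) (a a' b b' : H →L[ℂ] H) (ha : Pair0 S Q a a')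
    (hb : Pair0 S Q b b') (j : ι) (hj : j ∈ Q) : ⟪S.s j S.Ω, (a * b') S.Ω⟫_ℂ = 0 := by
  have happ : ∀ (f g : H →L[ℂ] H) (v : H), f * g = g * f → f (g v) = g (f v) := by
    intro f g v h
    have := congrArg (fun T : H →L[ℂ] H => T v) h
    exact this
  have hs : S.s j S.Ω = (star (S.ra j)) S.Ω := by
    rw [S.sΩ, S.d_eq]
    show S.ra j S.Ω + (star (S.ra j)) S.Ω = _
    rw [S.raΩ, zero_add]
  have h1 : (a * b') S.Ω = a (b S.Ω) := by
    show a (b' S.Ω) = _
    rw [← hb.vac]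
  rw [h1, hs, ContinuousLinearMap.star_eq_adjoint, ContinuousLinearMap.adjoint_inner_left,
    happ _ _ _ (ha.ra j hj), happ _ _ _ (hb.ra j hj), S.raΩ, map_zero, map_zero, inner_zero_right]

/-- the vector functional `η ↦ ⟪v, η w⟫` -/
noncomputable def vfn (v w : H) : (H →L[ℂ] H) →L[ℂ] ℂ :=
  (innerSL ℂ v).comp (ContinuousLinearMap.apply ℂ H w)

theorem vfn_apply (v w : H) (η : H →L[ℂ] H) : vfn v w η = ⟪v, η w⟫_ℂ := rfl

/-- the closed *-algebra generated by the products `a b'` and the vector states on it -/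
theorem exists_closed_algebra0 (S : FS0 ι H) (Q : Set ι) : ∃ U : StarSubalgebra ℂ (H →L[ℂ] H),
    IsClosed (U : Set (H →L[ℂ] H)) ∧
    (∀ a a', Pair0 S Q a a' → a ∈ U ∧ a' ∈ U) ∧
    (∀ η ∈ U, ∀ j ∈ Q, ∀ k ∈ Q, j ≠ k → ⟪S.s j S.Ω, η (S.s k S.Ω)⟫_ℂ = 0) ∧
    (∀ η ∈ U, ∀ j ∈ Q, ∀ k ∈ Q,
      ⟪S.s j S.Ω, η (S.s j S.Ω)⟫_ℂ = ⟪S.s k S.Ω, η (S.s k S.Ω)⟫_ℂ) ∧
    (∀ η ∈ U, ∀ ζ ∈ U, ∀ j ∈ Q, ⟪S.s j S.Ω, (η * ζ) (S.s j S.Ω)⟫_ℂ =
      ⟪S.s j S.Ω, (ζ * η) (S.s j S.Ω)⟫_ℂ) ∧
    (∀ η ∈ U, ∀ j ∈ Q, ⟪S.s j S.Ω, η S.Ω⟫_ℂ = 0) := by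
  obtain ⟨U0, hU0⟩ := exists_span_algebra0 S Q
  obtain ⟨-, h1, -, -, hmul, -, -, -⟩ := pair0_closure S Q
  set G : Set (H →L[ℂ] H) := {η : H →L[ℂ] H | ∃ a a' b b',
      Pair0 S Q a a' ∧ Pair0 S Q b b' ∧ η = a * b'} with hG
  have hmem : ∀ η : H →L[ℂ] H, η ∈ U0.topologicalClosure ↔
      η ∈ closure ((Submodule.span ℂ G : Submodule ℂ (H →L[ℂ] H)) : Set (H →L[ℂ] H)) := by
    intro η
    rw [← hU0, ← SetLike.mem_coe, StarSubalgebra.topologicalClosure_coe]
  have hcl : ∀ P : (H →L[ℂ] H) → Prop, IsClosed {η | P η} →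
      (∀ η ∈ Submodule.span ℂ G, P η) → ∀ η ∈ U0.topologicalClosure, P η := by
    intro P hP h η hη
    rw [hmem] at hη
    exact closure_minimal (fun x hx => h x hx) hP hη
  refine ⟨U0.topologicalClosure, U0.isClosed_topologicalClosure, ?_, ?_, ?_, ?_, ?_⟩
  · intro a a' h
    constructor
    · rw [hmem]
      exact subset_closure (Submodule.subset_span ⟨a, a', 1, 1, h, h1, (mul_one a).symm⟩)
    · rw [hmem]
      exact subset_closure (Submodule.subset_span ⟨1, 1, a, a', h1, h, (one_mul a').symm⟩)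
  · intro η hη j hj k hk hjk
    revert η
    refine hcl (fun η => ⟪S.s j S.Ω, η (S.s k S.Ω)⟫_ℂ = 0) ?_ ?_
    · exact isClosed_eq (vfn (S.s j S.Ω) (S.s k S.Ω)).continuous continuous_const
    · intro η hη
      induction hη using Submodule.span_induction with
      | mem x hx =>
        obtain ⟨a, a', b, b', ha, hb, rfl⟩ := hx
        exact (pair0_inner S Q a a' b b' ha hb j k hj).1 hjk
      | zero => simp
      | add x y _ _ hx hy =>
        show ⟪S.s j S.Ω, (x + y) (S.s k S.Ω)⟫_ℂ = 0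
        rw [_root_.add_apply, inner_add_right, hx, hy, add_zero]
      | smul c x _ hx =>
        show ⟪S.s j S.Ω, (c • x) (S.s k S.Ω)⟫_ℂ = 0
        rw [_root_.smul_apply, inner_smul_right, hx, mul_zero]
  · intro η hη j hj k hk
    revert η
    refine hcl (fun η => ⟪S.s j S.Ω, η (S.s j S.Ω)⟫_ℂ = ⟪S.s k S.Ω, η (S.s k S.Ω)⟫_ℂ) ?_ ?_
    · exact isClosed_eq (vfn (S.s j S.Ω) (S.s j S.Ω)).continuous
        (vfn (S.s k S.Ω) (S.s k S.Ω)).continuous
    · intro η hη
      induction hη using Submodule.span_induction with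
      | mem x hx =>
        obtain ⟨a, a', b, b', ha, hb, rfl⟩ := hx
        show ⟪S.s j S.Ω, (a * b') (S.s j S.Ω)⟫_ℂ = ⟪S.s k S.Ω, (a * b') (S.s k S.Ω)⟫_ℂ
        rw [(pair0_inner S Q a a' b b' ha hb j j hj).2, (pair0_inner S Q a a' b b' ha hb k k hk).2]
      | zero => simp
      | add x y _ _ hx hy =>
        show ⟪S.s j S.Ω, (x + y) (S.s j S.Ω)⟫_ℂ = ⟪S.s k S.Ω, (x + y) (S.s k S.Ω)⟫_ℂ
        rw [_root_.add_apply, _root_.add_apply, inner_add_right,
          inner_add_right, hx, hy]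
      | smul c x _ hx =>
        show ⟪S.s j S.Ω, (c • x) (S.s j S.Ω)⟫_ℂ = ⟪S.s k S.Ω, (c • x) (S.s k S.Ω)⟫_ℂ
        rw [_root_.smul_apply, _root_.smul_apply, inner_smul_right,
          inner_smul_right, hx]
  · intro η hη ζ hζ j hj
    -- generators
    have hgen : ∀ x ∈ G, ∀ y ∈ G, vfn (S.s j S.Ω) (S.s j S.Ω) (x * y) =
        vfn (S.s j S.Ω) (S.s j S.Ω) (y * x) := by
      rintro x ⟨a, a', b, b', ha, hb, rfl⟩ y ⟨c, c', e, e', hc, he, rfl⟩
      have hbc : c * b' = b' * c := (pair0_trace S Q c c' b b' hc hb).1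
      have hea : a * e' = e' * a := (pair0_trace S Q a a' e e' ha he).1
      have e1 : (a * b') * (c * e') = (a * c) * (b' * e') := by
        calc (a * b') * (c * e') = a * (b' * c) * e' := by simp only [mul_assoc]
          _ = a * (c * b') * e' := by rw [hbc]
          _ = (a * c) * (b' * e') := by simp only [mul_assoc]
      have e2 : (c * e') * (a * b') = (c * a) * (e' * b') := by
        calc (c * e') * (a * b') = c * (e' * a) * b' := by simp only [mul_assoc]
          _ = c * (a * e') * b' := by rw [hea]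
          _ = (c * a) * (e' * b') := by simp only [mul_assoc]
      rw [e1, e2, vfn_apply, vfn_apply,
        (pair0_inner S Q (a * c) (c' * a') (e * b) (b' * e') (hmul _ _ _ _ ha hc)
          (hmul _ _ _ _ he hb) j j hj).2,
        (pair0_inner S Q (c * a) (a' * c') (b * e) (e' * b') (hmul _ _ _ _ hc ha)
          (hmul _ _ _ _ hb he) j j hj).2,
        (pair0_trace S Q a a' c c' ha hc).2, (pair0_trace S Q e e' b b' he hb).2]
    have hspan1 : ∀ x ∈ G, ∀ y ∈ Submodule.span ℂ G, vfn (S.s j S.Ω) (S.s j S.Ω) (x * y) =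
        vfn (S.s j S.Ω) (S.s j S.Ω) (y * x) := by
      intro x hx y hy
      induction hy using Submodule.span_induction with
      | mem y hy => exact hgen x hx y hy
      | zero => simp
      | add y z _ _ hy hz => rw [mul_add, add_mul, map_add, map_add, hy, hz]
      | smul c y _ hy => rw [mul_smul_comm, smul_mul_assoc, map_smul, map_smul, hy]
    have hspan2 : ∀ x ∈ Submodule.span ℂ G, ∀ y ∈ Submodule.span ℂ G,
        vfn (S.s j S.Ω) (S.s j S.Ω) (x * y) = vfn (S.s j S.Ω) (S.s j S.Ω) (y * x) := by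
      intro x hx y hy
      induction hx using Submodule.span_induction with
      | mem x hx => exact hspan1 x hx y hy
      | zero => simp
      | add x z _ _ hx hz => rw [mul_add, add_mul, map_add, map_add, hx, hz]
      | smul c x _ hx => rw [mul_smul_comm, smul_mul_assoc, map_smul, map_smul, hx]
    have hcl1 : ∀ x ∈ Submodule.span ℂ G, ∀ y ∈ U0.topologicalClosure,
        vfn (S.s j S.Ω) (S.s j S.Ω) (x * y) = vfn (S.s j S.Ω) (S.s j S.Ω) (y * x) := by
      intro x hx
      refine hcl (fun y => vfn (S.s j S.Ω) (S.s j S.Ω) (x * y) =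
        vfn (S.s j S.Ω) (S.s j S.Ω) (y * x)) ?_ (fun y hy => hspan2 x hx y hy)
      exact isClosed_eq ((vfn (S.s j S.Ω) (S.s j S.Ω)).continuous.comp (continuous_const_mul x))
        ((vfn (S.s j S.Ω) (S.s j S.Ω)).continuous.comp (continuous_mul_const x))
    have hcl2 : ∀ x ∈ U0.topologicalClosure, vfn (S.s j S.Ω) (S.s j S.Ω) (x * ζ) =
        vfn (S.s j S.Ω) (S.s j S.Ω) (ζ * x) := by
      refine hcl (fun x => vfn (S.s j S.Ω) (S.s j S.Ω) (x * ζ) =
        vfn (S.s j S.Ω) (S.s j S.Ω) (ζ * x)) ?_ (fun x hx => hcl1 x hx ζ hζ)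
      exact isClosed_eq ((vfn (S.s j S.Ω) (S.s j S.Ω)).continuous.comp (continuous_mul_const ζ))
        ((vfn (S.s j S.Ω) (S.s j S.Ω)).continuous.comp (continuous_const_mul ζ))
    exact hcl2 η hη
  · intro η hη j hj
    revert η
    refine hcl (fun η => ⟪S.s j S.Ω, η S.Ω⟫_ℂ = 0) ?_ ?_
    · exact isClosed_eq (vfn (S.s j S.Ω) S.Ω).continuous continuous_const
    · intro η hη
      induction hη using Submodule.span_induction with
      | mem x hx =>
        obtain ⟨a, a', b, b', ha, hb, rfl⟩ := hx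
        exact pair0_vac S Q a a' b b' ha hb j hj
      | zero => simp
      | add x y _ _ hx hy =>
        show ⟪S.s j S.Ω, (x + y) S.Ω⟫_ℂ = 0
        rw [_root_.add_apply, inner_add_right, hx, hy, add_zero]
      | smul c x _ hx =>
        show ⟪S.s j S.Ω, (c • x) S.Ω⟫_ℂ = 0
        rw [_root_.smul_apply, inner_smul_right, hx, mul_zero]

end Low2
end Pool.Agent.Helper38.FE
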