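import Pool.Agent.Helper38.FE.Low2Lem

/-! MODULE H2: lemmas for the sharp lower bound. -/

set_option autoImplicit false
set_option linter.unusedVariables false
set_option linter.unusedSectionVars false

open MeasureTheory Filter Topology
open scoped InnerProductSpace ENNReal ComplexConjugate

namespace Pool.Agent.Helper38.FE
namespace Low2

open Low

variable {ι H : Type} [NormedAddCommGroup H] [InnerProductSpace ℂ H] [CompleteSpace H]


theorem exists_rot0_key (S : FS ι H) [DecidableEq ι] (i j : ι) (ξ : H) :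
    S.ra i (S.s j ξ) = S.s j (S.ra i ξ) + (if i = j then ⟪S.Ω, ξ⟫_ℂ else 0) • S.Ω := by
  by_cases h : i = j
  · subst h
    rw [if_pos rfl]
    exact S.ra_s_self i ξ
  · rw [if_neg h, zero_smul, add_zero]
    have := congrArg (fun f : H →L[ℂ] H => f ξ) (S.ra_s i j h)
    simpa using this

theorem exists_rot0_key2 {κ : Type} [Fintype ι] [DecidableEq κ] (S : FS ι H) (O : κ → ι → ℝ)
    (k l : κ) (ξ : H) :
    (∑ i, ((O k i : ℝ) : ℂ) • S.ra i) ((∑ j, ((O l j : ℝ) : ℂ) • S.s j) ξ) =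
      (∑ j, ((O l j : ℝ) : ℂ) • S.s j) ((∑ i, ((O k i : ℝ) : ℂ) • S.ra i) ξ) +
        (((∑ i, O k i * O l i : ℝ) : ℂ) * ⟪S.Ω, ξ⟫_ℂ) • S.Ω := by
  classical
  simp only [ContinuousLinearMap.sum_apply, ContinuousLinearMap.smul_apply, map_sum, map_smul]
  rw [show (∑ y, ((O l y : ℝ) : ℂ) • ∑ x, ((O k x : ℝ) : ℂ) • S.ra x (S.s y ξ)) =
    ∑ x, ∑ y, (((O k x : ℝ) : ℂ) * ((O l y : ℝ) : ℂ)) • (S.s y (S.ra x ξ)) +
      ∑ x, ∑ y, (((O k x : ℝ) : ℂ) * ((O l y : ℝ) : ℂ)) •
        ((if x = y then ⟪S.Ω, ξ⟫_ℂ else 0) • S.Ω) from ?_]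
  · congr 1
    · apply Finset.sum_congr rfl
      intro x _
      rw [Finset.smul_sum]
      apply Finset.sum_congr rfl
      intro y _
      rw [smul_smul]
    · rw [Complex.ofReal_sum, Finset.sum_mul, Finset.sum_smul]
      apply Finset.sum_congr rfl
      intro x _
      rw [Finset.sum_eq_single x]
      · rw [if_pos rfl, smul_smul]
        push_cast
        rfl
      · intro y _ hy
        rw [if_neg (Ne.symm hy), zero_smul, smul_zero]
      · intro h
        exact absurd (Finset.mem_univ x) h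
  · rw [← Finset.sum_add_distrib, show (∑ y, ((O l y : ℝ) : ℂ) •
      ∑ x, ((O k x : ℝ) : ℂ) • S.ra x (S.s y ξ)) = ∑ y, ∑ x, (((O k x : ℝ) : ℂ) *
        ((O l y : ℝ) : ℂ)) • S.ra x (S.s y ξ) from ?_, Finset.sum_comm]
    · apply Finset.sum_congr rfl
      intro x _
      rw [← Finset.sum_add_distrib]
      apply Finset.sum_congr rfl
      intro y _
      rw [exists_rot0_key S x y ξ, smul_add]
    · apply Finset.sum_congr rfl
      intro y _
      rw [Finset.smul_sum]
      apply Finset.sum_congr rfl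
      intro x _
      rw [smul_smul, mul_comm]

/-- an orthonormal system of real combinations of a free semicircular system -/
theorem exists_rot0 {κ : Type} [Fintype ι] [DecidableEq κ] (S : FS ι H) (O : κ → ι → ℝ)
    (hO : ∀ k l, ∑ i, O k i * O l i = if k = l then 1 else 0) :
    ∃ S' : FS0 κ H, S'.Ω = S.Ω ∧ (∀ k, S'.s k = ∑ i, ((O k i : ℝ) : ℂ) • S.s i) ∧
      (∀ k, S'.d k = ∑ i, ((O k i : ℝ) : ℂ) • S.d i) := by
  classical
  refine ⟨{ s := fun k => ∑ i, ((O k i : ℝ) : ℂ) • S.s i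
            d := fun k => ∑ i, ((O k i : ℝ) : ℂ) • S.d i
            ra := fun k => ∑ i, ((O k i : ℝ) : ℂ) • S.ra i
            Ω := S.Ω
            s_sa := ?_
            d_eq := ?_
            comm := ?_
            sΩ := ?_
            norm_Ω := S.norm_Ω
            raΩ := ?_
            ra_s := ?_
            ra_s_self := ?_ }, rfl, fun k => rfl, fun k => rfl⟩
  · intro k
    rw [IsSelfAdjoint, star_sum]
    apply Finset.sum_congr rfl
    intro i _
    rw [star_smul, (S.s_sa i).star_eq]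
    simp
  · intro k
    rw [star_sum, ← Finset.sum_add_distrib]
    apply Finset.sum_congr rfl
    intro i _
    rw [star_smul, S.d_eq i, smul_add]
    simp
  · intro k l
    rw [Finset.sum_mul, Finset.mul_sum]
    apply Finset.sum_congr rfl
    intro i _
    rw [Finset.mul_sum, Finset.sum_mul]
    apply Finset.sum_congr rfl
    intro j _
    rw [smul_mul_smul_comm, smul_mul_smul_comm, S.comm i j, mul_comm ((O k i : ℝ) : ℂ)]
  · intro k
    simp only [ContinuousLinearMap.sum_apply, ContinuousLinearMap.smul_apply, S.sΩ]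
  · intro k
    simp only [ContinuousLinearMap.sum_apply, ContinuousLinearMap.smul_apply, S.raΩ, smul_zero,
      Finset.sum_const_zero]
  · intro k l hkl
    ext ξ
    have h := exists_rot0_key2 S O k l ξ
    rw [hO k l, if_neg hkl] at h
    simp only [Complex.ofReal_zero, zero_mul, zero_smul, add_zero] at h
    exact h
  · intro k ξ
    have h := exists_rot0_key2 S O k k ξ
    rw [hO k k, if_pos rfl] at h
    simp only [Complex.ofReal_one, one_mul] at h
    exact h

/-- right partner of `zz` -/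
noncomputable def zr (S : FS I0 H) (t : ℝ) : Fin 3 → (H →L[ℂ] H) := fun i =>
  (((√(1 + t))⁻¹ : ℝ) : ℂ) • S.d (Sum.inl i) +
    (((√(1 + t))⁻¹ * √t : ℝ) : ℂ) • S.d (Sum.inr (Sum.inl i.castSucc))

/-- the rows of the rotation -/
noncomputable def rotO (c r : ℝ) : (Fin 3 ⊕ Fin 4) → I0 → ℝ
  | Sum.inl i, Sum.inl a => if a = i then c else 0
  | Sum.inl i, Sum.inr (Sum.inl b) => if b = i.castSucc then c * r else 0
  | Sum.inl _, Sum.inr (Sum.inr _) => 0
  | Sum.inr m, Sum.inl a => if a.castSucc = m then -(c * r) else 0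
  | Sum.inr m, Sum.inr (Sum.inl b) => if b = m then (if m = 3 then 1 else c) else 0
  | Sum.inr _, Sum.inr (Sum.inr _) => 0

theorem rotO_orth (c r : ℝ) (h : c ^ 2 * (1 + r ^ 2) = 1) (k l : Fin 3 ⊕ Fin 4) :
    ∑ i, rotO c r k i * rotO c r l i = if k = l then 1 else 0 := by
  have h1 : c * c + c * r * (c * r) = 1 := by linarith [h]
  have h2 : c * r * (c * r) + c * c = 1 := by linarith [h]
  rcases k with k | k <;> rcases l with l | l <;> fin_cases k <;> fin_cases l <;>
    simp [rotO, Fintype.sum_sum_type, Fin.sum_univ_three, Fin.sum_univ_four] <;> first | done | linarith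

/-- the rotated family `(z_0,z_1,z_2,w_0,w_1,w_2,s_l)` is again a free semicircular system -/
theorem exists_rot_t (S : FS I0 H) (t : ℝ) (ht : 0 < t) : ∃ S' : FS0 (Fin 3 ⊕ Fin 4) H,
    S'.Ω = S.Ω ∧ (∀ i, S'.s (Sum.inl i) = S.zz t i) ∧ (∀ i, S'.d (Sum.inl i) = zr S t i) ∧
    (∀ i : Fin 3, S'.s (Sum.inr i.castSucc) = S.ww t i) ∧ S'.s (Sum.inr 3) = S.n1 3 := by
  have h1t : (0 : ℝ) < 1 + t := by linarith
  have hs : (√(1 + t)) ≠ 0 := (Real.sqrt_pos.2 h1t).ne'
  obtain ⟨S', h0, hS, hd⟩ := exists_rot0 S (rotO (√(1 + t))⁻¹ (√t)) (rotO_orth _ _ (by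
    rw [inv_pow, Real.sq_sqrt h1t.le, Real.sq_sqrt ht.le]
    field_simp))
  refine ⟨S', h0, ?_, ?_, ?_, ?_⟩
  · intro i
    rw [hS]
    fin_cases i <;>
      simp [rotO, Fintype.sum_sum_type, Fin.sum_univ_three, Fin.sum_univ_four, FS.zz, FS.xb, FS.n1,
        -Complex.coe_smul]
  · intro i
    rw [hd]
    fin_cases i <;>
      simp [rotO, Fintype.sum_sum_type, Fin.sum_univ_three, Fin.sum_univ_four, zr, -Complex.coe_smul]
  · intro i
    rw [hS]
    fin_cases i <;>
      simp [rotO, Fintype.sum_sum_type, Fin.sum_univ_three, Fin.sum_univ_four, FS.ww, FS.xb, FS.n1,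
        -Complex.coe_smul] <;> abel
  · rw [hS]
    simp [rotO, Fintype.sum_sum_type, Fin.sum_univ_three, Fin.sum_univ_four, FS.n1]

/-- `‖s_k Ω‖ = 1` -/
theorem norm_vec0 (S : FS0 ι H) (k : ι) : ‖S.s k S.Ω‖ = 1 := by
  have h0 : ⟪S.Ω, S.Ω⟫_ℂ = 1 := by
    rw [inner_self_eq_norm_sq_to_K, S.norm_Ω]
    simp
  have h1 : S.ra k (S.s k S.Ω) = S.Ω := by
    rw [S.ra_s_self, S.raΩ, h0]
    simp
  have h2 : S.s k S.Ω = (ContinuousLinearMap.adjoint (S.ra k)) S.Ω := by
    rw [S.sΩ, S.d_eq, ContinuousLinearMap.add_apply, S.raΩ, zero_add]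
    rfl
  have h3 : ⟪S.s k S.Ω, S.s k S.Ω⟫_ℂ = 1 := by
    conv_lhs => arg 2; rw [h2]
    rw [ContinuousLinearMap.adjoint_inner_left, h1, h0]
  rw [inner_self_eq_norm_sq_to_K] at h3
  have h5 : ((‖S.s k S.Ω‖ ^ 2 : ℝ) : ℂ) = 1 := by
    push_cast
    exact h3
  have h4 : ‖S.s k S.Ω‖ ^ 2 = 1 := by exact_mod_cast h5
  exact (pow_eq_one_iff_of_nonneg (norm_nonneg _) two_ne_zero).1 h4

/-- derivative of a word applied to the vacuum -/
theorem DWd_formula (S : FS0 ι H) (z z' w w' : Fin 3 → (H →L[ℂ] H))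
    (hz : ∀ i, Pair0 S ∅ (z i) (z' i)) (hw : ∀ i, Pair0 S ∅ (w i) (w' i))
    (sz : ∀ i, IsSelfAdjoint (z i)) (sz' : ∀ i, IsSelfAdjoint (z' i))
    (sw : ∀ i, IsSelfAdjoint (w i)) (b : List (Fin 3)) :
    DWd z w b S.Ω = ∑ k, TW z z' k b (w k S.Ω) ∧
      (star (DWd z w b)) S.Ω = ∑ k, TV z' z k b (w k S.Ω) := by
  classical
  have sadd : ∀ x y : H →L[ℂ] H, star (x + y) = star x + star y := fun x y => star_add x y
  have ssmul : ∀ (c : ℂ) (x : H →L[ℂ] H), star (c • x) = star c • star x := fun c x => star_smul c x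
  have smulh : ∀ x y : H →L[ℂ] H, star (x * y) = star y * star x := fun x y => star_mul x y
  have sstar : ∀ x : H →L[ℂ] H, star (star x) = x := fun x => star_star x
  obtain ⟨-, hp1, hpadd, hpsmul, hpmul, hpstar, -, -⟩ := pair0_closure S (∅ : Set ι)
  have hcay : ∀ i, Pair0 S ∅ (cay (z i)) (cay (z' i)) := fun i => pair0_cay S ∅ _ _ (hz i) (sz i) (sz' i)
  have hcay1 : ∀ i, Pair0 S ∅ (cay (z i) - 1) (cay (z' i) - 1) := by
    intro i
    have h := hpadd _ _ _ _ (hcay i) (hpsmul (-1) _ _ hp1)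
    simpa [sub_eq_add_neg] using h
  have hWd : ∀ b, Pair0 S ∅ (Wd b z) (WR b z') := fun b => pair0_Wd S ∅ z z' hz sz sz' b
  have hsw : ∀ i, star (w i) = w i := fun i => (sw i)
  -- left elements
  have hLmul : ∀ a b : H →L[ℂ] H, (∀ c : H →L[ℂ] H, (∀ j, c * S.s j = S.s j * c) → a * c = c * a) →
      (∀ c : H →L[ℂ] H, (∀ j, c * S.s j = S.s j * c) → b * c = c * b) →
      ∀ c : H →L[ℂ] H, (∀ j, c * S.s j = S.s j * c) → (a * b) * c = c * (a * b) := by
    intro a b ha hb c hc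
    rw [mul_assoc, hb c hc, ← mul_assoc, ha c hc, mul_assoc]
  have hLstar : ∀ a : H →L[ℂ] H, (∀ c : H →L[ℂ] H, (∀ j, c * S.s j = S.s j * c) → a * c = c * a) →
      ∀ c : H →L[ℂ] H, (∀ j, c * S.s j = S.s j * c) → (star a) * c = c * (star a) := by
    intro a ha c hc
    have hc' : ∀ j, star c * S.s j = S.s j * star c := by
      intro j
      have h1 := congrArg star (hc j)
      rw [smulh, smulh] at h1
      have h2 : star (S.s j) = S.s j := S.s_sa j
      rw [h2] at h1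
      exact h1.symm
    have h3 := congrArg star (ha (star c) hc')
    rw [smulh, smulh, sstar] at h3
    exact h3.symm
  have hLD : ∀ b, ∀ c : H →L[ℂ] H, (∀ j, c * S.s j = S.s j * c) → DWd z w b * c = c * DWd z w b := by
    intro b
    induction b with
    | nil => intro c hc; simp [DWd]
    | cons i b ih =>
      intro c hc
      have h1 := hLmul _ _ (hLmul _ _ (hLmul _ _ (hcay1 i).left (hw i).left) (hcay1 i).left) (hWd b).left c hc
      have h2 := hLmul _ _ (hcay i).left ih c hc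
      simp only [DWd]
      rw [add_mul, mul_add, h2, smul_mul_assoc, h1, mul_smul_comm]
  induction b with
  | nil =>
    constructor
    · simp [DWd, TW]
    · simp [DWd, TV]
  | cons i b ih =>
    obtain ⟨ih1, ih2⟩ := ih
    constructor
    · have hP := hpmul _ _ _ _ (hcay1 i) (hWd b)
      have hcomm : w i * (WR b z' * (cay (z' i) - 1)) = (WR b z' * (cay (z' i) - 1)) * w i :=
        (hw i).left _ hP.right
      have hv : ((cay (z i) - 1) * Wd b z) S.Ω = (WR b z' * (cay (z' i) - 1)) S.Ω := hP.vac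
      have e1 : DWd z w (i :: b) S.Ω
          = (al • ((cay (z i) - 1) * (WR b z' * (cay (z' i) - 1)))) (w i S.Ω)
            + cay (z i) (DWd z w b S.Ω) := by
        have h5 : ((cay (z i) - 1) * w i * (cay (z i) - 1) * Wd b z) S.Ω
            = ((cay (z i) - 1) * (WR b z' * (cay (z' i) - 1))) (w i S.Ω) := by
          calc ((cay (z i) - 1) * w i * (cay (z i) - 1) * Wd b z) S.Ω
              = ((cay (z i) - 1) * w i) (((cay (z i) - 1) * Wd b z) S.Ω) := by
                simp only [ContinuousLinearMap.mul_apply]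
            _ = ((cay (z i) - 1) * w i) ((WR b z' * (cay (z' i) - 1)) S.Ω) := by rw [hv]
            _ = ((cay (z i) - 1)) ((w i * (WR b z' * (cay (z' i) - 1))) S.Ω) := by
                simp only [ContinuousLinearMap.mul_apply]
            _ = ((cay (z i) - 1)) (((WR b z' * (cay (z' i) - 1)) * w i) S.Ω) := by rw [hcomm]
            _ = _ := by simp only [ContinuousLinearMap.mul_apply]
        simp only [DWd]
        rw [ContinuousLinearMap.add_apply, ContinuousLinearMap.smul_apply, h5,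
          ContinuousLinearMap.smul_apply, ContinuousLinearMap.mul_apply (cay (z i)) (DWd z w b)]
      rw [e1, ih1, map_sum]
      simp only [TW]
      have e2 : ∀ k, ((if k = i then al • ((cay (z i) - 1) * (WR b z' * (cay (z' i) - 1))) else 0)
          + cay (z i) * TW z z' k b) (w k S.Ω)
          = (if k = i then (al • ((cay (z i) - 1) * (WR b z' * (cay (z' i) - 1)))) (w i S.Ω) else 0)
            + cay (z i) (TW z z' k b (w k S.Ω)) := by
        intro k
        rw [ContinuousLinearMap.add_apply, ContinuousLinearMap.mul_apply (cay (z i))]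
        congr 1
        by_cases hk : k = i
        · rw [if_pos hk, if_pos hk, hk]
        · rw [if_neg hk, if_neg hk]; rfl
      rw [Finset.sum_congr rfl (fun k _ => e2 k), Finset.sum_add_distrib, Finset.sum_ite_eq']
      simp
    · have hP1 := hpstar _ _ (hcay1 i)
      have hP2 := hpstar _ _ (hcay i)
      have hcomm : w i * star (cay (z' i) - 1) = star (cay (z' i) - 1) * w i :=
        (hw i).left _ hP1.right
      have hv1 : (star (cay (z i) - 1)) S.Ω = (star (cay (z' i) - 1)) S.Ω := hP1.vac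
      have hv2 : (star (cay (z i))) S.Ω = (star (cay (z' i))) S.Ω := hP2.vac
      have hcomm2 : star (DWd z w b) * star (cay (z' i)) = star (cay (z' i)) * star (DWd z w b) :=
        hLstar _ (hLD b) _ hP2.right
      have e1 : (star (DWd z w (i :: b))) S.Ω
          = (star al • (star (Wd b z) * star (cay (z i) - 1) * star (cay (z' i) - 1))) (w i S.Ω)
            + star (cay (z' i)) (star (DWd z w b) S.Ω) := by
        have h5 : (star (Wd b z) * (star (cay (z i) - 1) * (w i * star (cay (z i) - 1)))) S.Ω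
            = (star (Wd b z) * star (cay (z i) - 1) * star (cay (z' i) - 1)) (w i S.Ω) := by
          calc (star (Wd b z) * (star (cay (z i) - 1) * (w i * star (cay (z i) - 1)))) S.Ω
              = (star (Wd b z)) ((star (cay (z i) - 1)) ((w i) ((star (cay (z i) - 1)) S.Ω))) := by
                simp only [ContinuousLinearMap.mul_apply]
            _ = (star (Wd b z)) ((star (cay (z i) - 1)) ((w i) ((star (cay (z' i) - 1)) S.Ω))) := by
                rw [hv1]
            _ = (star (Wd b z)) ((star (cay (z i) - 1)) ((w i * star (cay (z' i) - 1)) S.Ω)) := by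
                simp only [ContinuousLinearMap.mul_apply]
            _ = (star (Wd b z)) ((star (cay (z i) - 1)) ((star (cay (z' i) - 1) * w i) S.Ω)) := by
                rw [hcomm]
            _ = _ := by simp only [ContinuousLinearMap.mul_apply]
        have h6 : (star (DWd z w b) * star (cay (z i))) S.Ω = star (cay (z' i)) (star (DWd z w b) S.Ω) := by
          calc (star (DWd z w b) * star (cay (z i))) S.Ω
              = (star (DWd z w b)) ((star (cay (z i))) S.Ω) := by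
                simp only [ContinuousLinearMap.mul_apply]
            _ = (star (DWd z w b)) ((star (cay (z' i))) S.Ω) := by rw [hv2]
            _ = (star (DWd z w b) * star (cay (z' i))) S.Ω := by
                simp only [ContinuousLinearMap.mul_apply]
            _ = (star (cay (z' i)) * star (DWd z w b)) S.Ω := by rw [hcomm2]
            _ = _ := by simp only [ContinuousLinearMap.mul_apply]
        have h7 : star (DWd z w (i :: b))
            = star al • (star (Wd b z) * (star (cay (z i) - 1) * (w i * star (cay (z i) - 1))))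
              + star (DWd z w b) * star (cay (z i)) := by
          simp only [DWd]
          rw [sadd, ssmul, smulh, smulh, smulh, smulh, hsw]
        rw [h7, ContinuousLinearMap.add_apply, ContinuousLinearMap.smul_apply, h5, h6,
          ContinuousLinearMap.smul_apply]
      rw [e1, ih2, map_sum]
      simp only [TV]
      have e2 : ∀ k, ((if k = i then conj al • (star (Wd b z) * star (cay (z i) - 1)
            * star (cay (z' i) - 1)) else 0) + star (cay (z' i)) * TV z' z k b) (w k S.Ω)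
          = (if k = i then (star al • (star (Wd b z) * star (cay (z i) - 1)
            * star (cay (z' i) - 1))) (w i S.Ω) else 0) + star (cay (z' i)) (TV z' z k b (w k S.Ω)) := by
        intro k
        rw [ContinuousLinearMap.add_apply, ContinuousLinearMap.mul_apply (star (cay (z' i)))]
        congr 1
        by_cases hk : k = i
        · rw [if_pos hk, if_pos hk, hk]; rfl
        · rw [if_neg hk, if_neg hk]; rfl
      rw [Finset.sum_congr rfl (fun k _ => e2 k), Finset.sum_add_distrib, Finset.sum_ite_eq']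
      simp

/-- derivative of `f = ∑ r_j F_{b_j}` applied to the vacuum -/
theorem DF_formula (S : FS0 ι H) (z z' w w' : Fin 3 → (H →L[ℂ] H))
    (hz : ∀ i, Pair0 S ∅ (z i) (z' i)) (hw : ∀ i, Pair0 S ∅ (w i) (w' i))
    (sz : ∀ i, IsSelfAdjoint (z i)) (sz' : ∀ i, IsSelfAdjoint (z' i))
    (sw : ∀ i, IsSelfAdjoint (w i)) (n : ℕ) (r : ℕ → ℝ) (b : ℕ → List (Fin 3)) :
    (∑ j ∈ Finset.range n, ((r j : ℝ) : ℂ) • DFb (b j) z w) S.Ω =
      ∑ k, TF n r b z z' z z' k (w k S.Ω) := by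
  have hL : (∑ j ∈ Finset.range n, ((r j : ℝ) : ℂ) • DFb (b j) z w) S.Ω =
      ∑ j ∈ Finset.range n, ∑ k, ((r j : ℝ) : ℂ) •
        ((TW z z' k (b j) + TV z' z k (b j)) (w k S.Ω)) := by
    rw [ContinuousLinearMap.sum_apply]
    refine Finset.sum_congr rfl fun j _ => ?_
    rw [ContinuousLinearMap.smul_apply, ← Finset.smul_sum]
    congr 1
    obtain ⟨h1, h2⟩ := DWd_formula S z z' w w' hz hw sz sz' sw (b j)
    unfold DFb
    rw [ContinuousLinearMap.add_apply, h1, h2, ← Finset.sum_add_distrib]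
    rfl
  have hR : ∀ k, TF n r b z z' z z' k (w k S.Ω) = ∑ j ∈ Finset.range n, ((r j : ℝ) : ℂ) •
        ((TW z z' k (b j) + TV z' z k (b j)) (w k S.Ω)) := by
    intro k
    unfold TF
    rw [ContinuousLinearMap.sum_apply]
    rfl
  rw [hL, Finset.sum_comm]
  exact Finset.sum_congr rfl fun k _ => (hR k).symm

/-- bounds of the form `⟪v, K v⟫` -/
theorem KT_form (T : Fin 3 → (H →L[ℂ] H)) (v : H) :
    0 ≤ (⟪v, KT T v⟫_ℂ).re ∧ (⟪v, KT T v⟫_ℂ).re ≤ ‖v‖ ^ 2 := by
  constructor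
  · rw [← (JT_facts T v).1]
    exact Finset.sum_nonneg fun j _ => sq_nonneg _
  · have h1 : (⟪v, KT T v⟫_ℂ).re ≤ ‖v‖ * ‖KT T v‖ :=
      le_trans (Complex.re_le_norm _) (norm_inner_le_norm v (KT T v))
    have h2 : ‖KT T v‖ ≤ 1 * ‖v‖ :=
      (KT T).le_of_opNorm_le (KT_facts T).2.2.1 v
    have h3 : ‖v‖ * ‖KT T v‖ ≤ ‖v‖ * (1 * ‖v‖) :=
      mul_le_mul_of_nonneg_left h2 (norm_nonneg v)
    calc (⟪v, KT T v⟫_ℂ).re ≤ ‖v‖ * ‖KT T v‖ := h1
      _ ≤ ‖v‖ * (1 * ‖v‖) := h3
      _ = ‖v‖ ^ 2 := by ring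

/-- `Ψ_v(J_T q) = ⟪p, K p⟫ - ⟪q - p, K (q - p)⟫` with `p = v_3 - ∑ T_i v_i` -/
theorem Psi_JT2 (T : Fin 3 → (H →L[ℂ] H)) (v : Fin 4 → H) (p q : H)
    (hp : p = v 3 - ∑ i : Fin 3, T i (v i.castSucc)) :
    Psi v (fun j => JT T j q) = (⟪p, KT T p⟫_ℂ).re - (⟪q - p, KT T (q - p)⟫_ℂ).re := by
  have hK := (KT_facts T).2.1
  have hJ := (JT_facts T q).1
  have hlast : JT T 3 = KT T := by
    have h3 : (3 : Fin 4) = Fin.last 3 := rfl
    rw [h3]
    exact Fin.snoc_last _ _
  have hcast : ∀ i : Fin 3, JT T i.castSucc = - (star (T i) * KT T) := by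
    intro i
    exact Fin.snoc_castSucc _ _ _
  have hsum : ∑ j : Fin 4, ⟪v j, JT T j q⟫_ℂ = ⟪p, KT T q⟫_ℂ := by
    rw [Fin.sum_univ_castSucc]
    have h3 : (Fin.last 3 : Fin 4) = 3 := rfl
    rw [h3, hlast, hp, inner_sub_left, sum_inner, sub_eq_add_neg, add_comm, ← Finset.sum_neg_distrib]
    congr 1
    refine Finset.sum_congr rfl fun i _ => ?_
    rw [hcast i, neg_apply, inner_neg_right]
    congr 1
    have h5 : (star (T i) * KT T) q = star (T i) (KT T q) := rfl
    rw [h5, ContinuousLinearMap.star_eq_adjoint,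
      ContinuousLinearMap.adjoint_inner_right]
  have hPsi : Psi v (fun j => JT T j q) = 2 * (⟪p, KT T q⟫_ℂ).re - (⟪q, KT T q⟫_ℂ).re := by
    unfold Psi
    rw [Finset.sum_sub_distrib, ← Finset.mul_sum, hJ, ← hsum, Complex.re_sum]
  have hsym : (⟪q, KT T p⟫_ℂ).re = (⟪p, KT T q⟫_ℂ).re := by
    have h1 : ⟪KT T q, p⟫_ℂ = ⟪q, KT T p⟫_ℂ := by
      have h2 : star (KT T) = KT T := hK
      rw [← ContinuousLinearMap.adjoint_inner_right, ← ContinuousLinearMap.star_eq_adjoint, h2]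
    rw [← h1, ← inner_conj_symm, Complex.conj_re]
  rw [hPsi, map_sub, inner_sub_left, inner_sub_right, inner_sub_right]
  simp only [Complex.sub_re]
  rw [hsym]
  ring

/-- `⟪T v, K T v⟫ ≤ ‖v‖²` -/
theorem KT_form_T (T : Fin 3 → (H →L[ℂ] H)) (v : Fin 3 → H) :
    (⟪∑ i, T i (v i), KT T (∑ i, T i (v i))⟫_ℂ).re ≤ ∑ i, ‖v i‖ ^ 2 := by
  set p : H := ∑ i, T i (v i) with hp
  set u : H := KT T p with hu
  have hadj : ∀ (A : H →L[ℂ] H) (x y : H), ⟪A x, y⟫_ℂ = ⟪x, (star A) y⟫_ℂ := by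
    intro A x y
    rw [ContinuousLinearMap.star_eq_adjoint, ContinuousLinearMap.adjoint_inner_right]
  have hNu : NT T u = p := by
    have h1 := (KT_facts T).2.2.2.1
    have h2 := congrArg (fun A : H →L[ℂ] H => A p) h1
    simpa using h2
  have hR1 : (⟪p, u⟫_ℂ).re = ‖u‖ ^ 2 + ∑ i, ‖(star (T i)) u‖ ^ 2 := by
    have h1 : p = u + ∑ i, T i ((star (T i)) u) := by
      rw [← hNu]
      simp [NT]
    have h2 : ⟪p, u⟫_ℂ = ⟪u, u⟫_ℂ + ∑ i, ⟪(star (T i)) u, (star (T i)) u⟫_ℂ := by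
      conv_lhs => rw [h1]
      rw [inner_add_left, sum_inner]
      congr 1
      exact Finset.sum_congr rfl fun i _ => hadj _ _ _
    rw [h2, Complex.add_re, Complex.re_sum]
    congr 1
    · exact inner_self_eq_norm_sq (𝕜 := ℂ) u
    · exact Finset.sum_congr rfl fun i _ => inner_self_eq_norm_sq (𝕜 := ℂ) _
  have hR2 : (⟪p, u⟫_ℂ).re ≤ ∑ i, (‖v i‖ ^ 2 + ‖(star (T i)) u‖ ^ 2) / 2 := by
    rw [hp, sum_inner, Complex.re_sum]
    refine Finset.sum_le_sum fun i _ => ?_
    rw [hadj]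
    have h3 : (⟪v i, (star (T i)) u⟫_ℂ).re ≤ ‖v i‖ * ‖(star (T i)) u‖ :=
      (Complex.re_le_norm _).trans (norm_inner_le_norm _ _)
    nlinarith [sq_nonneg (‖v i‖ - ‖(star (T i)) u‖)]
  have h4 : ∑ i, (‖v i‖ ^ 2 + ‖(star (T i)) u‖ ^ 2) / 2 =
      (∑ i, ‖v i‖ ^ 2 + ∑ i, ‖(star (T i)) u‖ ^ 2) / 2 := by
    rw [← Finset.sum_add_distrib, Finset.sum_div]
  rw [h4] at hR2
  have h5 : 0 ≤ ‖u‖ ^ 2 := by positivity
  linarith

/-- three term inequality -/
theorem KT_form_add3 (T : Fin 3 → (H →L[ℂ] H)) (a b c : H) :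
    (⟪a + b + c, KT T (a + b + c)⟫_ℂ).re ≤
      3 * ((⟪a, KT T a⟫_ℂ).re + (⟪b, KT T b⟫_ℂ).re + (⟪c, KT T c⟫_ℂ).re) := by
  have h1 := (KT_form T (a - b)).1
  have h2 := (KT_form T (b - c)).1
  have h3 := (KT_form T (a - c)).1
  simp only [map_add, map_sub, inner_add_left, inner_add_right, inner_sub_left, inner_sub_right,
    Complex.add_re, Complex.sub_re] at h1 h2 h3 ⊢
  linarith

/-- homogeneity -/
theorem KT_form_smul (T : Fin 3 → (H →L[ℂ] H)) (c : ℝ) (a : H) :
    (⟪((c : ℝ) : ℂ) • a, KT T (((c : ℝ) : ℂ) • a)⟫_ℂ).re = c ^ 2 * (⟪a, KT T a⟫_ℂ).re := by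
  rw [map_smul, inner_smul_left, inner_smul_right, Complex.conj_ofReal, ← mul_assoc,
    ← Complex.ofReal_mul, Complex.re_ofReal_mul]
  ring

theorem form_lower_memU (U : StarSubalgebra ℂ (H →L[ℂ] H))
    (hU : IsClosed (U : Set (H →L[ℂ] H))) (T : Fin 3 → (H →L[ℂ] H)) (hT : ∀ i, T i ∈ U) :
    KT T ∈ U := by
  have hNU : NT T ∈ U := by
    unfold NT
    exact add_mem (one_mem _) (sum_mem fun i _ => mul_mem (hT i) (star_mem (hT i)))
  have hunit := (KT_facts T).1
  haveI : IsClosed (U : Set (H →L[ℂ] H)) := hU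
  have h1 : IsUnit (⟨NT T, hNU⟩ : U) := (StarSubalgebra.coe_isUnit U).1 hunit
  obtain ⟨u, hu⟩ := h1
  have h2 : NT T * ((u⁻¹ : Uˣ) : U).1 = 1 := by
    have := u.mul_inv
    rw [hu] at this
    exact congrArg Subtype.val this
  have h3 : KT T = ((u⁻¹ : Uˣ) : U).1 := by
    have h4 : KT T * NT T = 1 := (KT_facts T).2.2.2.2
    calc KT T = KT T * (NT T * ((u⁻¹ : Uˣ) : U).1) := by rw [h2, mul_one]
      _ = ((u⁻¹ : Uˣ) : U).1 := by rw [← mul_assoc, h4, one_mul]
  rw [h3]
  exact ((u⁻¹ : Uˣ) : U).2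

/-- lower bound of `⟪p, K p⟫` -/
theorem form_lower (U : StarSubalgebra ℂ (H →L[ℂ] H))
    (hU : IsClosed (U : Set (H →L[ℂ] H))) (T : Fin 3 → (H →L[ℂ] H)) (hT : ∀ i, T i ∈ U)
    (Z : Fin 3 → (H →L[ℂ] H)) (hZ : ∀ i, Z i ∈ U) (Ω : H) (w : Fin 4 → H)
    (horth : ∀ η ∈ U, ∀ j k, j ≠ k → ⟪w j, η (w k)⟫_ℂ = 0)
    (hconst : ∀ η ∈ U, ∀ j k, ⟪w j, η (w j)⟫_ℂ = ⟪w k, η (w k)⟫_ℂ)
    (htr : ∀ η ∈ U, ∀ ζ ∈ U, ∀ j, ⟪w j, (η * ζ) (w j)⟫_ℂ = ⟪w j, (ζ * η) (w j)⟫_ℂ)
    (hvac : ∀ η ∈ U, ∀ j, ⟪w j, η Ω⟫_ℂ = 0)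
    (hnorm : ‖w 3‖ = 1) (c₁ c₂ : ℝ) (hc : c₁ ^ 2 ≤ 1) (p : H)
    (hp : p = w 3 - ((c₁ : ℝ) : ℂ) • ∑ i : Fin 3, T i (w i.castSucc) -
      ((c₂ : ℝ) : ℂ) • ∑ i : Fin 3, T i (Z i Ω)) :
    c₁ ^ 2 ≤ (⟪p, KT T p⟫_ℂ).re := by
  obtain ⟨hunit, hKsa, -, -, hKN⟩ := KT_facts T
  have hKU : KT T ∈ U := form_lower_memU U hU T hT
  have adj : ∀ (A : H →L[ℂ] H) (x y : H), ⟪A x, y⟫_ℂ = ⟪x, (star A) y⟫_ℂ := fun A x y => by
    rw [ContinuousLinearMap.star_eq_adjoint, ContinuousLinearMap.adjoint_inner_right]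
  have hKs : ∀ x y : H, ⟪KT T x, y⟫_ℂ = ⟪x, KT T y⟫_ℂ := fun x y => by
    rw [adj, hKsa.star_eq]
  set K := KT T with hK
  set D : H := ∑ i : Fin 3, T i (Z i Ω) with hD
  set W : H := ∑ i : Fin 3, T i (w i.castSucc) with hW
  set p1 : H := w 3 - ((c₁ : ℝ) : ℂ) • W with hp1
  -- cross terms with D
  have hKD : K D = (K * ∑ i : Fin 3, T i * Z i) Ω := by
    rw [hD, ContinuousLinearMap.mul_apply]
    simp [sum_apply]
  have hEU : (K * ∑ i : Fin 3, T i * Z i) ∈ U :=
    mul_mem hKU (sum_mem fun i _ => mul_mem (hT i) (hZ i))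
  have h1 : ⟪w 3, K D⟫_ℂ = 0 := by rw [hKD]; exact hvac _ hEU 3
  have h2 : ⟪W, K D⟫_ℂ = 0 := by
    rw [hW, sum_inner]
    apply Finset.sum_eq_zero
    intro i _
    rw [adj, hKD, ← ContinuousLinearMap.mul_apply]
    exact hvac _ (mul_mem (star_mem (hT i)) hEU) _
  have h3 : ⟪p1, K D⟫_ℂ = 0 := by
    rw [hp1, inner_sub_left, inner_smul_left, h1, h2]; simp
  have h4 : ⟪D, K p1⟫_ℂ = 0 := by
    rw [← hKs, ← inner_conj_symm, h3]; simp
  -- the term with p1
  have h5 : ⟪w 3, K W⟫_ℂ = 0 := by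
    rw [hW, map_sum, inner_sum]
    apply Finset.sum_eq_zero
    intro i _
    rw [← ContinuousLinearMap.mul_apply]
    exact horth _ (mul_mem hKU (hT i)) _ _ (Fin.castSucc_lt_last i).ne'
  have h6 : ⟪W, K (w 3)⟫_ℂ = 0 := by
    rw [← hKs, ← inner_conj_symm, h5]; simp
  have h7 : ⟪W, K W⟫_ℂ = ∑ i : Fin 3, ⟪w 3, (K * (T i * star (T i))) (w 3)⟫_ℂ := by
    conv_lhs => rw [hW]
    rw [sum_inner]
    apply Finset.sum_congr rfl
    intro i _
    rw [map_sum, inner_sum, Finset.sum_eq_single i]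
    · rw [adj]
      have e1 : ⟪w i.castSucc, (star (T i)) (K (T i (w i.castSucc)))⟫_ℂ =
          ⟪w i.castSucc, (star (T i) * (K * T i)) (w i.castSucc)⟫_ℂ := rfl
      rw [e1, hconst _ (mul_mem (star_mem (hT i)) (mul_mem hKU (hT i))) _ 3,
        htr _ (star_mem (hT i)) _ (mul_mem hKU (hT i)), mul_assoc]
    · intro j _ hj
      rw [adj]
      have e1 : ⟪w i.castSucc, (star (T i)) (K (T j (w j.castSucc)))⟫_ℂ =
          ⟪w i.castSucc, (star (T i) * (K * T j)) (w j.castSucc)⟫_ℂ := rfl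
      rw [e1]
      exact horth _ (mul_mem (star_mem (hT i)) (mul_mem hKU (hT j))) _ _
        (fun h => hj (Fin.castSucc_injective _ h).symm)
    · intro h
      exact absurd (Finset.mem_univ i) h
  have h8 : ⟪w 3, K (w 3)⟫_ℂ + ⟪W, K W⟫_ℂ = 1 := by
    have e2 : K * NT T = K + ∑ i : Fin 3, K * (T i * star (T i)) := by
      unfold NT
      rw [mul_add, mul_one, Finset.mul_sum]
    have e3 : ⟪w 3, (K * NT T) (w 3)⟫_ℂ = 1 := by
      rw [hKN, ContinuousLinearMap.one_apply, inner_self_eq_norm_sq_to_K, hnorm]; simp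
    rw [← e3, e2, h7, add_apply, sum_apply, inner_add_right, inner_sum]
  have h9 : ⟪p1, K p1⟫_ℂ = ⟪w 3, K (w 3)⟫_ℂ + ((c₁ ^ 2 : ℝ) : ℂ) * ⟪W, K W⟫_ℂ := by
    rw [hp1, map_sub, map_smul, inner_sub_left, inner_sub_right, inner_sub_right,
      inner_smul_left, inner_smul_left, inner_smul_right, inner_smul_right, h5, h6,
      Complex.conj_ofReal]
    push_cast
    ring
  have h10 : ⟪p, K p⟫_ℂ = ⟪p1, K p1⟫_ℂ + ((c₂ ^ 2 : ℝ) : ℂ) * ⟪D, K D⟫_ℂ := by
    rw [hp, map_sub, map_smul, inner_sub_left, inner_sub_right, inner_sub_right,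
      inner_smul_left, inner_smul_left, inner_smul_right, inner_smul_right, h3, h4,
      Complex.conj_ofReal]
    push_cast
    ring
  have k1 := (KT_form T D).1
  have k2 := (KT_form T (w 3)).1
  rw [← hK] at k1 k2
  have h11 : (⟪W, K W⟫_ℂ).re = 1 - (⟪w 3, K (w 3)⟫_ℂ).re := by
    have := congrArg Complex.re h8
    rw [Complex.add_re, Complex.one_re] at this
    linarith
  rw [h10, h9, Complex.add_re, Complex.add_re, Complex.re_ofReal_mul, Complex.re_ofReal_mul, h11]
  have k3 := mul_nonneg (sq_nonneg c₂) k1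
  have k4 := mul_nonneg (sub_nonneg.2 hc) k2
  nlinarith

theorem arctan_le_950 (u : ℝ) (hu : 0 ≤ u) : Real.arctan u ≤ u := by
  have hmono : MonotoneOn (fun u : ℝ => u - Real.arctan u) (Set.Ici 0) := by
    apply monotoneOn_of_deriv_nonneg (convex_Ici 0)
    · exact (continuous_id.sub Real.continuous_arctan).continuousOn
    · exact (differentiable_id.sub Real.differentiable_arctan).differentiableOn
    · intro x hx
      have h : HasDerivAt (fun u : ℝ => u - Real.arctan u) (1 - 1 / (1 + x ^ 2)) x :=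
        (hasDerivAt_id x).sub (Real.hasDerivAt_arctan x)
      rw [h.deriv]
      have : 1 / (1 + x ^ 2) ≤ 1 := by
        rw [div_le_one (by positivity)]; nlinarith [sq_nonneg x]
      linarith
  have := hmono (Set.mem_Ici.2 (le_refl (0:ℝ))) (Set.mem_Ici.2 hu) hu
  simp only [Real.arctan_zero, sub_zero] at this
  linarith

theorem arctan_ge_950 (u : ℝ) (hu : 0 ≤ u) : u - u ^ 3 / 3 ≤ Real.arctan u := by
  have hmono : MonotoneOn (fun u : ℝ => Real.arctan u - u + u ^ 3 / 3) (Set.Ici 0) := by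
    apply monotoneOn_of_deriv_nonneg (convex_Ici 0)
    · exact ((Real.continuous_arctan.sub continuous_id).add
        ((continuous_id.pow 3).div_const 3)).continuousOn
    · exact ((Real.differentiable_arctan.sub differentiable_id).add
        ((differentiable_id.pow 3).div_const 3)).differentiableOn
    · intro x hx
      have h : HasDerivAt (fun u : ℝ => Real.arctan u - u + u ^ 3 / 3)
          (1 / (1 + x ^ 2) - 1 + (3 * x ^ 2) / 3) x := by
        have h3 : HasDerivAt (fun u : ℝ => u ^ 3) (3 * x ^ 2) x := by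
          simpa using hasDerivAt_pow 3 x
        exact ((Real.hasDerivAt_arctan x).sub (hasDerivAt_id x)).add (h3.div_const 3)
      rw [h.deriv]
      have : 1 / (1 + x ^ 2) - 1 + (3 * x ^ 2) / 3 = x ^ 4 / (1 + x ^ 2) := by
        field_simp; ring
      rw [this]
      positivity
  have := hmono (Set.mem_Ici.2 (le_refl (0:ℝ))) (Set.mem_Ici.2 hu) hu
  simp only [Real.arctan_zero] at this
  norm_num at this
  linarith

/-- elementary estimate of the arctangent -/
theorem arctan_est (t : ℝ) (ht : 0 < t) (ht1 : t ≤ 1) :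
    |(√(1 + t))⁻¹ - Real.arctan (√t) / √t| ≤ t / 2 := by
  have hs : 0 < √t := Real.sqrt_pos.2 ht
  have hs2 : √t ^ 2 = t := Real.sq_sqrt ht.le
  have h1 : Real.arctan (√t) / √t ≤ 1 := by
    rw [div_le_one hs]; exact arctan_le_950 _ hs.le
  have h2 : 1 - t / 2 ≤ Real.arctan (√t) / √t := by
    rw [le_div_iff₀ hs]
    have h := arctan_ge_950 (√t) hs.le
    have h3 : √t ^ 3 = t * √t := by rw [pow_succ, hs2]
    rw [h3] at h
    nlinarith [mul_pos ht hs]
  have hr : 0 < √(1 + t) := Real.sqrt_pos.2 (by linarith)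
  have hr2 : √(1 + t) ^ 2 = 1 + t := Real.sq_sqrt (by linarith)
  have h3 : (√(1 + t))⁻¹ ≤ 1 := by
    apply inv_le_one_of_one_le₀
    rw [Real.one_le_sqrt]; linarith
  have h4 : 1 - t / 2 ≤ (√(1 + t))⁻¹ := by
    rw [le_inv_comm₀ (by linarith) hr]
    rw [Real.sqrt_le_left (by apply inv_nonneg.2; linarith)]
    rw [inv_pow, le_inv_comm₀ (by linarith) (by apply pow_pos; linarith)]
    rw [← one_div, le_div_iff₀ (by linarith)]
    nlinarith [mul_pos ht ht]
  rw [abs_le]
  constructor <;> linarith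

end Low2
end Pool.Agent.Helper38.FE
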