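import Pool.Agent.Helper38.FE.Base

/-! MODULE H, definitions: left/right pairs, first order operators, resolvent maps. -/

set_option autoImplicit false

open scoped InnerProductSpace ComplexConjugate

namespace Pool.Agent.Helper38.FE.Low

open Pool.Agent.Helper38.FE

variable {ι H : Type} [NormedAddCommGroup H] [InnerProductSpace ℂ H] [CompleteSpace H]

/-- `a` is a left element (in `{s}''`), `a'` is its right partner (in `{s}'`), and both `a` and
`a*` commute with the right annihilation operators with index in `Q` -/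
structure Pair (S : FS ι H) (Q : Set ι) (a a' : H →L[ℂ] H) : Prop where
  left : ∀ c : H →L[ℂ] H, (∀ i, c * S.s i = S.s i * c) → a * c = c * a
  right : ∀ i, a' * S.s i = S.s i * a'
  vac : a S.Ω = a' S.Ω
  vac_star : (star a) S.Ω = (star a') S.Ω
  ra : ∀ j ∈ Q, S.ra j * a = a * S.ra j
  ra_star : ∀ j ∈ Q, S.ra j * star a = star a * S.ra j

/-- right partner of `Wd b y`: the reversed product of the Cayley transforms of `y'` -/
noncomputable def WR (b : List (Fin 3)) (y' : Fin 3 → (H →L[ℂ] H)) : H →L[ℂ] H :=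
  (b.reverse.map fun i => cay (y' i)).prod

/-- first order operator of `W_b`, `x` on the left, (right partners of) `y` on the right:
`∑_p α A_p(x) B_p(y)°` (sum over the positions `p` with `b_p = k`) -/
noncomputable def TW (x y' : Fin 3 → (H →L[ℂ] H)) (k : Fin 3) : List (Fin 3) → (H →L[ℂ] H)
  | [] => 0
  | i :: b => (if k = i then al • ((cay (x i) - 1) * (WR b y' * (cay (y' i) - 1))) else 0) +
      cay (x i) * TW x y' k b

/-- first order operator of `W_b*` -/
noncomputable def TV (x' y : Fin 3 → (H →L[ℂ] H)) (k : Fin 3) : List (Fin 3) → (H →L[ℂ] H)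
  | [] => 0
  | i :: b => (if k = i then
        conj al • (star (Wd b y) * star (cay (y i) - 1) * star (cay (x' i) - 1)) else 0) +
      star (cay (x' i)) * TV x' y k b

/-- first order operator of `∑_{j<n} r_j F_{b_j}` -/
noncomputable def TF (n : ℕ) (r : ℕ → ℝ) (b : ℕ → List (Fin 3))
    (x x' y y' : Fin 3 → (H →L[ℂ] H)) (k : Fin 3) : H →L[ℂ] H :=
  ∑ j ∈ Finset.range n, ((r j : ℝ) : ℂ) • (TW x y' k (b j) + TV x' y k (b j))

/-- `N_T = 1 + ∑ T_i T_i*` -/
noncomputable def NT (T : Fin 3 → (H →L[ℂ] H)) : H →L[ℂ] H := 1 + ∑ i, T i * star (T i)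

/-- `N_T⁻¹` -/
noncomputable def KT (T : Fin 3 → (H →L[ℂ] H)) : H →L[ℂ] H := Ring.inverse (NT T)

/-- `J_i = - T_i* N⁻¹` (`i < 3`), `J_3 = N⁻¹` -/
noncomputable def JT (T : Fin 3 → (H →L[ℂ] H)) : Fin 4 → (H →L[ℂ] H) :=
  Fin.snoc (α := fun _ => (H →L[ℂ] H)) (fun i => - (star (T i) * KT T)) (KT T)

/-- `Ψ_v(X) = ∑_j (2 Re ⟪v_j, X_j⟫ - ‖X_j‖²)` -/
noncomputable def Psi (v X : Fin 4 → H) : ℝ := ∑ j, (2 * (⟪v j, X j⟫_ℂ).re - ‖X j‖ ^ 2)

end Pool.Agent.Helper38.FE.Low
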