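import Pool.Agent.Helper38.FE.LowBase

/-! MODULE H, lemmas. -/

set_option autoImplicit false
set_option linter.unusedVariables false
set_option linter.unusedSectionVars false

open MeasureTheory Filter Topology
open scoped InnerProductSpace ENNReal ComplexConjugate

namespace Pool.Agent.Helper38.FE
namespace Low

variable {ι H : Type} [NormedAddCommGroup H] [InnerProductSpace ℂ H] [CompleteSpace H]


/-! ### Part A: pairs -/

/-- closure properties of left/right pairs -/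
theorem pc_star_comm (S : FS ι H) (c : H →L[ℂ] H) (hc : ∀ i, c * S.s i = S.s i * c) (i : ι) :
    star c * S.s i = S.s i * star c := by
  have h1 := congrArg star (hc i)
  rw [star_mul, star_mul, (S.s_sa i).star_eq] at h1
  exact h1.symm

theorem pc_left_star (S : FS ι H) (Q : Set ι) (a a' : H →L[ℂ] H) (h : Pair S Q a a')
    (c : H →L[ℂ] H) (hc : ∀ i, c * S.s i = S.s i * c) : star a * c = c * star a := by
  have h1 := congrArg star (h.left (star c) (pc_star_comm S c hc))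
  rw [star_mul, star_mul, star_star] at h1
  exact h1.symm

theorem pc_inv (a c : H →L[ℂ] H) (ha : IsUnit a) (h : a * c = c * a) :
    Ring.inverse a * c = c * Ring.inverse a := by
  calc Ring.inverse a * c = Ring.inverse a * c * (a * Ring.inverse a) := by
        rw [Ring.mul_inverse_cancel a ha, mul_one]
    _ = Ring.inverse a * (c * a) * Ring.inverse a := by simp only [mul_assoc]
    _ = (Ring.inverse a * a) * c * Ring.inverse a := by rw [← h]; simp only [mul_assoc]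
    _ = c * Ring.inverse a := by rw [Ring.inverse_mul_cancel a ha, one_mul]

theorem pc_inv_vac (a a' : H →L[ℂ] H) (Ω : H) (ha : IsUnit a) (ha' : IsUnit a')
    (hc : a * Ring.inverse a' = Ring.inverse a' * a) (h : a Ω = a' Ω) :
    Ring.inverse a Ω = Ring.inverse a' Ω := by
  have h1 : a (Ring.inverse a' Ω) = Ω := by
    have h2 : a (Ring.inverse a' Ω) = (a * Ring.inverse a') Ω := rfl
    rw [h2, hc]
    show Ring.inverse a' (a Ω) = Ω
    rw [h]
    show (Ring.inverse a' * a') Ω = Ω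
    rw [Ring.inverse_mul_cancel a' ha']
    rfl
  have h3 : Ring.inverse a (a (Ring.inverse a' Ω)) = Ring.inverse a' Ω := by
    show (Ring.inverse a * a) (Ring.inverse a' Ω) = _
    rw [Ring.inverse_mul_cancel a ha]
    rfl
  rw [h1] at h3
  exact h3

theorem pair_closure (S : FS ι H) (Q : Set ι) :
    (∀ i, i ∉ Q → Pair S Q (S.s i) (S.d i)) ∧
    Pair S Q 1 1 ∧
    (∀ a a' b b', Pair S Q a a' → Pair S Q b b' → Pair S Q (a + b) (a' + b')) ∧
    (∀ (c : ℂ) a a', Pair S Q a a' → Pair S Q (c • a) (c • a')) ∧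
    (∀ a a' b b', Pair S Q a a' → Pair S Q b b' → Pair S Q (a * b) (b' * a')) ∧
    (∀ a a', Pair S Q a a' → Pair S Q (star a) (star a')) ∧
    (∀ a a', Pair S Q a a' → IsUnit a → IsUnit a' →
      Pair S Q (Ring.inverse a) (Ring.inverse a')) ∧
    (∀ (Q' : Set ι) a a', Q' ⊆ Q → Pair S Q a a' → Pair S Q' a a') := by
  have hgen : ∀ i, i ∉ Q → Pair S Q (S.s i) (S.d i) := by
    intro i hi
    have hd : star (S.d i) = S.d i := by
      rw [S.d_eq, star_add, star_star, add_comm]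
    refine ⟨fun c hc => (hc i).symm, fun j => (S.comm j i).symm, S.sΩ i, ?_, ?_, ?_⟩
    · rw [hd, (S.s_sa i).star_eq, S.sΩ]
    · intro j hj
      exact S.ra_s j i (fun h => hi (h ▸ hj))
    · intro j hj
      rw [(S.s_sa i).star_eq]
      exact S.ra_s j i (fun h => hi (h ▸ hj))
  have hmul : ∀ a a' b b', Pair S Q a a' → Pair S Q b b' → Pair S Q (a * b) (b' * a') := by
    intro a a' b b' ha hb
    refine ⟨?_, ?_, ?_, ?_, ?_, ?_⟩
    · intro c hc
      rw [mul_assoc, hb.left c hc, ← mul_assoc, ha.left c hc, mul_assoc]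
    · intro i
      rw [mul_assoc, ha.right i, ← mul_assoc, hb.right i, mul_assoc]
    · show a (b S.Ω) = b' (a' S.Ω)
      rw [hb.vac, ← ha.vac]
      show (a * b') S.Ω = (b' * a) S.Ω
      rw [ha.left b' hb.right]
    · rw [star_mul, star_mul]
      show star b (star a S.Ω) = star a' (star b' S.Ω)
      rw [ha.vac_star, ← hb.vac_star]
      show (star b * star a') S.Ω = (star a' * star b) S.Ω
      rw [pc_left_star S Q b b' hb (star a') (pc_star_comm S a' ha.right)]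
    · intro j hj
      rw [← mul_assoc, ha.ra j hj, mul_assoc, hb.ra j hj, mul_assoc]
    · intro j hj
      rw [star_mul, ← mul_assoc, hb.ra_star j hj, mul_assoc, ha.ra_star j hj, mul_assoc]
  have hstar : ∀ a a', Pair S Q a a' → Pair S Q (star a) (star a') := by
    intro a a' ha
    refine ⟨pc_left_star S Q a a' ha, pc_star_comm S a' ha.right, ha.vac_star, ?_, ha.ra_star, ?_⟩
    · rw [star_star, star_star, ha.vac]
    · intro j hj
      rw [star_star]
      exact ha.ra j hj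
  refine ⟨hgen, ?_, ?_, ?_, hmul, hstar, ?_, ?_⟩
  · refine ⟨?_, ?_, rfl, ?_, ?_, ?_⟩
    · intro c _
      rw [one_mul, mul_one]
    · intro i
      rw [one_mul, mul_one]
    · rfl
    · intro j _
      rw [one_mul, mul_one]
    · intro j _
      rw [star_one, one_mul, mul_one]
  · intro a a' b b' ha hb
    refine ⟨?_, ?_, ?_, ?_, ?_, ?_⟩
    · intro c hc
      rw [add_mul, mul_add, ha.left c hc, hb.left c hc]
    · intro i
      rw [add_mul, mul_add, ha.right i, hb.right i]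
    · rw [ContinuousLinearMap.add_apply, ContinuousLinearMap.add_apply, ha.vac, hb.vac]
    · rw [star_add, star_add, ContinuousLinearMap.add_apply, ContinuousLinearMap.add_apply,
        ha.vac_star, hb.vac_star]
    · intro j hj
      rw [add_mul, mul_add, ha.ra j hj, hb.ra j hj]
    · intro j hj
      rw [star_add, add_mul, mul_add, ha.ra_star j hj, hb.ra_star j hj]
  · intro z a a' ha
    refine ⟨?_, ?_, ?_, ?_, ?_, ?_⟩
    · intro c hc
      rw [smul_mul_assoc, mul_smul_comm, ha.left c hc]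
    · intro i
      rw [smul_mul_assoc, mul_smul_comm, ha.right i]
    · rw [ContinuousLinearMap.smul_apply, ContinuousLinearMap.smul_apply, ha.vac]
    · rw [star_smul, star_smul, ContinuousLinearMap.smul_apply, ContinuousLinearMap.smul_apply,
        ha.vac_star]
    · intro j hj
      rw [smul_mul_assoc, mul_smul_comm, ha.ra j hj]
    · intro j hj
      rw [star_smul, smul_mul_assoc, mul_smul_comm, ha.ra_star j hj]
  · intro a a' ha hua hua'
    have hus : IsUnit (star a) := hua.star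
    have hus' : IsUnit (star a') := hua'.star
    have hri : ∀ i, Ring.inverse a' * S.s i = S.s i * Ring.inverse a' :=
      fun i => pc_inv a' (S.s i) hua' (ha.right i)
    have hsa := hstar a a' ha
    have hri' : ∀ i, Ring.inverse (star a') * S.s i = S.s i * Ring.inverse (star a') :=
      fun i => pc_inv (star a') (S.s i) hus' (hsa.right i)
    refine ⟨?_, hri, ?_, ?_, ?_, ?_⟩
    · intro c hc
      exact pc_inv a c hua (ha.left c hc)
    · exact pc_inv_vac a a' S.Ω hua hua' (ha.left _ hri) ha.vac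
    · rw [← Ring.inverse_star, ← Ring.inverse_star]
      exact pc_inv_vac (star a) (star a') S.Ω hus hus' (hsa.left _ hri') hsa.vac
    · intro j hj
      exact (pc_inv a (S.ra j) hua (ha.ra j hj).symm).symm
    · intro j hj
      rw [← Ring.inverse_star]
      exact (pc_inv (star a) (S.ra j) hus (ha.ra_star j hj).symm).symm
  · intro Q' a a' hQ ha
    exact ⟨ha.left, ha.right, ha.vac, ha.vac_star, fun j hj => ha.ra j (hQ hj),
      fun j hj => ha.ra_star j (hQ hj)⟩

/-! ### Part B: the Cayley transform -/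

/-- `‖α‖ ≤ 1`, `α² = -1/2`, `conj α = -α` -/
theorem al_facts : ‖al‖ ≤ 1 ∧ al * al = -(1 / 2) ∧ conj al = -al ∧ al ≠ 0 := by
  have h2 : (0 : ℝ) < √2 := Real.sqrt_pos.2 (by norm_num)
  have h1 : (1 : ℝ) ≤ √2 := by
    rw [Real.one_le_sqrt]; norm_num
  have hss : (√2 : ℝ) * √2 = 2 := Real.mul_self_sqrt (by norm_num)
  have hne : ((√2 : ℝ) : ℂ) ≠ 0 := by exact_mod_cast h2.ne'
  refine ⟨?_, ?_, ?_, ?_⟩
  · unfold al
    rw [norm_div, Complex.norm_I, Complex.norm_real, Real.norm_eq_abs, abs_of_pos h2]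
    rw [div_le_one h2]
    exact h1
  · unfold al
    rw [div_mul_div_comm, Complex.I_mul_I, ← Complex.ofReal_mul, hss]
    push_cast
    ring
  · unfold al
    rw [map_div₀, Complex.conj_I, Complex.conj_ofReal, neg_div]
  · unfold al
    exact div_ne_zero Complex.I_ne_zero hne

/-- `a - α` is invertible for `a` self-adjoint and the Cayley transform is a contraction -/
theorem cay_facts (a : H →L[ℂ] H) (ha : IsSelfAdjoint a) :
    IsUnit (a - al • (1 : H →L[ℂ] H)) ∧ ‖cay a‖ ≤ 1 := by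
  have hal : al ∉ spectrum ℂ a := by
    intro h
    have h1 := ha.mem_spectrum_eq_re h
    have h2 : al * al = -(1/2) := al_facts.2.1
    rw [h1] at h2
    have h3 : ((al.re * al.re : ℝ) : ℂ) = ((-(1/2) : ℝ) : ℂ) := by
      push_cast; exact_mod_cast h2
    have h4 : al.re * al.re = -(1/2) := by exact_mod_cast h3
    nlinarith [mul_self_nonneg al.re]
  have hu0 : IsUnit (algebraMap ℂ (H →L[ℂ] H) al - a) := spectrum.notMem_iff.mp hal
  have hu : IsUnit (a - al • (1 : H →L[ℂ] H)) := by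
    have := hu0.neg
    rw [neg_sub, Algebra.algebraMap_eq_smul_one] at this
    exact this
  refine ⟨hu, ?_⟩
  set b : H →L[ℂ] H := a - al • (1 : H →L[ℂ] H) with hb
  have hsb : star b = a + al • (1 : H →L[ℂ] H) := by
    have h3 : star al = -al := al_facts.2.2.1
    rw [hb, star_sub, star_smul, star_one, ha.star_eq, h3, neg_smul, sub_neg_eq_add]
  have hbu : b * Ring.inverse b = 1 := Ring.mul_inverse_cancel b hu
  have hcomm : b * star b = star b * b := by
    rw [hsb, hb]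
    have hc : (al • (1 : H →L[ℂ] H)) * a = a * (al • (1 : H →L[ℂ] H)) := by
      rw [smul_mul_assoc, mul_smul_comm, one_mul, mul_one]
    simp only [sub_mul, mul_add, add_mul, mul_sub, hc]
    abel
  have hcay : cay a = star b * Ring.inverse b := by
    unfold cay; rw [← hb, hsb]
  have h1 : star (cay a) * cay a = 1 := by
    rw [hcay, star_mul, star_star, mul_assoc, ← mul_assoc b, hcomm, mul_assoc, hbu, mul_one,
      ← star_mul, hbu, star_one]
  have h2 : ‖cay a‖ * ‖cay a‖ = ‖(1 : H →L[ℂ] H)‖ := by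
    rw [← CStarRing.norm_star_mul_self, h1]
  have h3 : ‖(1 : H →L[ℂ] H)‖ ≤ 1 := ContinuousLinearMap.norm_id_le
  nlinarith [norm_nonneg (cay a)]

/-- `u(b) - u(a) = α (u(a) - 1)(b - a)(u(b) - 1)` -/
theorem cay_sub (a b : H →L[ℂ] H) (ha : IsSelfAdjoint a) (hb : IsSelfAdjoint b) :
    cay b - cay a = al • ((cay a - 1) * (b - a) * (cay b - 1)) := by
  have h1 : ∀ c : H →L[ℂ] H, IsSelfAdjoint c →
      cay c - 1 = (2 * al) • Ring.inverse (c - al • (1 : H →L[ℂ] H)) := by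
    intro c hc
    obtain ⟨hu, -⟩ := cay_facts c hc
    have h2 : (c - al • (1 : H →L[ℂ] H)) * Ring.inverse (c - al • (1 : H →L[ℂ] H)) = 1 :=
      Ring.mul_inverse_cancel _ hu
    have h3 : c + al • (1 : H →L[ℂ] H) =
        (c - al • (1 : H →L[ℂ] H)) + (2 * al) • (1 : H →L[ℂ] H) := by
      rw [mul_smul, two_smul]
      abel
    unfold cay
    rw [h3, add_mul, h2, smul_mul_assoc, one_mul]
    abel
  obtain ⟨hua, -⟩ := cay_facts a ha
  obtain ⟨hub, -⟩ := cay_facts b hb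
  have h4 : Ring.inverse (a - al • (1 : H →L[ℂ] H)) * (b - a) *
      Ring.inverse (b - al • (1 : H →L[ℂ] H)) =
      Ring.inverse (a - al • (1 : H →L[ℂ] H)) - Ring.inverse (b - al • (1 : H →L[ℂ] H)) := by
    have h5 : b - a = (b - al • (1 : H →L[ℂ] H)) - (a - al • (1 : H →L[ℂ] H)) := by abel
    rw [h5, mul_sub, sub_mul, Ring.inverse_mul_cancel _ hua, mul_assoc,
      Ring.mul_inverse_cancel _ hub, mul_one, one_mul]
  have h6 : cay b - cay a = (cay b - 1) - (cay a - 1) := by abel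
  rw [h6, h1 a ha, h1 b hb, smul_mul_assoc, smul_mul_assoc, mul_smul_comm, h4, smul_smul,
    smul_smul, ← smul_sub]
  have h7 : al * (2 * al) * (2 * al) = -(2 * al) := by
    have h8 := al_facts.2.1
    linear_combination (4 * al) * h8
  rw [h7, neg_smul, ← smul_neg, neg_sub]

/-- Lipschitz bound for the Cayley transform -/
theorem norm_cay_sub_le (a b : H →L[ℂ] H) (ha : IsSelfAdjoint a) (hb : IsSelfAdjoint b) :
    ‖cay b - cay a‖ ≤ 4 * ‖b - a‖ := by
  have h1 : ‖(1 : H →L[ℂ] H)‖ ≤ 1 := ContinuousLinearMap.norm_id_le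
  have h2 : ‖cay a - 1‖ ≤ 2 := by
    have h3 := norm_sub_le (cay a) 1
    have h4 := (cay_facts a ha).2
    linarith
  have h5 : ‖cay b - 1‖ ≤ 2 := by
    have h3 := norm_sub_le (cay b) 1
    have h4 := (cay_facts b hb).2
    linarith
  have h6 := al_facts.1
  rw [cay_sub a b ha hb, norm_smul]
  calc ‖al‖ * ‖(cay a - 1) * (b - a) * (cay b - 1)‖ ≤ 1 * (2 * ‖b - a‖ * 2) := by
        refine mul_le_mul h6 ?_ (norm_nonneg _) zero_le_one
        refine (norm_mul_le _ _).trans (mul_le_mul ?_ h5 (norm_nonneg _) (by positivity))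
        exact (norm_mul_le _ _).trans (mul_le_mul_of_nonneg_right h2 (norm_nonneg _))
    _ = 4 * ‖b - a‖ := by ring

theorem ring_inv_comm {R : Type*} [Ring R] (u v : R) (hu : IsUnit u) (h : u * v = v * u) :
    Ring.inverse u * v = v * Ring.inverse u := by
  calc Ring.inverse u * v = Ring.inverse u * v * (u * Ring.inverse u) := by
        rw [Ring.mul_inverse_cancel u hu, mul_one]
    _ = Ring.inverse u * (v * u) * Ring.inverse u := by simp only [mul_assoc]
    _ = Ring.inverse u * (u * v) * Ring.inverse u := by rw [h]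
    _ = (Ring.inverse u * u) * v * Ring.inverse u := by simp only [mul_assoc]
    _ = v * Ring.inverse u := by rw [Ring.inverse_mul_cancel u hu, one_mul]

/-- pairs are closed under the Cayley transform -/
theorem pair_cay (S : FS ι H) (Q : Set ι) (a a' : H →L[ℂ] H) (h : Pair S Q a a')
    (ha : IsSelfAdjoint a) (ha' : IsSelfAdjoint a') : Pair S Q (cay a) (cay a') := by
  obtain ⟨_, h1, hadd, hsm, hmul, _, hinv, _⟩ := pair_closure S Q
  have p2 : Pair S Q (a + al • (1 : H →L[ℂ] H)) (a' + al • (1 : H →L[ℂ] H)) :=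
    hadd _ _ _ _ h (hsm al 1 1 h1)
  have e : ∀ x : H →L[ℂ] H, x + (-al) • (1 : H →L[ℂ] H) = x - al • (1 : H →L[ℂ] H) := by
    intro x
    rw [neg_smul, sub_eq_add_neg]
  have p3 : Pair S Q (a - al • (1 : H →L[ℂ] H)) (a' - al • (1 : H →L[ℂ] H)) := by
    have := hadd _ _ _ _ h (hsm (-al) 1 1 h1)
    rwa [e, e] at this
  have u := (cay_facts a ha).1
  have u' := (cay_facts a' ha').1
  have p4 := hmul _ _ _ _ p2 (hinv _ _ p3 u u')
  have hc : (a' - al • (1 : H →L[ℂ] H)) * (a' + al • (1 : H →L[ℂ] H)) =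
      (a' + al • (1 : H →L[ℂ] H)) * (a' - al • (1 : H →L[ℂ] H)) := by
    rw [sub_mul, mul_add, mul_add, add_mul, mul_sub, mul_sub]
    simp only [mul_smul_comm, smul_mul_assoc, mul_one, one_mul]
    abel
  rw [ring_inv_comm _ _ u' hc] at p4
  exact p4

/-- words in the Cayley transforms are pairs -/
theorem pair_Wd (S : FS ι H) (Q : Set ι) (x x' : Fin 3 → (H →L[ℂ] H))
    (h : ∀ i, Pair S Q (x i) (x' i)) (ha : ∀ i, IsSelfAdjoint (x i))
    (ha' : ∀ i, IsSelfAdjoint (x' i)) (b : List (Fin 3)) : Pair S Q (Wd b x) (WR b x') := by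
  obtain ⟨-, hone, -, -, hmul, -, -, -⟩ := pair_closure S Q
  induction b with
  | nil => simpa [Wd, WR] using hone
  | cons i b ih =>
    have e1 : Wd (i :: b) x = cay (x i) * Wd b x := by
      simp [Wd]
    have e2 : WR (i :: b) x' = WR b x' * cay (x' i) := by
      simp [WR]
    rw [e1, e2]
    exact hmul _ _ _ _ (pair_cay S Q _ _ (h i) (ha i) (ha' i)) ih

/-! ### Part C: first order operators of words -/

theorem nTWV_one : ‖(1 : H →L[ℂ] H)‖ ≤ 1 := ContinuousLinearMap.norm_id_le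

theorem nTWV_mul {a b : H →L[ℂ] H} (ha : ‖a‖ ≤ 1) (hb : ‖b‖ ≤ 1) : ‖a * b‖ ≤ 1 :=
  (norm_mul_le a b).trans (mul_le_one₀ ha (norm_nonneg _) hb)

theorem nTWV_prod (l : List (H →L[ℂ] H)) (h : ∀ a ∈ l, ‖a‖ ≤ 1) : ‖l.prod‖ ≤ 1 := by
  induction l with
  | nil => simpa using (nTWV_one (H := H))
  | cons a l ih =>
    rw [List.prod_cons]
    exact nTWV_mul (h a (by simp)) (ih fun b hb => h b (by simp [hb]))

theorem nTWV_Wd (y : Fin 3 → (H →L[ℂ] H)) (hy : ∀ i, ‖cay (y i)‖ ≤ 1) (b : List (Fin 3)) :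
    ‖Wd b y‖ ≤ 1 := by
  unfold Wd
  apply nTWV_prod
  intro a ha
  obtain ⟨i, _, rfl⟩ := List.mem_map.1 ha
  exact hy i

theorem nTWV_WR (y : Fin 3 → (H →L[ℂ] H)) (hy : ∀ i, ‖cay (y i)‖ ≤ 1) (b : List (Fin 3)) :
    ‖WR b y‖ ≤ 1 := by
  unfold WR
  apply nTWV_prod
  intro a ha
  obtain ⟨i, _, rfl⟩ := List.mem_map.1 ha
  exact hy i

theorem nTWV_sub {a : H →L[ℂ] H} (ha : ‖a‖ ≤ 1) : ‖a - 1‖ ≤ 2 := by
  have h1 := norm_sub_le a (1 : H →L[ℂ] H)
  have h2 := nTWV_one (H := H)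
  linarith

theorem nTWV_three {a b c : H →L[ℂ] H} (ha : ‖a‖ ≤ 2) (hb : ‖b‖ ≤ 1) (hc : ‖c‖ ≤ 2) :
    ‖a * (b * c)‖ ≤ 4 := by
  have h1 := norm_mul_le a (b * c)
  have h2 := norm_mul_le b c
  have h3 : ‖b‖ * ‖c‖ ≤ 1 * 2 := mul_le_mul hb hc (norm_nonneg _) (by norm_num)
  have h4 : ‖a‖ * ‖b * c‖ ≤ 2 * 2 :=
    mul_le_mul ha (by linarith) (norm_nonneg _) (by norm_num)
  linarith

/-- norm bound for the first order operators -/
theorem norm_TWV_le (x x' y y' : Fin 3 → (H →L[ℂ] H)) (hx : ∀ i, ‖cay (x i)‖ ≤ 1)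
    (hx' : ∀ i, ‖cay (x' i)‖ ≤ 1) (hy : ∀ i, ‖cay (y i)‖ ≤ 1) (hy' : ∀ i, ‖cay (y' i)‖ ≤ 1)
    (k : Fin 3) (b : List (Fin 3)) :
    ‖TW x y' k b‖ ≤ 4 * b.length ∧ ‖TV x' y k b‖ ≤ 4 * b.length := by
  induction b with
  | nil => simp [TW, TV]
  | cons i b ih =>
    obtain ⟨ih1, ih2⟩ := ih
    have hal : ‖al‖ ≤ 1 := al_facts.1
    have hal' : ‖conj al‖ ≤ 1 := by rw [RCLike.norm_conj]; exact hal
    have hlen : (4 : ℝ) * ((i :: b).length : ℕ) = 4 + 4 * (b.length : ℝ) := by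
      simp; ring
    rw [hlen]
    constructor
    · rw [TW]
      refine (norm_add_le _ _).trans (add_le_add ?_ ?_)
      · split_ifs
        · rw [norm_smul]
          have h3 := nTWV_three (nTWV_sub (hx i)) (nTWV_WR y' hy' b) (nTWV_sub (hy' i))
          calc _ ≤ 1 * (4 : ℝ) := mul_le_mul hal h3 (norm_nonneg _) (by norm_num)
            _ = 4 := by norm_num
        · simp
      · refine (norm_mul_le _ _).trans ?_
        calc _ ≤ 1 * (4 * (b.length : ℝ)) :=
              mul_le_mul (hx i) ih1 (norm_nonneg _) (by norm_num)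
          _ = _ := by ring
    · rw [TV]
      refine (norm_add_le _ _).trans (add_le_add ?_ ?_)
      · split_ifs
        · rw [norm_smul]
          have ha : ‖star (Wd b y)‖ ≤ 1 := by rw [norm_star]; exact nTWV_Wd y hy b
          have hb : ‖star (cay (y i) - 1)‖ ≤ 2 := by rw [norm_star]; exact nTWV_sub (hy i)
          have hc : ‖star (cay (x' i) - 1)‖ ≤ 2 := by rw [norm_star]; exact nTWV_sub (hx' i)
          have h3 : ‖star (Wd b y) * star (cay (y i) - 1) * star (cay (x' i) - 1)‖ ≤ 4 := by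
            have h1 := norm_mul_le (star (Wd b y) * star (cay (y i) - 1)) (star (cay (x' i) - 1))
            have h2 := norm_mul_le (star (Wd b y)) (star (cay (y i) - 1))
            have h4 : ‖star (Wd b y)‖ * ‖star (cay (y i) - 1)‖ ≤ 1 * 2 :=
              mul_le_mul ha hb (norm_nonneg _) (by norm_num)
            have h5 : ‖star (Wd b y) * star (cay (y i) - 1)‖ * ‖star (cay (x' i) - 1)‖ ≤ 2 * 2 :=
              mul_le_mul (by linarith) hc (norm_nonneg _) (by norm_num)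
            linarith
          calc _ ≤ 1 * (4 : ℝ) := mul_le_mul hal' h3 (norm_nonneg _) (by norm_num)
            _ = 4 := by norm_num
        · simp
      · refine (norm_mul_le _ _).trans ?_
        calc _ ≤ 1 * (4 * (b.length : ℝ)) := by
              refine mul_le_mul ?_ ih2 (norm_nonneg _) (by norm_num)
              rw [norm_star]; exact hx' i
          _ = _ := by ring

theorem norm_Wd_sub_le_aux (u v w z : H →L[ℂ] H) (δ : ℝ) (n : ℕ) (hu : ‖u‖ ≤ 1) (hz : ‖z‖ ≤ 1)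
    (h1 : ‖u - v‖ ≤ δ) (h2 : ‖w - z‖ ≤ n * δ) : ‖u * w - v * z‖ ≤ ((n + 1 : ℕ) : ℝ) * δ := by
  have h3 : u * w - v * z = u * (w - z) + (u - v) * z := by noncomm_ring
  rw [h3]
  calc ‖u * (w - z) + (u - v) * z‖ ≤ ‖u * (w - z)‖ + ‖(u - v) * z‖ := norm_add_le _ _
    _ ≤ ‖u‖ * ‖w - z‖ + ‖u - v‖ * ‖z‖ := add_le_add (norm_mul_le _ _) (norm_mul_le _ _)
    _ ≤ 1 * (n * δ) + δ * 1 := by
        refine add_le_add (mul_le_mul hu h2 (norm_nonneg _) zero_le_one) ?_
        exact mul_le_mul h1 hz (norm_nonneg _) ((norm_nonneg _).trans h1)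
    _ = _ := by push_cast; ring

theorem norm_Wd_sub_le_mul {u w : H →L[ℂ] H} (hu : ‖u‖ ≤ 1) (hw : ‖w‖ ≤ 1) : ‖u * w‖ ≤ 1 := by
  calc ‖u * w‖ ≤ ‖u‖ * ‖w‖ := norm_mul_le _ _
    _ ≤ 1 * 1 := mul_le_mul hu hw (norm_nonneg _) zero_le_one
    _ = 1 := one_mul 1

theorem norm_Wd_sub_le_Wd (x : Fin 3 → (H →L[ℂ] H)) (hx : ∀ i, ‖cay (x i)‖ ≤ 1) (b : List (Fin 3)) :
    ‖Wd b x‖ ≤ 1 := by
  induction b with
  | nil =>
    show ‖(List.map (fun i => cay (x i)) []).prod‖ ≤ 1
    rw [List.map_nil, List.prod_nil]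
    exact ContinuousLinearMap.norm_id_le
  | cons i b ih =>
    have h : Wd (i :: b) x = cay (x i) * Wd b x := by
      unfold Wd
      rw [List.map_cons, List.prod_cons]
    rw [h]
    exact norm_Wd_sub_le_mul (hx i) ih

theorem norm_Wd_sub_le_WR_cons (x : Fin 3 → (H →L[ℂ] H)) (i : Fin 3) (b : List (Fin 3)) :
    WR (i :: b) x = WR b x * cay (x i) := by
  unfold WR
  rw [List.reverse_cons, List.map_append, List.prod_append]
  simp

theorem norm_Wd_sub_le_WR (x : Fin 3 → (H →L[ℂ] H)) (hx : ∀ i, ‖cay (x i)‖ ≤ 1) (b : List (Fin 3)) :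
    ‖WR b x‖ ≤ 1 := by
  induction b with
  | nil =>
    show ‖(List.map (fun i => cay (x i)) []).prod‖ ≤ 1
    rw [List.map_nil, List.prod_nil]
    exact ContinuousLinearMap.norm_id_le
  | cons i b ih =>
    rw [norm_Wd_sub_le_WR_cons]
    exact norm_Wd_sub_le_mul ih (hx i)

/-- words are contractions and depend Lipschitz continuously on the Cayley transforms -/
theorem norm_Wd_sub_le (x y : Fin 3 → (H →L[ℂ] H)) (hx : ∀ i, ‖cay (x i)‖ ≤ 1)
    (hy : ∀ i, ‖cay (y i)‖ ≤ 1) (δ : ℝ) (hd : ∀ i, ‖cay (x i) - cay (y i)‖ ≤ δ)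
    (b : List (Fin 3)) :
    ‖Wd b x‖ ≤ 1 ∧ ‖WR b x‖ ≤ 1 ∧ ‖Wd b x - Wd b y‖ ≤ b.length * δ ∧
      ‖WR b x - WR b y‖ ≤ b.length * δ := by
  refine ⟨norm_Wd_sub_le_Wd x hx b, norm_Wd_sub_le_WR x hx b, ?_, ?_⟩
  · induction b with
    | nil =>
      have h : Wd [] x - Wd [] y = 0 := by
        unfold Wd
        rw [List.map_nil, List.map_nil, sub_self]
      rw [h, norm_zero]
      simp
    | cons i b ih =>
      have h : ∀ z : Fin 3 → (H →L[ℂ] H), Wd (i :: b) z = cay (z i) * Wd b z := by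
        intro z
        unfold Wd
        rw [List.map_cons, List.prod_cons]
      rw [h, h, List.length_cons]
      exact norm_Wd_sub_le_aux _ _ _ _ δ b.length (hx i) (norm_Wd_sub_le_Wd y hy b) (hd i) ih
  · induction b with
    | nil =>
      have h : WR [] x - WR [] y = 0 := by
        unfold WR
        simp
      rw [h, norm_zero]
      simp
    | cons i b ih =>
      rw [norm_Wd_sub_le_WR_cons, norm_Wd_sub_le_WR_cons, List.length_cons]
      have h3 : WR b x * cay (x i) - WR b y * cay (y i)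
          = WR b x * (cay (x i) - cay (y i)) + (WR b x - WR b y) * cay (y i) := by noncomm_ring
      rw [h3]
      calc ‖WR b x * (cay (x i) - cay (y i)) + (WR b x - WR b y) * cay (y i)‖
          ≤ ‖WR b x * (cay (x i) - cay (y i))‖ + ‖(WR b x - WR b y) * cay (y i)‖ := norm_add_le _ _
        _ ≤ ‖WR b x‖ * ‖cay (x i) - cay (y i)‖ + ‖WR b x - WR b y‖ * ‖cay (y i)‖ :=
            add_le_add (norm_mul_le _ _) (norm_mul_le _ _)
        _ ≤ 1 * δ + (b.length * δ) * 1 := by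
            refine add_le_add (mul_le_mul (norm_Wd_sub_le_WR x hx b) (hd i) (norm_nonneg _) zero_le_one) ?_
            exact mul_le_mul ih (hy i) (norm_nonneg _) ((norm_nonneg _).trans ih)
        _ = _ := by push_cast; ring

theorem ntw_mul {A B : H →L[ℂ] H} {a b : ℝ} (ha : ‖A‖ ≤ a) (hb : ‖B‖ ≤ b) : ‖A * B‖ ≤ a * b :=
  (norm_mul_le _ _).trans (mul_le_mul ha hb (norm_nonneg _) ((norm_nonneg _).trans ha))

theorem ntw_sub_one {A : H →L[ℂ] H} (ha : ‖A‖ ≤ 1) : ‖A - 1‖ ≤ 2 := by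
  have h1 : ‖(1 : H →L[ℂ] H)‖ ≤ 1 := ContinuousLinearMap.norm_id_le
  have h3 := norm_sub_le A 1
  linarith

/-- Lipschitz bound for `TW` -/
theorem norm_TW_sub_le (x x2 y' y2' : Fin 3 → (H →L[ℂ] H)) (hx : ∀ i, ‖cay (x i)‖ ≤ 1)
    (hx2 : ∀ i, ‖cay (x2 i)‖ ≤ 1) (hy : ∀ i, ‖cay (y' i)‖ ≤ 1) (hy2 : ∀ i, ‖cay (y2' i)‖ ≤ 1)
    (δ : ℝ) (hd : ∀ i, ‖cay (x i) - cay (x2 i)‖ ≤ δ)
    (hd' : ∀ i, ‖cay (y' i) - cay (y2' i)‖ ≤ δ) (k : Fin 3) (b : List (Fin 3)) :
    ‖TW x y' k b - TW x2 y2' k b‖ ≤ 4 * (b.length : ℝ) ^ 2 * δ := by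
  have hδ : 0 ≤ δ := (norm_nonneg _).trans (hd 0)
  induction b with
  | nil => simp [TW]
  | cons i b ih =>
    have hW := norm_Wd_sub_le y' y2' hy hy2 δ hd' b
    have hW2 := norm_Wd_sub_le y2' y2' hy2 hy2 0 (fun i => by simp) b
    have hT := (norm_TWV_le x x y' y' hx hx hy hy k b).1
    have hL : (0:ℝ) ≤ b.length := Nat.cast_nonneg _
    have hfirst : ‖(if k = i then al • ((cay (x i) - 1) * (WR b y' * (cay (y' i) - 1))) else 0) -
        (if k = i then al • ((cay (x2 i) - 1) * (WR b y2' * (cay (y2' i) - 1))) else 0)‖ ≤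
        4 * δ + 4 * b.length * δ := by
      split_ifs with hk
      · rw [← smul_sub, norm_smul]
        have e1 : (cay (x i) - 1) * (WR b y' * (cay (y' i) - 1)) -
            (cay (x2 i) - 1) * (WR b y2' * (cay (y2' i) - 1)) =
            (cay (x i) - cay (x2 i)) * (WR b y' * (cay (y' i) - 1)) +
            (cay (x2 i) - 1) * ((WR b y' - WR b y2') * (cay (y' i) - 1)) +
            (cay (x2 i) - 1) * (WR b y2' * (cay (y' i) - cay (y2' i))) := by noncomm_ring
        have e2 : ‖(cay (x i) - 1) * (WR b y' * (cay (y' i) - 1)) -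
            (cay (x2 i) - 1) * (WR b y2' * (cay (y2' i) - 1))‖ ≤
            δ * (1 * 2) + 2 * (b.length * δ * 2) + 2 * (1 * δ) := by
          rw [e1]
          refine (norm_add_le _ _).trans (add_le_add ((norm_add_le _ _).trans (add_le_add ?_ ?_)) ?_)
          · exact ntw_mul (hd i) (ntw_mul hW.2.1 (ntw_sub_one (hy i)))
          · exact ntw_mul (ntw_sub_one (hx2 i)) (ntw_mul hW.2.2.2 (ntw_sub_one (hy i)))
          · exact ntw_mul (ntw_sub_one (hx2 i)) (ntw_mul hW2.2.1 (hd' i))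
        calc ‖al‖ * _ ≤ 1 * (δ * (1 * 2) + 2 * (b.length * δ * 2) + 2 * (1 * δ)) :=
              mul_le_mul al_facts.1 e2 (norm_nonneg _) zero_le_one
          _ = 4 * δ + 4 * b.length * δ := by ring
      · rw [sub_zero, norm_zero]
        positivity
    have hsecond : ‖cay (x i) * TW x y' k b - cay (x2 i) * TW x2 y2' k b‖ ≤
        δ * (4 * b.length) + 1 * (4 * (b.length : ℝ) ^ 2 * δ) := by
      have e1 : cay (x i) * TW x y' k b - cay (x2 i) * TW x2 y2' k b =
          (cay (x i) - cay (x2 i)) * TW x y' k b + cay (x2 i) * (TW x y' k b - TW x2 y2' k b) := by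
        noncomm_ring
      rw [e1]
      exact (norm_add_le _ _).trans (add_le_add (ntw_mul (hd i) hT) (ntw_mul (hx2 i) ih))
    have e3 : TW x y' k (i :: b) - TW x2 y2' k (i :: b) =
        ((if k = i then al • ((cay (x i) - 1) * (WR b y' * (cay (y' i) - 1))) else 0) -
        (if k = i then al • ((cay (x2 i) - 1) * (WR b y2' * (cay (y2' i) - 1))) else 0)) +
        (cay (x i) * TW x y' k b - cay (x2 i) * TW x2 y2' k b) := by
      simp only [TW]
      abel
    rw [e3]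
    refine (norm_add_le _ _).trans ((add_le_add hfirst hsecond).trans (le_of_eq ?_))
    rw [List.length_cons]
    push_cast
    ring

/-- difference of products of two factors -/
theorem norm_mul_sub_le2 (A1 A2 B1 B2 : H →L[ℂ] H) (ra rb da db : ℝ) (hA2 : ‖A2‖ ≤ ra)
    (hB1 : ‖B1‖ ≤ rb) (hdA : ‖A1 - A2‖ ≤ da) (hdB : ‖B1 - B2‖ ≤ db) :
    ‖A1 * B1 - A2 * B2‖ ≤ da * rb + ra * db := by
  have h1 : A1 * B1 - A2 * B2 = (A1 - A2) * B1 + A2 * (B1 - B2) := by noncomm_ring
  rw [h1]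
  refine (norm_add_le _ _).trans (add_le_add ?_ ?_)
  · exact (norm_mul_le _ _).trans (mul_le_mul hdA hB1 (norm_nonneg _)
      ((norm_nonneg _).trans hdA))
  · exact (norm_mul_le _ _).trans (mul_le_mul hA2 hdB (norm_nonneg _)
      ((norm_nonneg _).trans hA2))

theorem norm_star_sub_one_le (c : H →L[ℂ] H) (h : ‖c‖ ≤ 1) : ‖star c - 1‖ ≤ 2 := by
  have h1 : star c - 1 = star (c - 1) := by simp
  rw [h1, norm_star]
  refine (norm_sub_le _ _).trans ?_
  have : ‖(1 : H →L[ℂ] H)‖ ≤ 1 := ContinuousLinearMap.norm_id_le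
  linarith

/-- Lipschitz bound for `TV` -/
theorem norm_TV_sub_le (x' x2' y y2 : Fin 3 → (H →L[ℂ] H)) (hx : ∀ i, ‖cay (x' i)‖ ≤ 1)
    (hx2 : ∀ i, ‖cay (x2' i)‖ ≤ 1) (hy : ∀ i, ‖cay (y i)‖ ≤ 1) (hy2 : ∀ i, ‖cay (y2 i)‖ ≤ 1)
    (δ : ℝ) (hd : ∀ i, ‖cay (x' i) - cay (x2' i)‖ ≤ δ)
    (hd' : ∀ i, ‖cay (y i) - cay (y2 i)‖ ≤ δ) (k : Fin 3) (b : List (Fin 3)) :
    ‖TV x' y k b - TV x2' y2 k b‖ ≤ 4 * (b.length : ℝ) ^ 2 * δ := by
  have hδ : 0 ≤ δ := (norm_nonneg _).trans (hd 0)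
  induction b with
  | nil => simp [TV]
  | cons i b ih =>
    have hT := (norm_TWV_le x' x' y y hx hx hy hy k b).2
    have hW := norm_Wd_sub_le y y2 hy hy2 δ hd' b
    have hW2 := norm_Wd_sub_le y2 y hy2 hy δ (fun i => by rw [norm_sub_rev]; exact hd' i) b
    have hlen : (((i :: b).length : ℕ) : ℝ) = (b.length : ℝ) + 1 := by
      simp
    rw [hlen]
    -- the second part
    have h2 : ‖star (cay (x' i)) * TV x' y k b - star (cay (x2' i)) * TV x2' y2 k b‖ ≤
        δ * (4 * b.length) + 1 * (4 * (b.length : ℝ) ^ 2 * δ) := by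
      apply norm_mul_sub_le2
      · rw [norm_star]; exact hx2 i
      · exact hT
      · rw [← star_sub, norm_star]; exact hd i
      · exact ih
    -- the first part
    have h1 : ‖(if k = i then
        conj al • (star (Wd b y) * star (cay (y i) - 1) * star (cay (x' i) - 1)) else 0) -
        (if k = i then
        conj al • (star (Wd b y2) * star (cay (y2 i) - 1) * star (cay (x2' i) - 1)) else 0)‖ ≤
        (((b.length : ℝ) * δ) * 2 + 1 * δ) * 2 + 2 * δ := by
      by_cases hk : k = i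
      · rw [if_pos hk, if_pos hk, ← smul_sub, norm_smul, Complex.norm_conj]
        have hin : ‖star (Wd b y) * star (cay (y i) - 1) * star (cay (x' i) - 1) -
            star (Wd b y2) * star (cay (y2 i) - 1) * star (cay (x2' i) - 1)‖ ≤
            (((b.length : ℝ) * δ) * 2 + 1 * δ) * 2 + 2 * δ := by
          apply norm_mul_sub_le2
          · refine (norm_mul_le _ _).trans ?_
            have e1 : ‖star (Wd b y2)‖ ≤ 1 := by rw [norm_star]; exact hW2.1
            have e2 : ‖star (cay (y2 i) - 1)‖ ≤ 2 := by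
              rw [star_sub, star_one]; exact norm_star_sub_one_le _ (hy2 i)
            calc _ ≤ 1 * 2 := mul_le_mul e1 e2 (norm_nonneg _) zero_le_one
              _ = 2 := one_mul _
          · rw [star_sub, star_one]; exact norm_star_sub_one_le _ (hx i)
          · apply norm_mul_sub_le2
            · rw [norm_star]; exact hW2.1
            · rw [star_sub, star_one]; exact norm_star_sub_one_le _ (hy i)
            · rw [← star_sub, norm_star]; exact hW.2.2.1
            · rw [← star_sub, norm_star]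
              have : cay (y i) - 1 - (cay (y2 i) - 1) = cay (y i) - cay (y2 i) := by abel
              rw [this]; exact hd' i
          · rw [← star_sub, norm_star]
            have : cay (x' i) - 1 - (cay (x2' i) - 1) = cay (x' i) - cay (x2' i) := by abel
            rw [this]; exact hd i
        have hal := al_facts.1
        calc ‖al‖ * _ ≤ 1 * ((((b.length : ℝ) * δ) * 2 + 1 * δ) * 2 + 2 * δ) :=
              mul_le_mul hal hin (norm_nonneg _) zero_le_one
          _ = _ := one_mul _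
      · rw [if_neg hk, if_neg hk, sub_self, norm_zero]
        positivity
    have h3 : TV x' y k (i :: b) - TV x2' y2 k (i :: b) =
        ((if k = i then
        conj al • (star (Wd b y) * star (cay (y i) - 1) * star (cay (x' i) - 1)) else 0) -
        (if k = i then
        conj al • (star (Wd b y2) * star (cay (y2 i) - 1) * star (cay (x2' i) - 1)) else 0)) +
        (star (cay (x' i)) * TV x' y k b - star (cay (x2' i)) * TV x2' y2 k b) := by
      simp only [TV]
      abel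
    rw [h3]
    refine (norm_add_le _ _).trans ((add_le_add h1 h2).trans (le_of_eq ?_))
    ring

/-- exact first order formula for `W_b` applied to the vacuum -/
theorem TW_formula (S : FS ι H) (x x' y y' : Fin 3 → (H →L[ℂ] H))
    (hx : ∀ i, Pair S ∅ (x i) (x' i)) (hy : ∀ i, Pair S ∅ (y i) (y' i))
    (sx : ∀ i, IsSelfAdjoint (x i)) (sx' : ∀ i, IsSelfAdjoint (x' i))
    (sy : ∀ i, IsSelfAdjoint (y i)) (sy' : ∀ i, IsSelfAdjoint (y' i)) (b : List (Fin 3)) :
    (Wd b y - Wd b x) S.Ω = ∑ k, TW x y' k b ((y k - x k) S.Ω) := by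
  obtain ⟨-, pone, padd, psmul, pmul, -, -, -⟩ := pair_closure S (∅ : Set ι)
  induction b with
  | nil =>
    have h0 : ∀ z : Fin 3 → (H →L[ℂ] H), Wd [] z = 1 := by
      intro z; simp [Wd]
    rw [h0, h0, sub_self]
    simp [TW]
  | cons i b ih =>
    have hc : ∀ z : Fin 3 → (H →L[ℂ] H), Wd (i :: b) z = cay (z i) * Wd b z := by
      intro z; simp [Wd]
    have p1 : Pair S ∅ (cay (y i)) (cay (y' i)) := pair_cay S ∅ _ _ (hy i) (sy i) (sy' i)
    have p2 : Pair S ∅ (cay (y i) - 1) (cay (y' i) - 1) := by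
      have := padd _ _ _ _ p1 (psmul (-1) _ _ pone)
      simpa [sub_eq_add_neg] using this
    have p3 : Pair S ∅ ((cay (y i) - 1) * Wd b y) (WR b y' * (cay (y' i) - 1)) :=
      pmul _ _ _ _ p2 (pair_Wd S ∅ y y' hy sy sy' b)
    have hcomm : ∀ z : H →L[ℂ] H, (∀ c : H →L[ℂ] H, (∀ j, c * S.s j = S.s j * c) →
        z * c = c * z) → z * (WR b y' * (cay (y' i) - 1)) =
        (WR b y' * (cay (y' i) - 1)) * z := fun z hz => hz _ p3.right
    have hc1 : (y i - x i) * (WR b y' * (cay (y' i) - 1)) =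
        (WR b y' * (cay (y' i) - 1)) * (y i - x i) := by
      rw [sub_mul, mul_sub (WR b y' * (cay (y' i) - 1)), hcomm _ (hy i).left,
        hcomm _ (hx i).left]
    have hsum : ∑ k, TW x y' k (i :: b) ((y k - x k) S.Ω) =
        (al • ((cay (x i) - 1) * (WR b y' * (cay (y' i) - 1)))) ((y i - x i) S.Ω) +
        cay (x i) (∑ k, TW x y' k b ((y k - x k) S.Ω)) := by
      have e1 : ∀ k, TW x y' k (i :: b) ((y k - x k) S.Ω) =
          (if k = i then (al • ((cay (x i) - 1) * (WR b y' * (cay (y' i) - 1))))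
            ((y k - x k) S.Ω) else 0) + cay (x i) (TW x y' k b ((y k - x k) S.Ω)) := by
        intro k
        rw [TW]
        split_ifs with h
        · rfl
        · simp
      rw [Finset.sum_congr rfl (fun k _ => e1 k), Finset.sum_add_distrib, map_sum,
        Finset.sum_ite_eq' Finset.univ i]
      simp
    rw [hsum, ← ih, hc, hc]
    have e2 : cay (y i) * Wd b y - cay (x i) * Wd b x =
        (cay (y i) - cay (x i)) * Wd b y + cay (x i) * (Wd b y - Wd b x) := by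
      rw [sub_mul, mul_sub]; abel
    rw [e2, cay_sub (x i) (y i) (sx i) (sy i)]
    rw [ContinuousLinearMap.add_apply]
    congr 1
    have e3 : (al • ((cay (x i) - 1) * (y i - x i) * (cay (y i) - 1)) * Wd b y) S.Ω =
        (al • (cay (x i) - 1)) ((y i - x i) (((cay (y i) - 1) * Wd b y) S.Ω)) := rfl
    rw [e3, p3.vac]
    have e4 : (y i - x i) ((WR b y' * (cay (y' i) - 1)) S.Ω) =
        (WR b y' * (cay (y' i) - 1)) ((y i - x i) S.Ω) := by
      have := congrArg (fun T : H →L[ℂ] H => T S.Ω) hc1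
      exact this
    rw [e4]
    rfl

theorem tvf_mul_apply (f g : H →L[ℂ] H) (v : H) : (f * g) v = f (g v) := rfl

theorem tvf_smul_apply (c : ℂ) (f : H →L[ℂ] H) (v : H) : (c • f) v = c • f v := rfl

theorem tvf_sub_apply (f g : H →L[ℂ] H) (v : H) : (f - g) v = f v - g v := rfl

theorem tvf_add_apply (f g : H →L[ℂ] H) (v : H) : (f + g) v = f v + g v := rfl

/-- exact first order formula for `W_b*` applied to the vacuum -/
theorem TV_formula (S : FS ι H) (x x' y y' : Fin 3 → (H →L[ℂ] H))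
    (hx : ∀ i, Pair S ∅ (x i) (x' i)) (hy : ∀ i, Pair S ∅ (y i) (y' i))
    (sx : ∀ i, IsSelfAdjoint (x i)) (sx' : ∀ i, IsSelfAdjoint (x' i))
    (sy : ∀ i, IsSelfAdjoint (y i)) (sy' : ∀ i, IsSelfAdjoint (y' i)) (b : List (Fin 3)) :
    (star (Wd b y) - star (Wd b x)) S.Ω = ∑ k, TV x' y k b ((y k - x k) S.Ω) := by
  obtain ⟨-, hone, hadd, hsmul, hmul, hstar, hinv, hmono⟩ := pair_closure S (∅ : Set ι)
  induction b with
  | nil =>
    simp [Wd, TV]
  | cons i b ih =>
    have hWy : Pair S ∅ (Wd b y) (WR b y') := pair_Wd S ∅ y y' hy sy sy' b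
    have hWx : Pair S ∅ (Wd b x) (WR b x') := pair_Wd S ∅ x x' hx sx sx' b
    have hcx : Pair S ∅ (cay (x i)) (cay (x' i)) := pair_cay S ∅ (x i) (x' i) (hx i) (sx i) (sx' i)
    have hcxs := hstar _ _ hcx
    -- the right element `star (cay x')` commutes with left elements
    have hr : ∀ j, star (cay (x' i)) * S.s j = S.s j * star (cay (x' i)) := hcxs.right
    have hr1 : ∀ j, star (cay (x' i) - 1) * S.s j = S.s j * star (cay (x' i) - 1) := by
      intro j
      rw [star_sub, star_one, sub_mul, mul_sub, hr j, one_mul, mul_one]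
    have hstarWy : star (Wd b y) * star (cay (x' i)) = star (cay (x' i)) * star (Wd b y) :=
      (hstar _ _ hWy).left _ hr
    have hstarWx : star (Wd b x) * star (cay (x' i)) = star (cay (x' i)) * star (Wd b x) :=
      (hstar _ _ hWx).left _ hr
    have hy1 : y i * star (cay (x' i) - 1) = star (cay (x' i) - 1) * y i := (hy i).left _ hr1
    have hx1 : x i * star (cay (x' i) - 1) = star (cay (x' i) - 1) * x i := (hx i).left _ hr1
    have hyx : (y i - x i) * star (cay (x' i) - 1) = star (cay (x' i) - 1) * (y i - x i) := by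
      rw [sub_mul, mul_sub, hy1, hx1]
    have hvac : (star (cay (x i))) S.Ω = (star (cay (x' i))) S.Ω := hcx.vac_star
    have hvac1 : (star (cay (x i) - 1)) S.Ω = (star (cay (x' i) - 1)) S.Ω := by
      rw [star_sub, star_sub, tvf_sub_apply, tvf_sub_apply, hvac]
    have hdec : star (Wd (i :: b) y) - star (Wd (i :: b) x) =
        star (Wd b y) * star (cay (y i) - cay (x i)) +
          (star (Wd b y) - star (Wd b x)) * star (cay (x i)) := by
      simp only [Wd, List.map_cons, List.prod_cons, star_mul, star_sub]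
      noncomm_ring
    have hsub : star (cay (y i) - cay (x i)) =
        conj al • (star (cay (y i) - 1) * ((y i - x i) * star (cay (x i) - 1))) := by
      rw [cay_sub (x i) (y i) (sx i) (sy i), star_smul, star_mul, star_mul]
      congr 1
      rw [star_sub (y i) (x i), (sy i).star_eq, (sx i).star_eq]
    have hfirst : (star (Wd b y) * star (cay (y i) - cay (x i))) S.Ω =
        (conj al • (star (Wd b y) * star (cay (y i) - 1) * star (cay (x' i) - 1)))
          ((y i - x i) S.Ω) := by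
      rw [hsub]
      have e1 : (conj al • (star (Wd b y) * star (cay (y i) - 1) * star (cay (x' i) - 1)))
          ((y i - x i) S.Ω) = (conj al • (star (Wd b y) * star (cay (y i) - 1) *
            ((y i - x i) * star (cay (x' i) - 1)))) S.Ω := by
        rw [hyx]
        simp only [tvf_smul_apply, tvf_mul_apply]
      rw [e1]
      simp only [tvf_smul_apply, tvf_mul_apply, map_smul, hvac1]
    have hsecond : ((star (Wd b y) - star (Wd b x)) * star (cay (x i))) S.Ω =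
        star (cay (x' i)) ((star (Wd b y) - star (Wd b x)) S.Ω) := by
      rw [tvf_mul_apply, hvac, ← tvf_mul_apply,
        ← tvf_mul_apply, sub_mul, mul_sub, hstarWy, hstarWx]
    rw [hdec, tvf_add_apply, hfirst, hsecond, ih, map_sum]
    simp only [TV, tvf_add_apply, Finset.sum_add_distrib]
    congr 1
    rw [Finset.sum_eq_single i]
    · simp
    · intro k _ hk
      simp [hk]
    · intro h; exact absurd (Finset.mem_univ i) h

theorem TWV_Wd_mem (U : StarSubalgebra ℂ (H →L[ℂ] H)) (y : Fin 3 → (H →L[ℂ] H))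
    (hy : ∀ i, cay (y i) ∈ U) (b : List (Fin 3)) : Wd b y ∈ U ∧ WR b y ∈ U := by
  constructor
  · refine list_prod_mem fun z hz => ?_
    obtain ⟨i, _, rfl⟩ := List.mem_map.1 hz
    exact hy i
  · refine list_prod_mem fun z hz => ?_
    obtain ⟨i, _, rfl⟩ := List.mem_map.1 hz
    exact hy i

/-- the first order operators lie in every *-algebra containing the Cayley transforms -/
theorem TWV_mem (U : StarSubalgebra ℂ (H →L[ℂ] H)) (x x' y y' : Fin 3 → (H →L[ℂ] H))
    (hx : ∀ i, cay (x i) ∈ U) (hx' : ∀ i, cay (x' i) ∈ U) (hy : ∀ i, cay (y i) ∈ U)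
    (hy' : ∀ i, cay (y' i) ∈ U) (k : Fin 3) (b : List (Fin 3)) :
    TW x y' k b ∈ U ∧ TV x' y k b ∈ U := by
  induction b with
  | nil => exact ⟨U.zero_mem, U.zero_mem⟩
  | cons i b ih =>
    constructor
    · refine U.add_mem ?_ (U.mul_mem (hx i) ih.1)
      split_ifs
      · exact U.smul_mem (U.mul_mem (U.sub_mem (hx i) U.one_mem)
          (U.mul_mem (TWV_Wd_mem U y' hy' b).2 (U.sub_mem (hy' i) U.one_mem))) _
      · exact U.zero_mem
    · have h1 : star (cay (x' i)) ∈ U := star_mem (hx' i)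
      have h2 : star (Wd b y) ∈ U := star_mem (TWV_Wd_mem U y hy b).1
      have h3 : star (cay (y i) - 1) ∈ U := star_mem (sub_mem (hy i) (one_mem U))
      have h4 : star (cay (x' i) - 1) ∈ U := star_mem (sub_mem (hx' i) (one_mem U))
      refine U.add_mem ?_ (U.mul_mem h1 ih.2)
      split_ifs
      · exact U.smul_mem (U.mul_mem (U.mul_mem h2 h3) h4) _
      · exact U.zero_mem

/-- norm bound for `TF` -/
theorem norm_TF_le (x x' y y' : Fin 3 → (H →L[ℂ] H)) (hx : ∀ i, ‖cay (x i)‖ ≤ 1)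
    (hx' : ∀ i, ‖cay (x' i)‖ ≤ 1) (hy : ∀ i, ‖cay (y i)‖ ≤ 1) (hy' : ∀ i, ‖cay (y' i)‖ ≤ 1)
    (n : ℕ) (r : ℕ → ℝ) (b : ℕ → List (Fin 3)) (M : ℝ)
    (hM : (∑ j ∈ Finset.range n, |r j| * ((b j).length : ℝ) ^ 2) ≤ M) (k : Fin 3) :
    ‖TF n r b x x' y y' k‖ ≤ 8 * M := by
  unfold TF
  have h1 : ∀ j ∈ Finset.range n, ‖((r j : ℝ) : ℂ) • (TW x y' k (b j) + TV x' y k (b j))‖ ≤
      8 * (|r j| * ((b j).length : ℝ) ^ 2) := by
    intro j _
    obtain ⟨h2, h3⟩ := norm_TWV_le x x' y y' hx hx' hy hy' k (b j)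
    have h4 : ‖TW x y' k (b j) + TV x' y k (b j)‖ ≤ 8 * ((b j).length : ℝ) :=
      (norm_add_le _ _).trans (by linarith)
    have h5 : ((b j).length : ℝ) ≤ ((b j).length : ℝ) ^ 2 := by
      have : (b j).length ≤ (b j).length ^ 2 := Nat.le_self_pow two_ne_zero _
      exact_mod_cast this
    rw [norm_smul, Complex.norm_real, Real.norm_eq_abs]
    have h6 := mul_le_mul_of_nonneg_left (h4.trans (mul_le_mul_of_nonneg_left h5
      (by norm_num : (0 : ℝ) ≤ 8))) (abs_nonneg (r j))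
    linarith
  refine (norm_sum_le_of_le _ h1).trans ?_
  rw [← Finset.mul_sum]
  linarith

/-- Lipschitz bound for `TF` -/
theorem norm_TF_sub_le (x x' y y' x2 x2' y2 y2' : Fin 3 → (H →L[ℂ] H))
    (hx : ∀ i, ‖cay (x i)‖ ≤ 1) (hx' : ∀ i, ‖cay (x' i)‖ ≤ 1) (hy : ∀ i, ‖cay (y i)‖ ≤ 1)
    (hy' : ∀ i, ‖cay (y' i)‖ ≤ 1) (hx2 : ∀ i, ‖cay (x2 i)‖ ≤ 1) (hx2' : ∀ i, ‖cay (x2' i)‖ ≤ 1)
    (hy2 : ∀ i, ‖cay (y2 i)‖ ≤ 1) (hy2' : ∀ i, ‖cay (y2' i)‖ ≤ 1) (δ : ℝ) (hδ : 0 ≤ δ)
    (dx : ∀ i, ‖cay (x i) - cay (x2 i)‖ ≤ δ) (dx' : ∀ i, ‖cay (x' i) - cay (x2' i)‖ ≤ δ)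
    (dy : ∀ i, ‖cay (y i) - cay (y2 i)‖ ≤ δ) (dy' : ∀ i, ‖cay (y' i) - cay (y2' i)‖ ≤ δ)
    (n : ℕ) (r : ℕ → ℝ) (b : ℕ → List (Fin 3)) (M : ℝ)
    (hM : (∑ j ∈ Finset.range n, |r j| * ((b j).length : ℝ) ^ 2) ≤ M) (k : Fin 3) :
    ‖TF n r b x x' y y' k - TF n r b x2 x2' y2 y2' k‖ ≤ 8 * M * δ := by
  unfold TF
  rw [← Finset.sum_sub_distrib]
  have h1 : ∀ j ∈ Finset.range n,
      ‖((r j : ℝ) : ℂ) • (TW x y' k (b j) + TV x' y k (b j)) -
        ((r j : ℝ) : ℂ) • (TW x2 y2' k (b j) + TV x2' y2 k (b j))‖ ≤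
      (|r j| * ((b j).length : ℝ) ^ 2) * (8 * δ) := by
    intro j _
    have e : ((r j : ℝ) : ℂ) • (TW x y' k (b j) + TV x' y k (b j)) -
        ((r j : ℝ) : ℂ) • (TW x2 y2' k (b j) + TV x2' y2 k (b j)) =
        ((r j : ℝ) : ℂ) • ((TW x y' k (b j) - TW x2 y2' k (b j)) +
          (TV x' y k (b j) - TV x2' y2 k (b j))) := by
      rw [← smul_sub]; congr 1; abel
    rw [e, norm_smul, Complex.norm_real, Real.norm_eq_abs]
    have h2 := norm_TW_sub_le x x2 y' y2' hx hx2 hy' hy2' δ dx dy' k (b j)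
    have h3 := norm_TV_sub_le x' x2' y y2 hx' hx2' hy hy2 δ dx' dy k (b j)
    have h4 := norm_add_le (TW x y' k (b j) - TW x2 y2' k (b j))
      (TV x' y k (b j) - TV x2' y2 k (b j))
    calc |r j| * ‖(TW x y' k (b j) - TW x2 y2' k (b j)) +
          (TV x' y k (b j) - TV x2' y2 k (b j))‖
        ≤ |r j| * (4 * ((b j).length : ℝ) ^ 2 * δ + 4 * ((b j).length : ℝ) ^ 2 * δ) :=
          mul_le_mul_of_nonneg_left (by linarith) (abs_nonneg _)
      _ = (|r j| * ((b j).length : ℝ) ^ 2) * (8 * δ) := by ring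
  calc ‖∑ j ∈ Finset.range n, (((r j : ℝ) : ℂ) • (TW x y' k (b j) + TV x' y k (b j)) -
        ((r j : ℝ) : ℂ) • (TW x2 y2' k (b j) + TV x2' y2 k (b j)))‖
      ≤ ∑ j ∈ Finset.range n, (|r j| * ((b j).length : ℝ) ^ 2) * (8 * δ) := norm_sum_le_of_le _ h1
    _ = (∑ j ∈ Finset.range n, |r j| * ((b j).length : ℝ) ^ 2) * (8 * δ) := by
      rw [Finset.sum_mul]
    _ ≤ M * (8 * δ) := mul_le_mul_of_nonneg_right hM (by positivity)
    _ = 8 * M * δ := by ring

/-- exact first order formula for `f = ∑ r_j F_{b_j}` -/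
theorem TF_formula (S : FS ι H) (x x' y y' : Fin 3 → (H →L[ℂ] H))
    (hx : ∀ i, Pair S ∅ (x i) (x' i)) (hy : ∀ i, Pair S ∅ (y i) (y' i))
    (sx : ∀ i, IsSelfAdjoint (x i)) (sx' : ∀ i, IsSelfAdjoint (x' i))
    (sy : ∀ i, IsSelfAdjoint (y i)) (sy' : ∀ i, IsSelfAdjoint (y' i))
    (n : ℕ) (r : ℕ → ℝ) (b : ℕ → List (Fin 3)) :
    (∑ j ∈ Finset.range n, ((r j : ℝ) : ℂ) • Fb (b j) y) S.Ω -
      (∑ j ∈ Finset.range n, ((r j : ℝ) : ℂ) • Fb (b j) x) S.Ω =
      ∑ k, TF n r b x x' y y' k ((y k - x k) S.Ω) := by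
  have key : ∀ j, (Fb (b j) y) S.Ω - (Fb (b j) x) S.Ω
      = ∑ k, (TW x y' k (b j) + TV x' y k (b j)) ((y k - x k) S.Ω) := by
    intro j
    have h1 := TW_formula S x x' y y' hx hy sx sx' sy sy' (b j)
    have h2 := TV_formula S x x' y y' hx hy sx sx' sy sy' (b j)
    simp only [ContinuousLinearMap.add_apply, Finset.sum_add_distrib]
    rw [← h1, ← h2]
    simp only [Fb, ContinuousLinearMap.add_apply, ContinuousLinearMap.sub_apply]
    abel
  simp only [ContinuousLinearMap.sum_apply, ContinuousLinearMap.smul_apply, TF]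
  rw [← Finset.sum_sub_distrib, Finset.sum_comm]
  refine Finset.sum_congr rfl (fun j _ => ?_)
  rw [← smul_sub, key, Finset.smul_sum]

/-- `TF` lies in every *-algebra containing the Cayley transforms -/
theorem TF_mem (U : StarSubalgebra ℂ (H →L[ℂ] H)) (x x' y y' : Fin 3 → (H →L[ℂ] H))
    (hx : ∀ i, cay (x i) ∈ U) (hx' : ∀ i, cay (x' i) ∈ U) (hy : ∀ i, cay (y i) ∈ U)
    (hy' : ∀ i, cay (y' i) ∈ U) (n : ℕ) (r : ℕ → ℝ) (b : ℕ → List (Fin 3)) (k : Fin 3) :
    TF n r b x x' y y' k ∈ U := by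
  unfold TF
  refine sum_mem fun j _ => ?_
  obtain ⟨h1, h2⟩ := TWV_mem U x x' y y' hx hx' hy hy' k (b j)
  exact U.smul_mem (add_mem h1 h2) _

/-! ### Part D: the algebra of left-right multiplications -/

/-- `⟪s_j Ω, a b' s_k Ω⟫ = δ_jk τ(a) τ(b)` -/
theorem pair_inner (S : FS ι H) (Q : Set ι) (a a' b b' : H →L[ℂ] H) (ha : Pair S Q a a')
    (hb : Pair S Q b b') (j k : ι) (hj : j ∈ Q) :
    (j ≠ k → ⟪S.s j S.Ω, (a * b') (S.s k S.Ω)⟫_ℂ = 0) ∧
      ⟪S.s j S.Ω, (a * b') (S.s j S.Ω)⟫_ℂ = ⟪S.Ω, a S.Ω⟫_ℂ * ⟪S.Ω, b S.Ω⟫_ℂ := by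
  have happ : ∀ (f g : H →L[ℂ] H) (v : H), f * g = g * f → f (g v) = g (f v) := by
    intro f g v h
    have := congrArg (fun T : H →L[ℂ] H => T v) h
    exact this
  have hmul : ∀ (f g : H →L[ℂ] H) (v : H), (f * g) v = f (g v) := fun f g v => rfl
  have hs : S.s j S.Ω = (star (S.ra j)) S.Ω := by
    rw [S.sΩ, S.d_eq]
    show S.ra j S.Ω + (star (S.ra j)) S.Ω = _
    rw [S.raΩ, zero_add]
  have hin : ∀ w : H, ⟪S.s j S.Ω, w⟫_ℂ = ⟪S.Ω, S.ra j w⟫_ℂ := by
    intro w
    rw [hs, ContinuousLinearMap.star_eq_adjoint, ContinuousLinearMap.adjoint_inner_left]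
  have hb0 : S.ra j (b S.Ω) = 0 := by
    rw [happ _ _ _ (hb.ra j hj), S.raΩ, map_zero]
  have hab : ∀ k, (a * b') (S.s k S.Ω) = a (S.s k (b S.Ω)) := by
    intro k
    rw [hmul, happ _ _ _ (hb.right k), ← hb.vac]
  constructor
  · intro hjk
    rw [hin, hab, happ _ _ _ (ha.ra j hj), happ _ _ _ (S.ra_s j k hjk), hb0, map_zero, map_zero,
      inner_zero_right]
  · rw [hin, hab, happ _ _ _ (ha.ra j hj), S.ra_s_self, hb0, map_zero, zero_add, map_smul,
      inner_smul_right, mul_comm]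

/-- left and right elements commute, and `τ` is a trace -/
theorem pair_trace (S : FS ι H) (Q : Set ι) (a a' b b' : H →L[ℂ] H) (ha : Pair S Q a a')
    (hb : Pair S Q b b') :
    a * b' = b' * a ∧ ⟪S.Ω, (a * b) S.Ω⟫_ℂ = ⟪S.Ω, (b * a) S.Ω⟫_ℂ := by
  have hc : a * b' = b' * a := ha.left b' hb.right
  refine ⟨hc, ?_⟩
  have h1 : (a * b) S.Ω = (b' * a) S.Ω := by
    rw [← hc]
    change a (b S.Ω) = a (b' S.Ω)
    rw [hb.vac]
  have h2 : ⟪S.Ω, (b' * a) S.Ω⟫_ℂ = ⟪(star b') S.Ω, a S.Ω⟫_ℂ := by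
    rw [ContinuousLinearMap.star_eq_adjoint, ContinuousLinearMap.adjoint_inner_left]
    rfl
  have h3 : ⟪S.Ω, (b * a) S.Ω⟫_ℂ = ⟪(star b) S.Ω, a S.Ω⟫_ℂ := by
    rw [ContinuousLinearMap.star_eq_adjoint, ContinuousLinearMap.adjoint_inner_left]
    rfl
  rw [h1, h2, h3, hb.vac_star]

/-- the *-algebra spanned by the products `a b'` -/
theorem exists_span_algebra (S : FS ι H) (Q : Set ι) : ∃ U : StarSubalgebra ℂ (H →L[ℂ] H),
    (U : Set (H →L[ℂ] H)) = (Submodule.span ℂ {η : H →L[ℂ] H | ∃ a a' b b',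
      Pair S Q a a' ∧ Pair S Q b b' ∧ η = a * b'} : Set (H →L[ℂ] H)) := by
  obtain ⟨-, h1, -, hsmul, hmul, hstar, -, -⟩ := pair_closure S Q
  set T : Set (H →L[ℂ] H) := {η : H →L[ℂ] H | ∃ a a' b b',
      Pair S Q a a' ∧ Pair S Q b b' ∧ η = a * b'} with hT
  have hone : (1 : H →L[ℂ] H) ∈ T := ⟨1, 1, 1, 1, h1, h1, (one_mul _).symm⟩
  have hTT : ∀ x ∈ T, ∀ y ∈ T, x * y ∈ T := by
    rintro x ⟨a, a', b, b', ha, hb, rfl⟩ y ⟨c, c', e, e', hc, he, rfl⟩
    refine ⟨a * c, c' * a', e * b, b' * e', hmul _ _ _ _ ha hc, hmul _ _ _ _ he hb, ?_⟩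
    have h2 := (pair_trace S Q c c' b b' hc hb).1
    calc a * b' * (c * e') = a * (b' * c) * e' := by noncomm_ring
      _ = a * (c * b') * e' := by rw [h2]
      _ = a * c * (b' * e') := by noncomm_ring
  have hmm : ∀ x ∈ Submodule.span ℂ T, ∀ y ∈ Submodule.span ℂ T, x * y ∈ Submodule.span ℂ T := by
    intro x hx y hy
    have h3 := Submodule.mul_mem_mul hx hy
    rw [Submodule.span_mul_span] at h3
    refine Submodule.span_mono ?_ h3
    rintro z ⟨u, hu, v, hv, rfl⟩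
    exact hTT u hu v hv
  have hst : ∀ x ∈ Submodule.span ℂ T, star x ∈ Submodule.span ℂ T := by
    intro x hx
    induction hx using Submodule.span_induction with
    | mem x h =>
      obtain ⟨a, a', b, b', ha, hb, rfl⟩ := h
      apply Submodule.subset_span
      refine ⟨star a, star a', star b, star b', hstar _ _ ha, hstar _ _ hb, ?_⟩
      rw [star_mul]
      exact ((pair_trace S Q (star a) (star a') (star b) (star b') (hstar _ _ ha)
        (hstar _ _ hb)).1).symm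
    | zero => rw [star_zero]; exact Submodule.zero_mem _
    | add x y _ _ hx hy => rw [star_add]; exact Submodule.add_mem _ hx hy
    | smul c x _ hx => rw [star_smul]; exact Submodule.smul_mem _ _ hx
  refine ⟨{ carrier := (Submodule.span ℂ T : Set (H →L[ℂ] H))
            mul_mem' := fun {x y} hx hy => hmm x hx y hy
            one_mem' := Submodule.subset_span hone
            add_mem' := fun {x y} hx hy => Submodule.add_mem _ hx hy
            zero_mem' := Submodule.zero_mem _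
            algebraMap_mem' := ?_
            star_mem' := fun {x} hx => hst x hx }, rfl⟩
  intro r
  rw [Algebra.algebraMap_eq_smul_one]
  exact Submodule.smul_mem _ _ (Submodule.subset_span hone)

/-- the vector functional `η ↦ ⟪v, η w⟫` -/
noncomputable def vfn (v w : H) : (H →L[ℂ] H) →L[ℂ] ℂ :=
  (innerSL ℂ v).comp (ContinuousLinearMap.apply ℂ H w)

theorem vfn_apply (v w : H) (η : H →L[ℂ] H) : vfn v w η = ⟪v, η w⟫_ℂ := rfl

/-- the closed *-algebra generated by the products `a b'` and the vector states on it -/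
theorem exists_closed_algebra (S : FS ι H) (Q : Set ι) : ∃ U : StarSubalgebra ℂ (H →L[ℂ] H),
    IsClosed (U : Set (H →L[ℂ] H)) ∧
    (∀ a a', Pair S Q a a' → a ∈ U ∧ a' ∈ U) ∧
    (∀ η ∈ U, ∀ j ∈ Q, ∀ k ∈ Q, j ≠ k → ⟪S.s j S.Ω, η (S.s k S.Ω)⟫_ℂ = 0) ∧
    (∀ η ∈ U, ∀ j ∈ Q, ∀ k ∈ Q,
      ⟪S.s j S.Ω, η (S.s j S.Ω)⟫_ℂ = ⟪S.s k S.Ω, η (S.s k S.Ω)⟫_ℂ) ∧
    (∀ η ∈ U, ∀ ζ ∈ U, ∀ j ∈ Q, ⟪S.s j S.Ω, (η * ζ) (S.s j S.Ω)⟫_ℂ =
      ⟪S.s j S.Ω, (ζ * η) (S.s j S.Ω)⟫_ℂ) := by
  obtain ⟨U0, hU0⟩ := exists_span_algebra S Q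
  obtain ⟨-, h1, -, -, hmul, -, -, -⟩ := pair_closure S Q
  set G : Set (H →L[ℂ] H) := {η : H →L[ℂ] H | ∃ a a' b b',
      Pair S Q a a' ∧ Pair S Q b b' ∧ η = a * b'} with hG
  have hmem : ∀ η : H →L[ℂ] H, η ∈ U0.topologicalClosure ↔
      η ∈ closure ((Submodule.span ℂ G : Submodule ℂ (H →L[ℂ] H)) : Set (H →L[ℂ] H)) := by
    intro η
    rw [← hU0, ← SetLike.mem_coe, StarSubalgebra.topologicalClosure_coe]
  have hcl : ∀ P : (H →L[ℂ] H) → Prop, IsClosed {η | P η} →
      (∀ η ∈ Submodule.span ℂ G, P η) → ∀ η ∈ U0.topologicalClosure, P η := by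
    intro P hP h η hη
    rw [hmem] at hη
    exact closure_minimal (fun x hx => h x hx) hP hη
  refine ⟨U0.topologicalClosure, U0.isClosed_topologicalClosure, ?_, ?_, ?_, ?_⟩
  · intro a a' h
    constructor
    · rw [hmem]
      exact subset_closure (Submodule.subset_span ⟨a, a', 1, 1, h, h1, (mul_one a).symm⟩)
    · rw [hmem]
      exact subset_closure (Submodule.subset_span ⟨1, 1, a, a', h1, h, (one_mul a').symm⟩)
  · intro η hη j hj k hk hjk
    revert η
    refine hcl (fun η => ⟪S.s j S.Ω, η (S.s k S.Ω)⟫_ℂ = 0) ?_ ?_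
    · exact isClosed_eq (vfn (S.s j S.Ω) (S.s k S.Ω)).continuous continuous_const
    · intro η hη
      induction hη using Submodule.span_induction with
      | mem x hx =>
        obtain ⟨a, a', b, b', ha, hb, rfl⟩ := hx
        exact (pair_inner S Q a a' b b' ha hb j k hj).1 hjk
      | zero => simp
      | add x y _ _ hx hy =>
        show ⟪S.s j S.Ω, (x + y) (S.s k S.Ω)⟫_ℂ = 0
        rw [_root_.add_apply, inner_add_right, hx, hy, add_zero]
      | smul c x _ hx =>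
        show ⟪S.s j S.Ω, (c • x) (S.s k S.Ω)⟫_ℂ = 0
        rw [_root_.smul_apply, inner_smul_right, hx, mul_zero]
  · intro η hη j hj k hk
    revert η
    refine hcl (fun η => ⟪S.s j S.Ω, η (S.s j S.Ω)⟫_ℂ = ⟪S.s k S.Ω, η (S.s k S.Ω)⟫_ℂ) ?_ ?_
    · exact isClosed_eq (vfn (S.s j S.Ω) (S.s j S.Ω)).continuous
        (vfn (S.s k S.Ω) (S.s k S.Ω)).continuous
    · intro η hη
      induction hη using Submodule.span_induction with
      | mem x hx =>
        obtain ⟨a, a', b, b', ha, hb, rfl⟩ := hx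
        show ⟪S.s j S.Ω, (a * b') (S.s j S.Ω)⟫_ℂ = ⟪S.s k S.Ω, (a * b') (S.s k S.Ω)⟫_ℂ
        rw [(pair_inner S Q a a' b b' ha hb j j hj).2, (pair_inner S Q a a' b b' ha hb k k hk).2]
      | zero => simp
      | add x y _ _ hx hy =>
        show ⟪S.s j S.Ω, (x + y) (S.s j S.Ω)⟫_ℂ = ⟪S.s k S.Ω, (x + y) (S.s k S.Ω)⟫_ℂ
        rw [_root_.add_apply, _root_.add_apply, inner_add_right,
          inner_add_right, hx, hy]
      | smul c x _ hx =>
        show ⟪S.s j S.Ω, (c • x) (S.s j S.Ω)⟫_ℂ = ⟪S.s k S.Ω, (c • x) (S.s k S.Ω)⟫_ℂ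
        rw [_root_.smul_apply, _root_.smul_apply, inner_smul_right,
          inner_smul_right, hx]
  · intro η hη ζ hζ j hj
    -- generators
    have hgen : ∀ x ∈ G, ∀ y ∈ G, vfn (S.s j S.Ω) (S.s j S.Ω) (x * y) =
        vfn (S.s j S.Ω) (S.s j S.Ω) (y * x) := by
      rintro x ⟨a, a', b, b', ha, hb, rfl⟩ y ⟨c, c', e, e', hc, he, rfl⟩
      have hbc : c * b' = b' * c := (pair_trace S Q c c' b b' hc hb).1
      have hea : a * e' = e' * a := (pair_trace S Q a a' e e' ha he).1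
      have e1 : (a * b') * (c * e') = (a * c) * (b' * e') := by
        calc (a * b') * (c * e') = a * (b' * c) * e' := by simp only [mul_assoc]
          _ = a * (c * b') * e' := by rw [hbc]
          _ = (a * c) * (b' * e') := by simp only [mul_assoc]
      have e2 : (c * e') * (a * b') = (c * a) * (e' * b') := by
        calc (c * e') * (a * b') = c * (e' * a) * b' := by simp only [mul_assoc]
          _ = c * (a * e') * b' := by rw [hea]
          _ = (c * a) * (e' * b') := by simp only [mul_assoc]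
      rw [e1, e2, vfn_apply, vfn_apply,
        (pair_inner S Q (a * c) (c' * a') (e * b) (b' * e') (hmul _ _ _ _ ha hc)
          (hmul _ _ _ _ he hb) j j hj).2,
        (pair_inner S Q (c * a) (a' * c') (b * e) (e' * b') (hmul _ _ _ _ hc ha)
          (hmul _ _ _ _ hb he) j j hj).2,
        (pair_trace S Q a a' c c' ha hc).2, (pair_trace S Q e e' b b' he hb).2]
    have hspan1 : ∀ x ∈ G, ∀ y ∈ Submodule.span ℂ G, vfn (S.s j S.Ω) (S.s j S.Ω) (x * y) =
        vfn (S.s j S.Ω) (S.s j S.Ω) (y * x) := by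
      intro x hx y hy
      induction hy using Submodule.span_induction with
      | mem y hy => exact hgen x hx y hy
      | zero => simp
      | add y z _ _ hy hz => rw [mul_add, add_mul, map_add, map_add, hy, hz]
      | smul c y _ hy => rw [mul_smul_comm, smul_mul_assoc, map_smul, map_smul, hy]
    have hspan2 : ∀ x ∈ Submodule.span ℂ G, ∀ y ∈ Submodule.span ℂ G,
        vfn (S.s j S.Ω) (S.s j S.Ω) (x * y) = vfn (S.s j S.Ω) (S.s j S.Ω) (y * x) := by
      intro x hx y hy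
      induction hx using Submodule.span_induction with
      | mem x hx => exact hspan1 x hx y hy
      | zero => simp
      | add x z _ _ hx hz => rw [mul_add, add_mul, map_add, map_add, hx, hz]
      | smul c x _ hx => rw [mul_smul_comm, smul_mul_assoc, map_smul, map_smul, hx]
    have hcl1 : ∀ x ∈ Submodule.span ℂ G, ∀ y ∈ U0.topologicalClosure,
        vfn (S.s j S.Ω) (S.s j S.Ω) (x * y) = vfn (S.s j S.Ω) (S.s j S.Ω) (y * x) := by
      intro x hx
      refine hcl (fun y => vfn (S.s j S.Ω) (S.s j S.Ω) (x * y) =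
        vfn (S.s j S.Ω) (S.s j S.Ω) (y * x)) ?_ (fun y hy => hspan2 x hx y hy)
      exact isClosed_eq ((vfn (S.s j S.Ω) (S.s j S.Ω)).continuous.comp (continuous_const_mul x))
        ((vfn (S.s j S.Ω) (S.s j S.Ω)).continuous.comp (continuous_mul_const x))
    have hcl2 : ∀ x ∈ U0.topologicalClosure, vfn (S.s j S.Ω) (S.s j S.Ω) (x * ζ) =
        vfn (S.s j S.Ω) (S.s j S.Ω) (ζ * x) := by
      refine hcl (fun x => vfn (S.s j S.Ω) (S.s j S.Ω) (x * ζ) =
        vfn (S.s j S.Ω) (S.s j S.Ω) (ζ * x)) ?_ (fun x hx => hcl1 x hx ζ hζ)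
      exact isClosed_eq ((vfn (S.s j S.Ω) (S.s j S.Ω)).continuous.comp (continuous_mul_const ζ))
        ((vfn (S.s j S.Ω) (S.s j S.Ω)).continuous.comp (continuous_const_mul ζ))
    exact hcl2 η hη

/-! ### Part E: the exact value -/

theorem KTf_sa (T : Fin 3 → (H →L[ℂ] H)) : IsSelfAdjoint (NT T) := by
  unfold NT
  refine IsSelfAdjoint.add (IsSelfAdjoint.one _) ?_
  rw [isSelfAdjoint_iff, star_sum]
  refine Finset.sum_congr rfl fun i _ => ?_
  rw [star_mul, star_star]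

theorem KTf_unit (T : Fin 3 → (H →L[ℂ] H)) : IsUnit (NT T) := by
  have h : (1 : H →L[ℂ] H) ≤ NT T := by
    unfold NT
    refine le_add_of_nonneg_right (Finset.sum_nonneg fun i _ => ?_)
    exact mul_star_self_nonneg (T i)
  exact CStarAlgebra.isUnit_of_le (1 : H →L[ℂ] H) h

theorem KTf_coer (T : Fin 3 → (H →L[ℂ] H)) (w : H) :
    ‖w‖ ^ 2 ≤ (⟪w, NT T w⟫_ℂ).re := by
  have h1 : NT T w = w + ∑ i, T i (star (T i) w) := by
    unfold NT
    simp
  rw [h1, inner_add_right, inner_sum, Complex.add_re, Complex.re_sum]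
  have h2 : (⟪w, w⟫_ℂ).re = ‖w‖ ^ 2 := by
    rw [inner_self_eq_norm_sq_to_K]
    norm_cast
  have h3 : 0 ≤ ∑ i, (⟪w, T i (star (T i) w)⟫_ℂ).re := by
    refine Finset.sum_nonneg fun i _ => ?_
    have h4 : ⟪w, T i (star (T i) w)⟫_ℂ = ⟪star (T i) w, star (T i) w⟫_ℂ := by
      conv_rhs => rw [ContinuousLinearMap.star_eq_adjoint, ContinuousLinearMap.adjoint_inner_left]
      rw [ContinuousLinearMap.star_eq_adjoint]
    have h5 : (⟪star (T i) w, star (T i) w⟫_ℂ).re = ‖star (T i) w‖ ^ 2 := by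
      rw [inner_self_eq_norm_sq_to_K]
      norm_cast
    rw [h4, h5]
    positivity
  linarith

/-- `N_T` is invertible, its inverse is a self-adjoint contraction -/
theorem KT_facts (T : Fin 3 → (H →L[ℂ] H)) :
    IsUnit (NT T) ∧ IsSelfAdjoint (KT T) ∧ ‖KT T‖ ≤ 1 ∧
      NT T * KT T = 1 ∧ KT T * NT T = 1 := by
  have hu := KTf_unit T
  have h1 : NT T * KT T = 1 := Ring.mul_inverse_cancel _ hu
  have h2 : KT T * NT T = 1 := Ring.inverse_mul_cancel _ hu
  refine ⟨hu, ?_, ?_, h1, h2⟩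
  · rw [isSelfAdjoint_iff]
    unfold KT
    rw [← Ring.inverse_star, (KTf_sa T).star_eq]
  · refine ContinuousLinearMap.opNorm_le_bound _ zero_le_one fun v => ?_
    rw [one_mul]
    have h3 : NT T (KT T v) = v := congrArg (fun A : H →L[ℂ] H => A v) h1
    have h4 := KTf_coer T (KT T v)
    rw [h3] at h4
    have h5 : (⟪KT T v, v⟫_ℂ).re ≤ ‖KT T v‖ * ‖v‖ :=
      (Complex.re_le_norm _).trans (norm_inner_le_norm _ _)
    by_contra hcon
    push Not at hcon
    have h6 : 0 < ‖KT T v‖ := lt_of_le_of_lt (norm_nonneg v) hcon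
    nlinarith

/-- `∑_j ‖J_j v‖² = ⟪v, K v⟫`; each `J_j` is a contraction -/
theorem JT_facts (T : Fin 3 → (H →L[ℂ] H)) (v : H) :
    (∑ j, ‖JT T j v‖ ^ 2 = (⟪v, KT T v⟫_ℂ).re) ∧ ∀ j, ‖JT T j v‖ ≤ ‖v‖ := by
  obtain ⟨-, -, hn, hNK, -⟩ := KT_facts T
  have e1 : ∀ i : Fin 3, ‖JT T i.castSucc v‖ ^ 2 =
      (⟪KT T v, T i (star (T i) (KT T v))⟫_ℂ).re := by
    intro i
    have : JT T i.castSucc v = - (star (T i) (KT T v)) := by
      unfold JT
      rw [Fin.snoc_castSucc]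
      rfl
    rw [this, norm_neg, ← ContinuousLinearMap.adjoint_inner_left, ← ContinuousLinearMap.star_eq_adjoint]
    rw [inner_self_eq_norm_sq_to_K]
    norm_cast
  have e2 : ‖JT T (Fin.last 3) v‖ ^ 2 = (⟪KT T v, KT T v⟫_ℂ).re := by
    have : JT T (Fin.last 3) v = KT T v := by
      unfold JT
      rw [Fin.snoc_last]
    rw [this, inner_self_eq_norm_sq_to_K]
    norm_cast
  have e3 : (NT T) (KT T v) = v := by
    have := congrArg (fun A : H →L[ℂ] H => A v) hNK
    simpa using this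
  have hsum : ∑ j, ‖JT T j v‖ ^ 2 = (⟪v, KT T v⟫_ℂ).re := by
    rw [Fin.sum_univ_castSucc, e2]
    simp_rw [e1]
    have h4 : (⟪KT T v, (NT T) (KT T v)⟫_ℂ).re =
        (⟪KT T v, KT T v⟫_ℂ).re + ∑ i, (⟪KT T v, T i (star (T i) (KT T v))⟫_ℂ).re := by
      have : (NT T) (KT T v) = KT T v + ∑ i, T i (star (T i) (KT T v)) := by
        simp [NT, ContinuousLinearMap.sum_apply]
      rw [this, inner_add_right, inner_sum, Complex.add_re, Complex.re_sum]
    rw [add_comm, ← h4, e3]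
    exact inner_re_symm (𝕜 := ℂ) _ _
  refine ⟨hsum, fun j => ?_⟩
  have h5 : ‖JT T j v‖ ^ 2 ≤ ‖v‖ ^ 2 := by
    calc ‖JT T j v‖ ^ 2 ≤ ∑ j, ‖JT T j v‖ ^ 2 :=
          Finset.single_le_sum (f := fun j => ‖JT T j v‖ ^ 2) (fun _ _ => by positivity)
            (Finset.mem_univ j)
      _ = (⟪v, KT T v⟫_ℂ).re := hsum
      _ ≤ ‖v‖ * ‖KT T v‖ := by
          exact re_inner_le_norm (𝕜 := ℂ) v (KT T v)
      _ ≤ ‖v‖ * ‖v‖ := by
          gcongr
          calc ‖KT T v‖ ≤ ‖KT T‖ * ‖v‖ := (KT T).le_opNorm v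
            _ ≤ 1 * ‖v‖ := by gcongr
            _ = ‖v‖ := one_mul _
      _ = ‖v‖ ^ 2 := by ring
  exact (sq_le_sq₀ (norm_nonneg _) (norm_nonneg _)).mp h5

/-- `Ψ_v(J_T q) = Re ⟪q, K q⟫` for `q = v_3 - ∑ T_i v_i` -/
theorem Psi_JT (T : Fin 3 → (H →L[ℂ] H)) (v : Fin 4 → H) (q : H)
    (hq : q = v 3 - ∑ i : Fin 3, T i (v i.castSucc)) :
    Psi v (fun j => JT T j q) = (⟪q, KT T q⟫_ℂ).re := by
  have h1 := (JT_facts T q).1
  have h2 : ∑ j, ⟪v j, JT T j q⟫_ℂ = ⟪q, KT T q⟫_ℂ := by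
    have e1 : JT T (Fin.last 3) = KT T := Fin.snoc_last _ _
    have e2 : ∀ i : Fin 3, JT T i.castSucc = - (star (T i) * KT T) := fun i => Fin.snoc_castSucc _ _ _
    rw [Fin.sum_univ_castSucc, e1]
    simp only [e2]
    have e3 : ∀ i : Fin 3, ⟪v i.castSucc, (-(star (T i) * KT T)) q⟫_ℂ = - ⟪T i (v i.castSucc), KT T q⟫_ℂ := by
      intro i
      rw [ContinuousLinearMap.star_eq_adjoint]
      change ⟪v i.castSucc, -(ContinuousLinearMap.adjoint (T i) (KT T q))⟫_ℂ = _
      rw [inner_neg_right, ContinuousLinearMap.adjoint_inner_right]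
    rw [Finset.sum_congr rfl (fun i _ => e3 i), Finset.sum_neg_distrib, ← sum_inner]
    conv_rhs => rw [hq, inner_sub_left]
    rw [← hq]
    have e4 : v (Fin.last 3) = v 3 := rfl
    rw [e4]
    ring
  unfold Psi
  rw [Finset.sum_sub_distrib, h1, ← Finset.mul_sum, ← Complex.re_sum, h2]
  ring

/-- `K ∈ U` -/
theorem ike_mem (U : StarSubalgebra ℂ (H →L[ℂ] H))
    (hU : IsClosed (U : Set (H →L[ℂ] H))) (T : Fin 3 → (H →L[ℂ] H)) (hT : ∀ i, T i ∈ U) :
    KT T ∈ U := by
  have hN : NT T ∈ U := by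
    unfold NT
    refine add_mem (one_mem U) (sum_mem fun i _ => mul_mem (hT i) (star_mem (hT i)))
  obtain ⟨hu, _, _, _, hKN⟩ := KT_facts T
  have : IsClosed (U : Set (H →L[ℂ] H)) := hU
  have hu' : IsUnit (⟨NT T, hN⟩ : U) := (StarSubalgebra.coe_isUnit U (a := ⟨NT T, hN⟩)).1 hu
  obtain ⟨b, hb⟩ := hu'.exists_right_inv
  have hb' : NT T * (b : H →L[ℂ] H) = 1 := congrArg (Subtype.val) hb
  have h2 : KT T = (b : H →L[ℂ] H) := by
    calc KT T = KT T * (NT T * (b : H →L[ℂ] H)) := by rw [hb', mul_one]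
      _ = (KT T * NT T) * (b : H →L[ℂ] H) := by rw [mul_assoc]
      _ = b := by rw [hKN, one_mul]
  rw [h2]
  exact b.2

theorem ike_adj (T : H →L[ℂ] H) (x y : H) : ⟪T x, y⟫_ℂ = ⟪x, (star T) y⟫_ℂ := by
  rw [ContinuousLinearMap.star_eq_adjoint, ContinuousLinearMap.adjoint_inner_right]

/-- `⟪q, K q⟫ = 1` -/
theorem inner_KT_eq_one (U : StarSubalgebra ℂ (H →L[ℂ] H))
    (hU : IsClosed (U : Set (H →L[ℂ] H))) (T : Fin 3 → (H →L[ℂ] H)) (hT : ∀ i, T i ∈ U)
    (v : Fin 4 → H)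
    (horth : ∀ η ∈ U, ∀ j k, j ≠ k → ⟪v j, η (v k)⟫_ℂ = 0)
    (hconst : ∀ η ∈ U, ∀ j k, ⟪v j, η (v j)⟫_ℂ = ⟪v k, η (v k)⟫_ℂ)
    (htr : ∀ η ∈ U, ∀ ζ ∈ U, ∀ j, ⟪v j, (η * ζ) (v j)⟫_ℂ = ⟪v j, (ζ * η) (v j)⟫_ℂ)
    (hnorm : ‖v 3‖ = 1) (q : H) (hq : q = v 3 - ∑ i : Fin 3, T i (v i.castSucc)) :
    ⟪q, KT T q⟫_ℂ = 1 := by
  have hK : KT T ∈ U := ike_mem U hU T hT
  obtain ⟨_, _, _, _, hKN⟩ := KT_facts T
  set K := KT T with hKdef
  have hne : ∀ i : Fin 3, (3 : Fin 4) ≠ i.castSucc := fun i => (Fin.castSucc_lt_last i).ne'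
  set w : H := ∑ i : Fin 3, T i (v i.castSucc) with hw
  have hKw : K w = ∑ i : Fin 3, (K * T i) (v i.castSucc) := by
    rw [hw, map_sum]
    rfl
  have t1 : ⟪v 3, K w⟫_ℂ = 0 := by
    rw [hKw, inner_sum]
    exact Finset.sum_eq_zero fun i _ => horth _ (mul_mem hK (hT i)) _ _ (hne i)
  have t2 : ⟪w, K (v 3)⟫_ℂ = 0 := by
    rw [hw, sum_inner]
    apply Finset.sum_eq_zero
    intro i _
    rw [ike_adj]
    exact horth (star (T i) * K) (mul_mem (star_mem (hT i)) hK) _ _ (hne i).symm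
  have t3 : ⟪w, K w⟫_ℂ = ∑ i : Fin 3, ⟪v 3, (K * (T i * star (T i))) (v 3)⟫_ℂ := by
    rw [hKw]
    conv_lhs => rw [hw]
    rw [sum_inner]
    apply Finset.sum_congr rfl
    intro i _
    rw [inner_sum, Finset.sum_eq_single i]
    · rw [ike_adj]
      have e1 : (star (T i)) ((K * T i) (v i.castSucc)) =
          (star (T i) * (K * T i)) (v i.castSucc) := rfl
      rw [e1, htr _ (star_mem (hT i)) _ (mul_mem hK (hT i)), mul_assoc]
      exact hconst _ (mul_mem hK (mul_mem (hT i) (star_mem (hT i)))) _ _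
    · intro k _ hki
      rw [ike_adj]
      exact horth (star (T i) * (K * T k)) (mul_mem (star_mem (hT i)) (mul_mem hK (hT k))) _ _
        (fun h => hki (Fin.castSucc_injective 3 h).symm)
    · intro h
      exact absurd (Finset.mem_univ i) h
  have t4 : ⟪v 3, K (v 3)⟫_ℂ + ∑ i : Fin 3, ⟪v 3, (K * (T i * star (T i))) (v 3)⟫_ℂ = 1 := by
    have e1 : K * NT T = K + ∑ i : Fin 3, K * (T i * star (T i)) := by
      unfold NT
      rw [mul_add, mul_one, Finset.mul_sum]
    have e2 : ⟪v 3, (K * NT T) (v 3)⟫_ℂ =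
        ⟪v 3, K (v 3)⟫_ℂ + ∑ i : Fin 3, ⟪v 3, (K * (T i * star (T i))) (v 3)⟫_ℂ := by
      rw [e1]
      have e3 : (K + ∑ i : Fin 3, K * (T i * star (T i))) (v 3) =
          K (v 3) + ∑ i : Fin 3, (K * (T i * star (T i))) (v 3) := by
        rw [add_apply, sum_apply]
      rw [e3, inner_add_right, inner_sum]
    rw [← e2, hKN]
    have e4 : (1 : H →L[ℂ] H) (v 3) = v 3 := rfl
    rw [e4, inner_self_eq_norm_sq_to_K, hnorm]
    simp
  rw [hq, map_sub, inner_sub_left, inner_sub_right, inner_sub_right, t1, t2, t3]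
  linear_combination t4

/-! ### Part F: perturbation -/

theorem norm_JT_sub_le_aux (T T' : Fin 3 → (H →L[ℂ] H)) (A δ : ℝ) (hA : 1 ≤ A)
    (hT : ∀ i, ‖T i‖ ≤ A) (hT' : ∀ i, ‖T' i‖ ≤ A) (hd : ∀ i, ‖T i - T' i‖ ≤ δ) :
    ‖KT T - KT T'‖ ≤ 6 * A * δ := by
  obtain ⟨-, -, k1, k2, k3⟩ := KT_facts T
  obtain ⟨-, -, l1, l2, l3⟩ := KT_facts T'
  have hδ : 0 ≤ δ := (norm_nonneg _).trans (hd 0)
  have e1 : KT T - KT T' = KT T * (NT T' - NT T) * KT T' := by
    rw [mul_sub, sub_mul, mul_assoc, l2, mul_one, k3, one_mul]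
  have e2 : NT T' - NT T = ∑ i, (T' i * star (T' i) - T i * star (T i)) := by
    unfold NT
    rw [Finset.sum_sub_distrib]
    abel
  have e3 : ∀ i, ‖T' i * star (T' i) - T i * star (T i)‖ ≤ 2 * A * δ := by
    intro i
    have h1 : T' i * star (T' i) - T i * star (T i) =
        -((T i - T' i) * star (T i) + T' i * star (T i - T' i)) := by
      rw [star_sub]
      noncomm_ring
    rw [h1, norm_neg]
    calc ‖(T i - T' i) * star (T i) + T' i * star (T i - T' i)‖
        ≤ ‖(T i - T' i) * star (T i)‖ + ‖T' i * star (T i - T' i)‖ := norm_add_le _ _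
      _ ≤ ‖T i - T' i‖ * ‖star (T i)‖ + ‖T' i‖ * ‖star (T i - T' i)‖ :=
          add_le_add (norm_mul_le _ _) (norm_mul_le _ _)
      _ = ‖T i - T' i‖ * ‖T i‖ + ‖T' i‖ * ‖T i - T' i‖ := by rw [norm_star, norm_star]
      _ ≤ δ * A + A * δ := add_le_add
          (mul_le_mul (hd i) (hT i) (norm_nonneg _) hδ)
          (mul_le_mul (hT' i) (hd i) (norm_nonneg _) (by linarith))
      _ = 2 * A * δ := by ring
  have e4 : ‖NT T' - NT T‖ ≤ 6 * A * δ := by
    rw [e2]
    calc ‖∑ i, (T' i * star (T' i) - T i * star (T i))‖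
        ≤ ∑ i, ‖T' i * star (T' i) - T i * star (T i)‖ := norm_sum_le _ _
      _ ≤ ∑ _i : Fin 3, 2 * A * δ := Finset.sum_le_sum fun i _ => e3 i
      _ = 6 * A * δ := by
          rw [Finset.sum_const, Finset.card_univ, Fintype.card_fin, nsmul_eq_mul]
          push_cast
          ring
  rw [e1]
  calc ‖KT T * (NT T' - NT T) * KT T'‖ ≤ ‖KT T * (NT T' - NT T)‖ * ‖KT T'‖ := norm_mul_le _ _
    _ ≤ ‖KT T * (NT T' - NT T)‖ * 1 := mul_le_mul_of_nonneg_left l1 (norm_nonneg _)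
    _ = ‖KT T * (NT T' - NT T)‖ := mul_one _
    _ ≤ ‖KT T‖ * ‖NT T' - NT T‖ := norm_mul_le _ _
    _ ≤ 1 * ‖NT T' - NT T‖ := mul_le_mul_of_nonneg_right k1 (norm_nonneg _)
    _ = ‖NT T' - NT T‖ := one_mul _
    _ ≤ 6 * A * δ := e4

/-- `T ↦ J_T` is Lipschitz -/
theorem norm_JT_sub_le (T T' : Fin 3 → (H →L[ℂ] H)) (A δ : ℝ) (hA : 1 ≤ A)
    (hT : ∀ i, ‖T i‖ ≤ A) (hT' : ∀ i, ‖T' i‖ ≤ A) (hd : ∀ i, ‖T i - T' i‖ ≤ δ) (j : Fin 4) :
    ‖JT T j - JT T' j‖ ≤ 7 * A ^ 2 * δ := by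
  have hδ : 0 ≤ δ := (norm_nonneg _).trans (hd 0)
  have hK := norm_JT_sub_le_aux T T' A δ hA hT hT' hd
  obtain ⟨-, -, k1, -, -⟩ := KT_facts T
  refine Fin.lastCases ?_ (fun i => ?_) j
  · have h1 : ∀ T : Fin 3 → (H →L[ℂ] H), JT T (Fin.last 3) = KT T := by
      intro T
      unfold JT
      rw [Fin.snoc_last]
    rw [h1, h1]
    refine hK.trans ?_
    nlinarith [mul_nonneg (mul_nonneg (by linarith : (0:ℝ) ≤ A) (by linarith : (0:ℝ) ≤ A - 1)) hδ,
      mul_nonneg (by linarith : (0:ℝ) ≤ A) hδ]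
  · have h1 : ∀ T : Fin 3 → (H →L[ℂ] H), JT T (Fin.castSucc i) = -(star (T i) * KT T) := by
      intro T
      unfold JT
      rw [Fin.snoc_castSucc]
    rw [h1, h1]
    have e1 : -(star (T i) * KT T) - -(star (T' i) * KT T') =
        -(star (T i - T' i) * KT T + star (T' i) * (KT T - KT T')) := by
      rw [star_sub]
      noncomm_ring
    rw [e1, norm_neg]
    calc ‖star (T i - T' i) * KT T + star (T' i) * (KT T - KT T')‖
        ≤ ‖star (T i - T' i) * KT T‖ + ‖star (T' i) * (KT T - KT T')‖ := norm_add_le _ _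
      _ ≤ ‖star (T i - T' i)‖ * ‖KT T‖ + ‖star (T' i)‖ * ‖KT T - KT T'‖ :=
          add_le_add (norm_mul_le _ _) (norm_mul_le _ _)
      _ = ‖T i - T' i‖ * ‖KT T‖ + ‖T' i‖ * ‖KT T - KT T'‖ := by rw [norm_star, norm_star]
      _ ≤ δ * 1 + A * (6 * A * δ) := add_le_add
          (mul_le_mul (hd i) k1 (norm_nonneg _) hδ)
          (mul_le_mul (hT' i) hK (norm_nonneg _) (by linarith))
      _ ≤ 7 * A ^ 2 * δ := by
          nlinarith [mul_nonneg (by nlinarith : (0:ℝ) ≤ A ^ 2 - 1) hδ]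

/-- perturbation of `Ψ` -/
theorem Psi_perturb (v X X0 : Fin 4 → H) (B κ : ℝ) (hv : ∀ j, ‖v j‖ ≤ 2)
    (hX0 : ∀ j, ‖X0 j‖ ≤ B) (hd : ∀ j, ‖X j - X0 j‖ ≤ κ) :
    Psi v X0 - 4 * (4 + 2 * B + κ) * κ ≤ Psi v X := by
  have hκ : 0 ≤ κ := (norm_nonneg _).trans (hd 0)
  have hterm : ∀ j, (2 * (⟪v j, X0 j⟫_ℂ).re - ‖X0 j‖ ^ 2) - (4 + 2 * B + κ) * κ ≤
      2 * (⟪v j, X j⟫_ℂ).re - ‖X j‖ ^ 2 := by
    intro j
    have h1 : (⟪v j, X j⟫_ℂ).re = (⟪v j, X0 j⟫_ℂ).re + (⟪v j, X j - X0 j⟫_ℂ).re := by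
      rw [inner_sub_right, Complex.sub_re]
      ring
    have h2 : -(2 * κ) ≤ (⟪v j, X j - X0 j⟫_ℂ).re := by
      have h3 := (abs_le.1 (Complex.abs_re_le_norm (⟪v j, X j - X0 j⟫_ℂ))).1
      have h4 := norm_inner_le_norm (𝕜 := ℂ) (v j) (X j - X0 j)
      have h5 : ‖v j‖ * ‖X j - X0 j‖ ≤ 2 * κ :=
        mul_le_mul (hv j) (hd j) (norm_nonneg _) (by norm_num)
      linarith
    have h6 : ‖X j‖ ≤ ‖X0 j‖ + κ := by
      have h7 : X j = X0 j + (X j - X0 j) := by abel
      calc ‖X j‖ = ‖X0 j + (X j - X0 j)‖ := by rw [← h7]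
        _ ≤ ‖X0 j‖ + ‖X j - X0 j‖ := norm_add_le _ _
        _ ≤ _ := by linarith [hd j]
    have h8 : ‖X j‖ ^ 2 ≤ (‖X0 j‖ + κ) ^ 2 := pow_le_pow_left₀ (norm_nonneg _) h6 2
    have h9 : ‖X0 j‖ * κ ≤ B * κ := mul_le_mul_of_nonneg_right (hX0 j) hκ
    rw [h1]
    nlinarith
  unfold Psi
  have h := Finset.sum_le_sum (fun j (_ : j ∈ (Finset.univ : Finset (Fin 4))) => hterm j)
  rw [Finset.sum_sub_distrib, Finset.sum_const, Finset.card_univ, Fintype.card_fin] at h
  simp only [nsmul_eq_mul, Nat.cast_ofNat] at h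
  linarith

/-! ### Part G: projections -/

/-- a self-adjoint operator leaving a closed subspace invariant commutes with the projection -/
theorem commute_proj (V : Submodule ℂ H) [V.HasOrthogonalProjection] (a : H →L[ℂ] H)
    (ha : IsSelfAdjoint a) (h : ∀ v ∈ V, a v ∈ V) :
    a * V.starProjection = V.starProjection * a := by
  apply ContinuousLinearMap.ext
  intro w
  change a (V.starProjection w) = V.starProjection (a w)
  symm
  apply Submodule.eq_starProjection_of_mem_orthogonal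
  · exact h _ (Submodule.starProjection_apply_mem V w)
  · rw [Submodule.mem_orthogonal]
    intro u hu
    rw [← map_sub]
    have h1 : ⟪u, a (w - V.starProjection w)⟫_ℂ = ⟪a u, w - V.starProjection w⟫_ℂ := by
      conv_rhs => rw [← ha.star_eq]
      rw [ContinuousLinearMap.star_eq_adjoint, ContinuousLinearMap.adjoint_inner_left]
    rw [h1]
    exact (Submodule.mem_orthogonal V _).1 (Submodule.sub_starProjection_mem_orthogonal w) _ (h u hu)

theorem L2_inv_aux {n : ℕ} (Ω : H) (y : Fin n → (H →L[ℂ] H)) (a : H →L[ℂ] H)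
    (h : ∀ w : List (Fin n), a (wd y w Ω) ∈
      Submodule.span ℂ (Set.range fun w : List (Fin n) => wd y w Ω)) :
    ∀ v ∈ L2 Ω y, a v ∈ L2 Ω y := by
  intro v hv
  have h1 : L2 Ω y ≤ (L2 Ω y).comap (a : H →ₗ[ℂ] H) := by
    refine Submodule.topologicalClosure_minimal _ ?_ ?_
    · rw [Submodule.span_le]
      rintro _ ⟨w, rfl⟩
      exact Submodule.le_topologicalClosure _ (h w)
    · exact (Submodule.isClosed_topologicalClosure _).preimage a.continuous
  exact h1 hv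

/-- `L²(x)` is invariant under left multiplication by `x_i` and under every operator that
commutes with the `x_j` and coincides with `x_i` on the vacuum; it contains the vacuum -/
theorem L2_invariant {n : ℕ} (Ω : H) (y : Fin n → (H →L[ℂ] H)) :
    Ω ∈ L2 Ω y ∧ (∀ i, ∀ v ∈ L2 Ω y, y i v ∈ L2 Ω y) ∧
    ∀ (a' : H →L[ℂ] H) (i : Fin n), (∀ j, a' * y j = y j * a') → a' Ω = y i Ω →
      ∀ v ∈ L2 Ω y, a' v ∈ L2 Ω y := by
  have hw : ∀ w : List (Fin n), wd y w Ω ∈
      Submodule.span ℂ (Set.range fun w : List (Fin n) => wd y w Ω) :=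
    fun w => Submodule.subset_span ⟨w, rfl⟩
  refine ⟨?_, ?_, ?_⟩
  · have := Submodule.le_topologicalClosure _ (hw [])
    have h0 : wd y [] Ω = Ω := by simp [wd]
    rw [h0] at this
    exact this
  · intro i
    apply L2_inv_aux
    intro w
    have : y i (wd y w Ω) = wd y (i :: w) Ω := by simp [wd]
    rw [this]
    exact hw _
  · intro a' i hc ha
    apply L2_inv_aux
    intro w
    have hcw : a' * wd y w = wd y w * a' := by
      induction w with
      | nil => simp [wd]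
      | cons j w ih =>
        have e : wd y (j :: w) = y j * wd y w := by simp [wd]
        rw [e, ← mul_assoc, hc, mul_assoc, ih, mul_assoc]
    have : a' (wd y w Ω) = wd y (w ++ [i]) Ω := by
      have h1 : a' (wd y w Ω) = (a' * wd y w) Ω := rfl
      rw [h1, hcw]
      show wd y w (a' Ω) = _
      rw [ha]
      simp [wd]
    rw [this]
    exact hw _

theorem proj_15745 (K : Submodule ℂ H) [K.HasOrthogonalProjection] (u v : H) (hv : v ∈ K) :
    2 * (⟪u, v⟫_ℂ).re - ‖v‖ ^ 2 ≤ ‖K.starProjection u‖ ^ 2 := by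
  have h1 : ⟪K.starProjection u, v⟫_ℂ = ⟪u, v⟫_ℂ := by
    rw [Submodule.inner_starProjection_left_eq_right, Submodule.starProjection_eq_self_iff.2 hv]
  have h2 := norm_sub_sq (𝕜 := ℂ) (K.starProjection u) v
  rw [h1] at h2
  have h3 : RCLike.re (⟪u, v⟫_ℂ) = (⟪u, v⟫_ℂ).re := rfl
  rw [h3] at h2
  have h6 := sq_nonneg ‖K.starProjection u - v‖
  linarith

/-- `Ψ_v(X) ≤ ∑ ‖P v_j‖²` for `X_j` in the range of `P` -/
theorem Psi_le_proj (V : Submodule ℂ H) [V.HasOrthogonalProjection] (v X : Fin 4 → H)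
    (hX : ∀ j, X j ∈ V) : Psi v X ≤ ∑ j, ‖V.starProjection (v j)‖ ^ 2 :=
  Finset.sum_le_sum fun j _ => proj_15745 V (v j) (X j) (hX j)

/-- an operator commuting with the projection onto `V` maps `V` into `V`; in particular this holds
for the Cayley transform of a self-adjoint operator leaving `V` invariant, and such operators form
a *-algebra -/
theorem exists_proj_algebra (V : Submodule ℂ H) [V.HasOrthogonalProjection] :
    ∃ U : StarSubalgebra ℂ (H →L[ℂ] H), IsClosed (U : Set (H →L[ℂ] H)) ∧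
      (∀ a ∈ U, ∀ v ∈ V, a v ∈ V) ∧ (∀ a ∈ U, IsUnit a → Ring.inverse a ∈ U) ∧
      (∀ a : H →L[ℂ] H, IsSelfAdjoint a → (∀ v ∈ V, a v ∈ V) → a ∈ U ∧ cay a ∈ U) := by
  classical
  set P : H →L[ℂ] H := V.starProjection with hP
  have hPsa : star P = P := by
    rw [ContinuousLinearMap.star_eq_adjoint]
    exact (isSelfAdjoint_starProjection V)
  have hmem : ∀ a : H →L[ℂ] H, a ∈ StarSubalgebra.centralizer ℂ ({P} : Set (H →L[ℂ] H)) ↔
      P * a = a * P := by
    intro a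
    rw [StarSubalgebra.mem_centralizer_iff]
    constructor
    · intro h
      exact (h P rfl).1
    · intro h g hg
      have hg' : g = P := hg
      subst hg'
      rw [hPsa]
      exact ⟨h, h⟩
  have hinv : ∀ a : H →L[ℂ] H, P * a = a * P → IsUnit a → P * Ring.inverse a = Ring.inverse a * P := by
    intro a h hu
    have h1 := Ring.mul_inverse_cancel a hu
    have h2 := Ring.inverse_mul_cancel a hu
    calc P * Ring.inverse a = (Ring.inverse a * a) * (P * Ring.inverse a) := by rw [h2, one_mul]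
      _ = Ring.inverse a * (a * P) * Ring.inverse a := by simp only [mul_assoc]
      _ = Ring.inverse a * (P * a) * Ring.inverse a := by rw [h]
      _ = Ring.inverse a * P * (a * Ring.inverse a) := by simp only [mul_assoc]
      _ = Ring.inverse a * P := by rw [h1, mul_one]
  refine ⟨StarSubalgebra.centralizer ℂ ({P} : Set (H →L[ℂ] H)), ?_, ?_, ?_, ?_⟩
  · have : (StarSubalgebra.centralizer ℂ ({P} : Set (H →L[ℂ] H)) : Set (H →L[ℂ] H)) =
        {a | P * a = a * P} := by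
      ext a
      exact hmem a
    rw [this]
    exact isClosed_eq (continuous_const.mul continuous_id) (continuous_id.mul continuous_const)
  · intro a ha v hv
    rw [hmem] at ha
    have h1 : P v = v := Submodule.starProjection_eq_self_iff.2 hv
    have h2 : P (a v) = a (P v) := by
      have := congrArg (fun f : H →L[ℂ] H => f v) ha
      exact this
    rw [h1] at h2
    exact Submodule.starProjection_eq_self_iff.1 h2
  · intro a ha hu
    rw [hmem] at ha ⊢
    exact hinv a ha hu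
  · intro a ha hV
    have h1 := commute_proj V a ha hV
    rw [hmem, hmem]
    refine ⟨h1.symm, ?_⟩
    have hu := (cay_facts a ha).1
    have h2 : P * (a - al • (1 : H →L[ℂ] H)) = (a - al • (1 : H →L[ℂ] H)) * P := by
      rw [mul_sub, sub_mul, ← h1, mul_smul_comm, smul_mul_assoc, mul_one, one_mul]
    have h3 : P * (a + al • (1 : H →L[ℂ] H)) = (a + al • (1 : H →L[ℂ] H)) * P := by
      rw [mul_add, add_mul, ← h1, mul_smul_comm, smul_mul_assoc, mul_one, one_mul]
    unfold cay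
    rw [← mul_assoc, h3, mul_assoc, hinv _ h2 hu, mul_assoc]

end Low
end Pool.Agent.Helper38.FE
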