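import Pool.Agent.Helper38.FE.Up
import Pool.Agent.Helper38.FE.Fock
import Pool.Agent.Helper38.FE.Ana2

/-! MODULE I: final analysis. -/

open MeasureTheory Filter Topology ProbabilityTheory
open scoped InnerProductSpace ENNReal

namespace Pool.Agent.Helper38.FE

variable {H : Type} [NormedAddCommGroup H] [InnerProductSpace ℂ H] [CompleteSpace H]

theorem gval_nonneg {n : ℕ} (Ω : H) (x s : Fin n → (H →L[ℂ] H)) (t : ℝ) : 0 ≤ gval Ω x s t :=
  Finset.sum_nonneg fun _ _ => by positivity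

/-- I1: the logarithmic average of `g` computes `χ*`. -/
theorem chi_formula (S : FS I0 H) (xl : H →L[ℂ] H) (hx : xl ∈ S.Ab) (hs : IsSelfAdjoint xl) :
    ∃ C : ℝ, ∀ t : ℝ, 0 < t → t ≤ 1 →
      |chiStar S.Ω (pert (S.tup xl) S.n1 t) S.n2 +
        (1 / 2) * ∫ u in t..1, gval S.Ω (S.tup xl) S.n1 u / u| ≤ C := by
  obtain ⟨C, hC⟩ := chi_real (fun u => gval S.Ω (S.tup xl) S.n1 u) (3 + ‖xl‖ ^ 2) (by positivity)
    (gval_measurable _ _ _) (fun t _ => S.gval_le xl t) (fun t ht => S.gval_ge xl hx hs t ht)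
  refine ⟨C, fun t ht h1 => ?_⟩
  have h := hC t ht h1
  have e : chiStar S.Ω (pert (S.tup xl) S.n1 t) S.n2 =
      (1 / 2) * (∫ u in Set.Ioi (0 : ℝ), (4 / (1 + u) -
        gval S.Ω (S.tup xl) S.n1 (t + u) / (t + u))) +
        4 / 2 * Real.log (2 * Real.pi * Real.exp 1) := by
    unfold chiStar
    congr 2
    · refine setIntegral_congr_fun measurableSet_Ioi fun u hu => ?_
      have hu' : (0 : ℝ) < u := hu
      show ((4 : ℕ) : ℝ) / (1 + u) - _ = _
      rw [S.PhiStar_add xl hx hs t u ht hu', S.PhiStar_eq xl hx hs (t + u) (by positivity),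
        ENNReal.toReal_ofReal (div_nonneg (gval_nonneg _ _ _ _) (by positivity))]
      norm_num
  rw [e]
  exact h

/-- integrability of `g(u)/u` away from zero -/
theorem gval_int (S : FS I0 H) (xl : H →L[ℂ] H) (t : ℝ) (ht : 0 < t) (h1 : t ≤ 1) :
    IntervalIntegrable (fun u => gval S.Ω (S.tup xl) S.n1 u / u) volume t 1 := by
  rw [intervalIntegrable_iff_integrableOn_Ioc_of_le h1]
  refine Measure.integrableOn_of_bounded (M := 4 / t) (by simp) ?_ ?_
  · exact ((gval_measurable _ _ _).div measurable_id).aestronglyMeasurable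
  · filter_upwards [ae_restrict_mem measurableSet_Ioc] with u hu
    have hu0 : 0 < u := lt_trans ht hu.1
    rw [Real.norm_eq_abs, abs_of_nonneg (div_nonneg (gval_nonneg _ _ _ _) hu0.le)]
    gcongr
    · exact S.gval_le xl u
    · exact hu.1.le

/-- splitting off the first `k` terms of the last variable -/
theorem FS.xl_split (S : FS I0 H) (r : ℕ → ℝ) (b : ℕ → List (Fin 3)) (hr : ∀ j, 0 ≤ r j)
    (hs : Summable r) (k : ℕ) : ∃ e : H →L[ℂ] H, IsSelfAdjoint e ∧ e ∈ S.Ab ∧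
      ‖e‖ ≤ 2 * ∑' j, r (k + j) ∧
      S.xl r b = (∑ j ∈ Finset.range k, ((r j : ℝ) : ℂ) • Fb (b j) S.xb) + e := by
  have hsk : ∀ k, Summable fun j => r (k + j) := fun k => by
    simpa [add_comm] using (summable_nat_add_iff k).2 hs
  have hn : ∀ k j, ‖((r (k + j) : ℝ) : ℂ) • Fb (b (k + j)) S.xb‖ ≤ r (k + j) * 2 := by
    intro k j
    rw [norm_smul, Complex.norm_real, Real.norm_eq_abs, abs_of_nonneg (hr _)]
    exact mul_le_mul_of_nonneg_left (S.Fb_mem _).2.2 (hr _)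
  have hsum : ∀ k, Summable fun j => ((r (k + j) : ℝ) : ℂ) • Fb (b (k + j)) S.xb := fun k =>
    Summable.of_norm_bounded ((hsk k).mul_right 2) (hn k)
  have hsum0 : Summable fun j => ((r j : ℝ) : ℂ) • Fb (b j) S.xb := by simpa using hsum 0
  refine ⟨∑' j, ((r (k + j) : ℝ) : ℂ) • Fb (b (k + j)) S.xb, ?_, ?_, ?_, ?_⟩
  · have : star (∑' j, ((r (k + j) : ℝ) : ℂ) • Fb (b (k + j)) S.xb) =
        ∑' j, star (((r (k + j) : ℝ) : ℂ) • Fb (b (k + j)) S.xb) := by
      exact tsum_star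
    show star _ = _
    rw [this]
    refine tsum_congr fun j => ?_
    rw [star_smul, (S.Fb_mem _).2.1.star_eq]
    simp
  · have hcl : IsClosed (S.Ab : Set (H →L[ℂ] H)) := StarSubalgebra.isClosed_topologicalClosure _
    refine hcl.mem_of_tendsto (hsum k).hasSum.tendsto_sum_nat (Eventually.of_forall fun n => ?_)
    exact sum_mem fun j _ => S.Ab.smul_mem (S.Fb_mem _).1 _
  · calc ‖∑' j, ((r (k + j) : ℝ) : ℂ) • Fb (b (k + j)) S.xb‖ ≤ ∑' j, r (k + j) * 2 :=
          tsum_of_norm_bounded ((hsk k).mul_right 2).hasSum (hn k)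
      _ = 2 * ∑' j, r (k + j) := by rw [tsum_mul_right, mul_comm]
  · unfold FS.xl
    rw [← hsum0.sum_add_tsum_nat_add k]
    congr 1
    exact tsum_congr fun j => by rw [add_comm]


/-- `xl` is a self-adjoint element of the norm closed algebra of the base variables -/
theorem FS.xl_mem (S : FS I0 H) (r : ℕ → ℝ) (b : ℕ → List (Fin 3)) (hr : ∀ j, 0 ≤ r j)
    (hs : Summable r) : S.xl r b ∈ S.Ab ∧ IsSelfAdjoint (S.xl r b) := by
  obtain ⟨e, h1, h2, -, h4⟩ := S.xl_split r b hr hs 0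
  rw [h4]
  simpa using ⟨h2, h1⟩

/-- I3: choice of the parameters. -/
theorem exists_params (S : FS I0 H) : ∃ (r : ℕ → ℝ) (b : ℕ → List (Fin 3)),
    (∀ j, 0 ≤ r j) ∧ Summable r ∧ ∃ c : ℝ, 0 < c ∧
    (∀ᶠ t in 𝓝[>] (0 : ℝ), ∫ u in t..1, gval S.Ω (S.tup (S.xl r b)) S.n1 u / u ≤
      (1 - c) * Real.log (1 / t)) ∧
    ∃ tk ek : ℕ → ℝ, (∀ k, 0 < tk k) ∧ Tendsto tk atTop (𝓝 0) ∧ Tendsto ek atTop (𝓝 0) ∧
      ∀ k, 1 - ek k ≤ gval S.Ω (S.tup (S.xl r b)) S.n1 (tk k) := by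
  obtain ⟨C4, CD, Cb, h4, hD, hb, hw⟩ := words_good
  obtain ⟨c₁, hc₁, C₂, hC₂, hU⟩ := upper_bound (H := H) C4 CD Cb h4 hD hb
  obtain ⟨CH, hCH, hL⟩ := lower_bound S
  obtain ⟨m, r, hm0, hm, hr0, hr, hsum, htail, htot, hC2c, tk, ek, Mk, htk, htk0, hek, hMk,
    hMk', hkey⟩ := params_seq (max C₂ 1) (max CH 1) (le_max_right _ _) (le_max_right _ _)
  have hm1 : ∀ k, 1 ≤ m k := by
    intro k
    induction k with
    | zero => omega
    | succ k ih => rw [hm]; exact Nat.one_le_pow _ _ ih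
  have hrpos : ∀ k, 0 < r k := by
    intro k
    cases k with
    | zero => rw [hr0]; norm_num
    | succ k =>
      rw [hr]
      have : (0 : ℝ) < m k := by exact_mod_cast hm1 k
      positivity
  choose bw hbw using hw
  let b : ℕ → List (Fin 3) := fun k => bw (m k) (hm1 k)
  have hbg : ∀ k, GoodWord C4 CD Cb (m k) (b k) := fun k => hbw (m k) (hm1 k)
  have hlen : ∀ k, ((b k).length : ℝ) = 2 * (m k : ℝ) := fun k => by
    rw [(hbg k).1]; push_cast; ring
  refine ⟨r, b, fun j => (hrpos j).le, hsum, ?_⟩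
  obtain ⟨c, hc, hcU⟩ := params_upper c₁ C₂ (4 * Real.log (2 + 2 ^ 2)) hc₁ hC₂ m r hm0 hm hr htail
    (fun u => gval S.Ω (S.tup (S.xl r b)) S.n1 u) (fun t _ => gval_nonneg _ _ _ _)
    (fun t _ => S.gval_le _ t) (fun t ht h1 => gval_int S _ t ht h1)
    (fun k i₀ i₁ t ht h1 h2 h3 h4' h5 => by
      have := (hU S r b k (m k) i₀ i₁ t 2 (fun j => (hrpos j).le) hsum (by linarith) (hrpos k)
        (hm1 k) (hbg k) ?_ ht h1 h2 h3 h4' h5).2
      · exact this
      · refine le_trans ?_ (hC2c k)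
        simp only [hlen]
        gcongr
        exact le_max_left _ _)
  refine ⟨c, hc, hcU, tk, ek, fun k => (htk k).1, htk0, hek, fun k => ?_⟩
  obtain ⟨e, he1, he2, he3, he4⟩ := S.xl_split r b (fun j => (hrpos j).le) hsum (k + 1)
  have h := hL (k + 1) r b e (Mk k) (2 * ∑' j, r (k + 1 + j)) (tk k) he1 he2 he3 (hMk k) ?_
    (htk k).1 (htk k).2
  · rw [← he4] at h
    refine le_trans ?_ h
    have h2 := hkey k
    have h3 : CH * Mk k ^ 6 * (√(tk k) + 2 * (∑' j, r (k + 1 + j)) / √(tk k)) ≤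
        max CH 1 * Mk k ^ 6 * (√(tk k) + 2 * (∑' j, r (k + 1 + j)) / √(tk k)) := by
      have : 0 ≤ ∑' j, r (k + 1 + j) := tsum_nonneg fun j => (hrpos _).le
      gcongr
      exact le_max_left _ _
    linarith
  · refine le_trans (le_of_eq ?_) (hMk' k)
    refine Finset.sum_congr rfl fun j _ => ?_
    rw [abs_of_pos (hrpos j), hlen]

/-- Final theorem: the two non-microstates free entropy dimensions differ. -/
theorem final : ∃ (H : Type) (_ : NormedAddCommGroup H) (_ : InnerProductSpace ℂ H)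
    (_ : CompleteSpace H) (M : VonNeumannAlgebra H) (Ω : H) (x : Fin 4 → (H →L[ℂ] H))
    (s : Fin 4 ⊕ Fin 4 → (H →L[ℂ] H)),
    TracialSpace M Ω ∧ (∀ i, x i ∈ M ∧ IsSelfAdjoint (x i)) ∧ (∀ i, s i ∈ M) ∧
    IsFreeSemi Ω x s ∧
    (∀ t : ℝ, 0 < t → PhiStar Ω (pert x (fun j => s (Sum.inl j)) t) ≠ ⊤) ∧
    (∀ t u : ℝ, 0 < t → 0 < u →
      PhiStar Ω (pert (pert x (fun j => s (Sum.inl j)) t) (fun j => s (Sum.inr j)) u) ≠ ⊤) ∧
    (∀ t : ℝ, 0 < t → IntegrableOn (fun u : ℝ => 4 / (1 + u) -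
      (PhiStar Ω (pert (pert x (fun j => s (Sum.inl j)) t) (fun j => s (Sum.inr j)) u)).toReal)
      (Set.Ioi 0)) ∧
    deltaStar Ω x (fun j => s (Sum.inl j)) (fun j => s (Sum.inr j)) ≠
      deltaFive Ω x (fun j => s (Sum.inl j)) := by
  obtain ⟨H, _, _, _, ⟨S⟩⟩ := exists_FS I0
  obtain ⟨M, hM, hMd⟩ := S.exists_vN
  obtain ⟨r, b, hr, hsum, c, hc, hup, tk, ek, htk, htk0, hek, hlow⟩ := exists_params S
  obtain ⟨hxm, hxs⟩ := S.xl_mem r b hr hsum
  obtain ⟨C, hC⟩ := chi_formula S (S.xl r b) hxm hxs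
  have hsM : ∀ i, S.s i ∈ M := fun i => (hMd _).2 fun j => S.comm i j
  have hAb : ∀ a ∈ S.Ab, a ∈ M := fun a ha => (hMd _).2 fun j => S.Ab_comm a ha j
  refine ⟨H, inferInstance, inferInstance, inferInstance, M, S.Ω, S.tup (S.xl r b),
    fun j => S.s (Sum.inr j), hM, ?_, fun i => hsM _, S.isFreeSemi _ hxm, ?_, ?_, ?_, ?_⟩
  · intro i
    refine Fin.lastCases ?_ (fun j => ?_) i
    · simpa [FS.tup] using ⟨hAb _ hxm, hxs⟩
    · simpa [FS.tup, FS.xb] using ⟨hsM _, S.s_sa _⟩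
  · intro t ht
    have := S.PhiStar_eq _ hxm hxs t ht
    unfold FS.n1 at this
    rw [this]
    exact ENNReal.ofReal_ne_top
  · intro t u ht hu
    have h1 := S.PhiStar_add _ hxm hxs t u ht hu
    have h2 := S.PhiStar_eq _ hxm hxs (t + u) (by positivity)
    rw [h2] at h1
    unfold FS.n1 FS.n2 at h1
    rw [h1]
    exact ENNReal.ofReal_ne_top
  · intro t ht
    refine (chi_integrable (fun u => gval S.Ω (S.tup (S.xl r b)) S.n1 u) (3 + ‖S.xl r b‖ ^ 2)
      (by positivity) (gval_measurable _ _ _) (fun t _ => S.gval_le _ t)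
      (fun t ht => S.gval_ge _ hxm hxs t ht) t ht).congr_fun (fun u hu => ?_) measurableSet_Ioi
    have hu' : (0 : ℝ) < u := hu
    have h1 := S.PhiStar_add _ hxm hxs t u ht hu'
    have h2 := S.PhiStar_eq _ hxm hxs (t + u) (by positivity)
    rw [h2] at h1
    have h3 : (PhiStar S.Ω (pert (pert (S.tup (S.xl r b)) S.n1 t) S.n2 u)).toReal =
        gval S.Ω (S.tup (S.xl r b)) S.n1 (t + u) / (t + u) := by
      rw [h1, ENNReal.toReal_ofReal (div_nonneg (gval_nonneg _ _ _ _) (by positivity))]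
    unfold FS.n1 FS.n2 at h3
    unfold FS.n1
    simp only
    rw [h3]
  · have key := final_real (fun u => gval S.Ω (S.tup (S.xl r b)) S.n1 u)
      (fun t => chiStar S.Ω (pert (S.tup (S.xl r b)) S.n1 t) S.n2) C c hc
      (fun t _ => gval_nonneg _ _ _ _) hC hup tk ek htk htk0 hek hlow
    have h5 : deltaFive S.Ω (S.tup (S.xl r b)) S.n1 = (4 : EReal) -
        limsup (fun t : ℝ => ((gval S.Ω (S.tup (S.xl r b)) S.n1 t : ℝ) : EReal)) (𝓝[>] 0) := by
      unfold deltaFive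
      congr 1
      apply limsup_congr
      filter_upwards [self_mem_nhdsWithin] with t ht
      have ht' : (0 : ℝ) < t := ht
      rw [S.PhiStar_eq _ hxm hxs t ht', ENNReal.toReal_ofReal]
      · field_simp
      · exact div_nonneg (gval_nonneg _ _ _ _) ht'.le
    have h6 : deltaStar S.Ω (S.tup (S.xl r b)) S.n1 S.n2 = (4 : EReal) -
        limsup (fun t : ℝ => ((chiStar S.Ω (pert (S.tup (S.xl r b)) S.n1 t) S.n2 /
          Real.log (t ^ (1 / 2 : ℝ)) : ℝ) : EReal)) (𝓝[>] 0) := by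
      unfold deltaStar
      norm_num
    have : deltaStar S.Ω (S.tup (S.xl r b)) S.n1 S.n2 ≠ deltaFive S.Ω (S.tup (S.xl r b)) S.n1 := by
      rw [h5, h6]; exact key
    exact this

end Pool.Agent.Helper38.FE
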