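import Pool.Agent.Helper38.FE.Pub

/-!
# The two non-microstates free entropy dimensions, with `liminf` instead of `limsup`
-/

open MeasureTheory Filter Topology
open scoped InnerProductSpace ENNReal

namespace Pool.Agent.Helper38.FE

variable {H : Type} [NormedAddCommGroup H] [InnerProductSpace ℂ H] [CompleteSpace H]

/-- `n - liminf_{t → 0} χ*(x + √t s) / log (t^{1/2})` (`deltaStar` with `liminf` instead of
`limsup`) -/
noncomputable def deltaStarInf {n : ℕ} (Ω : H) (x s s' : Fin n → (H →L[ℂ] H)) : EReal :=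
  (n : EReal) - liminf (fun t : ℝ =>
    ((chiStar Ω (pert x s t) s' / Real.log (t ^ (1 / 2 : ℝ)) : ℝ) : EReal)) (𝓝[>] 0)

/-- `n - liminf_{t → 0} t Φ*(x + √t s)` (`deltaFive` with `liminf` instead of `limsup`) -/
noncomputable def deltaFiveInf {n : ℕ} (Ω : H) (x s : Fin n → (H →L[ℂ] H)) : EReal :=
  (n : EReal) - liminf (fun t : ℝ =>
    ((t * (PhiStar Ω (pert x s t)).toReal : ℝ) : EReal)) (𝓝[>] 0)

end Pool.Agent.Helper38.FE
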