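import Pool.Agent.Helper38.FE.Main
import Pool.Agent.Helper38.FE.Ana2
import Pool.Agent.Helper38.FE.Pub2

/-! Final analysis, second version: both the `limsup` and the `liminf` versions of the two
dimensions differ. -/

open MeasureTheory Filter Topology ProbabilityTheory
open scoped InnerProductSpace ENNReal

namespace Pool.Agent.Helper38.FE

variable {H : Type} [NormedAddCommGroup H] [InnerProductSpace ℂ H] [CompleteSpace H]

/-- the sharp lower bound (module H2) -/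
def Low2 (S : FS I0 H) (C4 CD Cb : ℝ) : Prop :=
  ∃ C : ℝ, 0 < C ∧ ∀ (k : ℕ) (r : ℕ → ℝ) (m : ℕ → ℕ) (b : ℕ → List (Fin 3)) (e : H →L[ℂ] H)
    (M ε t : ℝ), (∀ j < k, 0 ≤ r j) → (∀ j < k, GoodWord C4 CD Cb (m j) (b j)) →
    IsSelfAdjoint e → e ∈ S.Ab → ‖e‖ ≤ ε → 1 ≤ M → (∑ j ∈ Finset.range k, r j * (m j : ℝ)) ≤ M →
    0 < t → t ≤ 1 →
    1 - C * (M ^ 2 * t + ε ^ 2 / t) ≤
      gval S.Ω (S.tup ((∑ j ∈ Finset.range k, ((r j : ℝ) : ℂ) • Fb (b j) S.xb) + e)) S.n1 t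

/-- choice of the parameters, second version -/
theorem exists_params2 (S : FS I0 H)
    (hLow : ∀ C4 CD Cb : ℝ, 0 < C4 → 0 < CD → 0 < Cb → Low2 S C4 CD Cb) :
    ∃ (r : ℕ → ℝ) (b : ℕ → List (Fin 3)),
    (∀ j, 0 ≤ r j) ∧ Summable r ∧ ∃ c c' c'' : ℝ, 0 < c ∧ c' < c'' ∧
    (∀ᶠ t in 𝓝[>] (0 : ℝ), ∫ u in t..1, gval S.Ω (S.tup (S.xl r b)) S.n1 u / u ≤
      (1 - c) * Real.log (1 / t)) ∧
    (∀ᶠ t in 𝓝[>] (0 : ℝ), (1 - c') * Real.log (1 / t) ≤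
      ∫ u in t..1, gval S.Ω (S.tup (S.xl r b)) S.n1 u / u) ∧
    (∃ tk ek : ℕ → ℝ, (∀ k, 0 < tk k) ∧ Tendsto tk atTop (𝓝 0) ∧ Tendsto ek atTop (𝓝 0) ∧
      ∀ k, 1 - ek k ≤ gval S.Ω (S.tup (S.xl r b)) S.n1 (tk k)) ∧
    (∃ vk : ℕ → ℝ, (∀ k, 0 < vk k) ∧ Tendsto vk atTop (𝓝 0) ∧
      ∀ k, gval S.Ω (S.tup (S.xl r b)) S.n1 (vk k) ≤ 1 - c'') := by
  obtain ⟨C4, CD, Cb, h4, hD, hb, hw⟩ := words_good
  obtain ⟨c₀, hc₀, C₂, hC₂, hU⟩ := upper_bound (H := H) C4 CD Cb h4 hD hb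
  obtain ⟨CH, hCH, hL⟩ := hLow C4 CD Cb h4 hD hb
  -- normalise `c₁ ≤ 1`
  obtain ⟨c₁, hc₁, hc₁1, hc₁0⟩ : ∃ c₁ : ℝ, 0 < c₁ ∧ c₁ ≤ 1 ∧ c₁ ≤ c₀ :=
    ⟨min c₀ 1, lt_min hc₀ one_pos, min_le_right _ _, min_le_left _ _⟩
  obtain ⟨R, hR⟩ : ∃ R : ℕ, 8 / c₁ ≤ R := exists_nat_ge _
  obtain ⟨Bx, hBx⟩ : ∃ Bx : ℕ, 40 * ((R : ℝ) + 1) / c₁ ≤ Bx := exists_nat_ge _
  have hRc : 8 ≤ c₁ * R := by rw [div_le_iff₀ hc₁] at hR; linarith
  have hBc : 40 * ((R : ℝ) + 1) ≤ c₁ * Bx := by rw [div_le_iff₀ hc₁] at hBx; linarith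
  have hR8 : (8 : ℝ) ≤ R := by
    have : c₁ * (R : ℝ) ≤ 1 * R := by gcongr
    linarith
  have hB40 : 40 * ((R : ℝ) + 1) ≤ Bx := by
    have : c₁ * (Bx : ℝ) ≤ 1 * Bx := by gcongr
    linarith
  have hR1 : 1 ≤ R := by
    have : (1 : ℝ) ≤ R := by linarith
    exact_mod_cast this
  have hB6 : 2 * R + 6 ≤ Bx := by
    have : ((2 * R + 6 : ℕ) : ℝ) ≤ Bx := by push_cast; linarith
    exact_mod_cast this
  obtain ⟨p, hp0, hp, hsum, htail, htot, hC2c, hMc⟩ :=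
    params_seq2 R Bx hR1 hB6 (max C₂ 1) (le_max_right _ _)
  have hp2 : ∀ k, 2 ≤ p k := by
    intro k
    induction k with
    | zero => exact hp0
    | succ k ih =>
      rw [hp]
      calc 2 ≤ p k := ih
        _ = p k ^ 1 := (pow_one _).symm
        _ ≤ p k ^ Bx := Nat.pow_le_pow_right (by omega) (by omega)
  set m : ℕ → ℕ := fun k => p k ^ (2 * R + 1) with hm
  set r : ℕ → ℝ := fun k => ((p k : ℝ) ^ R)⁻¹ with hr
  have hppos : ∀ k, (0 : ℝ) < p k := fun k => by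
    have := hp2 k
    exact_mod_cast (by omega : 0 < p k)
  have hp1 : ∀ k, (1 : ℝ) ≤ p k := fun k => by
    have := hp2 k
    exact_mod_cast (by omega : 1 ≤ p k)
  have hrpos : ∀ k, 0 < r k := fun k => by
    have := hppos k
    simp only [hr]; positivity
  have hm1 : ∀ k, 1 ≤ m k := fun k => Nat.one_le_pow _ _ (by have := hp2 k; omega)
  choose bw hbw using hw
  let b : ℕ → List (Fin 3) := fun k => bw (m k) (hm1 k)
  have hbg : ∀ k, GoodWord C4 CD Cb (m k) (b k) := fun k => hbw (m k) (hm1 k)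
  have hlen : ∀ k, ((b k).length : ℝ) = 2 * (p k : ℝ) ^ (2 * R + 1) := fun k => by
    rw [(hbg k).1]; simp [hm]
  have hmc : ∀ k, ((m k : ℕ) : ℝ) = (p k : ℝ) ^ (2 * R + 1) := fun k => by simp [hm]
  have hrm : ∀ k, r k * (m k : ℝ) = (p k : ℝ) ^ (R + 1) := fun k => by
    rw [hmc]
    simp only [hr]
    have := (hppos k).ne'
    field_simp
    ring
  refine ⟨r, b, fun j => (hrpos j).le, hsum, ?_⟩
  have hU' : ∀ (k i₀ i₁ : ℕ) (t : ℝ), 0 < t → t ≤ 1 → 2 * ∑' j, r (k + 1 + j) ≤ √t → i₀ ≤ i₁ →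
      C₂ * t * m k ≤ 2 ^ i₀ → C₂ * 2 ^ i₁ ≤ r k ^ 2 * m k →
      ∫ u in t..1, gval S.Ω (S.tup (S.xl r b)) S.n1 u / u ≤
        4 * Real.log (2 + 2 ^ 2) + Real.log (1 / t) - c₁ * ((i₁ : ℝ) - i₀) := by
    intro k i₀ i₁ t ht h1 h2 h3 h4' h5
    have := (hU S r b k (m k) i₀ i₁ t 2 (fun j => (hrpos j).le) hsum (by linarith) (hrpos k)
      (hm1 k) (hbg k) ?_ ht h1 h2 h3 h4' h5).2
    · have h6 : (0 : ℝ) ≤ (i₁ : ℝ) - i₀ := by
        have : (i₀ : ℝ) ≤ i₁ := by exact_mod_cast h3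
        linarith
      have h7 : c₁ * ((i₁ : ℝ) - i₀) ≤ c₀ * ((i₁ : ℝ) - i₀) := by gcongr
      linarith
    · rw [hmc]
      refine le_trans ?_ (hC2c k)
      simp only [hlen]
      gcongr
      exact le_max_left _ _
  obtain ⟨c, hc, hcU⟩ := params_upper2 c₁ C₂ (4 * Real.log (2 + 2 ^ 2)) hc₁ hC₂ R Bx hR1 (by omega)
    p m r hp0 hp (fun _ => rfl) (fun _ => rfl) htail
    (fun u => gval S.Ω (S.tup (S.xl r b)) S.n1 u) (fun t _ => gval_nonneg _ _ _ _)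
    (fun t _ => S.gval_le _ t) (fun t ht h1 => gval_int S _ t ht h1) hU'
  have hLo : ∀ (k : ℕ) (t : ℝ), 0 < t → t ≤ 1 →
      1 - (16 * CH) * ((r k * m k) ^ 2 * t + r (k + 1) ^ 2 / t) ≤
        gval S.Ω (S.tup (S.xl r b)) S.n1 t := by
    intro k t ht h1
    obtain ⟨e, he1, he2, he3, he4⟩ := S.xl_split r b (fun j => (hrpos j).le) hsum (k + 1)
    have h := hL (k + 1) r m b e (2 * (r k * m k)) (2 * ∑' j, r (k + 1 + j)) t
      (fun j _ => (hrpos j).le) (fun j _ => hbg j) he1 he2 he3 ?_ ?_ ht h1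
    · rw [← he4] at h
      refine le_trans ?_ h
      have h0 : 0 ≤ ∑' j, r (k + 1 + j) := tsum_nonneg fun j => (hrpos _).le
      have h2 : (2 * ∑' j, r (k + 1 + j)) ^ 2 / t ≤ 16 * (r (k + 1) ^ 2 / t) := by
        have h3 : (2 * ∑' j, r (k + 1 + j)) ^ 2 ≤ (2 * (2 * r (k + 1))) ^ 2 := by
          gcongr
          exact htail k
        calc (2 * ∑' j, r (k + 1 + j)) ^ 2 / t ≤ (2 * (2 * r (k + 1))) ^ 2 / t := by gcongr
          _ = 16 * (r (k + 1) ^ 2 / t) := by ring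
      have h3 : (2 * (r k * (m k : ℝ))) ^ 2 * t = 4 * ((r k * m k) ^ 2 * t) := by ring
      have h4 : 0 ≤ (r k * (m k : ℝ)) ^ 2 * t := by positivity
      have h5 : CH * ((2 * (r k * (m k : ℝ))) ^ 2 * t + (2 * ∑' j, r (k + 1 + j)) ^ 2 / t) ≤
          (16 * CH) * ((r k * m k) ^ 2 * t + r (k + 1) ^ 2 / t) := by
        rw [h3]
        calc CH * (4 * ((r k * (m k : ℝ)) ^ 2 * t) + (2 * ∑' j, r (k + 1 + j)) ^ 2 / t) ≤
            CH * (16 * ((r k * (m k : ℝ)) ^ 2 * t) + 16 * (r (k + 1) ^ 2 / t)) := by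
              gcongr
              norm_num
          _ = _ := by ring
      linarith
    · rw [hrm]
      have : (1 : ℝ) ≤ (p k : ℝ) ^ (R + 1) := one_le_pow₀ (hp1 k)
      linarith
    · rw [hrm]
      refine le_trans (le_of_eq ?_) (hMc k)
      refine Finset.sum_congr rfl fun j _ => ?_
      rw [hmc]
  obtain ⟨hv1, ⟨vk, hvk, hvk0, hval⟩, hpeak⟩ := params_valley c₁ C₂ (4 * Real.log (2 + 2 ^ 2))
    (16 * CH) hc₁ hc₁1 hC₂ (by positivity) R Bx hR1 (by omega)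
    p m r hp0 hp (fun _ => rfl) (fun _ => rfl) htail
    (fun u => gval S.Ω (S.tup (S.xl r b)) S.n1 u) (fun t _ => gval_nonneg _ _ _ _)
    (fun t _ => S.gval_le _ t) (fun t ht h1 => gval_int S _ t ht h1) hU' hRc hBc hLo
  exact ⟨c, c₁ / 2, c₁, hc, by linarith, hcU, hv1, hpeak, vk, hvk, hvk0, hval⟩

/-- Final theorem, second version. -/
theorem final2 (hLow : ∀ (H : Type) [NormedAddCommGroup H] [InnerProductSpace ℂ H]
      [CompleteSpace H] (S : FS I0 H) (C4 CD Cb : ℝ), 0 < C4 → 0 < CD → 0 < Cb →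
      Low2 S C4 CD Cb) :
    ∃ (H : Type) (_ : NormedAddCommGroup H) (_ : InnerProductSpace ℂ H)
    (_ : CompleteSpace H) (M : VonNeumannAlgebra H) (Ω : H) (x : Fin 4 → (H →L[ℂ] H))
    (s : Fin 4 ⊕ Fin 4 → (H →L[ℂ] H)),
    TracialSpace M Ω ∧ (∀ i, x i ∈ M ∧ IsSelfAdjoint (x i)) ∧ (∀ i, s i ∈ M) ∧
    IsFreeSemi Ω x s ∧
    (∀ t : ℝ, 0 < t → PhiStar Ω (pert x (fun j => s (Sum.inl j)) t) ≠ ⊤) ∧
    (∀ t u : ℝ, 0 < t → 0 < u →
      PhiStar Ω (pert (pert x (fun j => s (Sum.inl j)) t) (fun j => s (Sum.inr j)) u) ≠ ⊤) ∧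
    (∀ t : ℝ, 0 < t → IntegrableOn (fun u : ℝ => 4 / (1 + u) -
      (PhiStar Ω (pert (pert x (fun j => s (Sum.inl j)) t) (fun j => s (Sum.inr j)) u)).toReal)
      (Set.Ioi 0)) ∧
    deltaStar Ω x (fun j => s (Sum.inl j)) (fun j => s (Sum.inr j)) ≠
      deltaFive Ω x (fun j => s (Sum.inl j)) ∧
    deltaStarInf Ω x (fun j => s (Sum.inl j)) (fun j => s (Sum.inr j)) ≠
      deltaFiveInf Ω x (fun j => s (Sum.inl j)) ∧
    deltaStar Ω x (fun j => s (Sum.inl j)) (fun j => s (Sum.inr j)) ≠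
      deltaFiveInf Ω x (fun j => s (Sum.inl j)) ∧
    deltaStarInf Ω x (fun j => s (Sum.inl j)) (fun j => s (Sum.inr j)) ≠
      deltaFive Ω x (fun j => s (Sum.inl j)) := by
  obtain ⟨H, _, _, _, ⟨S⟩⟩ := exists_FS I0
  obtain ⟨M, hM, hMd⟩ := S.exists_vN
  obtain ⟨r, b, hr, hsum, c, c', c'', hc, hcc, hup, hlo, ⟨tk, ek, htk, htk0, hek, hpeak⟩,
    vk, hvk, hvk0, hval⟩ := exists_params2 S (hLow H S)
  obtain ⟨hxm, hxs⟩ := S.xl_mem r b hr hsum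
  obtain ⟨C, hC⟩ := chi_formula S (S.xl r b) hxm hxs
  have hsM : ∀ i, S.s i ∈ M := fun i => (hMd _).2 fun j => S.comm i j
  have hAb : ∀ a ∈ S.Ab, a ∈ M := fun a ha => (hMd _).2 fun j => S.Ab_comm a ha j
  refine ⟨H, inferInstance, inferInstance, inferInstance, M, S.Ω, S.tup (S.xl r b),
    fun j => S.s (Sum.inr j), hM, ?_, fun i => hsM _, S.isFreeSemi _ hxm, ?_, ?_, ?_, ?_⟩
  · intro i
    refine Fin.lastCases ?_ (fun j => ?_) i
    · simpa [FS.tup] using ⟨hAb _ hxm, hxs⟩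
    · simpa [FS.tup, FS.xb] using ⟨hsM _, S.s_sa _⟩
  · intro t ht
    have := S.PhiStar_eq _ hxm hxs t ht
    unfold FS.n1 at this
    rw [this]
    exact ENNReal.ofReal_ne_top
  · intro t u ht hu
    have h1 := S.PhiStar_add _ hxm hxs t u ht hu
    have h2 := S.PhiStar_eq _ hxm hxs (t + u) (by positivity)
    rw [h2] at h1
    unfold FS.n1 FS.n2 at h1
    rw [h1]
    exact ENNReal.ofReal_ne_top
  · intro t ht
    refine (chi_integrable (fun u => gval S.Ω (S.tup (S.xl r b)) S.n1 u) (3 + ‖S.xl r b‖ ^ 2)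
      (by positivity) (gval_measurable _ _ _) (fun t _ => S.gval_le _ t)
      (fun t ht => S.gval_ge _ hxm hxs t ht) t ht).congr_fun (fun u hu => ?_) measurableSet_Ioi
    have hu' : (0 : ℝ) < u := hu
    have h1 := S.PhiStar_add _ hxm hxs t u ht hu'
    have h2 := S.PhiStar_eq _ hxm hxs (t + u) (by positivity)
    rw [h2] at h1
    have h3 : (PhiStar S.Ω (pert (pert (S.tup (S.xl r b)) S.n1 t) S.n2 u)).toReal =
        gval S.Ω (S.tup (S.xl r b)) S.n1 (t + u) / (t + u) := by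
      rw [h1, ENNReal.toReal_ofReal (div_nonneg (gval_nonneg _ _ _ _) (by positivity))]
    unfold FS.n1 FS.n2 at h3
    unfold FS.n1
    simp only
    rw [h3]
  · have key := final_real2 (fun u => gval S.Ω (S.tup (S.xl r b)) S.n1 u)
      (fun t => chiStar S.Ω (pert (S.tup (S.xl r b)) S.n1 t) S.n2) C c c' c'' hc hcc
      hC hup hlo tk ek htk htk0 hek hpeak vk hvk hvk0 hval
    have hg : (fun t : ℝ => ((t * (PhiStar S.Ω (pert (S.tup (S.xl r b)) S.n1 t)).toReal : ℝ) :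
        EReal)) =ᶠ[𝓝[>] 0] (fun t : ℝ => ((gval S.Ω (S.tup (S.xl r b)) S.n1 t : ℝ) : EReal)) := by
      filter_upwards [self_mem_nhdsWithin] with t ht
      have ht' : (0 : ℝ) < t := ht
      rw [S.PhiStar_eq _ hxm hxs t ht', ENNReal.toReal_ofReal]
      · field_simp
      · exact div_nonneg (gval_nonneg _ _ _ _) ht'.le
    have h5 : deltaFive S.Ω (S.tup (S.xl r b)) S.n1 = (4 : EReal) -
        limsup (fun t : ℝ => ((gval S.Ω (S.tup (S.xl r b)) S.n1 t : ℝ) : EReal)) (𝓝[>] 0) := by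
      unfold deltaFive
      rw [limsup_congr hg]
      norm_num
    have h5' : deltaFiveInf S.Ω (S.tup (S.xl r b)) S.n1 = (4 : EReal) -
        liminf (fun t : ℝ => ((gval S.Ω (S.tup (S.xl r b)) S.n1 t : ℝ) : EReal)) (𝓝[>] 0) := by
      unfold deltaFiveInf
      rw [liminf_congr hg]
      norm_num
    have h6 : deltaStar S.Ω (S.tup (S.xl r b)) S.n1 S.n2 = (4 : EReal) -
        limsup (fun t : ℝ => ((chiStar S.Ω (pert (S.tup (S.xl r b)) S.n1 t) S.n2 /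
          Real.log (t ^ (1 / 2 : ℝ)) : ℝ) : EReal)) (𝓝[>] 0) := by
      unfold deltaStar
      norm_num
    have h6' : deltaStarInf S.Ω (S.tup (S.xl r b)) S.n1 S.n2 = (4 : EReal) -
        liminf (fun t : ℝ => ((chiStar S.Ω (pert (S.tup (S.xl r b)) S.n1 t) S.n2 /
          Real.log (t ^ (1 / 2 : ℝ)) : ℝ) : EReal)) (𝓝[>] 0) := by
      unfold deltaStarInf
      norm_num
    have : deltaStar S.Ω (S.tup (S.xl r b)) S.n1 S.n2 ≠ deltaFive S.Ω (S.tup (S.xl r b)) S.n1 ∧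
        deltaStarInf S.Ω (S.tup (S.xl r b)) S.n1 S.n2 ≠
          deltaFiveInf S.Ω (S.tup (S.xl r b)) S.n1 ∧
        deltaStar S.Ω (S.tup (S.xl r b)) S.n1 S.n2 ≠
          deltaFiveInf S.Ω (S.tup (S.xl r b)) S.n1 ∧
        deltaStarInf S.Ω (S.tup (S.xl r b)) S.n1 S.n2 ≠
          deltaFive S.Ω (S.tup (S.xl r b)) S.n1 := by
      rw [h5, h5', h6, h6']; exact key
    exact this

end Pool.Agent.Helper38.FE
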