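import Mathlib

/-!
# The two non-microstates free entropy dimensions (definitions used in the final statement)
-/

open MeasureTheory Filter Topology
open scoped InnerProductSpace ENNReal

namespace Pool.Agent.Helper38.FE

variable {H : Type} [NormedAddCommGroup H] [InnerProductSpace ℂ H] [CompleteSpace H]

/-- A tracial W*-probability space: a von Neumann algebra `M` acting on `H` together with a unit
vector `Ω` whose vector state `τ(a) = ⟪Ω, a Ω⟫` is a (normal) faithful tracial state on `M`. -/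
structure TracialSpace (M : VonNeumannAlgebra H) (Ω : H) : Prop where
  norm_one : ‖Ω‖ = 1
  trace : ∀ a ∈ M, ∀ b ∈ M, ⟪Ω, (a * b) Ω⟫_ℂ = ⟪Ω, (b * a) Ω⟫_ℂ
  faithful : ∀ a ∈ M, ⟪Ω, (star a * a) Ω⟫_ℂ = 0 → a = 0

/-- the monomial `x_{w_1} x_{w_2} ⋯ x_{w_p}` -/
noncomputable def wd {n : ℕ} (x : Fin n → (H →L[ℂ] H)) (w : List (Fin n)) : H →L[ℂ] H :=
  (w.map x).prod

/-- the state `τ(a) = ⟪Ω, a Ω⟫` -/
noncomputable def tau (Ω : H) (a : H →L[ℂ] H) : ℂ := ⟪Ω, a Ω⟫_ℂ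

/-- `(τ ⊗ τ)(∂_j (x_{w_1} ⋯ x_{w_p})) = ∑_{k : w_k = j} τ(x_{w_1} ⋯ x_{w_{k-1}}) τ(x_{w_{k+1}} ⋯ x_{w_p})`
for the free difference quotient `∂_j`. -/
noncomputable def tauDiff {n : ℕ} (Ω : H) (x : Fin n → (H →L[ℂ] H)) (j : Fin n)
    (w : List (Fin n)) : ℂ :=
  ∑ k ∈ Finset.range w.length,
    if w[k]? = some j then tau Ω (wd x (w.take k)) * tau Ω (wd x (w.drop (k + 1))) else 0

/-- `L²(W*(x), τ)`, realised as the closure of `ℂ⟨x⟩ Ω` in `H`. -/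
noncomputable def L2 {n : ℕ} (Ω : H) (x : Fin n → (H →L[ℂ] H)) : Submodule ℂ H :=
  (Submodule.span ℂ (Set.range fun w : List (Fin n) => wd x w Ω)).topologicalClosure

/-- `ξ_1, …, ξ_n ∈ L²(W*(x))` are the conjugate variables of `x`:
`τ(ξ_j P) = (τ ⊗ τ)(∂_j P)` for all polynomials `P` (equivalently all monomials `P = x_w`);
for `ξ ∈ L²` the trace `τ(ξ P) = τ(P ξ)` is `⟪P* Ω, ξ⟫`. -/
def IsConj {n : ℕ} (Ω : H) (x : Fin n → (H →L[ℂ] H)) (ξ : Fin n → H) : Prop :=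
  (∀ j, ξ j ∈ L2 Ω x) ∧ ∀ j w, ⟪(star (wd x w)) Ω, ξ j⟫_ℂ = tauDiff Ω x j w

/-- The free Fisher information `Φ*(x) = ∑ ‖ξ_j‖²` (and `∞` if there are no conjugate variables). -/
noncomputable def PhiStar {n : ℕ} (Ω : H) (x : Fin n → (H →L[ℂ] H)) : ℝ≥0∞ :=
  ⨅ ξ : Fin n → H, ⨅ _ : IsConj Ω x ξ, ∑ j, ENNReal.ofReal (‖ξ j‖ ^ 2)

/-- the perturbed tuple `x + √t s` -/
noncomputable def pert {n : ℕ} (x s : Fin n → (H →L[ℂ] H)) (t : ℝ) : Fin n → (H →L[ℂ] H) :=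
  fun i => x i + ((√t : ℝ) : ℂ) • s i

/-- the non-microstates free entropy `χ*(x)`, computed with the free semicircular family `s` -/
noncomputable def chiStar {n : ℕ} (Ω : H) (x s : Fin n → (H →L[ℂ] H)) : ℝ :=
  (1 / 2) * (∫ t in Set.Ioi (0 : ℝ), ((n : ℝ) / (1 + t) - (PhiStar Ω (pert x s t)).toReal)) +
    (n : ℝ) / 2 * Real.log (2 * Real.pi * Real.exp 1)

/-- `δ*(x) = n - limsup_{t → 0} χ*(x + √t s) / log (t^{1/2})`; `χ*(x + √t s)` is computed with a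
second free semicircular family `s'`, free from `(x, s)`. -/
noncomputable def deltaStar {n : ℕ} (Ω : H) (x s s' : Fin n → (H →L[ℂ] H)) : EReal :=
  (n : EReal) - limsup (fun t : ℝ =>
    ((chiStar Ω (pert x s t) s' / Real.log (t ^ (1 / 2 : ℝ)) : ℝ) : EReal)) (𝓝[>] 0)

/-- `δ^⋆(x) = n - limsup_{t → 0} t Φ*(x + √t s)`. -/
noncomputable def deltaFive {n : ℕ} (Ω : H) (x s : Fin n → (H →L[ℂ] H)) : EReal :=
  (n : EReal) - limsup (fun t : ℝ =>
    ((t * (PhiStar Ω (pert x s t)).toReal : ℝ) : EReal)) (𝓝[>] 0)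

/-- a standard semicircular element (mean `0`, variance `1`): the even moments are the Catalan
numbers, the odd moments vanish -/
def IsSemicircular (Ω : H) (s : H →L[ℂ] H) : Prop :=
  IsSelfAdjoint s ∧ (∀ k : ℕ, tau Ω (s ^ (2 * k)) = (catalan k : ℂ)) ∧
    ∀ k : ℕ, tau Ω (s ^ (2 * k + 1)) = 0

/-- freeness of a family of unital *-subalgebras: alternating products of centred elements are
centred -/
def IsFreeFam {κ : Type} (Ω : H) (A : κ → StarSubalgebra ℂ (H →L[ℂ] H)) : Prop :=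
  ∀ l : List (κ × (H →L[ℂ] H)), l ≠ [] → l.IsChain (fun p q => p.1 ≠ q.1) →
    (∀ p ∈ l, p.2 ∈ A p.1 ∧ tau Ω p.2 = 0) → tau Ω (l.map Prod.snd).prod = 0

/-- `s` is a free family of standard semicircular elements that is free from `{x_1, …, x_n}` -/
def IsFreeSemi {κ : Type} {n : ℕ} (Ω : H) (x : Fin n → (H →L[ℂ] H)) (s : κ → (H →L[ℂ] H)) :
    Prop :=
  (∀ i, IsSemicircular Ω (s i)) ∧
    IsFreeFam Ω (fun k : Option κ => k.elim (StarAlgebra.adjoin ℂ (Set.range x))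
      (fun i => StarAlgebra.adjoin ℂ {s i}))

end Pool.Agent.Helper38.FE
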