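import Pool.Agent.Helper38.FE.Words
import Pool.Agent.Helper38.FE.Cls
import Pool.Agent.Helper38.FE.Low

/-! MODULE U, definitions. -/

open MeasureTheory Filter Topology ProbabilityTheory
open scoped InnerProductSpace ENNReal

namespace Pool.Agent.Helper38.FE

/-- `b` is a good word of size `m` (conclusion of `words_good`) -/
def GoodWord (C4 CD Cb : ℝ) (m : ℕ) (b : List (Fin 3)) : Prop :=
  b.length = 2 * m ∧ ∀ᶠ N : ℕ in atTop, ∃ β : ℝ,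
      (m : ℝ) ≤ β ∧ β ≤ Cb * m ∧
      ∫ x, hs (fderiv ℝ (Fc (N + 1) b) x)
        ∂(stdGaussian (EuclideanSpace ℝ (Fin 3 × Fin (N + 1) × Fin (N + 1)))) =
        β * ((N : ℝ) + 1) ^ 2 ∧
      ∫ x, hs4 (fderiv ℝ (Fc (N + 1) b) x)
        ∂(stdGaussian (EuclideanSpace ℝ (Fin 3 × Fin (N + 1) × Fin (N + 1)))) ≤
        C4 * β ^ 2 * ((N : ℝ) + 1) ^ 2 ∧
      ∫ x, hs2 (fderiv ℝ (fderiv ℝ (Fc (N + 1) b)) x)
        ∂(stdGaussian (EuclideanSpace ℝ (Fin 3 × Fin (N + 1) × Fin (N + 1)))) ≤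
        CD * β ^ 2 * ((N : ℝ) + 1) ^ 2

variable {H : Type} [NormedAddCommGroup H] [InnerProductSpace ℂ H] [CompleteSpace H]

/-- the last variable -/
noncomputable def FS.xl (S : FS I0 H) (r : ℕ → ℝ) (b : ℕ → List (Fin 3)) : H →L[ℂ] H :=
  ∑' j, ((r j : ℝ) : ℂ) • Fb (b j) S.xb

end Pool.Agent.Helper38.FE
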