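import Pool.Agent.Helper38.FE.Fock
import Pool.Agent.Helper246.FG.Fin

/-! MODULE FG: the words `W_b`, their derivatives at finite `N`. -/

open MeasureTheory Filter Topology ProbabilityTheory
open scoped InnerProductSpace ENNReal

namespace Pool.Agent.Helper38.FE

/-- FG1: uniform first order bounds, for every word and every `N ≥ 1`. -/
theorem Fc_bounds : ∃ Cl : ℝ, 0 < Cl ∧ ∀ (N : ℕ) (b : List (Fin 3)), 0 < N →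
    (∀ x, ‖Fc N b x‖ ≤ 2 * N) ∧ (∀ x, ‖fderiv ℝ (Fc N b) x‖ ≤ Cl * b.length) ∧
    ContDiff ℝ 2 (Fc N b) ∧ ∃ K, ∀ x, ‖fderiv ℝ (fderiv ℝ (Fc N b)) x‖ ≤ K :=
  FG.Fc_bounds

/-- FG2: good words: aperiodic words for which the derivative of `F_b` is flat in `L⁴`. -/
theorem words_good : ∃ C4 CD Cb : ℝ, 0 < C4 ∧ 0 < CD ∧ 0 < Cb ∧ ∀ m : ℕ, 1 ≤ m →
    ∃ b : List (Fin 3), b.length = 2 * m ∧ ∀ᶠ N : ℕ in atTop, ∃ β : ℝ,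
      (m : ℝ) ≤ β ∧ β ≤ Cb * m ∧
      ∫ x, hs (fderiv ℝ (Fc (N + 1) b) x)
        ∂(stdGaussian (EuclideanSpace ℝ (Fin 3 × Fin (N + 1) × Fin (N + 1)))) =
        β * ((N : ℝ) + 1) ^ 2 ∧
      ∫ x, hs4 (fderiv ℝ (Fc (N + 1) b) x)
        ∂(stdGaussian (EuclideanSpace ℝ (Fin 3 × Fin (N + 1) × Fin (N + 1)))) ≤
        C4 * β ^ 2 * ((N : ℝ) + 1) ^ 2 ∧
      ∫ x, hs2 (fderiv ℝ (fderiv ℝ (Fc (N + 1) b)) x)
        ∂(stdGaussian (EuclideanSpace ℝ (Fin 3 × Fin (N + 1) × Fin (N + 1)))) ≤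
        CD * β ^ 2 * ((N : ℝ) + 1) ^ 2 := by
  obtain ⟨H, _, _, _, ⟨S⟩⟩ := exists_FS (Fin 3)
  exact FG.words_good_of S

end Pool.Agent.Helper38.FE
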