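import Pool.Agent.Helper38.FE.UpDefs
import Pool.Agent.Helper38.FE.Fock
import Pool.Agent.Helper819.FEU.Hm_sa
import Pool.Agent.Helper819.FEU.Hm_crd
import Pool.Agent.Helper819.FEU.inner_crd
import Pool.Agent.Helper819.FEU.tr_facts
import Pool.Agent.Helper819.FEU.crd_facts
import Pool.Agent.Helper819.FEU.cay_facts
import Pool.Agent.Helper819.FEU.norm_Fb
import Pool.Agent.Helper819.FEU.Rep_alg
import Pool.Agent.Helper819.FEU.Rep_star
import Pool.Agent.Helper819.FEU.Rep_sum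
import Pool.Agent.Helper819.FEU.Rep_tendsto
import Pool.Agent.Helper819.FEU.map_pr3
import Pool.Agent.Helper819.FEU.moment2
import Pool.Agent.Helper819.FEU.PN_basic
import Pool.Agent.Helper819.FEU.good_meas
import Pool.Agent.Helper819.FEU.YN_eq
import Pool.Agent.Helper819.FEU.YN_norm
import Pool.Agent.Helper819.FEU.integrand_good
import Pool.Agent.Helper819.FEU.Rep_ZN
import Pool.Agent.Helper819.FEU.tau_Z
import Pool.Agent.Helper819.FEU.bad_part
import Pool.Agent.Helper819.FEU.Fc_cont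
import Pool.Agent.Helper819.FEU.lim_N
import Pool.Agent.Helper819.FEU.xK_tendsto
import Pool.Agent.Helper819.FEU.phi_cont
import Pool.Agent.Helper819.FEU.herm_ineq
import Pool.Agent.Helper819.FEU.phi_le_gval
import Pool.Agent.Helper819.FEU.gval_approx
import Pool.Agent.Helper819.FEU.fatou_riemann
import Pool.Agent.Helper819.FEU.classical_apply

/-! MODULE U: the upper bound for the averaged Fisher information (limit `N → ∞`). -/

set_option autoImplicit false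
set_option linter.unusedVariables false
set_option linter.unusedSectionVars false
set_option linter.dupNamespace false

open MeasureTheory Filter Topology ProbabilityTheory
open scoped InnerProductSpace ENNReal

namespace Pool.Agent.Helper38.FE.U

section final

variable {H : Type} [NormedAddCommGroup H] [InnerProductSpace ℂ H] [CompleteSpace H]

theorem fK_measurable (r : ℕ → ℝ) (b : ℕ → List (Fin 3)) (K : ℕ) :
    ∀ N : ℕ, Measurable (fK r b K (N + 1)) := by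
  obtain ⟨Cl, -, hCl⟩ := Fc_bounds
  exact fK_meas r b K fun N b hN => (hCl N b hN).2.2.1.continuous

theorem step_mem {t : ℝ} (ht : 0 < t) {n : ℕ} {u : ℕ → ℝ} (hu0 : u 0 = t)
    (hmono : StrictMono u) (hun : u n ≤ 1) {j : ℕ} (hj : j ∈ Finset.range n) :
    0 < u j ∧ u j < u (j + 1) ∧ u (j + 1) ≤ 1 := by
  have hj' : j < n := Finset.mem_range.mp hj
  refine ⟨?_, hmono (Nat.lt_succ_self j), ?_⟩
  · rw [← hu0] at ht
    exact lt_of_lt_of_le ht (hmono.monotone (Nat.zero_le j))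
  · exact le_trans (hmono.monotone hj') hun

/-- inequality for partitions, truncated sums -/
theorem step1 (S : FS I0 H) (r : ℕ → ℝ) (b : ℕ → List (Fin 3)) (K : ℕ) (t B : ℝ) (ht : 0 < t)
    (n : ℕ) (u : ℕ → ℝ) (hu0 : u 0 = t) (hmono : StrictMono u) (hun : u n ≤ 1)
    (q : ℕ → Fin 4 → (List (Fin 4) →₀ ℂ))
    (hcl : ∀ L' : ℝ, ∀ᶠ N : ℕ in atTop,
      ∑ j ∈ Finset.range n, (u (j + 1) - u j) / u (j + 1) *
        ((1 / ((N : ℝ) + 1) ^ 2) * ∫ z, integrand r b K (u (j + 1)) (q j) L' (N + 1) z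
          ∂(gam3 (Fin 3 × Fin (N + 1) × Fin (N + 1)) (Fin (N + 1) × Fin (N + 1)))) ≤ B) :
    ∑ j ∈ Finset.range n, (u (j + 1) - u j) / u (j + 1) *
      phi S.Ω (fun i => S.n1 i S.Ω) (q j) (pert (S.tup (xK r b K S.xb)) S.n1 (u (j + 1))) ≤ B := by
  obtain ⟨L, hL2, hL⟩ := gue_norm (ι := I0)
  refine le_of_tendsto ?_ (hcl (2 * L + 2 * ∑ j ∈ Finset.range K, |r j|))
  refine tendsto_finset_sum _ fun j hj => Tendsto.const_mul _ ?_
  obtain ⟨h1, h2, h3⟩ := step_mem ht hu0 hmono hun hj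
  exact lim_N S r b K (u (j + 1)) (h1.trans h2).le h3 (q j) L _ hL2 hL le_rfl
    (fK_measurable r b K)

/-- inequality for partitions, full sum -/
theorem step2 (S : FS I0 H) (r : ℕ → ℝ) (b : ℕ → List (Fin 3)) (hr : ∀ j, 0 ≤ r j)
    (hs : Summable r) (k : ℕ) (B : ℝ)
    (n : ℕ) (u : ℕ → ℝ) (q : ℕ → Fin 4 → (List (Fin 4) →₀ ℂ))
    (h1 : ∀ K, k < K → ∑ j ∈ Finset.range n, (u (j + 1) - u j) / u (j + 1) *
      phi S.Ω (fun i => S.n1 i S.Ω) (q j) (pert (S.tup (xK r b K S.xb)) S.n1 (u (j + 1))) ≤ B) :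
    ∑ j ∈ Finset.range n, (u (j + 1) - u j) / u (j + 1) *
      phi S.Ω (fun i => S.n1 i S.Ω) (q j) (pert (S.tup (S.xl r b)) S.n1 (u (j + 1))) ≤ B := by
  have hx : Tendsto (fun K => xK r b K S.xb) atTop (𝓝 (S.xl r b)) := (xK_tendsto S r b hr hs).1
  have hlim : Tendsto (fun K : ℕ => ∑ j ∈ Finset.range n, (u (j + 1) - u j) / u (j + 1) *
      phi S.Ω (fun i => S.n1 i S.Ω) (q j) (pert (S.tup (xK r b K S.xb)) S.n1 (u (j + 1)))) atTop
      (𝓝 (∑ j ∈ Finset.range n, (u (j + 1) - u j) / u (j + 1) *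
      phi S.Ω (fun i => S.n1 i S.Ω) (q j) (pert (S.tup (S.xl r b)) S.n1 (u (j + 1))))) := by
    refine tendsto_finset_sum _ fun j hj => Tendsto.const_mul _ ?_
    have hc := (phi_cont S (fun i => S.n1 i S.Ω) (q j)).tendsto (S.xl r b, u (j + 1))
    have hp : Tendsto (fun K : ℕ => ((xK r b K S.xb, u (j + 1)) : (H →L[ℂ] H) × ℝ)) atTop
        (𝓝 (S.xl r b, u (j + 1))) := hx.prodMk_nhds tendsto_const_nhds
    have h2 := hc.comp hp
    simp only [Function.comp_def] at h2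
    exact h2
  refine le_of_tendsto hlim ?_
  filter_upwards [eventually_gt_atTop k] with K hK using h1 K hK

/-- inequality for partitions, `gval` -/
theorem step3 (S : FS I0 H) (xl : H →L[ℂ] H) (hx : IsSelfAdjoint xl)
    (hxd : ∀ i, xl * S.d i = S.d i * xl) (t B : ℝ) (ht : 0 < t)
    (n : ℕ) (u : ℕ → ℝ) (hu0 : u 0 = t) (hmono : StrictMono u) (hun : u n ≤ 1)
    (h1 : ∀ q : ℕ → Fin 4 → (List (Fin 4) →₀ ℂ),
      ∑ j ∈ Finset.range n, (u (j + 1) - u j) / u (j + 1) *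
      phi S.Ω (fun i => S.n1 i S.Ω) (q j) (pert (S.tup xl) S.n1 (u (j + 1))) ≤ B) :
    ∑ j ∈ Finset.range n, (u (j + 1) - u j) / u (j + 1) *
      gval S.Ω (S.tup xl) S.n1 (u (j + 1)) ≤ B := by
  obtain ⟨M, hM, hMd⟩ := S.exists_vN
  refine le_of_forall_pos_le_add fun ε hε => ?_
  have hδ : 0 < ε / (n + 1 : ℝ) := by positivity
  choose q hq using fun j => gval_approx S M hM hMd xl hx hxd (u (j + 1)) (ε / (n + 1 : ℝ)) hδ
  have h2 := h1 q
  have h3 : ∑ j ∈ Finset.range n, (u (j + 1) - u j) / u (j + 1) *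
      gval S.Ω (S.tup xl) S.n1 (u (j + 1)) ≤ ∑ j ∈ Finset.range n,
      ((u (j + 1) - u j) / u (j + 1) *
      phi S.Ω (fun i => S.n1 i S.Ω) (q j) (pert (S.tup xl) S.n1 (u (j + 1))) + ε / (n + 1 : ℝ)) := by
    refine Finset.sum_le_sum fun j hj => ?_
    obtain ⟨hj1, hj2, hj3⟩ := step_mem ht hu0 hmono hun hj
    have hw0 : 0 ≤ (u (j + 1) - u j) / u (j + 1) := div_nonneg (by linarith) (by linarith)
    have hw1 : (u (j + 1) - u j) / u (j + 1) ≤ 1 := by
      rw [div_le_one (by linarith)]; linarith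
    have := hq j
    nlinarith [mul_le_mul_of_nonneg_left this hw0, mul_le_mul_of_nonneg_right hw1 hδ.le]
  rw [Finset.sum_add_distrib, Finset.sum_const, Finset.card_range, nsmul_eq_mul] at h3
  have h4 : (n : ℝ) * (ε / (n + 1 : ℝ)) ≤ ε := by
    rw [mul_div_assoc', div_le_iff₀ (by positivity)]
    nlinarith
  linarith

/-- `gval` is lower semicontinuous in the level -/
theorem gval_lsc (S : FS I0 H) (xl : H →L[ℂ] H) (hx : IsSelfAdjoint xl)
    (hxd : ∀ i, xl * S.d i = S.d i * xl) :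
    LowerSemicontinuous (fun u => gval S.Ω (S.tup xl) S.n1 u) := by
  obtain ⟨M, hM, hMd⟩ := S.exists_vN
  intro u₀ y hy
  have hy' : y < gval S.Ω (S.tup xl) S.n1 u₀ := hy
  obtain ⟨q, hq⟩ := gval_approx S M hM hMd xl hx hxd u₀
    ((gval S.Ω (S.tup xl) S.n1 u₀ - y) / 2) (by linarith)
  have hc : Continuous fun u : ℝ => phi S.Ω (fun i => S.n1 i S.Ω) q (pert (S.tup xl) S.n1 u) := by
    have hp : Continuous (fun u : ℝ => ((xl, u) : (H →L[ℂ] H) × ℝ)) :=
      continuous_const.prodMk continuous_id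
    have h2 := (phi_cont S (fun i => S.n1 i S.Ω) q).comp hp
    simp only [Function.comp_def] at h2
    exact h2
  have h1 : ∀ᶠ u in 𝓝 u₀, y < phi S.Ω (fun i => S.n1 i S.Ω) q (pert (S.tup xl) S.n1 u) :=
    hc.continuousAt.eventually (lt_mem_nhds (by linarith))
  filter_upwards [h1] with u hu
  exact lt_of_lt_of_le hu (phi_le_gval S xl hx q u)

end final


end Pool.Agent.Helper38.FE.U

open MeasureTheory Filter Topology ProbabilityTheory
open scoped InnerProductSpace ENNReal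

namespace Pool.Agent.Helper38.FE

open U in
/-- MODULE U. -/
theorem upper_bound {H : Type} [NormedAddCommGroup H] [InnerProductSpace ℂ H] [CompleteSpace H]
    (C4 CD Cb : ℝ) (h4 : 0 < C4) (hD : 0 < CD) (hb : 0 < Cb) :
    ∃ c₁ : ℝ, 0 < c₁ ∧ ∃ C₂ : ℝ, 0 < C₂ ∧ ∀ (S : FS I0 H) (r : ℕ → ℝ) (b : ℕ → List (Fin 3))
      (k m i₀ i₁ : ℕ) (t Sb : ℝ),
      (∀ j, 0 ≤ r j) → Summable r → 2 * ∑' j, r j ≤ Sb → 0 < r k → 1 ≤ m →
      GoodWord C4 CD Cb m (b k) →
      C₂ * (∑ j ∈ Finset.range k, r j * ((b j).length : ℝ)) ^ 2 ≤ r k ^ 2 * m →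
      0 < t → t ≤ 1 → 2 * ∑' j, r (k + 1 + j) ≤ √t →
      i₀ ≤ i₁ → C₂ * t * m ≤ 2 ^ i₀ → C₂ * 2 ^ i₁ ≤ r k ^ 2 * m →
      IntervalIntegrable (fun u => gval S.Ω (S.tup (S.xl r b)) S.n1 u / u) volume t 1 ∧
      ∫ u in t..1, gval S.Ω (S.tup (S.xl r b)) S.n1 u / u ≤
        4 * Real.log (2 + Sb ^ 2) + Real.log (1 / t) - c₁ * ((i₁ : ℝ) - i₀) := by
  obtain ⟨c₁, hc₁, C₂, hC₂, hcl⟩ := classical_apply C4 CD Cb h4 hD hb
  refine ⟨c₁, hc₁, C₂, hC₂, ?_⟩
  intro S r b k m i₀ i₁ t Sb hr hs hSb hrk hm hgood h1 ht ht1 h2 hi h3 h5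
  obtain ⟨hxt, hxs, hxd⟩ := xK_tendsto S r b hr hs
  refine fatou_riemann (fun u => gval S.Ω (S.tup (S.xl r b)) S.n1 u) _ t ht ht1
    (fun u => Finset.sum_nonneg fun _ _ => by positivity) (fun u => S.gval_le _ u)
    (gval_lsc S _ hxs hxd) ?_
  intro n u hu0 hmono hun
  refine step3 S _ hxs hxd t _ ht n u hu0 hmono hun fun q => ?_
  refine step2 S r b hr hs k _ n u q fun K hK => ?_
  exact step1 S r b K t _ ht n u hu0 hmono hun q fun L' =>
    hcl r b k m i₀ i₁ t Sb hr hs hSb hrk hm hgood h1 ht ht1 h2 hi h3 h5 K hK n u hu0 hmono hun q L'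

end Pool.Agent.Helper38.FE
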